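import Pool.Agent.Work.MP_f82ddf_Y.Interface
import Pool.Agent.Work.MP_f82ddf_W.B_GPC

set_option autoImplicit false

/-! # THEOREM T (MP_f82ddf_nt), block GPT (helper75): independent coordinates of the generic point -/

namespace Pool.MPY

open MvPolynomial
open Pool.MPW (pv)

/-- a finite family contains a maximal algebraically independent one -/
theorem GPT_max {M F : Type} [Field M] [Field F] [Algebra M F] {N : ℕ} (v : Fin N → F) :
    ∃ (ρ : ℕ) (ι : Fin ρ → Fin N), AlgebraicIndependent M (fun i => v (ι i)) ∧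
      ∀ j, IsAlgebraic (IntermediateField.adjoin M (Set.range fun i => v (ι i))) (v j) := by
  classical
  obtain ⟨p, hp⟩ : ∃ p : ℕ → Prop, ∀ ρ, p ρ ↔ ∃ ι : Fin ρ → Fin N,
      AlgebraicIndependent M (fun i => v (ι i)) := ⟨_, fun _ => Iff.rfl⟩
  have hp0 : p 0 := by
    rw [hp]
    exact ⟨fun i => i.elim0, algebraicIndependent_empty_type⟩
  have hbd : ∀ ρ, p ρ → ρ ≤ N := by
    intro ρ hρ
    obtain ⟨ι, hι⟩ := (hp ρ).mp hρ
    have h1 : Function.Injective ι := by
      intro i j hij
      refine hι.injective ?_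
      show v (ι i) = v (ι j)
      rw [hij]
    have h2 := Fintype.card_le_of_injective ι h1
    simpa using h2
  have hm : p (Nat.findGreatest p N) := Nat.findGreatest_spec (Nat.zero_le N) hp0
  obtain ⟨ρ, hρ⟩ : ∃ ρ, ρ = Nat.findGreatest p N := ⟨_, rfl⟩
  rw [← hρ] at hm
  obtain ⟨ι, hι⟩ := (hp ρ).mp hm
  refine ⟨ρ, ι, hι, fun j => ?_⟩
  by_contra hj
  have htr : Transcendental (Algebra.adjoin M (Set.range fun i => v (ι i))) (v j) := by
    intro halg
    refine hj ?_
    have hmem : ∀ a ∈ Algebra.adjoin M (Set.range fun i => v (ι i)),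
        a ∈ IntermediateField.adjoin M (Set.range fun i => v (ι i)) := fun a ha =>
      IntermediateField.algebra_adjoin_le_adjoin M _ ha
    refine Pool.MPW.GPC_alg (R := Algebra.adjoin M (Set.range fun i => v (ι i)))
      (S := IntermediateField.adjoin M (Set.range fun i => v (ι i)))
      { toFun := fun a => ⟨a.1, hmem a.1 a.2⟩
        map_one' := rfl
        map_mul' := fun _ _ => rfl
        map_zero' := rfl
        map_add' := fun _ _ => rfl } ?_ ?_ halg
    · intro a a' haa
      exact Subtype.ext (congrArg (fun z : IntermediateField.adjoin M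
        (Set.range fun i => v (ι i)) => (z : F)) haa)
    · intro r
      rfl
  have h1 := (hι.option_iff_transcendental (v j)).mpr htr
  have h2 : p (ρ + 1) := by
    rw [hp]
    obtain ⟨φ⟩ : Nonempty (Fin (ρ + 1) ≃ Option (Fin ρ)) := ⟨finSuccEquiv ρ⟩
    refine ⟨fun i => (φ i).elim j ι, ?_⟩
    have h3 := h1.comp φ φ.injective
    have h4 : (fun i => v ((φ i).elim j ι)) =
        (fun o : Option (Fin ρ) => o.elim (v j) (fun i => v (ι i))) ∘ φ := by
      funext i
      show v ((φ i).elim j ι) = (φ i).elim (v j) (fun i => v (ι i))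
      cases φ i <;> rfl
    rw [h4]
    exact h3
  have h3 : ρ + 1 ≤ Nat.findGreatest p N := Nat.le_findGreatest (hbd _ h2) h2
  omega

theorem p_GPT (hTRM : Pool.MPW.Stmt_TRM) : Stmt_GPT := by
  classical
  intro M F _ _ _ w P b s hirr hgen
  obtain ⟨ρ, ι, hι, halg⟩ := GPT_max (M := M) (pv b s)
  have hw : w ≤ ρ := by
    obtain ⟨s', hs'⟩ : ∃ s' : Fin (ρ + (w + 2) + 1) → F, s' = Fin.append (Fin.append
      (fun i => pv b s (ι i)) (fun i : Fin (w + 2) => b (0, i))) (fun _ : Fin 1 => s) := ⟨_, rfl⟩
    obtain ⟨E, hE⟩ : ∃ E : IntermediateField M F,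
      E = IntermediateField.adjoin M (Set.range s') := ⟨_, rfl⟩
    have hrange : ∀ i, s' i ∈ E := by
      intro i
      rw [hE]
      exact IntermediateField.subset_adjoin M _ ⟨i, rfl⟩
    have hu : ∀ i, pv b s (ι i) ∈ E := by
      intro i
      have h2 := hrange (Fin.castAdd 1 (Fin.castAdd (w + 2) i))
      rwa [hs', Fin.append_left, Fin.append_left] at h2
    have hb : ∀ i, b (0, i) ∈ E := by
      intro i
      have h2 := hrange (Fin.castAdd 1 (Fin.natAdd ρ i))
      rwa [hs', Fin.append_left, Fin.append_right] at h2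
    have hs : s ∈ E := by
      have h2 := hrange (Fin.natAdd (ρ + (w + 2)) 0)
      rwa [hs', Fin.append_right] at h2
    have hKE : IntermediateField.adjoin M (Set.range fun i => pv b s (ι i)) ≤ E := by
      rw [IntermediateField.adjoin_le_iff]
      rintro _ ⟨i, rfl⟩
      exact hu i
    have hvE : ∀ j, IsAlgebraic E (pv b s j) := by
      intro j
      refine Pool.MPW.GPC_alg
        (R := IntermediateField.adjoin M (Set.range fun i => pv b s (ι i))) (S := E)
        (IntermediateField.inclusion hKE).toRingHom ?_ ?_ (halg j)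
      · exact (IntermediateField.inclusion hKE).injective
      · intro r
        rfl
    have hbE : ∀ p, IsAlgebraic E (b p) := by
      rintro ⟨i, j⟩
      have h1 : IsAlgebraic E (b (0, j)) := isAlgebraic_algebraMap (⟨b (0, j), hb j⟩ : E)
      have h2 : IsAlgebraic E (b (1, j)) := by
        have h3 : b (1, j) = pv b s j - s * b (0, j) := by
          rw [pv]
          ring
        rw [h3]
        exact (hvE j).sub ((isAlgebraic_algebraMap (⟨s, hs⟩ : E)).mul h1)
      fin_cases i
      · exact h1
      · exact h2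
    obtain ⟨p₀, hp₀⟩ := Pool.MPW.GPC_ind P b hirr hgen
    have hcard : Fintype.card {p : Fin 2 × Fin (w + 2) // p ≠ p₀} = 2 * w + 3 := by
      rw [Fintype.card_subtype_compl, Fintype.card_subtype_eq, Fintype.card_prod, Fintype.card_fin,
        Fintype.card_fin]
      omega
    have hle := hTRM M F (2 * w + 3) (ρ + (w + 2) + 1)
      (fun i => b ((Fintype.equivFinOfCardEq hcard).symm i : Fin 2 × Fin (w + 2))) s'
      (hp₀.comp _ (Fintype.equivFinOfCardEq hcard).symm.injective)
      (by
        intro i
        rw [← hE]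
        exact hbE _)
    omega
  refine ⟨fun i => ι (Fin.castLE hw i), ?_⟩
  exact hι.comp _ (Fin.castLE_injective hw)

end Pool.MPY
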