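import Pool.Agent.Work.MP_f82ddf_Y.Interface2
import Pool.Agent.Work.MP_f82ddf_Y.B_GPT

set_option autoImplicit false

/-! # THEOREM T (MP_f82ddf_nt), block DCO: dimension and coordinates -/

namespace Pool.MPY

open MvPolynomial

/-- DCO -/
theorem p_DCO (hTRM : Pool.MPW.Stmt_TRM) : Stmt_DCO := by
  intro Ω _ m d p hp hs n f hf
  classical
  let R := MvPolynomial (Fin (m + 1)) Ω ⧸ p
  let κ := FractionRing R
  let φ : MvPolynomial (Fin (m + 1)) Ω →ₐ[Ω] κ :=
    (IsScalarTower.toAlgHom Ω R κ).comp (Ideal.Quotient.mkₐ Ω p)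
  have hφ : ∀ g : MvPolynomial (Fin (m + 1)) Ω, φ g = 0 ↔ g ∈ p := by
    intro g
    constructor
    · intro hg
      have h1 : algebraMap R κ (Ideal.Quotient.mk p g) = 0 := hg
      have h2 := (IsFractionRing.injective R κ) (h1.trans (map_zero _).symm)
      exact Ideal.Quotient.eq_zero_iff_mem.1 h2
    · intro hg
      have h1 : Ideal.Quotient.mk p g = 0 := Ideal.Quotient.eq_zero_iff_mem.2 hg
      change algebraMap R κ (Ideal.Quotient.mk p g) = 0
      rw [h1, map_zero]
  have hind : ∀ (n : ℕ) (f : Fin n → MvPolynomial (Fin (m + 1)) Ω),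
      AlgebraicIndependent Ω (fun i => φ (f i)) ↔ IndMod p f := by
    intro n f
    have h3 : ∀ H : MvPolynomial (Fin n) Ω, aeval (fun i => φ (f i)) H = φ (aeval f H) := by
      intro H
      have h3 : φ (aeval f H) = (φ.comp (aeval f)) H := rfl
      rw [h3]
      congr 1
      apply MvPolynomial.algHom_ext
      intro i
      simp
    rw [algebraicIndependent_iff]
    constructor
    · intro h H hH
      apply h H
      rw [h3]
      exact (hφ _).2 hH
    · intro h H hH
      apply h H
      rw [h3] at hH
      exact (hφ _).1 hH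
  obtain ⟨ρ, ι, hι, halg⟩ := GPT_max (M := Ω) (fun j : Fin (m + 1) => φ (X j))
  have hρ : ρ ≤ d := by
    by_contra hlt
    have hle : d + 1 ≤ ρ := by omega
    refine hs (fun i => ι (Fin.castLE hle i)) ?_
    rw [← hind]
    exact hι.comp _ (Fin.castLE_injective hle)
  refine le_trans ?_ hρ
  refine hTRM Ω κ n ρ (fun i => φ (f i)) (fun i => φ (X (ι i))) ((hind n f).2 hf) ?_
  intro j
  have h4 : ∀ g : MvPolynomial (Fin (m + 1)) Ω, IsAlgebraic
      (IntermediateField.adjoin Ω (Set.range fun i => φ (X (ι i)))) (φ g) := by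
    intro g
    induction g using MvPolynomial.induction_on with
    | C a =>
      have h5 : φ (C a) = algebraMap Ω κ a := by
        have := φ.commutes a
        rw [← this]
        rfl
      rw [h5, IsScalarTower.algebraMap_apply Ω
        (IntermediateField.adjoin Ω (Set.range fun i => φ (X (ι i)))) κ]
      exact isAlgebraic_algebraMap _
    | add a b ha hb =>
      rw [map_add]
      exact ha.add hb
    | mul_X a i ha =>
      rw [map_mul]
      exact ha.mul (halg i)
  exact h4 (f j)

end Pool.MPY
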