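import Pool.Agent.Work.MP_f82ddf_Y.Interface

set_option autoImplicit false

/-! # THEOREM T, block DDR: the dimension drops -/

namespace Pool.MPY

open MvPolynomial

theorem DDR_dvd (Ω : Type) [Field Ω] (n : ℕ) (H : MvPolynomial (Fin (n + 1)) Ω)
    (h : aeval (Fin.cons 0 X : Fin (n + 1) → MvPolynomial (Fin n) Ω) H = 0) : X 0 ∣ H := by
  have h1 : (aeval (Fin.cons 0 X : Fin (n + 1) → MvPolynomial (Fin n) Ω)) =
      (AlgHom.restrictScalars Ω (Polynomial.aeval (0 : MvPolynomial (Fin n) Ω))).comp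
        (finSuccEquiv Ω n).toAlgHom := by
    apply MvPolynomial.algHom_ext
    intro i
    refine Fin.cases ?_ (fun j => ?_) i
    · rw [aeval_X, Fin.cons_zero]
      show (0 : MvPolynomial (Fin n) Ω) = Polynomial.aeval 0 (finSuccEquiv Ω n (X 0))
      rw [finSuccEquiv_X_zero, Polynomial.aeval_X]
    · rw [aeval_X, Fin.cons_succ]
      show (X j : MvPolynomial (Fin n) Ω) = Polynomial.aeval 0 (finSuccEquiv Ω n (X j.succ))
      rw [finSuccEquiv_X_succ, Polynomial.aeval_C]
      rfl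
  have h2 : Polynomial.aeval (0 : MvPolynomial (Fin n) Ω) (finSuccEquiv Ω n H) = 0 := by
    rw [h1] at h
    exact h
  have h3 : (finSuccEquiv Ω n H).coeff 0 = 0 := by
    rw [Polynomial.coeff_zero_eq_aeval_zero]
    exact h2
  obtain ⟨c, hc⟩ := Polynomial.X_dvd_iff.2 h3
  refine ⟨(finSuccEquiv Ω n).symm c, ?_⟩
  apply (finSuccEquiv Ω n).injective
  rw [map_mul, finSuccEquiv_X_zero, AlgEquiv.apply_symm_apply, hc]

/-- DDR. -/
theorem p_DDR : Stmt_DDR := by
  intro Ω σ _ p q hp hq hpq n f hf g hg hgp H hH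
  by_contra hne
  have hX : ¬ IsUnit (X 0 : MvPolynomial (Fin (n + 1)) Ω) := (MvPolynomial.X_prime (i := 0)).not_isUnit
  obtain ⟨H1, h, hH1⟩ :=
    (FiniteMultiplicity.of_not_isUnit hX hne).exists_eq_pow_mul_and_not_dvd
  apply hH1
  apply DDR_dvd
  apply hf
  have h1 : aeval (Fin.cons g f : Fin (n + 1) → MvPolynomial σ Ω) H1 ∈ p := by
    rw [h, map_mul, map_pow, aeval_X, Fin.cons_zero] at hH
    rcases hp.mem_or_mem hH with h2 | h2
    · exact absurd (hp.mem_of_pow_mem _ h2) hgp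
    · exact h2
  have h2 := hpq h1
  have h3 : (Ideal.Quotient.mkₐ Ω q).comp
      (aeval (Fin.cons g f : Fin (n + 1) → MvPolynomial σ Ω)) =
      ((Ideal.Quotient.mkₐ Ω q).comp (aeval f)).comp
        (aeval (Fin.cons 0 X : Fin (n + 1) → MvPolynomial (Fin n) Ω)) := by
    apply MvPolynomial.algHom_ext
    intro i
    refine Fin.cases ?_ (fun j => ?_) i
    · simp only [AlgHom.comp_apply, aeval_X, Fin.cons_zero, map_zero]
      exact Ideal.Quotient.eq_zero_iff_mem.2 hg
    · simp only [AlgHom.comp_apply, aeval_X, Fin.cons_succ]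
  have h4 : Ideal.Quotient.mk q (aeval f
      (aeval (Fin.cons 0 X : Fin (n + 1) → MvPolynomial (Fin n) Ω) H1)) = 0 := by
    have h5 := congrArg (fun φ => φ H1) h3
    simp only [AlgHom.comp_apply] at h5
    have h6 : Ideal.Quotient.mkₐ Ω q
      (aeval (Fin.cons g f : Fin (n + 1) → MvPolynomial σ Ω) H1) = 0 :=
      Ideal.Quotient.eq_zero_iff_mem.2 h2
    rw [h6] at h5
    exact h5.symm
  exact Ideal.Quotient.eq_zero_iff_mem.1 h4

end Pool.MPY
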