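import Pool.Agent.Work.MP_f82ddf_Y.Interface

set_option autoImplicit false

/-! # THEOREM T, block YEX: linear forms without common zero -/

namespace Pool.MPY

open MvPolynomial

theorem YEX_lf {F : Type} [CommRing F] {m : ℕ} (a z : Fin (m + 1) → F) :
    eval z (lf a) = ∑ i, a i * z i := by
  unfold lf
  rw [map_sum]
  exact Finset.sum_congr rfl (fun i _ => by rw [map_mul, eval_C, eval_X])

theorem YEX_ae {F σ : Type} [CommRing F] (g : σ → F) (f : MvPolynomial σ F) :
    (aeval g : MvPolynomial σ F →ₐ[F] F) f = eval g f := rfl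

/-- homogeneous polynomials at multiples -/
theorem YEX_smul {F : Type} [CommRing F] {m n : ℕ} {f : MvPolynomial (Fin (m + 1)) F}
    (hf : f.IsHomogeneous n) (s : F) (z : Fin (m + 1) → F) :
    eval (fun i => s * z i) f = s ^ n * eval z f := by
  rw [eval_eq', eval_eq', Finset.mul_sum]
  refine Finset.sum_congr rfl (fun d hd => ?_)
  have h1 : ∑ i, d i = n := by
    rw [← Finsupp.degree_eq_sum, hf.degree_eq_sum_deg_support hd, Finsupp.degree_apply]
  rw [← h1, ← Finset.prod_pow_eq_pow_sum]
  simp_rw [mul_pow]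
  rw [Finset.prod_mul_distrib]
  ring

/-- the zero set is a cone -/
def YEX_Cone {F : Type} [CommRing F] {m : ℕ} (I : Ideal (MvPolynomial (Fin (m + 1)) F)) : Prop :=
  ∀ z : Fin (m + 1) → F, (∀ f ∈ I, eval z f = 0) → ∀ s : F, ∀ f ∈ I,
    eval (fun i => s * z i) f = 0

theorem YEX_sup {F : Type} [CommRing F] {m : ℕ} {I : Ideal (MvPolynomial (Fin (m + 1)) F)}
    {a z : Fin (m + 1) → F} (h1 : ∀ f ∈ I, eval z f = 0) (h2 : ∑ i, a i * z i = 0) :
    ∀ f ∈ I ⊔ Ideal.span {lf a}, eval z f = 0 := by
  have h3 : I ⊔ Ideal.span {lf a} ≤ RingHom.ker (eval z) := by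
    refine sup_le (fun f hf => h1 f hf) ?_
    rw [Ideal.span_le, Set.singleton_subset_iff]
    show eval z (lf a) = 0
    rw [YEX_lf, h2]
  exact fun f hf => h3 hf

theorem YEX_cone_sup {F : Type} [CommRing F] {m : ℕ} {I : Ideal (MvPolynomial (Fin (m + 1)) F)}
    (hI : YEX_Cone I) (a : Fin (m + 1) → F) : YEX_Cone (I ⊔ Ideal.span {lf a}) := by
  intro z hz s
  have h1 : ∀ f ∈ I, eval z f = 0 := fun f hf => hz f (Ideal.mem_sup_left hf)
  have h2 : ∑ i, a i * z i = 0 := by
    rw [← YEX_lf]
    exact hz _ (Ideal.mem_sup_right (Ideal.subset_span rfl))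
  refine YEX_sup (hI z h1 s) ?_
  have h3 : ∑ i, a i * (s * z i) = s * ∑ i, a i * z i := by
    rw [Finset.mul_sum]
    exact Finset.sum_congr rfl (fun i _ => by ring)
  rw [h3, h2, mul_zero]

theorem YEX_cone_hmg {F : Type} [CommRing F] {m : ℕ} {I : Ideal (MvPolynomial (Fin (m + 1)) F)}
    (hI : Hmg I) : YEX_Cone I := by
  intro z hz s f hf
  rw [← sum_homogeneousComponent f, map_sum]
  refine Finset.sum_eq_zero (fun n _ => ?_)
  rw [YEX_smul (homogeneousComponent_isHomogeneous n f) s z, hz _ (hI f hf n), mul_zero]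

/-- modulo an ideal with all the variables every polynomial is a constant -/
theorem YEX_const {F : Type} [CommRing F] {m : ℕ} {q : Ideal (MvPolynomial (Fin (m + 1)) F)}
    (hq : ∀ i, X i ∈ q) (f : MvPolynomial (Fin (m + 1)) F) : ∃ c : F, f - C c ∈ q := by
  induction f using MvPolynomial.induction_on with
  | C a => exact ⟨a, by rw [sub_self]; exact q.zero_mem⟩
  | add f g hf hg =>
    obtain ⟨c, hc⟩ := hf
    obtain ⟨d, hd⟩ := hg
    refine ⟨c + d, ?_⟩
    have h1 : f + g - C (c + d) = (f - C c) + (g - C d) := by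
      rw [C_add]
      ring
    rw [h1]
    exact q.add_mem hc hd
  | mul_X f i hf => exact ⟨0, by rw [C_0, sub_zero]; exact q.mul_mem_left f (hq i)⟩

theorem YEX_dim0 {F : Type} [Field F] {m : ℕ} {q : Ideal (MvPolynomial (Fin (m + 1)) F)}
    (hq : ∀ i, X i ∈ q) (n : ℕ) : DimLE q n := by
  intro n' f hf
  rcases Nat.eq_zero_or_pos n' with h0 | h0
  · omega
  · exfalso
    obtain ⟨c, hc⟩ := YEX_const hq (f ⟨0, h0⟩)
    have h1 := hf (X ⟨0, h0⟩ - C c) (by
      rw [map_sub, aeval_X, aeval_C]
      exact hc)
    have h2 := congrArg (eval (fun _ : Fin n' => c + 1)) h1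
    rw [map_sub, eval_X, eval_C, map_zero] at h2
    have h3 : (1 : F) = 0 := by
      rw [← h2]
      ring
    exact one_ne_zero h3

/-- the claim -/
theorem YEX_claim (hDDR : Stmt_DDR) {F : Type} [Field F] [Infinite F] {m : ℕ} :
    ∀ (n : ℕ) (I : Ideal (MvPolynomial (Fin (m + 1)) F)), YEX_Cone I →
      (∀ q : Ideal (MvPolynomial (Fin (m + 1)) F), q.IsPrime → I ≤ q → DimLE q n) →
      ∃ y : Fin n → Fin (m + 1) → F, ∀ z : Fin (m + 1) → F, (∀ f ∈ I, eval z f = 0) →
        (∀ i, ∑ j, y i j * z j = 0) → z = 0 := by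
  intro n
  induction n with
  | zero =>
    intro I hI hdim
    refine ⟨fun i => i.elim0, fun z hz _ => ?_⟩
    by_contra hne
    obtain ⟨i, hi⟩ := Function.ne_iff.1 hne
    have hi' : z i ≠ 0 := hi
    let φ : MvPolynomial (Fin (m + 1)) F →ₐ[F] Polynomial F :=
      aeval (fun j => Polynomial.C (z j) * Polynomial.X)
    have hev : ∀ (s : F) (f : MvPolynomial (Fin (m + 1)) F),
        Polynomial.eval s (φ f) = eval (fun j => s * z j) f := by
      intro s f
      have h1 : (Polynomial.aeval s).comp φ =
          (aeval (fun j => s * z j) : MvPolynomial (Fin (m + 1)) F →ₐ[F] F) := by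
        apply MvPolynomial.algHom_ext
        intro j
        simp only [φ, AlgHom.comp_apply, aeval_X, map_mul, Polynomial.aeval_C, Polynomial.aeval_X,
          Algebra.algebraMap_self, RingHom.id_apply]
        ring
      have h2 := DFunLike.congr_fun h1 f
      rw [AlgHom.comp_apply, Polynomial.coe_aeval_eq_eval, YEX_ae] at h2
      exact h2
    have hker : ∀ f, φ f = 0 ↔ ∀ s : F, eval (fun j => s * z j) f = 0 := by
      intro f
      constructor
      · intro h s
        rw [← hev, h, Polynomial.eval_zero]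
      · intro h
        apply Polynomial.funext
        intro s
        rw [hev, h, Polynomial.eval_zero]
    have hIq : I ≤ RingHom.ker φ := fun f hf => (hker f).2 (fun s => hI z hz s f hf)
    have hprime : (RingHom.ker φ).IsPrime := RingHom.ker_isPrime _
    have hind : IndMod (RingHom.ker φ) (fun _ : Fin 1 => (X i : MvPolynomial (Fin (m + 1)) F)) := by
      intro H hH
      apply MvPolynomial.funext
      intro w
      have h1 := (hker _).1 hH (w 0 / z i)
      have h2 : eval (fun j => w 0 / z i * z j)
          (aeval (fun _ : Fin 1 => (X i : MvPolynomial (Fin (m + 1)) F)) H) = eval w H := by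
        have h3 : (aeval (fun j => w 0 / z i * z j) : MvPolynomial (Fin (m + 1)) F →ₐ[F] F).comp
            (aeval (fun _ : Fin 1 => (X i : MvPolynomial (Fin (m + 1)) F))) =
            (aeval w : MvPolynomial (Fin 1) F →ₐ[F] F) := by
          apply MvPolynomial.algHom_ext
          intro j
          have hj : j = 0 := Subsingleton.elim _ _
          subst hj
          rw [AlgHom.comp_apply, aeval_X, aeval_X, aeval_X, div_mul_cancel₀ _ hi']
        have h4 := DFunLike.congr_fun h3 H
        rw [AlgHom.comp_apply, YEX_ae, YEX_ae] at h4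
        exact h4
      rw [h2] at h1
      rw [h1, map_zero]
    have := hdim _ hprime hIq 1 _ hind
    omega
  | succ n ih =>
    intro I hI hdim
    -- the subspaces
    let W : Ideal (MvPolynomial (Fin (m + 1)) F) → Submodule F (Fin (m + 1) → F) := fun q =>
      { carrier := {a | lf a ∈ q}
        add_mem' := by
          intro a b ha hb
          have h1 : lf (a + b) = lf a + lf b := by
            unfold lf
            rw [← Finset.sum_add_distrib]
            exact Finset.sum_congr rfl (fun i _ => by rw [Pi.add_apply, C_add, add_mul])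
          show lf (a + b) ∈ q
          rw [h1]
          exact q.add_mem ha hb
        zero_mem' := by
          have h1 : lf (0 : Fin (m + 1) → F) = 0 := by
            unfold lf
            exact Finset.sum_eq_zero (fun i _ => by rw [Pi.zero_apply, C_0, zero_mul])
          show lf (0 : Fin (m + 1) → F) ∈ q
          rw [h1]
          exact q.zero_mem
        smul_mem' := by
          intro c a ha
          have h1 : lf (c • a) = C c * lf a := by
            unfold lf
            rw [Finset.mul_sum]
            exact Finset.sum_congr rfl (fun i _ => by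
              rw [Pi.smul_apply, smul_eq_mul, C_mul, mul_assoc])
          show lf (c • a) ∈ q
          rw [h1]
          exact q.mul_mem_left _ ha }
    let B : Set (Ideal (MvPolynomial (Fin (m + 1)) F)) := {q ∈ I.minimalPrimes | ¬ ∀ i, X i ∈ q}
    have hBfin : B.Finite :=
      (Ideal.finite_minimalPrimes_of_isNoetherianRing _ I).subset (Set.sep_subset _ _)
    have : Finite B := hBfin
    have hex : ∃ a : Fin (m + 1) → F, ∀ q ∈ B, lf a ∉ q := by
      by_contra hcon
      push Not at hcon
      have hcov : ⋃ q : B, ((W q.1 : Submodule F (Fin (m + 1) → F)) : Set (Fin (m + 1) → F)) =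
          Set.univ := by
        rw [Set.eq_univ_iff_forall]
        intro a
        obtain ⟨q, hq, ha⟩ := hcon a
        exact Set.mem_iUnion.2 ⟨⟨q, hq⟩, ha⟩
      obtain ⟨q, hq⟩ := Subspace.exists_eq_top_of_iUnion_eq_univ hcov
      apply q.2.2
      intro i
      have h1 : (Pi.single i 1 : Fin (m + 1) → F) ∈ W q.1 := by
        rw [hq]
        trivial
      have h2 : lf (Pi.single i 1 : Fin (m + 1) → F) = X i := by
        unfold lf
        rw [Finset.sum_eq_single i]
        · rw [Pi.single_eq_same, C_1, one_mul]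
        · intro j _ hj
          rw [Pi.single_eq_of_ne hj, C_0, zero_mul]
        · intro h
          exact absurd (Finset.mem_univ i) h
      rw [← h2]
      exact h1
    obtain ⟨a, ha⟩ := hex
    obtain ⟨y, hy⟩ := ih (I ⊔ Ideal.span {lf a}) (YEX_cone_sup hI a) (by
      intro q' hq' hle
      obtain ⟨q, hq, hqq'⟩ := Ideal.exists_minimalPrimes_le (le_sup_left.trans hle)
      have hqp : q.IsPrime := hq.1.1
      by_cases hX : ∀ i, X i ∈ q
      · exact YEX_dim0 (fun i => hqq' (hX i)) n
      · have hla : lf a ∉ q := ha q ⟨hq, hX⟩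
        have hla' : lf a ∈ q' := hle (Ideal.mem_sup_right (Ideal.subset_span rfl))
        intro n' f hf
        have h1 := hDDR F (Fin (m + 1)) q q' hqp hq' hqq' n' f hf (lf a) hla' hla
        have h2 := hdim q hqp hq.1.2 (n' + 1) _ h1
        omega)
    refine ⟨Fin.cons a y, fun z hz hz' => hy z (YEX_sup hz (by simpa using hz' 0)) (fun i => ?_)⟩
    have := hz' i.succ
    simpa using this

theorem p_YEX : Stmt_DDR → Stmt_YEX := by
  intro hDDR Ω _ _ m β p l hp hH hdim hl
  have hinf : Infinite Ω := IsAlgClosed.instInfinite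
  obtain ⟨y, hy⟩ := YEX_claim hDDR β (p ⊔ Ideal.span {lf l}) (YEX_cone_sup (YEX_cone_hmg hH) l) (by
    intro q hq hle n' f hf
    have h1 := hDDR Ω (Fin (m + 1)) p q hp hq (le_sup_left.trans hle) n' f hf (lf l)
      (hle (Ideal.mem_sup_right (Ideal.subset_span rfl))) hl
    have h2 := hdim (n' + 1) _ h1
    omega)
  exact ⟨y, fun z hz hz' hz'' => hy z (YEX_sup hz hz') hz''⟩

end Pool.MPY
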