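import Pool.Agent.Work.MP_f82ddf_Y.Interface

/-!
# Block CMP: components of a hypersurface section
-/

open Pool.Agent.Work.MP_f82ddf_nt.DQ

namespace Pool.MPY

open MvPolynomial

theorem p_CMP (hDDR : Stmt_DDR) : Stmt_CMP := by
  intro Ω σ _ β p q l y hp hq hdim hpq hlq hlp hy
  have hl : p ⊔ Ideal.span {l} ≤ q := sup_le hpq ((Ideal.span_singleton_le_iff_mem _).2 hlq)
  refine ⟨⟨⟨hq, hl⟩, ?_⟩, ?_⟩
  · rintro q' ⟨hq', hle⟩ hq'q
    by_contra hne
    obtain ⟨g, hgq, hgq'⟩ := Set.not_subset.1 hne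
    have h1 := hDDR Ω σ q' q hq' hq hq'q β y hy g hgq hgq'
    have hpq' : p ≤ q' := le_sup_left.trans hle
    have hlq' : l ∈ q' := hle (Ideal.mem_sup_right (Ideal.mem_span_singleton_self l))
    have h2 := hDDR Ω σ p q' hp hq' hpq' _ _ h1 l hlq' hlp
    have := hdim _ _ h2
    omega
  · intro f hf
    have := hdim _ _ (hDDR Ω σ p q hp hq hpq _ _ hf l hlq hlp)
    omega

end Pool.MPY
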