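import Pool.Agent.Work.MP_f82ddf_Y.Interface2

set_option autoImplicit false

/-! # THEOREM T (MP_f82ddf_nt), block DIY: target varieties of dimension at most 2 -/

open Pool.Agent.Work.MP_f82ddf_nt.DQ

namespace Pool.MPY

open MvPolynomial
open Pool.Agent.Work.MP_f82ddf_nt (eval₂_smul_hom)
open Pool.ThmP (Mor OnX OnK tm)
open Pool.MPV (Ful Full)

theorem DIY_countable (K : Type) [Field K] [NumberField K] : Countable (AlgebraicClosure K) := by
  rw [← Cardinal.mk_le_aleph0_iff]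
  have h1 : Cardinal.mk K ≤ Cardinal.aleph0 := by
    refine (Algebra.IsAlgebraic.cardinalMk_le_max ℚ K).trans ?_
    simp
  refine (Algebra.IsAlgebraic.cardinalMk_le_max K (AlgebraicClosure K)).trans ?_
  exact max_le h1 le_rfl

/-- The zeros of a homogeneous ideal are a cone. -/
theorem DIY_scale {F A : Type} [Field F] [Field A] {m : ℕ}
    {p : Ideal (MvPolynomial (Fin (m + 1)) F)} (hp : Hmg p) (ψ : F →+* A) (x : Fin (m + 1) → A)
    (h : ∀ f ∈ p, eval₂ ψ x f = 0) (a : A) : ∀ f ∈ p, eval₂ ψ (a • x) f = 0 := by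
  intro f hf
  have h1 : eval₂ ψ (a • x) f =
      ∑ n ∈ Finset.range (f.totalDegree + 1), eval₂ ψ (a • x) (homogeneousComponent n f) := by
    conv_lhs => rw [← sum_homogeneousComponent f]
    exact map_sum (eval₂Hom ψ (a • x)) _ _
  rw [h1]
  exact Finset.sum_eq_zero fun n _ => by
    rw [eval₂_smul_hom (homogeneousComponent_isHomogeneous n f), h _ (hp f hf n), mul_zero]

/-- No two of the quotients `y c / y c₀` are algebraically independent. -/
theorem DIY_alg {Ω : Type} [Field Ω] {n : ℕ} {p : Ideal (MvPolynomial (Fin (n + 1)) Ω)}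
    (hp : Hmg p) (hdim : DimLE p 2) (τ : Ω →+* ℂ) (y : Fin (n + 1) → Mer)
    (hy : ∀ f ∈ p, eval₂ (tm τ) y f = 0) (c₀ : Fin (n + 1)) (hc₀ : y c₀ ≠ 0) (t : Fin 2 → Mer)
    (htj : ∀ j, t j ∈ Set.range fun c => y c / y c₀) : ¬ AlgebraicIndependent ℂ t := by
  intro ht
  obtain ⟨a, ha⟩ := htj 0
  obtain ⟨b, hb⟩ := htj 1
  simp only at ha hb
  have hnot : ¬ IndMod p (![X c₀, X a, X b] : Fin 3 → MvPolynomial (Fin (n + 1)) Ω) := by
    intro h
    have h1 := hdim 3 _ h
    omega
  unfold IndMod at hnot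
  push Not at hnot
  obtain ⟨H, hH, hH0⟩ := hnot
  -- the relation at the multiples of `y`
  have h1 : ∀ z : ℂ, aeval (![C z, C z * X 0, C z * X 1] : Fin 3 → MvPolynomial (Fin 2) ℂ)
      (map τ H) = 0 := by
    intro z
    apply (algebraicIndependent_iff.1 ht)
    have h2 := DIY_scale hp (tm τ) y hy (algebraMap ℂ Mer z * (y c₀)⁻¹) _ hH
    have h3 : eval₂ (tm τ) ((algebraMap ℂ Mer z * (y c₀)⁻¹) • y)
        (aeval (![X c₀, X a, X b] : Fin 3 → MvPolynomial (Fin (n + 1)) Ω) H) =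
        eval₂ (tm τ) (![algebraMap ℂ Mer z, algebraMap ℂ Mer z * t 0, algebraMap ℂ Mer z * t 1] :
          Fin 3 → Mer) H := by
      have h4 : (eval₂Hom (tm τ) ((algebraMap ℂ Mer z * (y c₀)⁻¹) • y)).comp
          (aeval (![X c₀, X a, X b] : Fin 3 → MvPolynomial (Fin (n + 1)) Ω)).toRingHom =
          eval₂Hom (tm τ) (![algebraMap ℂ Mer z, algebraMap ℂ Mer z * t 0,
            algebraMap ℂ Mer z * t 1] : Fin 3 → Mer) := by
        apply MvPolynomial.ringHom_ext
        · intro r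
          simp
        · intro i
          fin_cases i
          · simp [hc₀]
          · simp [← ha]
            ring
          · simp [← hb]
            ring
      exact congrArg (fun f => f H) h4
    rw [h3] at h2
    have h5 : aeval t (aeval (![C z, C z * X 0, C z * X 1] : Fin 3 → MvPolynomial (Fin 2) ℂ)
        (map τ H)) = eval₂ (algebraMap ℂ Mer) (![algebraMap ℂ Mer z, algebraMap ℂ Mer z * t 0,
          algebraMap ℂ Mer z * t 1] : Fin 3 → Mer) (map τ H) := by
      have h6 : (aeval t).comp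
          (aeval (![C z, C z * X 0, C z * X 1] : Fin 3 → MvPolynomial (Fin 2) ℂ)) =
          aeval (![algebraMap ℂ Mer z, algebraMap ℂ Mer z * t 0,
            algebraMap ℂ Mer z * t 1] : Fin 3 → Mer) := by
        apply MvPolynomial.algHom_ext
        intro i
        fin_cases i
        · simp
        · simp
        · simp
      exact congrArg (fun f => f (map τ H)) h6
    rw [h5, eval₂_map]
    exact h2
  have h2 : map τ H * X 0 = 0 := by
    apply MvPolynomial.funext
    intro w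
    rw [map_mul, eval_X, map_zero]
    by_cases hw : w 0 = 0
    · rw [hw, mul_zero]
    have h3 : aeval (![w 1 / w 0, w 2 / w 0] : Fin 2 → ℂ)
        (aeval (![C (w 0), C (w 0) * X 0, C (w 0) * X 1] : Fin 3 → MvPolynomial (Fin 2) ℂ)
          (map τ H)) = eval w (map τ H) := by
      have h6 : (aeval (![w 1 / w 0, w 2 / w 0] : Fin 2 → ℂ)).comp
          (aeval (![C (w 0), C (w 0) * X 0, C (w 0) * X 1] :
            Fin 3 → MvPolynomial (Fin 2) ℂ)) = aeval w := by
        apply MvPolynomial.algHom_ext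
        intro i
        fin_cases i
        · simp
        · simp [mul_div_cancel₀ _ hw]
        · simp [mul_div_cancel₀ _ hw]
      exact congrArg (fun f => f (map τ H)) h6
    rw [← h3, h1, map_zero, zero_mul]
  apply hH0
  apply map_injective τ τ.injective
  rw [map_zero]
  rcases mul_eq_zero.1 h2 with h3 | h3
  · exact h3
  · exact absurd h3 (X_ne_zero _)

/-- DIY -/
theorem p_DIY (hJ : Stmt_JWI) (hMPY : Stmt_MPY) (hNCF : Stmt_NCF) (hDDR : Stmt_DDR)
    (hDCO : Stmt_DCO) (hMPT : Pool.ThmP.Stmt_MPT) (hFIB : Pool.ThmP.Stmt_FIB)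
    (hTRX : Pool.ThmP.Stmt_TRX) (hHOMR : Pool.ThmM0.Stmt_HOMR) : Stmt_DIY := by
  intro n c
  obtain ⟨N₁, hN⟩ := hJ n c
  refine ⟨N₁, ?_⟩
  intro K _ _ k N p₀ l hk hp₀p hp₀ hc hrel hlow m S hS g hg hinto hfull σ x hx r
  have := DIY_countable K
  obtain ⟨W, -, hWp, hWc⟩ := hN (AlgebraicClosure K) k N p₀ l hk hp₀ hc
  have hdim3 : DimLE p₀ 3 := by
    refine hDCO (AlgebraicClosure K) n 3 p₀ hp₀p fun s h => ?_
    obtain ⟨e, R, hR0, -, hR⟩ := hrel s
    apply hR0
    apply h
    have h0 : aeval (fun i => (X (s i) : MvPolynomial (Fin (n + 1)) (AlgebraicClosure K))) =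
        rename (R := AlgebraicClosure K) s := by
      apply MvPolynomial.algHom_ext
      intro i
      rw [aeval_X, rename_X]
    rw [h0]
    exact hR
  let τ : AlgebraicClosure K →+* ℂ :=
    letI : Algebra K ℂ := σ.toAlgebra
    (IsAlgClosed.lift (R := K) (M := ℂ) (S := AlgebraicClosure K)).toRingHom
  have hτ : τ.comp (algebraMap K (AlgebraicClosure K)) = σ := by
    let : Algebra K ℂ := σ.toAlgebra
    exact AlgHom.comp_algebraMap
      (IsAlgClosed.lift (R := K) (M := ℂ) (S := AlgebraicClosure K))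
  have hx' : OnK (tm τ) S x := by
    intro F hF
    have h6 : (tm τ).comp (algebraMap K (AlgebraicClosure K)) =
        (algebraMap ℂ Mer).comp σ := by
      rw [tm, RingHom.comp_assoc, hτ]
    rw [h6]
    exact hx F hF
  by_contra hcon
  push Not at hcon
  have hr0 : x (r 0) ≠ 0 := by
    have h := hcon 1 (X 0) (X_ne_zero _) (isHomogeneous_X _ _)
    rwa [aeval_X] at h
  have hx0 : x ≠ 0 := fun h => hr0 (congrFun h _)
  have hind := hHOMR 1 (fun i => x (r i)) hr0 hcon
  have hnc : Pool.MPL.NC x := by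
    refine ⟨r 0, r 1, hr0, fun a ha => ?_⟩
    have h2 := hind.transcendental 0
    have h3 : x (r (Fin.succ 0)) / x (r 0) = algebraMap ℂ Mer a := by
      rw [div_eq_iff hr0]
      exact ha
    rw [h3] at h2
    exact h2 (isAlgebraic_algebraMap a)
  obtain ⟨M1, -⟩ := hMPT K (AlgebraicClosure K) Mer m n S g (tm τ) x hx'
  obtain ⟨s, hs, c₀, hc₀⟩ := M1 hx0
  obtain ⟨hY1, hY2⟩ := hMPY K (AlgebraicClosure K) m n k N S g p₀ l hS hinto hfull τ x hx'
    s hs ⟨c₀, hc₀⟩
  have hNCy := hNCF K (AlgebraicClosure K) m n S g hS hg τ x hx' hnc s hs ⟨c₀, hc₀⟩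
  obtain ⟨p, hpW, hpy⟩ := hWc τ _ ⟨hNCy, hY1, hY2⟩
  obtain ⟨hpp, hph, hle, hplow⟩ := hWp p hpW
  have hnle : ¬ p ≤ p₀ := by
    intro h
    have h1 : p = p₀ := le_antisymm h hle
    rw [h1] at hplow
    exact absurd hplow (not_le.2 hlow)
  obtain ⟨q, hq, hq0⟩ := SetLike.not_le_iff_exists.1 hnle
  have hdim2 : DimLE p 2 := by
    intro n' f hf
    have h1 := hdim3 _ _ (hDDR (AlgebraicClosure K) (Fin (n + 1)) p₀ p hp₀p hpp hle n' f hf q hq
      hq0)
    omega
  set A : Set Mer := Set.range fun c => eval₂ (tm τ) x (s c) / eval₂ (tm τ) x (s c₀) with hA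
  have h2 : ∀ j : Fin (1 + 1), IsAlgebraic (Algebra.adjoin ℂ A) (x (r j.succ) / x (r 0)) :=
    fun j => hFIB K (AlgebraicClosure K) m n S g hS hg τ x hx' s hs c₀ hc₀ (r j.succ) (r 0) hr0
  have h3 : ∀ a ∈ A, IsAlgebraic (Algebra.adjoin ℂ A) a := fun a ha =>
    isAlgebraic_algebraMap (⟨a, Algebra.subset_adjoin ha⟩ : Algebra.adjoin ℂ A)
  obtain ⟨t, ht1, ht2⟩ := hTRX (1 + 1) _ A A hind h2 h3
  exact DIY_alg hph hdim2 τ (fun c => eval₂ (tm τ) x (s c)) hpy c₀ hc₀ t ht1 ht2

end Pool.MPY
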