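import Pool.Agent.Work.MP_f82ddf_Y.Interface2

set_option autoImplicit false

/-! # THEOREM T (MP_f82ddf_nt), block DM1 (helper75): two independent coordinates -/

open Pool.Agent.Work.MP_f82ddf_nt.DQ

namespace Pool.MPY

open MvPolynomial
open Pool.ThmP (tm)
open Pool.MPL (NC)

theorem DM1_comp {Ω σ τ : Type} [Field Ω] (ι : σ → τ) (H : MvPolynomial σ Ω) (n : ℕ) :
    homogeneousComponent n (rename ι H) = rename ι (homogeneousComponent n H) := by
  have h1 : rename ι H = ∑ k ∈ Finset.range (H.totalDegree + 1),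
      rename ι (homogeneousComponent k H) := by
    conv_lhs => rw [← sum_homogeneousComponent H]
    rw [map_sum]
  have h2 : ∀ k, homogeneousComponent n (rename ι (homogeneousComponent k H)) =
      if k = n then rename ι (homogeneousComponent n H) else 0 := by
    intro k
    have h3 : (rename ι (homogeneousComponent k H)).IsHomogeneous k :=
      (homogeneousComponent_isHomogeneous k H).rename_isHomogeneous
    rw [homogeneousComponent_of_mem h3]
    by_cases hk : k = n
    · rw [if_pos hk, if_pos hk.symm, hk]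
    · rw [if_neg hk, if_neg (fun h => hk h.symm)]
  rw [h1, map_sum, Finset.sum_congr rfl (fun k _ => h2 k), Finset.sum_ite_eq']
  by_cases hn : n ∈ Finset.range (H.totalDegree + 1)
  · rw [if_pos hn]
  · rw [if_neg hn]
    have h3 : H.totalDegree < n := by
      rw [Finset.mem_range] at hn
      omega
    rw [homogeneousComponent_eq_zero n H h3, map_zero]

theorem DM1_deg {Ω : Type} [Field Ω] {G : MvPolynomial (Fin 2) Ω} {n : ℕ}
    (hG : G.IsHomogeneous n) {μ : Fin 2 →₀ ℕ} (hμ : μ ∈ G.support) : μ 0 + μ 1 = n := by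
  have h1 : Finsupp.weight (fun _ : Fin 2 => 1) μ = n := hG (mem_support_iff.mp hμ)
  rw [← Finsupp.degree_eq_weight_one, Finsupp.degree_eq_sum, Fin.sum_univ_two] at h1
  exact h1

theorem DM1_form {Ω : Type} [Field Ω] (τ : Ω →+* ℂ) {G : MvPolynomial (Fin 2) Ω} {n : ℕ}
    (hG : G.IsHomogeneous n) (hG0 : G ≠ 0) (a b : Mer) (ha : a ≠ 0)
    (h : eval₂ (tm τ) ![a, b] G = 0) : ∃ z : ℂ, b = algebraMap ℂ Mer z * a := by
  classical
  obtain ⟨g, hg⟩ : ∃ g : Polynomial ℂ,
      g = ∑ μ ∈ G.support, Polynomial.monomial (μ 1) (τ (G.coeff μ)) := ⟨_, rfl⟩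
  have hg0 : g ≠ 0 := by
    obtain ⟨μ₀, hμ₀⟩ : ∃ μ₀, μ₀ ∈ G.support := by
      rw [← Finset.nonempty_def, Finset.nonempty_iff_ne_empty]
      intro h0
      exact hG0 (support_eq_empty.mp h0)
    intro h0
    have h1 : g.coeff (μ₀ 1) = τ (G.coeff μ₀) := by
      rw [hg, Polynomial.finsetSum_coeff, Finset.sum_eq_single μ₀]
      · rw [Polynomial.coeff_monomial, if_pos rfl]
      · intro μ hμ hne
        rw [Polynomial.coeff_monomial, if_neg]
        intro h2
        refine hne (Finsupp.ext fun i => ?_)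
        have h3 := DM1_deg hG hμ
        have h4 := DM1_deg hG hμ₀
        fin_cases i
        · show μ 0 = μ₀ 0
          omega
        · exact h2
      · intro h2
        exact absurd hμ₀ h2
    rw [h0, Polynomial.coeff_zero] at h1
    exact (mem_support_iff.mp hμ₀) ((map_eq_zero τ).mp h1.symm)
  have h1 : eval₂ (tm τ) ![a, b] G = a ^ n * Polynomial.aeval (b / a) g := by
    rw [eval₂_eq', hg, map_sum, Finset.mul_sum]
    refine Finset.sum_congr rfl (fun μ hμ => ?_)
    rw [Polynomial.aeval_monomial, Fin.prod_univ_two]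
    show (algebraMap ℂ Mer) (τ (G.coeff μ)) * (a ^ μ 0 * b ^ μ 1) = _
    have h3 := DM1_deg hG hμ
    have h4 : b ^ μ 1 = (b / a) ^ μ 1 * a ^ μ 1 := by
      rw [← mul_pow, div_mul_cancel₀ b ha]
    rw [h4, ← h3, pow_add]
    ring
  rw [h1] at h
  have h2 : Polynomial.aeval (b / a) g = 0 :=
    (mul_eq_zero.mp h).resolve_left (pow_ne_zero n ha)
  have halg : IsAlgebraic ℂ (b / a) := ⟨g, hg0, h2⟩
  have hirr : Irreducible (minpoly ℂ (b / a)) := minpoly.irreducible halg.isIntegral
  have hd := IsAlgClosed.degree_eq_one_of_irreducible ℂ hirr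
  obtain ⟨z, hz⟩ := minpoly.mem_range_of_degree_eq_one ℂ (b / a) hd
  exact ⟨z, (div_eq_iff ha).mp hz.symm⟩

theorem p_DM1 : Stmt_DM1 := by
  intro Ω _ m p hp τ x hx hpx
  obtain ⟨i, j, hi, hj⟩ := hx
  refine ⟨fun k => X (![i, j] k), fun H hH => ?_⟩
  by_contra hH0
  have h1 : aeval (fun k => (X (![i, j] k) : MvPolynomial (Fin (m + 1)) Ω)) H =
      rename ![i, j] H := by
    have h5 : aeval (fun k => (X (![i, j] k) : MvPolynomial (Fin (m + 1)) Ω)) =
        rename (R := Ω) ![i, j] := by
      apply algHom_ext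
      intro k
      rw [aeval_X, rename_X]
    rw [h5]
  rw [h1] at hH
  obtain ⟨n, hn⟩ : ∃ n, homogeneousComponent n H ≠ 0 := by
    by_contra hc
    push Not at hc
    refine hH0 ?_
    rw [← sum_homogeneousComponent H]
    exact Finset.sum_eq_zero (fun k _ => hc k)
  have h2 := hp _ hH n
  rw [DM1_comp] at h2
  have h3 := hpx _ h2
  rw [eval₂_rename] at h3
  have h4 : x ∘ ![i, j] = ![x i, x j] := by
    funext k
    fin_cases k <;> rfl
  rw [h4] at h3
  obtain ⟨z, hz⟩ := DM1_form τ (homogeneousComponent_isHomogeneous n H) hn (x i) (x j) hi h3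
  exact hj z hz

end Pool.MPY
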