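import Pool.Agent.Work.MP_f82ddf_Y.Interface2
import Pool.Agent.Work.MP_f82ddf_M.T_FIN

set_option autoImplicit false

/-! # Block DRT (helper72): the core for spanning nodes -/

open Pool.Agent.Work.MP_f82ddf_nt.DQ

namespace Pool.MPY

open MvPolynomial
open Pool.Agent.Work.MP_f82ddf_M5 (lineAt resAt chow at2 comb Data)
open Pool.ThmM (NonProp HypData LastMonic IsRat om dv vP)
open Pool.ThmM0 (Per)
open Pool.ThmM.Chow (Phi Mov)
open Pool.MPV (Ful Full)

theorem p_DRT : Pool.MPV.Stmt_CORF → Pool.ThmM.Stmt_TRA → Stmt_DRT := by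
  classical
  intro hC hT c
  obtain ⟨β, hβ⟩ := hC
  obtain ⟨tr, -, -, htr3, htr4⟩ := hT
  refine ⟨fun w d => β w d + c + d, ?_⟩
  intro r w d Q A T lift hH hdiv hspan k x hper hnode hcard hmov
  dsimp only at hdiv
  set T' : Finset (Fin (r + 1) → ℂ) :=
    T.filter fun u => ∑ i, algebraMap ℂ Mer (u i) * x i ≠ 0 with hT'
  have hsub : ∀ u ∈ T', u ∈ T := fun u hu => (Finset.mem_filter.1 hu).1
  have hprime : Prime Q := hH.irr.prime
  -- few nodes are thrown away
  have hfew : (T \ T').card ≤ c := by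
    have h1 : {u | u ∈ T ∧ ∑ i, algebraMap ℂ Mer (u i) * x i = 0} = ↑(T \ T') := by
      ext u
      rw [Finset.mem_coe, Finset.mem_sdiff, Finset.mem_filter, Set.mem_ofPred_eq]
      constructor
      · rintro ⟨h1, h2⟩
        exact ⟨h1, fun h => h.2 h2⟩
      · rintro ⟨h1, h2⟩
        refine ⟨h1, ?_⟩
        by_contra h3
        exact h2 ⟨h1, h3⟩
    rw [h1, Set.ncard_coe_finset] at hcard
    exact hcard
  have hdiv' : ∀ (e : ℕ) (f : MvPolynomial (Fin (w + 2)) ℂ), e ≤ β w d + d →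
      f.IsHomogeneous e → (∀ u ∈ T', eval (lift u) f = 0) → Q ∣ f := by
    intro e f he hf hfz
    choose l hl1 hl2 hl3 using fun u : Fin (r + 1) → ℂ =>
      Pool.ThmM.FIN.linform hH.hw hH.hd hH.mon (lift u)
    have h1 : (∏ u ∈ T \ T', l u).IsHomogeneous (T \ T').card := by
      have := IsHomogeneous.prod (T \ T') l (fun _ => 1) fun u _ => hl1 u
      simpa using this
    have h2 := hdiv (e + (T \ T').card) (f * ∏ u ∈ T \ T', l u) (by omega) (hf.mul h1) (by
      intro u hu
      rw [map_mul, map_prod]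
      by_cases hu' : u ∈ T'
      · rw [hfz u hu', zero_mul]
      · rw [Finset.prod_eq_zero (Finset.mem_sdiff.2 ⟨hu, hu'⟩) (hl2 u), mul_zero])
    rcases hprime.dvd_or_dvd h2 with h | h
    · exact h
    · rw [Prime.dvd_finsetProd_iff hprime] at h
      obtain ⟨u, -, hu⟩ := h
      exact absurd hu (hl3 u)
  refine hβ k r w d Q A T' lift x tr ?_ ?_ ?_ ?_ htr3 ?_ ?_ hmov
  · exact ⟨hH.hw, hH.hwr, hH.hd, hH.irr, hH.homQ, hH.mon, hH.homA,
      fun u hu => hH.zero u (hsub u hu), fun u hu => hH.smooth u (hsub u hu),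
      fun u hu => hH.prop u (hsub u hu)⟩
  · exact fun e f he hf hfz => hdiv' e f (by omega) hf hfz
  · intro y hy
    have hev : ∀ u ∈ T, ∃ a : ℂ, a ≠ 0 ∧
        eval (lift u) (∑ i, C (y i) * A i) = a * ∑ i, u i * y i := by
      intro u hu
      obtain ⟨a, ha, hA⟩ := hH.prop u hu
      refine ⟨a, ha, ?_⟩
      rw [map_sum, Finset.mul_sum]
      refine Finset.sum_congr rfl fun i _ => ?_
      rw [map_mul, eval_C, hA]
      ring
    have h1 : Q ∣ ∑ i, C (y i) * A i := by
      refine hdiv' d _ (by omega) ?_ ?_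
      · refine IsHomogeneous.sum _ _ _ fun i _ => ?_
        have := (isHomogeneous_C (Fin (w + 2)) (y i)).mul (hH.homA i)
        rwa [zero_add] at this
      · intro u hu
        obtain ⟨a, -, h⟩ := hev u (hsub u hu)
        rw [h, hy u hu, mul_zero]
    refine hspan y fun u hu => ?_
    obtain ⟨a, ha, h⟩ := hev u hu
    obtain ⟨g, hg⟩ := h1
    rw [hg, map_mul, hH.zero u hu, zero_mul] at h
    rcases mul_eq_zero.1 h.symm with h2 | h2
    · exact absurd h2 ha
    · exact h2
  · intro u hu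
    exact (Finset.mem_filter.1 hu).2
  · intro i
    obtain ⟨f, hf, hx', hp⟩ := hper i
    obtain ⟨hf', h⟩ := htr4 f hf
    rw [hx', h]
    congr 1
    funext z
    exact hp z
  · exact fun u hu => hnode u (hsub u hu)

end Pool.MPY
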