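import Pool.Agent.Work.MP_f82ddf_Y.Interface

set_option autoImplicit false

/-!
# DRV: a derivation with given values on algebraically independent elements
-/

open MvPolynomial

namespace Pool.MPY

open scoped IntermediateField.algebraAdjoinAdjoin in
/-- a derivation with given values on a transcendence basis -/
theorem DRV_basis (F : Type) [Field F] [Algebra ℂ F] (B : Set F)
    (hB : IsTranscendenceBasis ℂ (Subtype.val : B → F)) (g : B → F) :
    ∃ D : Derivation ℂ F F, ∀ b : B, D (b : F) = g b := by
  have hind : AlgebraicIndependent ℂ (Subtype.val : B → F) := hB.1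
  have h1 : Algebra.FormallyEtale (Algebra.adjoin ℂ (Set.range (Subtype.val : B → F)))
      (IntermediateField.adjoin ℂ (Set.range (Subtype.val : B → F))) :=
    .of_isLocalization (nonZeroDivisors _)
  have h2 : Algebra.IsAlgebraic (IntermediateField.adjoin ℂ (Set.range (Subtype.val : B → F))) F :=
    hB.isAlgebraic_field
  have h3 : Algebra.FormallyEtale
      (IntermediateField.adjoin ℂ (Set.range (Subtype.val : B → F))) F :=
    Algebra.FormallyEtale.of_isSeparable _ F
  have h4 : Algebra.FormallyEtale (Algebra.adjoin ℂ (Set.range (Subtype.val : B → F))) F :=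
    Algebra.FormallyEtale.comp _
      (IntermediateField.adjoin ℂ (Set.range (Subtype.val : B → F))) _
  let e := hind.aevalEquiv
  let _ : Algebra (MvPolynomial B ℂ) F := (aeval (Subtype.val : B → F)).toRingHom.toAlgebra
  have : IsScalarTower ℂ (MvPolynomial B ℂ) F := by
    refine IsScalarTower.of_algebraMap_eq' ?_
    ext x
    show algebraMap ℂ F x = aeval (Subtype.val : B → F) (C x)
    rw [aeval_C]
  let mk : Derivation ℂ (MvPolynomial B ℂ) F := mkDerivation ℂ g
  have hsm : ∀ (a : Algebra.adjoin ℂ (Set.range (Subtype.val : B → F))) (f : F),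
      e.symm a • f = a • f := by
    intro a f
    rw [Algebra.smul_def, Algebra.smul_def]
    congr 1
    show aeval (Subtype.val : B → F) (e.symm a) = _
    rw [← hind.algebraMap_aevalEquiv]
    show algebraMap _ F (e (e.symm a)) = _
    rw [AlgEquiv.apply_symm_apply]
  let D₀ : Derivation ℂ (Algebra.adjoin ℂ (Set.range (Subtype.val : B → F))) F :=
    Derivation.mk' (mk.toLinearMap ∘ₗ e.symm.toLinearMap) (by
      intro a b
      show mk (e.symm (a * b)) = a • mk (e.symm b) + b • mk (e.symm a)
      rw [map_mul, mk.leibniz, hsm, hsm])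
  have hD₀ : ∀ a, D₀ a = mk (e.symm a) := fun a => rfl
  let D : Derivation ℂ F F :=
    ((D₀.liftKaehlerDifferential.liftBaseChange F).comp
      (KaehlerDifferential.tensorKaehlerEquivOfFormallyEtale ℂ
        (Algebra.adjoin ℂ (Set.range (Subtype.val : B → F))) F).symm.toLinearMap).compDer
      (KaehlerDifferential.D ℂ F)
  refine ⟨D, fun b => ?_⟩
  have h5 : ∀ s : Algebra.adjoin ℂ (Set.range (Subtype.val : B → F)),
      D (algebraMap _ F s) = D₀ s := by
    intro s
    show (D₀.liftKaehlerDifferential.liftBaseChange F)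
      ((KaehlerDifferential.tensorKaehlerEquivOfFormallyEtale ℂ _ F).symm
        (KaehlerDifferential.D ℂ F (algebraMap _ F s))) = _
    rw [KaehlerDifferential.tensorKaehlerEquivOfFormallyEtale_symm_D_algebraMap,
      LinearMap.liftBaseChange_one_tmul, Derivation.liftKaehlerDifferential_comp_D]
  have h6 : algebraMap _ F (e (X b)) = (b : F) := by
    show algebraMap _ F (hind.aevalEquiv (X b)) = _
    rw [hind.algebraMap_aevalEquiv, aeval_X]
  have h7 := h5 (e (X b))
  rw [h6, hD₀, AlgEquiv.symm_apply_apply, mkDerivation_X] at h7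
  exact h7

theorem p_DRV : Stmt_DRV := by
  intro F _ _ n z hz
  obtain ⟨B, hB, hB'⟩ := exists_isTranscendenceBasis_superset (R := ℂ) (A := F)
    (s := Set.range z) (AlgebraicIndependent.coe_range hz)
  classical
  obtain ⟨D, hD⟩ := DRV_basis F B hB' (fun b => if (b : F) = z 0 then 1 else 0)
  refine ⟨D, ?_, fun i => ?_⟩
  · have h := hD ⟨z 0, hB ⟨0, rfl⟩⟩
    simpa using h
  · have h := hD ⟨z i.succ, hB ⟨i.succ, rfl⟩⟩
    have hne : z i.succ ≠ z 0 := fun h0 => (Fin.succ_ne_zero i) (hz.injective h0)
    simpa [hne] using h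

end Pool.MPY
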