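import Pool.Agent.Work.MP_f82ddf_Y.Interface2

set_option autoImplicit false

/-! # Block DVC (helper60): divisors of complex polynomials -/

open Pool.Agent.Work.MP_f82ddf_nt.DQ

namespace Pool.MPY

open MvPolynomial

/-- irreducible complex polynomials stay prime over larger fields -/
theorem DVC_prime (hABS : Pool.MPW.Stmt_ABS) {M σ : Type} [Field M] [Algebra ℂ M] [Finite σ]
    {p : MvPolynomial σ ℂ} (hp : Prime p) : Prime (map (algebraMap ℂ M) p) := by
  let e : σ ≃ Fin (Nat.card σ) := Finite.equivFin σ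
  have h1 : Irreducible (renameEquiv ℂ e p) :=
    (MulEquiv.irreducible_iff (renameEquiv ℂ e)).2 hp.irreducible
  have h2 := hABS M (Nat.card σ) _ h1
  have h3 : map (algebraMap ℂ M) (renameEquiv ℂ e p) =
      renameEquiv M e (map (algebraMap ℂ M) p) := by
    rw [renameEquiv_apply, renameEquiv_apply, map_rename]
  rw [h3] at h2
  exact ((MulEquiv.irreducible_iff (renameEquiv M e)).1 h2).prime

theorem p_DVC (hABS : Pool.MPW.Stmt_ABS) : Stmt_DVC := by
  intro M σ _ _ _ P H hH hP
  have key : ∀ H : MvPolynomial σ ℂ, ∀ P : MvPolynomial σ M, H ≠ 0 →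
      P ∣ map (algebraMap ℂ M) H →
      ∃ (c : M) (G : MvPolynomial σ ℂ), c ≠ 0 ∧ G ≠ 0 ∧ P = C c * map (algebraMap ℂ M) G := by
    intro H
    induction H using UniqueFactorizationMonoid.induction_on_prime with
    | h₁ => intro P h; exact absurd rfl h
    | h₂ a ha =>
      intro P _ hPa
      have h1 : IsUnit P := isUnit_of_dvd_unit hPa (ha.map (map (algebraMap ℂ M)))
      obtain ⟨c, hc, hcP⟩ := MvPolynomial.isUnit_iff_eq_C_of_isReduced.1 h1
      exact ⟨c, 1, hc.ne_zero, one_ne_zero, by rw [map_one, mul_one, hcP]⟩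
    | h₃ a p ha hp ih =>
      intro P _ hPa
      rw [map_mul] at hPa
      have hpM := DVC_prime hABS (M := M) hp
      by_cases hd : map (algebraMap ℂ M) p ∣ P
      · obtain ⟨P', rfl⟩ := hd
        obtain ⟨c, G, hc, hG, hcG⟩ := ih P' ha ((mul_dvd_mul_iff_left hpM.ne_zero).1 hPa)
        exact ⟨c, p * G, hc, mul_ne_zero hp.ne_zero hG, by rw [hcG, map_mul]; ring⟩
      · obtain ⟨T, hT⟩ := hPa
        have h1 : map (algebraMap ℂ M) p ∣ T :=
          (hpM.dvd_or_dvd ⟨_, hT.symm⟩).resolve_left hd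
        obtain ⟨T', rfl⟩ := h1
        have h2 : map (algebraMap ℂ M) a = P * T' := by
          apply mul_left_cancel₀ hpM.ne_zero
          rw [hT]
          ring
        exact ih P ha ⟨T', h2⟩
  exact key H P hH hP

end Pool.MPY
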