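import Pool.Agent.Work.MP_f82ddf_Y.Interface2
import Pool.Agent.Work.MP_f82ddf_H.B_BPF

/-! # Block DVL of THEOREM T (helper67; adapted from block BPF of THEOREM H) -/

set_option autoImplicit false

open Pool.Agent.Work.MP_f82ddf_nt.DQ

namespace Pool.MPY

open MvPolynomial
open Pool.ThmM (om dv)

theorem DVL_lin {κ : Type} [Field κ] [Algebra ℂ κ] {m : ℕ} (u : Fin (m + 1) → ℂ)
    (x : Fin (m + 1) → κ) :
    eval₂ ((algebraMap ℂ κ).comp (RingHom.id ℂ)) x (∑ i, C (u i) * X i) =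
      ∑ i, algebraMap ℂ κ (u i) * x i := by
  rw [eval₂_sum]
  refine Finset.sum_congr rfl fun i _ => ?_
  rw [eval₂_mul, eval₂_C, eval₂_X]
  rfl

/-- the ideal at a multiple of a point -/
theorem DVL_hmg {κ : Type} [Field κ] [Algebra ℂ κ] {m : ℕ}
    {p : Ideal (MvPolynomial (Fin (m + 1)) ℂ)} (hp : Hmg p) (x : Fin (m + 1) → κ) (c : κ)
    (hc : c ≠ 0) (h : ∀ f ∈ p, aeval (fun i => c * x i) f = 0) (f : MvPolynomial (Fin (m + 1)) ℂ)
    (hf : f ∈ p) : eval₂ ((algebraMap ℂ κ).comp (RingHom.id ℂ)) x f = 0 := by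
  have h1 : f = ∑ n ∈ Finset.range (f.totalDegree + 1), homogeneousComponent n f :=
    (sum_homogeneousComponent f).symm
  rw [h1, eval₂_sum]
  refine Finset.sum_eq_zero fun n _ => ?_
  have h2 := h _ (hp f hf n)
  have h3 := Pool.MPH.BPF_smul ((algebraMap ℂ κ).comp (RingHom.id ℂ))
    (homogeneousComponent_isHomogeneous n f) c x
  have h4 : eval₂ ((algebraMap ℂ κ).comp (RingHom.id ℂ)) (fun i => c * x i)
      (homogeneousComponent n f) = 0 := h2
  rw [h4] at h3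
  exact (mul_eq_zero.1 h3.symm).resolve_left (pow_ne_zero _ hc)

theorem p_DVL : Pool.ThmP.Stmt_NUL → Pool.ThmM.Stmt_VAL → Pool.ThmM.Stmt_ORD →
    Pool.ThmM.Chow.Stmt_OZE → Stmt_DVL := by
  intro _ hV hD hO m r p L hp hL y hy hpy
  suffices hmain : ∀ z₀, (fun j => ∑ i, algebraMap ℂ Mer (L j i) * y i) ≠ 0 ∧
      dv (fun j => ∑ i, algebraMap ℂ Mer (L j i) * y i) z₀ = dv y z₀ from
    ⟨(hmain 0).1, fun z => (hmain z).2⟩
  intro z₀
  obtain ⟨v1, v2, v3, v4, v5, v6⟩ := hV z₀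
  obtain ⟨O, θ, hOθ⟩ := hO z₀
  -- a coordinate of minimal order
  obtain ⟨i₁, -, hi₁⟩ := Finset.exists_min_image (Finset.univ : Finset (Fin (m + 1)))
    (fun i => om (y i) z₀) Finset.univ_nonempty
  have hxi : y i₁ ≠ 0 := by
    intro h0
    apply hy
    funext i
    have h := hi₁ i (Finset.mem_univ _)
    rw [(v3 (y i₁)).2 h0, top_le_iff, v3] at h
    exact h
  have hfin : om (y i₁) z₀ ≠ ⊤ := fun h => hxi ((v3 _).1 h)
  have hx'0 : ∀ i, 0 ≤ om ((y i₁)⁻¹ * y i) z₀ := by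
    intro i
    have h1 : om ((y i₁)⁻¹ * y i) z₀ + om (y i₁) z₀ = om (y i) z₀ := by
      rw [← v1]
      congr 1
      field_simp
    have h2 := hi₁ i (Finset.mem_univ _)
    change om (y i₁) z₀ ≤ om (y i) z₀ at h2
    rw [← h1] at h2
    by_contra h3
    rw [not_le] at h3
    have h4 := WithTop.add_lt_add_right hfin h3
    rw [zero_add] at h4
    exact absurd h4 (not_lt.2 h2)
  -- the point with values in the local ring
  obtain ⟨xo, hxo⟩ : ∃ xo : Fin (m + 1) → O, ∀ i, (xo i : Mer) = (y i₁)⁻¹ * y i :=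
    ⟨fun i => ⟨(y i₁)⁻¹ * y i, (hOθ.mem _).2 (hx'0 i)⟩, fun _ => rfl⟩
  have hxo' : (fun i => (xo i : Mer)) = fun i => (y i₁)⁻¹ * y i := funext hxo
  obtain ⟨x', hx'⟩ : ∃ x' : Fin (m + 1) → Mer, x' = fun i => (y i₁)⁻¹ * y i := ⟨_, rfl⟩
  have hxx : y = fun i => y i₁ * x' i := by
    funext i
    rw [hx']
    field_simp
  obtain ⟨q, hq⟩ : ∃ q : Fin (m + 1) → ℂ, q = fun i => θ (xo i) := ⟨_, rfl⟩
  have hq1 : q i₁ = 1 := by
    have h1 : xo i₁ = 1 := by
      apply Subtype.ext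
      rw [hxo]
      exact inv_mul_cancel₀ hxi
    rw [hq]
    change θ (xo i₁) = 1
    rw [h1, map_one]
  have hq0 : q ≠ 0 := by
    intro h
    have h1 := congrFun h i₁
    rw [hq1] at h1
    exact one_ne_zero h1
  have hev : ∀ F : MvPolynomial (Fin (m + 1)) ℂ, ∃ f : O,
      (f : Mer) = eval₂ ((algebraMap ℂ Mer).comp (RingHom.id ℂ)) x' F ∧
      θ f = eval₂ (RingHom.id ℂ) q F := by
    intro F
    obtain ⟨h1, h2⟩ := Pool.MPH.BPF_loc (RingHom.id ℂ) O θ xo F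
    refine ⟨⟨_, h1⟩, ?_, ?_⟩
    · change eval₂ ((algebraMap ℂ Mer).comp (RingHom.id ℂ)) (fun i => (xo i : Mer)) F = _
      rw [hxo', hx']
    · rw [h2, hq]
  have hev0 : ∀ F : MvPolynomial (Fin (m + 1)) ℂ,
      0 ≤ om (eval₂ ((algebraMap ℂ Mer).comp (RingHom.id ℂ)) x' F) z₀ := by
    intro F
    obtain ⟨f, hf, -⟩ := hev F
    rw [← hf]
    exact (hOθ.mem _).1 f.2
  -- the residue vector is in the variety
  have hqp : ∀ f ∈ p, eval q f = 0 := by
    intro f hf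
    obtain ⟨g, hg, hg'⟩ := hev f
    have h1 := DVL_hmg hp x' (y i₁) hxi (by rw [← hxx]; exact hpy) f hf
    rw [h1] at hg
    have h2 : g = 0 := Subtype.ext hg
    rw [h2, map_zero] at hg'
    exact hg'.symm
  -- an entry of order `0`
  obtain ⟨v, hv⟩ : ∃ v : Fin (r + 1) → MvPolynomial (Fin (m + 1)) ℂ,
      v = fun j => ∑ i, C (L j i) * X i := ⟨_, rfl⟩
  have hvy : ∀ j, ∑ i, algebraMap ℂ Mer (L j i) * y i =
      y i₁ * eval₂ ((algebraMap ℂ Mer).comp (RingHom.id ℂ)) x' (v j) := by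
    intro j
    rw [hv]
    dsimp only
    rw [DVL_lin, Finset.mul_sum]
    refine Finset.sum_congr rfl fun i _ => ?_
    have h1 := congrFun hxx i
    conv_lhs => rw [h1]
    ring
  obtain ⟨i, hi⟩ := hL q hq0 hqp
  obtain ⟨f, hf, hf'⟩ := hev (v i)
  have hoi : om (eval₂ ((algebraMap ℂ Mer).comp (RingHom.id ℂ)) x' (v i)) z₀ = 0 := by
    rw [← hf]
    refine Pool.MPH.BPF_om_zero hOθ f ?_
    rw [hf', hv]
    dsimp only
    have h1 := DVL_lin (κ := ℂ) (L i) q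
    change eval₂ (RingHom.id ℂ) q (∑ i_1, C (L i i_1) * X i_1) = _ at h1
    rw [h1]
    exact hi
  -- orders
  have hdy : om (y i₁) z₀ = ((dv y z₀ : ℤ) : WithTop ℤ) :=
    Pool.MPH.BPF_dv hV hD y z₀ i₁ hxi fun j => hi₁ j (Finset.mem_univ _)
  have hom : om (∑ i', algebraMap ℂ Mer (L i i') * y i') z₀ =
      ((dv y z₀ : ℤ) : WithTop ℤ) := by
    rw [hvy, v1, hoi, add_zero, hdy]
  have hne : ∑ i', algebraMap ℂ Mer (L i i') * y i' ≠ 0 := by
    intro h
    rw [(v3 _).2 h] at hom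
    exact WithTop.top_ne_coe hom
  refine ⟨fun h => hne (congrFun h i), ?_⟩
  have h2 := Pool.MPH.BPF_dv hV hD (fun j => ∑ i', algebraMap ℂ Mer (L j i') * y i') z₀ i hne (by
    intro j
    change om (∑ i', algebraMap ℂ Mer (L i i') * y i') z₀ ≤
      om (∑ i', algebraMap ℂ Mer (L j i') * y i') z₀
    rw [hom, hvy j, v1, hdy]
    exact le_add_of_nonneg_right (hev0 _))
  change om (∑ i', algebraMap ℂ Mer (L i i') * y i') z₀ = _ at h2
  rw [hom] at h2
  exact (WithTop.coe_injective h2).symm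

end Pool.MPY
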