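import Pool.Agent.Work.MP_f82ddf_Y.Interface2

set_option autoImplicit false

namespace Pool.MPY

open MvPolynomial

theorem FIY_mono {K : Type} [Field K] {m : ℕ} (S : Set (MvPolynomial (Fin (m + 1)) K))
    {a b : ℕ} (hab : a ≤ b) (h : Pool.ThmM0.DimMer S a) : Pool.ThmM0.DimMer S b := by
  intro σ x hx s
  have hle : a + 2 ≤ b + 2 := by omega
  obtain ⟨e, P, hP, hPh, hPe⟩ := h σ x hx (fun i => s (Fin.castLE hle i))
  refine ⟨e, rename (Fin.castLE hle) P, ?_, hPh.rename_isHomogeneous, ?_⟩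
  · intro h0
    apply hP
    have hinj := rename_injective (R := ℂ) (Fin.castLE hle) (Fin.castLE_injective hle)
    exact hinj (by simpa using h0)
  · rw [aeval_rename]
    exact hPe

theorem p_FIY (h1 : Stmt_DIY) (h2 : Stmt_THY) (h3 : Pool.ThmM0.Stmt_PAI)
    (h4 : Pool.MCL.stmt_P6C) : Stmt_FIY := by
  intro n c
  obtain ⟨N₁, hN1⟩ := h1 n c
  obtain ⟨N₂, hN2⟩ := h2 n c
  refine ⟨N₁ + N₂, fun K _ _ k N p₀ l hk hp hH hc hlt m S hS g hinto hfull hcase => ?_⟩
  have hdim : Pool.ThmM0.DimMer S 1 := by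
    rcases hcase with ⟨hfin, hs⟩ | ⟨hf, d, hd, hthin⟩
    · exact hN1 K k N p₀ l hk hp hH hc hs (lt_of_le_of_lt (Nat.le_add_right _ _) hlt) m S hS g
        hfin hinto hfull
    · exact FIY_mono S hd (hN2 K k N d p₀ l hk hp hH hc hf
        (lt_of_le_of_lt (Nat.le_add_left _ _) hlt) m S hS g hthin hinto hfull)
  refine h4 K m S hS ?_
  intro σ x i hi hF
  exact h3 K m 1 S le_rfl hdim σ x i hi hF

end Pool.MPY
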