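import Pool.Agent.Work.MP_f82ddf_Y.Interface3
import Pool.Agent.Work.MP_f82ddf_Y.B_FIY

set_option autoImplicit false

/-! # THEOREM T (MP_f82ddf_nt), block FIF: Lang's criterion for forms of bounded degree -/

namespace Pool.MPY

open MvPolynomial

theorem p_FIF (h1 : Stmt_DIF) (h2 : Stmt_THF) (h3 : Pool.ThmM0.Stmt_PAI)
    (h4 : Pool.MCL.stmt_P6C) : Stmt_FIF := by
  intro n c e₀
  obtain ⟨N₁, hN1⟩ := h1 n c e₀
  obtain ⟨N₂, hN2⟩ := h2 n c e₀
  refine ⟨N₁ + N₂, fun K _ _ N k p₀ F hp hH hF hc hlt m S hS g hinto hfull hcase => ?_⟩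
  have hdim : Pool.ThmM0.DimMer S 1 := by
    rcases hcase with ⟨hfin, hs⟩ | ⟨hf, d, hd, hthin⟩
    · exact hN1 K N k p₀ F hp hH hF hc hs (lt_of_le_of_lt (Nat.le_add_right _ _) hlt) m S hS g
        hfin hinto hfull
    · exact FIY_mono S hd (hN2 K N d k p₀ F hp hH hF hc hf
        (lt_of_le_of_lt (Nat.le_add_left _ _) hlt) m S hS g hthin hinto hfull)
  refine h4 K m S hS ?_
  intro σ x i hi hF
  exact h3 K m 1 S le_rfl hdim σ x i hi hF

end Pool.MPY
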