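import Pool.Agent.Work.MP_f82ddf_Y.Interface2
import Pool.Agent.Work.MP_f82ddf_U.B_FNU

set_option autoImplicit false

/-! # THEOREM T (MP_f82ddf_nt), block FNY: arbitrary target varieties, the final statement -/

open Pool.Agent.Work.MP_f82ddf_nt.DQ

namespace Pool.MPY

open MvPolynomial
open Pool.Agent.Work.MP_f82ddf_nt (PSpace HolomorphicOn complexPoints KobayashiHyperbolic
  exists_entire_curve not_kobayashi)
open Pool.ThmP (Mor OnX OnK tm)
open Pool.MPL (FNU_countable FNU_G FNU_G_hom FNU_G_eval FNU_mono)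
open Pool.MPV (Ful Full)

/-- If all the homogeneous elements of a homogeneous ideal vanish at a point, all elements do. -/
theorem FNY_sum {F A : Type} [CommRing F] [CommRing A] {m : ℕ}
    {p : Ideal (MvPolynomial (Fin (m + 1)) F)} (hp : Hmg p) (ψ : F →+* A) (x : Fin (m + 1) → A)
    (h : ∀ f ∈ p, ∀ d, f.IsHomogeneous d → eval₂ ψ x f = 0) : ∀ f ∈ p, eval₂ ψ x f = 0 := by
  intro f hf
  have h1 : eval₂ ψ x f =
      ∑ n ∈ Finset.range (f.totalDegree + 1), eval₂ ψ x (homogeneousComponent n f) := by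
    conv_lhs => rw [← sum_homogeneousComponent f]
    exact map_sum (eval₂Hom ψ x) _ _
  rw [h1]
  exact Finset.sum_eq_zero fun n _ => h _ (hp f hf n) n (homogeneousComponent_isHomogeneous n f)

/-- From the equations at the point over `Mer` to the points of the curve. -/
theorem FNY_exc (h2 : Pool.ThmM0.Stmt_MREL) {Ω : Type} [Field Ω] {m n : ℕ} (τ : Ω →+* ℂ)
    (f : ℂ → PSpace ℂ m) (hf : HolomorphicOn f Set.univ) (φ : Fin (m + 1) → ℂ → ℂ)
    (hφ : ∀ j z, MeromorphicAt (φ j) z)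
    (hrep : ∀ z₀, ∀ᶠ z in nhdsWithin z₀ {z₀}ᶜ, ∃ c : ℂ, c ≠ 0 ∧ ∀ j, (f z).rep j = c * φ j z)
    (p : Ideal (MvPolynomial (Fin (n + 1)) Ω)) (hp : Hmg p)
    (s : Fin (n + 1) → MvPolynomial (Fin (m + 1)) Ω) {a : ℕ} (hs : ∀ c, (s c).IsHomogeneous a)
    (h : ∀ F ∈ p, ∀ d, F.IsHomogeneous d →
      eval₂ (tm τ) (fun c => eval₂ (tm τ) (fun j => Mer.mk (φ j) (hφ j)) (s c)) F = 0) (z : ℂ) :
    ∀ F ∈ p, eval₂ τ (fun c => eval₂ τ (f z).rep (s c)) F = 0 := by
  refine FNY_sum hp τ _ fun F hF d hd => ?_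
  have h5 : aeval (fun i => Mer.mk (φ (id i)) (hφ (id i))) (FNU_G τ s F) = 0 := by
    rw [aeval_def, FNU_G_eval]
    exact h F hF d hd
  have h6 := h2 m f φ hφ hf hrep (m + 1) (a * d) id (FNU_G τ s F)
    (FNU_G_hom τ s F hs hd) h5 z
  have h7 : eval (fun i => (f z).rep (id i)) (FNU_G τ s F) =
      eval₂ (RingHom.id ℂ) (f z).rep (FNU_G τ s F) := rfl
  rw [h7, FNU_G_eval, RingHom.id_comp] at h6
  exact h6

/-- FNY -/
theorem p_FNY (hJ : Stmt_JWI) (hMPY : Stmt_MPY) (hNCF : Stmt_NCF) (hTGY : Stmt_TGY)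
    (hMPT : Pool.ThmP.Stmt_MPT) (h2 : Pool.ThmM0.Stmt_MREL) : Stmt_FNY := by
  intro n c
  obtain ⟨N₁, hN⟩ := hJ n c
  refine ⟨N₁, fun K _ _ k N p₀ l hk hp₀ hc => ?_⟩
  have : Countable (AlgebraicClosure K) := FNU_countable K
  obtain ⟨W, hWf, hWp, hWc⟩ := hN (AlgebraicClosure K) k N p₀ l hk hp₀ hc
  refine ⟨W, hWf, hWp, fun τ f hf hfp htng hab => ?_, fun m S hS g hinto hfull τ => ?_⟩
  · -- entire curves in `V(p₀)`
    obtain ⟨φ, hφ, i₀, hi₀, hFx, hrep, hcon⟩ := exists_mer_of_curve (K := ℂ) (n := n)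
      (S := {G | ∃ F ∈ p₀, ∃ d, F.IsHomogeneous d ∧ G = map τ F})
      (by
        rintro G ⟨F, -, d, hd, rfl⟩
        exact ⟨d, hd.map τ⟩) (RingHom.id ℂ) f hf
      (by
        rintro z G ⟨F, hF, d, hd, rfl⟩
        rw [eval₂_map, RingHom.id_comp]
        exact hfp z F hF)
    obtain ⟨j, hj⟩ := hcon hab
    have hNC : Pool.MPL.NC (fun l => Mer.mk (φ l) (hφ l)) := by
      refine ⟨i₀, j, ?_, fun a => ?_⟩
      · change Mer.mk (φ i₀) (hφ i₀) ≠ 0
        rw [hi₀]
        exact one_ne_zero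
      · change Mer.mk (φ j) (hφ j) ≠ algebraMap ℂ Mer a * Mer.mk (φ i₀) (hφ i₀)
        rw [hi₀, mul_one]
        exact hj a
    have hp0x : ∀ F ∈ p₀, eval₂ (tm τ) (fun l => Mer.mk (φ l) (hφ l)) F = 0 := by
      refine FNY_sum hp₀ _ _ fun F hF d hd => ?_
      have h3 := hFx (map τ F) ⟨F, hF, d, hd, rfl⟩
      rw [eval₂_map] at h3
      exact h3
    have hful : ∀ j, Ful k (fun l => Mer.mk (φ l) (hφ l)) (fun i => τ (l j i)) := fun j =>
      hTGY n k _ f hf (htng j) φ hφ i₀ hi₀ hrep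
    obtain ⟨p, hpW, hpx⟩ := hWc τ _ ⟨hNC, hp0x, hful⟩
    refine ⟨p, hpW, fun z => ?_⟩
    have h4 := FNY_exc h2 τ f hf φ hφ hrep p (hWp p hpW).2.1 X (a := 1)
      (fun c => isHomogeneous_X _ _)
      (fun F hF d hd => by simpa only [eval₂_X] using hpx F hF) z
    simpa only [eval₂_X] using h4
  · set σ : K →+* ℂ := τ.comp (algebraMap K (AlgebraicClosure K)) with hσ
    have hcurve : ∀ f : ℂ → PSpace ℂ m, HolomorphicOn f Set.univ →
        (∀ z, f z ∈ complexPoints S σ) →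
        (∃ p ∈ W, ∀ z, f z ∈ ExcP g p τ) ∨
          (InFib g τ f ∧ (g.Finite → ¬ ∃ z₁ z₂, f z₁ ≠ f z₂)) := by
      intro f hf hfX
      obtain ⟨φ, hφ, i₀, hi₀, hFx, hrep, hcon⟩ := exists_mer_of_curve hS σ f hf hfX
      obtain ⟨x, hxdef⟩ : ∃ x : Fin (m + 1) → Mer, x = fun j => Mer.mk (φ j) (hφ j) := ⟨_, rfl⟩
      have hx' : OnK (tm τ) S x := by
        intro F hF
        have h6 : (tm τ).comp (algebraMap K (AlgebraicClosure K)) =
            (algebraMap ℂ Mer).comp σ := by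
          rw [tm, RingHom.comp_assoc, hσ]
        rw [h6, hxdef]
        exact hFx F hF
      have hxi : x i₀ = 1 := by
        rw [hxdef]
        exact hi₀
      have hx0 : x ≠ 0 := by
        intro h
        rw [h] at hxi
        exact zero_ne_one hxi
      have hM := hMPT K (AlgebraicClosure K) Mer m n S g (tm τ) x hx'
      obtain ⟨s₀, hs₀, c₀, hc₀⟩ := hM.1 hx0
      have hsc : ∀ s ∈ g.tuples, ∀ d, eval₂ (tm τ) x (s d)
          = eval₂ (tm τ) x (s c₀) / eval₂ (tm τ) x (s₀ c₀) * eval₂ (tm τ) x (s₀ d) := by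
        intro s hs d
        have h4 := hM.2 s hs s₀ hs₀ d c₀
        rw [div_mul_eq_mul_div, eq_div_iff hc₀]
        exact h4
      obtain ⟨hY1, hY2⟩ := hMPY K (AlgebraicClosure K) m n k N S g p₀ l hS hinto hfull τ x hx'
        s₀ hs₀ ⟨c₀, hc₀⟩
      by_cases hNC : Pool.MPL.NC (fun c => eval₂ (tm τ) x (s₀ c))
      · left
        obtain ⟨p, hpW, hpy⟩ := hWc τ _ ⟨hNC, hY1, hY2⟩
        refine ⟨p, hpW, fun z => ⟨hfX z, fun s hs => ?_⟩⟩
        obtain ⟨a, ha⟩ := g.homogeneous s hs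
        refine FNY_exc h2 τ f hf φ hφ hrep p (hWp p hpW).2.1 s ha (fun F hF d hd => ?_) z
        have h4 : eval₂ (tm τ) (fun c => eval₂ (tm τ) x (s c)) F = 0 := by
          have hprop : (fun c => eval₂ (tm τ) x (s c)) =
              (eval₂ (tm τ) x (s c₀) / eval₂ (tm τ) x (s₀ c₀)) •
                fun c => eval₂ (tm τ) x (s₀ c) := by
            funext d
            rw [Pi.smul_apply, smul_eq_mul]
            exact hsc s hs d
          rw [hprop, Pool.Agent.Work.MP_f82ddf_nt.eval₂_smul_hom hd, hpy F hF, mul_zero]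
        rw [hxdef] at h4
        exact h4
      · right
        refine ⟨?_, fun hfin hab => ?_⟩
        · have hconst : ∀ d, ∃ a : ℂ,
              eval₂ (tm τ) x (s₀ d) = algebraMap ℂ Mer a * eval₂ (tm τ) x (s₀ c₀) := by
            intro d
            by_contra hcon
            push Not at hcon
            exact hNC ⟨c₀, d, hc₀, hcon⟩
          choose a ha using hconst
          have ha0 : a c₀ ≠ 0 := by
            intro h
            apply hc₀
            rw [ha c₀, h, map_zero, zero_mul]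
          refine ⟨a, fun h => ha0 (congrFun h c₀), ?_⟩
          intro z s hs d d'
          obtain ⟨es, hes⟩ := g.homogeneous s hs
          have hmap : ∀ l, eval₂ (algebraMap ℂ Mer) x (map τ (s l)) = eval₂ (tm τ) x (s l) := by
            intro l
            rw [eval₂_map]
            rfl
          have hvan : aeval x (map τ (s d) * C (a d') - map τ (s d') * C (a d)) = 0 := by
            rw [aeval_def, eval₂_sub, eval₂_mul, eval₂_mul, eval₂_C, eval₂_C, hmap, hmap,
              hsc s hs d, hsc s hs d']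
            rw [ha d, ha d']
            ring
          rw [hxdef] at hvan
          have hhom : (map τ (s d) * C (a d') - map τ (s d') * C (a d)).IsHomogeneous es := by
            have h3 := ((hes d).map τ).mul (isHomogeneous_C (Fin (m + 1)) (a d'))
            have h4 := ((hes d').map τ).mul (isHomogeneous_C (Fin (m + 1)) (a d))
            exact h3.sub h4
          have h5 := h2 m f φ hφ hf hrep (m + 1) es id _ hhom hvan z
          rw [map_sub, map_mul, map_mul, eval_C, eval_C, eval_map, eval_map, sub_eq_zero] at h5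
          exact h5
        · obtain ⟨j, hj⟩ := hcon hab
          refine hNC (hNCF K (AlgebraicClosure K) m n S g hS hfin τ x hx'
            ⟨i₀, j, ?_, fun b => ?_⟩ s₀ hs₀ ⟨c₀, hc₀⟩)
          · rw [hxi]
            exact one_ne_zero
          · rw [hxi, mul_one, hxdef]
            exact hj b
    have hcurve' : g.Finite → ∀ f : ℂ → PSpace ℂ m, HolomorphicOn f Set.univ →
        (∀ z, f z ∈ complexPoints S σ) → (∃ z₁ z₂, f z₁ ≠ f z₂) →
        ∃ p ∈ W, ∀ z, f z ∈ ExcP g p τ := by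
      intro hfin f hf hfX hab
      rcases hcurve f hf hfX with h3 | h3
      · exact h3
      · exact absurd hab (h3.2 hfin)
    refine ⟨fun f hf hfX => (hcurve f hf hfX).imp id fun h3 => h3.1,
      fun hfin => ⟨hcurve' hfin, fun hX => ?_, fun hZ => ?_⟩⟩
    · refine FNU_mono (fun q hq => ?_) hX
      rw [Set.mem_iUnion₂] at hq
      obtain ⟨p, -, hq⟩ := hq
      exact hq.1
    · by_contra hX
      obtain ⟨f, hf, hfX, a, b, hab⟩ := exists_entire_curve hS σ hX
      obtain ⟨p, hpW, hp⟩ := hcurve' hfin f hf hfX ⟨a, b, hab⟩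
      exact not_kobayashi f hf (fun z => Set.mem_iUnion₂.2 ⟨p, hpW, hp z⟩) a b hab hZ

end Pool.MPY
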