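import Pool.Agent.Work.MP_f82ddf_Y.Interface
import Pool.Agent.Work.MP_f82ddf_W.B_PWT

set_option autoImplicit false

/-! # Block GPO of MP_f82ddf_Y (helper84), after `MP_f82ddf_W/B_PWT.lean` -/

open Pool.Agent.Work.MP_f82ddf_nt.DQ

namespace Pool.MPY

open MvPolynomial
open Pool.Agent.Work.MP_f82ddf_M5 (lineAt resAt chow at2 comb Data)
open Pool.ThmM.Chow (PluF)
open Pool.MPW (pv OrdGE PWT_comb_map PWT_comb_hom)

theorem p_GPO (hGPA : Pool.MPW.Stmt_GPA) (hGPB : Pool.MPW.Stmt_GPB) (hGPC : Pool.MPW.Stmt_GPC)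
    (hCHP : Pool.ThmM.Chow.Stmt_CHP) (hPFA : Pool.ThmM.Chow.Stmt_PFA)
    (hFUN : Pool.Agent.Work.MP_f82ddf_M5.Stmt_FUN) (hABS : Pool.MPW.Stmt_ABS)
    (hNDX : Pool.MPW.Stmt_NDX) (hCNZ : Pool.MPW.Stmt_CNZ) (hOVF : Pool.MPW.Stmt_OVF)
    (hGPV : Stmt_GPV) (hGPT : Stmt_GPT) : Stmt_GPO := by
  intro M _ _ w n d k Q A hdat hk x P hx hP hmov hdvd
  obtain ⟨_, _, _, hF4, hF5, hF6⟩ := hFUN
  have : CharZero M := charZero_of_injective_algebraMap (algebraMap ℂ M).injective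
  obtain ⟨e, rfl⟩ : ∃ e, d = e + 1 := by
    rcases d with _ | e
    · exfalso
      have h0 : Q.totalDegree = 0 := hdat.hom.totalDegree hdat.irr.ne_zero
      rw [totalDegree_eq_zero_iff_eq_C] at h0
      refine hdat.irr.not_isUnit ?_
      rw [h0]
      refine (isUnit_iff_ne_zero.mpr fun hc => hdat.irr.ne_zero ?_).map C
      rw [h0, hc, map_zero]
    · exact ⟨e, rfl⟩
  have h1 : Irreducible (map (algebraMap ℂ M) Q) := hABS M _ Q hdat.irr
  have h2 : (map (algebraMap ℂ M) Q).IsHomogeneous (e + 1) := hdat.hom.map _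
  have h3 : (comb (algebraMap ℂ M) A x).IsHomogeneous (e + 1) := PWT_comb_hom _ A hdat.homA x
  have h4 : ¬ map (algebraMap ℂ M) Q ∣ comb (algebraMap ℂ M) A x := fun h =>
    hx (hNDX _ _ _ _ Q A hdat M x h)
  have h5 : chow (e + 1) (e + 1) (map (algebraMap ℂ M) Q) (comb (algebraMap ℂ M) A x) ≠ 0 :=
    hCNZ _ _ _ _ Q A hdat M x hx
  have h6 : PluF ((e + 1) * (e + 1))
      (chow (e + 1) (e + 1) (map (algebraMap ℂ M) Q) (comb (algebraMap ℂ M) A x)) :=
    hCHP _ _ _ M _ _ h2 h3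
  have h7 : P ∣ chow (e + 1) (e + 1) (map (algebraMap ℂ M) Q) (comb (algebraMap ℂ M) A x) :=
    (dvd_pow_self P (by omega)).trans hdvd
  obtain ⟨ρ, hρ⟩ : ∃ ρ, PluF ρ P := by
    obtain ⟨H, hH⟩ := h7
    rw [hH] at h5 h6
    obtain ⟨ρ, _, hρ⟩ := hPFA _ _ M P H h5 h6
    exact ⟨ρ, hρ⟩
  obtain ⟨F, _, _, b, s, hgen, hQ, hG, hsm⟩ := hGPA M (w + 2) (e + 1) (e + 1) Q _ P hdat.irr
    hdat.hom h3 hP hmov h7
  obtain ⟨u, hu⟩ := hGPB M F w _ _ (pv b s) h1 h4 hQ hG
  have hvan := hGPC M F w ρ P b s u hP hρ hgen hu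
  have hgv := hGPV M F (w + 2) (e + 1) Q P b s hdat.irr hdat.hom hgen hmov hQ
  obtain ⟨ι, hι⟩ := hGPT M F w P b s hP hgen
  letI : Algebra ℂ F := ((algebraMap M F).comp (algebraMap ℂ M)).toAlgebra
  have halg : algebraMap ℂ F = (algebraMap M F).comp (algebraMap ℂ M) := rfl
  have hmap : ∀ f : MvPolynomial (Fin (w + 2)) ℂ,
      map (algebraMap ℂ F) f = map (algebraMap M F) (map (algebraMap ℂ M) f) := by
    intro f
    rw [map_map, halg]
  have hcomb : ∀ (n' : ℕ) (A' : Fin (n' + 1) → MvPolynomial (Fin (w + 2)) ℂ)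
      (x' : Fin (n' + 1) → M), comb (algebraMap ℂ F) A' (fun i => algebraMap M F (x' i)) =
        map (algebraMap M F) (comb (algebraMap ℂ M) A' x') := by
    intro n' A' x'
    rw [halg]
    exact PWT_comb_map _ _ A' x'
  have haev : ∀ f : MvPolynomial (Fin (w + 2)) ℂ,
      aeval (pv b s) f = eval₂ (algebraMap M F) (pv b s) (map (algebraMap ℂ M) f) := by
    intro f
    rw [eval₂_map, aeval_def, halg]
  have hxF : (fun i => algebraMap M F (x i)) ≠ 0 := by
    intro h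
    apply hx
    funext i
    exact (map_eq_zero_iff _ (algebraMap M F).injective).mp (congrFun h i)
  have hQv : eval (pv b s) (map (algebraMap ℂ F) Q) = 0 := by
    rw [hmap, eval_map]
    exact hQ
  have hsmF : ∑ j, b (0, j) * eval (pv b s) (pderiv j (map (algebraMap ℂ F) Q)) ≠ 0 := by
    intro h0
    apply hsm
    rw [← h0]
    refine Finset.sum_congr rfl fun j _ => ?_
    rw [pderiv_map, hmap, eval_map]
  have hsm1 : ∃ i, eval (pv b s) (pderiv i (map (algebraMap ℂ F) Q)) ≠ 0 := by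
    by_contra hcon
    push Not at hcon
    apply hsmF
    refine Finset.sum_eq_zero fun j _ => ?_
    rw [hcon j, mul_zero]
  have hord := hOVF F (w + 2) n e (e + 1) k Q A hdat (fun i => algebraMap M F (x i))
    (pv b s) hxF hQv hsm1 (map (algebraMap M F) P)
    (by
      rw [hcomb, hmap, ← hF6, ← map_pow]
      exact map_dvd (map (algebraMap M F)) hdvd)
    (by
      intro b'
      have h := hvan b'
      unfold at2 at h ⊢
      rw [coe_eval₂Hom] at h ⊢
      rw [eval₂_map]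
      exact h)
  refine ⟨F, inferInstance, inferInstance, inferInstance, pv b s, halg, ?_, ?_, ⟨ι, hι⟩, hord⟩
  · intro H hH
    rw [haev] at hH
    exact hgv H hH
  · rw [haev]
    exact hQ

end Pool.MPY
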