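import Pool.Agent.Work.MP_f82ddf_Y.Interface

set_option autoImplicit false

/-! # THEOREM T (MP_f82ddf_nt), block GPV (helper75): `v` is generic on `Q = 0` -/

namespace Pool.MPY

open MvPolynomial
open Pool.Agent.Work.MP_f82ddf_M5 (lineAt)
open Pool.MPL (f0)
open Pool.MPW (pv)

theorem GPV_f0 {N : ℕ} {F : Type} [Field F] (χ : ℂ →+* F) (b : Fin 2 × Fin N → F) (s : F)
    (G : MvPolynomial (Fin N) ℂ) :
    (f0 G).eval₂ (eval₂Hom χ b) s = eval₂ χ (pv b s) G := by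
  unfold f0 lineAt pv
  induction G using MvPolynomial.induction_on with
  | C a =>
    rw [eval₂_C, eval₂_C, RingHom.comp_apply, Polynomial.eval₂_C, eval₂Hom_C]
  | add p q hp hq => rw [eval₂_add, Polynomial.eval₂_add, hp, hq, eval₂_add]
  | mul_X p i hp =>
    rw [eval₂_mul, Polynomial.eval₂_mul, hp, eval₂_mul, eval₂_X, eval₂_X, Polynomial.eval₂_add,
      Polynomial.eval₂_mul, Polynomial.eval₂_C, Polynomial.eval₂_C, Polynomial.eval₂_X,
      eval₂Hom_X', eval₂Hom_X', mul_comm s]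

theorem p_GPV (hFPR : Pool.MPL.Stmt_FPR) (hRES : Pool.Agent.Work.MP_f82ddf_M5.Stmt_RES) :
    Stmt_GPV := by
  intro M F _ _ _ _ N d Q P b s hQ hQd hgen hmov hv H hH
  by_contra hc
  obtain ⟨hd, hf0, hdeg, -, hdvd⟩ := hFPR N d Q hQ hQd
  have hnd : ¬ f0 Q ∣ f0 H := fun h => hc (hdvd H h)
  have hres := hRES (MvPolynomial (Fin 2 × Fin N) ℂ) (f0 Q) (f0 H) d (f0 H).natDegree hf0 hdeg
    (by omega) le_rfl hnd
  obtain ⟨p, q, -, -, hpq⟩ := Polynomial.exists_mul_add_mul_eq_C_resultant (f0 Q) (f0 H)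
    (m := d) (n := (f0 H).natDegree) hdeg.le le_rfl (Or.inl (by omega))
  rw [eval₂_map] at hv hH
  have h1 := congrArg (Polynomial.eval₂ (eval₂Hom ((algebraMap M F).comp (algebraMap ℂ M)) b) s) hpq
  rw [Polynomial.eval₂_add, Polynomial.eval₂_mul, Polynomial.eval₂_mul, Polynomial.eval₂_C,
    GPV_f0, GPV_f0, hv, hH, zero_mul, zero_mul, add_zero] at h1
  refine hmov _ hres ((hgen _).mp ?_)
  rw [eval₂_map]
  rw [coe_eval₂Hom] at h1
  exact h1.symm

end Pool.MPY
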