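import Pool.Agent.Work.MP_f82ddf_Y.Interface2

set_option autoImplicit false

/-! # Block HMP: minimal primes of homogeneous ideals -/

namespace Pool.MPY

open MvPolynomial

attribute [local instance] MvPolynomial.gradedAlgebra

theorem HMP_iff {F : Type} [Field F] {m : ℕ} (I : Ideal (MvPolynomial (Fin (m + 1)) F)) :
    Hmg I ↔ I.IsHomogeneous (homogeneousSubmodule (Fin (m + 1)) F) := by
  constructor
  · intro h i f hf
    have h1 := h f hf i
    have h2 : ((DirectSum.decompose (homogeneousSubmodule (Fin (m + 1)) F) f i :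
        homogeneousSubmodule (Fin (m + 1)) F i) : MvPolynomial (Fin (m + 1)) F) =
        homogeneousComponent i f := decomposition.decompose'_apply f i
    rw [h2]
    exact h1
  · intro h f hf n
    exact homogeneousComponent_mem_of_mem h hf n

theorem p_HMP : Stmt_HMP := by
  intro Ω _ m I hI p hp
  have h1 := (HMP_iff I).1 hI
  have hpp : p.IsPrime := hp.1.1
  have h2 : (p.homogeneousCore (homogeneousSubmodule (Fin (m + 1)) Ω)).toIdeal.IsPrime :=
    Ideal.IsPrime.homogeneousCore hpp
  have h3 : I ≤ (p.homogeneousCore (homogeneousSubmodule (Fin (m + 1)) Ω)).toIdeal :=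
    h1.toIdeal_homogeneousCore_eq_self.symm.trans_le (Ideal.homogeneousCore_mono _ hp.1.2)
  have h4 : (p.homogeneousCore (homogeneousSubmodule (Fin (m + 1)) Ω)).toIdeal ≤ p :=
    Ideal.toIdeal_homogeneousCore_le _ _
  have h5 := hp.2 ⟨h2, h3⟩ h4
  have h6 : (p.homogeneousCore (homogeneousSubmodule (Fin (m + 1)) Ω)).toIdeal = p :=
    le_antisymm h4 h5
  rw [HMP_iff, ← h6]
  exact (p.homogeneousCore (homogeneousSubmodule (Fin (m + 1)) Ω)).isHomogeneous

end Pool.MPY
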