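import Pool.Agent.Work.MP_f82ddf_Y.Interface3

set_option autoImplicit false

/-! # THEOREM T (MP_f82ddf_nt), block HTC (helper58): a homogeneous local parameter -/

open Pool.Agent.Work.MP_f82ddf_nt.DQ

namespace Pool.MPY

open MvPolynomial

section

variable {A : Type} [CommRing A]

/-- elements of `p ⊔ (t)` -/
theorem HTC_mem {p : Ideal A} {t f : A} :
    f ∈ p ⊔ Ideal.span {t} ↔ ∃ g, f - g * t ∈ p := by
  constructor
  · intro h
    obtain ⟨y, hy, z, hz, rfl⟩ := Submodule.mem_sup.mp h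
    obtain ⟨a, rfl⟩ := Ideal.mem_span_singleton'.mp hz
    refine ⟨a, ?_⟩
    have e : y + a * t - a * t = y := by ring
    rw [e]
    exact hy
  · rintro ⟨g, hg⟩
    have e : f = (f - g * t) + g * t := by ring
    rw [e]
    exact Ideal.add_mem _ (Ideal.mem_sup_left hg)
      (Ideal.mem_sup_right (Ideal.mul_mem_left _ _ (Ideal.mem_span_singleton_self t)))

theorem HTC_sum {p q : Ideal A} (hq : q.IsPrime) (t : A) (a : ℕ → A) (s : Finset ℕ)
    (h : ∀ i ∈ s, ∃ h ∉ q, ∃ g ∈ q, h * a i - g * t ∈ p) :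
    ∃ h ∉ q, ∃ g ∈ q, h * ∑ i ∈ s, a i - g * t ∈ p := by
  induction s using Finset.induction_on with
  | empty =>
    refine ⟨1, fun h1 => hq.ne_top ((Ideal.eq_top_iff_one _).mpr h1), 0, q.zero_mem, ?_⟩
    rw [Finset.sum_empty, mul_zero, zero_mul, sub_zero]
    exact p.zero_mem
  | insert i s his ih =>
    obtain ⟨h1, hh1, g1, hg1, e1⟩ := h i (Finset.mem_insert_self _ _)
    obtain ⟨h2, hh2, g2, hg2, e2⟩ := ih (fun j hj => h j (Finset.mem_insert_of_mem hj))
    refine ⟨h1 * h2, fun hc => (hq.mem_or_mem hc).elim hh1 hh2, h2 * g1 + h1 * g2,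
      q.add_mem (q.mul_mem_left _ hg1) (q.mul_mem_left _ hg2), ?_⟩
    rw [Finset.sum_insert his]
    have e : h1 * h2 * (a i + ∑ j ∈ s, a j) - (h2 * g1 + h1 * g2) * t =
        h2 * (h1 * a i - g1 * t) + h1 * (h2 * ∑ j ∈ s, a j - g2 * t) := by ring
    rw [e]
    exact p.add_mem (p.mul_mem_left _ e1) (p.mul_mem_left _ e2)

/-- a local parameter is not in `p` -/
theorem HTC_notp {p q : Ideal A} (hp : p.IsPrime) (hpq : p ≤ q) {F s : A} (hFq : F ∈ q)
    (hFp : F ∉ p) (h : ∀ f ∈ q, ∃ h ∉ q, h * f ∈ p ⊔ Ideal.span {s}) : s ∉ p := by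
  intro hs
  obtain ⟨h1, hh1, e1⟩ := h F hFq
  have e2 : p ⊔ Ideal.span {s} = p := sup_eq_left.2 ((Ideal.span_singleton_le_iff_mem p).2 hs)
  rw [e2] at e1
  exact (hp.mem_or_mem e1).elim (fun hc => hh1 (hpq hc)) hFp

end

theorem p_HTC : Stmt_HTC := by
  intro Ω _ m k p q F t hp hq hhom hpq hFq hFp htq h1 h2
  have htp : t ∉ p := HTC_notp hp hpq hFq hFp h1
  have key : ∃ i, ∀ h ∉ q, ∀ g ∈ q, h * homogeneousComponent i t - g * t ∉ p := by
    by_contra hcon
    push Not at hcon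
    obtain ⟨h, hh, g, hg, e⟩ := HTC_sum hq t (fun i => homogeneousComponent i t)
      (Finset.range (t.totalDegree + 1)) (fun i _ => by
        obtain ⟨h, hh, g, hg, e⟩ := hcon i
        exact ⟨h, hh, g, hg, e⟩)
    rw [sum_homogeneousComponent] at e
    have e1 : h * t - g * t = (h - g) * t := by ring
    rw [e1] at e
    rcases hp.mem_or_mem e with h3 | h3
    · apply hh
      have e2 : h = (h - g) + g := by ring
      rw [e2]
      exact q.add_mem (hpq h3) hg
    · exact htp h3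
  obtain ⟨i, hi⟩ := key
  obtain ⟨a, ha, e0⟩ := h1 (homogeneousComponent i t) (hhom t htq i)
  obtain ⟨g, hg⟩ := HTC_mem.mp e0
  have hgq : g ∉ q := fun hc => hi a ha g hc hg
  have hpar : ∀ f ∈ q, ∃ h ∉ q, h * f ∈ p ⊔ Ideal.span {homogeneousComponent i t} := by
    intro f hf
    obtain ⟨h, hh, e1⟩ := h1 f hf
    obtain ⟨b, hb⟩ := HTC_mem.mp e1
    refine ⟨g * h, fun hc => (hq.mem_or_mem hc).elim hgq hh, HTC_mem.mpr ⟨b * a, ?_⟩⟩
    have e2 : g * h * f - b * a * homogeneousComponent i t =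
        g * (h * f - b * t) - b * (a * homogeneousComponent i t - g * t) := by ring
    rw [e2]
    exact p.sub_mem (p.mul_mem_left _ hb) (p.mul_mem_left _ hg)
  refine ⟨i, homogeneousComponent i t, homogeneousComponent_isHomogeneous i t, hhom t htq i,
    HTC_notp hp hpq hFq hFp hpar, hpar, ?_⟩
  intro h hh hc
  obtain ⟨b, hb⟩ := HTC_mem.mp hc
  refine h2 (a ^ k * h) (fun hc => (hq.mem_or_mem hc).elim
    (fun h3 => ha (hq.mem_of_pow_mem k h3)) hh) (HTC_mem.mpr ⟨b * g ^ k, ?_⟩)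
  have h4 : (a * homogeneousComponent i t) ^ k - (g * t) ^ k ∈ p :=
    p.mem_of_dvd (sub_dvd_pow_sub_pow _ _ k) hg
  have e2 : a ^ k * h * F - b * g ^ k * t ^ k =
      a ^ k * (h * F - b * homogeneousComponent i t ^ k) +
        b * ((a * homogeneousComponent i t) ^ k - (g * t) ^ k) := by
    rw [mul_pow, mul_pow]
    ring
  rw [e2]
  exact p.add_mem (p.mul_mem_left _ hb) (p.mul_mem_left _ h4)

end Pool.MPY
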