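import Pool.Agent.Work.MP_f82ddf_Y.Interface3

set_option autoImplicit false

/-! # THEOREM T (MP_f82ddf_nt), block HYF (helper75): positive dimension meets every hypersurface -/

namespace Pool.MPY

open MvPolynomial

/-- the homogeneous components of the Veronese image -/
theorem HYF_comp {Ω : Type} [Field Ω] {b t E : ℕ} {ε : Fin (t + 1) → Fin (b + 1) →₀ ℕ}
    (hE : 1 ≤ E)
    (hh : ∀ (d : ℕ) (f : MvPolynomial (Fin (t + 1)) Ω), f.IsHomogeneous d →
      (vr ε f).IsHomogeneous (d * E)) (f : MvPolynomial (Fin (t + 1)) Ω) (n : ℕ) :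
    homogeneousComponent (n * E) (vr ε f) = vr ε (homogeneousComponent n f) := by
  have h1 : vr ε f = ∑ k ∈ Finset.range (f.totalDegree + 1),
      vr ε (homogeneousComponent k f) := by
    conv_lhs => rw [← sum_homogeneousComponent f]
    rw [map_sum]
  have h2 : ∀ k, homogeneousComponent (n * E) (vr ε (homogeneousComponent k f)) =
      if k = n then vr ε (homogeneousComponent n f) else 0 := by
    intro k
    have h3 := hh k _ (homogeneousComponent_isHomogeneous k f)
    rw [homogeneousComponent_of_mem h3]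
    by_cases hk : k = n
    · rw [if_pos hk, if_pos (by rw [hk]), hk]
    · rw [if_neg hk, if_neg]
      intro h
      exact hk (Nat.eq_of_mul_eq_mul_right (by omega) h).symm
  rw [h1, map_sum, Finset.sum_congr rfl (fun k _ => h2 k), Finset.sum_ite_eq']
  by_cases hn : n ∈ Finset.range (f.totalDegree + 1)
  · rw [if_pos hn]
  · rw [if_neg hn]
    have h3 : f.totalDegree < n := by
      rw [Finset.mem_range] at hn
      omega
    rw [homogeneousComponent_eq_zero n f h3, map_zero]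

theorem HYF_hmg {Ω : Type} [Field Ω] {b t E : ℕ} {ε : Fin (t + 1) → Fin (b + 1) →₀ ℕ}
    (hE : 1 ≤ E)
    (hh : ∀ (d : ℕ) (f : MvPolynomial (Fin (t + 1)) Ω), f.IsHomogeneous d →
      (vr ε f).IsHomogeneous (d * E)) (p : Ideal (MvPolynomial (Fin (b + 1)) Ω)) (hp : Hmg p) :
    Hmg (p.comap (vr ε)) := by
  intro f hf n
  rw [Ideal.mem_comap] at hf ⊢
  rw [← HYF_comp hE hh]
  exact hp _ hf _

theorem p_HYF (hVRG : Stmt_VRG) (hVPT : Stmt_VPT) (hVIN : Stmt_VIN) (hHYP : Stmt_HYP) :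
    Stmt_HYF := by
  intro Ω _ _ m e p hp hh hf he F hF
  obtain ⟨t, ε, hε⟩ := hVRG.1 m e
  obtain ⟨V2, V3, V4, -, -⟩ := hVRG.2 Ω m t e ε hε he
  have hp' : (p.comap (vr ε)).IsPrime := Ideal.IsPrime.comap _
  have hh' : Hmg (p.comap (vr ε)) := HYF_hmg he V4 p hh
  obtain ⟨z', hz', hz1, hz2⟩ := hHYP Ω t (p.comap (vr ε)) hp' hh'
    (hVIN Ω m t e ε hε he p hp hf) (fun c => coeff (ε c) F)
  obtain ⟨z, c, hz, hc, hzp, hzz⟩ := hVPT Ω m t e ε hε he p hh z' hz' hz1
  refine ⟨z, hz, hzp, ?_⟩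
  have h1 : eval z F = ∑ c, coeff (ε c) F * ∏ i, z i ^ ε c i := by
    have h2 := V2 Ω (RingHom.id Ω) z (lf fun c => coeff (ε c) F)
    rw [V3 F hF] at h2
    rw [← eval₂_id, h2, eval₂_id]
    unfold lf
    rw [map_sum]
    refine Finset.sum_congr rfl (fun c _ => ?_)
    rw [map_mul, eval_C, eval_X]
  have h2 : c * eval z F = 0 := by
    rw [h1, ← hz2, Finset.mul_sum]
    refine Finset.sum_congr rfl (fun d _ => ?_)
    rw [hzz d]
    ring
  exact (mul_eq_zero.mp h2).resolve_left hc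

end Pool.MPY
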