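import Pool.Agent.Work.MP_f82ddf_Y.Interface2
import Pool.Agent.Work.MP_f82ddf_M1.All1

set_option autoImplicit false

/-! # THEOREM T (MP_f82ddf_nt), block JWI (helper23): the exceptional sets -/

open Pool.Agent.Work.MP_f82ddf_nt.DQ

namespace Pool.MPY

open MvPolynomial
open Pool.ThmM (om dv dv1)
open Pool.ThmP (tm)
open Pool.MPL (NC NPr)
open Pool.MPV (Ful)

theorem JWI_om {t : ℂ} (ht : t ≠ 0) (f : Mer) (z : ℂ) :
    om (algebraMap ℂ Mer t * f) z = om f z := by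
  obtain ⟨h1, -, -, h4, -, -⟩ := Pool.ThmM.all_VAL z
  rw [h1, h4 t ht, zero_add]

theorem JWI_dv {n : ℕ} {t : ℂ} (ht : t ≠ 0) (x : Fin (n + 1) → Mer) (z : ℂ) :
    dv (fun i => algebraMap ℂ Mer t * x i) z = dv x z := by
  have ht' : algebraMap ℂ Mer t ≠ 0 := (map_ne_zero _).2 ht
  by_cases hx : x = 0
  · have : (fun i => algebraMap ℂ Mer t * x i) = x := by
      funext i
      simp [hx]
    rw [this]
  have hd : ∀ i, x i ≠ 0 → dv1 (algebraMap ℂ Mer t * x i) z = dv1 (x i) z := by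
    intro i hi
    rw [Pool.ThmM.all_DV1.1 _ _ ht' hi, Pool.ThmM.all_DV1.2.2.1 t ht, zero_add]
  have hx' : (fun i => algebraMap ℂ Mer t * x i) ≠ 0 := by
    intro h
    apply hx
    funext i
    have := congrFun h i
    exact (mul_eq_zero.1 this).resolve_left ht'
  obtain ⟨h1, i, hi, hi2⟩ := (Pool.ThmM.all_ORD _ x).2 hx z
  obtain ⟨h3, j, hj, hj2⟩ := (Pool.ThmM.all_ORD _ (fun i => algebraMap ℂ Mer t * x i)).2 hx' z
  have hj0 : x j ≠ 0 := fun h => hj (by simp [h])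
  apply le_antisymm
  · have := h3 i (mul_ne_zero ht' hi)
    rw [hd i hi, hi2] at this
    exact this
  · have := h1 j hj0
    rw [← hd j hj0, hj2] at this
    exact this

theorem JWI_Ful {n k : ℕ} {t : ℂ} (ht : t ≠ 0) {x : Fin (n + 1) → Mer} {u : Fin (n + 1) → ℂ}
    (h : Ful k x u) : Ful k (fun i => algebraMap ℂ Mer t * x i) u := by
  intro z
  have h1 : ∑ i, algebraMap ℂ Mer (u i) * (fun i => algebraMap ℂ Mer t * x i) i =
      algebraMap ℂ Mer t * ∑ i, algebraMap ℂ Mer (u i) * x i := by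
    rw [Finset.mul_sum]
    exact Finset.sum_congr rfl fun i _ => by ring
  rw [h1, JWI_om ht, JWI_dv ht]
  exact h z

theorem JWI_hom {R S : Type} [CommRing R] [CommRing S] {m n : ℕ} (φ : R →+* S) (x : Fin m → S)
    (c : S) (f : MvPolynomial (Fin m) R) (hf : f.IsHomogeneous n) :
    eval₂ φ (fun i => c * x i) f = c ^ n * eval₂ φ x f := by
  rw [eval₂_eq', eval₂_eq', Finset.mul_sum]
  refine Finset.sum_congr rfl fun d hd => ?_
  have h1 : ∑ i, d i = n := by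
    have := hf (mem_support_iff.1 hd)
    rw [← this, Finsupp.weight_apply, Finsupp.sum_fintype _ _ (fun i => by simp)]
    simp
  have h2 : ∏ i, (c * x i) ^ d i = c ^ n * ∏ i, x i ^ d i := by
    simp_rw [mul_pow]
    rw [Finset.prod_mul_distrib, Finset.prod_pow_eq_pow_sum, h1]
  rw [h2]
  ring

theorem JWI_sum {R S : Type} [CommRing R] [CommRing S] {m : ℕ} (φ : R →+* S) (x : Fin m → S)
    (c : S) (f : MvPolynomial (Fin m) R) :
    eval₂ φ (fun i => c * x i) f = ∑ n ∈ Finset.range (f.totalDegree + 1),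
      c ^ n * eval₂ φ x (homogeneousComponent n f) := by
  have h1 : eval₂ φ (fun i => c * x i) f = eval₂ φ (fun i => c * x i)
      (∑ n ∈ Finset.range (f.totalDegree + 1), homogeneousComponent n f) := by
    rw [sum_homogeneousComponent]
  rw [h1, eval₂_sum]
  exact Finset.sum_congr rfl fun n _ => JWI_hom φ x c _ (homogeneousComponent_isHomogeneous n f)

theorem JWI_scale {Ω : Type} [Field Ω] {m N : ℕ} {k : ℕ}
    {p₀ : Ideal (MvPolynomial (Fin (m + 1)) Ω)} (hp₀ : Hmg p₀)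
    {l : Fin (N + 1) → Fin (m + 1) → Ω} {τ : Ω →+* ℂ} {x : Fin (m + 1) → Mer}
    (hx : Crv k p₀ l τ x) {t : ℂ} (ht : t ≠ 0) :
    Crv k p₀ l τ (fun i => algebraMap ℂ Mer t * x i) := by
  have ht' : algebraMap ℂ Mer t ≠ 0 := (map_ne_zero _).2 ht
  obtain ⟨⟨i, j, hi, hj⟩, h2, h3⟩ := hx
  refine ⟨⟨i, j, mul_ne_zero ht' hi, fun z hz => hj z ?_⟩, fun f hf => ?_, fun j => ?_⟩
  · apply mul_left_cancel₀ ht'
    refine Eq.trans hz ?_
    ring
  · rw [JWI_sum]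
    exact Finset.sum_eq_zero fun n _ => by rw [h2 _ (hp₀ f hf n), mul_zero]
  · exact JWI_Ful ht (h3 j)

theorem JWI_hmg {Ω : Type} [Field Ω] {m : ℕ} (φ : Ω →+* Mer) (x : Fin (m + 1) → Mer)
    (f : MvPolynomial (Fin (m + 1)) Ω)
    (h : ∀ t : ℂ, t ≠ 0 → eval₂ φ (fun i => algebraMap ℂ Mer t * x i) f = 0) (n : ℕ) :
    eval₂ φ x (homogeneousComponent n f) = 0 := by
  by_cases hn : n < f.totalDegree + 1
  swap
  · rw [homogeneousComponent_eq_zero n f (by omega), eval₂_zero]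
  let P : Polynomial Mer := ∑ n ∈ Finset.range (f.totalDegree + 1),
    Polynomial.monomial n (eval₂ φ x (homogeneousComponent n f))
  have hP : ∀ t : ℂ, t ≠ 0 → P.eval (algebraMap ℂ Mer t) = 0 := by
    intro t ht
    have h1 := h t ht
    rw [JWI_sum] at h1
    rw [← h1, Polynomial.eval_finset_sum]
    exact Finset.sum_congr rfl fun n _ => by rw [Polynomial.eval_monomial, mul_comm]
  have hP0 : P = 0 := by
    apply Polynomial.eq_zero_of_infinite_isRoot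
    have h2 : Set.Infinite ((fun t : ℂ => algebraMap ℂ Mer t) '' {t : ℂ | t ≠ 0}) := by
      apply Set.Infinite.image (algebraMap ℂ Mer).injective.injOn
      exact (Set.finite_singleton (0 : ℂ)).infinite_compl
    refine h2.mono ?_
    rintro _ ⟨t, ht, rfl⟩
    exact hP t ht
  have h3 : P.coeff n = eval₂ φ x (homogeneousComponent n f) := by
    simp only [P, Polynomial.finset_sum_coeff, Polynomial.coeff_monomial]
    rw [Finset.sum_ite_eq' (Finset.range (f.totalDegree + 1)) n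
      (fun n => eval₂ φ x (homogeneousComponent n f))]
    rw [if_pos (Finset.mem_range.2 hn)]
  rw [← h3, hP0, Polynomial.coeff_zero]

theorem p_JWI (hUEY : Stmt_UEY) (hMPI : Stmt_MPI) (hHMP : Stmt_HMP) (hSLY : Stmt_SLY)
    (hDM1 : Stmt_DM1) : Stmt_JWI := by
  classical
  intro m c
  obtain ⟨N', hU⟩ := hUEY m c
  refine ⟨c * N', fun Ω _ _ _ k N p₀ l hk hp₀ hc => ?_⟩
  obtain ⟨Θ, hΘ⟩ : ∃ Θ : Set (Ideal (MvPolynomial (Fin (m + 1)) Ω)), ∀ I, I ∈ Θ ↔
      ∃ (τ : Ω →+* ℂ) (x : Fin (m + 1) → Mer), Crv k p₀ l τ x ∧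
        I = RingHom.ker (eval₂Hom (tm τ) x) := ⟨{I | _}, fun I => Iff.rfl⟩
  have hΘp : ∀ I ∈ Θ, I.IsPrime := by
    intro I hI
    obtain ⟨τ, x, -, rfl⟩ := (hΘ I).1 hI
    exact RingHom.ker_isPrime _
  have hJmem : ∀ f, f ∈ sInf Θ ↔ ∀ (τ : Ω →+* ℂ) (x : Fin (m + 1) → Mer), Crv k p₀ l τ x →
      eval₂ (tm τ) x f = 0 := by
    intro f
    rw [Submodule.mem_sInf]
    constructor
    · intro h τ x hx
      exact h _ ((hΘ _).2 ⟨τ, x, hx, rfl⟩)
    · intro h I hI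
      obtain ⟨τ, x, hx, rfl⟩ := (hΘ I).1 hI
      exact h τ x hx
  have hJh : Hmg (sInf Θ) := by
    intro f hf n
    rw [hJmem] at hf ⊢
    intro τ x hx
    exact JWI_hmg (tm τ) x f (fun t ht => hf τ _ (JWI_scale hp₀ hx ht)) n
  have hfin := Ideal.finite_minimalPrimes_of_isNoetherianRing (MvPolynomial (Fin (m + 1)) Ω)
    (sInf Θ)
  have hcl : ∀ (τ : Ω →+* ℂ) (x : Fin (m + 1) → Mer), Crv k p₀ l τ x →
      ∃ p ∈ (sInf Θ).minimalPrimes, ∀ f ∈ p, eval₂ (tm τ) x f = 0 := by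
    intro τ x hx
    have hmem : RingHom.ker (eval₂Hom (tm τ) x) ∈ Θ := (hΘ _).2 ⟨τ, x, hx, rfl⟩
    haveI := hΘp _ hmem
    obtain ⟨p, hp, hpI⟩ := Ideal.exists_minimalPrimes_le
      (J := RingHom.ker (eval₂Hom (tm τ) x)) (sInf_le hmem)
    exact ⟨p, hp, fun f hf => hpI hf⟩
  refine ⟨(sInf Θ).minimalPrimes, hfin, ?_, hcl⟩
  intro p hp
  have hpp : p.IsPrime := hp.1.1
  have hph : Hmg p := hHMP Ω m _ hJh p hp
  have hp₀J : p₀ ≤ sInf Θ := fun f hf => (hJmem f).2 fun τ x hx => hx.2.1 f hf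
  have hp₀p : p₀ ≤ p := hp₀J.trans hp.1.2
  refine ⟨hpp, hph, hp₀p, ?_⟩
  by_contra hcon
  rw [not_le] at hcon
  obtain ⟨I, hI, hpI⟩ := hMPI _ Θ hΘp p hp
  obtain ⟨τ₁, x₁, hx₁, rfl⟩ := (hΘ I).1 hI
  obtain ⟨f₂, hf₂⟩ := hDM1 Ω m p hph τ₁ x₁ hx₁.1 (fun f hf => hpI hf)
  have hlf : ∀ j ∈ {j | Low k p (lf (l j))}, lf (l j) ∉ p := by
    intro j hj hlp
    have h1 : p ⊔ Ideal.span {lf (l j)} = p :=
      sup_eq_left.2 ((Ideal.span_singleton_le_iff_mem _).2 hlp)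
    have h2 : p ∈ (p ⊔ Ideal.span {lf (l j)}).minimalPrimes := by
      rw [h1, Ideal.minimalPrimes_eq_subsingleton_self]
      exact Set.mem_singleton _
    obtain ⟨t, ht, -, h3⟩ := hj p h2
    exact h3 1 (fun h => hpp.ne_top (p.eq_top_iff_one.2 h))
      (by rw [one_mul]; exact Ideal.mem_sup_left hlp)
  obtain ⟨S, hS1, hS2, hS3, hS4⟩ := hSLY Ω m c N N' p l {j | Low k p (lf (l j))} hpp hph
    ⟨f₂, hf₂⟩ (fun z hz hzp => hc z hz (fun f hf => hzp f (hp₀p hf))) hlf hcon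
  obtain ⟨D, hD, hD2⟩ := hU Ω k p S hk hpp hph hS1 hS4 (fun u hu => by
    obtain ⟨j, hj, rfl⟩ := hS3 u hu
    exact hj) hS2
  have hh : ∃ h ∉ p, ∀ p' ∈ (sInf Θ).minimalPrimes, p' ≠ p → h ∈ p' := by
    have h1 : ∀ p' ∈ hfin.toFinset.erase p, ∃ g ∈ p', g ∉ p := by
      intro p' hp'
      by_contra hcon2
      push Not at hcon2
      have hp'' := Finset.mem_erase.1 hp'
      have hp2 := hfin.mem_toFinset.1 hp''.2
      exact hp''.1 (le_antisymm hcon2 (hp.2 ⟨hp2.1.1, hp2.1.2⟩ hcon2))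
    choose! g hg1 hg2 using h1
    refine ⟨∏ p' ∈ hfin.toFinset.erase p, g p', ?_, ?_⟩
    · intro hmem
      obtain ⟨p', hp', hp'2⟩ := (hpp.prod_mem_iff).1 hmem
      exact hg2 p' hp' hp'2
    · intro p' hp' hne
      have hmem : p' ∈ hfin.toFinset.erase p :=
        Finset.mem_erase.2 ⟨hne, hfin.mem_toFinset.2 hp'⟩
      rw [← Finset.mul_prod_erase _ _ hmem]
      exact Ideal.mul_mem_right _ _ (hg1 p' hmem)
  obtain ⟨h, hh1, hh2⟩ := hh
  have hfinal : h * D ∈ sInf Θ := (hJmem _).2 fun τ x hx => by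
    rw [eval₂_mul]
    obtain ⟨p', hp', hp'2⟩ := hcl τ x hx
    by_cases hpe : p' = p
    · subst hpe
      rw [hD2 τ x hx.1 hp'2 (fun u hu => by
        obtain ⟨j, -, rfl⟩ := hS3 u hu
        exact hx.2.2 j), mul_zero]
    · rw [hp'2 h (hh2 p' hp' hpe), zero_mul]
  exact (hpp.mem_or_mem (hp.1.2 hfinal)).elim hh1 hD

end Pool.MPY
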