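import Pool.Agent.Work.MP_f82ddf_Y.Interface3
import Pool.Agent.Work.MP_f82ddf_Y.B_JWI

set_option autoImplicit false

/-! # THEOREM T (MP_f82ddf_nt), block JWF: the exceptional sets, forms of bounded degree -/

open Pool.Agent.Work.MP_f82ddf_nt.DQ

namespace Pool.MPY

open MvPolynomial
open Pool.ThmM (om dv dv1)
open Pool.ThmP (tm)
open Pool.MPL (NC NPr)
open Pool.MPV (Ful)
open Pool.MPH (FuF)

theorem JWF_FuF {n k e : ℕ} {t : ℂ} (ht : t ≠ 0) {x : Fin (n + 1) → Mer}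
    {G : MvPolynomial (Fin (n + 1)) ℂ} (hG : G.IsHomogeneous e) (h : FuF k x e G) :
    FuF k (fun i => algebraMap ℂ Mer t * x i) e G := by
  intro z
  have h1 : aeval (fun i => algebraMap ℂ Mer t * x i) G =
      algebraMap ℂ Mer (t ^ e) * aeval x G := by
    rw [aeval_def, aeval_def, JWI_hom _ _ _ _ hG, map_pow]
  rw [h1, JWI_om (pow_ne_zero e ht), JWI_dv ht]
  exact h z

theorem JWF_scale {Ω : Type} [Field Ω] {m N : ℕ} {k e : Fin (N + 1) → ℕ}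
    {p₀ : Ideal (MvPolynomial (Fin (m + 1)) Ω)} (hp₀ : Hmg p₀)
    {F : Fin (N + 1) → MvPolynomial (Fin (m + 1)) Ω} (hF : ∀ j, (F j).IsHomogeneous (e j))
    {τ : Ω →+* ℂ} {x : Fin (m + 1) → Mer}
    (hx : CrF k e p₀ F τ x) {t : ℂ} (ht : t ≠ 0) :
    CrF k e p₀ F τ (fun i => algebraMap ℂ Mer t * x i) := by
  have ht' : algebraMap ℂ Mer t ≠ 0 := (map_ne_zero _).2 ht
  obtain ⟨⟨i, j, hi, hj⟩, h2, h3⟩ := hx
  refine ⟨⟨i, j, mul_ne_zero ht' hi, fun z hz => hj z ?_⟩, fun f hf => ?_, fun j => ?_⟩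
  · apply mul_left_cancel₀ ht'
    refine Eq.trans hz ?_
    ring
  · rw [JWI_sum]
    exact Finset.sum_eq_zero fun n _ => by rw [h2 _ (hp₀ f hf n), mul_zero]
  · exact JWF_FuF ht ((hF j).map τ) (h3 j)

theorem p_JWF (hUEG : Stmt_UEG) (hMPI : Stmt_MPI) (hHMP : Stmt_HMP) (hDM1 : Stmt_DM1) :
    Stmt_JWF := by
  classical
  intro m c e₀
  obtain ⟨N', hU⟩ := hUEG m c e₀
  refine ⟨N', fun Ω _ _ _ N k e p₀ F hF hp₀ hc => ?_⟩
  obtain ⟨Θ, hΘ⟩ : ∃ Θ : Set (Ideal (MvPolynomial (Fin (m + 1)) Ω)), ∀ I, I ∈ Θ ↔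
      ∃ (τ : Ω →+* ℂ) (x : Fin (m + 1) → Mer), CrF k e p₀ F τ x ∧
        I = RingHom.ker (eval₂Hom (tm τ) x) := ⟨{I | _}, fun I => Iff.rfl⟩
  have hΘp : ∀ I ∈ Θ, I.IsPrime := by
    intro I hI
    obtain ⟨τ, x, -, rfl⟩ := (hΘ I).1 hI
    exact RingHom.ker_isPrime _
  have hJmem : ∀ f, f ∈ sInf Θ ↔ ∀ (τ : Ω →+* ℂ) (x : Fin (m + 1) → Mer), CrF k e p₀ F τ x →
      eval₂ (tm τ) x f = 0 := by
    intro f
    rw [Submodule.mem_sInf]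
    constructor
    · intro h τ x hx
      exact h _ ((hΘ _).2 ⟨τ, x, hx, rfl⟩)
    · intro h I hI
      obtain ⟨τ, x, hx, rfl⟩ := (hΘ I).1 hI
      exact h τ x hx
  have hJh : Hmg (sInf Θ) := by
    intro f hf n
    rw [hJmem] at hf ⊢
    intro τ x hx
    exact JWI_hmg (tm τ) x f
      (fun t ht => hf τ _ (JWF_scale hp₀ (fun j => (hF j).2.2) hx ht)) n
  have hfin := Ideal.finite_minimalPrimes_of_isNoetherianRing (MvPolynomial (Fin (m + 1)) Ω)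
    (sInf Θ)
  have hcl : ∀ (τ : Ω →+* ℂ) (x : Fin (m + 1) → Mer), CrF k e p₀ F τ x →
      ∃ p ∈ (sInf Θ).minimalPrimes, ∀ f ∈ p, eval₂ (tm τ) x f = 0 := by
    intro τ x hx
    have hmem : RingHom.ker (eval₂Hom (tm τ) x) ∈ Θ := (hΘ _).2 ⟨τ, x, hx, rfl⟩
    haveI := hΘp _ hmem
    obtain ⟨p, hp, hpI⟩ := Ideal.exists_minimalPrimes_le
      (J := RingHom.ker (eval₂Hom (tm τ) x)) (sInf_le hmem)
    exact ⟨p, hp, fun f hf => hpI hf⟩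
  refine ⟨(sInf Θ).minimalPrimes, hfin, ?_, hcl⟩
  intro p hp
  have hpp : p.IsPrime := hp.1.1
  have hph : Hmg p := hHMP Ω m _ hJh p hp
  have hp₀J : p₀ ≤ sInf Θ := fun f hf => (hJmem f).2 fun τ x hx => hx.2.1 f hf
  have hp₀p : p₀ ≤ p := hp₀J.trans hp.1.2
  refine ⟨hpp, hph, hp₀p, ?_⟩
  by_contra hcon
  rw [not_le] at hcon
  obtain ⟨I, hI, hpI⟩ := hMPI _ Θ hΘp p hp
  obtain ⟨τ₁, x₁, hx₁, rfl⟩ := (hΘ I).1 hI
  obtain ⟨f₂, hf₂⟩ := hDM1 Ω m p hph τ₁ x₁ hx₁.1 (fun f hf => hpI hf)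
  obtain ⟨D, hD, hD2⟩ := hU Ω N k e p F hF hpp hph ⟨f₂, hf₂⟩
    (fun z hz hzp => hc z hz (fun f hf => hzp f (hp₀p hf))) hcon
  have hh : ∃ h ∉ p, ∀ p' ∈ (sInf Θ).minimalPrimes, p' ≠ p → h ∈ p' := by
    have h1 : ∀ p' ∈ hfin.toFinset.erase p, ∃ g ∈ p', g ∉ p := by
      intro p' hp'
      by_contra hcon2
      push Not at hcon2
      have hp'' := Finset.mem_erase.1 hp'
      have hp2 := hfin.mem_toFinset.1 hp''.2
      exact hp''.1 (le_antisymm hcon2 (hp.2 ⟨hp2.1.1, hp2.1.2⟩ hcon2))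
    choose! g hg1 hg2 using h1
    refine ⟨∏ p' ∈ hfin.toFinset.erase p, g p', ?_, ?_⟩
    · intro hmem
      obtain ⟨p', hp', hp'2⟩ := (hpp.prod_mem_iff).1 hmem
      exact hg2 p' hp' hp'2
    · intro p' hp' hne
      have hmem : p' ∈ hfin.toFinset.erase p :=
        Finset.mem_erase.2 ⟨hne, hfin.mem_toFinset.2 hp'⟩
      rw [← Finset.mul_prod_erase _ _ hmem]
      exact Ideal.mul_mem_right _ _ (hg1 p' hmem)
  obtain ⟨h, hh1, hh2⟩ := hh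
  have hfinal : h * D ∈ sInf Θ := (hJmem _).2 fun τ x hx => by
    rw [eval₂_mul]
    obtain ⟨p', hp', hp'2⟩ := hcl τ x hx
    by_cases hpe : p' = p
    · subst hpe
      rw [hD2 τ x hx.1 hp'2 hx.2.2, mul_zero]
    · rw [hp'2 h (hh2 p' hp' hpe), zero_mul]
  exact (hpp.mem_or_mem (hp.1.2 hfinal)).elim hh1 hD

end Pool.MPY
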