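import Pool.Agent.Work.MP_f82ddf_Y.Interface

set_option autoImplicit false

namespace Pool.MPY

open MvPolynomial
open Pool.Agent.Work.MP_f82ddf_M5 (comb)
open Pool.MPW (OrdGE)

section LCXval

variable {F : Type} [Field F] (V : ValuationSubring F)

theorem LCX_mul {a b : F} (ha : a ∈ V.nonunits) (hb : b ∈ V) : a * b ∈ V.nonunits := by
  rw [ValuationSubring.mem_nonunits_iff] at *
  rw [map_mul]
  calc V.valuation a * V.valuation b ≤ V.valuation a * 1 :=
        mul_le_mul_right ((V.valuation_le_one_iff _).2 hb) _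
    _ = V.valuation a := mul_one _
    _ < 1 := ha

theorem LCX_one : (1 : F) ∉ V.nonunits := by
  rw [ValuationSubring.mem_nonunits_iff, map_one]
  exact lt_irrefl _

theorem LCX_inv {a : F} (ha : a ∉ V.nonunits) : a⁻¹ ∈ V := by
  by_contra h
  exact ha (V.mem_nonunits_iff_or.2 (Or.inr h))

theorem LCX_ne {a : F} (ha : a ∉ V.nonunits) : a ≠ 0 := by
  intro h
  exact ha (by rw [h]; exact V.nonunits.zero_mem)

theorem LCX_unit {a b : F} (ha : a ∉ V.nonunits) (hb : b ∉ V.nonunits) :
    a * b ∉ V.nonunits := by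
  intro h
  apply LCX_one V
  have h1 := LCX_mul V (LCX_mul V h (LCX_inv V ha)) (LCX_inv V hb)
  have h2 : a * b * a⁻¹ * b⁻¹ = 1 := by
    have := LCX_ne V ha
    have := LCX_ne V hb
    field_simp
  rwa [h2] at h1

theorem LCX_mem {a : F} (ha : a ∈ V.nonunits) : a ∈ V := by
  rw [ValuationSubring.mem_nonunits_iff] at ha
  exact (V.valuation_le_one_iff _).1 ha.le

end LCXval

section LCXring

variable {F : Type} [Field F] [Algebra ℂ F] {σ : Type} (q : Ideal (MvPolynomial σ ℂ)) (η : σ → F)

/-- The local ring of `q`. -/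
def LCX_R (x : F) : Prop :=
  ∃ f h : MvPolynomial σ ℂ, h ∉ q ∧ x * aeval η h = aeval η f

theorem LCX_R_add (hq : q.IsPrime) {x z : F} (hx : LCX_R q η x) (hz : LCX_R q η z) :
    LCX_R q η (x + z) := by
  obtain ⟨f, h, hh, e⟩ := hx
  obtain ⟨f', h', hh', e'⟩ := hz
  refine ⟨f * h' + f' * h, h * h', fun hc => ?_, ?_⟩
  · rcases hq.mem_or_mem hc with h1 | h1
    · exact hh h1
    · exact hh' h1
  · rw [map_add, map_mul, map_mul, map_mul, ← e, ← e']
    ring

theorem LCX_R_mul (hq : q.IsPrime) {x z : F} (hx : LCX_R q η x) (hz : LCX_R q η z) :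
    LCX_R q η (x * z) := by
  obtain ⟨f, h, hh, e⟩ := hx
  obtain ⟨f', h', hh', e'⟩ := hz
  refine ⟨f * f', h * h', fun hc => ?_, ?_⟩
  · rcases hq.mem_or_mem hc with h1 | h1
    · exact hh h1
    · exact hh' h1
  · rw [map_mul, map_mul, ← e, ← e']
    ring

theorem LCX_R_poly (hq : q.IsPrime) (f : MvPolynomial σ ℂ) : LCX_R q η (aeval η f) :=
  ⟨f, 1, fun h => hq.ne_top ((Ideal.eq_top_iff_one q).2 h), by rw [map_one, mul_one]⟩

theorem LCX_R_nat (hq : q.IsPrime) (n : ℕ) : LCX_R q η (n : F) := by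
  have := LCX_R_poly q η hq (n : MvPolynomial σ ℂ)
  rwa [map_natCast] at this

/-- Leibniz rule. -/
theorem LCX_leib (hq : q.IsPrime) (D : Derivation ℂ F F)
    (hD : ∀ x, LCX_R q η x → LCX_R q η (D x)) (T : F) (hT : LCX_R q η T) (hDT : D T = 1) :
    ∀ (e : ℕ) (x : F), LCX_R q η x → ∃ x', LCX_R q η x' ∧
      (⇑D)^[e] (T ^ e * x) = (e.factorial : F) * x + T * x' := by
  intro e
  induction e with
  | zero =>
    intro x _
    refine ⟨0, ?_, ?_⟩
    · have := LCX_R_nat q η hq 0
      rwa [Nat.cast_zero] at this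
    · simp
  | succ e ih =>
    intro x hx
    have h1 : LCX_R q η (((e + 1 : ℕ) : F) * x + T * D x) :=
      LCX_R_add q η hq (LCX_R_mul q η hq (LCX_R_nat q η hq _) hx)
        (LCX_R_mul q η hq hT (hD x hx))
    obtain ⟨x', hx', he⟩ := ih _ h1
    refine ⟨(e.factorial : F) * D x + x',
      LCX_R_add q η hq (LCX_R_mul q η hq (LCX_R_nat q η hq _) (hD x hx)) hx', ?_⟩
    have h2 : D (T ^ (e + 1) * x) = T ^ e * (((e + 1 : ℕ) : F) * x + T * D x) := by
      rw [Derivation.leibniz, Derivation.leibniz_pow, hDT]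
      simp only [smul_eq_mul, nsmul_eq_mul, Nat.add_sub_cancel, mul_one]
      ring
    rw [Function.iterate_succ_apply, h2, he, Nat.factorial_succ]
    push_cast
    ring

end LCXring

theorem p_LCX : Stmt_DDR → Stmt_DRV → Stmt_ORL → Stmt_RGB → Stmt_ODR → Stmt_LCX := by
  intro hDDR hDRV hORL hRGB hODR
  intro F _ _ w m r β k Q A v v₀ L u c p q y η V hp hq hpq hη hQ hc hA hord hVC hv hηV hqV hy hny
    hdim hmin hlp hlow
  set l : MvPolynomial (Fin (m + 1)) ℂ := lf fun i => ∑ j, u j * L j i with hl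
  obtain ⟨t, htq, hgen, hk⟩ := hlow q hmin
  have hlq : l ∈ q := hmin.1.2 (Ideal.mem_sup_right (Ideal.mem_span_singleton_self l))
  have htp : t ∉ p := by
    intro htp
    obtain ⟨h, hh, hm⟩ := hgen l hlq
    have h1 : p ⊔ Ideal.span {t} = p := by
      rw [sup_eq_left, Ideal.span_singleton_le_iff_mem]
      exact htp
    rw [h1] at hm
    rcases hp.mem_or_mem hm with h2 | h2
    · exact hh (hpq h2)
    · exact hlp h2
  have hcons := hDDR ℂ (Fin (m + 1)) p q hp hq hpq β y hy t htq htp
  have hz : AlgebraicIndependent ℂ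
      (fun i => aeval η ((Fin.cons t y : Fin (β + 1) → MvPolynomial (Fin (m + 1)) ℂ) i)) := by
    rw [algebraicIndependent_iff]
    intro H hH
    apply hcons H
    rw [← hη]
    rw [← hH]
    rw [← AlgHom.comp_apply]
    congr 1
    ext i
    simp
  obtain ⟨D, hD0, hDs⟩ := hDRV F β _ hz
  have hDt : D (aeval η t) = 1 := by simpa using hD0
  have hDy : ∀ i, D (aeval η (y i)) = 0 := by
    intro i
    simpa using hDs i
  obtain ⟨e, g', h, hg', hh, hm⟩ := hORL ℂ (Fin (m + 1)) p q t hp hq hpq htq htp hgen l hlp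
  have hek : e < k := by
    by_contra hcon
    push Not at hcon
    apply hk h hh
    have h1 : h * l = (h * l - t ^ e * g') + t ^ e * g' := by ring
    rw [h1]
    apply Ideal.add_mem
    · exact Ideal.mem_sup_left hm
    · apply Ideal.mem_sup_right
      rw [Ideal.mem_span_singleton]
      exact (pow_dvd_pow t hcon).mul_right g'
  have hR := hRGB F m β p q t y η D hp hq hpq hη htq htp hgen hy hny hdim hDt hDy
  have hne : ∀ f : MvPolynomial (Fin (m + 1)) ℂ, f ∉ q → aeval η f ≠ 0 := by
    intro f hf h0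
    exact hf (hpq ((hη f).1 h0))
  have hDR : ∀ x, LCX_R q η x → LCX_R q η (D x) := by
    rintro x ⟨f, h, hh, e⟩
    have hx : x = aeval η f / aeval η h := by
      rw [← e, mul_div_cancel_right₀ _ (hne h hh)]
    obtain ⟨f', h', hh', e'⟩ := hR f h hh
    exact ⟨f', h', hh', by rw [hx]; exact e'⟩
  have hpV : ∀ f : MvPolynomial (Fin (m + 1)) ℂ, aeval η f ∈ V := by
    intro f
    induction f using MvPolynomial.induction_on with
    | C a => rw [aeval_C]; exact hVC a
    | add f g hf hg => rw [map_add]; exact V.add_mem _ _ hf hg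
    | mul_X f i hf => rw [map_mul, aeval_X]; exact V.mul_mem _ _ hf (hηV i)
  have hRV : ∀ x, LCX_R q η x → x ∈ V := by
    rintro x ⟨f, h, hh, e⟩
    have hx : x = aeval η f * (aeval η h)⁻¹ := by
      rw [← e, mul_inv_cancel_right₀ (hne h hh)]
    rw [hx]
    exact V.mul_mem _ _ (hpV f) (LCX_inv V fun hc => hh ((hqV h).2 hc))
  -- the value at the place
  have hvV : ∀ j, v j ∈ V := by
    intro j
    have h1 : v j = (v j - algebraMap ℂ F (v₀ j)) + algebraMap ℂ F (v₀ j) := by ring
    rw [h1]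
    exact V.add_mem _ _ (LCX_mem V (hv j)) (hVC _)
  have hGV : ∀ G : MvPolynomial (Fin (w + 2)) ℂ, aeval v G ∈ V := by
    intro f
    induction f using MvPolynomial.induction_on with
    | C a => rw [aeval_C]; exact hVC a
    | add f g hf hg => rw [map_add]; exact V.add_mem _ _ hf hg
    | mul_X f i hf => rw [map_mul, aeval_X]; exact V.mul_mem _ _ hf (hvV i)
  have hG : ∀ G : MvPolynomial (Fin (w + 2)) ℂ,
      aeval v G - algebraMap ℂ F (eval v₀ G) ∈ V.nonunits := by
    intro f
    induction f using MvPolynomial.induction_on with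
    | C a =>
      rw [aeval_C, eval_C, sub_self]
      exact V.nonunits.zero_mem
    | add f g hf hg =>
      rw [map_add, map_add, map_add, add_sub_add_comm]
      exact V.nonunits.add_mem hf hg
    | mul_X f i hf =>
      rw [map_mul, map_mul, aeval_X, eval_X, map_mul]
      have h1 : aeval v f * v i - algebraMap ℂ F (eval v₀ f) * algebraMap ℂ F (v₀ i) =
          (aeval v f - algebraMap ℂ F (eval v₀ f)) * v i +
            (v i - algebraMap ℂ F (v₀ i)) * algebraMap ℂ F (eval v₀ f) := by ring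
      rw [h1]
      exact V.nonunits.add_mem (LCX_mul V hf (hvV i)) (LCX_mul V (hv i) (hVC _))
  -- the left side
  have hTn : aeval η t ∈ V.nonunits := (hqV t).1 htq
  have hlη : aeval η l = aeval η t ^ e * (aeval η g' / aeval η h) := by
    have h1 := (hη _).2 hm
    rw [map_sub, map_mul, map_mul, map_pow, sub_eq_zero] at h1
    have h2 := hne h hh
    rw [mul_div_assoc', eq_div_iff h2, ← h1, mul_comm]
  have hX : LCX_R q η (aeval η g' / aeval η h) :=
    ⟨g', h, hh, div_mul_cancel₀ _ (hne h hh)⟩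
  obtain ⟨x', hx', he⟩ := LCX_leib q η hq D hDR (aeval η t) (LCX_R_poly q η hq t) hDt e _ hX
  have hcst : ∀ a : ℂ, a ≠ 0 → algebraMap ℂ F a ∉ V.nonunits := by
    intro a ha hmem
    apply LCX_one V
    have h1 := LCX_mul V hmem (hVC a⁻¹)
    rwa [← map_mul, mul_inv_cancel₀ ha, map_one] at h1
  have hXu : aeval η g' / aeval η h ∉ V.nonunits := by
    intro hc1
    have h1 := LCX_mul V hc1 (hpV h)
    rw [div_mul_cancel₀ _ (hne h hh)] at h1
    exact hg' ((hqV g').2 h1)
  have hleft : (⇑D)^[e] (aeval η l) ∉ V.nonunits := by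
    intro hc1
    rw [hlη, he] at hc1
    have h1 : (e.factorial : F) * (aeval η g' / aeval η h) ∈ V.nonunits := by
      have h2 := V.nonunits.sub_mem hc1 (LCX_mul V hTn (hRV x' hx'))
      rwa [add_sub_cancel_right] at h2
    have h3 : (e.factorial : F) = algebraMap ℂ F (e.factorial : ℂ) := by
      rw [map_natCast]
    rw [h3] at h1
    exact LCX_unit V (hcst _ (by exact_mod_cast e.factorial_ne_zero)) hXu h1
  apply hleft
  -- the right side
  have hodr := hODR F (w + 2) r k Q A v D (fun j => ∑ i, algebraMap ℂ F (L j i) * η i) hQ hord e hek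
  have hDadd : ∀ (n : ℕ) (s : Finset (Fin (r + 1))) (f : Fin (r + 1) → F) (a : Fin (r + 1) → ℂ),
      (⇑D)^[n] (∑ j ∈ s, algebraMap ℂ F (a j) * f j) =
        ∑ j ∈ s, algebraMap ℂ F (a j) * (⇑D)^[n] (f j) := by
    intro n
    induction n with
    | zero => intro s f a; simp
    | succ n ih =>
      intro s f a
      rw [Function.iterate_succ_apply]
      have h1 : D (∑ j ∈ s, algebraMap ℂ F (a j) * f j) =
          ∑ j ∈ s, algebraMap ℂ F (a j) * D (f j) := by
        rw [map_sum]
        apply Finset.sum_congr rfl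
        intro j _
        rw [Derivation.leibniz, Derivation.map_algebraMap, smul_zero, add_zero, smul_eq_mul]
      rw [h1, ih s (fun j => D (f j)) a]
      apply Finset.sum_congr rfl
      intro j _
      rw [Function.iterate_succ_apply]
  have hlsum : aeval η l = ∑ j, algebraMap ℂ F (u j) * ∑ i, algebraMap ℂ F (L j i) * η i := by
    rw [hl, lf, map_sum]
    simp only [map_mul, aeval_C, aeval_X, map_sum, Finset.sum_mul, Finset.mul_sum]
    rw [Finset.sum_comm]
    apply Finset.sum_congr rfl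
    intro j _
    apply Finset.sum_congr rfl
    intro i _
    ring
  have hxR : ∀ (n : ℕ) (j : Fin (r + 1)),
      LCX_R q η ((⇑D)^[n] (∑ i, algebraMap ℂ F (L j i) * η i)) := by
    intro n j
    induction n with
    | zero =>
      have h1 := LCX_R_poly q η hq (lf (L j))
      rw [lf, map_sum] at h1
      simpa only [map_mul, aeval_C, aeval_X, Function.iterate_zero, id_eq] using h1
    | succ n ih =>
      rw [Function.iterate_succ_apply']
      exact hDR _ ih
  have h1 : algebraMap ℂ F c * (⇑D)^[e] (aeval η l) =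
      - ∑ j, (aeval v (A j) - algebraMap ℂ F (eval v₀ (A j))) *
        (⇑D)^[e] (∑ i, algebraMap ℂ F (L j i) * η i) := by
    rw [hlsum, hDadd e Finset.univ (fun j => ∑ i, algebraMap ℂ F (L j i) * η i) u,
      Finset.mul_sum]
    have h2 : ∑ j, (aeval v (A j) - algebraMap ℂ F (eval v₀ (A j))) *
        (⇑D)^[e] (∑ i, algebraMap ℂ F (L j i) * η i) =
        ∑ j, (⇑D)^[e] (∑ i, algebraMap ℂ F (L j i) * η i) * aeval v (A j) -
        ∑ j, algebraMap ℂ F c * (algebraMap ℂ F (u j) *
          (⇑D)^[e] (∑ i, algebraMap ℂ F (L j i) * η i)) := by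
      rw [← Finset.sum_sub_distrib]
      apply Finset.sum_congr rfl
      intro j _
      rw [hA j, map_mul]
      ring
    rw [h2, hodr]
    ring
  have h2 : algebraMap ℂ F c * (⇑D)^[e] (aeval η l) ∈ V.nonunits := by
    rw [h1]
    apply V.nonunits.neg_mem
    apply sum_mem
    intro j _
    exact LCX_mul V (hG (A j)) (hRV _ (hxR e j))
  have h3 := LCX_mul V h2 (hVC c⁻¹)
  have h4 : algebraMap ℂ F c * (⇑D)^[e] (aeval η l) * algebraMap ℂ F c⁻¹ =
      (⇑D)^[e] (aeval η l) * algebraMap ℂ F (c * c⁻¹) := by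
    rw [map_mul]
    ring
  rwa [h4, mul_inv_cancel₀ hc, map_one, mul_one] at h3

end Pool.MPY
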