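import Pool.Agent.Work.MP_f82ddf_Y.Interface3

set_option autoImplicit false

/-! # THEOREM T (MP_f82ddf_nt), block VPT (helper58): points under the Veronese map -/

open Pool.Agent.Work.MP_f82ddf_nt.DQ

namespace Pool.MPY

open MvPolynomial
open Pool.ThmP (Mor OnX OnK tm RelP FullF)

/-- components and the Veronese homomorphism -/
theorem VPT_hc {Ω : Type} [Field Ω] {b t E : ℕ} (ε : Fin (t + 1) → Fin (b + 1) →₀ ℕ) (hE : 1 ≤ E)
    (h4 : ∀ (d : ℕ) (f : MvPolynomial (Fin (t + 1)) Ω), f.IsHomogeneous d →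
      (vr ε f).IsHomogeneous (d * E)) (f : MvPolynomial (Fin (t + 1)) Ω) (d : ℕ) :
    homogeneousComponent (d * E) (vr ε f) = vr ε (homogeneousComponent d f) := by
  have key : ∀ i, homogeneousComponent (d * E) (vr ε (homogeneousComponent i f)) =
      if i = d then vr ε (homogeneousComponent d f) else 0 := by
    intro i
    have h5 := h4 i _ (homogeneousComponent_isHomogeneous i f)
    rw [homogeneousComponent_of_mem ((mem_homogeneousSubmodule _ _).mpr h5)]
    by_cases hid : i = d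
    · rw [hid, if_pos rfl, if_pos rfl]
    · rw [if_neg hid, if_neg]
      intro h6
      exact hid (Nat.eq_of_mul_eq_mul_right (by omega) h6.symm)
  conv_lhs => rw [← sum_homogeneousComponent f]
  rw [map_sum, map_sum, Finset.sum_congr rfl (fun i _ => key i), Finset.sum_ite_eq']
  by_cases hd : d ∈ Finset.range (f.totalDegree + 1)
  · rw [if_pos hd]
  · rw [if_neg hd, homogeneousComponent_eq_zero, map_zero]
    rw [Finset.mem_range] at hd
    omega

/-- the comap of a homogeneous ideal is homogeneous -/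
theorem VPT_hmg {Ω : Type} [Field Ω] {b t E : ℕ} (ε : Fin (t + 1) → Fin (b + 1) →₀ ℕ) (hE : 1 ≤ E)
    (h4 : ∀ (d : ℕ) (f : MvPolynomial (Fin (t + 1)) Ω), f.IsHomogeneous d →
      (vr ε f).IsHomogeneous (d * E)) {p : Ideal (MvPolynomial (Fin (b + 1)) Ω)} (hp : Hmg p) :
    Hmg (p.comap (vr ε)) := by
  intro f hf d
  have h1 : vr ε f ∈ p := hf
  have h2 := hp _ h1 (d * E)
  rw [VPT_hc ε hE h4] at h2
  exact h2

/-- the line through a point -/
noncomputable def VPT_line {Ω : Type} [Field Ω] {t : ℕ} (z : Fin (t + 1) → Ω) :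
    MvPolynomial (Fin (t + 1)) Ω →ₐ[Ω] Polynomial Ω :=
  aeval fun c => Polynomial.C (z c) * Polynomial.X

theorem VPT_line_hom {Ω : Type} [Field Ω] {t : ℕ} (z : Fin (t + 1) → Ω) (d : ℕ)
    (f : MvPolynomial (Fin (t + 1)) Ω) (hf : f.IsHomogeneous d) :
    VPT_line z f = Polynomial.C (eval z f) * Polynomial.X ^ d := by
  unfold VPT_line
  rw [aeval_def, eval₂_eq', eval_eq', map_sum, Finset.sum_mul]
  refine Finset.sum_congr rfl (fun μ hμ => ?_)
  have h1 : ∑ i, μ i = d := by
    have h2 := hf (mem_support_iff.mp hμ)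
    rw [← h2, Finsupp.weight_apply, Finsupp.sum_fintype _ _ (fun i => by simp)]
    simp
  rw [map_mul, map_prod, mul_assoc]
  congr 1
  rw [← h1, ← Finset.prod_pow_eq_pow_sum, ← Finset.prod_mul_distrib]
  refine Finset.prod_congr rfl (fun i _ => ?_)
  rw [mul_pow, map_pow]

theorem VPT_line_zero {Ω : Type} [Field Ω] {t : ℕ} (z : Fin (t + 1) → Ω)
    {I : Ideal (MvPolynomial (Fin (t + 1)) Ω)} (hI : Hmg I) (hz : ∀ f ∈ I, eval z f = 0) :
    I ≤ RingHom.ker (VPT_line z : MvPolynomial (Fin (t + 1)) Ω →ₐ[Ω] Polynomial Ω) := by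
  intro f hf
  rw [RingHom.mem_ker, ← sum_homogeneousComponent f, map_sum]
  refine Finset.sum_eq_zero (fun i _ => ?_)
  rw [VPT_line_hom z i _ (homogeneousComponent_isHomogeneous i f), hz _ (hI f hf i), map_zero,
    zero_mul]

theorem p_VPT : Stmt_VRG → Pool.ThmP.Stmt_NUL → Stmt_VPT := by
  intro hVRG hNUL Ω _ _ b t E ε hε hE p hp z' hz' hz0
  obtain ⟨-, -, h4, -, h6⟩ := hVRG.2 Ω b t E ε hε hE
  have hhm : Hmg (p.comap (vr ε)) := VPT_hmg ε hE h4 hp
  obtain ⟨P', hP'⟩ : ∃ P' : Ideal (MvPolynomial (Fin (t + 1)) Ω),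
      P' = RingHom.ker (VPT_line z' : MvPolynomial (Fin (t + 1)) Ω →ₐ[Ω] Polynomial Ω) := ⟨_, rfl⟩
  have hPp : P'.IsPrime := by
    rw [hP']
    exact RingHom.ker_isPrime _
  have hle : p.comap (vr ε) ≤ P' := by
    rw [hP']
    exact VPT_line_zero z' hhm hz0
  -- a prime above
  obtain ⟨Q, hQp, hQ, hQc⟩ : ∃ Q : Ideal (MvPolynomial (Fin (b + 1)) Ω), p ≤ Q ∧ Q.IsPrime ∧
      Q.comap (vr ε) = P' := by
    let alg : Algebra (MvPolynomial (Fin (t + 1)) Ω) (MvPolynomial (Fin (b + 1)) Ω) :=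
      ((vr ε : MvPolynomial (Fin (t + 1)) Ω →ₐ[Ω] MvPolynomial (Fin (b + 1)) Ω) :
        MvPolynomial (Fin (t + 1)) Ω →+* MvPolynomial (Fin (b + 1)) Ω).toAlgebra
    have hint : @Algebra.IsIntegral (MvPolynomial (Fin (t + 1)) Ω) (MvPolynomial (Fin (b + 1)) Ω)
        _ _ alg := ⟨h6⟩
    obtain ⟨Q, h1, h2, h3⟩ := @Ideal.exists_ideal_over_prime_of_isIntegral _ _ _ _ alg hint P' hPp
      p hle
    exact ⟨Q, h1, h2, h3⟩
  -- the generic point of Q
  have := hQ
  obtain ⟨τ, hτ⟩ : ∃ τ : Ω →+* FractionRing (MvPolynomial (Fin (b + 1)) Ω ⧸ Q),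
      τ = ((algebraMap (MvPolynomial (Fin (b + 1)) Ω ⧸ Q) (FractionRing _)).comp
        (Ideal.Quotient.mk Q)).comp C := ⟨_, rfl⟩
  obtain ⟨x, hx⟩ : ∃ x : Fin (b + 1) → FractionRing (MvPolynomial (Fin (b + 1)) Ω ⧸ Q),
      x = fun i => algebraMap (MvPolynomial (Fin (b + 1)) Ω ⧸ Q) (FractionRing _)
        (Ideal.Quotient.mk Q (X i)) := ⟨_, rfl⟩
  have hval : ∀ f : MvPolynomial (Fin (b + 1)) Ω, eval₂ τ x f =
      algebraMap (MvPolynomial (Fin (b + 1)) Ω ⧸ Q) (FractionRing _) (Ideal.Quotient.mk Q f) := by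
    intro f
    have h1 : eval₂Hom τ x = (algebraMap (MvPolynomial (Fin (b + 1)) Ω ⧸ Q)
        (FractionRing (MvPolynomial (Fin (b + 1)) Ω ⧸ Q))).comp (Ideal.Quotient.mk Q) := by
      refine MvPolynomial.ringHom_ext (fun a => ?_) (fun i => ?_)
      · rw [coe_eval₂Hom, eval₂_C, hτ]
        rfl
      · rw [coe_eval₂Hom, eval₂_X, hx]
        rfl
    have h2 := congrArg (fun φ => φ f) h1
    exact h2
  have hval0 : ∀ f : MvPolynomial (Fin (b + 1)) Ω, eval₂ τ x f = 0 ↔ f ∈ Q := by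
    intro f
    rw [hval, map_eq_zero_iff _ (IsFractionRing.injective _ _), Ideal.Quotient.eq_zero_iff_mem]
  -- a coordinate which does not vanish
  have hvX : ∀ c, vr ε (X c : MvPolynomial (Fin (t + 1)) Ω) = monomial (ε c) 1 := by
    intro c
    unfold vr
    rw [aeval_X]
  have hX : ∃ i, (X i : MvPolynomial (Fin (b + 1)) Ω) ∉ Q := by
    by_contra hcon
    push Not at hcon
    apply hz'
    funext c
    have h1 : (X c : MvPolynomial (Fin (t + 1)) Ω) ∈ P' := by
      rw [← hQc]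
      show vr ε (X c) ∈ Q
      rw [hvX]
      have h2 : ∃ i, ε c i ≠ 0 := by
        by_contra hc0
        push Not at hc0
        have h3 := (hε.2 (ε c)).mpr ⟨c, rfl⟩
        rw [Finset.sum_eq_zero (fun i _ => hc0 i)] at h3
        omega
      obtain ⟨i, hi⟩ := h2
      have h3 : (X i : MvPolynomial (Fin (b + 1)) Ω) ∣ monomial (ε c) 1 := by
        rw [X_dvd_monomial]
        exact Or.inr hi
      exact Q.mem_of_dvd h3 (hcon i)
    rw [hP', RingHom.mem_ker] at h1
    have h2 : VPT_line z' (X c) = Polynomial.C (z' c) * Polynomial.X := by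
      unfold VPT_line
      rw [aeval_X]
    rw [h2] at h1
    have h3 := congrArg (fun f => Polynomial.coeff f 1) h1
    simpa using h3
  obtain ⟨i, hi⟩ := hX
  have hrel : ∀ c d, monomial (ε c) (z' d) - monomial (ε d) (z' c) ∈ Q := by
    intro c d
    have h1 : X c * C (z' d) - X d * C (z' c) ∈ P' := by
      rw [hP', RingHom.mem_ker, map_sub, map_mul, map_mul]
      have h2 : ∀ c, VPT_line z' (X c) = Polynomial.C (z' c) * Polynomial.X := by
        intro c
        unfold VPT_line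
        rw [aeval_X]
      have h3 : ∀ a, VPT_line z' (C a) = Polynomial.C a := by
        intro a
        unfold VPT_line
        rw [aeval_C]
        rfl
      rw [h2, h2, h3, h3]
      ring
    rw [← hQc] at h1
    have h2 : vr ε (X c * C (z' d) - X d * C (z' c)) ∈ Q := h1
    have h3 : ∀ a, vr ε (C a : MvPolynomial (Fin (t + 1)) Ω) = C a := by
      intro a
      unfold vr
      rw [aeval_C]
      rfl
    rw [map_sub, map_mul, map_mul, hvX, hvX, h3, h3, mul_comm, mul_comm (monomial (ε d) 1),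
      C_mul_monomial, C_mul_monomial, mul_one, mul_one] at h2
    exact h2
  -- a point over Ω
  have hex : ∃ v : Fin (b + 1) → Ω, (∀ f ∈ p, eval v f = 0) ∧
      (∀ c d, eval v (monomial (ε c) (z' d) - monomial (ε d) (z' c)) = 0) ∧ v i ≠ 0 := by
    by_contra hcon
    push Not at hcon
    have h1 := hNUL Ω Ω (FractionRing (MvPolynomial (Fin (b + 1)) Ω ⧸ Q)) b
      {f | f ∈ p ∧ ∃ d, f.IsHomogeneous d}
      {f | ∃ c d, f = monomial (ε c) (z' d) - monomial (ε d) (z' c)} (X i) (by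
        intro v hv hv2
        rw [eval_X]
        refine hcon v ?_ (fun c d => hv2 _ ⟨c, d, rfl⟩)
        intro f hf
        rw [← sum_homogeneousComponent f, map_sum]
        refine Finset.sum_eq_zero (fun j _ => ?_)
        have h2 := hv _ ⟨hp f hf j, j, homogeneousComponent_isHomogeneous j f⟩
        rw [← coe_aeval_eq_eval]
        exact h2) τ x (by
        intro f hf
        have h2 : τ.comp (algebraMap Ω Ω) = τ := by
          ext a
          rfl
        rw [h2]
        exact (hval0 f).mpr (hQp hf.1)) (by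
        rintro _ ⟨c, d, rfl⟩
        exact (hval0 _).mpr (hrel c d))
    exact hi ((hval0 _).mp h1)
  obtain ⟨v, hv1, hv2, hv3⟩ := hex
  obtain ⟨c₀, hc₀⟩ := (hε.2 (Finsupp.single i E)).mp (by
    rw [Finset.sum_eq_single i]
    · rw [Finsupp.single_eq_same]
    · intro j _ hj
      rw [Finsupp.single_eq_of_ne hj]
    · intro hc
      exact absurd (Finset.mem_univ i) hc)
  have hmon : ∀ c (a : Ω), eval v (monomial (ε c) a) = a * ∏ j, v j ^ ε c j := by
    intro c a
    rw [eval_monomial, Finsupp.prod_fintype _ _ (fun j => pow_zero _)]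
  have hc₀v : ∏ j, v j ^ ε c₀ j = v i ^ E := by
    rw [hc₀, Finset.prod_eq_single i]
    · rw [Finsupp.single_eq_same]
    · intro j _ hj
      rw [Finsupp.single_eq_of_ne hj, pow_zero]
    · intro hc
      exact absurd (Finset.mem_univ i) hc
  have hviE : v i ^ E ≠ 0 := pow_ne_zero _ hv3
  have hz'd : ∀ d, z' d = z' c₀ / v i ^ E * ∏ j, v j ^ ε d j := by
    intro d
    have h1 := hv2 c₀ d
    rw [map_sub, hmon, hmon, hc₀v, sub_eq_zero] at h1
    field_simp
    exact h1
  refine ⟨v, z' c₀ / v i ^ E, ?_, ?_, hv1, hz'd⟩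
  · intro h1
    exact hv3 (by rw [h1]; rfl)
  · intro h1
    apply hz'
    funext d
    rw [hz'd d, h1, zero_mul]
    rfl

end Pool.MPY
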