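import Pool.Agent.Work.MP_f82ddf_Y.B_HTC
import Pool.Agent.Work.MP_f82ddf_Y.B_VPT

set_option autoImplicit false

/-! # THEOREM T (MP_f82ddf_nt), block LOV (helper58): `Low` under the Veronese map -/

open Pool.Agent.Work.MP_f82ddf_nt.DQ

namespace Pool.MPY

open MvPolynomial

section

variable {Ω : Type} [Field Ω] {b : ℕ}

/-- components of a product with a form -/
theorem LOV_hc {F : MvPolynomial (Fin b) Ω} {e : ℕ} (hF : F.IsHomogeneous e)
    (g : MvPolynomial (Fin b) Ω) (n : ℕ) :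
    homogeneousComponent (n + e) (g * F) = homogeneousComponent n g * F := by
  have key : ∀ i, homogeneousComponent (n + e) (homogeneousComponent i g * F) =
      if i = n then homogeneousComponent n g * F else 0 := by
    intro i
    have h5 := (homogeneousComponent_isHomogeneous i g).mul hF
    rw [homogeneousComponent_of_mem ((mem_homogeneousSubmodule _ _).mpr h5)]
    by_cases hid : i = n
    · rw [hid, if_pos rfl, if_pos rfl]
    · rw [if_neg hid, if_neg]
      omega
  conv_lhs => rw [← sum_homogeneousComponent g]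
  rw [Finset.sum_mul, map_sum, Finset.sum_congr rfl (fun i _ => key i), Finset.sum_ite_eq']
  by_cases hd : n ∈ Finset.range (g.totalDegree + 1)
  · rw [if_pos hd]
  · rw [if_neg hd, homogeneousComponent_eq_zero, zero_mul]
    rw [Finset.mem_range] at hd
    omega

theorem LOV_hc0 {F : MvPolynomial (Fin b) Ω} {e : ℕ} (hF : F.IsHomogeneous e)
    (g : MvPolynomial (Fin b) Ω) (n : ℕ) (hn : n < e) :
    homogeneousComponent n (g * F) = 0 := by
  conv_lhs => rw [← sum_homogeneousComponent g]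
  rw [Finset.sum_mul, map_sum]
  refine Finset.sum_eq_zero (fun i _ => ?_)
  have h5 := (homogeneousComponent_isHomogeneous i g).mul hF
  rw [homogeneousComponent_of_mem ((mem_homogeneousSubmodule _ _).mpr h5), if_neg]
  omega

/-- both cases -/
theorem LOV_hc1 {F : MvPolynomial (Fin b) Ω} {e : ℕ} (hF : F.IsHomogeneous e)
    (g : MvPolynomial (Fin b) Ω) (n : ℕ) :
    ∃ g₁ : MvPolynomial (Fin b) Ω, homogeneousComponent n (g * F) = g₁ * F ∧
      ∀ s : ℕ, ∀ X' : MvPolynomial (Fin b) Ω, X'.IsHomogeneous s →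
        (g₁ * X').IsHomogeneous (n + s - e) := by
  by_cases hn : e ≤ n
  · obtain ⟨j, rfl⟩ := Nat.exists_eq_add_of_le' hn
    refine ⟨homogeneousComponent j g, LOV_hc hF g j, fun s X' hX' => ?_⟩
    have h1 := (homogeneousComponent_isHomogeneous j g).mul hX'
    have e1 : j + e + s - e = j + s := by omega
    rw [e1]
    exact h1
  · refine ⟨0, ?_, fun s X' _ => ?_⟩
    · rw [LOV_hc0 hF g n (by omega), zero_mul]
    · rw [zero_mul]
      exact isHomogeneous_zero _ _ _

theorem LOV_hmg {p : Ideal (MvPolynomial (Fin (b + 1)) Ω)} (hp : Hmg p)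
    {F : MvPolynomial (Fin (b + 1)) Ω} {e : ℕ} (hF : F.IsHomogeneous e) :
    Hmg (p ⊔ Ideal.span {F}) := by
  intro f hf n
  obtain ⟨g, hg⟩ := HTC_mem.mp hf
  obtain ⟨g₁, h1, -⟩ := LOV_hc1 hF g n
  refine HTC_mem.mpr ⟨g₁, ?_⟩
  rw [← h1, ← map_sub]
  exact hp _ hg n

theorem LOV_sum {A : Type} [CommRing A] {I q : Ideal A} (hq : q.IsPrime) (a : ℕ → A)
    (s : Finset ℕ) (h : ∀ i ∈ s, ∃ h ∉ q, h * a i ∈ I) :
    ∃ h ∉ q, h * ∑ i ∈ s, a i ∈ I := by
  induction s using Finset.induction_on with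
  | empty =>
    refine ⟨1, fun h1 => hq.ne_top ((Ideal.eq_top_iff_one _).mpr h1), ?_⟩
    rw [Finset.sum_empty, mul_zero]
    exact I.zero_mem
  | insert i s his ih =>
    obtain ⟨h1, hh1, e1⟩ := h i (Finset.mem_insert_self _ _)
    obtain ⟨h2, hh2, e2⟩ := ih (fun j hj => h j (Finset.mem_insert_of_mem hj))
    refine ⟨h1 * h2, fun hc => (hq.mem_or_mem hc).elim hh1 hh2, ?_⟩
    rw [Finset.sum_insert his]
    have e : h1 * h2 * (a i + ∑ j ∈ s, a j) = h2 * (h1 * a i) + h1 * (h2 * ∑ j ∈ s, a j) := by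
      ring
    rw [e]
    exact I.add_mem (I.mul_mem_left _ e1) (I.mul_mem_left _ e2)

end

theorem p_LOV : Stmt_VRG → Stmt_VPR → Stmt_QNM → Stmt_HTC → Stmt_HMP → Stmt_ORL → Stmt_LOV := by
  intro hVRG hVPR hQNM hHTC hHMP hORL Ω _ _ b t E e a k ε hε he ha hea p F hF hp hhom hind hLow
  have hE : 1 ≤ E := by
    rw [← hea]
    exact Nat.mul_pos he ha
  obtain ⟨-, h3, h4, h5, -⟩ := hVRG.2 Ω b t E ε hε hE
  obtain ⟨L, hLd⟩ : ∃ L : MvPolynomial (Fin (t + 1)) Ω, L = lf fun c => coeff (ε c) (F ^ a) :=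
    ⟨_, rfl⟩
  have hL : vr ε L = F ^ a := by
    rw [hLd]
    refine h3 _ ?_
    have h6 := hF.pow a
    rw [hea] at h6
    exact h6
  rw [← hLd]
  intro q' hq'
  obtain ⟨q, hq, hqq⟩ := hVPR Ω b t E a ε hε hE ha p F L hL q' hq'
  have hqp : q.IsPrime := hq.1.1
  have hqle : p ⊔ Ideal.span {F} ≤ q := hq.1.2
  have hpq : p ≤ q := le_sup_left.trans hqle
  have hFq : F ∈ q := hqle (Ideal.mem_sup_right (Ideal.mem_span_singleton_self F))
  have hqhom : Hmg q := hHMP Ω b _ (LOV_hmg hhom hF) q hq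
  have hFp : F ∉ p := Low_notMem hp hLow
  obtain ⟨t0, ht0, l1, l2⟩ := hLow q hq
  obtain ⟨i, s, hsi, hsq, hsp, m1, m2⟩ :=
    hHTC Ω b k p q F t0 hp hqp hqhom hpq hFq hFp ht0 l1 l2
  obtain ⟨β, hβ⟩ := hQNM Ω b e p F hp hhom hind he hF q hq
  have hq'p : q'.IsPrime := hq'.1.1
  have hq'hom : Hmg q' := by
    rw [← hqq]
    exact VPT_hmg ε hE h4 hqhom
  have hmemq : ∀ f, f ∈ q' ↔ vr ε f ∈ q := by
    intro f
    rw [← hqq]
    rfl
  have hmemp : ∀ f, f ∈ p.comap (vr ε) ↔ vr ε f ∈ p := fun f => Iff.rfl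
  have hXh : ∀ u : ℕ, ((X β : MvPolynomial (Fin (b + 1)) Ω) ^ u).IsHomogeneous u := by
    intro u
    have h6 := (isHomogeneous_X Ω β).pow u
    rw [one_mul] at h6
    exact h6
  have hXq : ∀ u : ℕ, (X β : MvPolynomial (Fin (b + 1)) Ω) ^ u ∉ q :=
    fun u hc => hβ (hqp.mem_of_pow_mem u hc)
  obtain ⟨G, hG⟩ : ∃ G : MvPolynomial (Fin (b + 1)) Ω, G = X β ^ (i * (E - 1)) := ⟨_, rfl⟩
  have hEs : E = (E - 1) + 1 := by omega
  obtain ⟨E1, hE1⟩ : ∃ E1, E1 = E - 1 := ⟨_, rfl⟩
  rw [← hE1] at hG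
  have hEE : E = E1 + 1 := by omega
  have hsG : (s * G).IsHomogeneous (i * E) := by
    have h6 := hsi.mul (hXh (i * E1))
    rw [← hG] at h6
    have e6 : i + i * E1 = i * E := by
      rw [hEE]
      ring
    rw [e6] at h6
    exact h6
  obtain ⟨s', hs'i, hs'⟩ := h5 i (s * G) hsG
  refine ⟨s', (hmemq s').mpr (by rw [hs']; exact q.mul_mem_right _ hsq), ?_, ?_⟩
  · -- first property
    have hhomcase : ∀ (d : ℕ) (f' : MvPolynomial (Fin (t + 1)) Ω), f'.IsHomogeneous d → f' ∈ q' →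
        ∃ h' ∉ q', h' * f' ∈ p.comap (vr ε) ⊔ Ideal.span {s'} := by
      intro d f' hf'd hf'
      have hfq := (hmemq f').mp hf'
      have hfd := h4 d f' hf'd
      obtain ⟨h, hh, e1⟩ := m1 _ hfq
      obtain ⟨g, hg⟩ := HTC_mem.mp e1
      have hl : ∃ l, homogeneousComponent l h ∉ q := by
        by_contra hcon
        push Not at hcon
        apply hh
        rw [← sum_homogeneousComponent h]
        exact q.sum_mem (fun j _ => hcon j)
      obtain ⟨l, hl⟩ := hl
      obtain ⟨g₁, hg₁, hg₁h⟩ := LOV_hc1 hsi g (l + d * E)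
      have hcomp := hhom _ hg (l + d * E)
      rw [map_sub, LOV_hc hfd h l, hg₁] at hcomp
      -- the two preimages
      have hdeg1 : (homogeneousComponent l h * G * X β ^ (l * E1 + i)).IsHomogeneous
          ((l + i) * E) := by
        have h6 := ((homogeneousComponent_isHomogeneous l h).mul (hXh (i * E1))).mul
          (hXh (l * E1 + i))
        rw [← hG] at h6
        have e6 : l + i * E1 + (l * E1 + i) = (l + i) * E := by
          rw [hEE]
          ring
        rw [e6] at h6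
        exact h6
      have hdeg2 : (g₁ * X β ^ (l * E1 + i)).IsHomogeneous ((l + d) * E) := by
        have h6 := hg₁h (l * E1 + i) _ (hXh (l * E1 + i))
        have e6 : l + d * E + (l * E1 + i) - i = (l + d) * E := by
          have e7 : l + d * E + (l * E1 + i) = (l + d) * E + i := by
            rw [hEE]
            ring
          rw [e7, Nat.add_sub_cancel]
        rw [e6] at h6
        exact h6
      obtain ⟨h', -, hh'⟩ := h5 _ _ hdeg1
      obtain ⟨g', -, hg'⟩ := h5 _ _ hdeg2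
      refine ⟨h', ?_, HTC_mem.mpr ⟨g', ?_⟩⟩
      · rw [hmemq, hh']
        intro hc
        rcases hqp.mem_or_mem hc with hc | hc
        · rcases hqp.mem_or_mem hc with hc | hc
          · exact hl hc
          · rw [hG] at hc
            exact hXq _ hc
        · exact hXq _ hc
      · rw [hmemp, map_sub, map_mul, map_mul, hh', hg', hs']
        have e2 : homogeneousComponent l h * G * X β ^ (l * E1 + i) * vr ε f' -
            g₁ * X β ^ (l * E1 + i) * (s * G) =
            G * X β ^ (l * E1 + i) * (homogeneousComponent l h * vr ε f' - g₁ * s) := by ring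
        rw [e2]
        exact p.mul_mem_left _ hcomp
    intro f' hf'
    have h7 := LOV_sum (I := p.comap (vr ε) ⊔ Ideal.span {s'}) hq'p
      (fun d => homogeneousComponent d f') (Finset.range (f'.totalDegree + 1))
      (fun d _ => hhomcase d _ (homogeneousComponent_isHomogeneous d f') (hq'hom f' hf' d))
    rw [sum_homogeneousComponent] at h7
    exact h7
  · -- second property
    intro h' hh' hc
    obtain ⟨r', hr'⟩ := HTC_mem.mp hc
    have hhq : vr ε h' ∉ q := fun hc => hh' ((hmemq h').mpr hc)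
    rw [hmemp, map_sub, map_mul, map_mul, map_pow, hL, hs'] at hr'
    obtain ⟨n, u0, h₀, hu0, hh₀, horl⟩ :=
      hORL Ω (Fin (b + 1)) p q s hp hqp hpq hsq hsp m1 F hFp
    have hnk : n < k := by
      by_contra hnk
      push Not at hnk
      apply m2 h₀ hh₀
      refine HTC_mem.mpr ⟨s ^ (n - k) * u0, ?_⟩
      have e3 : s ^ (n - k) * u0 * s ^ k = s ^ n * u0 := by
        have e4 : s ^ n = s ^ (n - k) * s ^ k := by
          rw [← pow_add]
          congr 1
          omega
        rw [e4]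
        ring
      rw [e3]
      exact horl
    obtain ⟨j, hj⟩ := Nat.exists_eq_add_of_lt hnk
    have h8 : (h₀ * F) ^ a - (s ^ n * u0) ^ a ∈ p := p.mem_of_dvd (sub_dvd_pow_sub_pow _ _ a) horl
    have h9 : s ^ (n * a) * (vr ε h' * u0 ^ a -
        h₀ ^ a * vr ε r' * G ^ (k * a) * s ^ ((j + 1) * a)) ∈ p := by
      have e5 : s ^ (n * a) * (vr ε h' * u0 ^ a -
          h₀ ^ a * vr ε r' * G ^ (k * a) * s ^ ((j + 1) * a)) =
          h₀ ^ a * (vr ε h' * F ^ a - vr ε r' * (s * G) ^ (k * a)) -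
            vr ε h' * ((h₀ * F) ^ a - (s ^ n * u0) ^ a) := by
        have e6 : (s * G) ^ (k * a) = s ^ (n * a) * s ^ ((j + 1) * a) * G ^ (k * a) := by
          rw [mul_pow, ← pow_add]
          congr 2
          rw [hj]
          ring
        rw [e6, mul_pow, mul_pow, ← pow_mul]
        ring
      rw [e5]
      exact p.sub_mem (p.mul_mem_left _ hr') (p.mul_mem_left _ h8)
    rcases hp.mem_or_mem h9 with h10 | h10
    · exact hsp (hp.mem_of_pow_mem _ h10)
    · have h11 : vr ε h' * u0 ^ a ∈ q := by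
        have e7 : vr ε h' * u0 ^ a = (vr ε h' * u0 ^ a -
            h₀ ^ a * vr ε r' * G ^ (k * a) * s ^ ((j + 1) * a)) +
            h₀ ^ a * vr ε r' * G ^ (k * a) * s ^ ((j + 1) * a) := by ring
        rw [e7]
        refine q.add_mem (hpq h10) (q.mul_mem_left _ ?_)
        exact q.pow_mem_of_mem hsq _ (Nat.mul_pos (Nat.succ_pos j) ha)
      rcases hqp.mem_or_mem h11 with h12 | h12
      · exact hhq h12
      · exact hu0 (hqp.mem_of_pow_mem _ h12)

end Pool.MPY
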