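import Pool.Agent.Work.MP_f82ddf_Y.Interface2

set_option autoImplicit false

/-! # THEOREM T (MP_f82ddf_nt), block LOX (helper58) -/

open Pool.Agent.Work.MP_f82ddf_nt.DQ

namespace Pool.MPY

open MvPolynomial
open Pool.MPL (RX NC aq ae NPr Spn inc f0 fR gR)

theorem p_LOX : Stmt_MDL → Stmt_PEX → Stmt_LOX := by
  intro hMDL hPEX Ω _ _ τ m k p l hp hLow 𝔮 h𝔮
  have hsup : ∀ a : MvPolynomial (Fin (m + 1)) Ω,
      p.map (map τ) ⊔ Ideal.span {map τ a} = (p ⊔ Ideal.span {a}).map (map τ) := by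
    intro a
    rw [Ideal.map_sup, Ideal.map_span, Set.image_singleton]
  rw [hsup l] at h𝔮
  have hq1 : 𝔮.IsPrime := h𝔮.1.1
  have hq2 : (p ⊔ Ideal.span {l}).map (map τ) ≤ 𝔮 := h𝔮.1.2
  have hq3 : p ⊔ Ideal.span {l} ≤ 𝔮.comap (map τ) := Ideal.map_le_iff_le_comap.mp hq2
  have hq4 : (𝔮.comap (map τ)).IsPrime := Ideal.comap_isPrime _ _
  obtain ⟨q₀, hq₀, hle⟩ := Ideal.exists_minimalPrimes_le hq3
  have hq5 : q₀.IsPrime := hq₀.1.1
  obtain ⟨hq6, hq7⟩ := hPEX Ω (Fin (m + 1)) τ q₀ hq5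
  have hq8 : 𝔮 = q₀.map (map τ) := by
    refine le_antisymm ?_ (Ideal.map_le_iff_le_comap.mpr hle)
    exact h𝔮.2 ⟨hq6, Ideal.map_mono hq₀.1.2⟩ (Ideal.map_le_iff_le_comap.mpr hle)
  obtain ⟨t, ht, h1, h2⟩ := hLow q₀ hq₀
  rw [hq8]
  refine ⟨map τ t, Ideal.mem_map_of_mem _ ht, ?_, ?_⟩
  · intro f hf
    have key : ∃ h ∉ q₀, map τ h * f ∈ p.map (map τ) ⊔ Ideal.span {map τ t} := by
      have hf' : f ∈ Submodule.span (MvPolynomial (Fin (m + 1)) ℂ)
          ((map τ : MvPolynomial (Fin (m + 1)) Ω →+* MvPolynomial (Fin (m + 1)) ℂ) '' (q₀ : Set _)) :=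
        hf
      induction hf' using Submodule.span_induction with
      | mem x hx =>
        obtain ⟨f0, hf0, rfl⟩ := hx
        obtain ⟨h, hh, hhf⟩ := h1 f0 hf0
        refine ⟨h, hh, ?_⟩
        rw [hsup t, ← map_mul]
        exact Ideal.mem_map_of_mem _ hhf
      | zero =>
        refine ⟨1, fun h => hq5.ne_top ((Ideal.eq_top_iff_one _).mpr h), ?_⟩
        rw [mul_zero]
        exact Ideal.zero_mem _
      | add x y hx hy ihx ihy =>
        obtain ⟨a, ha, hax⟩ := ihx hx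
        obtain ⟨b, hb, hby⟩ := ihy hy
        refine ⟨a * b, fun h => (hq5.mem_or_mem h).elim ha hb, ?_⟩
        have e : map τ (a * b) * (x + y) = map τ b * (map τ a * x) + map τ a * (map τ b * y) := by
          rw [map_mul]
          ring
        rw [e]
        exact Ideal.add_mem _ (Ideal.mul_mem_left _ _ hax) (Ideal.mul_mem_left _ _ hby)
      | smul a x hx ihx =>
        obtain ⟨b, hb, hbx⟩ := ihx hx
        refine ⟨b, hb, ?_⟩
        have e : map τ b * (a • x) = a * (map τ b * x) := by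
          rw [smul_eq_mul]
          ring
        rw [e]
        exact Ideal.mul_mem_left _ _ hbx
    obtain ⟨h, hh, hhf⟩ := key
    exact ⟨map τ h, fun hc => hh (hq7 h hc), hhf⟩
  · intro h hh hc
    apply hh
    obtain ⟨n, b, g, hg, hI⟩ := hMDL Ω (Fin (m + 1)) τ h
    rw [← map_pow, hsup (t ^ k)] at hc
    have h3 := hI _ l hc
    have h4 : ∀ i, g i ∈ q₀ := by
      intro i
      by_contra hgi
      exact h2 (g i) hgi (h3 i)
    rw [hg]
    exact Ideal.sum_mem _ (fun i _ => Ideal.mul_mem_left _ _ (Ideal.mem_map_of_mem _ (h4 i)))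

end Pool.MPY
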