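import Pool.Agent.Work.MP_f82ddf_Y.Interface3

set_option autoImplicit false

/-! # THEOREM T, part 3: block LPN (`Low` on projective space) -/

open Pool.Agent.Work.MP_f82ddf_nt.DQ

namespace Pool.MPY

open MvPolynomial

theorem p_LPN : Stmt_LPN := by
  intro Ω _ n k F hF hP q hq
  rw [bot_sup_eq] at hq
  have hqp : q.IsPrime := hq.1.1
  have hFq : F ∈ q := hq.1.2 (Ideal.mem_span_singleton_self F)
  obtain ⟨s, hs, hsF⟩ := UniqueFactorizationMonoid.exists_prime_factors F hF
  have h1 : s.prod ∈ q := by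
    obtain ⟨c, hc⟩ := hsF.symm.dvd
    rw [hc]
    exact Ideal.mul_mem_right _ _ hFq
  obtain ⟨P, hPs, hPq⟩ := (hqp.multiset_prod_mem_iff_exists_mem s).1 h1
  have hPp : Prime P := hs P hPs
  have hPF : P ∣ F := (Multiset.dvd_prod hPs).trans hsF.dvd
  have hqP : q = Ideal.span {P} := by
    refine le_antisymm ?_ ((Ideal.span_singleton_le_iff_mem q).2 hPq)
    refine hq.2 ⟨(Ideal.span_singleton_prime hPp.ne_zero).2 hPp, ?_⟩
      ((Ideal.span_singleton_le_iff_mem q).2 hPq)
    exact Ideal.span_singleton_le_span_singleton.2 hPF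
  refine ⟨P, hPq, fun f hf => ⟨1, fun h => hqp.ne_top ((Ideal.eq_top_iff_one q).2 h), ?_⟩,
    fun h hh hc => ?_⟩
  · rw [one_mul, bot_sup_eq, ← hqP]
    exact hf
  · rw [bot_sup_eq, Ideal.mem_span_singleton] at hc
    have h2 : ¬ P ∣ h := fun h3 => hh (by
      rw [hqP]
      exact Ideal.mem_span_singleton.2 h3)
    exact hP P hPp.irreducible (hPp.pow_dvd_of_dvd_mul_left k h2 hc)

end Pool.MPY
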