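import Pool.Agent.Work.MP_f82ddf_Y.Interface2

set_option autoImplicit false

/-! # THEOREM T (MP_f82ddf_nt), block MDL: coefficientwise functionals -/

namespace Pool.MPY

open MvPolynomial

/-- coefficientwise application of an additive map -/
noncomputable def MDL_th {R S σ : Type} [CommRing R] [CommRing S] (ϑ : R →+ S)
    (F : MvPolynomial σ R) : MvPolynomial σ S :=
  ∑ m ∈ F.support, monomial m (ϑ (coeff m F))

theorem MDL_coeff {R S σ : Type} [CommRing R] [CommRing S] (ϑ : R →+ S)
    (F : MvPolynomial σ R) (m : σ →₀ ℕ) : coeff m (MDL_th ϑ F) = ϑ (coeff m F) := by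
  classical
  rw [MDL_th, coeff_sum]
  simp only [coeff_monomial]
  rw [Finset.sum_ite_eq' F.support m (fun m => ϑ (coeff m F))]
  split_ifs with h
  · rfl
  · rw [notMem_support_iff.1 h, map_zero]

theorem MDL_zero {R S σ : Type} [CommRing R] [CommRing S] (ϑ : R →+ S) :
    MDL_th ϑ (0 : MvPolynomial σ R) = 0 := by
  ext m
  rw [MDL_coeff, coeff_zero, coeff_zero, map_zero]

theorem MDL_add {R S σ : Type} [CommRing R] [CommRing S] (ϑ : R →+ S)
    (F G : MvPolynomial σ R) : MDL_th ϑ (F + G) = MDL_th ϑ F + MDL_th ϑ G := by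
  ext m
  rw [MDL_coeff, coeff_add, coeff_add, MDL_coeff, MDL_coeff, map_add]

theorem MDL_mul {R S σ : Type} [CommRing R] [CommRing S] (τ : S →+* R) (ϑ : R →+ S)
    (hϑ : ∀ (x : R) (c : S), ϑ (x * τ c) = ϑ x * c) (F : MvPolynomial σ R)
    (G : MvPolynomial σ S) : MDL_th ϑ (F * map τ G) = MDL_th ϑ F * G := by
  classical
  ext m
  rw [MDL_coeff, coeff_mul, coeff_mul, map_sum]
  refine Finset.sum_congr rfl fun p _ => ?_
  rw [coeff_map, hϑ, MDL_coeff]

theorem MDL_ideal {R S σ : Type} [CommRing R] [CommRing S] (τ : S →+* R) (ϑ : R →+ S)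
    (hϑ : ∀ (x : R) (c : S), ϑ (x * τ c) = ϑ x * c) (I : Ideal (MvPolynomial σ S))
    (F : MvPolynomial σ R) (hF : F ∈ I.map (map τ)) : MDL_th ϑ F ∈ I := by
  have key : ∀ H : MvPolynomial σ R, MDL_th ϑ (H * F) ∈ I := by
    have hF' : F ∈ Submodule.span (MvPolynomial σ R) (map τ '' (I : Set (MvPolynomial σ S))) := hF
    induction hF' using Submodule.span_induction with
    | mem x hx =>
      obtain ⟨G, hG, rfl⟩ := hx
      intro H
      rw [MDL_mul τ ϑ hϑ]
      exact I.mul_mem_left _ hG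
    | zero =>
      intro H
      rw [mul_zero, MDL_zero]
      exact I.zero_mem
    | add x y hx hy ihx ihy =>
      intro H
      rw [mul_add, MDL_add]
      exact I.add_mem (ihx hx H) (ihy hy H)
    | smul a x hx ih =>
      intro H
      rw [smul_eq_mul, ← mul_assoc]
      exact ih hx (H * a)
  have h1 := key 1
  rwa [one_mul] at h1

/-- MDL. -/
theorem p_MDL : Stmt_MDL := by
  classical
  intro Ω σ _ τ f
  let _ : Algebra Ω ℂ := τ.toAlgebra
  have hτ : ∀ (a : Ω) (b : ℂ), a • b = τ a * b := fun a b => rfl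
  let b := Module.Basis.ofVectorSpace Ω ℂ
  let S : Finset (Module.Basis.ofVectorSpaceIndex Ω ℂ) :=
    f.support.biUnion fun m => (b.repr (coeff m f)).support
  let e : S ≃ Fin S.card := S.equivFin
  have hco : ∀ m, coeff m f = ∑ μ ∈ S, b μ * τ (b.coord μ (coeff m f)) := by
    intro m
    by_cases hm : m ∈ f.support
    · conv_lhs => rw [← b.linearCombination_repr (coeff m f)]
      rw [Finsupp.linearCombination_apply, Finsupp.sum_of_support_subset (s := S)]
      · refine Finset.sum_congr rfl fun μ _ => ?_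
        rw [hτ, mul_comm]
        rfl
      · intro μ hμ
        exact Finset.mem_biUnion.2 ⟨m, hm, hμ⟩
      · intro μ _
        rw [zero_smul]
    · rw [notMem_support_iff.1 hm]
      symm
      refine Finset.sum_eq_zero fun μ _ => ?_
      rw [map_zero, map_zero, mul_zero]
  have hϑ : ∀ (μ : Module.Basis.ofVectorSpaceIndex Ω ℂ) (x : ℂ) (c : Ω),
      (b.coord μ).toAddMonoidHom (x * τ c) = (b.coord μ).toAddMonoidHom x * c := by
    intro μ x c
    show b.coord μ (x * τ c) = b.coord μ x * c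
    rw [mul_comm x, ← hτ, map_smul, smul_eq_mul, mul_comm]
  refine ⟨S.card, fun i => b (e.symm i), fun i => MDL_th (b.coord (e.symm i)).toAddMonoidHom f,
    ?_, ?_⟩
  · ext m
    rw [coeff_sum]
    have h1 : ∀ i : Fin S.card, coeff m (C (b (e.symm i)) *
        map τ (MDL_th (b.coord (e.symm i)).toAddMonoidHom f)) =
        b (e.symm i) * τ (b.coord (e.symm i) (coeff m f)) := by
      intro i
      rw [coeff_C_mul, coeff_map, MDL_coeff]
      rfl
    rw [Finset.sum_congr rfl fun i _ => h1 i,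
      Equiv.sum_comp e.symm (fun μ : S => b (μ : Module.Basis.ofVectorSpaceIndex Ω ℂ) *
        τ (b.coord (μ : Module.Basis.ofVectorSpaceIndex Ω ℂ) (coeff m f))),
      Finset.sum_coe_sort S (fun μ => b μ * τ (b.coord μ (coeff m f)))]
    exact hco m
  · intro I a ha i
    rw [← MDL_mul τ (b.coord (e.symm i)).toAddMonoidHom (hϑ (e.symm i)) f a]
    exact MDL_ideal τ _ (hϑ (e.symm i)) I _ ha

end Pool.MPY
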