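import Pool.Agent.Work.MP_f82ddf_Y.Interface3

set_option autoImplicit false

/-! # THEOREM T, part 3: block MPF (the point `g(x)` lies on the target and keeps the multiplicities) -/

open Pool.Agent.Work.MP_f82ddf_nt.DQ

namespace Pool.MPY

open MvPolynomial
open Pool.ThmP (Mor OnX OnK tm)

theorem p_MPF (hNUL : Pool.ThmP.Stmt_NUL) (hOFF : Pool.MPH.Stmt_OFF) : Stmt_MPF := by
  intro K Ω _ _ _ _ m n N S g k e p₀ F hS hInto hF hful τ x hx s hs hc
  refine ⟨fun f hf => ?_,
    fun j => hOFF K Ω m n (k j) S g hS τ x hx s hs hc (e j) (F j) (hF j) (hful j)⟩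
  have h1 := hNUL K Ω Mer m S ∅ (bind₁ s f) (by
    intro v hv _
    have h2 : eval v (bind₁ s f) = eval (fun c => eval v (s c)) f :=
      eval₂Hom_bind₁ (RingHom.id Ω) v s f
    rw [h2]
    exact hInto v hv s hs f hf) (tm τ) x hx (fun H hH => absurd hH (Set.notMem_empty H))
  have h3 : eval₂ (tm τ) x (bind₁ s f) = eval₂ (tm τ) (fun c => eval₂ (tm τ) x (s c)) f :=
    eval₂Hom_bind₁ (tm τ) x s f
  rw [← h3]
  exact h1

end Pool.MPY
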