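import Pool.Agent.Work.MP_f82ddf_Y.Interface2

set_option autoImplicit false

/-! # THEOREM T, block MPI: minimal primes of an intersection of primes -/

namespace Pool.MPY

theorem p_MPI : Stmt_MPI := by
  intro R _ _ Θ hΘ 𝔮 h𝔮
  by_contra hcon
  push Not at hcon
  have hfin := Ideal.finite_minimalPrimes_of_isNoetherianRing R (sInf Θ)
  have hq : 𝔮.IsPrime := h𝔮.1.1
  have h1 : (hfin.toFinset.erase 𝔮).inf id ≤ sInf Θ := by
    refine le_sInf fun I hI => ?_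
    have := hΘ I hI
    obtain ⟨p, hp, hpI⟩ := Ideal.exists_minimalPrimes_le (J := I) (sInf_le hI)
    have hne : p ≠ 𝔮 := fun h => hcon I hI (h ▸ hpI)
    exact (Finset.inf_le (f := id)
      (Finset.mem_erase.2 ⟨hne, hfin.mem_toFinset.2 hp⟩)).trans hpI
  have h2 : (hfin.toFinset.erase 𝔮).inf id ≤ 𝔮 := h1.trans h𝔮.1.2
  obtain ⟨p, hp, hpq⟩ := (Ideal.IsPrime.inf_le' hq).1 h2
  have hp' := Finset.mem_erase.1 hp
  have hp2 := hfin.mem_toFinset.1 hp'.2
  exact hp'.1 (le_antisymm hpq (h𝔮.2 ⟨hp2.1.1, hp2.1.2⟩ hpq))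

end Pool.MPY
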