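import Pool.Agent.Work.MP_f82ddf_Y.Interface

/-!
# Block MRL: a minimal relation
-/

open Pool.Agent.Work.MP_f82ddf_nt.DQ

namespace Pool.MPY

open MvPolynomial

theorem MRL_der {R : Type} [CommRing R] (n : ℕ) (H : MvPolynomial (Fin (n + 1)) R) :
    finSuccEquiv R n (pderiv 0 H) = Polynomial.derivative (finSuccEquiv R n H) := by
  induction H using MvPolynomial.induction_on with
  | C a => simp [finSuccEquiv_apply]
  | add p q hp hq => simp [hp, hq]
  | mul_X p i hp =>
    rw [pderiv_mul, map_add, map_mul, map_mul, map_mul, hp, Polynomial.derivative_mul]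
    refine Fin.cases ?_ (fun j => ?_) i
    · simp [finSuccEquiv_X_zero]
    · simp [finSuccEquiv_X_succ, pderiv_X_of_ne (Fin.succ_ne_zero j)]

theorem MRL_ren {R : Type} [CommRing R] (n : ℕ) (H : MvPolynomial (Fin n) R) :
    finSuccEquiv R n (rename Fin.succ H) = Polynomial.C H := by
  induction H using MvPolynomial.induction_on with
  | C a => simp [finSuccEquiv_apply]
  | add p q hp hq => simp [hp, hq]
  | mul_X p i hp => simp [hp, finSuccEquiv_X_succ]

theorem p_MRL : Stmt_MRL := by
  intro Ω σ _ _ β q y f hy hn
  have key : ∀ n : ℕ, ∀ H : MvPolynomial (Fin (β + 1)) Ω, (finSuccEquiv Ω β H).natDegree = n →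
      H ≠ 0 → aeval (Fin.cons f y : Fin (β + 1) → MvPolynomial σ Ω) H ∈ q →
      ∃ H : MvPolynomial (Fin (β + 1)) Ω,
        aeval (Fin.cons f y : Fin (β + 1) → MvPolynomial σ Ω) H ∈ q ∧
        aeval (Fin.cons f y : Fin (β + 1) → MvPolynomial σ Ω) (pderiv 0 H) ∉ q := by
    intro n
    induction n using Nat.strong_induction_on with
    | _ n ih =>
      intro H hH h0 hq
      by_cases hd : aeval (Fin.cons f y : Fin (β + 1) → MvPolynomial σ Ω) (pderiv 0 H) ∈ q
      · by_cases hn0 : n = 0
        · exfalso
          rw [hn0] at hH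
          have h1 := Polynomial.eq_C_of_natDegree_eq_zero hH
          have h2 : H = rename Fin.succ ((finSuccEquiv Ω β H).coeff 0) :=
            (finSuccEquiv Ω β).injective (by rw [MRL_ren]; exact h1)
          have h3 : (Fin.cons f y : Fin (β + 1) → MvPolynomial σ Ω) ∘ Fin.succ = y := by
            funext i
            simp
          rw [h2, aeval_rename, h3] at hq
          have := hy _ hq
          exact h0 (by rw [h2, this, map_zero])
        · refine ih _ ?_ (pderiv 0 H) rfl ?_ hd
          · rw [MRL_der, ← hH]
            exact Polynomial.natDegree_derivative_lt (by omega)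
          · intro h4
            have h5 : Polynomial.derivative (finSuccEquiv Ω β H) = 0 := by
              rw [← MRL_der, h4, map_zero]
            exact hn0 (hH ▸ Polynomial.derivative_eq_zero.1 h5)
      · exact ⟨H, hq, hd⟩
  unfold IndMod at hn
  push Not at hn
  obtain ⟨H, hH, h0⟩ := hn
  exact key _ H rfl h0 hH

end Pool.MPY
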