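import Pool.Agent.Work.MP_f82ddf_Y.Interface2

set_option autoImplicit false

/-! # THEOREM T (MP_f82ddf_nt), block NCF (helper75): finite morphisms and nonconstant points -/

open Pool.Agent.Work.MP_f82ddf_nt.DQ

namespace Pool.MPY

open MvPolynomial
open Pool.ThmP (Mor OnX OnK tm)
open Pool.MPL (NC)

theorem p_NCF (hFIB : Pool.ThmP.Stmt_FIB) (hCST : Pool.ThmM0.Stmt_CST) : Stmt_NCF := by
  intro K Ω _ _ _ _ m n S g hS hg τ x hx hnc s hs hs0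
  obtain ⟨i₀, i, hi₀, hi⟩ := hnc
  obtain ⟨c₀, hc₀⟩ := hs0
  have hNC : ∃ j, ∀ z : ℂ, eval₂ (tm τ) x (s j) ≠ algebraMap ℂ Mer z * eval₂ (tm τ) x (s c₀) := by
    by_contra hcon
    push Not at hcon
    have h1 := hFIB K Ω m n S g hS hg τ x hx s hs c₀ hc₀ i i₀ hi₀
    obtain ⟨z, hz⟩ := hCST n (fun c => eval₂ (tm τ) x (s c)) c₀ hc₀ hcon _ h1
    exact hi z ((div_eq_iff hi₀).1 hz)
  obtain ⟨j₁, hj₁⟩ := hNC
  exact ⟨c₀, j₁, hc₀, hj₁⟩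

end Pool.MPY
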