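import Pool.Agent.Work.MP_f82ddf_Y.Interface

set_option autoImplicit false

/-! # THEOREM T (MP_f82ddf_nt), block NDK: no moving factor of multiplicity `k` at the generic point
(helper41) -/

open Pool.Agent.Work.MP_f82ddf_nt.DQ

namespace Pool.MPY

open MvPolynomial
open Pool.Agent.Work.MP_f82ddf_M5 (lineAt resAt chow at2 comb Data)
open Pool.ThmM (NonProp HypData LastMonic)
open Pool.MPL (RX NC aq ae NPr Spn inc f0 fR gR)
open Pool.MPW (pv OrdGE)

theorem NDK_lf {F : Type} [Field F] [Algebra ℂ F] {m : ℕ} (a : Fin (m + 1) → ℂ)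
    (η : Fin (m + 1) → F) : aeval η (lf a) = ∑ i, algebraMap ℂ F (a i) * η i := by
  unfold lf
  rw [map_sum]
  refine Finset.sum_congr rfl fun i _ => ?_
  rw [map_mul, aeval_C, aeval_X]

section val

variable {F : Type} [Field F] [Algebra ℂ F] (V : ValuationSubring F)
  (h0 : ∀ a : ℂ, algebraMap ℂ F a ∈ V)

include h0

theorem NDK_mem {n : ℕ} (η : Fin n → F) (hη : ∀ j, η j ∈ V) (f : MvPolynomial (Fin n) ℂ) :
    aeval η f ∈ V := by
  induction f using MvPolynomial.induction_on with
  | C a => rw [aeval_C]; exact h0 a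
  | add f g hf hg => rw [map_add]; exact V.add_mem _ _ hf hg
  | mul_X f i hf => rw [map_mul, aeval_X]; exact V.mul_mem _ _ hf (hη i)

theorem NDK_const {c : ℂ} (hc : c ≠ 0) : V.valuation (algebraMap ℂ F c) = 1 := by
  have h1 : V.valuation (algebraMap ℂ F c) ≤ 1 := (V.valuation_le_one_iff _).mpr (h0 c)
  have h2 : V.valuation (algebraMap ℂ F c⁻¹) ≤ 1 := (V.valuation_le_one_iff _).mpr (h0 c⁻¹)
  have h3 : V.valuation (algebraMap ℂ F c) * V.valuation (algebraMap ℂ F c⁻¹) = 1 := by
    rw [← map_mul, ← map_mul, mul_inv_cancel₀ hc, map_one, map_one]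
  apply le_antisymm h1
  calc (1 : V.ValueGroup) = V.valuation (algebraMap ℂ F c) * V.valuation (algebraMap ℂ F c⁻¹) :=
        h3.symm
    _ ≤ V.valuation (algebraMap ℂ F c) * 1 := mul_le_mul_right h2 _
    _ = V.valuation (algebraMap ℂ F c) := mul_one _

theorem NDK_near {n : ℕ} (v : Fin n → F) (v₀ : Fin n → ℂ)
    (hv : ∀ j, v j - algebraMap ℂ F (v₀ j) ∈ V.nonunits) (H : MvPolynomial (Fin n) ℂ) :
    V.valuation (aeval v H - algebraMap ℂ F (eval v₀ H)) < 1 := by
  have hvV : ∀ j, v j ∈ V := by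
    intro j
    have h1 : v j - algebraMap ℂ F (v₀ j) ∈ V :=
      (V.valuation_le_one_iff _).mp (le_of_lt (V.mem_nonunits_iff.mp (hv j)))
    have h2 := V.add_mem _ _ h1 (h0 (v₀ j))
    rwa [sub_add_cancel] at h2
  induction H using MvPolynomial.induction_on with
  | C a =>
    rw [aeval_C, eval_C, sub_self, map_zero]
    exact zero_lt_one
  | add f g hf hg =>
    have h1 : aeval v (f + g) - algebraMap ℂ F (eval v₀ (f + g)) =
        (aeval v f - algebraMap ℂ F (eval v₀ f)) + (aeval v g - algebraMap ℂ F (eval v₀ g)) := by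
      rw [map_add, map_add, map_add]
      ring
    rw [h1]
    exact V.valuation.map_add_lt hf hg
  | mul_X f i hf =>
    have h1 : aeval v (f * X i) - algebraMap ℂ F (eval v₀ (f * X i)) =
        (aeval v f - algebraMap ℂ F (eval v₀ f)) * v i +
          algebraMap ℂ F (eval v₀ f) * (v i - algebraMap ℂ F (v₀ i)) := by
      rw [map_mul, map_mul, map_mul, aeval_X, eval_X]
      ring
    rw [h1]
    apply V.valuation.map_add_lt
    · rw [map_mul]
      exact mul_lt_one_of_lt_of_le hf ((V.valuation_le_one_iff _).mpr (hvV i))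
    · rw [map_mul]
      exact mul_lt_one_of_nonneg_of_lt_one_right ((V.valuation_le_one_iff _).mpr (h0 _))
        zero_le' (V.mem_nonunits_iff.mp (hv i))

end val

/-- the polynomials whose value at `η` is not a unit -/
def NDK_q {F : Type} [Field F] [Algebra ℂ F] (V : ValuationSubring F) {n : ℕ} (η : Fin n → F)
    (hV : ∀ f : MvPolynomial (Fin n) ℂ, aeval η f ∈ V) : Ideal (MvPolynomial (Fin n) ℂ) where
  carrier := {f | V.valuation (aeval η f) < 1}
  zero_mem' := by
    show V.valuation (aeval η (0 : MvPolynomial (Fin n) ℂ)) < 1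
    rw [map_zero, map_zero]
    exact zero_lt_one
  add_mem' := by
    intro f g hf hg
    show V.valuation (aeval η (f + g)) < 1
    rw [map_add]
    exact V.valuation.map_add_lt hf hg
  smul_mem' := by
    intro f g hg
    show V.valuation (aeval η (f * g)) < 1
    rw [map_mul, map_mul]
    exact mul_lt_one_of_nonneg_of_lt_one_right ((V.valuation_le_one_iff _).mpr (hV f)) zero_le' hg

theorem NDK_mem_q {F : Type} [Field F] [Algebra ℂ F] (V : ValuationSubring F) {n : ℕ}
    (η : Fin n → F) (hV : ∀ f : MvPolynomial (Fin n) ℂ, aeval η f ∈ V)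
    (f : MvPolynomial (Fin n) ℂ) : f ∈ NDK_q V η hV ↔ aeval η f ∈ V.nonunits := by
  rw [V.mem_nonunits_iff]
  exact Iff.rfl

theorem NDK_prime {F : Type} [Field F] [Algebra ℂ F] (V : ValuationSubring F) {n : ℕ}
    (η : Fin n → F) (hV : ∀ f : MvPolynomial (Fin n) ℂ, aeval η f ∈ V) :
    (NDK_q V η hV).IsPrime := by
  constructor
  · intro h
    have h1 : (1 : MvPolynomial (Fin n) ℂ) ∈ NDK_q V η hV := by
      rw [h]
      exact Submodule.mem_top
    have h2 : V.valuation (aeval η (1 : MvPolynomial (Fin n) ℂ)) < 1 := h1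
    rw [map_one, map_one] at h2
    exact lt_irrefl _ h2
  · intro f g hfg
    by_contra hne
    rw [not_or] at hne
    have h1 : V.valuation (aeval η f) = 1 := by
      apply le_antisymm ((V.valuation_le_one_iff _).mpr (hV f))
      by_contra h
      exact hne.1 (not_le.mp h)
    have h2 : V.valuation (aeval η g) = 1 := by
      apply le_antisymm ((V.valuation_le_one_iff _).mpr (hV g))
      by_contra h
      exact hne.2 (not_le.mp h)
    have h3 : V.valuation (aeval η (f * g)) < 1 := hfg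
    rw [map_mul, map_mul, h1, h2, one_mul] at h3
    exact lt_irrefl _ h3

/-- polynomials in algebraic elements are algebraic -/
theorem NDK_alg {F E : Type} [Field F] [Field E] [Algebra ℂ F] [Algebra ℂ E] [Algebra E F]
    [IsScalarTower ℂ E F] {n : ℕ} (η : Fin n → F) (h : ∀ j, IsAlgebraic E (η j))
    (f : MvPolynomial (Fin n) ℂ) : IsAlgebraic E (aeval η f) := by
  induction f using MvPolynomial.induction_on with
  | C a =>
    rw [aeval_C, IsScalarTower.algebraMap_apply ℂ E F]
    exact isAlgebraic_algebraMap _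
  | add f g hf hg => rw [map_add]; exact hf.add hg
  | mul_X f i hf => rw [map_mul, aeval_X]; exact hf.mul (h i)

theorem p_NDK : Stmt_GPO → Stmt_TDG → Stmt_YEX → Stmt_PL1 → Stmt_TIN → Stmt_PL2 → Stmt_CMP →
    Stmt_LCX → Stmt_NDK := by
  intro hGPO hTDG hYEX hPL1 hTIN hPL2 hCMP hLCX
  intro M _ _ w m r d k Q A v₀ L u c p η P hD hLM hp hH hη h2 hQ0 hc hA hx hk hLow hPi hPm hdvd
  -- `l ∉ p`
  have hl : lf (fun i => ∑ j, u j * L j i) ∉ p := by
    intro hl
    have h1 : p ⊔ Ideal.span {lf fun i => ∑ j, u j * L j i} = p :=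
      sup_eq_left.mpr ((Ideal.span_singleton_le_iff_mem _).mpr hl)
    have h3 : p ∈ (p ⊔ Ideal.span {lf fun i => ∑ j, u j * L j i}).minimalPrimes := by
      rw [h1, Ideal.minimalPrimes_eq_subsingleton_self]
      exact Set.mem_singleton p
    obtain ⟨t, -, -, h4⟩ := hLow p h3
    have h5 : (1 : MvPolynomial (Fin (m + 1)) ℂ) ∉ p := (Ideal.ne_top_iff_one p).mp hp.ne_top
    apply h4 1 h5
    rw [one_mul]
    exact (le_sup_left : p ≤ _) hl
  obtain ⟨F, _, _, _, v, hcomp, hgen, hvQ, ⟨ι, hι⟩, hord⟩ :=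
    hGPO M w r d k Q A hD hk _ P hx hPi hPm hdvd
  have : IsScalarTower ℂ M F := IsScalarTower.of_algebraMap_eq' hcomp
  -- the point over `F`
  let ηF : Fin (m + 1) → F := fun i => algebraMap M F (η i)
  have hae : ∀ f : MvPolynomial (Fin (m + 1)) ℂ, aeval ηF f = algebraMap M F (aeval η f) :=
    fun f => aeval_algebraMap_apply F η f
  have hηF : ∀ f : MvPolynomial (Fin (m + 1)) ℂ, aeval ηF f = 0 ↔ f ∈ p := by
    intro f
    rw [hae, map_eq_zero_iff _ (algebraMap M F).injective]
    exact hη f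
  have hηF0 : ηF ≠ 0 := by
    intro h
    apply hx
    funext j
    refine Finset.sum_eq_zero fun i _ => ?_
    have h1 : algebraMap M F (η i) = 0 := congrFun h i
    rw [map_eq_zero_iff _ (algebraMap M F).injective] at h1
    rw [h1, mul_zero]
  have hxF : (fun j => algebraMap M F (∑ i, algebraMap ℂ M (L j i) * η i)) =
      fun j => ∑ i, algebraMap ℂ F (L j i) * ηF i := by
    funext j
    rw [map_sum]
    refine Finset.sum_congr rfl fun i _ => ?_
    rw [map_mul, ← IsScalarTower.algebraMap_apply]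
  rw [hxF] at hord
  -- the relation
  have hrel : ∑ j, aeval v (A j) * ∑ i, algebraMap ℂ F (L j i) * ηF i = 0 := by
    obtain ⟨h, hh, hmem⟩ := hord
    have h1 : (RingHom.ker (eval v : MvPolynomial (Fin (w + 2)) F →+* F)) ^ k ⊔
        Ideal.span {map (algebraMap ℂ F) Q} ≤
        RingHom.ker (eval v : MvPolynomial (Fin (w + 2)) F →+* F) := by
      apply sup_le
      · exact Ideal.pow_le_self (Nat.one_le_iff_ne_zero.mp hk)
      · rw [Ideal.span_singleton_le_iff_mem, RingHom.mem_ker, eval_map]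
        exact hvQ
    have h3 := h1 hmem
    rw [RingHom.mem_ker, map_mul] at h3
    have h4 := (mul_eq_zero.mp h3).resolve_left hh
    unfold comb at h4
    rw [map_sum] at h4
    rw [← h4]
    refine Finset.sum_congr rfl fun j _ => ?_
    rw [map_mul, eval_C, eval_map, mul_comm]
    rfl
  -- the dimension
  obtain ⟨n, ⟨f, hf⟩, hdim⟩ := hTDG ℂ (Fin (m + 1)) p hp
  obtain ⟨f2, hf2⟩ := h2
  have hn : 2 ≤ n := hdim 2 f2 hf2
  obtain ⟨β, rfl⟩ : ∃ β, n = β + 1 := ⟨n - 1, by omega⟩
  obtain ⟨y, hy⟩ := hYEX ℂ m β p (fun i => ∑ j, u j * L j i) hp hH hdim hl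
  have hy' : ∀ z : Fin (m + 1) → ℂ, (∀ f ∈ p, eval z f = 0) → ∑ k, u k * ∑ i, L k i * z i = 0 →
      (∀ i, ∑ j, y i j * z j = 0) → z = 0 := by
    intro z hz1 hz2 hz3
    refine hy z hz1 ?_ hz3
    rw [← hz2]
    simp only [Finset.sum_mul, Finset.mul_sum]
    rw [Finset.sum_comm]
    refine Finset.sum_congr rfl fun k _ => Finset.sum_congr rfl fun i _ => ?_
    ring
  have hpη : ∀ f ∈ p, aeval ηF f = 0 := fun f hf => (hηF f).mpr hf
  have hal := hPL1 F w m r β Q A v v₀ L u c p y ηF hgen hQ0 hH hpη hηF0 hrel hc hA hy'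
  have htind : AlgebraicIndependent ℂ (fun i => aeval η (f i)) := by
    rw [algebraicIndependent_iff]
    intro H hH0
    apply hf H
    rw [← hη, ← hH0]
    exact comp_aeval_apply f (aeval η) H
  have hta : ∀ i, IsAlgebraic (IntermediateField.adjoin ℂ
      (Set.range v ∪ Set.range fun i => ∑ l, algebraMap ℂ F (y i l) * ηF l))
      (algebraMap M F (aeval η (f i))) := by
    intro i
    rw [← hae]
    exact NDK_alg ηF hal (f i)
  have hyind := hTIN M F w d β Q v ι (fun i => aeval η (f i))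
    (fun i => ∑ l, algebraMap ℂ F (y i l) * ηF l) hLM hvQ hι htind hta
  obtain ⟨V, hV0, hVv, hVη, hVH⟩ := hPL2 F w m r β Q A v v₀ L u c p y ηF hgen hQ0 hH hpη hηF0
    hrel hc hA hy' hyind
  have hV : ∀ f : MvPolynomial (Fin (m + 1)) ℂ, aeval ηF f ∈ V := NDK_mem V hV0 ηF hVη
  -- the prime ideal
  have hq := NDK_prime V ηF hV
  have hmq := NDK_mem_q V ηF hV
  have hpq : p ≤ NDK_q V ηF hV := by
    intro g hg
    show V.valuation (aeval ηF g) < 1
    rw [hpη g hg, map_zero]
    exact zero_lt_one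
  have hlq : lf (fun i => ∑ j, u j * L j i) ∈ NDK_q V ηF hV := by
    show V.valuation (aeval ηF (lf fun i => ∑ j, u j * L j i)) < 1
    rw [NDK_lf]
    have h1 : algebraMap ℂ F c * ∑ i, algebraMap ℂ F (∑ j, u j * L j i) * ηF i =
        ∑ j, -((aeval v (A j) - algebraMap ℂ F (eval v₀ (A j))) *
          ∑ i, algebraMap ℂ F (L j i) * ηF i) := by
      have h2 : ∀ j, -((aeval v (A j) - algebraMap ℂ F (eval v₀ (A j))) *
          ∑ i, algebraMap ℂ F (L j i) * ηF i) =
          algebraMap ℂ F (c * u j) * (∑ i, algebraMap ℂ F (L j i) * ηF i) -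
            aeval v (A j) * ∑ i, algebraMap ℂ F (L j i) * ηF i := by
        intro j
        rw [hA j]
        ring
      rw [Finset.sum_congr rfl fun j _ => h2 j, Finset.sum_sub_distrib, hrel, sub_zero]
      simp only [map_sum, map_mul, Finset.mul_sum, Finset.sum_mul]
      rw [Finset.sum_comm]
      refine Finset.sum_congr rfl fun k _ => Finset.sum_congr rfl fun i _ => ?_
      ring
    have h3 : V.valuation (algebraMap ℂ F c * ∑ i, algebraMap ℂ F (∑ j, u j * L j i) * ηF i) <
        1 := by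
      rw [h1]
      apply V.valuation.map_sum_lt one_ne_zero
      intro j _
      rw [Valuation.map_neg, map_mul]
      refine mul_lt_one_of_lt_of_le (NDK_near V hV0 v v₀ hVv (A j)) ?_
      apply (V.valuation_le_one_iff _).mpr
      exact V.sum_mem fun i _ => V.mul_mem _ _ (hV0 _) (hVη i)
    rwa [map_mul, NDK_const V hV0 hc, one_mul] at h3
  have hind : IndMod (NDK_q V ηF hV) (fun i => lf (y i)) := by
    intro H hH0
    by_contra hne
    apply hVH H hne
    have h1 := (hmq _).mp hH0
    rw [comp_aeval_apply (fun i => lf (y i)) (aeval ηF) H] at h1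
    have h2 : (fun i => aeval ηF (lf (y i))) =
        fun i => ∑ l, algebraMap ℂ F (y i l) * ηF l := by
      funext i
      exact NDK_lf (y i) ηF
    rwa [h2] at h1
  obtain ⟨hmin, hnind⟩ := hCMP ℂ (Fin (m + 1)) β p (NDK_q V ηF hV)
    (lf fun i => ∑ j, u j * L j i) (fun i => lf (y i)) hp hq hdim hpq hlq hl hind
  exact hLCX F w m r β k Q A v v₀ L u c p (NDK_q V ηF hV) (fun i => lf (y i)) ηF V hp hq hpq hηF
    hvQ hc hA hord hV0 hVv hVη hmq hind hnind hdim hmin hl hLow

end Pool.MPY
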