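import Pool.Agent.Work.MP_f82ddf_Y.Interface

set_option autoImplicit false

/-! # Block NPL (helper21): where the linear forms `y_i` have poles at least as bad as the
coordinates -/

open Pool.Agent.Work.MP_f82ddf_nt.DQ

namespace Pool.MPY

open MvPolynomial
open Pool.Agent.Work.MP_f82ddf_M5 (lineAt resAt chow at2 comb Data)
open Pool.ThmM (NonProp HypData LastMonic)
open Pool.MPL (RX NC aq ae NPr Spn inc f0 fR gR)
open Pool.MPW (pv OrdGE)

/-- Values of a form at a multiple of a point. -/
theorem NPL_hom {F : Type} [Field F] [Algebra ℂ F] {σ : Type} {f : MvPolynomial σ ℂ} {d : ℕ}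
    (hf : f.IsHomogeneous d) (c : F) (η : σ → F) :
    aeval (fun j => c * η j) f = c ^ d * aeval η f := by
  rw [aeval_def, aeval_def, eval₂_eq, eval₂_eq, Finset.mul_sum]
  refine Finset.sum_congr rfl fun n hn => ?_
  have h1 : n.degree = d := by
    have h2 := hf (mem_support_iff.1 hn)
    rw [← h2]
    simp [Finsupp.weight_apply, Finsupp.degree_apply, Finsupp.sum]
  have h3 : ∏ i ∈ n.support, (c * η i) ^ n i = c ^ d * ∏ i ∈ n.support, η i ^ n i := by
    simp only [mul_pow]
    rw [Finset.prod_mul_distrib, Finset.prod_pow_eq_pow_sum, ← h1]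
    rfl
  rw [h3]
  ring

theorem p_NPL : Pool.ThmP.Stmt_NUL → Stmt_NPL := by
  classical
  intro hNUL F _ _ w m r β A v v₀ L u c p y η V hp hpη hη hrel hc hA hcommon hconst hv
  -- the largest coordinate
  obtain ⟨k', -, hk'⟩ := Finset.exists_max_image (Finset.univ : Finset (Fin (m + 1)))
    (fun j => V.valuation (η j)) ⟨0, Finset.mem_univ _⟩
  have hk0 : η k' ≠ 0 := by
    intro h0
    apply hη
    funext j
    have h1 := hk' j (Finset.mem_univ _)
    simp only [h0, map_zero] at h1
    exact (map_eq_zero V.valuation).1 (le_antisymm h1 zero_le)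
  have hkv : V.valuation (η k') ≠ 0 := (map_ne_zero V.valuation).2 hk0
  have ha : ∀ j, η j / η k' ∈ V := by
    intro j
    rw [← ValuationSubring.valuation_le_one_iff, map_div₀]
    exact div_le_one_of_le₀ (hk' j (Finset.mem_univ _)) zero_le
  -- residues
  let cV : ℂ →+* V := (algebraMap ℂ F).codRestrict V.toSubring hconst
  have hcV : ∀ a, ((cV a : V) : F) = algebraMap ℂ F a := fun a => rfl
  let res : V →+* IsLocalRing.ResidueField V := IsLocalRing.residue V
  let θ : ℂ →+* IsLocalRing.ResidueField V := res.comp cV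
  have hF : ∀ {σ : Type} (b : σ → V) (G : MvPolynomial σ ℂ),
      ((eval₂ cV b G : V) : F) = aeval (fun j => ((b j : V) : F)) G := by
    intro σ b G
    have h1 := hom_eval₂ G cV V.subtype b
    exact h1
  have hR : ∀ {σ : Type} (b : σ → V) (G : MvPolynomial σ ℂ),
      res (eval₂ cV b G) = eval₂ θ (fun j => res (b j)) G := by
    intro σ b G
    exact hom_eval₂ G cV res b
  let aV : Fin (m + 1) → V := fun j => ⟨η j / η k', ha j⟩
  let z : Fin (m + 1) → IsLocalRing.ResidueField V := fun j => res (aV j)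
  have hzk : z k' = 1 := by
    have h1 : aV k' = 1 := Subtype.ext (div_self hk0)
    simp only [z, h1, map_one]
  -- forms in `p` vanish at `z`
  have hz : ∀ f ∈ p, ∀ d, f.IsHomogeneous d → eval₂ θ z f = 0 := by
    intro f hf d hd
    have h1 : eval₂ cV aV f = 0 := by
      apply Subtype.ext
      rw [hF]
      have h2 := NPL_hom hd (η k')⁻¹ η
      rw [hpη f hf, mul_zero] at h2
      have h3 : (fun j => ((aV j : V) : F)) = fun j => (η k')⁻¹ * η j := by
        funext j
        exact (div_eq_inv_mul _ _)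
      rw [h3, h2]
      rfl
    have h2 := hR aV f
    rw [h1, map_zero] at h2
    exact h2.symm
  -- the residue of `v`
  have hvV : ∀ j, v j ∈ V := by
    intro j
    obtain ⟨h1, -⟩ := ValuationSubring.mem_nonunits_iff_exists_mem_maximalIdeal.1 (hv j)
    have h2 := V.add_mem _ _ h1 (hconst (v₀ j))
    rwa [sub_add_cancel] at h2
  let vV : Fin (w + 2) → V := fun j => ⟨v j, hvV j⟩
  have hvres : ∀ j, res (vV j) = θ (v₀ j) := by
    intro j
    obtain ⟨h1, h2⟩ := ValuationSubring.mem_nonunits_iff_exists_mem_maximalIdeal.1 (hv j)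
    have h3 : vV j - cV (v₀ j) = ⟨v j - algebraMap ℂ F (v₀ j), h1⟩ := rfl
    rw [← h3] at h2
    have h4 := (IsLocalRing.residue_eq_zero_iff _).2 h2
    rw [map_sub, sub_eq_zero] at h4
    exact h4
  have hAres : ∀ k, res (eval₂ cV vV (A k)) = θ c * θ (u k) := by
    intro k
    rw [hR]
    have h1 : (fun j => res (vV j)) = fun j => θ (v₀ j) := funext hvres
    rw [h1, ← map_mul, ← hA k]
    have h2 := eval₂_comp_left θ (RingHom.id ℂ) v₀ (A k)
    rw [RingHom.comp_id] at h2
    exact h2.symm
  -- the relation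
  have hrelV : ∑ k, eval₂ cV vV (A k) * ∑ i, cV (L k i) * aV i = 0 := by
    apply Subtype.val_injective
    show V.subtype (∑ k, eval₂ cV vV (A k) * ∑ i, cV (L k i) * aV i) = V.subtype 0
    rw [map_zero, map_sum]
    have h1 : ∀ k, V.subtype (eval₂ cV vV (A k) * ∑ i, cV (L k i) * aV i) =
        (η k')⁻¹ * (aeval v (A k) * ∑ i, algebraMap ℂ F (L k i) * η i) := by
      intro k
      have h2 : V.subtype (eval₂ cV vV (A k)) = aeval v (A k) := hF vV (A k)
      have h5 : V.subtype (∑ i, cV (L k i) * aV i) =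
          (η k')⁻¹ * ∑ i, algebraMap ℂ F (L k i) * η i := by
        rw [map_sum, Finset.mul_sum]
        refine Finset.sum_congr rfl fun i _ => ?_
        rw [map_mul]
        show algebraMap ℂ F (L k i) * (η i / η k') = _
        rw [div_eq_inv_mul]
        ring
      rw [map_mul, h2, h5]
      ring
    rw [Finset.sum_congr rfl fun k _ => h1 k, ← Finset.mul_sum, hrel, mul_zero]
  have hθc : θ c ≠ 0 := (map_ne_zero θ).2 hc
  have hrelz : ∑ k, θ (u k) * ∑ i, θ (L k i) * z i = 0 := by
    have h1 := congrArg res hrelV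
    rw [map_zero, map_sum] at h1
    have h2 : ∀ k, res (eval₂ cV vV (A k) * ∑ i, cV (L k i) * aV i) =
        θ c * (θ (u k) * ∑ i, θ (L k i) * z i) := by
      intro k
      rw [map_mul, hAres, map_sum, mul_assoc]
      congr 2
    rw [Finset.sum_congr rfl fun k _ => h2 k, ← Finset.mul_sum] at h1
    exact (mul_eq_zero.1 h1).resolve_left hθc
  -- the Nullstellensatz
  obtain ⟨i, hi⟩ : ∃ i, ∑ j, θ (y i j) * z j ≠ 0 := by
    by_contra hcon
    push Not at hcon
    let S : Set (MvPolynomial (Fin (m + 1)) ℂ) := {f | f ∈ p ∧ ∃ d, f.IsHomogeneous d}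
    let E : Set (MvPolynomial (Fin (m + 1)) ℂ) :=
      insert (∑ k, C (u k) * ∑ i, C (L k i) * X i)
        (Set.range fun i => ∑ j, C (y i j) * (X j : MvPolynomial (Fin (m + 1)) ℂ))
    have h1 := hNUL ℂ ℂ (IsLocalRing.ResidueField V) m S E (X k') ?_ θ z ?_ ?_
    · rw [eval₂_X, hzk] at h1
      exact one_ne_zero h1
    · intro x hx hxE
      rw [eval_X]
      have hx0 : x = 0 := by
        refine hcommon x (fun f hf => ?_) ?_ (fun i => ?_)
        · rw [← f.sum_homogeneousComponent, map_sum]
          refine Finset.sum_eq_zero fun n _ => ?_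
          have h2 := hx (homogeneousComponent n f) ⟨hp f hf n, n,
            homogeneousComponent_isHomogeneous n f⟩
          exact h2
        · have h2 := hxE _ (Set.mem_insert _ _)
          simpa using h2
        · have h2 := hxE _ (Set.mem_insert_of_mem _ ⟨i, rfl⟩)
          simpa using h2
      rw [hx0, Pi.zero_apply]
    · intro f hf
      obtain ⟨d, hd⟩ := hf.2
      have h2 := hz f hf.1 d hd
      exact h2
    · intro H hH
      rcases hH with rfl | ⟨i, rfl⟩
      · simp only [eval₂_sum, eval₂_mul, eval₂_C, eval₂_X]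
        exact hrelz
      · simp only [eval₂_sum, eval₂_mul, eval₂_C, eval₂_X]
        exact hcon i
  -- the form `y i`
  let sV : V := ∑ l, cV (y i l) * aV l
  have hsres : res sV ≠ 0 := by
    have h1 : res sV = ∑ j, θ (y i j) * z j := by
      simp only [sV, map_sum, map_mul]
      rfl
    rwa [h1]
  have hsunit : IsUnit sV := IsLocalRing.residue_ne_zero_iff_isUnit _ |>.1 hsres
  have hsval : V.valuation (sV : F) = 1 := (V.valuation_eq_one_iff sV).1 hsunit
  have hs : ∑ l, algebraMap ℂ F (y i l) * η l = (sV : F) * η k' := by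
    have h1 : (sV : F) = ∑ l, algebraMap ℂ F (y i l) * (η l / η k') := by
      have h2 : (sV : F) = V.subtype sV := rfl
      rw [h2]
      simp only [sV, map_sum, map_mul]
      rfl
    rw [h1, Finset.sum_mul]
    refine Finset.sum_congr rfl fun l _ => ?_
    rw [mul_assoc, div_mul_cancel₀ _ hk0]
  have hs0 : (sV : F) ≠ 0 := by
    intro h0
    rw [h0, map_zero] at hsval
    exact zero_ne_one hsval
  refine ⟨i, ?_, fun j => ?_⟩
  · rw [hs]
    exact mul_ne_zero hs0 hk0
  · rw [hs, ← ValuationSubring.valuation_le_one_iff, map_div₀, map_mul, hsval, one_mul]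
    exact div_le_one_of_le₀ (hk' j (Finset.mem_univ _)) zero_le

end Pool.MPY
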