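import Pool.Agent.Work.MP_f82ddf_Y.Interface

set_option autoImplicit false

/-! # Block ODR (THEOREM T): orders and derivations of the coefficients -/

namespace Pool.MPY

open MvPolynomial
open Pool.Agent.Work.MP_f82ddf_M5 (comb)
open Pool.MPW (OrdGE)

section

variable {F : Type} [Field F] {N : ℕ}

/-- the coefficientwise extension of `D` -/
noncomputable def ODR_d (D : F →+ F) (f : MvPolynomial (Fin N) F) : MvPolynomial (Fin N) F :=
  ∑ μ ∈ f.support, monomial μ (D (coeff μ f))

theorem ODR_coeff (D : F →+ F) (f : MvPolynomial (Fin N) F) (μ : Fin N →₀ ℕ) :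
    coeff μ (ODR_d D f) = D (coeff μ f) := by
  classical
  unfold ODR_d
  rw [coeff_sum]
  simp only [coeff_monomial]
  rw [Finset.sum_ite_eq' f.support μ (fun ν => D (coeff ν f))]
  split_ifs with h
  · rfl
  · rw [notMem_support_iff.1 h, map_zero]

theorem ODR_add (D : F →+ F) (f g : MvPolynomial (Fin N) F) :
    ODR_d D (f + g) = ODR_d D f + ODR_d D g := by
  ext μ
  rw [coeff_add, ODR_coeff, ODR_coeff, ODR_coeff, coeff_add, map_add]

theorem ODR_mul (D : F →+ F) (hD : ∀ a b : F, D (a * b) = a * D b + b * D a)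
    (f g : MvPolynomial (Fin N) F) :
    ODR_d D (f * g) = f * ODR_d D g + g * ODR_d D f := by
  classical
  ext μ
  have h1 : f * ODR_d D g + g * ODR_d D f = f * ODR_d D g + ODR_d D f * g := by ring
  rw [h1, coeff_add, ODR_coeff, coeff_mul, coeff_mul, coeff_mul, map_sum, ← Finset.sum_add_distrib]
  refine Finset.sum_congr rfl fun p _ => ?_
  rw [hD, ODR_coeff, ODR_coeff]
  ring

theorem ODR_pow (D : F →+ F) (hD : ∀ a b : F, D (a * b) = a * D b + b * D a)
    (m : Ideal (MvPolynomial (Fin N) F)) :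
    ∀ (j : ℕ) (x : MvPolynomial (Fin N) F), x ∈ m ^ (j + 1) → ODR_d D x ∈ m ^ j := by
  intro j
  induction j with
  | zero =>
    intro x _
    rw [pow_zero, Ideal.one_eq_top]
    exact Submodule.mem_top
  | succ j ih =>
    intro x hx
    rw [pow_succ] at hx
    refine Submodule.mul_induction_on hx ?_ ?_
    · intro y hy z hz
      rw [ODR_mul D hD]
      refine Ideal.add_mem _ (Ideal.mul_mem_right _ _ hy) ?_
      rw [pow_succ']
      exact Ideal.mul_mem_mul hz (ih y hy)
    · intro y z hy hz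
      rw [ODR_add]
      exact Ideal.add_mem _ hy hz

theorem ODR_mem (Q : MvPolynomial (Fin N) F) (I : Ideal (MvPolynomial (Fin N) F))
    (x : MvPolynomial (Fin N) F) :
    x ∈ I ⊔ Ideal.span {Q} ↔ ∃ μ ∈ I, ∃ a, x = μ + a * Q := by
  rw [Submodule.mem_sup]
  constructor
  · rintro ⟨μ, hμ, z, hz, rfl⟩
    obtain ⟨a, rfl⟩ := Ideal.mem_span_singleton'.1 hz
    exact ⟨μ, hμ, a, rfl⟩
  · rintro ⟨μ, hμ, a, rfl⟩
    exact ⟨μ, hμ, a * Q, Ideal.mem_span_singleton'.2 ⟨a, rfl⟩, rfl⟩

theorem ODR_ord (D : F →+ F) (hD : ∀ a b : F, D (a * b) = a * D b + b * D a)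
    (Q : MvPolynomial (Fin N) F) (hQ : ODR_d D Q = 0) (v : Fin N → F) (j : ℕ)
    (g : MvPolynomial (Fin N) F) (hg : OrdGE Q v (j + 1) g) : OrdGE Q v j (ODR_d D g) := by
  obtain ⟨h, hh, hg⟩ := hg
  obtain ⟨μ, hμ, a, hμa⟩ := (ODR_mem _ _ _).1 hg
  have h1 : h * ODR_d D g + g * ODR_d D h = ODR_d D μ + Q * ODR_d D a := by
    have h2 := congrArg (ODR_d D) hμa
    rw [ODR_mul D hD, ODR_add, ODR_mul D hD, hQ, mul_zero, zero_add] at h2
    exact h2
  refine ⟨h ^ 2, ?_, ?_⟩
  · rw [map_pow]
    exact pow_ne_zero _ hh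
  · rw [ODR_mem]
    refine ⟨h * ODR_d D μ - μ * ODR_d D h,
      Ideal.sub_mem _ (Ideal.mul_mem_left _ _ (ODR_pow D hD _ j μ hμ))
      (Ideal.mul_mem_right _ _ (Ideal.pow_le_pow_right (Nat.le_succ j) hμ)),
      h * ODR_d D a - a * ODR_d D h, ?_⟩
    linear_combination h * h1 - ODR_d D h * hμa

end

/-- ODR -/
theorem p_ODR : Stmt_ODR := by
  intro F _ _ N n k Q A v D x hv hord
  set δ : F →+ F := (D : F →ₗ[ℂ] F).toAddMonoidHom with hδ
  have hδD : ∀ a, δ a = D a := fun a => rfl
  have hleib : ∀ a b : F, δ (a * b) = a * δ b + b * δ a := by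
    intro a b
    rw [hδD, hδD, hδD, D.leibniz, smul_eq_mul, smul_eq_mul]
  have hconst : ∀ f : MvPolynomial (Fin N) ℂ, ODR_d δ (map (algebraMap ℂ F) f) = 0 := by
    intro f
    ext μ
    rw [ODR_coeff, coeff_map, hδD, D.map_algebraMap, coeff_zero]
  have hsmul : ∀ (c : F) (f : MvPolynomial (Fin N) ℂ),
      ODR_d δ (C c * map (algebraMap ℂ F) f) = C (D c) * map (algebraMap ℂ F) f := by
    intro c f
    rw [ODR_mul δ hleib, hconst, mul_zero, zero_add, mul_comm]
    congr 1
    ext μ
    rw [ODR_coeff, coeff_C, coeff_C]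
    split_ifs
    · rfl
    · exact map_zero _
  have hcomb : ∀ y : Fin (n + 1) → F, ODR_d δ (comb (algebraMap ℂ F) A y) =
      comb (algebraMap ℂ F) A (fun i => D (y i)) := by
    intro y
    unfold comb
    have hs : ∀ (s : Finset (Fin (n + 1))) (G : Fin (n + 1) → MvPolynomial (Fin N) F),
        ODR_d δ (∑ i ∈ s, G i) = ∑ i ∈ s, ODR_d δ (G i) := by
      intro s G
      classical
      induction s using Finset.induction_on with
      | empty =>
        rw [Finset.sum_empty, Finset.sum_empty]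
        ext μ
        rw [ODR_coeff, coeff_zero, map_zero]
      | insert i s hi ih => rw [Finset.sum_insert hi, Finset.sum_insert hi, ODR_add, ih]
    rw [hs]
    exact Finset.sum_congr rfl fun i _ => hsmul _ _
  -- the orders
  have key : ∀ j ≤ k, OrdGE (map (algebraMap ℂ F) Q) v (k - j)
      (comb (algebraMap ℂ F) A (fun i => D^[j] (x i))) := by
    intro j
    induction j with
    | zero =>
      intro _
      exact hord
    | succ j ih =>
      intro hj
      have h1 := ih (by omega)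
      have e1 : k - j = (k - (j + 1)) + 1 := by omega
      rw [e1] at h1
      have h2 := ODR_ord δ hleib _ (hconst Q) v _ _ h1
      rw [hcomb] at h2
      have e2 : (fun i => D (D^[j] (x i))) = fun i => D^[j + 1] (x i) := by
        funext i
        rw [Function.iterate_succ_apply']
      rwa [e2] at h2
  intro j hj
  obtain ⟨h, hh, hg⟩ := key j hj.le
  obtain ⟨μ, hμ, a, hμa⟩ := (ODR_mem _ _ _).1 hg
  have hμ1 : μ ∈ RingHom.ker (eval v : MvPolynomial (Fin N) F →+* F) := by
    have := Ideal.pow_le_pow_right (show 1 ≤ k - j by omega) hμ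
    rwa [pow_one] at this
  have h3 := congrArg (eval v) hμa
  have hQv : eval v (map (algebraMap ℂ F) Q) = 0 := by
    rw [eval_map, ← aeval_def]
    exact hv
  rw [map_mul, map_add, map_mul, hQv, mul_zero, add_zero, RingHom.mem_ker.1 hμ1] at h3
  have h4 := (mul_eq_zero.1 h3).resolve_left hh
  unfold comb at h4
  rw [map_sum] at h4
  rw [← h4]
  refine Finset.sum_congr rfl fun i _ => ?_
  rw [map_mul, eval_C, eval_map, ← aeval_def]

end Pool.MPY
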