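import Pool.Agent.Work.MP_f82ddf_Y.Interface2

set_option autoImplicit false

/-! # Block ODX (helper72): at most `c` of the linear forms vanish at a point over a larger field -/

open Pool.Agent.Work.MP_f82ddf_nt.DQ

namespace Pool.MPY

open MvPolynomial

theorem ODX_lf_eval {F : Type} [CommRing F] {m : ℕ} (u z : Fin (m + 1) → F) :
    eval z (lf u) = ∑ i, u i * z i := by
  rw [lf, map_sum]
  exact Finset.sum_congr rfl fun i _ => by rw [map_mul, eval_C, eval_X]

theorem ODX_lf_eval₂ {F κ : Type} [CommRing F] [CommRing κ] {m : ℕ} (τ : F →+* κ)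
    (u : Fin (m + 1) → F) (x : Fin (m + 1) → κ) :
    eval₂ τ x (lf u) = ∑ i, τ (u i) * x i := by
  rw [lf, eval₂_sum]
  exact Finset.sum_congr rfl fun i _ => by rw [eval₂_mul, eval₂_C, eval₂_X]

theorem p_ODX : Pool.ThmP.Stmt_NUL → Stmt_ODX := by
  classical
  intro hNUL Ω κ _ _ _ m c p S hp hc τ x hx hpx
  set T : Finset (Fin (m + 1) → Ω) := S.filter fun u => ∑ i, τ (u i) * x i = 0 with hT
  have hset : {u | u ∈ S ∧ ∑ i, τ (u i) * x i = 0} = ↑T := by
    ext u
    rw [Finset.mem_coe, Finset.mem_filter, Set.mem_ofPred_eq]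
  rw [hset, Set.ncard_coe_finset]
  by_contra hlt
  push Not at hlt
  apply hx
  funext i
  have h1 : eval₂ τ x (X i : MvPolynomial (Fin (m + 1)) Ω) = 0 := by
    refine hNUL Ω Ω κ m {f | f ∈ p} {H | ∃ u ∈ T, H = lf u} (X i) ?_ τ x ?_ ?_
    · intro z hz hE
      rw [eval_X]
      by_contra hzi
      have hz0 : z ≠ 0 := fun h => hzi (by rw [h]; rfl)
      have h2 := hc z hz0 (fun f hf => by
        rw [← coe_aeval_eq_eval]
        exact hz f hf)
      have h3 : (↑T : Set (Fin (m + 1) → Ω)) ⊆ {u | u ∈ S ∧ ∑ i, u i * z i = 0} := by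
        intro u hu
        have hu' : u ∈ T := hu
        refine ⟨(Finset.mem_filter.1 hu').1, ?_⟩
        rw [← ODX_lf_eval]
        exact hE _ ⟨u, hu', rfl⟩
      have h4 := Set.ncard_le_ncard h3 ((Finset.finite_toSet S).subset fun u hu => hu.1)
      rw [Set.ncard_coe_finset] at h4
      omega
    · intro f hf
      exact hpx f hf
    · rintro H ⟨u, hu, rfl⟩
      rw [ODX_lf_eval₂]
      exact (Finset.mem_filter.1 hu).2
  rwa [eval₂_X] at h1

end Pool.MPY
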