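import Pool.Agent.Work.MP_f82ddf_Y.Interface

set_option autoImplicit false

namespace Pool.MPY

open MvPolynomial

theorem ORL_krull {S : Type} [CommRing S] [IsNoetherianRing S] (p q : Ideal S) (hp : p.IsPrime)
    (hq : q.IsPrime) (hpq : p ≤ q) (t : S) (htq : t ∈ q) (g : S)
    (hg : ∀ a : ℕ, ∃ h : S, h ∉ q ∧ ∃ g' : S, h * g - t ^ a * g' ∈ p) : g ∈ p := by
  haveI := hp
  haveI := hq
  haveI : IsDomain (S ⧸ p) := Ideal.Quotient.isDomain p
  have hqb : (q.map (Ideal.Quotient.mk p)).IsPrime := by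
    apply Ideal.map_isPrime_of_surjective Ideal.Quotient.mk_surjective
    rw [Ideal.mk_ker]
    exact hpq
  haveI := hqb
  have hmem : ∀ x : S, Ideal.Quotient.mk p x ∈ q.map (Ideal.Quotient.mk p) ↔ x ∈ q := fun x =>
    Ideal.mem_quotient_iff_mem hpq
  let R := Localization.AtPrime (q.map (Ideal.Quotient.mk p))
  haveI : IsNoetherianRing R :=
    IsLocalization.isNoetherianRing (q.map (Ideal.Quotient.mk p)).primeCompl _ inferInstance
  have hunit : ∀ x : S, x ∉ q → IsUnit (algebraMap (S ⧸ p) R (Ideal.Quotient.mk p x)) := by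
    intro x hx
    exact IsLocalization.map_units R
      (⟨Ideal.Quotient.mk p x, fun h => hx ((hmem x).1 h)⟩ :
        (q.map (Ideal.Quotient.mk p)).primeCompl)
  have hmax : algebraMap (S ⧸ p) R (Ideal.Quotient.mk p t) ∈ IsLocalRing.maximalIdeal R :=
    (IsLocalization.AtPrime.to_map_mem_maximal_iff R (q.map (Ideal.Quotient.mk p)) _).2
      ((hmem t).2 htq)
  have hne : Ideal.span {algebraMap (S ⧸ p) R (Ideal.Quotient.mk p t)} ≠ ⊤ := by
    intro h
    have h1 : Ideal.span {algebraMap (S ⧸ p) R (Ideal.Quotient.mk p t)} ≤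
        IsLocalRing.maximalIdeal R := by
      rw [Ideal.span_singleton_le_iff_mem]
      exact hmax
    rw [h] at h1
    exact (IsLocalRing.maximalIdeal.isMaximal R).ne_top (top_le_iff.1 h1)
  have hkr := Ideal.iInf_pow_eq_bot_of_isLocalRing _ hne
  have hin : algebraMap (S ⧸ p) R (Ideal.Quotient.mk p g) ∈
      ⨅ i : ℕ, Ideal.span {algebraMap (S ⧸ p) R (Ideal.Quotient.mk p t)} ^ i := by
    rw [Submodule.mem_iInf]
    intro a
    obtain ⟨h, hh, g', hg'⟩ := hg a
    rw [Ideal.span_singleton_pow, Ideal.mem_span_singleton]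
    have e1 : Ideal.Quotient.mk p (h * g) = Ideal.Quotient.mk p (t ^ a * g') :=
      Ideal.Quotient.eq.2 hg'
    have e2 : algebraMap (S ⧸ p) R (Ideal.Quotient.mk p h) *
        algebraMap (S ⧸ p) R (Ideal.Quotient.mk p g) =
        algebraMap (S ⧸ p) R (Ideal.Quotient.mk p t) ^ a *
          algebraMap (S ⧸ p) R (Ideal.Quotient.mk p g') := by
      rw [← map_mul, ← map_mul, e1, map_mul, map_mul, map_pow, map_pow]
    have e3 : algebraMap (S ⧸ p) R (Ideal.Quotient.mk p t) ^ a ∣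
        algebraMap (S ⧸ p) R (Ideal.Quotient.mk p h) *
        algebraMap (S ⧸ p) R (Ideal.Quotient.mk p g) := ⟨_, e2⟩
    exact ((hunit h hh).dvd_mul_left).1 e3
  rw [hkr, Ideal.mem_bot] at hin
  have hinj : Function.Injective (algebraMap (S ⧸ p) R) :=
    IsLocalization.injective R (q.map (Ideal.Quotient.mk p)).primeCompl_le_nonZeroDivisors
  have h0 : Ideal.Quotient.mk p g = 0 := hinj (by rw [hin, map_zero])
  exact Ideal.Quotient.eq_zero_iff_mem.1 h0

theorem ORL_gen {S : Type} [CommRing S] [IsNoetherianRing S] (p q : Ideal S) (hp : p.IsPrime)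
    (hq : q.IsPrime) (hpq : p ≤ q) (t : S) (htq : t ∈ q)
    (hgen : ∀ f ∈ q, ∃ h ∉ q, h * f ∈ p ⊔ Ideal.span {t}) (g : S) (hg : g ∉ p) :
    ∃ (a : ℕ) (g' h : S), g' ∉ q ∧ h ∉ q ∧ h * g - t ^ a * g' ∈ p := by
  by_contra hcon
  have hcon' : ∀ (a : ℕ) (g' h : S), h ∉ q → h * g - t ^ a * g' ∈ p → g' ∈ q := by
    intro a g' h hh hm
    by_contra hg'
    exact hcon ⟨a, g', h, hg', hh, hm⟩
  apply hg
  apply ORL_krull p q hp hq hpq t htq g
  intro a
  induction a with
  | zero =>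
    refine ⟨1, fun h => hq.ne_top ((Ideal.eq_top_iff_one q).2 h), g, ?_⟩
    have : (1 : S) * g - t ^ 0 * g = 0 := by ring
    rw [this]
    exact p.zero_mem
  | succ a ih =>
    obtain ⟨h, hh, g', hm⟩ := ih
    have hg'q := hcon' a g' h hh hm
    obtain ⟨h', hh', hm'⟩ := hgen g' hg'q
    obtain ⟨π, hπ, z, hz, hsum⟩ := Submodule.mem_sup.1 hm'
    obtain ⟨g'', hg''⟩ := Ideal.mem_span_singleton'.1 hz
    refine ⟨h' * h, ?_, g'', ?_⟩
    · intro hc
      rcases hq.mem_or_mem hc with h1 | h1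
      · exact hh' h1
      · exact hh h1
    · have : h' * h * g - t ^ (a + 1) * g'' = h' * (h * g - t ^ a * g') + t ^ a * π := by
        have e : π = h' * g' - g'' * t := by rw [hg'', ← hsum]; ring
        rw [e]
        ring
      rw [this]
      exact p.add_mem (p.mul_mem_left _ hm) (p.mul_mem_left _ hπ)

theorem p_ORL : Stmt_ORL := by
  intro Ω σ _ _ p q t hp hq hpq htq _ hgen g hg
  exact ORL_gen p q hp hq hpq t htq hgen g hg

end Pool.MPY
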