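import Pool.Agent.Work.MP_f82ddf_Y.B_MDL

set_option autoImplicit false

/-! # THEOREM T (MP_f82ddf_nt), block PEX: primes over an algebraically closed field stay prime -/

namespace Pool.MPY

open MvPolynomial

/-- Nullstellensatz with one inequality -/
theorem PEX_nul {Ω A : Type} [Field Ω] [IsAlgClosed Ω] [CommRing A] [IsDomain A] [Algebra Ω A]
    [Algebra.FiniteType Ω A] (s : A) (hs : s ≠ 0) : ∃ θ : A →ₐ[Ω] Ω, θ s ≠ 0 := by
  have hJ : IsJacobsonRing A := isJacobsonRing_of_finiteType (A := Ω)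
  obtain ⟨M, hM, hsM⟩ : ∃ M : Ideal A, M.IsMaximal ∧ s ∉ M := by
    by_contra hc
    push Not at hc
    apply hs
    have h1 : s ∈ (⊥ : Ideal A).jacobson := by
      rw [Ideal.jacobson, Ideal.mem_sInf]
      intro J hJ2
      exact hc J hJ2.2
    have h2 : (⊥ : Ideal A).jacobson = ⊥ :=
      hJ.out (Ideal.isPrime_bot : (⊥ : Ideal A).IsPrime).isRadical
    rw [h2] at h1
    exact h1
  letI := Ideal.Quotient.field M
  have hfin : Module.Finite Ω (A ⧸ M) := finite_of_finite_type_of_isJacobsonRing Ω (A ⧸ M)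
  have hb : Function.Bijective (algebraMap Ω (A ⧸ M)) :=
    IsAlgClosed.algebraMap_bijective_of_isIntegral (k := Ω) (K := A ⧸ M)
  let e : Ω ≃ₐ[Ω] (A ⧸ M) := AlgEquiv.ofBijective (Algebra.ofId Ω (A ⧸ M)) hb
  refine ⟨(e.symm : (A ⧸ M) →ₐ[Ω] Ω).comp (Ideal.Quotient.mkₐ Ω M), ?_⟩
  intro h0
  apply hsM
  have h1 : e.symm (Ideal.Quotient.mk M s) = 0 := h0
  have h2 : Ideal.Quotient.mk M s = 0 := by
    have h3 := congrArg e h1
    rwa [AlgEquiv.apply_symm_apply, map_zero] at h3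
  exact Ideal.Quotient.eq_zero_iff_mem.1 h2

/-- a linear functional and the coefficientwise extension -/
theorem PEX_psi {Ω σ : Type} [Field Ω] (τ : Ω →+* ℂ) (ψ : MvPolynomial σ Ω →ₗ[Ω] Ω) (ϑ : ℂ →+ Ω)
    (hϑ : ∀ (x : ℂ) (c : Ω), ϑ (x * τ c) = ϑ x * c) (f : MvPolynomial σ ℂ) :
    ψ (MDL_th ϑ f) = ϑ (∑ m ∈ f.support, coeff m f * τ (ψ (monomial m 1))) := by
  rw [MDL_th, map_sum, map_sum]
  refine Finset.sum_congr rfl fun m _ => ?_
  have h1 : (monomial m (ϑ (coeff m f)) : MvPolynomial σ Ω) = ϑ (coeff m f) • monomial m 1 := by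
    rw [smul_monomial, smul_eq_mul, mul_one]
  rw [h1, map_smul, smul_eq_mul, hϑ]

/-- a polynomial outside of the extended ideal is detected by a functional -/
theorem PEX_det {Ω σ : Type} [Field Ω] (τ : Ω →+* ℂ) (p : Ideal (MvPolynomial σ Ω))
    (f : MvPolynomial σ ℂ) (hf : f ∉ p.map (map τ)) :
    ∃ ψ : MvPolynomial σ Ω →ₗ[Ω] Ω, (∀ x ∈ p, ψ x = 0) ∧
      ∑ m ∈ f.support, coeff m f * τ (ψ (monomial m 1)) ≠ 0 := by
  classical
  by_contra hc
  push Not at hc
  apply hf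
  let _ : Algebra Ω ℂ := τ.toAlgebra
  have hτ : ∀ (a : Ω) (b : ℂ), a • b = τ a * b := fun a b => rfl
  let b := Module.Basis.ofVectorSpace Ω ℂ
  let S : Finset (Module.Basis.ofVectorSpaceIndex Ω ℂ) :=
    f.support.biUnion fun m => (b.repr (coeff m f)).support
  have hco : ∀ m, coeff m f = ∑ μ ∈ S, b μ * τ (b.coord μ (coeff m f)) := by
    intro m
    by_cases hm : m ∈ f.support
    · conv_lhs => rw [← b.linearCombination_repr (coeff m f)]
      rw [Finsupp.linearCombination_apply, Finsupp.sum_of_support_subset (s := S)]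
      · refine Finset.sum_congr rfl fun μ _ => ?_
        rw [hτ, mul_comm]
        rfl
      · intro μ hμ
        exact Finset.mem_biUnion.2 ⟨m, hm, hμ⟩
      · intro μ _
        rw [zero_smul]
    · rw [notMem_support_iff.1 hm]
      symm
      refine Finset.sum_eq_zero fun μ _ => ?_
      rw [map_zero, map_zero, mul_zero]
  have hϑ : ∀ (μ : Module.Basis.ofVectorSpaceIndex Ω ℂ) (x : ℂ) (c : Ω),
      (b.coord μ).toAddMonoidHom (x * τ c) = (b.coord μ).toAddMonoidHom x * c := by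
    intro μ x c
    show b.coord μ (x * τ c) = b.coord μ x * c
    rw [mul_comm x, ← hτ, map_smul, smul_eq_mul, mul_comm]
  have hdec : f = ∑ μ ∈ S, C (b μ) * map τ (MDL_th (b.coord μ).toAddMonoidHom f) := by
    ext m
    rw [coeff_sum]
    have h1 : ∀ μ ∈ S, coeff m (C (b μ) * map τ (MDL_th (b.coord μ).toAddMonoidHom f)) =
        b μ * τ (b.coord μ (coeff m f)) := by
      intro μ _
      rw [coeff_C_mul, coeff_map, MDL_coeff]
      rfl
    rw [Finset.sum_congr rfl h1]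
    exact hco m
  have hin : ∀ μ, MDL_th (b.coord μ).toAddMonoidHom f ∈ p := by
    intro μ
    by_contra hn
    have hn2 : MDL_th (b.coord μ).toAddMonoidHom f ∉ p.restrictScalars Ω := hn
    obtain ⟨ψ, hψ1, hψ2⟩ := Submodule.exists_dual_map_eq_bot_of_notMem hn2 inferInstance
    have hψ3 : ∀ x ∈ p, ψ x = 0 := by
      intro x hx
      have h1 : ψ x ∈ (p.restrictScalars Ω).map ψ := ⟨x, hx, rfl⟩
      rw [hψ2] at h1
      exact h1
    have h2 := hc ψ hψ3
    apply hψ1
    rw [PEX_psi τ ψ _ (hϑ μ) f, h2, map_zero]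
  rw [hdec]
  refine Ideal.sum_mem _ fun μ _ => Ideal.mul_mem_left _ _ ?_
  exact Ideal.mem_map_of_mem _ (hin μ)

/-- PEX. -/
theorem p_PEX (_hMDL : Stmt_MDL) : Stmt_PEX := by
  classical
  intro Ω σ _ _ _ τ p hp
  let _ : Algebra Ω ℂ := τ.toAlgebra
  have hτ : ∀ (a : Ω) (b : ℂ), a • b = τ a * b := fun a b => rfl
  have hlin : ∀ (ϑ : ℂ →ₗ[Ω] Ω) (x : ℂ) (c : Ω),
      ϑ.toAddMonoidHom (x * τ c) = ϑ.toAddMonoidHom x * c := by
    intro ϑ x c
    show ϑ (x * τ c) = ϑ x * c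
    rw [mul_comm x, ← hτ, map_smul, smul_eq_mul, mul_comm]
  have second : ∀ g : MvPolynomial σ Ω, map τ g ∈ p.map (map τ) → g ∈ p := by
    intro g hg
    have hinj : LinearMap.ker (Algebra.linearMap Ω ℂ) = ⊥ :=
      LinearMap.ker_eq_bot.2 τ.injective
    obtain ⟨ϑ, hϑ⟩ := LinearMap.exists_leftInverse_of_injective (Algebra.linearMap Ω ℂ) hinj
    have h1 := MDL_ideal τ ϑ.toAddMonoidHom (hlin ϑ) p _ hg
    have h2 : MDL_th ϑ.toAddMonoidHom (map τ g) = g := by
      ext m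
      rw [MDL_coeff, coeff_map]
      exact LinearMap.congr_fun hϑ (coeff m g)
    rwa [h2] at h1
  refine ⟨⟨?_, ?_⟩, second⟩
  · intro htop
    apply hp.ne_top
    rw [Ideal.eq_top_iff_one]
    apply second
    rw [htop]
    exact Submodule.mem_top
  · intro f g hfg
    by_contra hc
    push Not at hc
    obtain ⟨hf, hg⟩ := hc
    obtain ⟨ψ, hψ, ha⟩ := PEX_det τ p f hf
    obtain ⟨ψ', hψ', ha'⟩ := PEX_det τ p g hg
    set a := ∑ m ∈ f.support, coeff m f * τ (ψ (monomial m 1)) with hadef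
    set a' := ∑ m ∈ g.support, coeff m g * τ (ψ' (monomial m 1)) with hadef'
    let T : Finset ℂ := f.support.image (fun m => coeff m f) ∪ g.support.image (fun m => coeff m g)
    let B : Subalgebra Ω ℂ := Algebra.adjoin Ω (T : Set ℂ)
    have hTB : ∀ x ∈ T, x ∈ B := fun x hx => Algebra.subset_adjoin hx
    have hBf : ∀ m, coeff m f ∈ B := by
      intro m
      by_cases hm : m ∈ f.support
      · exact hTB _ (Finset.mem_union_left _ (Finset.mem_image_of_mem _ hm))
      · rw [notMem_support_iff.1 hm]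
        exact B.zero_mem
    have hBg : ∀ m, coeff m g ∈ B := by
      intro m
      by_cases hm : m ∈ g.support
      · exact hTB _ (Finset.mem_union_right _ (Finset.mem_image_of_mem _ hm))
      · rw [notMem_support_iff.1 hm]
        exact B.zero_mem
    have hBτ : ∀ c : Ω, τ c ∈ B := fun c => B.algebraMap_mem c
    have haB : a ∈ B := B.sum_mem fun m _ => B.mul_mem (hBf m) (hBτ _)
    have haB' : a' ∈ B := B.sum_mem fun m _ => B.mul_mem (hBg m) (hBτ _)
    have hFT : Algebra.FiniteType Ω B :=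
      (Subalgebra.fg_iff_finiteType B).1 (Subalgebra.fg_adjoin_finset T)
    have hs : (⟨a, haB⟩ * ⟨a', haB'⟩ : B) ≠ 0 := by
      refine mul_ne_zero ?_ ?_
      · intro h
        exact ha (congrArg Subtype.val h)
      · intro h
        exact ha' (congrArg Subtype.val h)
    obtain ⟨θ, hθ⟩ := PEX_nul (Ω := Ω) _ hs
    rw [map_mul] at hθ
    have hinj : LinearMap.ker B.val.toLinearMap = ⊥ :=
      LinearMap.ker_eq_bot.2 Subtype.val_injective
    obtain ⟨r, hr⟩ := LinearMap.exists_leftInverse_of_injective B.val.toLinearMap hinj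
    let ϑ : ℂ →ₗ[Ω] Ω := θ.toLinearMap.comp r
    have hϑB : ∀ x (hx : x ∈ B), ϑ x = θ ⟨x, hx⟩ := by
      intro x hx
      show θ (r x) = θ ⟨x, hx⟩
      have h1 := LinearMap.congr_fun hr ⟨x, hx⟩
      exact congrArg θ h1
    have hmul : MDL_th ϑ.toAddMonoidHom (f * g) =
        MDL_th ϑ.toAddMonoidHom f * MDL_th ϑ.toAddMonoidHom g := by
      ext m
      rw [MDL_coeff, coeff_mul, coeff_mul, map_sum]
      refine Finset.sum_congr rfl fun q _ => ?_
      rw [MDL_coeff, MDL_coeff]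
      show ϑ (coeff q.1 f * coeff q.2 g) = ϑ (coeff q.1 f) * ϑ (coeff q.2 g)
      rw [hϑB _ (hBf q.1), hϑB _ (hBg q.2), hϑB _ (B.mul_mem (hBf q.1) (hBg q.2)), ← map_mul]
      rfl
    have hmem := MDL_ideal τ ϑ.toAddMonoidHom (hlin ϑ) p _ hfg
    rw [hmul] at hmem
    rcases hp.mem_or_mem hmem with h | h
    · have h1 := hψ _ h
      rw [PEX_psi τ ψ _ (hlin ϑ) f] at h1
      have h2 : θ ⟨a, haB⟩ = 0 := by
        rw [← hϑB a haB]
        exact h1
      exact hθ (by rw [h2, zero_mul])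
    · have h1 := hψ' _ h
      rw [PEX_psi τ ψ' _ (hlin ϑ) g] at h1
      have h2 : θ ⟨a', haB'⟩ = 0 := by
        rw [← hϑB a' haB']
        exact h1
      exact hθ (by rw [h2, mul_zero])

end Pool.MPY
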