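import Pool.Agent.Work.MP_f82ddf_Y.Interface

set_option autoImplicit false

/-! # Block PL1 of THEOREM T (MP_f82ddf_nt) -/

namespace Pool.MPY

open MvPolynomial
open Pool.Agent.Work.MP_f82ddf_M5 (lineAt resAt chow at2 comb Data)
open Pool.ThmM (NonProp HypData LastMonic)
open Pool.MPL (RX NC aq ae NPr Spn inc f0 fR gR)
open Pool.MPW (pv OrdGE)

/-- A specialisation of finitely or infinitely many elements of `F` extends to a place. -/
theorem PL1_place {F : Type} [Field F] [Algebra ℂ F] {σ : Type} (a : σ → F) (a₀ : σ → ℂ)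
    (h : ∀ H : MvPolynomial σ ℂ, aeval a H = 0 → eval a₀ H = 0) :
    ∃ V : ValuationSubring F, (∀ z : ℂ, algebraMap ℂ F z ∈ V) ∧ (∀ i, a i ∈ V) ∧
      (∀ i, a i - algebraMap ℂ F (a₀ i) ∈ V.nonunits) := by
  classical
  set A : Subring F := (aeval a : MvPolynomial σ ℂ →ₐ[ℂ] F).toRingHom.range with hA
  set φ : MvPolynomial σ ℂ →+* A := (aeval a : MvPolynomial σ ℂ →ₐ[ℂ] F).toRingHom.rangeRestrict
    with hφ
  have hφs : Function.Surjective φ := RingHom.rangeRestrict_surjective _
  have hφv : ∀ H, ((φ H : A) : F) = aeval a H := fun H => rfl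
  set I : Ideal A := Ideal.map φ (RingHom.ker (eval a₀)) with hI
  have hI1 : I ≠ ⊤ := by
    intro htop
    have h1 : (1 : A) ∈ I := by rw [htop]; exact Submodule.mem_top
    rw [hI, Ideal.mem_map_iff_of_surjective φ hφs] at h1
    obtain ⟨H, hH, hH1⟩ := h1
    have h2 : aeval a (H - 1) = 0 := by
      have h3 := hφv H
      rw [hH1] at h3
      rw [map_sub, ← h3, map_one]
      simp
    have h4 := h _ h2
    rw [RingHom.mem_ker] at hH
    rw [map_sub, hH, map_one] at h4
    norm_num at h4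
  obtain ⟨V, hV1, hV2⟩ := Ideal.image_subset_nonunits_valuationSubring I hI1
  refine ⟨V, fun z => ?_, fun i => ?_, fun i => ?_⟩
  · apply hV1
    refine ⟨C z, ?_⟩
    simp
  · apply hV1
    refine ⟨X i, ?_⟩
    simp
  · apply hV2
    refine ⟨φ (X i - C (a₀ i)), ?_, ?_⟩
    · apply Ideal.mem_map_of_mem
      rw [RingHom.mem_ker]
      simp
    · show ((φ (X i - C (a₀ i)) : A) : F) = _
      rw [hφv]
      simp

/-- PL1. -/
theorem p_PL1 (hNPL : Stmt_NPL) : Stmt_PL1 := by
  classical
  intro F _ _ w m r β Q A v v₀ L u c p y η hQ hQ0 hHmg hp hη hrel hc hA hz j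
  set Y : Fin β → F := fun i => ∑ l, algebraMap ℂ F (y i l) * η l with hY
  set E : IntermediateField ℂ F := IntermediateField.adjoin ℂ (Set.range v ∪ Set.range Y) with hE
  by_contra htr
  have hvE : ∀ i, v i ∈ E := fun i => IntermediateField.subset_adjoin _ _ (Or.inl ⟨i, rfl⟩)
  have hYE : ∀ i, Y i ∈ E := fun i => IntermediateField.subset_adjoin _ _ (Or.inr ⟨i, rfl⟩)
  have ht0 : η j ≠ 0 := by
    intro h0
    apply htr
    rw [h0]
    exact isAlgebraic_zero
  have hinv : ¬ IsAlgebraic E (η j)⁻¹ := by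
    intro h
    apply htr
    exact IsAlgebraic.inv_iff.mp h
  -- the elements and their specialisations
  set a : Fin (w + 2) ⊕ Option (Fin β) → F :=
    Sum.elim v (fun o => o.elim (η j)⁻¹ (fun i => Y i * (η j)⁻¹)) with ha
  set a₀ : Fin (w + 2) ⊕ Option (Fin β) → ℂ := Sum.elim v₀ (fun _ => 0) with ha₀
  have hspec : ∀ H : MvPolynomial (Fin (w + 2) ⊕ Option (Fin β)) ℂ, aeval a H = 0 →
      eval a₀ H = 0 := by
    intro H hH
    set b : Fin (w + 2) ⊕ Option (Fin β) → Polynomial E :=
      Sum.elim (fun i => Polynomial.C (⟨v i, hvE i⟩ : E))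
        (fun o => o.elim Polynomial.X
          (fun i => Polynomial.C (⟨Y i, hYE i⟩ : E) * Polynomial.X)) with hb
    set Pz : Polynomial E := aeval b H with hPz
    have e1 : ((Polynomial.aeval ((η j)⁻¹) : Polynomial E →ₐ[E] F).restrictScalars ℂ).comp
        (aeval b) = (aeval a : MvPolynomial (Fin (w + 2) ⊕ Option (Fin β)) ℂ →ₐ[ℂ] F) := by
      apply MvPolynomial.algHom_ext
      intro i
      rcases i with i | (_ | i)
      · simp [hb, ha]
      · simp [hb, ha]
      · simp [hb, ha]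
    have e2 : Polynomial.aeval ((η j)⁻¹) Pz = 0 := by
      have := congrArg (fun f => f H) e1
      simp only [AlgHom.comp_apply, AlgHom.restrictScalars_apply] at this
      rw [hPz, this, hH]
    have e3 : Pz = 0 := by
      by_contra hne
      exact hinv ⟨Pz, hne, e2⟩
    set G : MvPolynomial (Fin (w + 2)) ℂ :=
      aeval (Sum.elim X (fun _ => 0) : Fin (w + 2) ⊕ Option (Fin β) → _) H with hG
    have e4 : ((Polynomial.aeval (0 : F) : Polynomial E →ₐ[E] F).restrictScalars ℂ).comp
        (aeval b) = (aeval v : MvPolynomial (Fin (w + 2)) ℂ →ₐ[ℂ] F).comp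
          (aeval (Sum.elim X (fun _ => 0) : Fin (w + 2) ⊕ Option (Fin β) → _)) := by
      apply MvPolynomial.algHom_ext
      intro i
      rcases i with i | (_ | i)
      · simp [hb]
      · simp [hb]
      · simp [hb]
    have e5 : aeval v G = 0 := by
      have := congrArg (fun f => f H) e4
      simp only [AlgHom.comp_apply, AlgHom.restrictScalars_apply] at this
      rw [hG, ← this, ← hPz, e3, map_zero]
    obtain ⟨G', hG'⟩ := hQ _ e5
    have e6 : eval v₀ G = eval a₀ H := by
      have h7 : ((aeval v₀ : MvPolynomial (Fin (w + 2)) ℂ →ₐ[ℂ] ℂ).comp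
          (aeval (Sum.elim X (fun _ => 0) : Fin (w + 2) ⊕ Option (Fin β) → _))) =
          (aeval a₀ : MvPolynomial (Fin (w + 2) ⊕ Option (Fin β)) ℂ →ₐ[ℂ] ℂ) := by
        apply MvPolynomial.algHom_ext
        intro i
        rcases i with i | (_ | i) <;> simp [ha₀]
      have h8 := congrArg (fun f => f H) h7
      simp only [AlgHom.comp_apply] at h8
      rw [← hG] at h8
      simpa [MvPolynomial.coe_aeval_eq_eval] using h8
    rw [← e6, hG', map_mul, hQ0, zero_mul]
  obtain ⟨V, hV0, -, hV2⟩ := PL1_place a a₀ hspec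
  have hVv : ∀ i, v i - algebraMap ℂ F (v₀ i) ∈ V.nonunits := by
    intro i
    have := hV2 (Sum.inl i)
    simpa [ha, ha₀] using this
  have hVY : ∀ i, Y i * (η j)⁻¹ ∈ V.nonunits := by
    intro i
    have := hV2 (Sum.inr (some i))
    simpa [ha, ha₀] using this
  obtain ⟨i, hi0, hi⟩ := hNPL F w m r β A v v₀ L u c p y η V hHmg hp hη hrel hc hA hz hV0 hVv
  have h1 : η j / Y i ∈ V := hi j
  have h2 := hVY i
  have hYi : Y i ≠ 0 := hi0
  rw [ValuationSubring.mem_nonunits_iff] at h2
  rw [← ValuationSubring.valuation_le_one_iff] at h1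
  have h3 : V.valuation ((η j / Y i) * (Y i * (η j)⁻¹)) < 1 := by
    rw [map_mul]
    calc V.valuation (η j / Y i) * V.valuation (Y i * (η j)⁻¹)
        ≤ 1 * V.valuation (Y i * (η j)⁻¹) := mul_le_mul_left h1 _
      _ < 1 := by rw [one_mul]; exact h2
  have h4 : (η j / Y i) * (Y i * (η j)⁻¹) = 1 := by
    field_simp
  rw [h4, map_one] at h3
  exact lt_irrefl _ h3

end Pool.MPY
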