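import Pool.Agent.Work.MP_f82ddf_Y.Interface

set_option autoImplicit false

/-! # THEOREM T (MP_f82ddf_nt), block PL2 (helper79): the place at which the linear forms are generic -/

namespace Pool.MPY

open MvPolynomial

/-- Two homomorphisms `Φ` to a field and `Ψ` to a domain, with `ker Φ ≤ ker Ψ`: there is a valuation
subring which contains the image of `Φ` and whose maximal ideal has the preimage `ker Ψ`. -/
theorem PL2_place {P F D : Type} [CommRing P] [Field F] [CommRing D] [IsDomain D]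
    (Φ : P →+* F) (Ψ : P →+* D) (hker : ∀ N, Φ N = 0 → Ψ N = 0) :
    ∃ V : ValuationSubring F, (∀ N, Φ N ∈ V) ∧ (∀ N, Ψ N = 0 → Φ N ∈ V.nonunits) ∧
      ∀ N, Ψ N ≠ 0 → Φ N ∉ V.nonunits := by
  let A : Subring F :=
    { carrier := {f | ∃ N H : P, Ψ H ≠ 0 ∧ f * Φ H = Φ N}
      mul_mem' := by
        rintro f g ⟨N₁, H₁, h1, e1⟩ ⟨N₂, H₂, h2, e2⟩
        refine ⟨N₁ * N₂, H₁ * H₂, ?_, ?_⟩
        · rw [map_mul]
          exact mul_ne_zero h1 h2
        · rw [map_mul, map_mul, ← e1, ← e2]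
          ring
      one_mem' := ⟨1, 1, by rw [map_one]; exact one_ne_zero, by rw [map_one, mul_one]⟩
      add_mem' := by
        rintro f g ⟨N₁, H₁, h1, e1⟩ ⟨N₂, H₂, h2, e2⟩
        refine ⟨N₁ * H₂ + N₂ * H₁, H₁ * H₂, ?_, ?_⟩
        · rw [map_mul]
          exact mul_ne_zero h1 h2
        · rw [map_mul, map_add, map_mul, map_mul, ← e1, ← e2]
          ring
      zero_mem' := ⟨0, 1, by rw [map_one]; exact one_ne_zero, by rw [map_zero, zero_mul]⟩
      neg_mem' := by
        rintro f ⟨N₁, H₁, h1, e1⟩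
        refine ⟨-N₁, H₁, h1, ?_⟩
        rw [map_neg, ← e1]
        ring }
  let I : Ideal A :=
    { carrier := {f | ∃ N H : P, Ψ H ≠ 0 ∧ (f : F) * Φ H = Φ N ∧ Ψ N = 0}
      add_mem' := by
        rintro f g ⟨N₁, H₁, h1, e1, z1⟩ ⟨N₂, H₂, h2, e2, z2⟩
        refine ⟨N₁ * H₂ + N₂ * H₁, H₁ * H₂, ?_, ?_, ?_⟩
        · rw [map_mul]
          exact mul_ne_zero h1 h2
        · rw [map_mul, map_add, map_mul, map_mul, ← e1, ← e2]
          push_cast
          ring
        · rw [map_add, map_mul, map_mul, z1, z2, zero_mul, zero_mul, add_zero]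
      zero_mem' := ⟨0, 1, by rw [map_one]; exact one_ne_zero,
        by rw [map_zero, ZeroMemClass.coe_zero, zero_mul], map_zero _⟩
      smul_mem' := by
        rintro ⟨f, N₁, H₁, h1, e1⟩ g ⟨N₂, H₂, h2, e2, z2⟩
        refine ⟨N₁ * N₂, H₁ * H₂, ?_, ?_, ?_⟩
        · rw [map_mul]
          exact mul_ne_zero h1 h2
        · rw [map_mul, map_mul]
          change f * (g : F) * (Φ H₁ * Φ H₂) = Φ N₁ * Φ N₂
          linear_combination (g : F) * Φ H₂ * e1 + Φ N₁ * e2
        · rw [map_mul, z2, mul_zero] }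
  have hI : I ≠ ⊤ := by
    intro h
    have h1 : (1 : A) ∈ I := by
      rw [h]
      exact Submodule.mem_top
    obtain ⟨N, H, h2, h3, h4⟩ := h1
    have h5 : Φ (H - N) = 0 := by
      rw [map_sub, ← h3, OneMemClass.coe_one, one_mul, sub_self]
    have h6 := hker _ h5
    rw [map_sub, h4, sub_zero] at h6
    exact h2 h6
  obtain ⟨V, hAV, hIV⟩ := Ideal.image_subset_nonunits_valuationSubring I hI
  have hone : Ψ 1 ≠ 0 := by
    rw [map_one]
    exact one_ne_zero
  have hA : ∀ N, Φ N ∈ A := fun N => ⟨N, 1, hone, by rw [map_one, mul_one]⟩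
  refine ⟨V, fun N => hAV (hA N), fun N hN => ?_, fun N hN hmem => ?_⟩
  · exact hIV ⟨⟨Φ N, hA N⟩, ⟨N, 1, hone, by rw [map_one, mul_one], hN⟩, rfl⟩
  · have h0 : Φ N ≠ 0 := fun h => hN (hker N h)
    have h1 : (Φ N)⁻¹ ∈ A := ⟨1, N, hN, by rw [inv_mul_cancel₀ h0, map_one]⟩
    have h2 : (Φ N)⁻¹ ∈ V := hAV h1
    rcases (V.mem_nonunits_iff_or).mp hmem with h3 | h3
    · exact h0 h3
    · exact h3 h2

/-- PL2 -/
theorem p_PL2 (hNPL : Stmt_NPL) : Stmt_PL2 := by
  intro F _ _ w m r β Q A v v₀ L u c p y η hQ hQ0 hp hpη hη hrel hc hA hz hY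
  set Y : Fin β → F := fun i => ∑ l, algebraMap ℂ F (y i l) * η l with hYdef
  let Φ : MvPolynomial (Fin β) (MvPolynomial (Fin (w + 2)) ℂ) →+* F :=
    eval₂Hom ((aeval v : MvPolynomial (Fin (w + 2)) ℂ →ₐ[ℂ] F) :
      MvPolynomial (Fin (w + 2)) ℂ →+* F) Y
  let Ψ : MvPolynomial (Fin β) (MvPolynomial (Fin (w + 2)) ℂ) →+* MvPolynomial (Fin β) ℂ :=
    map (eval v₀)
  have hker : ∀ N, Φ N = 0 → Ψ N = 0 := by
    intro N hN
    let v' : Fin (w + 2) → IntermediateField.adjoin ℂ (Set.range v) := fun j =>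
      ⟨v j, IntermediateField.subset_adjoin ℂ _ (Set.mem_range_self j)⟩
    let ψ : MvPolynomial (Fin (w + 2)) ℂ →+* IntermediateField.adjoin ℂ (Set.range v) :=
      (aeval v').toRingHom
    have hcomp : (algebraMap (IntermediateField.adjoin ℂ (Set.range v)) F).comp ψ =
        ((aeval v : MvPolynomial (Fin (w + 2)) ℂ →ₐ[ℂ] F) :
          MvPolynomial (Fin (w + 2)) ℂ →+* F) := by
      refine MvPolynomial.ringHom_ext (fun a => ?_) (fun j => ?_)
      · change algebraMap _ F (aeval v' (C a)) = aeval v (C a)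
        rw [aeval_C, aeval_C]
        rfl
      · change algebraMap _ F (aeval v' (X j)) = aeval v (X j)
        rw [aeval_X, aeval_X]
        rfl
    have h1 : aeval Y (map ψ N) = 0 := by
      rw [aeval_def, eval₂_map, hcomp]
      exact hN
    have h2 := (algebraicIndependent_iff.mp hY) _ h1
    ext μ
    have h3 := congrArg (coeff μ) h2
    rw [coeff_map, coeff_zero] at h3
    change aeval v' (coeff μ N) = 0 at h3
    have h4 : aeval v (coeff μ N) = 0 := by
      have h5 := congrArg (fun g : MvPolynomial (Fin (w + 2)) ℂ →+* F => g (coeff μ N)) hcomp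
      change algebraMap _ F (aeval v' (coeff μ N)) = aeval v (coeff μ N) at h5
      rw [← h5, h3, map_zero]
    obtain ⟨G, hG⟩ := hQ _ h4
    change coeff μ (map (eval v₀) N) = coeff μ 0
    rw [coeff_map, coeff_zero, hG, map_mul, hQ0, zero_mul]
  obtain ⟨V, hV1, hV2, hV3⟩ := PL2_place Φ Ψ hker
  have hVC : ∀ a : ℂ, algebraMap ℂ F a ∈ V := by
    intro a
    have h1 := hV1 (C (C a))
    change eval₂ _ Y (C (C a)) ∈ V at h1
    rw [eval₂_C, RingHom.coe_coe, aeval_C] at h1
    exact h1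
  have hVv : ∀ j, v j - algebraMap ℂ F (v₀ j) ∈ V.nonunits := by
    intro j
    have h1 := hV2 (C (X j - C (v₀ j))) (by
      change map (eval v₀) (C (X j - C (v₀ j))) = 0
      rw [map_C, map_sub, eval_X, eval_C, sub_self, map_zero])
    change eval₂ _ Y (C (X j - C (v₀ j))) ∈ V.nonunits at h1
    rw [eval₂_C, RingHom.coe_coe, map_sub, aeval_X, aeval_C] at h1
    exact h1
  refine ⟨V, hVC, hVv, ?_, ?_⟩
  · obtain ⟨i, hi0, hi⟩ := hNPL F w m r β A v v₀ L u c p y η V hp hpη hη hrel hc hA hz hVC hVv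
    intro j
    have h1 : Y i ∈ V := by
      have h2 := hV1 (X i)
      change eval₂ _ Y (X i) ∈ V at h2
      rw [eval₂_X] at h2
      exact h2
    have h3 : η j = (η j / Y i) * Y i := (div_mul_cancel₀ (η j) hi0).symm
    rw [h3]
    exact mul_mem (hi j) h1
  · intro H hH
    have h1 := hV3 (map C H) (by
      change map (eval v₀) (map C H) ≠ 0
      rw [map_map]
      have h2 : (eval v₀).comp (C : ℂ →+* MvPolynomial (Fin (w + 2)) ℂ) = RingHom.id ℂ := by
        ext a
        rw [RingHom.comp_apply, eval_C, RingHom.id_apply]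
      rw [h2, map_id]
      exact hH)
    change eval₂ _ Y (map C H) ∉ V.nonunits at h1
    rw [eval₂_map] at h1
    have h2 : ((aeval v : MvPolynomial (Fin (w + 2)) ℂ →ₐ[ℂ] F) :
        MvPolynomial (Fin (w + 2)) ℂ →+* F).comp C = algebraMap ℂ F := by
      ext a
      rw [RingHom.comp_apply, RingHom.coe_coe, aeval_C]
    rw [h2] at h1
    exact h1

end Pool.MPY
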