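import Pool.Agent.Work.MP_f82ddf_Y.Interface3

set_option autoImplicit false

/-! # THEOREM T (MP_f82ddf_nt), block QNM: the components are not the vertex of the cone -/

namespace Pool.MPY

open MvPolynomial

/-- The homomorphism `X_j ↦ z_j T`. -/
noncomputable def QNM_ev {Ω : Type} [Field Ω] {b : ℕ} (z : Fin b → Ω) :
    MvPolynomial (Fin b) Ω →ₐ[Ω] Polynomial Ω :=
  aeval fun j => Polynomial.C (z j) * Polynomial.X

theorem QNM_hom {Ω : Type} [Field Ω] {b n : ℕ} (z : Fin b → Ω) {f : MvPolynomial (Fin b) Ω}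
    (hf : f.IsHomogeneous n) :
    QNM_ev z f = Polynomial.C (eval z f) * Polynomial.X ^ n := by
  rw [QNM_ev, aeval_def, eval₂_eq', eval_eq', map_sum, Finset.sum_mul]
  refine Finset.sum_congr rfl fun d hd => ?_
  have h1 : ∑ i, d i = n := by
    have := hf (mem_support_iff.1 hd)
    rw [← this, Finsupp.weight_apply, Finsupp.sum_fintype _ _ (fun i => by simp)]
    simp
  simp_rw [mul_pow]
  rw [Finset.prod_mul_distrib, Finset.prod_pow_eq_pow_sum, h1, Polynomial.algebraMap_eq,
    map_mul, map_prod]
  simp_rw [map_pow]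
  ring

theorem QNM_sum {Ω : Type} [Field Ω] {b : ℕ} (z : Fin b → Ω) (f : MvPolynomial (Fin b) Ω) :
    QNM_ev z f = ∑ n ∈ Finset.range (f.totalDegree + 1),
      Polynomial.C (eval z (homogeneousComponent n f)) * Polynomial.X ^ n := by
  conv_lhs => rw [← sum_homogeneousComponent f]
  rw [map_sum]
  exact Finset.sum_congr rfl fun n _ => QNM_hom z (homogeneousComponent_isHomogeneous n f)

theorem p_QNM (hHYF : Stmt_HYF) : Stmt_QNM := by
  intro Ω _ _ m e p F hp hh hind he hF q hq
  obtain ⟨z, hz, hzp, hzF⟩ := hHYF Ω m e p hp hh hind he F hF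
  obtain ⟨i, hi⟩ := Function.ne_iff.1 hz
  by_contra hcon
  push Not at hcon
  have hPprime : (RingHom.ker (QNM_ev z)).IsPrime := RingHom.ker_isPrime _
  have hle : p ⊔ Ideal.span {F} ≤ RingHom.ker (QNM_ev z) := by
    apply sup_le
    · intro f hf
      rw [RingHom.mem_ker, QNM_sum]
      exact Finset.sum_eq_zero fun n _ => by rw [hzp _ (hh f hf n), map_zero, zero_mul]
    · rw [Ideal.span_singleton_le_iff_mem, RingHom.mem_ker, QNM_hom z hF, hzF, map_zero,
        zero_mul]
  have hXi : X i ∉ RingHom.ker (QNM_ev z) := by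
    rw [RingHom.mem_ker, QNM_hom z (isHomogeneous_X Ω i), eval_X, pow_one]
    exact mul_ne_zero (by rw [Ne, Polynomial.C_eq_zero]; exact hi) Polynomial.X_ne_zero
  have hPq : RingHom.ker (QNM_ev z) ≤ q := by
    intro f hf
    rw [RingHom.mem_ker, QNM_sum] at hf
    have h0 : eval z (homogeneousComponent 0 f) = 0 := by
      have h1 := congrArg (fun P => Polynomial.coeff P 0) hf
      simp only [Polynomial.finsetSum_coeff, Polynomial.coeff_C_mul_X_pow,
        Polynomial.coeff_zero] at h1
      rw [Finset.sum_ite_eq (Finset.range (f.totalDegree + 1)) 0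
        (fun n => eval z (homogeneousComponent n f)),
        if_pos (Finset.mem_range.2 (Nat.succ_pos _))] at h1
      exact h1
    rw [homogeneousComponent_zero, eval_C] at h0
    have h2 : f ∈ Ideal.span (Set.range (X : Fin (m + 1) → MvPolynomial (Fin (m + 1)) Ω)) := by
      rw [← Set.image_univ, MvPolynomial.mem_ideal_span_X_image]
      intro d hd
      by_contra h3
      push Not at h3
      have h4 : d = 0 := by
        ext a
        exact h3 a (Set.mem_univ a)
      rw [mem_support_iff, h4] at hd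
      exact hd h0
    refine (Ideal.span_le.2 ?_ : Ideal.span (Set.range (X : Fin (m + 1) →
      MvPolynomial (Fin (m + 1)) Ω)) ≤ q) h2
    rintro _ ⟨a, rfl⟩
    exact hcon a
  have h5 := hq.2 ⟨hPprime, hle⟩ hPq
  exact hXi (h5 (hcon i))

end Pool.MPY
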