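import Pool.Agent.Work.MP_f82ddf_Y.Interface

set_option autoImplicit false

/-! # THEOREM T, block RGB: the derivation maps the local ring of `q` to itself -/

namespace Pool.MPY

open MvPolynomial

section RGB

variable {F : Type} [Field F] [Algebra ℂ F] {m : ℕ}

/-- elements of the local ring -/
def RGB_R (q : Ideal (MvPolynomial (Fin (m + 1)) ℂ)) (η : Fin (m + 1) → F) (x : F) : Prop :=
  ∃ f h : MvPolynomial (Fin (m + 1)) ℂ, h ∉ q ∧ x * aeval η h = aeval η f

/-- elements of the maximal ideal -/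
def RGB_M (q : Ideal (MvPolynomial (Fin (m + 1)) ℂ)) (η : Fin (m + 1) → F) (x : F) : Prop :=
  ∃ f h : MvPolynomial (Fin (m + 1)) ℂ, f ∈ q ∧ h ∉ q ∧ x * aeval η h = aeval η f

variable {q : Ideal (MvPolynomial (Fin (m + 1)) ℂ)} {η : Fin (m + 1) → F}

theorem RGB_mulne (hq : q.IsPrime) {h h' : MvPolynomial (Fin (m + 1)) ℂ} (h1 : h ∉ q)
    (h2 : h' ∉ q) : h * h' ∉ q := fun h3 => (hq.mem_or_mem h3).elim h1 h2

theorem RGB_Radd (hq : q.IsPrime) {x y : F} (hx : RGB_R q η x) (hy : RGB_R q η y) :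
    RGB_R q η (x + y) := by
  obtain ⟨f, h, hh, h1⟩ := hx
  obtain ⟨f', h', hh', h2⟩ := hy
  refine ⟨f * h' + f' * h, h * h', RGB_mulne hq hh hh', ?_⟩
  rw [map_add, map_mul, map_mul, map_mul, ← h1, ← h2]
  ring

theorem RGB_Rmul (hq : q.IsPrime) {x y : F} (hx : RGB_R q η x) (hy : RGB_R q η y) :
    RGB_R q η (x * y) := by
  obtain ⟨f, h, hh, h1⟩ := hx
  obtain ⟨f', h', hh', h2⟩ := hy
  refine ⟨f * f', h * h', RGB_mulne hq hh hh', ?_⟩
  rw [map_mul, map_mul, ← h1, ← h2]
  ring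

theorem RGB_Rneg {x : F} (hx : RGB_R q η x) : RGB_R q η (-x) := by
  obtain ⟨f, h, hh, h1⟩ := hx
  refine ⟨-f, h, hh, ?_⟩
  rw [map_neg, ← h1]
  ring

theorem RGB_Rof (hq : q.IsPrime) (f : MvPolynomial (Fin (m + 1)) ℂ) :
    RGB_R q η (aeval η f) :=
  ⟨f, 1, (Ideal.ne_top_iff_one q).1 hq.ne_top, by rw [map_one, mul_one]⟩

theorem RGB_Rpow (hq : q.IsPrime) {x : F} (hx : RGB_R q η x) (n : ℕ) : RGB_R q η (x ^ n) := by
  induction n with
  | zero =>
    rw [pow_zero]
    have := RGB_Rof (η := η) hq (1 : MvPolynomial (Fin (m + 1)) ℂ)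
    rwa [map_one] at this
  | succ n ih =>
    rw [pow_succ]
    exact RGB_Rmul hq ih hx

theorem RGB_Madd (hq : q.IsPrime) {x y : F} (hx : RGB_M q η x) (hy : RGB_M q η y) :
    RGB_M q η (x + y) := by
  obtain ⟨f, h, hf, hh, h1⟩ := hx
  obtain ⟨f', h', hf', hh', h2⟩ := hy
  refine ⟨f * h' + f' * h, h * h', q.add_mem (q.mul_mem_right _ hf) (q.mul_mem_right _ hf'),
    RGB_mulne hq hh hh', ?_⟩
  rw [map_add, map_mul, map_mul, map_mul, ← h1, ← h2]
  ring

theorem RGB_Mneg {x : F} (hx : RGB_M q η x) : RGB_M q η (-x) := by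
  obtain ⟨f, h, hf, hh, h1⟩ := hx
  refine ⟨-f, h, q.neg_mem hf, hh, ?_⟩
  rw [map_neg, ← h1]
  ring

theorem RGB_Mmul (hq : q.IsPrime) {x y : F} (hx : RGB_M q η x) (hy : RGB_R q η y) :
    RGB_M q η (x * y) := by
  obtain ⟨f, h, hf, hh, h1⟩ := hx
  obtain ⟨f', h', hh', h2⟩ := hy
  refine ⟨f * f', h * h', q.mul_mem_right _ hf, RGB_mulne hq hh hh', ?_⟩
  rw [map_mul, map_mul, ← h1, ← h2]
  ring

theorem RGB_Mof (hq : q.IsPrime) {f : MvPolynomial (Fin (m + 1)) ℂ} (hf : f ∈ q) :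
    RGB_M q η (aeval η f) :=
  ⟨f, 1, hf, (Ideal.ne_top_iff_one q).1 hq.ne_top, by rw [map_one, mul_one]⟩

theorem RGB_Mcancel (hq : q.IsPrime) {h : MvPolynomial (Fin (m + 1)) ℂ} (hh : h ∉ q) {x : F}
    (hx : RGB_M q η (aeval η h * x)) : RGB_M q η x := by
  obtain ⟨f, h', hf, hh', h1⟩ := hx
  refine ⟨f, h * h', hf, RGB_mulne hq hh hh', ?_⟩
  rw [map_mul, ← h1]
  ring

theorem RGB_Rcancel (hq : q.IsPrime) {h : MvPolynomial (Fin (m + 1)) ℂ} (hh : h ∉ q) {x : F}
    (hx : RGB_R q η (aeval η h * x)) : RGB_R q η x := by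
  obtain ⟨f, h', hh', h1⟩ := hx
  refine ⟨f, h * h', RGB_mulne hq hh hh', ?_⟩
  rw [map_mul, ← h1]
  ring

/-- the chain rule -/
theorem RGB_chain (D : Derivation ℂ F F) {n : ℕ} (z : Fin n → F) (H : MvPolynomial (Fin n) ℂ) :
    D (aeval z H) = ∑ i, aeval z (pderiv i H) * D (z i) := by
  induction H using MvPolynomial.induction_on with
  | C a =>
    rw [aeval_C, D.map_algebraMap]
    symm
    exact Finset.sum_eq_zero (fun i _ => by rw [pderiv_C, map_zero, zero_mul])
  | add f g hf hg =>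
    rw [map_add, map_add, hf, hg, ← Finset.sum_add_distrib]
    exact Finset.sum_congr rfl (fun i _ => by rw [map_add, map_add, add_mul])
  | mul_X f j hf =>
    have h1 : ∀ i, aeval z (pderiv i (f * X j)) * D (z i) =
        z j * (aeval z (pderiv i f) * D (z i)) +
          aeval z f * (aeval z (pderiv i (X j : MvPolynomial (Fin n) ℂ)) * D (z i)) := by
      intro i
      rw [Derivation.leibniz, map_add, smul_eq_mul, smul_eq_mul, map_mul, map_mul, aeval_X]
      ring
    rw [Finset.sum_congr rfl (fun i _ => h1 i), Finset.sum_add_distrib, ← Finset.mul_sum,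
      ← Finset.mul_sum, ← hf, map_mul, aeval_X, Derivation.leibniz, smul_eq_mul, smul_eq_mul]
    have h2 : ∑ i, aeval z (pderiv i (X j : MvPolynomial (Fin n) ℂ)) * D (z i) = D (z j) := by
      rw [Finset.sum_eq_single j]
      · rw [pderiv_X_self, map_one, one_mul]
      · intro i _ hij
        rw [pderiv_X_of_ne (Ne.symm hij), map_zero, zero_mul]
      · intro h
        exact absurd (Finset.mem_univ j) h
    rw [h2]
    ring

theorem RGB_comp {n : ℕ} (g : Fin n → MvPolynomial (Fin (m + 1)) ℂ) (H : MvPolynomial (Fin n) ℂ) :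
    aeval η (aeval g H) = aeval (fun i => aeval η (g i)) H := by
  have h1 : (aeval η : MvPolynomial (Fin (m + 1)) ℂ →ₐ[ℂ] F).comp (aeval g) =
      aeval (fun i => aeval η (g i)) := by
    apply MvPolynomial.algHom_ext
    intro i
    rw [AlgHom.comp_apply, aeval_X, aeval_X]
  exact DFunLike.congr_fun h1 H

end RGB

theorem p_RGB : Stmt_RGA → Stmt_ORL → Stmt_MRL → Stmt_RGB := by
  classical
  intro hRGA hORL hMRL F _ _ m β p q t y η D hp hq hpq hη ht htp hloc hy hfy hdim hDt hDy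
  have ht0 : aeval η t ≠ 0 := fun h => htp ((hη t).1 h)
  have he0 : ∀ h ∉ q, aeval η h ≠ 0 := fun h hh h0 => hh (hpq ((hη h).1 h0))
  -- (1)
  have h1 : ∀ f : MvPolynomial (Fin (m + 1)) ℂ, ∃ a : ℕ,
      RGB_R q η (aeval η t ^ a * D (aeval η f)) := by
    intro f
    obtain ⟨f', g, hg, hfg⟩ := hRGA F m β p q t y η D hp hq hpq hη ht htp hy hdim hDt hDy f
    obtain ⟨a, g', h, hg', hh, hgh⟩ := hORL ℂ (Fin (m + 1)) p q t hp hq hpq ht htp hloc g hg
    refine ⟨a, h * f', g', hg', ?_⟩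
    have h2 : aeval η h * aeval η g - aeval η t ^ a * aeval η g' = 0 := by
      rw [← map_mul, ← map_pow, ← map_mul, ← map_sub]
      exact (hη _).2 hgh
    have h3 : aeval η t ^ a * aeval η g' = aeval η h * aeval η g := (sub_eq_zero.1 h2).symm
    calc aeval η t ^ a * D (aeval η f) * aeval η g'
        = D (aeval η f) * (aeval η t ^ a * aeval η g') := by ring
      _ = aeval η h * (D (aeval η f) * aeval η g) := by rw [h3]; ring
      _ = aeval η (h * f') := by rw [hfg, map_mul]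
  have hmono : ∀ (a b : ℕ) (x : F), a ≤ b → RGB_R q η (aeval η t ^ a * x) →
      RGB_R q η (aeval η t ^ b * x) := by
    intro a b x hab hx
    obtain ⟨c, rfl⟩ := Nat.exists_eq_add_of_le hab
    have h2 : aeval η t ^ (a + c) * x = aeval η t ^ c * (aeval η t ^ a * x) := by
      rw [pow_add]
      ring
    rw [h2]
    exact RGB_Rmul hq (RGB_Rpow hq (RGB_Rof hq t) c) hx
  have hex : ∃ a : ℕ, ∀ f : MvPolynomial (Fin (m + 1)) ℂ,
      RGB_R q η (aeval η t ^ a * D (aeval η f)) := by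
    choose b hb using fun i : Fin (m + 1) => h1 (X i)
    refine ⟨∑ i, b i, fun f => ?_⟩
    induction f using MvPolynomial.induction_on with
    | C c =>
      rw [aeval_C, D.map_algebraMap, mul_zero]
      have := RGB_Rof (η := η) hq (0 : MvPolynomial (Fin (m + 1)) ℂ)
      rwa [map_zero] at this
    | add f g hf hg =>
      rw [map_add, map_add, mul_add]
      exact RGB_Radd hq hf hg
    | mul_X f i hf =>
      rw [map_mul, Derivation.leibniz, smul_eq_mul, smul_eq_mul]
      have h2 : aeval η t ^ (∑ i, b i) * (aeval η f *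
          D (aeval η (X i : MvPolynomial (Fin (m + 1)) ℂ)) +
          aeval η (X i : MvPolynomial (Fin (m + 1)) ℂ) * D (aeval η f)) =
          aeval η f * (aeval η t ^ (∑ i, b i) *
            D (aeval η (X i : MvPolynomial (Fin (m + 1)) ℂ))) +
          aeval η (X i : MvPolynomial (Fin (m + 1)) ℂ) *
            (aeval η t ^ (∑ i, b i) * D (aeval η f)) := by ring
      rw [h2]
      exact RGB_Radd hq (RGB_Rmul hq (RGB_Rof hq f)
        (hmono _ _ _ (Finset.single_le_sum (fun _ _ => Nat.zero_le _) (Finset.mem_univ i)) (hb i)))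
        (RGB_Rmul hq (RGB_Rof hq _) hf)
  -- (2)
  have hstep : ∀ b : ℕ, (∀ f : MvPolynomial (Fin (m + 1)) ℂ,
      RGB_R q η (aeval η t ^ (b + 1) * D (aeval η f))) →
      ∀ f : MvPolynomial (Fin (m + 1)) ℂ, RGB_R q η (aeval η t ^ b * D (aeval η f)) := by
    intro b hb
    have hq1 : ∀ f ∈ q, RGB_M q η (aeval η t ^ (b + 1) * D (aeval η f)) := by
      intro f hf
      obtain ⟨h, hh, hhf⟩ := hloc f hf
      obtain ⟨π, hπ, r, hr, hsum⟩ := Submodule.mem_sup.1 hhf
      obtain ⟨g, hg⟩ := Ideal.mem_span_singleton'.1 hr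
      have h2 : aeval η h * aeval η f = aeval η t * aeval η g := by
        rw [← map_mul, ← hsum, map_add, (hη π).2 hπ, zero_add, ← hg, map_mul, mul_comm]
      have h3 := congrArg D h2
      rw [Derivation.leibniz, Derivation.leibniz, smul_eq_mul, smul_eq_mul, smul_eq_mul,
        smul_eq_mul, hDt] at h3
      have h4 : aeval η h * (aeval η t ^ (b + 1) * D (aeval η f)) =
          aeval η t * (aeval η t ^ (b + 1) * D (aeval η g)) +
          (aeval η t * (aeval η t ^ b * aeval η g) +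
          -(aeval η f * (aeval η t ^ (b + 1) * D (aeval η h)))) := by
        linear_combination (aeval η t ^ (b + 1)) * h3
      apply RGB_Mcancel hq hh
      rw [h4]
      exact RGB_Madd hq (RGB_Mmul hq (RGB_Mof hq ht) (hb g)) (RGB_Madd hq
        (RGB_Mmul hq (RGB_Mof hq ht) (RGB_Rmul hq (RGB_Rpow hq (RGB_Rof hq t) b) (RGB_Rof hq g)))
        (RGB_Mneg (RGB_Mmul hq (RGB_Mof hq hf) (hb h))))
    have hq2 : ∀ f : MvPolynomial (Fin (m + 1)) ℂ,
        RGB_M q η (aeval η t ^ (b + 1) * D (aeval η f)) := by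
      intro f
      obtain ⟨H, hH, hH'⟩ := hMRL ℂ (Fin (m + 1)) β q y f hy (hfy f)
      have h2 := hq1 _ hH
      have h3 : D (aeval η (aeval (Fin.cons f y : Fin (β + 1) → MvPolynomial (Fin (m + 1)) ℂ) H)) =
          aeval η (aeval (Fin.cons f y : Fin (β + 1) → MvPolynomial (Fin (m + 1)) ℂ)
            (pderiv 0 H)) * D (aeval η f) := by
        rw [RGB_comp, RGB_chain, Fin.sum_univ_succ, RGB_comp]
        have h4 : ∑ i : Fin β, aeval (fun i => aeval η ((Fin.cons f y :
            Fin (β + 1) → MvPolynomial (Fin (m + 1)) ℂ) i)) (pderiv i.succ H) *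
            D (aeval η ((Fin.cons f y : Fin (β + 1) → MvPolynomial (Fin (m + 1)) ℂ) i.succ)) = 0 :=
          Finset.sum_eq_zero (fun i _ => by rw [Fin.cons_succ, hDy, mul_zero])
        rw [h4, add_zero, Fin.cons_zero]
      rw [h3] at h2
      apply RGB_Mcancel hq hH'
      have h5 : aeval η (aeval (Fin.cons f y : Fin (β + 1) → MvPolynomial (Fin (m + 1)) ℂ)
            (pderiv 0 H)) * (aeval η t ^ (b + 1) * D (aeval η f)) =
          aeval η t ^ (b + 1) * (aeval η (aeval (Fin.cons f y :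
            Fin (β + 1) → MvPolynomial (Fin (m + 1)) ℂ) (pderiv 0 H)) * D (aeval η f)) := by
        ring
      rw [h5]
      exact h2
    intro f
    obtain ⟨f₁, h₁, hf₁, hh₁, hx⟩ := hq2 f
    obtain ⟨h, hh, hhf⟩ := hloc f₁ hf₁
    obtain ⟨π, hπ, r, hr, hsum⟩ := Submodule.mem_sup.1 hhf
    obtain ⟨g, hg⟩ := Ideal.mem_span_singleton'.1 hr
    have h2 : aeval η h * aeval η f₁ = aeval η t * aeval η g := by
      rw [← map_mul, ← hsum, map_add, (hη π).2 hπ, zero_add, ← hg, map_mul, mul_comm]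
    refine ⟨g, h * h₁, RGB_mulne hq hh hh₁, ?_⟩
    apply mul_left_cancel₀ ht0
    rw [← h2, ← hx, map_mul, pow_succ]
    ring
  have h0 : ∀ a : ℕ, (∀ f : MvPolynomial (Fin (m + 1)) ℂ,
      RGB_R q η (aeval η t ^ a * D (aeval η f))) →
      ∀ f : MvPolynomial (Fin (m + 1)) ℂ, RGB_R q η (D (aeval η f)) := by
    intro a
    induction a with
    | zero =>
      intro h f
      have := h f
      rwa [pow_zero, one_mul] at this
    | succ b ih => exact fun h => ih (hstep b h)
  obtain ⟨a, ha⟩ := hex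
  have hfin := h0 a ha
  -- quotients
  intro f h hh
  have hh0 : aeval η h ≠ 0 := he0 h hh
  have hx : aeval η f / aeval η h * aeval η h = aeval η f := div_mul_cancel₀ _ hh0
  have hxR : RGB_R q η (aeval η f / aeval η h) := ⟨f, h, hh, hx⟩
  have h2 := congrArg D hx
  rw [Derivation.leibniz, smul_eq_mul, smul_eq_mul] at h2
  have h3 : aeval η h * D (aeval η f / aeval η h) =
      D (aeval η f) + -(aeval η f / aeval η h * D (aeval η h)) := by
    linear_combination h2
  have h4 : RGB_R q η (D (aeval η f / aeval η h)) := by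
    apply RGB_Rcancel hq hh
    rw [h3]
    exact RGB_Radd hq (hfin f) (RGB_Rneg (RGB_Rmul hq hxR (hfin h)))
  obtain ⟨f', h', hh', h5⟩ := h4
  exact ⟨f', h', hh', h5⟩

end Pool.MPY
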