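import Pool.Agent.Work.MP_f82ddf_Y.Interface2

set_option autoImplicit false

/-! # Block SLY: many pairwise non proportional vectors (edit of MP_f82ddf_U/B_SLO.lean) -/

namespace Pool.MPY

open MvPolynomial
open Pool.MPL (NPr)

theorem p_SLY : Stmt_HYP → Stmt_SLY := by
  classical
  intro hHYP Ω _ _ m c N N₁ p l J hp hhom hf hc hJ hN
  have hnz : ∀ j ∈ J, l j ≠ 0 := by
    intro j hj h0
    apply hJ j hj
    have h1 : lf (l j) = 0 := by
      unfold lf
      rw [h0]
      refine Finset.sum_eq_zero fun i _ => ?_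
      rw [Pi.zero_apply, C_0, zero_mul]
    rw [h1]
    exact p.zero_mem
  set V : Finset (Fin (m + 1) → Ω) := (Finset.univ.filter fun j => j ∈ J).image l with hV
  set F : Finset (Finset (Fin (m + 1) → Ω)) :=
    V.powerset.filter (fun S => ∀ v ∈ S, ∀ v' ∈ S, v ≠ v' → NPr v v') with hF
  have hne : F.Nonempty := ⟨∅, by
    rw [hF, Finset.mem_filter]
    exact ⟨Finset.empty_mem_powerset _, by simp⟩⟩
  obtain ⟨S, hS, hmax⟩ := Finset.exists_max_image F Finset.card hne
  rw [hF, Finset.mem_filter, Finset.mem_powerset] at hS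
  obtain ⟨hSV, hSp⟩ := hS
  have hSu : ∀ v ∈ S, ∃ j ∈ J, l j = v := by
    intro v hv
    obtain ⟨j, hj, hjv⟩ := Finset.mem_image.1 (hSV hv)
    exact ⟨j, (Finset.mem_filter.1 hj).2, hjv⟩
  have hS0 : ∀ s ∈ S, s ≠ 0 := by
    intro s hs
    obtain ⟨j, hj, rfl⟩ := hSu s hs
    exact hnz j hj
  -- every value is a multiple of an element of S
  have hmul : ∀ j ∈ J, ∃ s ∈ S, ∃ a : Ω, l j = a • s := by
    intro j hj
    by_contra hcon
    push Not at hcon
    have hnot : l j ∉ S := fun h => hcon (l j) h 1 (one_smul _ _).symm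
    have hins : insert (l j) S ∈ F := by
      rw [hF, Finset.mem_filter, Finset.mem_powerset]
      refine ⟨?_, ?_⟩
      · intro v hv
        rcases Finset.mem_insert.1 hv with rfl | hv
        · rw [hV]
          exact Finset.mem_image_of_mem _ (Finset.mem_filter.2 ⟨Finset.mem_univ _, hj⟩)
        · exact hSV hv
      · have hnp : ∀ s ∈ S, ∀ a b : Ω, a • l j = b • s → a = 0 ∧ b = 0 := by
          intro s hs a b hab
          have ha : a = 0 := by
            by_contra ha
            apply hcon s hs (a⁻¹ * b)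
            rw [mul_smul, ← hab, smul_smul, inv_mul_cancel₀ ha, one_smul]
          refine ⟨ha, ?_⟩
          rw [ha, zero_smul] at hab
          rcases smul_eq_zero.1 hab.symm with h | h
          · exact h
          · exact absurd h (hS0 s hs)
        intro v hv v' hv' hvv'
        rcases Finset.mem_insert.1 hv with rfl | hv
        · rcases Finset.mem_insert.1 hv' with rfl | hv'
          · exact absurd rfl hvv'
          · exact hnp v' hv'
        · rcases Finset.mem_insert.1 hv' with rfl | hv'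
          · intro a b hab
            have := hnp v hv b a hab.symm
            exact ⟨this.2, this.1⟩
          · exact hSp v hv v' hv' hvv'
    have h1 := hmax _ hins
    rw [Finset.card_insert_of_notMem hnot] at h1
    omega
  -- counting
  have hcount : J.ncard ≤ c * S.card := by
    have hcov : J ⊆ ⋃ s ∈ S, {j : Fin (N + 1) | ∃ a : Ω, l j = a • s} := by
      intro j hj
      obtain ⟨s, hs, a, ha⟩ := hmul j hj
      rw [Set.mem_iUnion₂]
      exact ⟨s, hs, a, ha⟩
    have h1 : ∀ s ∈ S, {j : Fin (N + 1) | ∃ a : Ω, l j = a • s}.ncard ≤ c := by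
      intro s _
      obtain ⟨z, hz, hzp, hzs⟩ := hHYP Ω m p hp hhom hf s
      refine le_trans (Set.ncard_le_ncard ?_ (Set.toFinite _)) (hc z hz hzp)
      rintro j ⟨a, ha⟩
      rw [Set.mem_ofPred_eq, ha]
      have : ∑ i, (a • s) i * z i = a * ∑ i, s i * z i := by
        rw [Finset.mul_sum]
        refine Finset.sum_congr rfl fun i _ => ?_
        rw [Pi.smul_apply, smul_eq_mul, mul_assoc]
      rw [this, hzs, mul_zero]
    calc J.ncard ≤ (⋃ s ∈ S, {j : Fin (N + 1) | ∃ a : Ω, l j = a • s}).ncard :=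
          Set.ncard_le_ncard hcov (Set.toFinite _)
      _ ≤ ∑ s ∈ S, {j : Fin (N + 1) | ∃ a : Ω, l j = a • s}.ncard :=
          Finset.set_ncard_biUnion_le _ _
      _ ≤ ∑ _s ∈ S, c := Finset.sum_le_sum h1
      _ = c * S.card := by rw [Finset.sum_const, smul_eq_mul, mul_comm]
  refine ⟨S, hSp, ?_, hSu, ?_⟩
  · by_contra hlt
    push Not at hlt
    have : c * S.card ≤ c * N₁ := Nat.mul_le_mul_left _ hlt.le
    omega
  · intro z hz hzp
    have hsub : {u | u ∈ S ∧ ∑ i, u i * z i = 0} ⊆ l '' {j | ∑ i, l j i * z i = 0} := by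
      rintro u ⟨hu, hu0⟩
      obtain ⟨j, -, rfl⟩ := hSu u hu
      exact ⟨j, hu0, rfl⟩
    exact (Set.ncard_le_ncard hsub (Set.toFinite _)).trans
      ((Set.ncard_image_le (Set.toFinite _)).trans (hc z hz hzp))

end Pool.MPY
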