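import Pool.Agent.Work.MP_f82ddf_Y.Interface2

set_option autoImplicit false

/-! # Block T3S (helper72): T3 with descent to the span of the nodes -/

open Pool.Agent.Work.MP_f82ddf_nt.DQ

namespace Pool.MPY

open MvPolynomial
open Pool.ThmM (NonProp HypData LastMonic)

/-- the vectors orthogonal to a nonzero vector are the image of an injective map -/
theorem T3S_orth {m : ℕ} (y : Fin (m + 1 + 1) → ℂ) (hy : y ≠ 0) :
    ∃ ψ : (Fin (m + 1) → ℂ) →ₗ[ℂ] (Fin (m + 1 + 1) → ℂ), Function.Injective ψ ∧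
      ∀ u : Fin (m + 1 + 1) → ℂ, ∑ i, u i * y i = 0 → ∃ c, ψ c = u := by
  let φ : (Fin (m + 1 + 1) → ℂ) →ₗ[ℂ] ℂ :=
    { toFun := fun u => ∑ i, u i * y i
      map_add' := fun u v => by
        simp only [Pi.add_apply, add_mul, Finset.sum_add_distrib]
      map_smul' := fun a u => by
        simp only [Pi.smul_apply, smul_eq_mul, RingHom.id_apply, Finset.mul_sum, mul_assoc] }
  have hφ : ∀ u, φ u = ∑ i, u i * y i := fun u => rfl
  obtain ⟨i, hi⟩ : ∃ i, y i ≠ 0 := by
    by_contra h
    push Not at h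
    exact hy (funext h)
  have hsurj : LinearMap.range φ = ⊤ := by
    rw [LinearMap.range_eq_top]
    intro a
    refine ⟨Pi.single i (a / y i), ?_⟩
    rw [hφ, Finset.sum_eq_single i]
    · rw [Pi.single_eq_same, div_mul_cancel₀ _ hi]
    · intro j _ hj
      rw [Pi.single_eq_of_ne hj, zero_mul]
    · intro h
      exact absurd (Finset.mem_univ i) h
  have h1 := LinearMap.finrank_range_add_finrank_ker φ
  rw [hsurj, finrank_top, Module.finrank_self, Module.finrank_fin_fun] at h1
  have h2 : Module.finrank ℂ (Fin (m + 1) → ℂ) = Module.finrank ℂ (LinearMap.ker φ) := by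
    rw [Module.finrank_fin_fun]
    omega
  obtain ⟨e⟩ : Nonempty ((Fin (m + 1) → ℂ) ≃ₗ[ℂ] LinearMap.ker φ) :=
    ⟨LinearEquiv.ofFinrankEq _ _ h2⟩
  refine ⟨(LinearMap.ker φ).subtype.comp e.toLinearMap, ?_, ?_⟩
  · intro a b hab
    exact e.injective (Subtype.val_injective hab)
  · intro u hu
    refine ⟨e.symm ⟨u, hu⟩, ?_⟩
    show ((e (e.symm ⟨u, hu⟩) : LinearMap.ker φ) : Fin (m + 1 + 1) → ℂ) = u
    rw [LinearEquiv.apply_symm_apply]

theorem T3S_sum {r m : ℕ} (u : Fin (r + 1) → ℂ) (L : Fin (r + 1) → Fin (m + 1) → ℂ) :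
    (fun i => ∑ j, u j * L j i) = ∑ j, u j • L j := by
  funext i
  rw [Finset.sum_apply]
  rfl

theorem p_T3S : Pool.ThmM.Stmt_T3 → Stmt_T3S := by
  classical
  intro hT3 β m
  induction m with
  | zero =>
    refine ⟨2, fun S hS hcard => ?_⟩
    exfalso
    obtain ⟨u, hu, v, hv, huv⟩ := Finset.one_lt_card.1 (show 1 < S.card by omega)
    obtain ⟨h1, h2⟩ := hS u hu v hv huv (v 0) (u 0) (by
      funext i
      have hi : i = 0 := Fin.ext (by omega)
      rw [Pi.smul_apply, Pi.smul_apply, smul_eq_mul, smul_eq_mul, hi, mul_comm])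
    apply huv
    funext i
    have hi : i = 0 := Fin.ext (by omega)
    rw [hi, h1, h2]
  | succ m ih =>
    obtain ⟨N, hN⟩ := ih
    obtain ⟨N₁, dmax, h⟩ := hT3 (m + 1) (fun w d => β (m + 1) w d + N)
    refine ⟨N₁, fun S hS hcard => ?_⟩
    obtain ⟨w, d, Q, A, T, lift, hH, -, hTS, hTc, hdiv⟩ := h S hS hcard
    by_cases hspan : ∀ y : Fin (m + 1 + 1) → ℂ, (∀ u ∈ T, ∑ i, u i * y i = 0) → y = 0
    · refine ⟨m + 1, w, d, Q, A, T, lift, fun j => Pi.single j 1, hH, by omega,
        fun e f he => hdiv e f (by omega), hspan, ?_, ?_⟩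
      · exact Pi.linearIndependent_single_one _ ℂ
      · intro u hu
        have : (fun i => ∑ j, u j * (Pi.single j (1 : ℂ) : Fin (m + 1 + 1) → ℂ) i) = u := by
          funext i
          rw [Finset.sum_eq_single i]
          · rw [Pi.single_eq_same, mul_one]
          · intro j _ hj
            rw [Pi.single_eq_of_ne hj.symm, mul_zero]
          · intro h
            exact absurd (Finset.mem_univ i) h
        rw [this]
        exact hTS hu
    · push Not at hspan
      obtain ⟨y, hy, hy0⟩ := hspan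
      obtain ⟨ψ, hψ, hψT⟩ := T3S_orth y hy0
      set T' : Finset (Fin (m + 1) → ℂ) := T.preimage ψ hψ.injOn with hT'
      have hcT' : T'.card = T.card := by
        rw [hT', Finset.card_preimage, Finset.filter_true_of_mem]
        intro u hu
        exact hψT u (hy u hu)
      obtain ⟨r, w', d', Q', A', T'', lift', L'', h1, h2, h3, h4, h5, h6⟩ := hN T' (by
        intro u hu v hv huv a b hab
        rw [hT', Finset.mem_preimage] at hu hv
        refine hS _ (hTS hu) _ (hTS hv) (fun h => huv (hψ h)) a b ?_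
        rw [← map_smul, ← map_smul, hab]) (by omega)
      refine ⟨r, w', d', Q', A', T'', lift', fun j => ψ (L'' j), h1, h2, h3, h4, ?_, ?_⟩
      · exact h5.map' ψ (LinearMap.ker_eq_bot.2 hψ)
      · intro u hu
        have h7 := h6 u hu
        rw [hT', Finset.mem_preimage, T3S_sum, map_sum] at h7
        rw [T3S_sum]
        simp only [map_smul] at h7
        exact hTS h7

end Pool.MPY
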