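import Pool.Agent.Work.MP_f82ddf_Y.Interface

set_option autoImplicit false

/-! # Block TDG (THEOREM T): the dimension is finite -/

namespace Pool.MPY

open MvPolynomial

/-- TDG -/
theorem p_TDG (hTRM : Pool.MPW.Stmt_TRM) : Stmt_TDG := by
  intro Ω σ _ _ p hp
  classical
  have hbound : ∀ (n : ℕ) (f : Fin n → MvPolynomial σ Ω), IndMod p f → n ≤ Nat.card σ := by
    intro n f hf
    let R := MvPolynomial σ Ω ⧸ p
    let κ := FractionRing R
    let φ : MvPolynomial σ Ω →ₐ[Ω] κ :=
      (IsScalarTower.toAlgHom Ω R κ).comp (Ideal.Quotient.mkₐ Ω p)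
    have hφ : ∀ g : MvPolynomial σ Ω, φ g = 0 → g ∈ p := by
      intro g hg
      have h1 : algebraMap R κ (Ideal.Quotient.mk p g) = 0 := hg
      have h2 := (IsFractionRing.injective R κ) (h1.trans (map_zero _).symm)
      exact Ideal.Quotient.eq_zero_iff_mem.1 h2
    let e : σ ≃ Fin (Nat.card σ) := Finite.equivFin σ
    refine hTRM Ω κ n (Nat.card σ) (fun i => φ (f i)) (fun i => φ (X (e.symm i))) ?_ ?_
    · rw [algebraicIndependent_iff]
      intro H hH
      apply hf H
      apply hφ
      rw [← hH]
      have h3 : φ (aeval f H) = (φ.comp (aeval f)) H := rfl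
      rw [h3]
      congr 1
      apply MvPolynomial.algHom_ext
      intro i
      simp
    · intro j
      have h4 : ∀ g : MvPolynomial σ Ω, φ g ∈
          IntermediateField.adjoin Ω (Set.range fun i => φ (X (e.symm i))) := by
        intro g
        have h5 : φ g = aeval (fun i : σ => φ (X i)) g := by
          have h6 : φ = aeval (fun i : σ => φ (X i)) := by
            apply MvPolynomial.algHom_ext
            intro i
            simp
          exact congrArg (fun ψ : MvPolynomial σ Ω →ₐ[Ω] κ => ψ g) h6
        rw [h5]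
        have h7 : aeval (fun i : σ => φ (X i)) g ∈
            (IntermediateField.adjoin Ω
              (Set.range fun i => φ (X (e.symm i)))).toSubalgebra := by
          have h8 : aeval (fun i : σ => φ (X i)) g ∈
              Algebra.adjoin Ω (Set.range fun i : σ => φ (X i)) := by
            rw [Algebra.adjoin_range_eq_range_aeval]
            exact ⟨g, rfl⟩
          refine Algebra.adjoin_le ?_ h8
          rintro _ ⟨i, rfl⟩
          apply IntermediateField.subset_adjoin
          exact ⟨e i, by simp⟩
        exact h7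
      exact isAlgebraic_algebraMap (A := κ)
        (⟨_, h4 (f j)⟩ : IntermediateField.adjoin Ω (Set.range fun i => φ (X (e.symm i))))
  have h0 : ∃ f : Fin 0 → MvPolynomial σ Ω, IndMod p f := by
    refine ⟨Fin.elim0, ?_⟩
    intro H hH
    rw [MvPolynomial.eq_C_of_isEmpty H] at hH ⊢
    rw [aeval_C] at hH
    by_contra hne
    have hc : coeff 0 H ≠ 0 := fun h => hne (by rw [h, map_zero])
    apply hp.ne_top
    rw [Ideal.eq_top_iff_one]
    have h1 := p.mul_mem_left (C (coeff 0 H)⁻¹) hH
    have h2 : C (coeff 0 H)⁻¹ * algebraMap Ω (MvPolynomial σ Ω) (coeff 0 H) = 1 := by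
      rw [MvPolynomial.algebraMap_eq, ← map_mul, inv_mul_cancel₀ hc, map_one]
    rwa [h2] at h1
  let P : ℕ → Prop := fun n => ∃ f : Fin n → MvPolynomial σ Ω, IndMod p f
  refine ⟨Nat.findGreatest P (Nat.card σ), ?_, ?_⟩
  · exact Nat.findGreatest_spec (P := P) (Nat.zero_le _) h0
  · intro n f hf
    exact Nat.le_findGreatest (hbound n f hf) ⟨f, hf⟩

end Pool.MPY
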