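import Pool.Agent.Work.MP_f82ddf_Y.Interface3

set_option autoImplicit false

/-! # THEOREM T, block THF: thin morphisms, forms of any degree (copy of B_THY.lean of helper53) -/

open Pool.Agent.Work.MP_f82ddf_nt.DQ

namespace Pool.MPY

open MvPolynomial
open Pool.Agent.Work.MP_f82ddf_nt (PSpace HolomorphicOn complexPoints points KobayashiHyperbolic
  eval₂_smul_hom)
open Pool.ThmP (Mor OnX OnK tm RelP)
open Pool.MPL (RX NC aq ae NPr Spn)
open Pool.MPV (Ful Full)

section X_THF

variable {Ω κ : Type} [Field Ω] [Field κ] {n : ℕ}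

/-- the homomorphism with values in `κ[T]` -/
private noncomputable def X_THF_Φ (f : Ω →+* κ) (y : Fin (n + 1) → κ) :
    MvPolynomial (Fin (n + 1)) Ω →+* Polynomial κ :=
  eval₂Hom (Polynomial.C.comp f) (fun c => Polynomial.C (y c) * Polynomial.X)

private theorem X_THF_hom (f : Ω →+* κ) (y : Fin (n + 1) → κ)
    {G : MvPolynomial (Fin (n + 1)) Ω} {e : ℕ} (hG : G.IsHomogeneous e) :
    X_THF_Φ f y G = Polynomial.C (eval₂ f y G) * Polynomial.X ^ e := by
  show eval₂ (Polynomial.C.comp f) (fun c => Polynomial.C (y c) * Polynomial.X) G = _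
  rw [eval₂_eq', eval₂_eq', map_sum, Finset.sum_mul]
  refine Finset.sum_congr rfl fun μ hμ => ?_
  have hdeg : ∑ i, μ i = e := by
    have h1 : μ.degree = e := by
      by_contra h
      exact (mem_support_iff.1 hμ) (hG.coeff_eq_zero h)
    rw [← h1, Finsupp.degree_eq_sum]
  simp only [mul_pow]
  rw [Finset.prod_mul_distrib, Finset.prod_pow_eq_pow_sum, hdeg, map_mul, map_prod]
  simp only [map_pow]
  rw [RingHom.comp_apply, mul_assoc]

private theorem X_THF_coeff (f : Ω →+* κ) (y : Fin (n + 1) → κ)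
    (F : MvPolynomial (Fin (n + 1)) Ω) (t : ℕ) :
    (X_THF_Φ f y F).coeff t = eval₂ f y (homogeneousComponent t F) := by
  conv_lhs => rw [← sum_homogeneousComponent F]
  rw [map_sum, Polynomial.finsetSum_coeff]
  have h1 : ∀ i ∈ Finset.range (F.totalDegree + 1),
      (X_THF_Φ f y (homogeneousComponent i F)).coeff t =
        if t = i then eval₂ f y (homogeneousComponent i F) else 0 := by
    intro i _
    rw [X_THF_hom f y (homogeneousComponent_isHomogeneous i F), Polynomial.coeff_C_mul_X_pow]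
  rw [Finset.sum_congr rfl h1, Finset.sum_ite_eq]
  split_ifs with h
  · rfl
  · rw [Finset.mem_range, not_lt] at h
    rw [homogeneousComponent_eq_zero t F (by omega), eval₂_zero]

private theorem X_THF_mem (f : Ω →+* κ) (y : Fin (n + 1) → κ)
    (F : MvPolynomial (Fin (n + 1)) Ω) :
    F ∈ RingHom.ker (X_THF_Φ f y) ↔ ∀ t, eval₂ f y (homogeneousComponent t F) = 0 := by
  rw [RingHom.mem_ker]
  constructor
  · intro h t
    rw [← X_THF_coeff, h, Polynomial.coeff_zero]
  · intro h
    ext t
    rw [X_THF_coeff, h, Polynomial.coeff_zero]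

private theorem X_THF_smul (f : Ω →+* κ) (y : Fin (n + 1) → κ)
    (F : MvPolynomial (Fin (n + 1)) Ω) (hF : F ∈ RingHom.ker (X_THF_Φ f y)) (a : κ) :
    eval₂ f (a • y) F = 0 := by
  rw [X_THF_mem] at hF
  have h1 : eval₂Hom f (a • y) F = 0 := by
    rw [← sum_homogeneousComponent F, map_sum]
    refine Finset.sum_eq_zero fun i _ => ?_
    show eval₂ f (a • y) (homogeneousComponent i F) = 0
    rw [eval₂_smul_hom (homogeneousComponent_isHomogeneous i F), hF i, mul_zero]
  exact h1

private theorem X_THF_hmg (f : Ω →+* κ) (y : Fin (n + 1) → κ) :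
    Hmg (RingHom.ker (X_THF_Φ f y)) := by
  intro F hF t
  rw [RingHom.mem_ker, X_THF_hom f y (homogeneousComponent_isHomogeneous t F),
    (X_THF_mem f y F).1 hF t, map_zero, zero_mul]

private theorem X_THF_le (f : Ω →+* κ) (y : Fin (n + 1) → κ)
    (p : Ideal (MvPolynomial (Fin (n + 1)) Ω)) (hp : Hmg p)
    (h : ∀ F ∈ p, eval₂ f y F = 0) : p ≤ RingHom.ker (X_THF_Φ f y) := by
  intro F hF
  rw [X_THF_mem]
  intro t
  exact h _ (hp F hF t)

/-- if the point is a multiple of a point over `Ω`, no two elements are independent -/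
private theorem X_THF_rat (f : Ω →+* κ) (y : Fin (n + 1) → κ) (c₀ : Fin (n + 1))
    (a : Fin (n + 1) → Ω) (ha : ∀ j, y j = f (a j) * y c₀)
    (g : Fin 2 → MvPolynomial (Fin (n + 1)) Ω)
    (hg : IndMod (RingHom.ker (X_THF_Φ f y)) g) : False := by
  let ψ : MvPolynomial (Fin (n + 1)) Ω →ₐ[Ω] Polynomial Ω :=
    aeval (fun j => Polynomial.C (a j) * Polynomial.X)
  have hfac : ∀ F, X_THF_Φ f y F =
      Polynomial.eval₂ (Polynomial.C.comp f) (Polynomial.C (y c₀) * Polynomial.X) (ψ F) := by
    intro F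
    have h1 : X_THF_Φ f y = (Polynomial.eval₂RingHom (Polynomial.C.comp f)
        (Polynomial.C (y c₀) * Polynomial.X)).comp ψ.toRingHom := by
      refine MvPolynomial.ringHom_ext ?_ ?_
      · intro r
        show eval₂ _ _ (C r) = Polynomial.eval₂ _ _ (ψ (C r))
        rw [eval₂_C]
        show _ = Polynomial.eval₂ _ _ (aeval _ (C r))
        rw [aeval_C, Polynomial.algebraMap_apply, Polynomial.eval₂_C]
        rfl
      · intro j
        show eval₂ _ _ (X j) = Polynomial.eval₂ _ _ (ψ (X j))
        rw [eval₂_X]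
        show _ = Polynomial.eval₂ _ _ (aeval _ (X j))
        rw [aeval_X, Polynomial.eval₂_mul, Polynomial.eval₂_C, Polynomial.eval₂_X, ha j, map_mul,
          mul_assoc]
        rfl
    rw [h1]
    rfl
  have hind : AlgebraicIndependent Ω (fun i => ψ (g i)) := by
    rw [algebraicIndependent_iff]
    intro H hH
    apply hg H
    rw [RingHom.mem_ker, hfac]
    have h2 : ψ (aeval g H) = aeval (fun i => ψ (g i)) H := by
      rw [comp_aeval_apply]
    rw [h2, hH, Polynomial.eval₂_zero]
  have h3 := hind.cardinalMk_le_trdeg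
  rw [Polynomial.trdeg_of_isDomain, Cardinal.mk_fin] at h3
  norm_num at h3

end X_THF

private theorem X_THF_countable (K : Type) [Field K] [NumberField K] :
    Countable (AlgebraicClosure K) := by
  rw [← Cardinal.mk_le_aleph0_iff]
  have h1 : Cardinal.mk K ≤ Cardinal.aleph0 := by
    refine (Algebra.IsAlgebraic.cardinalMk_le_max ℚ K).trans ?_
    simp
  refine (Algebra.IsAlgebraic.cardinalMk_le_max K (AlgebraicClosure K)).trans ?_
  exact max_le h1 le_rfl

theorem p_THF (hJWF : Stmt_JWF) (hMPF : Stmt_MPF) (hMPT : Pool.ThmP.Stmt_MPT)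
    (hNUL : Pool.ThmP.Stmt_NUL) (hTHR : Pool.ThmP.Stmt_THR) (hEXB : Pool.ThmP.Stmt_EXB)
    (hHOMR : Pool.ThmM0.Stmt_HOMR) (_hDM1 : Stmt_DM1) : Stmt_THF := by
  classical
  intro n c e₀
  obtain ⟨N₁, hN₁⟩ := hJWF n c e₀
  refine ⟨N₁, ?_⟩
  intro K _ _ N d k p₀ F hp₀ hhmg hFd hc hdim hlow m S hS g hthin hinto hfull
  have := X_THF_countable K
  choose e he1 he2 he3 using hFd
  obtain ⟨W, -, hW, hcrv⟩ := hN₁ (AlgebraicClosure K) N k e p₀ F
    (fun j => ⟨he1 j, he2 j, he3 j⟩) hhmg hc
  intro σ x hxσ r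
  let τ : AlgebraicClosure K →+* ℂ :=
    letI : Algebra K ℂ := σ.toAlgebra
    (IsAlgClosed.lift (R := K) (M := ℂ) (S := AlgebraicClosure K)).toRingHom
  have hτ : τ.comp (algebraMap K (AlgebraicClosure K)) = σ := by
    let : Algebra K ℂ := σ.toAlgebra
    exact AlgHom.comp_algebraMap
      (IsAlgClosed.lift (R := K) (M := ℂ) (S := AlgebraicClosure K))
  clear_value τ
  have hx : OnK (tm τ) S x := by
    intro F hF
    have h6 : (tm τ).comp (algebraMap K (AlgebraicClosure K)) =
        (algebraMap ℂ Mer).comp σ := by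
      rw [tm, RingHom.comp_assoc, hτ]
    rw [h6]
    exact hxσ F hF
  by_contra hr
  push Not at hr
  have hr' : ∀ (e : ℕ) (P : MvPolynomial (Fin (d + 2)) ℂ), P ≠ 0 → P.IsHomogeneous e →
      aeval (fun i => x (r i)) P ≠ 0 := fun e P h1 h2 => hr e P h1 h2
  have hr0 : x (r 0) ≠ 0 := by
    have h := hr' 1 (X 0) (X_ne_zero _) (isHomogeneous_X _ _)
    rwa [aeval_X] at h
  have hx0 : x ≠ 0 := fun h => hr0 (congrFun h _)
  obtain ⟨M1, M2⟩ := hMPT K (AlgebraicClosure K) Mer m n S g (tm τ) x hx
  obtain ⟨s, hs, c₀, hc₀⟩ := M1 hx0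
  obtain ⟨y, hy⟩ : ∃ y : Fin (n + 1) → Mer, y = fun c => eval₂ (tm τ) x (s c) := ⟨_, rfl⟩
  have hyc : ∀ c, y c = eval₂ (tm τ) x (s c) := fun c => by rw [hy]
  obtain ⟨hy0, hyF⟩ := hMPF K (AlgebraicClosure K) m n N S g k e p₀ F hS hinto he3 hfull τ x hx
    s hs ⟨c₀, hc₀⟩
  rw [← hy] at hy0 hyF
  rw [← hyc] at hc₀
  have hle : p₀ ≤ RingHom.ker (X_THF_Φ (tm τ) y) := X_THF_le (tm τ) y p₀ hhmg hy0
  have hprime : (RingHom.ker (X_THF_Φ (tm τ) y)).IsPrime := RingHom.ker_isPrime _
  rcases lt_or_eq_of_le hle with hlt | heq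
  · -- the curve is in a smaller closed subset
    obtain ⟨e, R, hR0, hRe, hR⟩ := hthin.2 _ hprime (X_THF_hmg (tm τ) y) hlt r
    have hnul := hNUL K (AlgebraicClosure K) Mer m S
      {H | ∃ s' ∈ g.tuples, ∃ F ∈ RingHom.ker (X_THF_Φ (tm τ) y), H = bind₁ s' F} (rename r R) (by
      intro v hv hH
      rw [eval_rename]
      refine hR v hv ?_
      intro s' hs' F hF
      have h1 := hH _ ⟨s', hs', F, hF, rfl⟩
      rw [← h1]
      simp only [eval, eval₂Hom_bind₁]) (tm τ) x hx (by
      rintro H ⟨s', hs', F, hF, rfl⟩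
      have h1 : eval₂ (tm τ) x (bind₁ s' F) =
          eval₂ (tm τ) (fun c => eval₂ (tm τ) x (s' c)) F := by
        have h2 := eval₂Hom_bind₁ (tm τ) x s' F
        exact h2
      have h3 : (fun c => eval₂ (tm τ) x (s' c)) =
          (eval₂ (tm τ) x (s' c₀) / y c₀) • y := by
        funext c
        have h4 := M2 s hs s' hs' c₀ c
        rw [← hyc, ← hyc] at h4
        rw [Pi.smul_apply, smul_eq_mul, div_mul_eq_mul_div, eq_div_iff hc₀]
        linear_combination h4
      rw [h1, h3]
      exact X_THF_smul (tm τ) y F hF _)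
    rw [eval₂_rename] at hnul
    refine hr' e (map τ R) ?_ (hRe.map τ) ?_
    · intro h
      exact hR0 (map_injective _ τ.injective (by rw [h, map_zero]))
    · rw [aeval_def, eval₂_map]
      exact hnul
  · by_cases hNC : NC y
    · obtain ⟨p, hpW, hpy⟩ := hcrv τ y ⟨hNC, hy0, hyF⟩
      obtain ⟨-, hphm, hp0p, hpN⟩ := hW p hpW
      have h1 : p ≤ p₀ := by
        rw [heq]
        exact X_THF_le (tm τ) y p hphm hpy
      have h2 : p = p₀ := le_antisymm h1 hp0p
      rw [h2] at hpN
      omega
    · unfold NC at hNC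
      push Not at hNC
      have hz : ∀ j, ∃ z : ℂ, y j = algebraMap ℂ Mer z * y c₀ := fun j => hNC c₀ j hc₀
      choose z hz using hz
      obtain ⟨f, hf⟩ := hdim
      obtain ⟨c₁, hc₁⟩ : ∃ c₁, ∀ a : AlgebraicClosure K, τ a ≠ z c₁ := by
        by_contra hcon
        push Not at hcon
        choose a ha using hcon
        rw [heq] at hf
        refine X_THF_rat (tm τ) y c₀ a ?_ f hf
        intro j
        rw [hz j, ← ha j]
        rfl
      have hind := hHOMR d (fun i => x (r i)) hr0 hr'
      let iΩC : Algebra (AlgebraicClosure K) ℂ := τ.toAlgebra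
      let iΩM : Algebra (AlgebraicClosure K) Mer := (tm τ).toAlgebra
      have iST : IsScalarTower (AlgebraicClosure K) ℂ Mer :=
        IsScalarTower.of_algebraMap_eq fun _ => rfl
      have hindΩ : AlgebraicIndependent (AlgebraicClosure K)
          (fun i : Fin (d + 1) => x (r i.succ) / x (r 0)) :=
        hind.restrictScalars τ.injective
      have halg := hTHR K (AlgebraicClosure K) m d S hS hthin.1 τ x hx r hr0 hindΩ
      obtain ⟨p, hp⟩ : ∃ p : Fin (d + 1) → Mer, p = fun i => x (r i.succ) / x (r 0) := ⟨_, rfl⟩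
      have halg' : ∀ j, IsAlgebraic (Algebra.adjoin (AlgebraicClosure K) (Set.range p))
          (x j / x (r 0)) := by
        intro j
        rw [hp]
        exact halg j
      have hindC : AlgebraicIndependent ℂ p := by rw [hp]; exact hind
      obtain ⟨es, hes⟩ := g.homogeneous s hs
      obtain ⟨E, hE⟩ : ∃ E : Fin (n + 1) → Mer,
          E = fun c => eval₂ (tm τ) (fun j => x j / x (r 0)) (s c) := ⟨_, rfl⟩
      have hyE : ∀ c, y c = x (r 0) ^ es * E c := by
        intro c
        have h2 : x = (x (r 0)) • (fun t : Fin (m + 1) => x t / x (r 0)) := by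
          funext t
          show x t = x (r 0) * (x t / x (r 0))
          rw [mul_div_cancel₀ _ hr0]
        rw [hyc, hE]
        conv_lhs => rw [h2, eval₂_smul_hom (hes c)]
      have hEa : ∀ c, IsAlgebraic (Algebra.adjoin (AlgebraicClosure K) (Set.range p)) (E c) := by
        intro c
        have h1 : E c ∈ Subalgebra.algebraicClosure
            (Algebra.adjoin (AlgebraicClosure K) (Set.range p)) Mer := by
          rw [hE]
          refine eval₂_mem ?_ ?_
          · intro i _
            have h2 := isAlgebraic_algebraMap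
              (R := Algebra.adjoin (AlgebraicClosure K) (Set.range p)) (A := Mer)
              (algebraMap (AlgebraicClosure K)
                (Algebra.adjoin (AlgebraicClosure K) (Set.range p)) (coeff i (s c)))
            exact h2
          · intro i
            exact halg' i
        exact h1
      have hzM : algebraMap ℂ Mer (z c₁) = E c₁ * (E c₀)⁻¹ := by
        have h1 : algebraMap ℂ Mer (z c₁) = y c₁ / y c₀ := by
          rw [hz c₁, mul_div_cancel_right₀ _ hc₀]
        rw [h1, hyE c₁, hyE c₀, mul_div_mul_left _ _ (pow_ne_zero _ hr0), div_eq_mul_inv]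
      have htr : Transcendental (AlgebraicClosure K) (z c₁) := by
        intro halgz
        have h1 := IsAlgClosed.degree_eq_one_of_irreducible (AlgebraicClosure K)
          (minpoly.irreducible halgz.isIntegral)
        obtain ⟨a, ha⟩ := minpoly.mem_range_of_degree_eq_one (AlgebraicClosure K) _ h1
        exact hc₁ a ha
      have hC := hEXB (AlgebraicClosure K) ℂ Mer (d + 1) 1 p (fun _ => algebraMap ℂ Mer (z c₁))
        hindC (by
          rw [algebraicIndependent_unique_type_iff]
          exact (transcendental_algebraMap_iff (algebraMap ℂ Mer).injective).2 htr) (by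
          intro _
          rw [hzM]
          exact (hEa _).mul (hEa _).inv)
      rw [algebraicIndependent_unique_type_iff] at hC
      exact hC (isAlgebraic_algebraMap (z c₁))

end Pool.MPY
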