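import Pool.Agent.Work.MP_f82ddf_Y.Interface

set_option autoImplicit false

/-! # Block TIN: the `y i` are algebraically independent over `ℂ(v)` -/

namespace Pool.MPY

open MvPolynomial
open Pool.ThmM (LastMonic)

/-- the last coordinate of a point of `Q = 0` is algebraic over the others -/
theorem TIN_last {F : Type} [Field F] [Algebra ℂ F] (w d : ℕ) (Q : MvPolynomial (Fin (w + 2)) ℂ)
    (v : Fin (w + 2) → F) (hQ : LastMonic w d Q) (hv : aeval v Q = 0) :
    IsAlgebraic (Algebra.adjoin ℂ (Set.range fun i : Fin (w + 1) => v i.castSucc))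
      (v (Fin.last (w + 1))) := by
  obtain ⟨q, hq⟩ := hQ
  have hmem : ∀ p : MvPolynomial (Fin (w + 1)) ℂ, aeval (fun i : Fin (w + 1) => v i.castSucc) p ∈
      Algebra.adjoin ℂ (Set.range fun i : Fin (w + 1) => v i.castSucc) := fun p => by
    rw [Algebra.adjoin_range_eq_range_aeval]
    exact ⟨p, rfl⟩
  have hev : ∀ p : MvPolynomial (Fin (w + 1)) ℂ, aeval v (rename Fin.castSucc p) =
      aeval (fun i : Fin (w + 1) => v i.castSucc) p := fun p => by
    rw [aeval_rename]
    rfl
  let c : ℕ → Algebra.adjoin ℂ (Set.range fun i : Fin (w + 1) => v i.castSucc) := fun j =>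
    ⟨aeval (fun i : Fin (w + 1) => v i.castSucc) (q j), hmem _⟩
  have hmon : (Polynomial.X ^ d + ∑ j ∈ Finset.range d, Polynomial.C (c j) * Polynomial.X ^ j :
      Polynomial (Algebra.adjoin ℂ (Set.range fun i : Fin (w + 1) => v i.castSucc))).Monic := by
    refine Polynomial.monic_X_pow_add ?_
    refine (Polynomial.degree_sum_le _ _).trans_lt ?_
    refine (Finset.sup_lt_iff (WithBot.bot_lt_coe d)).2 fun j hj => ?_
    refine (Polynomial.degree_C_mul_X_pow_le j (c j)).trans_lt ?_
    exact Nat.cast_lt.2 (Finset.mem_range.1 hj)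
  refine ⟨_, hmon.ne_zero, ?_⟩
  rw [map_add, map_pow, Polynomial.aeval_X, map_sum]
  rw [hq, map_add, map_pow, aeval_X, map_sum] at hv
  rw [← hv]
  congr 1
  refine Finset.sum_congr rfl fun j _ => ?_
  rw [map_mul, map_pow, Polynomial.aeval_X, Polynomial.aeval_C, map_mul, map_pow, aeval_X, hev]
  rfl

theorem p_TIN (_hTRM : Pool.MPW.Stmt_TRM) : Stmt_TIN := by
  intro M F _ _ _ _ _ _ w d β Q v ι t y hQ hv hι ht halg
  classical
  -- the two families
  let U : Fin β ⊕ Fin (w + 1) → F := Sum.elim y (fun i : Fin (w + 1) => v i.castSucc)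
  let T : Fin w ⊕ Fin (β + 1) → F := Sum.elim (fun i => v (ι i)) (algebraMap M F ∘ t)
  have hT : AlgebraicIndependent ℂ T := AlgebraicIndependent.sumElim_comp ht hι
  let 𝓜 := AlgebraicIndependent.matroid ℂ F
  have hcl : ∀ (s : Set F) (x : F), IsAlgebraic (Algebra.adjoin ℂ s) x → x ∈ 𝓜.closure s := by
    intro s x hx
    show x ∈ (AlgebraicIndependent.matroid ℂ F).closure s
    rw [AlgebraicIndependent.matroid_closure_eq, SetLike.mem_coe,
      Subalgebra.mem_algebraicClosure]
    exact hx
  have hsub : ∀ s : Set F, s ⊆ 𝓜.closure s := fun s => 𝓜.subset_closure s (Set.subset_univ s)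
  have hmono : ∀ s s' : Set F, s ⊆ 𝓜.closure s' → 𝓜.closure s ⊆ 𝓜.closure s' := by
    intro s s' h
    have h1 := 𝓜.closure_subset_closure h
    rwa [𝓜.closure_closure] at h1
  have hv0 : ∀ i : Fin (w + 2), v i ∈ 𝓜.closure (Set.range U) := by
    intro i
    have h0 : Set.range (fun i : Fin (w + 1) => v i.castSucc) ⊆ 𝓜.closure (Set.range U) := by
      rintro _ ⟨j, rfl⟩
      exact hsub _ ⟨Sum.inr j, rfl⟩
    refine Fin.lastCases ?_ (fun j => ?_) i
    · exact hmono _ _ h0 (hcl _ _ (TIN_last w d Q v hQ hv))
    · exact h0 ⟨j, rfl⟩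
  have hy0 : ∀ i : Fin β, y i ∈ 𝓜.closure (Set.range U) := fun i => hsub _ ⟨Sum.inl i, rfl⟩
  have hTU : Set.range T ⊆ 𝓜.closure (Set.range U) := by
    rintro _ ⟨i | i, rfl⟩
    · exact hv0 (ι i)
    · refine hmono (Set.range v ∪ Set.range y) _ ?_ (hcl _ _ ?_)
      · rintro _ (⟨j, rfl⟩ | ⟨j, rfl⟩)
        · exact hv0 j
        · exact hy0 j
      · exact IntermediateField.isAlgebraic_adjoin_iff.mp (halg i)
  -- the ranks
  have hTi : 𝓜.Indep (Set.range T) :=
    AlgebraicIndependent.matroid_indep_iff.mpr hT.to_subtype_range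
  have h3 := hTi.encard_le_eRk_of_subset hTU
  rw [Matroid.eRk_closure_eq] at h3
  have h5 : (Set.range T).encard = (w + (β + 1) : ℕ) := by
    rw [← Set.image_univ, hT.injective.injOn.encard_image, Set.encard_univ]
    simp
  have hfin : (Set.range U).Finite := Set.finite_range U
  have h6 : (Set.range U).encard ≤ (w + (β + 1) : ℕ) := by
    rw [← Set.image_univ]
    refine (Set.encard_image_le _ _).trans ?_
    rw [Set.encard_univ]
    simp only [ENat.card_eq_coe_fintype_card, Fintype.card_sum, Fintype.card_fin]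
    exact_mod_cast (by omega : β + (w + 1) ≤ w + (β + 1))
  rw [h5] at h3
  have h7 : 𝓜.eRk (Set.range U) = (Set.range U).encard :=
    le_antisymm (𝓜.eRk_le_encard _) (h6.trans h3)
  have h8 : (Set.range U).encard = (w + (β + 1) : ℕ) :=
    le_antisymm h6 (h3.trans (𝓜.eRk_le_encard _))
  have hUi : 𝓜.Indep (Set.range U) := (Matroid.indep_iff_eRk_eq_encard_of_finite hfin).2 h7
  have hinj : Function.Injective U := by
    have h9 : (Finset.univ.image U).card = (Finset.univ : Finset (Fin β ⊕ Fin (w + 1))).card := by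
      have h10 : (Set.range U).encard = ((Finset.univ.image U).card : ℕ∞) := by
        rw [← Set.encard_coe_eq_coe_finsetCard, Finset.coe_image, Finset.coe_univ,
          Set.image_univ]
      rw [h8] at h10
      have h11 : w + (β + 1) = (Finset.univ.image U).card := by exact_mod_cast h10
      rw [← h11]
      simp only [Finset.card_univ, Fintype.card_sum, Fintype.card_fin]
      omega
    exact Set.injOn_univ.1 (by simpa using Finset.card_image_iff.1 h9)
  have hU : AlgebraicIndependent ℂ U := by
    have h9 : AlgebraicIndependent ℂ ((↑) : Set.range U → F) :=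
      AlgebraicIndependent.matroid_indep_iff.mp hUi
    exact h9.comp (Set.rangeFactorization U) fun a b h => hinj (congrArg Subtype.val h)
  -- independence over the field generated by the `v j`
  have hy1 : AlgebraicIndependent
      (Algebra.adjoin ℂ (Set.range fun i : Fin (w + 1) => v i.castSucc)) y :=
    (AlgebraicIndependent.sumElim_iff.1 hU).2
  have hy2 : AlgebraicIndependent
      (IntermediateField.adjoin ℂ (Set.range fun i : Fin (w + 1) => v i.castSucc)) y :=
    IntermediateField.algebraicIndependent_adjoin_iff.2 hy1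
  have hy3 := hy2.algebraicClosure
  have hle : ∀ x : IntermediateField.adjoin ℂ (Set.range v), (x : F) ∈ algebraicClosure
      (IntermediateField.adjoin ℂ (Set.range fun i : Fin (w + 1) => v i.castSucc)) F := by
    have h1 : IntermediateField.adjoin ℂ (Set.range v) ≤ (algebraicClosure
        (IntermediateField.adjoin ℂ (Set.range fun i : Fin (w + 1) => v i.castSucc))
          F).restrictScalars ℂ := by
      rw [IntermediateField.adjoin_le_iff]
      rintro _ ⟨i, rfl⟩
      show v i ∈ algebraicClosure
        (IntermediateField.adjoin ℂ (Set.range fun i : Fin (w + 1) => v i.castSucc)) F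
      rw [mem_algebraicClosure_iff]
      refine Fin.lastCases ?_ (fun j => ?_) i
      · exact IntermediateField.isAlgebraic_adjoin_iff.2 (TIN_last w d Q v hQ hv)
      · exact isAlgebraic_algebraMap (⟨v j.castSucc, IntermediateField.subset_adjoin _ _ ⟨j, rfl⟩⟩ :
          IntermediateField.adjoin ℂ (Set.range fun i : Fin (w + 1) => v i.castSucc))
    exact fun x => h1 x.2
  refine AlgebraicIndependent.of_ringHom_of_comp_eq
    (f := (algebraMap (IntermediateField.adjoin ℂ (Set.range v)) F).codRestrict (algebraicClosure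
      (IntermediateField.adjoin ℂ (Set.range fun i : Fin (w + 1) => v i.castSucc)) F) hle)
    (g := RingHom.id F) hy3 ?_ ?_
  · exact RingHom.injective _
  · ext x
    rfl

end Pool.MPY
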