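import Pool.Agent.Work.MP_f82ddf_Y.Interface3
import Pool.Agent.Work.MP_f82ddf_Y.B_UEY

set_option autoImplicit false

/-! # THEOREM T (MP_f82ddf_nt), block UEV: over the small field, different multiplicities -/

open Pool.Agent.Work.MP_f82ddf_nt.DQ

namespace Pool.MPY

open MvPolynomial
open Pool.ThmP (tm)
open Pool.MPL (RX NC aq NPr Spn)
open Pool.MPV (Ful)

lemma UEV_span {Ω : Type} [Field Ω] (τ₀ τ : Ω →+* ℂ) {m : ℕ} (k : (Fin (m + 1) → Ω) → ℕ)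
    (k' : (Fin (m + 1) → ℂ) → ℕ) (hk' : ∀ u, k' (UEY_emb τ₀ m u) = k u)
    (p : Ideal (MvPolynomial (Fin (m + 1)) Ω)) (S : Finset (Fin (m + 1) → Ω))
    (D : RX m) (α : ℂ ≃+* ℂ) (hα : ∀ a, α (τ₀ a) = τ a) (x : Fin (m + 1) → Mer)
    (hx : NC x) (hp : ∀ f ∈ p, eval₂ (tm τ) x f = 0)
    (hpow : ∀ u ∈ S, Ful (k u) x (fun i => τ (u i)))
    (hD : ∀ (α : ℂ ≃+* ℂ) (x : Fin (m + 1) → Mer), NC x →
        (∀ f ∈ p.map (map τ₀), aeval x (aq α f) = 0) →
        (∀ u ∈ S.map (UEY_emb τ₀ m), Ful (k' u) x (fun i => α (u i))) →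
        aeval x (aq α D) = 0) (E : RX m)
    (hE : E ∈ Submodule.span ℂ
        {E : RX m | ∃ α : ℂ ≃+* ℂ, (∀ a, α (τ₀ a) = τ₀ a) ∧ E = aq α D}) :
    aeval x (aq α E) = 0 := by
  refine Submodule.span_induction (p := fun E _ => aeval x (aq α E) = 0) ?_ ?_ ?_ ?_ hE
  · rintro E ⟨β, hβ, rfl⟩
    have h1 : aq α (aq β D) = aq (β.trans α) D := by
      unfold aq
      rw [map_map]
      rfl
    rw [h1]
    refine hD (β.trans α) x hx ?_ ?_
    · intro f hf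
      have h2 : p.map (map τ₀) ≤ RingHom.ker
          (((aeval x : MvPolynomial (Fin (m + 1)) ℂ →ₐ[ℂ] Mer) :
            MvPolynomial (Fin (m + 1)) ℂ →+* Mer).comp
            (map ((β.trans α : ℂ ≃+* ℂ) : ℂ →+* ℂ))) := by
        rw [Ideal.map_le_iff_le_comap]
        intro g hg
        rw [Ideal.mem_comap, RingHom.mem_ker, RingHom.comp_apply, map_map]
        have h3 : (((β.trans α : ℂ ≃+* ℂ) : ℂ →+* ℂ)).comp τ₀ = τ := by
          ext a
          change α (β (τ₀ a)) = τ a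
          rw [hβ, hα]
        rw [h3]
        change aeval x (map τ g) = 0
        rw [aeval_def, eval₂_map]
        exact hp g hg
      exact h2 hf
    · intro u hu
      obtain ⟨u₀, hu₀, rfl⟩ := Finset.mem_map.1 hu
      have h2 : (fun i => (β.trans α) ((UEY_emb τ₀ m) u₀ i)) = fun i => τ (u₀ i) := by
        funext i
        change α (β (τ₀ (u₀ i))) = τ (u₀ i)
        rw [hβ, hα]
      rw [h2, hk']
      exact hpow u₀ hu₀
  · simp [aq]
  · intro E F _ _ hE' hF'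
    have h1 : aq α (E + F) = aq α E + aq α F := by simp [aq]
    rw [h1, map_add, hE', hF', add_zero]
  · intro c E _ hE'
    have h1 : aq α (c • E) = C (α c) * aq α E := by
      unfold aq
      rw [smul_eq_C_mul, map_mul, map_C]
      rfl
    rw [h1, map_mul, hE', mul_zero]

/-- UEV. -/
theorem p_UEV (hPTV : Stmt_PTV) (hPEX : Stmt_PEX) (hLOX : Stmt_LOX) (hDSG : Stmt_DSG)
    (hODX : Stmt_ODX) (hAUT : Pool.MPL.Stmt_AUT) (hRKT : Pool.MPL.Stmt_RKT) : Stmt_UEV := by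
  intro m c
  obtain ⟨N₁, hN₁⟩ := hPTV m c
  refine ⟨N₁, ?_⟩
  intro Ω _ _ _ k p S hk hp hh hS hc hlow hcard
  by_cases hne : Nonempty (Ω →+* ℂ)
  · obtain ⟨τ₀⟩ := hne
    obtain ⟨hR1, hR2⟩ := hRKT Ω ℂ τ₀ m
    let k' : (Fin (m + 1) → ℂ) → ℕ := Function.extend (UEY_emb τ₀ m) k (fun _ => 1)
    have hk' : ∀ u, k' (UEY_emb τ₀ m u) = k u := fun u =>
      (UEY_emb τ₀ m).injective.extend_apply k (fun _ => 1) u
    obtain ⟨D, hD0, hD⟩ := hN₁ k' (p.map (map τ₀)) (S.map (UEY_emb τ₀ m)) (by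
      intro u hu
      obtain ⟨u₀, hu₀, rfl⟩ := Finset.mem_map.1 hu
      rw [hk']
      exact hk u₀ hu₀)
      (hPEX Ω (Fin (m + 1)) τ₀ p hp).1 (UEY_hmg τ₀ p hh) (by
      intro u hu v hv huv
      obtain ⟨u₀, hu₀, rfl⟩ := Finset.mem_map.1 hu
      obtain ⟨v₀, hv₀, rfl⟩ := Finset.mem_map.1 hv
      have h1 : u₀ ≠ v₀ := by
        rintro rfl
        exact huv rfl
      exact hR2 u₀ v₀ (hS u₀ hu₀ v₀ hv₀ h1)) (by
      intro z hz hzp
      have h1 := hODX Ω ℂ m c p S hh hc τ₀ z hz (by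
        intro f hf
        rw [← eval_map]
        exact hzp _ (Ideal.mem_map_of_mem _ hf))
      have h2 : {u | u ∈ S.map (UEY_emb τ₀ m) ∧ ∑ i, u i * z i = 0} =
          (UEY_emb τ₀ m) '' {u | u ∈ S ∧ ∑ i, τ₀ (u i) * z i = 0} := by
        ext u
        constructor
        · rintro ⟨hu, hu2⟩
          obtain ⟨u₀, hu₀, rfl⟩ := Finset.mem_map.1 hu
          exact ⟨u₀, ⟨hu₀, hu2⟩, rfl⟩
        · rintro ⟨u₀, ⟨hu₀, hu2⟩, rfl⟩
          exact ⟨Finset.mem_map_of_mem _ hu₀, hu2⟩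
      rw [h2, Set.ncard_image_of_injective _ (UEY_emb τ₀ m).injective]
      exact h1) (by
      intro u hu
      obtain ⟨u₀, hu₀, rfl⟩ := Finset.mem_map.1 hu
      rw [← UEY_lf, hk']
      exact hLOX Ω τ₀ m (k u₀) p (lf u₀) hp (hlow u₀ hu₀)) (by
      rw [Finset.card_map]
      exact hcard)
    obtain ⟨D₀, hD₀0, hspan⟩ := hDSG Ω τ₀ m p D hD0
    refine ⟨D₀, hD₀0, ?_⟩
    intro τ x hx hpx hpow
    obtain ⟨α, hα⟩ := hAUT Ω τ₀ τ
    have h1 := UEV_span τ₀ τ k k' hk' p S D α hα x hx hpx hpow hD (map τ₀ D₀) hspan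
    have h2 : aq α (map τ₀ D₀) = map τ D₀ := by
      unfold aq
      rw [map_map]
      have h3 : (α : ℂ →+* ℂ).comp τ₀ = τ := by
        ext a
        exact hα a
      rw [h3]
    rw [h2, aeval_def, eval₂_map] at h1
    exact h1
  · refine ⟨1, fun h => hp.ne_top ((Ideal.eq_top_iff_one _).2 h), ?_⟩
    intro τ
    exact absurd ⟨τ⟩ hne

end Pool.MPY
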