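import Pool.Agent.Work.MP_f82ddf_Y.Interface2

set_option autoImplicit false

/-! # THEOREM T, block UNF: from the generic point to all points over `Mer` -/

open Pool.Agent.Work.MP_f82ddf_nt.DQ

namespace Pool.MPY

open MvPolynomial
open Pool.Agent.Work.MP_f82ddf_M5 (lineAt resAt chow at2 comb Data)
open Pool.ThmM (NonProp HypData LastMonic IsRat om dv vP)
open Pool.ThmM0 (Per)
open Pool.ThmM.Chow (Phi Mov)
open Pool.MPL (RX NC aq ae NPr Spn)

/-- The field of fractions of the quotient by a prime ideal. -/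
private lemma UNF_frac (R : Type) [CommRing R] (q : Ideal R) (hq : q.IsPrime) :
    ∃ (M : Type) (_ : Field M) (π : R →+* M), ∀ f, π f = 0 ↔ f ∈ q := by
  have := hq
  refine ⟨FractionRing (R ⧸ q), inferInstance,
    (algebraMap (R ⧸ q) (FractionRing (R ⧸ q))).comp (Ideal.Quotient.mk q), fun f => ?_⟩
  rw [RingHom.comp_apply, IsFractionRing.to_map_eq_zero_iff, Ideal.Quotient.eq_zero_iff_mem]

/-- The Chow form over `ℂ[X_0, .., X_m]`. -/
private noncomputable def UNF_U {m r w : ℕ} (d : ℕ) (Q : MvPolynomial (Fin (w + 2)) ℂ)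
    (A : Fin (r + 1) → MvPolynomial (Fin (w + 2)) ℂ) (L : Fin (r + 1) → Fin (m + 1) → ℂ) :
    MvPolynomial (Fin 2 × Fin (w + 2)) (RX m) :=
  chow d d (map (algebraMap ℂ (RX m)) Q)
    (comb (algebraMap ℂ (RX m)) A (fun j => ∑ i, C (L j i) * X i))

private lemma UNF_map (hFUN : Pool.Agent.Work.MP_f82ddf_M5.Stmt_FUN) {m r w : ℕ} (d : ℕ)
    (Q : MvPolynomial (Fin (w + 2)) ℂ) (A : Fin (r + 1) → MvPolynomial (Fin (w + 2)) ℂ)
    (L : Fin (r + 1) → Fin (m + 1) → ℂ) {B : Type} [CommRing B] (ρ : RX m →+* B) (β : ℂ →+* B)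
    (hβ : ∀ c, ρ (C c) = β c) :
    map ρ (UNF_U d Q A L) =
      chow d d (map β Q) (comb β A (fun j => ∑ i, β (L j i) * ρ (X i))) := by
  have hc : ρ.comp (algebraMap ℂ (RX m)) = β := RingHom.ext fun c => hβ c
  unfold UNF_U
  rw [hFUN.2.2.2.2.2, map_map, hc]
  congr 1
  unfold comb
  rw [map_sum]
  refine Finset.sum_congr rfl fun j _ => ?_
  rw [map_mul, map_C, map_map, hc, map_sum]
  simp only [map_mul, hβ]

private lemma UNF_phi {r w : ℕ} (d : ℕ)
    (Q : MvPolynomial (Fin (w + 2)) ℂ) (A : Fin (r + 1) → MvPolynomial (Fin (w + 2)) ℂ)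
    (α : ℂ ≃+* ℂ) (y : Fin (r + 1) → Mer) :
    Phi Mer d (aq α Q) (fun i => aq α (A i)) y =
      chow d d (map ((algebraMap ℂ Mer).comp (α : ℂ →+* ℂ)) Q)
        (comb ((algebraMap ℂ Mer).comp (α : ℂ →+* ℂ)) A y) := by
  unfold Phi aq comb
  simp only [map_map]

private lemma UNF_sum {σ R : Type} [CommSemiring R] (S : Finset (σ →₀ ℕ)) (P : MvPolynomial σ R)
    (h : P.support ⊆ S) : ∑ ν : S, monomial (ν : σ →₀ ℕ) (coeff (ν : σ →₀ ℕ) P) = P := by
  classical
  rw [Finset.sum_coe_sort S (fun ν => monomial ν (coeff ν P))]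
  conv_rhs => rw [P.as_sum]
  refine (Finset.sum_subset h fun ν _ hν => ?_).symm
  rw [notMem_support_iff.mp hν, monomial_zero]

/-- if every irreducible factor divides a complex polynomial, so does the polynomial -/
private lemma UNF_fac {M σ : Type} [Field M] [Algebra ℂ M] [Finite σ] (F : MvPolynomial σ M)
    (hF : F ≠ 0)
    (h : ∀ P, Irreducible P → P ∣ F →
      ∃ H : MvPolynomial σ ℂ, H ≠ 0 ∧ P ∣ map (algebraMap ℂ M) H) :
    ∃ H : MvPolynomial σ ℂ, H ≠ 0 ∧ F ∣ map (algebraMap ℂ M) H := by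
  revert hF h
  refine WfDvdMonoid.induction_on_irreducible F ?_ ?_ ?_
  · intro h0
    exact absurd rfl h0
  · intro u hu _ _
    exact ⟨1, one_ne_zero, hu.dvd⟩
  · intro a i ha hi ih _ h
    obtain ⟨H, hH, hd⟩ := ih ha fun P hP hPa => h P hP (hPa.mul_left i)
    obtain ⟨H', hH', hd'⟩ := h i hi (dvd_mul_right i a)
    refine ⟨H' * H, mul_ne_zero hH' hH, ?_⟩
    rw [map_mul]
    exact mul_dvd_mul hd' hd

/-- the case `k = 0`: a bigger field with a transcendental element -/
private lemma UNF_big (m : ℕ) (p : Ideal (RX m)) (hp : p.IsPrime) :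
    ∃ (M : Type) (_ : Field M) (_ : Algebra ℂ M) (η : Fin (m + 1) → M) (T : M),
      (∀ f, aeval η f = 0 ↔ f ∈ p) ∧ ∀ a b : ℂ, T * algebraMap ℂ M a = algebraMap ℂ M b → a = 0 := by
  have := hp
  obtain ⟨M, iM, π, hπ⟩ := UNF_frac (Polynomial (RX m)) (Ideal.map Polynomial.C p)
    Ideal.isPrime_map_C_of_isPrime
  let _ : Algebra ℂ M := (π.comp (Polynomial.C.comp C)).toAlgebra
  have halg : ∀ c : ℂ, algebraMap ℂ M c = π (Polynomial.C (C c)) := fun c => rfl
  refine ⟨M, iM, inferInstance, fun i => π (Polynomial.C (X i)), π Polynomial.X, fun f => ?_,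
    fun a b hab => ?_⟩
  · have h1 : aeval (fun i => π (Polynomial.C (X i))) f = π (Polynomial.C f) := by
      have : ((aeval (fun i => π (Polynomial.C (X i))) : RX m →ₐ[ℂ] M) : RX m →+* M) =
          π.comp Polynomial.C := by
        refine MvPolynomial.ringHom_ext (fun c => ?_) (fun i => ?_)
        · simp [halg]
        · simp
      exact congrArg (fun g : RX m →+* M => g f) this
    rw [h1, hπ, Ideal.mem_map_C_iff]
    constructor
    · intro h
      simpa using h 0
    · intro h n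
      rw [Polynomial.coeff_C]
      split_ifs
      · exact h
      · exact p.zero_mem
  · rw [halg, halg, ← map_mul, ← sub_eq_zero, ← map_sub, hπ, Ideal.mem_map_C_iff] at hab
    have h1 := hab 1
    rw [Polynomial.coeff_sub, Polynomial.coeff_X_mul, Polynomial.coeff_C_zero,
      Polynomial.coeff_C_succ, sub_zero] at h1
    by_contra ha
    refine hp.ne_top (Ideal.eq_top_of_isUnit_mem p h1 ?_)
    exact (isUnit_iff_ne_zero.mpr ha).map C

private lemma UNF_irr {M σ : Type} [Field M] (a b : σ) (hab : a ≠ b) (T : M) :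
    Irreducible (X a + C T * X b : MvPolynomial σ M) := by
  classical
  have hne : Finsupp.single b 1 ≠ Finsupp.single a (1 : ℕ) := by
    intro h
    exact hab (Finsupp.single_left_injective one_ne_zero h).symm
  have hc : coeff (Finsupp.single a 1) (X a + C T * X b : MvPolynomial σ M) = 1 := by
    rw [coeff_add, coeff_C_mul, coeff_X, coeff_X, if_pos rfl, if_neg hne, mul_zero, add_zero]
  refine irreducible_of_totalDegree_eq_one (le_antisymm ?_ ?_) fun x hx => ?_
  · refine (totalDegree_add _ _).trans (max_le (totalDegree_X _).le ?_)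
    refine (totalDegree_mul _ _).trans ?_
    rw [totalDegree_C, zero_add]
    exact (totalDegree_X _).le
  · have h := le_totalDegree (p := (X a + C T * X b : MvPolynomial σ M))
      (s := Finsupp.single a 1) (by rw [mem_support_iff, hc]; exact one_ne_zero)
    simpa using h
  · have := hx (Finsupp.single a 1)
    rw [hc] at this
    exact isUnit_of_dvd_one this

/-- The ring of the coefficients of the universal triple. -/
private abbrev UNF_Y (m w : ℕ) (S : Finset (Fin 2 × Fin (w + 2) →₀ ℕ)) : Type :=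
  MvPolynomial (Fin (m + 1) ⊕ (S ⊕ S)) ℂ

private noncomputable def UNF_j (m w : ℕ) (S : Finset (Fin 2 × Fin (w + 2) →₀ ℕ)) :
    RX m →+* UNF_Y m w S :=
  ((rename Sum.inl : RX m →ₐ[ℂ] UNF_Y m w S) : RX m →+* UNF_Y m w S)

private lemma UNF_j_C (m w : ℕ) (S : Finset (Fin 2 × Fin (w + 2) →₀ ℕ)) (c : ℂ) :
    UNF_j m w S (C c) = C c := by
  simp [UNF_j]

private lemma UNF_j_X (m w : ℕ) (S : Finset (Fin 2 × Fin (w + 2) →₀ ℕ)) (i : Fin (m + 1)) :
    UNF_j m w S (X i) = X (Sum.inl i) := by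
  simp [UNF_j]

/-- The ring homomorphism given by a triple. -/
private noncomputable def UNF_th {m w : ℕ} (S : Finset (Fin 2 × Fin (w + 2) →₀ ℕ))
    (α : ℂ ≃+* ℂ) (x : Fin (m + 1) → Mer) (P R : MvPolynomial (Fin 2 × Fin (w + 2)) Mer) :
    UNF_Y m w S →+* Mer :=
  eval₂Hom ((algebraMap ℂ Mer).comp (α : ℂ →+* ℂ))
    (Sum.elim x (Sum.elim (fun ν => coeff (ν : Fin 2 × Fin (w + 2) →₀ ℕ) P)
      (fun ν => coeff (ν : Fin 2 × Fin (w + 2) →₀ ℕ) R)))

private lemma UNF_th_C {m w : ℕ} (S : Finset (Fin 2 × Fin (w + 2) →₀ ℕ))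
    (α : ℂ ≃+* ℂ) (x : Fin (m + 1) → Mer) (P R : MvPolynomial (Fin 2 × Fin (w + 2)) Mer) (c : ℂ) :
    UNF_th S α x P R (C c) = algebraMap ℂ Mer (α c) := by
  simp [UNF_th]

private lemma UNF_th_X {m w : ℕ} (S : Finset (Fin 2 × Fin (w + 2) →₀ ℕ))
    (α : ℂ ≃+* ℂ) (x : Fin (m + 1) → Mer) (P R : MvPolynomial (Fin 2 × Fin (w + 2)) Mer)
    (i : Fin (m + 1)) : UNF_th S α x P R (X (Sum.inl i)) = x i := by
  simp [UNF_th]

private lemma UNF_th_P {m w : ℕ} (S : Finset (Fin 2 × Fin (w + 2) →₀ ℕ))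
    (α : ℂ ≃+* ℂ) (x : Fin (m + 1) → Mer) (P R : MvPolynomial (Fin 2 × Fin (w + 2)) Mer)
    (ν : S) : UNF_th S α x P R (X (Sum.inr (Sum.inl ν))) = coeff (ν : Fin 2 × Fin (w + 2) →₀ ℕ) P := by
  simp [UNF_th]

private lemma UNF_th_R {m w : ℕ} (S : Finset (Fin 2 × Fin (w + 2) →₀ ℕ))
    (α : ℂ ≃+* ℂ) (x : Fin (m + 1) → Mer) (P R : MvPolynomial (Fin 2 × Fin (w + 2)) Mer)
    (ν : S) : UNF_th S α x P R (X (Sum.inr (Sum.inr ν))) = coeff (ν : Fin 2 × Fin (w + 2) →₀ ℕ) R := by
  simp [UNF_th]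

private lemma UNF_th_j {m w : ℕ} (S : Finset (Fin 2 × Fin (w + 2) →₀ ℕ))
    (α : ℂ ≃+* ℂ) (x : Fin (m + 1) → Mer) (P R : MvPolynomial (Fin 2 × Fin (w + 2)) Mer)
    (f : RX m) : UNF_th S α x P R (UNF_j m w S f) = aeval x (aq α f) := by
  have : (UNF_th S α x P R).comp (UNF_j m w S) =
      ((aeval x : RX m →ₐ[ℂ] Mer) : RX m →+* Mer).comp (map (α : ℂ →+* ℂ)) := by
    refine MvPolynomial.ringHom_ext (fun c => ?_) (fun i => ?_)
    · rw [RingHom.comp_apply, UNF_j_C, UNF_th_C]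
      simp
    · rw [RingHom.comp_apply, UNF_j_X, UNF_th_X]
      simp
  exact congrArg (fun g : RX m →+* Mer => g f) this

theorem p_UNF (hMPI : Stmt_MPI) (hDVC : Stmt_DVC) (hCNZ : Pool.MPW.Stmt_CNZ)
    (hFUN : Pool.Agent.Work.MP_f82ddf_M5.Stmt_FUN) (hTRP : Pool.MPL.Stmt_TRP) : Stmt_UNF := by
  classical
  intro m r w d k Q A L p hdat hp hH
  have := hp
  -- the case `k = 0`
  rcases Nat.eq_zero_or_pos k with hk0 | hk
  · subst hk0
    obtain ⟨M, iM, iA, η, T, hη, hT⟩ := UNF_big m p hp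
    have hL : ∀ j, (∑ i, C (L j i) * X i : RX m) ∈ p := by
      by_contra hL
      push Not at hL
      obtain ⟨j₀, hj₀⟩ := hL
      have h01 : ((0 : Fin 2), (0 : Fin (w + 2))) ≠ ((1 : Fin 2), (0 : Fin (w + 2))) := by
        intro h
        have h2 := congrArg Prod.fst h
        exact absurd h2 (by simp)
      refine hH M η (X ((0 : Fin 2), (0 : Fin (w + 2))) + C T * X ((1 : Fin 2), (0 : Fin (w + 2))))
        hη ?_ (UNF_irr _ _ h01 T) ?_ ?_
      · intro h
        apply hj₀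
        rw [← hη]
        have := congrFun h j₀
        simpa using this
      · intro H hH0 hdvd
        obtain ⟨c, G, hc, hG, hPG⟩ := hDVC M (Fin 2 × Fin (w + 2)) _ H hH0 hdvd
        have hne : Finsupp.single ((1 : Fin 2), (0 : Fin (w + 2))) 1 ≠
            Finsupp.single ((0 : Fin 2), (0 : Fin (w + 2))) (1 : ℕ) := by
          intro h
          exact h01 (Finsupp.single_left_injective one_ne_zero h).symm
        have e1 := congrArg (coeff (Finsupp.single ((0 : Fin 2), (0 : Fin (w + 2))) 1)) hPG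
        have e2 := congrArg (coeff (Finsupp.single ((1 : Fin 2), (0 : Fin (w + 2))) 1)) hPG
        rw [coeff_add, coeff_C_mul, coeff_X, coeff_X, if_pos rfl, if_neg hne, mul_zero,
          add_zero, coeff_C_mul, coeff_map] at e1
        rw [coeff_add, coeff_C_mul, coeff_X, coeff_X, if_neg hne.symm, if_pos rfl, mul_one,
          zero_add, coeff_C_mul, coeff_map] at e2
        have h0 := hT (coeff (Finsupp.single ((0 : Fin 2), (0 : Fin (w + 2))) 1) G)
          (coeff (Finsupp.single ((1 : Fin 2), (0 : Fin (w + 2))) 1) G) (by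
            linear_combination
              algebraMap ℂ M (coeff (Finsupp.single ((0 : Fin 2), (0 : Fin (w + 2))) 1) G) * e2 -
              algebraMap ℂ M (coeff (Finsupp.single ((1 : Fin 2), (0 : Fin (w + 2))) 1) G) * e1)
        rw [h0, map_zero, mul_zero] at e1
        exact one_ne_zero e1
      · rw [pow_zero]
        exact one_dvd _
    refine ⟨1, (Ideal.ne_top_iff_one p).mp hp.ne_top, ?_⟩
    intro α x P hx hy _ _ _
    exfalso
    apply hy
    funext j
    have := hx _ (hL j)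
    simpa [aq] using this
  -- the case `k ≥ 1`
  set e : Fin 2 × Fin (w + 2) → ℕ := fun v => degreeOf v (UNF_U d Q A L) with he
  have hSfin : {ν : Fin 2 × Fin (w + 2) →₀ ℕ | ∀ v, ν v ≤ e v}.Finite := by
    have : {ν : Fin 2 × Fin (w + 2) →₀ ℕ | ∀ v, ν v ≤ e v} ⊆
        Set.Iic (Finsupp.equivFunOnFinite.symm e) := by
      intro ν hν v
      exact hν v
    exact (Set.finite_Iic _).subset this
  set S : Finset (Fin 2 × Fin (w + 2) →₀ ℕ) := hSfin.toFinset with hS
  have hSm : ∀ ν, ν ∈ S ↔ ∀ v, ν v ≤ e v := fun ν => by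
    rw [hS, Set.Finite.mem_toFinset]; rfl
  clear_value S
  obtain ⟨PP, hPP⟩ : ∃ PP : MvPolynomial (Fin 2 × Fin (w + 2)) (UNF_Y m w S), PP =
    ∑ ν : S, monomial (ν : Fin 2 × Fin (w + 2) →₀ ℕ) (X (Sum.inr (Sum.inl ν))) := ⟨_, rfl⟩
  obtain ⟨RR, hRR⟩ : ∃ RR : MvPolynomial (Fin 2 × Fin (w + 2)) (UNF_Y m w S), RR =
    ∑ ν : S, monomial (ν : Fin 2 × Fin (w + 2) →₀ ℕ) (X (Sum.inr (Sum.inr ν))) := ⟨_, rfl⟩
  -- the homomorphism given by a bad triple
  let β : (ℂ ≃+* ℂ) → (ℂ →+* Mer) := fun α => (algebraMap ℂ Mer).comp (α : ℂ →+* ℂ)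
  have hβ : ∀ α c, β α c = algebraMap ℂ Mer (α c) := fun α c => rfl
  let Bad : (ℂ ≃+* ℂ) → (Fin (m + 1) → Mer) → MvPolynomial (Fin 2 × Fin (w + 2)) Mer →
      MvPolynomial (Fin 2 × Fin (w + 2)) Mer → Prop := fun α x P R =>
    (∀ f ∈ p, aeval x (aq α f) = 0) ∧
    (fun j => ∑ i, algebraMap ℂ Mer (α (L j i)) * x i) ≠ 0 ∧ Irreducible P ∧ Mov P ∧
    Phi Mer d (aq α Q) (fun i => aq α (A i))
        (fun j => ∑ i, algebraMap ℂ Mer (α (L j i)) * x i) = P ^ k * R
  let Θ : Set (Ideal (UNF_Y m w S)) := {I | ∃ α x P R, Bad α x P R ∧ I = RingHom.ker (UNF_th S α x P R)}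
  have hΘp : ∀ I ∈ Θ, I.IsPrime := by
    rintro I ⟨α, x, P, R, -, rfl⟩
    exact RingHom.ker_isPrime _
  -- the Chow form of a bad triple
  have hUphi : ∀ α x P R, map (UNF_th S α x P R) (map (UNF_j m w S) (UNF_U d Q A L)) =
      Phi Mer d (aq α Q) (fun i => aq α (A i))
        (fun j => ∑ i, algebraMap ℂ Mer (α (L j i)) * x i) := by
    intro α x P R
    rw [map_map, UNF_map hFUN d Q A L ((UNF_th S α x P R).comp (UNF_j m w S)) (β α) (fun c => by
      rw [RingHom.comp_apply, UNF_th_j]; simp [aq, hβ]), UNF_phi]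
    congr 2
    funext j
    refine Finset.sum_congr rfl fun i _ => ?_
    rw [hβ, RingHom.comp_apply, UNF_th_j]
    simp [aq, hβ]
  have hPR : ∀ α x P R, Bad α x P R → map (UNF_th S α x P R) PP = P ∧ map (UNF_th S α x P R) RR = R := by
    intro α x P R hbad
    obtain ⟨hx, hy, hPi, hPm, hPhi⟩ := hbad
    have hne : Phi Mer d (aq α Q) (fun i => aq α (A i))
        (fun j => ∑ i, algebraMap ℂ Mer (α (L j i)) * x i) ≠ 0 :=
      hCNZ (w + 2) r d d (aq α Q) (fun i => aq α (A i))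
        ((hTRP α).2.2.1 (w + 2) r d Q A hdat) Mer _ hy
    have hdeg : ∀ v, degreeOf v (P ^ k * R) ≤ e v := by
      intro v
      rw [← hPhi, ← hUphi α x P R, map_map]
      rw [degreeOf_le_iff]
      intro ν hν
      have hν2 : ν ∈ (UNF_U d Q A L).support := support_map_subset _ _ hν
      exact monomial_le_degreeOf v hν2
    rw [hPhi] at hne
    have hPk : P ^ k ≠ 0 := left_ne_zero_of_mul hne
    have hR0 : R ≠ 0 := right_ne_zero_of_mul hne
    have hdP : ∀ v, degreeOf v P ≤ e v := by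
      intro v
      have h1 := hdeg v
      rw [degreeOf_mul_eq hPk hR0, degreeOf_pow_eq v P k hPi.ne_zero] at h1
      have : degreeOf v P ≤ k * degreeOf v P := Nat.le_mul_of_pos_left _ hk
      omega
    have hdR : ∀ v, degreeOf v R ≤ e v := by
      intro v
      have h1 := hdeg v
      rw [degreeOf_mul_eq hPk hR0] at h1
      omega
    have hsP : P.support ⊆ S := fun ν hν =>
      (hSm ν).mpr fun v => (monomial_le_degreeOf v hν).trans (hdP v)
    have hsR : R.support ⊆ S := fun ν hν =>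
      (hSm ν).mpr fun v => (monomial_le_degreeOf v hν).trans (hdR v)
    constructor
    · conv_rhs => rw [← UNF_sum S P hsP]
      rw [hPP, map_sum]
      refine Finset.sum_congr rfl fun ν _ => ?_
      rw [map_monomial, UNF_th_P]
    · conv_rhs => rw [← UNF_sum S R hsR]
      rw [hRR, map_sum]
      refine Finset.sum_congr rfl fun ν _ => ?_
      rw [map_monomial, UNF_th_R]
  -- the dichotomy
  by_cases hcase : ∀ q ∈ (sInf Θ).minimalPrimes, q.comap (UNF_j m w S) ≠ p
  · have hfin : (sInf Θ).minimalPrimes.Finite :=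
      Ideal.finite_minimalPrimes_of_isNoetherianRing (UNF_Y m w S) (sInf Θ)
    have hle : ∀ q ∈ (sInf Θ).minimalPrimes, p ≤ q.comap (UNF_j m w S) := by
      intro q hq f hf
      rw [Ideal.mem_comap]
      refine hq.1.2 ?_
      rw [Ideal.mem_sInf]
      rintro I ⟨α, x, P, R, hbad, rfl⟩
      rw [RingHom.mem_ker, UNF_th_j]
      exact hbad.1 f hf
    have hex : ∀ q ∈ (sInf Θ).minimalPrimes, ∃ D ∈ q.comap (UNF_j m w S), D ∉ p := by
      intro q hq
      by_contra hcon
      push Not at hcon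
      exact hcase q hq (le_antisymm (fun D hD => hcon D hD) (hle q hq))
    choose! DD hDD1 hDD2 using hex
    refine ⟨∏ q ∈ hfin.toFinset, DD q, ?_, ?_⟩
    · intro hmem
      obtain ⟨q, hq, hqm⟩ := (Ideal.IsPrime.prod_mem_iff (p := p)).mp hmem
      exact hDD2 q (hfin.mem_toFinset.mp hq) hqm
    · intro α x P hx hy hPi hPm hdvd
      obtain ⟨R, hR⟩ := hdvd
      have hbad : Bad α x P R := ⟨hx, hy, hPi, hPm, hR⟩
      have hI : RingHom.ker (UNF_th S α x P R) ∈ Θ := ⟨α, x, P, R, hbad, rfl⟩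
      have := hΘp _ hI
      obtain ⟨q, hq, hqI⟩ := Ideal.exists_minimalPrimes_le (sInf_le hI)
      rw [← UNF_th_j S α x P R, ← RingHom.mem_ker]
      refine hqI ?_
      rw [map_prod]
      exact Ideal.mem_of_dvd q (Finset.dvd_prod_of_mem (fun q => (UNF_j m w S) (DD q)) (hfin.mem_toFinset.mpr hq)) (hDD1 q hq)
  · exfalso
    push Not at hcase
    obtain ⟨q, hq, hqp⟩ := hcase
    obtain ⟨M, iM, π, hπ⟩ := UNF_frac (UNF_Y m w S) q hq.1.1
    let _ : Algebra ℂ M := (π.comp (C : ℂ →+* UNF_Y m w S)).toAlgebra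
    have halg : ∀ c : ℂ, algebraMap ℂ M c = π (C c) := fun c => rfl
    obtain ⟨I, ⟨α, x, P, R, hbad, rfl⟩, hqI⟩ := hMPI (UNF_Y m w S) Θ hΘp q hq
    -- from `π` to `θ`
    have hπθ : ∀ f : UNF_Y m w S, π f = 0 → UNF_th S α x P R f = 0 := fun f hf =>
      RingHom.mem_ker.mp (hqI ((hπ f).mp hf))
    have hπθm : ∀ F : MvPolynomial (Fin 2 × Fin (w + 2)) (UNF_Y m w S), map π F = 0 →
        map (UNF_th S α x P R) F = 0 := by
      intro F hF
      ext ν
      rw [coeff_map, coeff_zero]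
      refine hπθ _ ?_
      rw [← coeff_map, hF, coeff_zero]
    set η : Fin (m + 1) → M := fun i => π (X (Sum.inl i)) with hη
    have hπj : ∀ f : RX m, π ((UNF_j m w S) f) = aeval η f := by
      intro f
      have : π.comp (UNF_j m w S) = ((aeval η : RX m →ₐ[ℂ] M) : RX m →+* M) := by
        refine MvPolynomial.ringHom_ext (fun c => ?_) (fun i => ?_)
        · rw [RingHom.comp_apply, UNF_j_C]
          simp [halg]
        · rw [RingHom.comp_apply, UNF_j_X]
          simp [hη]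
      exact congrArg (fun g : RX m →+* M => g f) this
    have hgen : ∀ f, aeval η f = 0 ↔ f ∈ p := by
      intro f
      rw [← hπj, hπ, ← hqp, Ideal.mem_comap]
    -- the relation
    have hrel : map π PP ^ k * map π RR = map π (map (UNF_j m w S) (UNF_U d Q A L)) := by
      rw [← sub_eq_zero, ← map_pow, ← map_mul, ← map_sub]
      ext ν
      rw [coeff_map, coeff_zero, hπ]
      refine hq.1.2 ?_
      rw [Ideal.mem_sInf]
      rintro I ⟨α', x', P', R', hbad', rfl⟩
      rw [RingHom.mem_ker, ← coeff_map, map_sub, map_mul, map_pow, (hPR _ _ _ _ hbad').1,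
        (hPR _ _ _ _ hbad').2, hUphi, hbad'.2.2.2.2, sub_self, coeff_zero]
    have hchow : map π (map (UNF_j m w S) (UNF_U d Q A L)) =
        chow d d (map (algebraMap ℂ M) Q)
          (comb (algebraMap ℂ M) A (fun j => ∑ i, algebraMap ℂ M (L j i) * η i)) := by
      rw [map_map, UNF_map hFUN d Q A L (π.comp (UNF_j m w S)) (algebraMap ℂ M) (fun c => by
        rw [RingHom.comp_apply, hπj]; simp)]
      congr 2
      funext j
      refine Finset.sum_congr rfl fun i _ => ?_
      rw [RingHom.comp_apply, hπj]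
      simp
    have hLη : (fun j => ∑ i, algebraMap ℂ M (L j i) * η i) ≠ 0 := by
      intro h
      apply hbad.2.1
      funext j
      have h1 : π ((UNF_j m w S) (∑ i, C (L j i) * X i)) = 0 := by
        rw [hπj]
        have := congrFun h j
        simpa using this
      have h2 := hπθ _ h1
      rw [UNF_th_j] at h2
      simpa [aq] using h2
    have hPP0 : map π PP ≠ 0 := by
      intro h
      have := hπθm PP h
      rw [(hPR _ _ _ _ hbad).1] at this
      exact hbad.2.2.1.ne_zero this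
    -- some irreducible factor divides no complex polynomial
    have hex : ∃ P', Irreducible P' ∧ P' ∣ map π PP ∧
        ∀ H : MvPolynomial (Fin 2 × Fin (w + 2)) ℂ, H ≠ 0 → ¬ P' ∣ map (algebraMap ℂ M) H := by
      by_contra hcon
      push Not at hcon
      obtain ⟨H, hH0, hd⟩ := UNF_fac (map π PP) hPP0 hcon
      obtain ⟨c, G, hc, hG, hPG⟩ := hDVC M (Fin 2 × Fin (w + 2)) _ H hH0 hd
      obtain ⟨ν₀, hν₀⟩ : ∃ ν₀, coeff ν₀ G ≠ 0 := by
        by_contra hall
        push Not at hall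
        exact hG (MvPolynomial.ext _ _ fun ν => by rw [hall ν, coeff_zero])
      have hcf : ∀ ν, π (coeff ν PP) = c * π (C (coeff ν G)) := by
        intro ν
        rw [← coeff_map, hPG, coeff_C_mul, coeff_map, halg]
      have hcr : ∀ ν, β α (coeff ν₀ G) * coeff ν P = β α (coeff ν G) * coeff ν₀ P := by
        intro ν
        have h1 : π (C (coeff ν₀ G) * coeff ν PP - C (coeff ν G) * coeff ν₀ PP) = 0 := by
          rw [map_sub, map_mul, map_mul, hcf, hcf]
          ring
        have h2 := hπθ _ h1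
        rw [map_sub, map_mul, map_mul, ← coeff_map (UNF_th S α x P R) PP ν,
          ← coeff_map (UNF_th S α x P R) PP ν₀, (hPR _ _ _ _ hbad).1] at h2
        rw [UNF_th_C, UNF_th_C] at h2
        exact sub_eq_zero.mp h2
      have hβ0 : β α (coeff ν₀ G) ≠ 0 := by
        intro h
        exact hν₀ ((β α).injective (by rw [h, map_zero]))
      refine hbad.2.2.2.1 (coeff ν₀ P / β α (coeff ν₀ G)) (map (α : ℂ →+* ℂ) G) ?_
      ext ν
      rw [coeff_C_mul, coeff_map, coeff_map]
      have h4 : algebraMap ℂ Mer ((α : ℂ →+* ℂ) (coeff ν G)) = β α (coeff ν G) := rfl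
      rw [h4, div_mul_eq_mul_div, eq_div_iff hβ0]
      have := hcr ν
      linear_combination this
    obtain ⟨P', hP', hdv, hno⟩ := hex
    refine hH M η P' hgen hLη hP' hno ?_
    rw [← hchow, ← hrel]
    exact (pow_dvd_pow_of_dvd hdv k).mul_right _

end Pool.MPY
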