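import Pool.Agent.Work.MP_f82ddf_Y.Interface3

set_option autoImplicit false

/-! # THEOREM T (MP_f82ddf_nt), block VPR (helper75): minimal primes under the Veronese map -/

namespace Pool.MPY

open MvPolynomial

theorem p_VPR (hVRG : Stmt_VRG) : Stmt_VPR := by
  intro Ω _ b t E a ε hε hE ha p F L hL q' hq'
  have hint := (hVRG.2 Ω b t E ε hε hE).2.2.2.2
  obtain ⟨φ, hφ⟩ : ∃ φ : MvPolynomial (Fin (t + 1)) Ω →+* MvPolynomial (Fin (b + 1)) Ω,
      φ = ((vr ε : MvPolynomial (Fin (t + 1)) Ω →ₐ[Ω] MvPolynomial (Fin (b + 1)) Ω) :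
        MvPolynomial (Fin (t + 1)) Ω →+* MvPolynomial (Fin (b + 1)) Ω) := ⟨_, rfl⟩
  have hφv : ∀ f, φ f = vr ε f := fun f => by rw [hφ]; rfl
  have hcm : ∀ I : Ideal (MvPolynomial (Fin (b + 1)) Ω), I.comap (vr ε) = I.comap φ := by
    intro I
    ext f
    rw [Ideal.mem_comap, Ideal.mem_comap, hφv]
  rw [← hφ] at hint
  rw [hcm] at hq'
  let _ := φ.toAlgebra
  have : Algebra.IsIntegral (MvPolynomial (Fin (t + 1)) Ω) (MvPolynomial (Fin (b + 1)) Ω) :=
    ⟨fun x => hint x⟩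
  have : q'.IsPrime := hq'.1.1
  have hLq : L ∈ q' := hq'.1.2 (Ideal.mem_sup_right (Ideal.mem_span_singleton_self L))
  obtain ⟨Q, hQp, hQ, hQc⟩ := Ideal.exists_ideal_over_prime_of_isIntegral q' p
    (le_sup_left.trans hq'.1.2)
  have hQc' : Q.comap φ = q' := hQc
  have hFQ : F ∈ Q := by
    have h1 : L ∈ Q.comap φ := by rw [hQc']; exact hLq
    rw [Ideal.mem_comap, hφv, hL] at h1
    exact hQ.mem_of_pow_mem a h1
  have hle : p ⊔ Ideal.span {F} ≤ Q :=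
    sup_le hQp ((Ideal.span_singleton_le_iff_mem Q).2 hFQ)
  obtain ⟨q, hq, hqQ⟩ := Ideal.exists_minimalPrimes_le hle
  refine ⟨q, hq, ?_⟩
  have : q.IsPrime := hq.1.1
  have hFq : F ∈ q := hq.1.2 (Ideal.mem_sup_right (Ideal.mem_span_singleton_self F))
  have h1 : q.comap φ ≤ q' := by
    rw [← hQc']
    exact Ideal.comap_mono hqQ
  have h2 : p.comap φ ⊔ Ideal.span {L} ≤ q.comap φ := by
    refine sup_le (Ideal.comap_mono (le_sup_left.trans hq.1.2)) ?_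
    rw [Ideal.span_singleton_le_iff_mem, Ideal.mem_comap, hφv, hL]
    exact Ideal.pow_mem_of_mem q hFq a (by omega)
  rw [hcm]
  exact le_antisymm h1 (hq'.2 ⟨Ideal.IsPrime.comap φ, h2⟩ h1)

end Pool.MPY
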