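import Pool.Agent.Work.MP_f82ddf_Y.Interface3

set_option autoImplicit false

/-! # THEOREM T (MP_f82ddf_nt), block VRG: the Veronese homomorphism -/

namespace Pool.MPY

open MvPolynomial Finset

/-- The exponents of a given degree, enumerated. -/
private theorem VRG_enum (b E : ℕ) :
    ∃ (t : ℕ) (ε : Fin (t + 1) → Fin (b + 1) →₀ ℕ), Exps E ε := by
  classical
  set A : Finset (Fin (b + 1) →₀ ℕ) := (Finset.univ : Finset (Fin (b + 1))).finsuppAntidiag E
    with hA
  have hmem : ∀ μ : Fin (b + 1) →₀ ℕ, μ ∈ A ↔ ∑ i, μ i = E := by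
    intro μ
    rw [hA, Finset.mem_finsuppAntidiag]
    exact ⟨fun h => h.1, fun h => ⟨h, Finset.subset_univ _⟩⟩
  have hne : A.Nonempty := by
    refine ⟨Finsupp.single 0 E, ?_⟩
    rw [hmem]
    rw [Finset.sum_eq_single 0]
    · rw [Finsupp.single_eq_same]
    · intro j _ hj
      rw [Finsupp.single_eq_of_ne hj]
    · intro h
      exact absurd (Finset.mem_univ _) h
  have hcard : Fintype.card A = (Fintype.card A - 1) + 1 := by
    have h1 : 0 < Fintype.card A := by
      rw [Fintype.card_coe]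
      exact Finset.card_pos.2 hne
    omega
  refine ⟨Fintype.card A - 1, fun c => ((Fintype.equivFinOfCardEq hcard).symm c : A).1, ?_, ?_⟩
  · intro c d hcd
    exact (Fintype.equivFinOfCardEq hcard).symm.injective (Subtype.ext hcd)
  · intro μ
    rw [← hmem]
    constructor
    · intro h
      refine ⟨Fintype.equivFinOfCardEq hcard ⟨μ, h⟩, ?_⟩
      simp
    · rintro ⟨c, rfl⟩
      exact ((Fintype.equivFinOfCardEq hcard).symm c).2

private theorem VRG_X {F : Type} [CommRing F] {t b : ℕ} (ε : Fin t → Fin b →₀ ℕ) (c : Fin t) :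
    vr (F := F) ε (X c) = monomial (ε c) 1 := by
  simp [vr]

private theorem VRG_eval {Ω : Type} [Field Ω] {b t : ℕ} (ε : Fin (t + 1) → Fin (b + 1) →₀ ℕ)
    (R : Type) [CommRing R] (φ : Ω →+* R) (x : Fin (b + 1) → R)
    (f : MvPolynomial (Fin (t + 1)) Ω) :
    eval₂ φ x (vr ε f) = eval₂ φ (fun c => ∏ i, x i ^ ε c i) f := by
  have h1 : ((eval₂Hom φ x).comp
      ((vr ε : MvPolynomial (Fin (t + 1)) Ω →ₐ[Ω] MvPolynomial (Fin (b + 1)) Ω) :
      MvPolynomial (Fin (t + 1)) Ω →+* MvPolynomial (Fin (b + 1)) Ω)) =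
      eval₂Hom φ (fun c => ∏ i, x i ^ ε c i) := by
    apply MvPolynomial.ringHom_ext
    · intro r
      simp [vr]
    · intro c
      simp only [RingHom.coe_comp, RingHom.coe_coe, Function.comp_apply, coe_eval₂Hom, eval₂_X]
      rw [VRG_X, eval₂_monomial, map_one, one_mul, Finsupp.prod_fintype]
      intro i
      exact pow_zero _
  exact congrArg (fun h : MvPolynomial (Fin (t + 1)) Ω →+* R => h f) h1

private theorem VRG_deg {n : ℕ} (μ : Fin n →₀ ℕ) : μ.degree = ∑ i, μ i := by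
  rw [Finsupp.degree_eq_sum]

private theorem VRG_form {Ω : Type} [Field Ω] {b t E : ℕ} (ε : Fin (t + 1) → Fin (b + 1) →₀ ℕ)
    (hε : Exps E ε) (F : MvPolynomial (Fin (b + 1)) Ω) (hF : F.IsHomogeneous E) :
    vr ε (lf fun c => coeff (ε c) F) = F := by
  classical
  unfold lf
  rw [map_sum]
  have h1 : ∀ c : Fin (t + 1), vr ε (C (coeff (ε c) F) * X c) =
      monomial (ε c) (coeff (ε c) F) := by
    intro c
    rw [map_mul, VRG_X]
    have h2 : vr ε (C (coeff (ε c) F)) = C (coeff (ε c) F) := by simp [vr]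
    rw [h2, C_mul_monomial, mul_one]
  rw [Finset.sum_congr rfl fun c _ => h1 c]
  ext μ
  rw [coeff_sum]
  simp only [coeff_monomial]
  by_cases hμ : ∑ i, μ i = E
  · obtain ⟨c, hc⟩ := (hε.2 μ).1 hμ
    rw [Finset.sum_eq_single c]
    · rw [if_pos hc, hc]
    · intro d _ hd
      rw [if_neg]
      intro h3
      exact hd (hε.1 (h3.trans hc.symm))
    · intro h
      exact absurd (Finset.mem_univ _) h
  · rw [Finset.sum_eq_zero]
    · refine (hF.coeff_eq_zero ?_).symm
      rw [VRG_deg]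
      exact hμ
    · intro c _
      rw [if_neg]
      intro h3
      exact hμ ((hε.2 μ).2 ⟨c, h3⟩)

private theorem VRG_hom {Ω : Type} [Field Ω] {b t E : ℕ} (ε : Fin (t + 1) → Fin (b + 1) →₀ ℕ)
    (hε : Exps E ε) (d : ℕ) (f : MvPolynomial (Fin (t + 1)) Ω) (hf : f.IsHomogeneous d) :
    (vr ε f).IsHomogeneous (d * E) := by
  have h1 : ∀ c, (monomial (ε c) (1 : Ω)).IsHomogeneous E := by
    intro c
    apply isHomogeneous_monomial
    rw [VRG_deg]
    exact (hε.2 _).2 ⟨c, rfl⟩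
  have h2 := hf.aeval (n := E) (fun c => monomial (ε c) (1 : Ω)) h1
  rw [mul_comm]
  exact h2

/-- Below an exponent of degree at least `E` there is one of degree `E`. -/
private theorem VRG_split {n : ℕ} (E : ℕ) (μ : Fin n →₀ ℕ) (h : E ≤ μ.degree) :
    ∃ ν : Fin n →₀ ℕ, ν ≤ μ ∧ ν.degree = E := by
  induction E with
  | zero => exact ⟨0, by simp, by simp⟩
  | succ E ih =>
    obtain ⟨ν, h1, h2⟩ := ih (by omega)
    have h3 : ν ≠ μ := by
      rintro rfl
      omega
    obtain ⟨i, hi⟩ : ∃ i, ν i < μ i := by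
      by_contra h4
      push Not at h4
      exact h3 (le_antisymm h1 h4)
    refine ⟨ν + Finsupp.single i 1, ?_, ?_⟩
    · intro j
      rw [Finsupp.add_apply]
      by_cases hj : j = i
      · subst hj
        rw [Finsupp.single_eq_same]
        omega
      · rw [Finsupp.single_eq_of_ne hj, add_zero]
        exact h1 j
    · rw [map_add, h2, Finsupp.degree_single]

private theorem VRG_mon {Ω : Type} [Field Ω] {b t E : ℕ} (ε : Fin (t + 1) → Fin (b + 1) →₀ ℕ)
    (hε : Exps E ε) (d : ℕ) : ∀ μ : Fin (b + 1) →₀ ℕ, μ.degree = d * E →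
    ∃ f : MvPolynomial (Fin (t + 1)) Ω, f.IsHomogeneous d ∧ vr ε f = monomial μ 1 := by
  induction d with
  | zero =>
    intro μ hμ
    rw [zero_mul] at hμ
    have h1 : μ = 0 := (Finsupp.degree_eq_zero_iff μ).1 hμ
    refine ⟨1, isHomogeneous_one _ _, ?_⟩
    rw [map_one, h1]
    rfl
  | succ d ih =>
    intro μ hμ
    obtain ⟨ν, h1, h2⟩ := VRG_split E μ (by rw [hμ]; nlinarith)
    obtain ⟨c, hc⟩ := (hε.2 ν).1 (by rw [← VRG_deg]; exact h2)
    have h3 : μ = (μ - ν) + ν := by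
      rw [tsub_add_cancel_of_le h1]
    have h4 : (μ - ν).degree = d * E := by
      have h5 : μ.degree = (μ - ν).degree + ν.degree := by
        conv_lhs => rw [h3]
        rw [map_add]
      rw [hμ, h2] at h5
      nlinarith
    obtain ⟨f, hf, hf2⟩ := ih (μ - ν) h4
    refine ⟨f * X c, hf.mul (isHomogeneous_X _ _), ?_⟩
    rw [map_mul, hf2, VRG_X, hc, monomial_mul, one_mul, ← h3]

private theorem VRG_sur {Ω : Type} [Field Ω] {b t E : ℕ} (ε : Fin (t + 1) → Fin (b + 1) →₀ ℕ)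
    (hε : Exps E ε) (d : ℕ) (F : MvPolynomial (Fin (b + 1)) Ω) (hF : F.IsHomogeneous (d * E)) :
    ∃ f : MvPolynomial (Fin (t + 1)) Ω, f.IsHomogeneous d ∧ vr ε f = F := by
  classical
  choose g hg1 hg2 using fun μ : Fin (b + 1) →₀ ℕ => VRG_mon (Ω := Ω) ε hε d μ
  have hdeg : ∀ μ ∈ F.support, μ.degree = d * E := by
    intro μ hμ
    by_contra h
    exact (MvPolynomial.mem_support_iff.1 hμ) (hF.coeff_eq_zero h)
  refine ⟨∑ μ ∈ F.support.attach, C (coeff μ.1 F) * g μ.1 (hdeg μ.1 μ.2), ?_, ?_⟩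
  · refine IsHomogeneous.sum _ _ _ fun μ _ => ?_
    have h1 := (isHomogeneous_C (Fin (t + 1)) (coeff μ.1 F)).mul (hg1 μ.1 (hdeg μ.1 μ.2))
    rwa [zero_add] at h1
  · rw [map_sum]
    have h1 : ∀ μ ∈ F.support.attach, vr ε (C (coeff μ.1 F) * g μ.1 (hdeg μ.1 μ.2)) =
        monomial μ.1 (coeff μ.1 F) := by
      intro μ _
      rw [map_mul, hg2]
      have h2 : vr ε (C (coeff μ.1 F)) = C (coeff μ.1 F) := by simp [vr]
      rw [h2, C_mul_monomial, mul_one]
    rw [Finset.sum_congr rfl h1, Finset.sum_attach F.support fun μ => monomial μ (coeff μ F)]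
    exact F.support_sum_monomial_coeff

private theorem VRG_int {Ω : Type} [Field Ω] {b t E : ℕ} (ε : Fin (t + 1) → Fin (b + 1) →₀ ℕ)
    (hε : Exps E ε) (hE : 1 ≤ E) :
    ((vr ε : MvPolynomial (Fin (t + 1)) Ω →ₐ[Ω] MvPolynomial (Fin (b + 1)) Ω) :
      MvPolynomial (Fin (t + 1)) Ω →+* MvPolynomial (Fin (b + 1)) Ω).IsIntegral := by
  set v : MvPolynomial (Fin (t + 1)) Ω →+* MvPolynomial (Fin (b + 1)) Ω :=
    ((vr ε : MvPolynomial (Fin (t + 1)) Ω →ₐ[Ω] MvPolynomial (Fin (b + 1)) Ω) :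
      MvPolynomial (Fin (t + 1)) Ω →+* MvPolynomial (Fin (b + 1)) Ω) with hv
  have hX : ∀ i, v.IsIntegralElem (X i) := by
    intro i
    obtain ⟨c, hc⟩ := (hε.2 (Finsupp.single i E)).1 (by
      rw [← VRG_deg, Finsupp.degree_single])
    refine ⟨Polynomial.X ^ E - Polynomial.C (X c),
      Polynomial.monic_X_pow_sub_C _ (by omega), ?_⟩
    rw [Polynomial.eval₂_sub, Polynomial.eval₂_pow, Polynomial.eval₂_X, Polynomial.eval₂_C]
    have h1 : v (X c) = X i ^ E := by
      change vr ε (X c) = _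
      rw [VRG_X, hc, X_pow_eq_monomial]
    rw [h1, sub_self]
  have hC : ∀ r : Ω, v.IsIntegralElem (C r) := by
    intro r
    have h1 : (C r : MvPolynomial (Fin (b + 1)) Ω) = v (C r) := by
      change _ = vr ε (C r)
      simp [vr]
    rw [h1]
    exact v.isIntegralElem_map
  intro f
  induction f using MvPolynomial.induction_on with
  | C r => exact hC r
  | add p q hp hq => exact RingHom.IsIntegralElem.add v hp hq
  | mul_X p i hp => exact RingHom.IsIntegralElem.mul v hp (hX i)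

/-- Block VRG. -/
theorem p_VRG : Stmt_VRG := by
  refine ⟨VRG_enum, ?_⟩
  intro Ω _ b t E ε hε hE
  refine ⟨?_, ?_, ?_, ?_, ?_⟩
  · intro R _ φ x f
    exact VRG_eval ε R φ x f
  · intro F hF
    exact VRG_form ε hε F hF
  · intro d f hf
    exact VRG_hom ε hε d f hf
  · intro d F hF
    exact VRG_sur ε hε d F hF
  · exact VRG_int ε hε hE

end Pool.MPY
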