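import Pool.Agent.Work.MP_f82ddf_W.All
import Pool.Agent.Work.MP_f82ddf_H.All2
import Pool.Agent.Work.MP_f82ddf_E.B_LFD
import Pool.Agent.Work.MP_f82ddf_Y.B_CMP
import Pool.Agent.Work.MP_f82ddf_Y.B_DCO
import Pool.Agent.Work.MP_f82ddf_Y.B_DDR
import Pool.Agent.Work.MP_f82ddf_Y.B_DIF
import Pool.Agent.Work.MP_f82ddf_Y.B_DM1
import Pool.Agent.Work.MP_f82ddf_Y.B_DRT
import Pool.Agent.Work.MP_f82ddf_Y.B_DRV
import Pool.Agent.Work.MP_f82ddf_Y.B_DSG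
import Pool.Agent.Work.MP_f82ddf_Y.B_DVC
import Pool.Agent.Work.MP_f82ddf_Y.B_DVL
import Pool.Agent.Work.MP_f82ddf_Y.B_FIF
import Pool.Agent.Work.MP_f82ddf_Y.B_FNF
import Pool.Agent.Work.MP_f82ddf_Y.B_GPO
import Pool.Agent.Work.MP_f82ddf_Y.B_GPT
import Pool.Agent.Work.MP_f82ddf_Y.B_GPV
import Pool.Agent.Work.MP_f82ddf_Y.B_HMP
import Pool.Agent.Work.MP_f82ddf_Y.B_HTC
import Pool.Agent.Work.MP_f82ddf_Y.B_HYF
import Pool.Agent.Work.MP_f82ddf_Y.B_HYP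
import Pool.Agent.Work.MP_f82ddf_Y.B_JWF
import Pool.Agent.Work.MP_f82ddf_Y.B_LCX
import Pool.Agent.Work.MP_f82ddf_Y.B_LOV
import Pool.Agent.Work.MP_f82ddf_Y.B_LOX
import Pool.Agent.Work.MP_f82ddf_Y.B_LPN
import Pool.Agent.Work.MP_f82ddf_Y.B_MDL
import Pool.Agent.Work.MP_f82ddf_Y.B_MPF
import Pool.Agent.Work.MP_f82ddf_Y.B_MPI
import Pool.Agent.Work.MP_f82ddf_Y.B_MRL
import Pool.Agent.Work.MP_f82ddf_Y.B_NCF
import Pool.Agent.Work.MP_f82ddf_Y.B_NCL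
import Pool.Agent.Work.MP_f82ddf_Y.B_NDK
import Pool.Agent.Work.MP_f82ddf_Y.B_NPL
import Pool.Agent.Work.MP_f82ddf_Y.B_ODR
import Pool.Agent.Work.MP_f82ddf_Y.B_ODX
import Pool.Agent.Work.MP_f82ddf_Y.B_ORL
import Pool.Agent.Work.MP_f82ddf_Y.B_PEX
import Pool.Agent.Work.MP_f82ddf_Y.B_PL1
import Pool.Agent.Work.MP_f82ddf_Y.B_PL2
import Pool.Agent.Work.MP_f82ddf_Y.B_PTV
import Pool.Agent.Work.MP_f82ddf_Y.B_QNM
import Pool.Agent.Work.MP_f82ddf_Y.B_RGA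
import Pool.Agent.Work.MP_f82ddf_Y.B_RGB
import Pool.Agent.Work.MP_f82ddf_Y.B_SLY
import Pool.Agent.Work.MP_f82ddf_Y.B_T3S
import Pool.Agent.Work.MP_f82ddf_Y.B_TDG
import Pool.Agent.Work.MP_f82ddf_Y.B_TGF
import Pool.Agent.Work.MP_f82ddf_Y.B_THF
import Pool.Agent.Work.MP_f82ddf_Y.B_TIN
import Pool.Agent.Work.MP_f82ddf_Y.B_UEG
import Pool.Agent.Work.MP_f82ddf_Y.B_UEV
import Pool.Agent.Work.MP_f82ddf_Y.B_UNF
import Pool.Agent.Work.MP_f82ddf_Y.B_VIN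
import Pool.Agent.Work.MP_f82ddf_Y.B_VPR
import Pool.Agent.Work.MP_f82ddf_Y.B_VPT
import Pool.Agent.Work.MP_f82ddf_Y.B_VRG
import Pool.Agent.Work.MP_f82ddf_Y.B_YEX

/-!
# THEOREM T: assembly
-/

set_option autoImplicit false

namespace Pool.MPY

theorem all_GPV : Stmt_GPV := p_GPV Pool.MPL.all_FPR Pool.Agent.Work.MP_f82ddf_M5.stmt_RES
theorem all_GPT : Stmt_GPT := p_GPT Pool.MPW.all_TRM
theorem all_GPO : Stmt_GPO := p_GPO Pool.MPW.all_GPA Pool.MPW.all_GPB Pool.MPW.all_GPC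
    Pool.ThmM.Chow.q_CHP Pool.ThmM.Chow.q_PFA Pool.Agent.Work.MP_f82ddf_M5.stmt_FUN
    Pool.MPW.all_ABS Pool.MPW.all_NDX Pool.MPW.all_CNZ Pool.MPW.all_OVF all_GPV all_GPT
theorem all_ODR : Stmt_ODR := p_ODR
theorem all_DDR : Stmt_DDR := p_DDR
theorem all_TDG : Stmt_TDG := p_TDG Pool.MPW.all_TRM
theorem all_CMP : Stmt_CMP := p_CMP all_DDR
theorem all_YEX : Stmt_YEX := p_YEX all_DDR
theorem all_TIN : Stmt_TIN := p_TIN Pool.MPW.all_TRM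
theorem all_NPL : Stmt_NPL := p_NPL Pool.ThmP.all_NUL
theorem all_PL1 : Stmt_PL1 := p_PL1 all_NPL
theorem all_PL2 : Stmt_PL2 := p_PL2 all_NPL
theorem all_DRV : Stmt_DRV := p_DRV
theorem all_MRL : Stmt_MRL := p_MRL
theorem all_ORL : Stmt_ORL := p_ORL
theorem all_RGA : Stmt_RGA := p_RGA all_DDR all_MRL
theorem all_RGB : Stmt_RGB := p_RGB all_RGA all_ORL all_MRL
theorem all_LCX : Stmt_LCX := p_LCX all_DDR all_DRV all_ORL all_RGB all_ODR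
theorem all_NDK : Stmt_NDK := p_NDK all_GPO all_TDG all_YEX all_PL1 all_TIN all_PL2 all_CMP
    all_LCX
theorem all_MPI : Stmt_MPI := p_MPI
theorem all_DVC : Stmt_DVC := p_DVC Pool.MPW.all_ABS
theorem all_UNF : Stmt_UNF := p_UNF all_MPI all_DVC Pool.MPW.all_CNZ
    Pool.Agent.Work.MP_f82ddf_M5.stmt_FUN Pool.MPL.all_TRP
theorem all_DRT : Stmt_DRT := p_DRT Pool.MPV.all_CORF Pool.ThmM.all_TRA
theorem all_T3S : Stmt_T3S := p_T3S Pool.ThmM0.all_T3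
theorem all_ODX : Stmt_ODX := p_ODX Pool.ThmP.all_NUL
theorem all_DVL : Stmt_DVL := p_DVL Pool.ThmP.all_NUL Pool.ThmM.all_VAL Pool.ThmM.all_ORD
    Pool.ThmM.Chow.q_OZE
theorem all_NCL : Stmt_NCL := p_NCL Pool.MPE.p_LFD all_DVL
theorem all_DM1 : Stmt_DM1 := p_DM1
theorem all_MDL : Stmt_MDL := p_MDL
theorem all_PEX : Stmt_PEX := p_PEX all_MDL
theorem all_LOX : Stmt_LOX := p_LOX all_MDL all_PEX
theorem all_DSG : Stmt_DSG := p_DSG Pool.MPL.all_FXF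
theorem all_HYP : Stmt_HYP := p_HYP Pool.MPE.p_LFD Pool.MPW.all_TRM
theorem all_SLY : Stmt_SLY := p_SLY all_HYP
theorem all_HMP : Stmt_HMP := p_HMP
theorem all_NCF : Stmt_NCF := p_NCF Pool.ThmP.all_FIB Pool.ThmM0.stmt_CST
theorem all_DCO : Stmt_DCO := p_DCO Pool.MPW.all_TRM
theorem all_PTV : Stmt_PTV := p_PTV all_T3S all_DRT all_UNF all_NDK all_ODX all_DVL all_NCL
    all_DM1 Pool.MPL.all_TRP Pool.MPV.all_EXF Pool.MPL.all_MVP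
theorem all_UEV : Stmt_UEV := p_UEV all_PTV all_PEX all_LOX all_DSG all_ODX Pool.MPL.all_AUT
    Pool.MPL.all_RKT
theorem all_VRG : Stmt_VRG := p_VRG
theorem all_VPR : Stmt_VPR := p_VPR all_VRG
theorem all_VPT : Stmt_VPT := p_VPT all_VRG Pool.ThmP.all_NUL
theorem all_VIN : Stmt_VIN := p_VIN all_DCO
theorem all_HYF : Stmt_HYF := p_HYF all_VRG all_VPT all_VIN all_HYP
theorem all_QNM : Stmt_QNM := p_QNM all_HYF
theorem all_HTC : Stmt_HTC := p_HTC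
theorem all_LOV : Stmt_LOV := p_LOV all_VRG all_VPR all_QNM all_HTC all_HMP all_ORL
theorem all_UEG : Stmt_UEG := p_UEG all_UEV all_SLY all_LOV all_VRG all_VPT all_VIN
    Pool.MPH.all_BPF Pool.MPH.all_VFN
theorem all_JWF : Stmt_JWF := p_JWF all_UEG all_MPI all_HMP all_DM1
theorem all_MPF : Stmt_MPF := p_MPF Pool.ThmP.all_NUL Pool.MPH.all_OFF
theorem all_TGF : Stmt_TGF := p_TGF Pool.ThmM.all_REP Pool.ThmM.all_ALG Pool.ThmM.all_POL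
    Pool.ThmM.all_ORD Pool.ThmM.all_VAL
theorem all_Z1 : Stmt_Z1 := p_FNF all_JWF all_MPF all_NCF all_TGF Pool.ThmP.all_MPT
    Pool.ThmM0.stmt_MREL
theorem all_DIF : Stmt_DIF := p_DIF all_JWF all_MPF all_NCF all_DDR all_DCO Pool.ThmP.all_MPT
    Pool.ThmP.all_FIB Pool.ThmP.p_TRX Pool.ThmM0.stmt_HOMR
theorem all_THF : Stmt_THF := p_THF all_JWF all_MPF Pool.ThmP.all_MPT Pool.ThmP.all_NUL
    Pool.ThmP.all_THR Pool.ThmP.p_EXB Pool.ThmM0.stmt_HOMR all_DM1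
theorem all_Z2 : Stmt_Z2 := p_FIF all_DIF all_THF (Pool.ThmM0.stmt_PAI Pool.ThmM0.stmt_DHO)
    Pool.MCL.all_P6C
theorem all_LPN : Stmt_LPN := p_LPN

end Pool.MPY
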