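import Pool.Agent.Work.MP_f82ddf_Y.B_JWF

set_option autoImplicit false

/-! # THEOREM T (MP_f82ddf_nt), block JWG: the exceptional sets have positive dimension -/

open Pool.Agent.Work.MP_f82ddf_nt.DQ

namespace Pool.MPY

open MvPolynomial
open Pool.ThmM (om dv dv1)
open Pool.ThmP (tm)
open Pool.MPL (NC NPr)
open Pool.MPV (Ful)
open Pool.MPH (FuF)

/-- JWF with two different points on every exceptional set. -/
def Stmt_JWG : Prop :=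
  ∀ m c e₀ : ℕ, ∃ N₁ : ℕ, ∀ (Ω : Type) [Field Ω] [IsAlgClosed Ω] [Countable Ω] (N : ℕ)
    (k e : Fin (N + 1) → ℕ) (p₀ : Ideal (MvPolynomial (Fin (m + 1)) Ω))
    (F : Fin (N + 1) → MvPolynomial (Fin (m + 1)) Ω),
    (∀ j, 1 ≤ e j ∧ e j ≤ e₀ ∧ (F j).IsHomogeneous (e j)) → Hmg p₀ →
    (∀ z : Fin (m + 1) → Ω, z ≠ 0 → (∀ f ∈ p₀, eval z f = 0) →
      {j | eval z (F j) = 0}.ncard ≤ c) →
    ∃ W : Set (Ideal (MvPolynomial (Fin (m + 1)) Ω)), W.Finite ∧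
      (∀ p ∈ W, (p.IsPrime ∧ Hmg p ∧ p₀ ≤ p ∧ {j | Low (k j) p (F j)}.ncard ≤ N₁) ∧
        ∃ z w : Fin (m + 1) → Ω, (∀ f ∈ p, eval z f = 0) ∧ (∀ f ∈ p, eval w f = 0) ∧
          ∃ i j, z i * w j ≠ z j * w i) ∧
      ∀ (τ : Ω →+* ℂ) (x : Fin (m + 1) → Mer), CrF k e p₀ F τ x →
        ∃ p ∈ W, ∀ f ∈ p, eval₂ (tm τ) x f = 0

theorem JWG_pts (hHYP : Stmt_HYP) {Ω : Type} [Field Ω] [IsAlgClosed Ω] {m : ℕ}
    {p : Ideal (MvPolynomial (Fin (m + 1)) Ω)} (hp : p.IsPrime) (hh : Hmg p)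
    (hI : ∃ f : Fin 2 → MvPolynomial (Fin (m + 1)) Ω, IndMod p f) :
    ∃ z w : Fin (m + 1) → Ω, (∀ f ∈ p, eval z f = 0) ∧ (∀ f ∈ p, eval w f = 0) ∧
      ∃ i j, z i * w j ≠ z j * w i := by
  classical
  obtain ⟨z, hz, hzp, -⟩ := hHYP Ω m p hp hh hI 0
  obtain ⟨i, hi⟩ := Function.ne_iff.1 hz
  obtain ⟨w, hw, hwp, hwi⟩ := hHYP Ω m p hp hh hI (Pi.single i 1)
  have hwi' : w i = 0 := by
    rw [Finset.sum_eq_single i (fun j _ hj => by rw [Pi.single_eq_of_ne hj, zero_mul])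
      (fun h => absurd (Finset.mem_univ i) h), Pi.single_eq_same, one_mul] at hwi
    exact hwi
  obtain ⟨j, hj⟩ := Function.ne_iff.1 hw
  refine ⟨z, w, hzp, hwp, i, j, ?_⟩
  rw [hwi', mul_zero]
  exact mul_ne_zero hi hj

theorem p_JWG (hUEG : Stmt_UEG) (hMPI : Stmt_MPI) (hHMP : Stmt_HMP) (hDM1 : Stmt_DM1)
    (hHYP : Stmt_HYP) : Stmt_JWG := by
  classical
  intro m c e₀
  obtain ⟨N', hU⟩ := hUEG m c e₀
  refine ⟨N', fun Ω _ _ _ N k e p₀ F hF hp₀ hc => ?_⟩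
  obtain ⟨Θ, hΘ⟩ : ∃ Θ : Set (Ideal (MvPolynomial (Fin (m + 1)) Ω)), ∀ I, I ∈ Θ ↔
      ∃ (τ : Ω →+* ℂ) (x : Fin (m + 1) → Mer), CrF k e p₀ F τ x ∧
        I = RingHom.ker (eval₂Hom (tm τ) x) := ⟨{I | _}, fun I => Iff.rfl⟩
  have hΘp : ∀ I ∈ Θ, I.IsPrime := by
    intro I hI
    obtain ⟨τ, x, -, rfl⟩ := (hΘ I).1 hI
    exact RingHom.ker_isPrime _
  have hJmem : ∀ f, f ∈ sInf Θ ↔ ∀ (τ : Ω →+* ℂ) (x : Fin (m + 1) → Mer), CrF k e p₀ F τ x →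
      eval₂ (tm τ) x f = 0 := by
    intro f
    rw [Submodule.mem_sInf]
    constructor
    · intro h τ x hx
      exact h _ ((hΘ _).2 ⟨τ, x, hx, rfl⟩)
    · intro h I hI
      obtain ⟨τ, x, hx, rfl⟩ := (hΘ I).1 hI
      exact h τ x hx
  have hJh : Hmg (sInf Θ) := by
    intro f hf n
    rw [hJmem] at hf ⊢
    intro τ x hx
    exact JWI_hmg (tm τ) x f
      (fun t ht => hf τ _ (JWF_scale hp₀ (fun j => (hF j).2.2) hx ht)) n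
  have hfin := Ideal.finite_minimalPrimes_of_isNoetherianRing (MvPolynomial (Fin (m + 1)) Ω)
    (sInf Θ)
  have hcl : ∀ (τ : Ω →+* ℂ) (x : Fin (m + 1) → Mer), CrF k e p₀ F τ x →
      ∃ p ∈ (sInf Θ).minimalPrimes, ∀ f ∈ p, eval₂ (tm τ) x f = 0 := by
    intro τ x hx
    have hmem : RingHom.ker (eval₂Hom (tm τ) x) ∈ Θ := (hΘ _).2 ⟨τ, x, hx, rfl⟩
    haveI := hΘp _ hmem
    obtain ⟨p, hp, hpI⟩ := Ideal.exists_minimalPrimes_le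
      (J := RingHom.ker (eval₂Hom (tm τ) x)) (sInf_le hmem)
    exact ⟨p, hp, fun f hf => hpI hf⟩
  refine ⟨(sInf Θ).minimalPrimes, hfin, ?_, hcl⟩
  intro p hp
  have hpp : p.IsPrime := hp.1.1
  have hph : Hmg p := hHMP Ω m _ hJh p hp
  have hp₀J : p₀ ≤ sInf Θ := fun f hf => (hJmem f).2 fun τ x hx => hx.2.1 f hf
  have hp₀p : p₀ ≤ p := hp₀J.trans hp.1.2
  obtain ⟨I, hI, hpI⟩ := hMPI _ Θ hΘp p hp
  obtain ⟨τ₁, x₁, hx₁, rfl⟩ := (hΘ I).1 hI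
  obtain ⟨f₂, hf₂⟩ := hDM1 Ω m p hph τ₁ x₁ hx₁.1 (fun f hf => hpI hf)
  refine ⟨⟨hpp, hph, hp₀p, ?_⟩, JWG_pts hHYP hpp hph ⟨f₂, hf₂⟩⟩
  by_contra hcon
  rw [not_le] at hcon
  obtain ⟨D, hD, hD2⟩ := hU Ω N k e p F hF hpp hph ⟨f₂, hf₂⟩
    (fun z hz hzp => hc z hz (fun f hf => hzp f (hp₀p hf))) hcon
  have hh : ∃ h ∉ p, ∀ p' ∈ (sInf Θ).minimalPrimes, p' ≠ p → h ∈ p' := by
    have h1 : ∀ p' ∈ hfin.toFinset.erase p, ∃ g ∈ p', g ∉ p := by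
      intro p' hp'
      by_contra hcon2
      push Not at hcon2
      have hp'' := Finset.mem_erase.1 hp'
      have hp2 := hfin.mem_toFinset.1 hp''.2
      exact hp''.1 (le_antisymm hcon2 (hp.2 ⟨hp2.1.1, hp2.1.2⟩ hcon2))
    choose! g hg1 hg2 using h1
    refine ⟨∏ p' ∈ hfin.toFinset.erase p, g p', ?_, ?_⟩
    · intro hmem
      obtain ⟨p', hp', hp'2⟩ := (hpp.prod_mem_iff).1 hmem
      exact hg2 p' hp' hp'2
    · intro p' hp' hne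
      have hmem : p' ∈ hfin.toFinset.erase p :=
        Finset.mem_erase.2 ⟨hne, hfin.mem_toFinset.2 hp'⟩
      rw [← Finset.mul_prod_erase _ _ hmem]
      exact Ideal.mul_mem_right _ _ (hg1 p' hmem)
  obtain ⟨h, hh1, hh2⟩ := hh
  have hfinal : h * D ∈ sInf Θ := (hJmem _).2 fun τ x hx => by
    rw [eval₂_mul]
    obtain ⟨p', hp', hp'2⟩ := hcl τ x hx
    by_cases hpe : p' = p
    · subst hpe
      rw [hD2 τ x hx.1 hp'2 hx.2.2, mul_zero]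
    · rw [hp'2 h (hh2 p' hp' hpe), zero_mul]
  exact (hpp.mem_or_mem (hp.1.2 hfinal)).elim hh1 hD

end Pool.MPY
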