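import Pool.Agent.Work.MP_f82ddf_Y.All
import Pool.Agent.Work.MP_f82ddf_Y.B_JWG
import Pool.Agent.Work.MP_f82ddf_Y.B_FNG

/-!
# THEOREM T: assembly, the exceptional sets have positive dimension
-/

set_option autoImplicit false

namespace Pool.MPY

theorem all_JWG : Stmt_JWG := p_JWG all_UEG all_MPI all_HMP all_DM1 all_HYP
/-- THEOREM T, first part. -/
theorem all_Z1G : Stmt_Z1G := p_FNG all_JWG all_MPF all_NCF all_TGF Pool.ThmP.all_MPT
    Pool.ThmM0.stmt_MREL

end Pool.MPY
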