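import Pool.Agent.Work.MP_f82ddf_Y.Interface3
import Pool.Agent.Work.MP_f82ddf_Y.B_DIY
import Pool.Agent.Work.MP_f82ddf_Y.B_JWL

set_option autoImplicit false

/-! # THEOREM T (MP_f82ddf_nt), block DIL: target varieties of dimension at most 2, forms of bounded
degree -/

open Pool.Agent.Work.MP_f82ddf_nt.DQ

namespace Pool.MPY

open MvPolynomial
open Pool.ThmP (Mor OnX OnK tm FullF)

/-- DIF with a bound which is linear in `c`. -/
def Stmt_DIL : Prop :=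
  ∀ n e₀ : ℕ, ∃ N₁ : ℕ, ∀ (K : Type) [Field K] [NumberField K] (c N : ℕ) (k : Fin (N + 1) → ℕ)
    (p₀ : Ideal (MvPolynomial (Fin (n + 1)) (AlgebraicClosure K)))
    (F : Fin (N + 1) → MvPolynomial (Fin (n + 1)) (AlgebraicClosure K)), p₀.IsPrime → Hmg p₀ →
    (∀ j, ∃ d, 1 ≤ d ∧ d ≤ e₀ ∧ (F j).IsHomogeneous d) →
    (∀ z : Fin (n + 1) → AlgebraicClosure K, z ≠ 0 → (∀ f ∈ p₀, eval z f = 0) →
      {j | eval z (F j) = 0}.ncard ≤ c) →
    (∀ s : Fin 4 → Fin (n + 1), ∃ (e : ℕ) (R : MvPolynomial (Fin 4) (AlgebraicClosure K)),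
      R ≠ 0 ∧ R.IsHomogeneous e ∧ rename s R ∈ p₀) →
    N₁ * c < {j | Low (k j) p₀ (F j)}.ncard →
    ∀ (m : ℕ) (S : Set (MvPolynomial (Fin (m + 1)) K)), (∀ F ∈ S, ∃ d, F.IsHomogeneous d) →
      ∀ (g : Mor K (AlgebraicClosure K) m n S), g.Finite → Into g p₀ →
        (∀ j, FullF g (k j) (F j)) → Pool.ThmM0.DimMer S 1

/-- DIL -/
theorem p_DIL (hJ : Stmt_JWL) (hMPF : Stmt_MPF) (hNCF : Stmt_NCF) (hDDR : Stmt_DDR)
    (hDCO : Stmt_DCO) (hMPT : Pool.ThmP.Stmt_MPT) (hFIB : Pool.ThmP.Stmt_FIB)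
    (hTRX : Pool.ThmP.Stmt_TRX) (hHOMR : Pool.ThmM0.Stmt_HOMR) : Stmt_DIL := by
  intro n e₀
  obtain ⟨N₁, hN⟩ := hJ n e₀
  refine ⟨N₁, ?_⟩
  intro K _ _ c N k p₀ F hp₀p hp₀ hdeg hc hrel hlow m S hS g hg hinto hfull σ x hx r
  have := DIY_countable K
  choose e he1 he2 he3 using hdeg
  obtain ⟨W, -, hWp, hWc⟩ := hN (AlgebraicClosure K) c N k e p₀ F
    (fun j => ⟨he1 j, he2 j, he3 j⟩) hp₀ hc
  have hdim3 : DimLE p₀ 3 := by
    refine hDCO (AlgebraicClosure K) n 3 p₀ hp₀p fun s h => ?_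
    obtain ⟨e, R, hR0, -, hR⟩ := hrel s
    apply hR0
    apply h
    have h0 : aeval (fun i => (X (s i) : MvPolynomial (Fin (n + 1)) (AlgebraicClosure K))) =
        rename (R := AlgebraicClosure K) s := by
      apply MvPolynomial.algHom_ext
      intro i
      rw [aeval_X, rename_X]
    rw [h0]
    exact hR
  let τ : AlgebraicClosure K →+* ℂ :=
    letI : Algebra K ℂ := σ.toAlgebra
    (IsAlgClosed.lift (R := K) (M := ℂ) (S := AlgebraicClosure K)).toRingHom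
  have hτ : τ.comp (algebraMap K (AlgebraicClosure K)) = σ := by
    let : Algebra K ℂ := σ.toAlgebra
    exact AlgHom.comp_algebraMap
      (IsAlgClosed.lift (R := K) (M := ℂ) (S := AlgebraicClosure K))
  have hx' : OnK (tm τ) S x := by
    intro F hF
    have h6 : (tm τ).comp (algebraMap K (AlgebraicClosure K)) =
        (algebraMap ℂ Mer).comp σ := by
      rw [tm, RingHom.comp_assoc, hτ]
    rw [h6]
    exact hx F hF
  by_contra hcon
  push Not at hcon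
  have hr0 : x (r 0) ≠ 0 := by
    have h := hcon 1 (X 0) (X_ne_zero _) (isHomogeneous_X _ _)
    rwa [aeval_X] at h
  have hx0 : x ≠ 0 := fun h => hr0 (congrFun h _)
  have hind := hHOMR 1 (fun i => x (r i)) hr0 hcon
  have hnc : Pool.MPL.NC x := by
    refine ⟨r 0, r 1, hr0, fun a ha => ?_⟩
    have h2 := hind.transcendental 0
    have h3 : x (r (Fin.succ 0)) / x (r 0) = algebraMap ℂ Mer a := by
      rw [div_eq_iff hr0]
      exact ha
    rw [h3] at h2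
    exact h2 (isAlgebraic_algebraMap a)
  obtain ⟨M1, -⟩ := hMPT K (AlgebraicClosure K) Mer m n S g (tm τ) x hx'
  obtain ⟨s, hs, c₀, hc₀⟩ := M1 hx0
  obtain ⟨hY1, hY2⟩ := hMPF K (AlgebraicClosure K) m n N S g k e p₀ F hS hinto he3 hfull τ x hx'
    s hs ⟨c₀, hc₀⟩
  have hNCy := hNCF K (AlgebraicClosure K) m n S g hS hg τ x hx' hnc s hs ⟨c₀, hc₀⟩
  obtain ⟨p, hpW, hpy⟩ := hWc τ _ ⟨hNCy, hY1, hY2⟩
  obtain ⟨⟨hpp, hph, hle, hplow⟩, -⟩ := hWp p hpW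
  have hnle : ¬ p ≤ p₀ := by
    intro h
    have h1 : p = p₀ := le_antisymm h hle
    rw [h1] at hplow
    exact absurd hplow (not_le.2 hlow)
  obtain ⟨q, hq, hq0⟩ := SetLike.not_le_iff_exists.1 hnle
  have hdim2 : DimLE p 2 := by
    intro n' f hf
    have h1 := hdim3 _ _ (hDDR (AlgebraicClosure K) (Fin (n + 1)) p₀ p hp₀p hpp hle n' f hf q hq
      hq0)
    omega
  set A : Set Mer := Set.range fun c => eval₂ (tm τ) x (s c) / eval₂ (tm τ) x (s c₀) with hA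
  have h2 : ∀ j : Fin (1 + 1), IsAlgebraic (Algebra.adjoin ℂ A) (x (r j.succ) / x (r 0)) :=
    fun j => hFIB K (AlgebraicClosure K) m n S g hS hg τ x hx' s hs c₀ hc₀ (r j.succ) (r 0) hr0
  have h3 : ∀ a ∈ A, IsAlgebraic (Algebra.adjoin ℂ A) a := fun a ha =>
    isAlgebraic_algebraMap (⟨a, Algebra.subset_adjoin ha⟩ : Algebra.adjoin ℂ A)
  obtain ⟨t, ht1, ht2⟩ := hTRX (1 + 1) _ A A hind h2 h3
  exact DIY_alg hph hdim2 τ (fun c => eval₂ (tm τ) x (s c)) hpy c₀ hc₀ t ht1 ht2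

end Pool.MPY
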