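import Pool.Agent.Work.MP_f82ddf_Y.B_DIL
import Pool.Agent.Work.MP_f82ddf_Y.B_THL
import Pool.Agent.Work.MP_f82ddf_Y.B_FIY

set_option autoImplicit false

/-! # THEOREM T (MP_f82ddf_nt), block FIL: Lang's criterion, linear bound -/

open Pool.Agent.Work.MP_f82ddf_nt.DQ

namespace Pool.MPY

open MvPolynomial
open Pool.Agent.Work.MP_f82ddf_nt (PSpace HolomorphicOn complexPoints points KobayashiHyperbolic)
open Pool.ThmP (Mor OnX OnK tm RelP FullF)

/-- THEOREM T for forms of bounded degree, Lang's criterion, with a bound which is linear in `c`. -/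
def Stmt_Z2L : Prop :=
  ∀ n e₀ : ℕ, ∃ N₁ : ℕ, ∀ (K : Type) [Field K] [NumberField K] (c N : ℕ) (k : Fin (N + 1) → ℕ)
    (p₀ : Ideal (MvPolynomial (Fin (n + 1)) (AlgebraicClosure K)))
    (F : Fin (N + 1) → MvPolynomial (Fin (n + 1)) (AlgebraicClosure K)), p₀.IsPrime → Hmg p₀ →
    (∀ j, ∃ d, 1 ≤ d ∧ d ≤ e₀ ∧ (F j).IsHomogeneous d) →
    (∀ z : Fin (n + 1) → AlgebraicClosure K, z ≠ 0 → (∀ f ∈ p₀, eval z f = 0) →
      {j | eval z (F j) = 0}.ncard ≤ c) →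
    N₁ * c < {j | Low (k j) p₀ (F j)}.ncard →
    ∀ (m : ℕ) (S : Set (MvPolynomial (Fin (m + 1)) K)), (∀ F ∈ S, ∃ d, F.IsHomogeneous d) →
      ∀ (g : Mor K (AlgebraicClosure K) m n S), Into g p₀ → (∀ j, FullF g (k j) (F j)) →
        ((g.Finite ∧ ∀ s : Fin 4 → Fin (n + 1),
            ∃ (e : ℕ) (R : MvPolynomial (Fin 4) (AlgebraicClosure K)),
              R ≠ 0 ∧ R.IsHomogeneous e ∧ rename s R ∈ p₀) ∨
          ((∃ f : Fin 2 → MvPolynomial (Fin (n + 1)) (AlgebraicClosure K), IndMod p₀ f) ∧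
            ∃ d ≤ 1, ThinY g p₀ d)) →
        (∀ σ : K →+* ℂ, KobayashiHyperbolic (complexPoints S σ) ↔
          ¬ Pool.MCL.CubicImage S (AlgebraicClosure K) (algebraMap K (AlgebraicClosure K))) ∧
        (Pool.MCL.CubicImage S (AlgebraicClosure K) (algebraMap K (AlgebraicClosure K)) →
          ∃ (L : Type) (_ : Field L) (_ : Algebra K L) (_ : FiniteDimensional K L),
            (points S L).Infinite)

theorem p_FIL (h1 : Stmt_DIL) (h2 : Stmt_THL) (h3 : Pool.ThmM0.Stmt_PAI)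
    (h4 : Pool.MCL.stmt_P6C) : Stmt_Z2L := by
  intro n e₀
  obtain ⟨N₁, hN1⟩ := h1 n e₀
  obtain ⟨N₂, hN2⟩ := h2 n e₀
  refine ⟨N₁ + N₂, fun K _ _ c N k p₀ F hp hH hF hc hlt m S hS g hinto hfull hcase => ?_⟩
  have hdim : Pool.ThmM0.DimMer S 1 := by
    rcases hcase with ⟨hfin, hs⟩ | ⟨hf, d, hd, hthin⟩
    · exact hN1 K c N k p₀ F hp hH hF hc hs (lt_of_le_of_lt
        (Nat.mul_le_mul_right _ (Nat.le_add_right _ _)) hlt) m S hS g hfin hinto hfull
    · exact FIY_mono S hd (hN2 K c N d k p₀ F hp hH hF hc hf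
        (lt_of_le_of_lt (Nat.mul_le_mul_right _ (Nat.le_add_left _ _)) hlt) m S hS g hthin hinto
        hfull)
  refine h4 K m S hS ?_
  intro σ x i hi hF
  exact h3 K m 1 S le_rfl hdim σ x i hi hF

end Pool.MPY
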