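import Pool.Agent.Work.MP_f82ddf_Y.Interface3
import Pool.Agent.Work.MP_f82ddf_E.Sel

set_option autoImplicit false

/-! # THEOREM T (MP_f82ddf_nt), block UEL: the bound is linear in the number of forms through a point -/

open Pool.Agent.Work.MP_f82ddf_nt.DQ

namespace Pool.MPY

open MvPolynomial Finset
open Pool.ThmP (tm)
open Pool.MPL (NC)
open Pool.MPH (FuF)

/-- UEG with a bound which is linear in `c`. -/
def Stmt_UEL : Prop :=
  ∀ m e₀ : ℕ, ∃ N₁ : ℕ, ∀ (Ω : Type) [Field Ω] [IsAlgClosed Ω] [Countable Ω] (c N : ℕ)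
    (k e : Fin (N + 1) → ℕ) (p : Ideal (MvPolynomial (Fin (m + 1)) Ω))
    (F : Fin (N + 1) → MvPolynomial (Fin (m + 1)) Ω),
    (∀ j, 1 ≤ e j ∧ e j ≤ e₀ ∧ (F j).IsHomogeneous (e j)) → p.IsPrime → Hmg p →
    (∃ f : Fin 2 → MvPolynomial (Fin (m + 1)) Ω, IndMod p f) →
    (∀ z : Fin (m + 1) → Ω, z ≠ 0 → (∀ f ∈ p, eval z f = 0) →
      {j | eval z (F j) = 0}.ncard ≤ c) →
    N₁ * c < {j | Low (k j) p (F j)}.ncard →
    ∃ D ∉ p, ∀ (τ : Ω →+* ℂ) (x : Fin (m + 1) → Mer), NC x →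
      (∀ f ∈ p, eval₂ (tm τ) x f = 0) → (∀ j, FuF (k j) x (e j) (map τ (F j))) →
      eval₂ (tm τ) x D = 0

/-- the coefficients in a box -/
noncomputable def UEL_vec {Ω : Type} [Field Ω] {m : ℕ} (e₀ : ℕ)
    (F : MvPolynomial (Fin (m + 1)) Ω) : (Fin (m + 1) → Fin (e₀ + 1)) → Ω :=
  fun ν => coeff (Finsupp.equivFunOnFinite.symm fun i => (ν i : ℕ)) F

/-- the evaluation at `z` -/
noncomputable def UEL_ev {Ω : Type} [Field Ω] {m : ℕ} (e₀ : ℕ) (z : Fin (m + 1) → Ω) :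
    ((Fin (m + 1) → Fin (e₀ + 1)) → Ω) →ₗ[Ω] Ω :=
  ∑ ν : Fin (m + 1) → Fin (e₀ + 1), (∏ i, z i ^ (ν i : ℕ)) • LinearMap.proj ν

theorem UEL_eval {Ω : Type} [Field Ω] {m e e₀ : ℕ} (z : Fin (m + 1) → Ω)
    (F : MvPolynomial (Fin (m + 1)) Ω) (hF : F.IsHomogeneous e) (he : e ≤ e₀) :
    UEL_ev e₀ z (UEL_vec e₀ F) = eval z F := by
  classical
  let ψ : (Fin (m + 1) → Fin (e₀ + 1)) → (Fin (m + 1) →₀ ℕ) :=
    fun ν => Finsupp.equivFunOnFinite.symm fun i => (ν i : ℕ)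
  have hψ : Function.Injective ψ := by
    intro ν ν' h
    funext i
    have h1 := DFunLike.congr_fun h i
    exact Fin.ext h1
  have h1 : UEL_ev e₀ z (UEL_vec e₀ F) =
      ∑ ν : Fin (m + 1) → Fin (e₀ + 1), coeff (ψ ν) F * ∏ i, z i ^ ψ ν i := by
    unfold UEL_ev UEL_vec
    rw [LinearMap.sum_apply]
    refine sum_congr rfl fun ν _ => ?_
    rw [LinearMap.smul_apply, LinearMap.proj_apply, smul_eq_mul, mul_comm]
    rfl
  have h2 : ∑ ν : Fin (m + 1) → Fin (e₀ + 1), coeff (ψ ν) F * ∏ i, z i ^ ψ ν i =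
      ∑ d ∈ univ.image ψ, coeff d F * ∏ i, z i ^ d i := by
    rw [sum_image (fun a _ b _ h => hψ h)]
  rw [h1, h2, eval_eq']
  symm
  apply sum_subset
  · intro d hd
    have h3 : ∑ i, d i = e := by
      have h := hF (mem_support_iff.1 hd)
      rw [Finsupp.weight_apply] at h
      rw [← h, Finsupp.sum_fintype]
      · simp
      · simp
    have h4 : ∀ i, d i < e₀ + 1 := by
      intro i
      have h5 : d i ≤ ∑ i, d i := single_le_sum (f := fun i => d i) (fun _ _ => Nat.zero_le _) (mem_univ i)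
      omega
    refine mem_image.2 ⟨fun i => ⟨d i, h4 i⟩, mem_univ _, ?_⟩
    ext i
    rfl
  · intro d _ hd
    rw [notMem_support_iff.1 hd]
    simp

theorem p_UEL (hUEG : Stmt_UEG) (hHYF : Stmt_HYF) : Stmt_UEL := by
  classical
  intro m e₀
  obtain ⟨N₁, hN⟩ := hUEG m (Module.finrank ℚ ((Fin (m + 1) → Fin (e₀ + 1)) → ℚ)) e₀
  refine ⟨2 * 2 ^ (N₁ + 1), fun Ω _ _ _ c N k e p F hF hp hh hI hc hlt => ?_⟩
  let J : Finset (Fin (N + 1)) := univ.filter fun j => Low (k j) p (F j)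
  have hJ : {j | Low (k j) p (F j)}.ncard = J.card := by
    rw [show {j | Low (k j) p (F j)} = ((J : Finset (Fin (N + 1))) : Set (Fin (N + 1))) by
      ext; simp [J], Set.ncard_coe_finset]
  rw [hJ] at hlt
  obtain ⟨j₀, hj₀⟩ : J.Nonempty := card_pos.1 (lt_of_le_of_lt (Nat.zero_le _) hlt)
  obtain ⟨z₀, hz0, hzp, hzF⟩ := hHYF Ω m (e j₀) p hp hh hI (hF j₀).1 (F j₀) (hF j₀).2.2
  have hc1 : 1 ≤ c := by
    refine le_trans ?_ (hc z₀ hz0 hzp)
    exact Nat.succ_le_of_lt ((Set.ncard_pos (Set.toFinite _)).2 ⟨j₀, hzF⟩)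
  have hcard : 2 ^ (N₁ + 1) * (c + 1) ≤ Fintype.card J := by
    rw [Fintype.card_coe]
    nlinarith [Nat.one_le_two_pow (n := N₁ + 1)]
  obtain ⟨φ, hφ, hφc⟩ := Pool.MPSel.sel (k := Ω)
    (V := (Fin (m + 1) → Fin (e₀ + 1)) → Ω)
    (P := {z : Fin (m + 1) → Ω // z ≠ 0 ∧ ∀ f ∈ p, eval z f = 0}) (ι := J)
    (fun z => UEL_ev e₀ z.1) (fun j => UEL_vec e₀ (F j)) c (by
      rintro ⟨z, hz0, hzp⟩
      refine le_trans ?_ (hc z hz0 hzp)
      refine Set.ncard_le_ncard_of_injOn (fun j => (j : Fin (N + 1))) ?_ ?_ (Set.toFinite _)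
      · intro j hj
        change eval z (F j) = 0
        rw [← UEL_eval z (F j) (hF j).2.2 (hF j).2.1]
        exact hj
      · intro a _ b _ hab
        exact Subtype.ext hab) (N₁ + 1) hcard
  obtain ⟨D, hD, hD2⟩ := hN Ω N₁ (fun i => k (φ i)) (fun i => e (φ i)) p (fun i => F (φ i))
    (fun i => hF (φ i)) hp hh hI (fun z hz0 hzp => by
      have h1 := hφc ⟨z, hz0, hzp⟩
      have h2 : {i | eval z (F (φ i)) = 0} = {i | UEL_ev e₀ z (UEL_vec e₀ (F (φ i))) = 0} := by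
        ext i
        simp only [Set.mem_setOf_eq]
        rw [UEL_eval z (F (φ i)) (hF (φ i)).2.2 (hF (φ i)).2.1]
      rw [h2]
      rw [Module.finrank_fintype_fun_eq_card] at h1 ⊢
      exact (Nat.le_succ _).trans h1) (by
      have h1 : {i | Low (k (φ i)) p (F (φ i))} = Set.univ := by
        ext i
        simp only [Set.mem_univ, iff_true, Set.mem_setOf_eq]
        exact (mem_filter.1 (φ i).2).2
      rw [h1, Set.ncard_univ, Nat.card_eq_fintype_card, Fintype.card_fin]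
      exact Nat.lt_succ_self _)
  exact ⟨D, hD, fun τ x hx hxp hxF => hD2 τ x hx hxp fun i => hxF (φ i)⟩

end Pool.MPY
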