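import Pool.Agent.Work.MP_f82ddf_Y.All
import Pool.Agent.Work.MP_f82ddf_Y.B_UEL
import Pool.Agent.Work.MP_f82ddf_Y.B_JWL
import Pool.Agent.Work.MP_f82ddf_Y.B_FNL
import Pool.Agent.Work.MP_f82ddf_Y.B_DIL
import Pool.Agent.Work.MP_f82ddf_Y.B_THL
import Pool.Agent.Work.MP_f82ddf_Y.B_FIL

/-!
# THEOREM T: assembly, the bound is linear in the number of forms through a point
-/

set_option autoImplicit false

namespace Pool.MPY

theorem all_UEL : Stmt_UEL := p_UEL all_UEG all_HYF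
theorem all_JWL : Stmt_JWL := p_JWL all_UEL all_MPI all_HMP all_DM1 all_HYP
/-- THEOREM T, first part. -/
theorem all_Z1L : Stmt_Z1L := p_FNL all_JWL all_MPF all_NCF all_TGF Pool.ThmP.all_MPT
    Pool.ThmM0.stmt_MREL
theorem all_DIL : Stmt_DIL := p_DIL all_JWL all_MPF all_NCF all_DDR all_DCO Pool.ThmP.all_MPT
    Pool.ThmP.all_FIB Pool.ThmP.p_TRX Pool.ThmM0.stmt_HOMR
theorem all_THL : Stmt_THL := p_THL all_JWL all_MPF Pool.ThmP.all_MPT Pool.ThmP.all_NUL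
    Pool.ThmP.all_THR Pool.ThmP.p_EXB Pool.ThmM0.stmt_HOMR all_DM1
/-- THEOREM T, second part. -/
theorem all_Z2L : Stmt_Z2L := p_FIL all_DIL all_THL (Pool.ThmM0.stmt_PAI Pool.ThmM0.stmt_DHO)
    Pool.MCL.all_P6C

end Pool.MPY
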