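import Pool.Agent.Work.MP_f82ddf_Y.B_DIY
import Pool.Agent.Work.MP_f82ddf_Y.B_JWL

set_option autoImplicit false

/-! # THEOREM T (MP_f82ddf_nt), block UNI: Lang's criterion for morphisms whose fibres have dimension at
most 1, if many of the forms are `Low` on all the irreducible closed subsets with an inverse image of
dimension at least 2 -/

open Pool.Agent.Work.MP_f82ddf_nt.DQ

namespace Pool.MPY

open MvPolynomial
open Pool.Agent.Work.MP_f82ddf_nt (PSpace HolomorphicOn complexPoints points KobayashiHyperbolic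
  eval₂_smul_hom)
open Pool.ThmP (Mor OnX OnK tm RelP FullF)
open Pool.MPL (NC)

section

variable {K Ω : Type} [Field K] [Field Ω] [Algebra K Ω] {m n : ℕ}
  {S : Set (MvPolynomial (Fin (m + 1)) K)}

/-- The inverse image of `V(p)` under `g` has dimension at most `d`: any `d + 2` homogeneous coordinates
satisfy a homogeneous relation on it. -/
def DimPre (g : Mor K Ω m n S) (p : Ideal (MvPolynomial (Fin (n + 1)) Ω)) (d : ℕ) : Prop :=
  ∀ r : Fin (d + 2) → Fin (m + 1), ∃ (e : ℕ) (R : MvPolynomial (Fin (d + 2)) Ω), R ≠ 0 ∧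
    R.IsHomogeneous e ∧ ∀ v : Fin (m + 1) → Ω, OnX S v →
      (∀ s ∈ g.tuples, ∀ F ∈ p, eval (fun c => eval v (s c)) F = 0) →
      eval (fun i => v (r i)) R = 0

/-- The fibres of `g_τ`, for all `τ`, have dimension at most `d`. -/
def DimFib (g : Mor K Ω m n S) (d : ℕ) : Prop :=
  ∀ (τ : Ω →+* ℂ) (w : Fin (n + 1) → ℂ), w ≠ 0 → ∀ r : Fin (d + 2) → Fin (m + 1),
    ∃ (e : ℕ) (R : MvPolynomial (Fin (d + 2)) ℂ), R ≠ 0 ∧ R.IsHomogeneous e ∧
      ∀ v : Fin (m + 1) → ℂ, OnK τ S v →
        (∀ s ∈ g.tuples, ∀ c c', eval₂ τ v (s c) * w c' = eval₂ τ v (s c') * w c) →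
        eval (fun i => v (r i)) R = 0

end

/-- Entire curves in `X`, if the fibres of `g` have dimension at most `d` and many of the forms are `Low`
on all the irreducible closed subsets with an inverse image of dimension more than `d`. -/
def Stmt_UNI : Prop :=
  ∀ n e₀ : ℕ, ∃ N₁ : ℕ, ∀ (K : Type) [Field K] [NumberField K] (c N d : ℕ) (k : Fin (N + 1) → ℕ)
    (p₀ : Ideal (MvPolynomial (Fin (n + 1)) (AlgebraicClosure K)))
    (F : Fin (N + 1) → MvPolynomial (Fin (n + 1)) (AlgebraicClosure K)), Hmg p₀ →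
    (∀ j, ∃ d, 1 ≤ d ∧ d ≤ e₀ ∧ (F j).IsHomogeneous d) →
    (∀ z : Fin (n + 1) → AlgebraicClosure K, z ≠ 0 → (∀ f ∈ p₀, eval z f = 0) →
      {j | eval z (F j) = 0}.ncard ≤ c) →
    ∀ (m : ℕ) (S : Set (MvPolynomial (Fin (m + 1)) K)), (∀ F ∈ S, ∃ d, F.IsHomogeneous d) →
      ∀ (g : Mor K (AlgebraicClosure K) m n S), Into g p₀ → (∀ j, FullF g (k j) (F j)) →
        (g.Finite ∨ DimFib g d) →
        (∀ p : Ideal (MvPolynomial (Fin (n + 1)) (AlgebraicClosure K)), p.IsPrime → Hmg p → p₀ ≤ p →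
          ¬ DimPre g p d → N₁ * c < {j | Low (k j) p (F j)}.ncard) →
        Pool.ThmM0.DimMer S d

/-- UNI -/
theorem p_UNI (hJ : Stmt_JWL) (hMPF : Stmt_MPF) (hNCF : Stmt_NCF) (hMPT : Pool.ThmP.Stmt_MPT)
    (hNUL : Pool.ThmP.Stmt_NUL) (hHOMR : Pool.ThmM0.Stmt_HOMR) : Stmt_UNI := by
  intro n e₀
  obtain ⟨N₁, hN⟩ := hJ n e₀
  refine ⟨N₁, ?_⟩
  intro K _ _ c N d k p₀ F hp₀ hdeg hc m S hS g hinto hfull hfib hlow σ x hxσ r
  have := DIY_countable K
  choose e he1 he2 he3 using hdeg
  obtain ⟨W, -, hWp, hWc⟩ := hN (AlgebraicClosure K) c N k e p₀ F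
    (fun j => ⟨he1 j, he2 j, he3 j⟩) hp₀ hc
  let τ : AlgebraicClosure K →+* ℂ :=
    letI : Algebra K ℂ := σ.toAlgebra
    (IsAlgClosed.lift (R := K) (M := ℂ) (S := AlgebraicClosure K)).toRingHom
  have hτ : τ.comp (algebraMap K (AlgebraicClosure K)) = σ := by
    let : Algebra K ℂ := σ.toAlgebra
    exact AlgHom.comp_algebraMap
      (IsAlgClosed.lift (R := K) (M := ℂ) (S := AlgebraicClosure K))
  clear_value τ
  have hx : OnK (tm τ) S x := by
    intro F hF
    have h6 : (tm τ).comp (algebraMap K (AlgebraicClosure K)) =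
        (algebraMap ℂ Mer).comp σ := by
      rw [tm, RingHom.comp_assoc, hτ]
    rw [h6]
    exact hxσ F hF
  by_contra hr
  push Not at hr
  have hr' : ∀ (e : ℕ) (P : MvPolynomial (Fin (d + 2)) ℂ), P ≠ 0 → P.IsHomogeneous e →
      aeval (fun i => x (r i)) P ≠ 0 := fun e P h1 h2 => hr e P h1 h2
  have hr0 : x (r 0) ≠ 0 := by
    have h := hr' 1 (X 0) (X_ne_zero _) (isHomogeneous_X _ _)
    rwa [aeval_X] at h
  have hx0 : x ≠ 0 := fun h => hr0 (congrFun h _)
  obtain ⟨M1, M2⟩ := hMPT K (AlgebraicClosure K) Mer m n S g (tm τ) x hx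
  obtain ⟨s, hs, c₀, hc₀⟩ := M1 hx0
  obtain ⟨y, hy⟩ : ∃ y : Fin (n + 1) → Mer, y = fun c => eval₂ (tm τ) x (s c) := ⟨_, rfl⟩
  have hyc : ∀ c, y c = eval₂ (tm τ) x (s c) := fun c => by rw [hy]
  obtain ⟨hy0, hyF⟩ := hMPF K (AlgebraicClosure K) m n N S g k e p₀ F hS hinto he3 hfull τ x hx
    s hs ⟨c₀, hc₀⟩
  rw [← hy] at hy0 hyF
  rw [← hyc] at hc₀
  -- any tuple gives a multiple of `y`
  have h3 : ∀ s' ∈ g.tuples, (fun c => eval₂ (tm τ) x (s' c)) =
      (eval₂ (tm τ) x (s' c₀) / y c₀) • y := by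
    intro s' hs'
    funext c
    have h4 := M2 s hs s' hs' c₀ c
    rw [← hyc, ← hyc] at h4
    rw [Pi.smul_apply, smul_eq_mul, div_mul_eq_mul_div, eq_div_iff hc₀]
    linear_combination h4
  by_cases hNC : NC y
  · -- the curve is contained in the inverse image of one of the `V(p)`
    obtain ⟨p, hpW, hpy⟩ := hWc τ y ⟨hNC, hy0, hyF⟩
    obtain ⟨⟨hpp, hph, hle, hplow⟩, -⟩ := hWp p hpW
    have hpre : DimPre g p d := by
      by_contra hcon
      exact absurd hplow (not_le.2 (hlow p hpp hph hle hcon))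
    obtain ⟨e', R, hR0, hRe, hR⟩ := hpre r
    have hnul := hNUL K (AlgebraicClosure K) Mer m S
      {H | ∃ s' ∈ g.tuples, ∃ F ∈ p, H = bind₁ s' F} (rename r R) (by
      intro v hv hH
      rw [eval_rename]
      refine hR v hv ?_
      intro s' hs' F hF
      have h1 := hH _ ⟨s', hs', F, hF, rfl⟩
      rw [← h1]
      simp only [eval, eval₂Hom_bind₁]) (tm τ) x hx (by
      rintro H ⟨s', hs', F, hF, rfl⟩
      have h1 : eval₂ (tm τ) x (bind₁ s' F) =
          eval₂ (tm τ) (fun c => eval₂ (tm τ) x (s' c)) F := by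
        have h2 := eval₂Hom_bind₁ (tm τ) x s' F
        exact h2
      rw [h1, h3 s' hs']
      exact DIY_scale hph (tm τ) y hpy _ F hF)
    rw [eval₂_rename] at hnul
    refine hr' e' (map τ R) ?_ (hRe.map τ) ?_
    · intro h
      exact hR0 (map_injective _ τ.injective (by rw [h, map_zero]))
    · rw [aeval_def, eval₂_map]
      exact hnul
  · rcases hfib with hfin | hfib
    · -- finite morphisms
      have hind := hHOMR d (fun i => x (r i)) hr0 hr'
      have hnc : NC x := by
        refine ⟨r 0, r 1, hr0, fun a ha => ?_⟩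
        have h2 := hind.transcendental 0
        have h3 : x (r (Fin.succ 0)) / x (r 0) = algebraMap ℂ Mer a := by
          rw [div_eq_iff hr0]
          exact ha
        rw [h3] at h2
        exact h2 (isAlgebraic_algebraMap a)
      have h5 := hNCF K (AlgebraicClosure K) m n S g hS hfin τ x hx hnc s hs ⟨c₀, by
        rw [← hyc]
        exact hc₀⟩
      rw [← hy] at h5
      exact hNC h5
    · -- the curve is contained in a fibre
      unfold NC at hNC
      push Not at hNC
      have hz : ∀ j, ∃ z : ℂ, y j = algebraMap ℂ Mer z * y c₀ := fun j => hNC c₀ j hc₀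
      choose z hz using hz
      have hz0 : z c₀ = 1 := by
        have h5 := hz c₀
        have h6 : algebraMap ℂ Mer (z c₀) = algebraMap ℂ Mer 1 := by
          rw [map_one]
          exact mul_right_cancel₀ hc₀ (by rw [one_mul]; exact h5.symm)
        exact (algebraMap ℂ Mer).injective h6
      obtain ⟨e', R, hR0, hRe, hR⟩ := hfib τ z (fun h => by
        rw [h] at hz0
        exact zero_ne_one hz0) r
      let iKC : Algebra K ℂ := σ.toAlgebra
      have hOn : OnK (algebraMap ℂ Mer) S x := fun F hF => hxσ F hF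
      have hnul := hNUL K ℂ Mer m S
        {H | ∃ s' ∈ g.tuples, ∃ c c', H = map τ (s' c) * C (z c') - map τ (s' c') * C (z c)}
        (rename r R) (by
        intro v hv hH
        rw [eval_rename]
        refine hR v ?_ ?_
        · intro F hF
          rw [hτ]
          exact hv F hF
        · intro s' hs' c c'
          have h1 := hH _ ⟨s', hs', c, c', rfl⟩
          rw [map_sub, map_mul, map_mul, eval_C, eval_C, eval_map, eval_map, sub_eq_zero] at h1
          exact h1) (algebraMap ℂ Mer) x hOn (by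
        rintro H ⟨s', hs', c, c', rfl⟩
        have h7 : ∀ c, eval₂ (algebraMap ℂ Mer) x (map τ (s' c)) =
            (eval₂ (tm τ) x (s' c₀) / y c₀) * y c := by
          intro c
          rw [eval₂_map]
          exact congrFun (h3 s' hs') c
        rw [eval₂_sub, eval₂_mul, eval₂_mul, eval₂_C, eval₂_C, h7, h7, hz c, hz c']
        ring)
      rw [eval₂_rename] at hnul
      exact hr' e' R hR0 hRe hnul

end Pool.MPY
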