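import Pool.Agent.Work.MP_f82ddf_Y.All3
import Pool.Agent.Work.MP_f82ddf_Y.B_UNI

/-!
# THEOREM T: assembly, final form of the second part
-/

set_option autoImplicit false

namespace Pool.MPY

open MvPolynomial
open Pool.Agent.Work.MP_f82ddf_nt (PSpace HolomorphicOn complexPoints points KobayashiHyperbolic)
open Pool.ThmP (Mor OnX OnK tm RelP FullF)

/-- THEOREM T for forms of bounded degree, Lang's criterion, with a bound which is linear in `c`, final
form. -/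
def Stmt_Z2U : Prop :=
  ∀ n e₀ : ℕ, ∃ N₁ : ℕ, ∀ (K : Type) [Field K] [NumberField K] (c N : ℕ) (k : Fin (N + 1) → ℕ)
    (p₀ : Ideal (MvPolynomial (Fin (n + 1)) (AlgebraicClosure K)))
    (F : Fin (N + 1) → MvPolynomial (Fin (n + 1)) (AlgebraicClosure K)), Hmg p₀ →
    (∀ j, ∃ d, 1 ≤ d ∧ d ≤ e₀ ∧ (F j).IsHomogeneous d) →
    (∀ z : Fin (n + 1) → AlgebraicClosure K, z ≠ 0 → (∀ f ∈ p₀, eval z f = 0) →
      {j | eval z (F j) = 0}.ncard ≤ c) →
    ∀ (m : ℕ) (S : Set (MvPolynomial (Fin (m + 1)) K)), (∀ F ∈ S, ∃ d, F.IsHomogeneous d) →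
      ∀ (g : Mor K (AlgebraicClosure K) m n S), Into g p₀ → (∀ j, FullF g (k j) (F j)) →
        (g.Finite ∨ DimFib g 1) →
        (∀ p : Ideal (MvPolynomial (Fin (n + 1)) (AlgebraicClosure K)), p.IsPrime → Hmg p → p₀ ≤ p →
          ¬ DimPre g p 1 → N₁ * c < {j | Low (k j) p (F j)}.ncard) →
        (∀ σ : K →+* ℂ, KobayashiHyperbolic (complexPoints S σ) ↔
          ¬ Pool.MCL.CubicImage S (AlgebraicClosure K) (algebraMap K (AlgebraicClosure K))) ∧
        (Pool.MCL.CubicImage S (AlgebraicClosure K) (algebraMap K (AlgebraicClosure K)) →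
          ∃ (L : Type) (_ : Field L) (_ : Algebra K L) (_ : FiniteDimensional K L),
            (points S L).Infinite)

theorem p_Z2U (h1 : Stmt_UNI) (h3 : Pool.ThmM0.Stmt_PAI) (h4 : Pool.MCL.stmt_P6C) : Stmt_Z2U := by
  intro n e₀
  obtain ⟨N₁, hN1⟩ := h1 n e₀
  refine ⟨N₁, fun K _ _ c N k p₀ F hH hF hc m S hS g hinto hfull hfib hlow => ?_⟩
  have hdim := hN1 K c N 1 k p₀ F hH hF hc m S hS g hinto hfull hfib hlow
  refine h4 K m S hS ?_
  intro σ x i hi hF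
  exact h3 K m 1 S le_rfl hdim σ x i hi hF

theorem all_UNI : Stmt_UNI := p_UNI all_JWL all_MPF all_NCF Pool.ThmP.all_MPT Pool.ThmP.p_NUL
  Pool.ThmM0.stmt_HOMR

/-- THEOREM T, second part. -/
theorem all_Z2U : Stmt_Z2U := p_Z2U all_UNI (Pool.ThmM0.stmt_PAI Pool.ThmM0.stmt_DHO)
    Pool.MCL.all_P6C

end Pool.MPY
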