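import Pool.Agent.Work.MP_f82ddf_Y.Interface4

set_option autoImplicit false

/-! # THEOREM T+ (MP_f82ddf_nt), block CDG (helper66): the degrees of the Chow form -/

namespace Pool.MPY

open MvPolynomial
open Pool.Agent.Work.MP_f82ddf_M5 (lineAt resAt chow at2 comb Data)
open Pool.ThmM.Chow (Phi Mov)
open Pool.MPL (RX)

section

variable {σ τ R : Type} [CommRing R]

/-- all the coefficients have total degree at most `e` -/
def CDG_D (e : ℕ) (F : MvPolynomial τ (MvPolynomial σ R)) : Prop :=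
  ∀ ν, (coeff ν F).totalDegree ≤ e

theorem CDG_D.mono {e e' : ℕ} {F : MvPolynomial τ (MvPolynomial σ R)} (h : CDG_D e F)
    (he : e ≤ e') : CDG_D e' F := fun ν => (h ν).trans he

theorem CDG_D.zero {e : ℕ} : CDG_D e (0 : MvPolynomial τ (MvPolynomial σ R)) := by
  intro ν
  rw [coeff_zero, totalDegree_zero]
  exact Nat.zero_le _

theorem CDG_D.add {e : ℕ} {F G : MvPolynomial τ (MvPolynomial σ R)} (h : CDG_D e F)
    (h' : CDG_D e G) : CDG_D e (F + G) := by
  intro ν
  rw [coeff_add]
  exact (totalDegree_add _ _).trans (max_le (h ν) (h' ν))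

theorem CDG_D.neg {e : ℕ} {F : MvPolynomial τ (MvPolynomial σ R)} (h : CDG_D e F) :
    CDG_D e (-F) := by
  intro ν
  rw [coeff_neg, totalDegree_neg]
  exact h ν

theorem CDG_D.sum {ι : Type} {e : ℕ} (s : Finset ι) {F : ι → MvPolynomial τ (MvPolynomial σ R)}
    (h : ∀ i ∈ s, CDG_D e (F i)) : CDG_D e (∑ i ∈ s, F i) := by
  classical
  induction s using Finset.induction_on with
  | empty =>
    rw [Finset.sum_empty]
    exact CDG_D.zero
  | insert a s ha ih =>
    rw [Finset.sum_insert ha]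
    exact (h a (Finset.mem_insert_self a s)).add
      (ih fun i hi => h i (Finset.mem_insert_of_mem hi))

theorem CDG_D.C {e : ℕ} {r : MvPolynomial σ R} (h : r.totalDegree ≤ e) :
    CDG_D e (C r : MvPolynomial τ (MvPolynomial σ R)) := by
  classical
  intro ν
  rw [coeff_C]
  split_ifs
  · exact h
  · rw [totalDegree_zero]
    exact Nat.zero_le _

theorem CDG_D.X {e : ℕ} (i : τ) : CDG_D e (X i : MvPolynomial τ (MvPolynomial σ R)) := by
  classical
  intro ν
  rw [coeff_X]
  split_ifs
  · rw [totalDegree_one]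
    exact Nat.zero_le _
  · rw [totalDegree_zero]
    exact Nat.zero_le _

theorem CDG_D.mul {e e' : ℕ} {F G : MvPolynomial τ (MvPolynomial σ R)} (h : CDG_D e F)
    (h' : CDG_D e' G) : CDG_D (e + e') (F * G) := by
  classical
  intro ν
  rw [coeff_mul]
  refine (totalDegree_finsetSum _ _).trans (Finset.sup_le fun x _ => ?_)
  exact (totalDegree_mul _ _).trans (add_le_add (h _) (h' _))

theorem CDG_D.prod {ι : Type} {e : ℕ} (s : Finset ι)
    {F : ι → MvPolynomial τ (MvPolynomial σ R)} (h : ∀ i ∈ s, CDG_D e (F i)) :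
    CDG_D (s.card * e) (∏ i ∈ s, F i) := by
  classical
  induction s using Finset.induction_on with
  | empty =>
    rw [Finset.prod_empty, ← C_1]
    exact CDG_D.C (by rw [totalDegree_one]; exact Nat.zero_le _)
  | insert a s ha ih =>
    rw [Finset.prod_insert ha, Finset.card_insert_of_notMem ha]
    have h1 := (h a (Finset.mem_insert_self a s)).mul
      (ih fun i hi => h i (Finset.mem_insert_of_mem hi))
    refine h1.mono (le_of_eq ?_)
    ring

/-- the same for the coefficients of a polynomial in one more variable -/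
def CDG_P (e : ℕ) (P : Polynomial (MvPolynomial τ (MvPolynomial σ R))) : Prop :=
  ∀ n, CDG_D e (P.coeff n)

theorem CDG_P.mul {e e' : ℕ} {P Q : Polynomial (MvPolynomial τ (MvPolynomial σ R))}
    (h : CDG_P e P) (h' : CDG_P e' Q) : CDG_P (e + e') (P * Q) := by
  intro n
  rw [Polynomial.coeff_mul]
  exact CDG_D.sum _ fun x _ => (h _).mul (h' _)

theorem CDG_P.add {e : ℕ} {P Q : Polynomial (MvPolynomial τ (MvPolynomial σ R))}
    (h : CDG_P e P) (h' : CDG_P e Q) : CDG_P e (P + Q) := by
  intro n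
  rw [Polynomial.coeff_add]
  exact (h n).add (h' n)

theorem CDG_P.C {e : ℕ} {F : MvPolynomial τ (MvPolynomial σ R)} (h : CDG_D e F) :
    CDG_P e (Polynomial.C F) := by
  intro n
  rw [Polynomial.coeff_C]
  split_ifs
  · exact h
  · exact CDG_D.zero

theorem CDG_P.X {e : ℕ} :
    CDG_P e (Polynomial.X : Polynomial (MvPolynomial τ (MvPolynomial σ R))) := by
  intro n
  rw [Polynomial.coeff_X]
  split_ifs
  · rw [← C_1]
    exact CDG_D.C (by rw [totalDegree_one]; exact Nat.zero_le _)
  · exact CDG_D.zero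

theorem CDG_P.pow {P : Polynomial (MvPolynomial τ (MvPolynomial σ R))} (h : CDG_P 0 P) (n : ℕ) :
    CDG_P 0 (P ^ n) := by
  induction n with
  | zero =>
    rw [pow_zero, ← Polynomial.C_1, ← C_1]
    exact CDG_P.C (CDG_D.C (by rw [totalDegree_one]))
  | succ n ih =>
    rw [pow_succ]
    exact ih.mul h

theorem CDG_P.prod {ι : Type} (s : Finset ι)
    {P : ι → Polynomial (MvPolynomial τ (MvPolynomial σ R))} (h : ∀ i ∈ s, CDG_P 0 (P i)) :
    CDG_P 0 (∏ i ∈ s, P i) := by
  classical
  induction s using Finset.induction_on with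
  | empty =>
    rw [Finset.prod_empty, ← Polynomial.C_1, ← C_1]
    exact CDG_P.C (CDG_D.C (by rw [totalDegree_one]))
  | insert a s ha ih =>
    rw [Finset.prod_insert ha]
    exact (h a (Finset.mem_insert_self a s)).mul
      (ih fun i hi => h i (Finset.mem_insert_of_mem hi))

theorem CDG_P.sum {ι : Type} {e : ℕ} (s : Finset ι)
    {P : ι → Polynomial (MvPolynomial τ (MvPolynomial σ R))} (h : ∀ i ∈ s, CDG_P e (P i)) :
    CDG_P e (∑ i ∈ s, P i) := by
  intro n
  rw [Polynomial.finsetSum_coeff]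
  exact CDG_D.sum _ fun i hi => h i hi n

/-- the polynomial on the line through two points with coordinates in `CD 0` -/
theorem CDG_line {N e : ℕ} (F : MvPolynomial (Fin N) (MvPolynomial σ R))
    (hF : CDG_D e F) (a b : Fin N → MvPolynomial τ (MvPolynomial σ R))
    (ha : ∀ i, CDG_D 0 (a i)) (hb : ∀ i, CDG_D 0 (b i)) :
    CDG_P e (lineAt MvPolynomial.C F a b) := by
  unfold lineAt
  rw [eval₂_eq']
  refine CDG_P.sum _ fun ν _ => ?_
  have h1 : CDG_P e ((Polynomial.C.comp (MvPolynomial.C (σ := τ))) (coeff ν F)) :=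
    CDG_P.C (CDG_D.C (hF ν))
  have h2 : CDG_P 0 (∏ i, (Polynomial.C (a i) * Polynomial.X + Polynomial.C (b i)) ^ ν i) := by
    refine CDG_P.prod _ fun i _ => CDG_P.pow ?_ _
    have h3 : CDG_P 0 (Polynomial.C (a i) * Polynomial.X) :=
      (CDG_P.C (ha i)).mul (CDG_P.X (e := 0))
    exact h3.add (CDG_P.C (hb i))
  exact h1.mul h2

theorem CDG_res {d : ℕ} (f g : Polynomial (MvPolynomial τ (MvPolynomial σ R)))
    (hf : CDG_P 1 f) (hg : CDG_P 1 g) : CDG_D (2 * d) (f.resultant g d d) := by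
  classical
  unfold Polynomial.resultant
  rw [Matrix.det_apply]
  refine CDG_D.sum _ fun s _ => ?_
  have h1 : CDG_D (2 * d) (∏ i, Polynomial.sylvester f g d d (s i) i) := by
    have h2 : ∀ i j, CDG_D 1 (Polynomial.sylvester f g d d i j) := by
      intro i j
      unfold Polynomial.sylvester
      rw [Matrix.of_apply]
      refine Fin.addCases (fun j₁ => ?_) (fun j₁ => ?_) j
      · rw [Fin.addCases_left]
        split_ifs
        · exact hg _
        · exact CDG_D.zero
      · rw [Fin.addCases_right]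
        split_ifs
        · exact hf _
        · exact CDG_D.zero
    have h3 := CDG_D.prod Finset.univ (F := fun i => Polynomial.sylvester f g d d (s i) i)
      (fun i _ => h2 _ _)
    refine h3.mono (le_of_eq ?_)
    rw [Finset.card_univ, Fintype.card_fin]
    ring
  rcases Int.units_eq_one_or (Equiv.Perm.sign s) with h2 | h2
  · rw [h2, one_smul]
    exact h1
  · rw [h2, Units.neg_smul, one_smul]
    exact h1.neg

end

theorem CDG_comb {m r w d : ℕ} (A : Fin (r + 1) → MvPolynomial (Fin (w + 2)) ℂ)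
    (L : Fin (r + 1) → Fin (m + 1) → ℂ) (hA : ∀ i, (A i).IsHomogeneous d) :
    (comb (algebraMap ℂ (RX m)) A (fun j => ∑ i, C (L j i) * X i)).IsHomogeneous d ∧
      CDG_D 1 (comb (algebraMap ℂ (RX m)) A (fun j => ∑ i, C (L j i) * X i)) := by
  unfold comb
  constructor
  · refine IsHomogeneous.sum _ _ _ fun i _ => ?_
    exact ((hA i).map _).C_mul _
  · refine CDG_D.sum _ fun j _ => ?_
    intro ν
    rw [coeff_C_mul, coeff_map]
    refine (totalDegree_mul _ _).trans ?_
    have h1 : (algebraMap ℂ (RX m) (coeff ν (A j))).totalDegree = 0 := totalDegree_C _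
    have h2 : (∑ i, C (L j i) * X i : RX m).totalDegree ≤ 1 := by
      refine (totalDegree_finsetSum _ _).trans (Finset.sup_le fun i _ => ?_)
      refine (totalDegree_mul _ _).trans ?_
      rw [totalDegree_C, totalDegree_X]
    exact (add_le_add h2 h1.le).trans le_rfl

theorem CDG_mapQ {m w d : ℕ} (Q : MvPolynomial (Fin (w + 2)) ℂ) (hQ : Q.IsHomogeneous d) :
    (map (algebraMap ℂ (RX m)) Q).IsHomogeneous d ∧ CDG_D 0 (map (algebraMap ℂ (RX m)) Q) := by
  refine ⟨hQ.map _, fun ν => ?_⟩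
  rw [coeff_map]
  exact le_of_eq (totalDegree_C _)

theorem p_CDG (hCHP : Pool.ThmM.Chow.Stmt_CHP) (hPLW : Pool.ThmM.Chow.Stmt_PLW) : Stmt_CDG := by
  intro m r w d Q A L hQ hA
  obtain ⟨c1, c2⟩ := CDG_comb (m := m) A L hA
  obtain ⟨q1, q2⟩ := CDG_mapQ (m := m) Q hQ
  constructor
  · have h1 := hCHP (w + 2) d d (RX m) _ _ q1 c1
    have h2 := hPLW (w + 2) (d * d) (RX m) _ h1
    intro ν hν
    have h3 := h2 0 hν
    have h4 := h2 1 hν
    have h5 : ∀ p : Fin 2 × Fin (w + 2), (1 : Fin 2 × Fin (w + 2) → ℕ) p =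
        Pool.ThmM.Chow.wb 0 p + Pool.ThmM.Chow.wb 1 p := by
      rintro ⟨i, j⟩
      fin_cases i <;> simp [Pool.ThmM.Chow.wb]
    rw [Finsupp.weight_apply] at h3 h4 ⊢
    have h6 : (ν.sum fun i c => c • (1 : Fin 2 × Fin (w + 2) → ℕ) i) =
        (ν.sum fun i c => c • Pool.ThmM.Chow.wb 0 i) +
          (ν.sum fun i c => c • Pool.ThmM.Chow.wb 1 i) := by
      rw [← Finsupp.sum_add]
      refine Finsupp.sum_congr fun p _ => ?_
      rw [h5, smul_add]
    rw [h6, h3, h4]
    ring
  · unfold chow resAt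
    refine CDG_res _ _ ?_ ?_
    · refine CDG_line _ (q2.mono (Nat.zero_le 1)) _ _ (fun i => CDG_D.X _) (fun i => CDG_D.X _)
    · refine CDG_line _ c2 _ _ (fun i => CDG_D.X _) (fun i => CDG_D.X _)

end Pool.MPY
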