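import Pool.Agent.Work.MP_f82ddf_Y.Interface4

set_option autoImplicit false

namespace Pool.MPY

open MvPolynomial

theorem p_DSC : Stmt_DSC := by
  intro M M' σ _ _ ι P G h
  obtain ⟨F, hF⟩ := h
  let _ := ι.toAlgebra
  obtain ⟨lam, hlam⟩ := LinearMap.exists_leftInverse_of_injective (Algebra.linearMap M M')
    (LinearMap.ker_eq_bot.2 ι.injective)
  have hl : ∀ x : M, lam (ι x) = x := fun x => LinearMap.congr_fun hlam x
  have hm : ∀ (x : M) (y : M'), lam (ι x * y) = x * lam y := by
    intro x y
    have h1 := lam.map_smul x y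
    rwa [Algebra.smul_def, smul_eq_mul] at h1
  classical
  have hc : ∀ d, coeff d (∑ d ∈ F.support, monomial d (lam (coeff d F))) = lam (coeff d F) := by
    intro d
    rw [coeff_sum]
    simp only [coeff_monomial]
    rw [Finset.sum_ite_eq']
    split_ifs with h
    · rfl
    · rw [notMem_support_iff.1 h, map_zero]
  refine ⟨∑ d ∈ F.support, monomial d (lam (coeff d F)), ?_⟩
  ext d
  rw [coeff_mul]
  simp only [hc]
  have e : coeff d (map ι G) = coeff d (map ι P * F) := by rw [hF]
  rw [coeff_map, coeff_mul] at e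
  have e2 := congrArg lam e
  rw [hl, map_sum] at e2
  rw [e2]
  refine Finset.sum_congr rfl fun x _ => ?_
  rw [coeff_map, hm]

end Pool.MPY
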