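import Pool.Agent.Work.MP_f82ddf_Y.Interface4

set_option autoImplicit false

/-! # THEOREM T+, block ELA: relations over a larger field -/

namespace Pool.MPY

open MvPolynomial

/-- the homogeneous polynomial with given coefficients -/
noncomputable def ELA_gen (σ : Type) [Fintype σ] [DecidableEq σ] (a : ℕ) {S : Type}
    [CommSemiring S] (f : (σ →₀ ℕ) → S) : MvPolynomial σ S :=
  ∑ ν ∈ Finset.finsuppAntidiag Finset.univ a, monomial ν (f ν)

theorem ELA_mem {σ : Type} [Fintype σ] [DecidableEq σ] {a : ℕ} {ν : σ →₀ ℕ} :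
    ν ∈ Finset.finsuppAntidiag (Finset.univ : Finset σ) a ↔ ν.degree = a := by
  rw [Finset.mem_finsuppAntidiag]
  have h : ν.degree = ∑ i ∈ ν.support, ν i := rfl
  have h2 : ∑ i ∈ ν.support, ν i = ∑ i, ν i :=
    Finset.sum_subset (Finset.subset_univ _) (fun i _ hi => by simpa using hi)
  constructor
  · rintro ⟨h3, -⟩
    rw [h, h2]
    exact h3
  · intro h3
    refine ⟨?_, Finset.subset_univ _⟩
    rw [← h3, h, h2]

theorem ELA_gen_hom {σ : Type} [Fintype σ] [DecidableEq σ] (a : ℕ) {S : Type}
    [CommSemiring S] (f : (σ →₀ ℕ) → S) : (ELA_gen σ a f).IsHomogeneous a := by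
  unfold ELA_gen
  apply IsHomogeneous.sum
  intro ν hν
  exact isHomogeneous_monomial _ (ELA_mem.1 hν)

theorem ELA_gen_map {σ : Type} [Fintype σ] [DecidableEq σ] (a : ℕ) {S T : Type}
    [CommSemiring S] [CommSemiring T] (θ : S →+* T) (f : (σ →₀ ℕ) → S) :
    map θ (ELA_gen σ a f) = ELA_gen σ a (fun ν => θ (f ν)) := by
  unfold ELA_gen
  rw [map_sum]
  apply Finset.sum_congr rfl
  intro ν _
  rw [map_monomial]

theorem ELA_gen_coeff {σ : Type} [Fintype σ] [DecidableEq σ] (a : ℕ) {S : Type}
    [CommSemiring S] (P : MvPolynomial σ S) (hP : P.IsHomogeneous a) :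
    ELA_gen σ a (fun ν => coeff ν P) = P := by
  classical
  ext s
  unfold ELA_gen
  rw [coeff_sum]
  simp only [coeff_monomial]
  rw [Finset.sum_ite_eq']
  split_ifs with h
  · rfl
  · symm
    rw [ELA_mem] at h
    exact hP.coeff_eq_zero h

theorem ELA_dec {τ β M : Type} [Field M] [Algebra ℂ M] (B : Module.Basis β ℂ M)
    (H : MvPolynomial τ M) :
    ∃ (I : Finset β) (Hi : β → MvPolynomial τ ℂ),
      H = ∑ i ∈ I, C (B i) * map (algebraMap ℂ M) (Hi i) := by
  classical
  refine ⟨H.support.biUnion (fun s => (B.repr (coeff s H)).support),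
    fun i => ∑ s ∈ H.support, monomial s (B.repr (coeff s H) i), ?_⟩
  ext s
  rw [coeff_sum]
  have h1 : ∀ i : β, coeff s (C (B i) * map (algebraMap ℂ M)
      (∑ s ∈ H.support, monomial s (B.repr (coeff s H) i))) =
      B.repr (coeff s H) i • B i := by
    intro i
    rw [coeff_C_mul, coeff_map, coeff_sum]
    simp only [coeff_monomial]
    rw [Finset.sum_ite_eq', Algebra.smul_def, mul_comm]
    split_ifs with h
    · rfl
    · rw [notMem_support_iff] at h
      rw [h]
      simp
  simp only [h1]
  by_cases hs : s ∈ H.support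
  · rw [← Finset.sum_subset (s₁ := (B.repr (coeff s H)).support)]
    · exact (B.linearCombination_repr (coeff s H)).symm
    · intro i hi
      rw [Finset.mem_biUnion]
      exact ⟨s, hs, hi⟩
    · intro i _ hi
      rw [Finsupp.notMem_support_iff] at hi
      rw [hi, zero_smul]
  · rw [notMem_support_iff] at hs
    rw [hs]
    simp

/-- block ELA -/
theorem p_ELA : Stmt_ELA := by
  classical
  intro σ _ k a b M _ ι G h1 H h2
  have := Fintype.ofFinite σ
  let _ : Algebra ℂ M := ι.toAlgebra
  have hι : algebraMap ℂ M = ι := rfl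
  set B := Module.Basis.ofVectorSpace ℂ M with hB
  obtain ⟨I, Hi, hH⟩ := ELA_dec B H
  -- the universal product
  let J : Type := (σ →₀ ℕ) ⊕ (σ →₀ ℕ)
  let c : (σ →₀ ℕ) → MvPolynomial J ℂ := fun ν =>
    coeff ν (ELA_gen σ a (fun μ => (X (Sum.inl μ) : MvPolynomial J ℂ)) ^ k *
      ELA_gen σ b (fun μ => (X (Sum.inr μ) : MvPolynomial J ℂ)))
  have hspec : ∀ (N : Type) [Field N] (ι' : ℂ →+* N) (P R : MvPolynomial σ N),
      P.IsHomogeneous a → R.IsHomogeneous b → ∀ ν,
      eval₂Hom ι' (Sum.elim (fun μ => coeff μ P) (fun μ => coeff μ R)) (c ν) =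
        coeff ν (P ^ k * R) := by
    intro N _ ι' P R hP hR ν
    show eval₂Hom ι' (Sum.elim (fun μ => coeff μ P) (fun μ => coeff μ R)) (coeff ν _) = _
    rw [← coeff_map, map_mul, map_pow, ELA_gen_map, ELA_gen_map]
    simp only [coe_eval₂Hom, eval₂_X, Sum.elim_inl, Sum.elim_inr]
    rw [ELA_gen_coeff a P hP, ELA_gen_coeff b R hR]
  -- the universal relation over M
  have hM : eval₂ C (fun ν => map ι (c ν)) H = (0 : MvPolynomial J M) := by
    have hinj : Function.Injective
        (algebraMap (MvPolynomial J M) (FractionRing (MvPolynomial J M))) :=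
      IsFractionRing.injective _ _
    apply hinj
    rw [map_zero, eval₂_comp_left]
    have h3 := h2 (FractionRing (MvPolynomial J M))
      ((algebraMap (MvPolynomial J M) (FractionRing (MvPolynomial J M))).comp C)
      (ELA_gen σ a (fun μ => algebraMap (MvPolynomial J M) (FractionRing (MvPolynomial J M))
        (X (Sum.inl μ))))
      (ELA_gen σ b (fun μ => algebraMap (MvPolynomial J M) (FractionRing (MvPolynomial J M))
        (X (Sum.inr μ))))
      (ELA_gen_hom _ _) (ELA_gen_hom _ _)
    rw [← h3]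
    congr 1
    funext ν
    show algebraMap (MvPolynomial J M) (FractionRing (MvPolynomial J M)) (map ι (coeff ν _)) = _
    rw [← RingHom.comp_apply, ← coeff_map, map_mul, map_pow, ELA_gen_map, ELA_gen_map]
    simp only [RingHom.comp_apply, map_X]
  -- the universal relations over ℂ
  have hC : ∀ i ∈ I, eval₂ C c (Hi i) = (0 : MvPolynomial J ℂ) := by
    have h4 : ∑ i ∈ I, C (B i) * map ι (eval₂ C c (Hi i)) = (0 : MvPolynomial J M) := by
      rw [← hM]
      conv_rhs => rw [hH]
      rw [eval₂_sum]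
      apply Finset.sum_congr rfl
      intro i _
      rw [eval₂_mul, eval₂_C, eval₂_comp_left, hι, eval₂_map]
      congr 2
      · ext z
        simp
    intro i hi
    ext s
    rw [coeff_zero]
    have h5 := congrArg (coeff s) h4
    rw [coeff_sum, coeff_zero] at h5
    have h6 : ∑ j ∈ I, (coeff s (eval₂ C c (Hi j))) • B j = 0 := by
      rw [← h5]
      apply Finset.sum_congr rfl
      intro j _
      rw [coeff_C_mul, coeff_map, Algebra.smul_def, mul_comm, hι]
    exact linearIndependent_iff'.1 B.linearIndependent I _ h6 i hi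
  have hG : ∀ i ∈ I, eval₂ ι (fun ν => coeff ν G) (Hi i) = 0 := by
    intro i hi
    apply h1
    intro N _ ι' P R hP hR
    have h7 := congrArg
      (eval₂Hom ι' (Sum.elim (fun μ => coeff μ P) (fun μ => coeff μ R))) (hC i hi)
    rw [map_zero, eval₂_comp_left] at h7
    rw [← h7]
    congr 1
    · ext z
      simp
    · funext ν
      exact (hspec N ι' P R hP hR ν).symm
  rw [hH, map_sum]
  apply Finset.sum_eq_zero
  intro i hi
  rw [map_mul, eval_map, hι, hG i hi, mul_zero]

end Pool.MPY
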