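import Pool.Agent.Work.MP_f82ddf_Y.Interface4

set_option autoImplicit false

/-! # THEOREM T+ (MP_f82ddf_nt), block ELB: the polynomials which are divisible by a `k`-th power -/

namespace Pool.MPY

open MvPolynomial

/-- The generic polynomial with the exponents in `T`. -/
private noncomputable def ELB_gen {σ A : Type} [CommRing A] (T : Finset (σ →₀ ℕ)) (c : (σ →₀ ℕ) → A) :
    MvPolynomial σ A := ∑ ν ∈ T, monomial ν (c ν)

private theorem ELB_gen_map {σ A N : Type} [CommRing A] [CommRing N] (T : Finset (σ →₀ ℕ))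
    (c : (σ →₀ ℕ) → A) (s : A →+* N) :
    map s (ELB_gen T c) = ELB_gen T (fun ν => s (c ν)) := by
  unfold ELB_gen
  rw [map_sum]
  refine Finset.sum_congr rfl fun ν _ => ?_
  rw [map_monomial]

private theorem ELB_gen_hom {σ A : Type} [CommRing A] {T : Finset (σ →₀ ℕ)} {a : ℕ}
    (hT : ∀ ν, ν ∈ T ↔ ν.degree = a) (c : (σ →₀ ℕ) → A) : (ELB_gen T c).IsHomogeneous a := by
  unfold ELB_gen
  exact IsHomogeneous.sum _ _ _ fun ν hν => isHomogeneous_monomial _ ((hT ν).1 hν)

private theorem ELB_gen_eq {σ A : Type} [CommRing A] {T : Finset (σ →₀ ℕ)} {a : ℕ}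
    (hT : ∀ ν, ν ∈ T ↔ ν.degree = a) {P : MvPolynomial σ A} (hP : P.IsHomogeneous a) :
    ELB_gen T (fun ν => coeff ν P) = P := by
  classical
  ext μ
  unfold ELB_gen
  rw [coeff_sum]
  simp only [coeff_monomial]
  rw [Finset.sum_ite_eq']
  split_ifs with h
  · rfl
  · exact (hP.coeff_eq_zero fun h1 => h ((hT μ).2 h1)).symm

/-- Normalisation with respect to a valuation ring. -/
private theorem ELB_norm {σ F : Type} [Field F] (V : ValuationSubring F) {P : MvPolynomial σ F}
    (hP : P ≠ 0) : ∃ (a₀ : F) (P₂ : MvPolynomial σ V), a₀ ≠ 0 ∧ P = C a₀ * map V.subtype P₂ ∧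
      map (IsLocalRing.residue V) P₂ ≠ 0 := by
  classical
  obtain ⟨ν₀, hν₀, hmax⟩ := Finset.exists_max_image P.support (fun ν => V.valuation (coeff ν P))
    (support_nonempty.2 hP)
  have ha : coeff ν₀ P ≠ 0 := mem_support_iff.1 hν₀
  have hle : ∀ ν, coeff ν P * (coeff ν₀ P)⁻¹ ∈ V := by
    intro ν
    rw [← V.valuation_le_one_iff, map_mul, map_inv₀]
    by_cases h : ν ∈ P.support
    · have h1 := hmax ν h
      have h2 : V.valuation (coeff ν₀ P) ≠ 0 := (Valuation.ne_zero_iff _).2 ha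
      exact mul_inv_le_one_of_le₀ h1 zero_le
    · rw [notMem_support_iff.1 h, map_zero, zero_mul]
      exact zero_le_one
  have hrange : C (coeff ν₀ P)⁻¹ * P ∈ Set.range (map V.subtype : MvPolynomial σ V →+* _) := by
    rw [mem_range_map_iff_coeffs_subset]
    intro x hx
    rw [Finset.mem_coe, mem_coeffs_iff] at hx
    obtain ⟨ν, -, rfl⟩ := hx
    rw [coeff_C_mul, mul_comm]
    exact ⟨⟨_, hle ν⟩, rfl⟩
  obtain ⟨P₂, hP₂⟩ := hrange
  refine ⟨coeff ν₀ P, P₂, ha, ?_, ?_⟩
  · rw [hP₂, ← mul_assoc, ← C_mul, mul_inv_cancel₀ ha, C_1, one_mul]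
  · intro h
    have h1 : coeff ν₀ P₂ = 1 := by
      apply Subtype.ext
      have h2 := congrArg (coeff ν₀) hP₂
      rw [coeff_map, coeff_C_mul, inv_mul_cancel₀ ha] at h2
      exact h2
    have h3 := congrArg (coeff ν₀) h
    rw [coeff_map, h1, map_one, coeff_zero] at h3
    exact one_ne_zero h3

theorem p_ELB : Stmt_ELB := by
  classical
  intro σ _ k a b M _ G hk hG hyp
  -- the exponents
  set Ta : Finset (σ →₀ ℕ) := (Finsupp.finite_of_degree_eq (σ := σ) a).toFinset with hTa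
  set Tb : Finset (σ →₀ ℕ) := (Finsupp.finite_of_degree_eq (σ := σ) b).toFinset with hTb
  have ta : ∀ ν, ν ∈ Ta ↔ ν.degree = a := by
    intro ν
    rw [hTa, Set.Finite.mem_toFinset]
    exact Iff.rfl
  have tb : ∀ ν, ν ∈ Tb ↔ ν.degree = b := by
    intro ν
    rw [hTb, Set.Finite.mem_toFinset]
    exact Iff.rfl
  -- the universal product
  let A := MvPolynomial ((σ →₀ ℕ) ⊕ (σ →₀ ℕ)) M
  let F := FractionRing A
  let P₀ : MvPolynomial σ A := ELB_gen Ta (fun ν => X (Sum.inl ν))
  let R₀ : MvPolynomial σ A := ELB_gen Tb (fun ν => X (Sum.inr ν))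
  let G₀ : MvPolynomial σ A := P₀ ^ k * R₀
  have hP₀ : P₀.IsHomogeneous a := ELB_gen_hom ta _
  have hR₀ : R₀.IsHomogeneous b := ELB_gen_hom tb _
  let e₀ : MvPolynomial (σ →₀ ℕ) M →+* A := eval₂Hom C (fun ν => coeff ν G₀)
  let al : A →+* F := algebraMap A F
  have hal : Function.Injective al := IsFractionRing.injective A F
  let e : MvPolynomial (σ →₀ ℕ) M →+* F := al.comp e₀
  let ε : MvPolynomial (σ →₀ ℕ) M →+* M := eval (fun ν => coeff ν G)
  -- specialisation
  have hker : ∀ H, e H = 0 → ε H = 0 := by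
    intro H hH
    have h0 : e₀ H = 0 := hal (by rw [map_zero]; exact hH)
    refine hyp H ?_
    intro N _ ι' P R hP hR
    let s : A →+* N := eval₂Hom ι' (Sum.elim (fun ν => coeff ν P) (fun ν => coeff ν R))
    have hsP : map s P₀ = P := by
      have h1 : map s P₀ = ELB_gen Ta (fun ν => s (X (Sum.inl ν))) := ELB_gen_map _ _ _
      rw [h1]
      have h2 : (fun ν => s (X (Sum.inl ν))) = fun ν => coeff ν P := by
        funext ν
        exact eval₂Hom_X' ι' _ _
      rw [h2]
      exact ELB_gen_eq ta hP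
    have hsR : map s R₀ = R := by
      have h1 : map s R₀ = ELB_gen Tb (fun ν => s (X (Sum.inr ν))) := ELB_gen_map _ _ _
      rw [h1]
      have h2 : (fun ν => s (X (Sum.inr ν))) = fun ν => coeff ν R := by
        funext ν
        exact eval₂Hom_X' ι' _ _
      rw [h2]
      exact ELB_gen_eq tb hR
    have hsG : map s G₀ = P ^ k * R := by
      show map s (P₀ ^ k * R₀) = _
      rw [map_mul, map_pow, hsP, hsR]
    have h3 : s (e₀ H) = eval₂ ι' (fun ν => coeff ν (P ^ k * R)) H := by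
      have h4 : s.comp e₀ = eval₂Hom ι' (fun ν => coeff ν (P ^ k * R)) := by
        apply MvPolynomial.ringHom_ext
        · intro r
          have h5 : e₀ (C r) = C r := eval₂Hom_C _ _ _
          have h6 : s (C r) = ι' r := eval₂Hom_C _ _ _
          rw [RingHom.comp_apply, h5, h6]
          exact (eval₂Hom_C _ _ _).symm
        · intro ν
          rw [← hsG]
          simp [e₀, coeff_map]
      exact DFunLike.congr_fun h4 H
    rw [← h3, h0, map_zero]
  -- the ideal
  let I : Ideal e.range := (RingHom.ker ε).map e.rangeRestrict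
  have hI : ∀ x : e.range, x ∈ I ↔ ∃ H, ε H = 0 ∧ e.rangeRestrict H = x := by
    intro x
    rw [Ideal.mem_map_iff_of_surjective _ e.rangeRestrict_surjective]
    rfl
  have hItop : I ≠ ⊤ := by
    intro h
    have h1 : (1 : e.range) ∈ I := h ▸ Submodule.mem_top
    obtain ⟨H, hH, hH1⟩ := (hI 1).1 h1
    have h2 : e H = 1 := congrArg Subtype.val hH1
    have h3 : ε (1 - H) = 0 := hker _ (by rw [map_sub, map_one, h2, sub_self])
    rw [map_sub, map_one, hH, sub_zero] at h3
    exact one_ne_zero h3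
  obtain ⟨V, hV, hIV⟩ := Ideal.image_subset_nonunits_valuationSubring I hItop
  have heV : ∀ H, e H ∈ V := fun H => hV ⟨H, rfl⟩
  -- the universal product over the field of fractions
  let GF : MvPolynomial σ F := map al G₀
  have hGF : ∀ ν, coeff ν GF = e (X ν) := by
    intro ν
    show coeff ν (map al G₀) = al (e₀ (X ν))
    rw [coeff_map]
    congr 1
    simp [e₀]
  have hGF0 : GF ≠ 0 := by
    intro h
    apply hG
    ext ν
    have h1 : e (X ν) = 0 := by rw [← hGF, h, coeff_zero]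
    have h2 := hker _ h1
    have h3 : ε (X ν) = coeff ν G := by simp [ε]
    rw [coeff_zero, ← h3, h2]
  have hGF1 : GF = (map al P₀) ^ k * map al R₀ := by
    show map al (P₀ ^ k * R₀) = _
    rw [map_mul, map_pow]
  have hPF0 : map al P₀ ≠ 0 := by
    intro h
    apply hGF0
    rw [hGF1, h, zero_pow (by omega), zero_mul]
  have hRF0 : map al R₀ ≠ 0 := by
    intro h
    apply hGF0
    rw [hGF1, h, mul_zero]
  obtain ⟨a₀, P₂, ha₀, hP₂, hP₂r⟩ := ELB_norm V hPF0
  obtain ⟨b₀, R₂, hb₀, hR₂, hR₂r⟩ := ELB_norm V hRF0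
  let π : V →+* IsLocalRing.ResidueField V := IsLocalRing.residue V
  -- the degree of `P₂`
  have hP₂h : P₂.IsHomogeneous a := by
    have h1 : (map V.subtype P₂).IsHomogeneous a := by
      have h2 : map V.subtype P₂ = C a₀⁻¹ * map al P₀ := by
        rw [hP₂, ← mul_assoc, ← C_mul, inv_mul_cancel₀ ha₀, C_1, one_mul]
      rw [h2]
      have h3 := (isHomogeneous_C σ a₀⁻¹).mul (hP₀.map al)
      rw [zero_add] at h3
      exact h3
    exact IsHomogeneous.of_map (f := V.subtype) Subtype.val_injective h1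
  have hGu : GF = C (a₀ ^ k * b₀) * map V.subtype (P₂ ^ k * R₂) := by
    rw [hGF1, map_mul (map V.subtype), map_pow (map V.subtype), C_mul, C_pow]
    conv_lhs => rw [hP₂, hR₂]
    ring
  have hne : map π (P₂ ^ k * R₂) ≠ 0 := by
    rw [map_mul, map_pow]
    exact mul_ne_zero (pow_ne_zero _ hP₂r) hR₂r
  have hu : a₀ ^ k * b₀ ∈ V := by
    obtain ⟨ν₁, hν₁⟩ := ne_zero_iff.1 hne
    rw [coeff_map] at hν₁
    have hunit : IsUnit (coeff ν₁ (P₂ ^ k * R₂)) := by
      by_contra h
      exact hν₁ ((IsLocalRing.residue_eq_zero_iff _).2 ((IsLocalRing.mem_maximalIdeal _).2 h))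
    obtain ⟨w, hw⟩ := hunit
    have h1 : coeff ν₁ GF = a₀ ^ k * b₀ * ((w : V) : F) := by
      rw [hGu, coeff_C_mul, coeff_map, hw]
      rfl
    have h2 : ((w : V) : F) * (((w⁻¹ : Vˣ) : V) : F) = 1 := by
      have h3 : (w : V) * ((w⁻¹ : Vˣ) : V) = 1 := w.mul_inv
      exact congrArg Subtype.val h3
    have h3 : a₀ ^ k * b₀ = coeff ν₁ GF * (((w⁻¹ : Vˣ) : V) : F) := by
      rw [h1, mul_assoc, h2, mul_one]
    rw [h3, hGF]
    exact mul_mem (heV _) (Subtype.property _)
  let GV : MvPolynomial σ V := C ⟨_, hu⟩ * (P₂ ^ k * R₂)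
  have hGV : map V.subtype GV = GF := by
    rw [hGu]
    show map V.subtype (C _ * (P₂ ^ k * R₂)) = _
    rw [map_mul, map_C]
    rfl
  let φ : MvPolynomial (σ →₀ ℕ) M →+* V := e.codRestrict V.toSubring heV
  let j : M →+* IsLocalRing.ResidueField V := π.comp (φ.comp C)
  have hj : map π GV = map j G := by
    ext ν
    rw [coeff_map, coeff_map]
    have h1 : coeff ν GV = φ (X ν) := by
      apply Subtype.ext
      have h2 := congrArg (coeff ν) hGV
      rw [coeff_map, hGF] at h2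
      exact h2
    have h3 : φ (X ν) - φ (C (coeff ν G)) ∈ IsLocalRing.maximalIdeal V := by
      rw [← map_sub, ← ValuationSubring.coe_mem_nonunits_iff]
      refine hIV ⟨e.rangeRestrict (X ν - C (coeff ν G)), (hI _).2 ⟨_, ?_, rfl⟩, rfl⟩
      rw [map_sub]
      simp [ε]
    rw [h1]
    have h4 : π (φ (X ν) - φ (C (coeff ν G))) = 0 := (IsLocalRing.residue_eq_zero_iff _).2 h3
    rw [map_sub, sub_eq_zero] at h4
    exact h4
  refine ⟨IsLocalRing.ResidueField V, inferInstance, j, map π P₂, hP₂r, hP₂h.map π, ?_⟩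
  rw [← hj]
  show (map π P₂) ^ k ∣ map π (C _ * (P₂ ^ k * R₂))
  rw [map_mul (map π), map_mul (map π), map_pow (map π)]
  exact (Dvd.intro _ rfl).mul_left _

end Pool.MPY
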