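import Pool.Agent.Work.MP_f82ddf_Y.Interface4
import Pool.Agent.Work.MP_f82ddf_Y.B_ELA

set_option autoImplicit false

/-! # THEOREM T+, block ELM: elimination with bounded degree -/

namespace Pool.MPY

open MvPolynomial

/-- the relations between the coefficients of the products `P ^ k * R` -/
def ELM_J (σ : Type) (T : Type) (v : T → (σ →₀ ℕ)) (k a b : ℕ) : Ideal (MvPolynomial T ℂ) where
  carrier := {H | ∀ (N : Type) [Field N] (ι' : ℂ →+* N) (P R : MvPolynomial σ N),
    P.IsHomogeneous a → R.IsHomogeneous b →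
      eval₂ ι' (fun ν => coeff (v ν) (P ^ k * R)) H = 0}
  add_mem' := by
    intro x y hx hy N _ ι' P R hP hR
    rw [eval₂_add, hx N ι' P R hP hR, hy N ι' P R hP hR, add_zero]
  zero_mem' := by
    intro N _ ι' P R _ _
    rw [eval₂_zero]
  smul_mem' := by
    intro c x hx N _ ι' P R hP hR
    rw [smul_eq_mul, eval₂_mul, hx N ι' P R hP hR, mul_zero]

/-- block ELM -/
theorem p_ELM (hELA : Stmt_ELA) (hELB : Stmt_ELB) (hWHF : Pool.ThmM.Chow.Stmt_WHF) :
    Stmt_ELM := by
  classical
  intro σ _ k a E hk
  have := Fintype.ofFinite σ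
  -- the degree of `P' ^ k` and of the cofactor
  have hdeg : ∀ (N : Type) [Field N] (P' R' : MvPolynomial σ N), P' ≠ 0 → P'.IsHomogeneous a →
      P' ^ k * R' ≠ 0 → (P' ^ k * R').IsHomogeneous E →
      k * a ≤ E ∧ R'.IsHomogeneous (E - k * a) := by
    intro N _ P' R' hP0 hP hne hhom
    obtain ⟨a', b', hab, h1, h2⟩ := hWHF σ N 1 (P' ^ k) R' E hne hhom
    have h3 : (P' ^ k).IsHomogeneous (a * k) := hP.pow k
    have h4 : a' = a * k := IsHomogeneous.inj_right h1 h3 (pow_ne_zero _ hP0)
    have h5 : a * k = k * a := mul_comm _ _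
    refine ⟨by omega, ?_⟩
    have h6 : E - k * a = b' := by omega
    rw [h6]
    exact h2
  rcases Nat.lt_or_ge E (k * a) with hE | hE
  · refine ⟨1, ?_⟩
    intro M _ ι G hG hG0 _
    obtain ⟨ν, hν⟩ := exists_coeff_ne_zero hG0
    refine ⟨X ν, (totalDegree_X ν).le, ?_, ?_⟩
    · rw [eval₂_X]
      exact hν
    · intro N _ ι' G' P' hG' hP0 hP hdvd
      rw [eval₂_X]
      obtain ⟨R', hR'⟩ := hdvd
      by_cases h0 : G' = 0
      · rw [h0, coeff_zero]
      · exfalso
        have h1 := hdeg N P' R' hP0 hP (hR' ▸ h0) (hR' ▸ hG')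
        omega
  · set b := E - k * a with hb
    let T : Type := ↥(Finset.finsuppAntidiag (Finset.univ : Finset σ) E)
    let v : T → (σ →₀ ℕ) := Subtype.val
    have hfin : Finite T := inferInstance
    have hN : IsNoetherianRing (MvPolynomial T ℂ) := inferInstance
    obtain ⟨S, hS⟩ := hN.noetherian (ELM_J σ T v k a b)
    refine ⟨S.sup totalDegree, ?_⟩
    intro M _ ι G hG hG0 hnd
    have key : ∃ H₀ ∈ S, eval₂ ι (fun ν : T => coeff (v ν) G) H₀ ≠ 0 := by
      by_contra hcon
      push Not at hcon
      have hall : ∀ H ∈ ELM_J σ T v k a b, eval₂ ι (fun ν : T => coeff (v ν) G) H = 0 := by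
        intro H hH
        have h1 : ELM_J σ T v k a b ≤ RingHom.ker (eval₂Hom ι (fun ν : T => coeff (v ν) G)) := by
          rw [← hS]
          apply Ideal.span_le.2
          intro x hx
          exact hcon x hx
        exact h1 hH
      -- restriction of the variables
      let g : (σ →₀ ℕ) → MvPolynomial T ℂ := fun ν =>
        if h : ν ∈ Finset.finsuppAntidiag (Finset.univ : Finset σ) E then
          X (⟨ν, h⟩ : T) else 0
      have hres : ∀ (N : Type) [Field N] (ι' : ℂ →+* N) (F : MvPolynomial σ N),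
          F.IsHomogeneous E → ∀ H : MvPolynomial (σ →₀ ℕ) ℂ,
          eval₂ ι' (fun ν : T => coeff (v ν) F) (bind₁ g H) =
            eval₂ ι' (fun ν => coeff ν F) H := by
        intro N _ ι' F hF H
        have h1 := eval₂Hom_bind₁ ι' (fun ν : T => coeff (v ν) F) g H
        rw [coe_eval₂Hom, coe_eval₂Hom] at h1
        rw [h1]
        congr 1
        funext ν
        show eval₂ ι' (fun ν : T => coeff (v ν) F) (g ν) = coeff ν F
        by_cases h : ν ∈ Finset.finsuppAntidiag (Finset.univ : Finset σ) E
        · simp only [g, dif_pos h, eval₂_X, v]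
        · simp only [g, dif_neg h, eval₂_zero]
          rw [ELA_mem] at h
          exact (hF.coeff_eq_zero h).symm
      have hA := hELA σ k a b M ι G (by
        intro H hH
        rw [← hres M ι G hG H]
        apply hall
        intro N _ ι' P R hP hR
        have h2 : (P ^ k * R).IsHomogeneous E := by
          have h3 : (P ^ k * R).IsHomogeneous (a * k + b) := (hP.pow k).mul hR
          have h4 : a * k + b = E := by
            have h5 : a * k = k * a := mul_comm _ _
            omega
          rw [h4] at h3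
          exact h3
        rw [hres N ι' _ h2 H]
        exact hH N ι' P R hP hR)
      obtain ⟨M', iM', j, P, hP0, hP, hdvd⟩ := hELB σ k a b M G hk hG0 hA
      exact hnd M' j P hP0 hP hdvd
    obtain ⟨H₀, hH₀, hne⟩ := key
    refine ⟨rename v H₀, ?_, ?_, ?_⟩
    · exact (totalDegree_rename_le v H₀).trans (Finset.le_sup (f := totalDegree) hH₀)
    · rw [eval₂_rename]
      exact hne
    · intro N _ ι' G' P' hG' hP0 hP hdvd
      rw [eval₂_rename]
      have hJ : H₀ ∈ ELM_J σ T v k a b := by
        rw [← hS]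
        exact Ideal.subset_span hH₀
      obtain ⟨R', hR'⟩ := hdvd
      by_cases h0 : G' = 0
      · have h1 := hJ N ι' 0 0 (isHomogeneous_zero _ _ _) (isHomogeneous_zero _ _ _)
        rw [← h1]
        congr 1
        funext ν
        simp [h0]
      · have h1 := (hdeg N P' R' hP0 hP (hR' ▸ h0) (hR' ▸ hG')).2
        have h2 := hJ N ι' P' R' hP h1
        rw [← h2, hR']
        rfl

end Pool.MPY
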