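import Pool.Agent.Work.MP_f82ddf_Y.Interface4
import Pool.Agent.Work.MP_f82ddf_Y.B_FNY

set_option autoImplicit false

/-! # THEOREM T+ (MP_f82ddf_nt), block FNR: the final statement with the degree bound -/

open Pool.Agent.Work.MP_f82ddf_nt.DQ

namespace Pool.MPY

open MvPolynomial
open Pool.Agent.Work.MP_f82ddf_nt (PSpace HolomorphicOn complexPoints KobayashiHyperbolic
  exists_entire_curve not_kobayashi)
open Pool.ThmP (Mor OnX OnK tm)
open Pool.MPL (FNU_countable FNU_G FNU_G_hom FNU_G_eval FNU_mono)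
open Pool.MPV (Ful Full)
open Pool.ThmP (FullF)
open Pool.MPH (FuF)

/-- FNR -/
theorem p_FNR (hJ : Stmt_JWR) (hMPF : Stmt_MPF) (hNCF : Stmt_NCF) (hTGF : Stmt_TGF)
    (hMPT : Pool.ThmP.Stmt_MPT) (h2 : Pool.ThmM0.Stmt_MREL) : Stmt_FNR := by
  intro n e₀
  obtain ⟨N₁, δ, hN⟩ := hJ n e₀
  refine ⟨N₁, δ, fun K _ _ c N k p₀ H hp₀ hH hc => ?_⟩
  have : Countable (AlgebraicClosure K) := FNU_countable K
  choose e he using hH
  obtain ⟨W, hWf, hWp, hWc⟩ := hN (AlgebraicClosure K) c N k e p₀ H he hp₀ hc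
  refine ⟨W, hWf, hWp, fun τ f hf hfp htng hab => ?_, fun m S hS g hinto hfull τ => ?_⟩
  · -- entire curves in `V(p₀)`
    obtain ⟨φ, hφ, i₀, hi₀, hFx, hrep, hcon⟩ := exists_mer_of_curve (K := ℂ) (n := n)
      (S := {G | ∃ F ∈ p₀, ∃ d, F.IsHomogeneous d ∧ G = map τ F})
      (by
        rintro G ⟨F, -, d, hd, rfl⟩
        exact ⟨d, hd.map τ⟩) (RingHom.id ℂ) f hf
      (by
        rintro z G ⟨F, hF, d, hd, rfl⟩
        rw [eval₂_map, RingHom.id_comp]
        exact hfp z F hF)
    obtain ⟨j, hj⟩ := hcon hab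
    have hNC : Pool.MPL.NC (fun l => Mer.mk (φ l) (hφ l)) := by
      refine ⟨i₀, j, ?_, fun a => ?_⟩
      · change Mer.mk (φ i₀) (hφ i₀) ≠ 0
        rw [hi₀]
        exact one_ne_zero
      · change Mer.mk (φ j) (hφ j) ≠ algebraMap ℂ Mer a * Mer.mk (φ i₀) (hφ i₀)
        rw [hi₀, mul_one]
        exact hj a
    have hp0x : ∀ F ∈ p₀, eval₂ (tm τ) (fun l => Mer.mk (φ l) (hφ l)) F = 0 := by
      refine FNY_sum hp₀ _ _ fun F hF d hd => ?_
      have h3 := hFx (map τ F) ⟨F, hF, d, hd, rfl⟩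
      rw [eval₂_map] at h3
      exact h3
    have hful : ∀ j, FuF (k j) (fun l => Mer.mk (φ l) (hφ l)) (e j) (map τ (H j)) := fun j =>
      hTGF n (e j) (k j) (map τ (H j)) f hf ((he j).2.2.map τ) (htng j) φ hφ i₀ hi₀ hrep
    obtain ⟨p, hpW, hpx⟩ := hWc τ _ ⟨hNC, hp0x, hful⟩
    refine ⟨p, hpW, fun z => ?_⟩
    have h4 := FNY_exc h2 τ f hf φ hφ hrep p (hWp p hpW).1.2.1 X (a := 1)
      (fun c => isHomogeneous_X _ _)
      (fun F hF d hd => by simpa only [eval₂_X] using hpx F hF) z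
    simpa only [eval₂_X] using h4
  · set σ : K →+* ℂ := τ.comp (algebraMap K (AlgebraicClosure K)) with hσ
    have hcurve : ∀ f : ℂ → PSpace ℂ m, HolomorphicOn f Set.univ →
        (∀ z, f z ∈ complexPoints S σ) →
        (∃ p ∈ W, ∀ z, f z ∈ ExcP g p τ) ∨
          (InFib g τ f ∧ (g.Finite → ¬ ∃ z₁ z₂, f z₁ ≠ f z₂)) := by
      intro f hf hfX
      obtain ⟨φ, hφ, i₀, hi₀, hFx, hrep, hcon⟩ := exists_mer_of_curve hS σ f hf hfX
      obtain ⟨x, hxdef⟩ : ∃ x : Fin (m + 1) → Mer, x = fun j => Mer.mk (φ j) (hφ j) := ⟨_, rfl⟩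
      have hx' : OnK (tm τ) S x := by
        intro F hF
        have h6 : (tm τ).comp (algebraMap K (AlgebraicClosure K)) =
            (algebraMap ℂ Mer).comp σ := by
          rw [tm, RingHom.comp_assoc, hσ]
        rw [h6, hxdef]
        exact hFx F hF
      have hxi : x i₀ = 1 := by
        rw [hxdef]
        exact hi₀
      have hx0 : x ≠ 0 := by
        intro h
        rw [h] at hxi
        exact zero_ne_one hxi
      have hM := hMPT K (AlgebraicClosure K) Mer m n S g (tm τ) x hx'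
      obtain ⟨s₀, hs₀, c₀, hc₀⟩ := hM.1 hx0
      have hsc : ∀ s ∈ g.tuples, ∀ d, eval₂ (tm τ) x (s d)
          = eval₂ (tm τ) x (s c₀) / eval₂ (tm τ) x (s₀ c₀) * eval₂ (tm τ) x (s₀ d) := by
        intro s hs d
        have h4 := hM.2 s hs s₀ hs₀ d c₀
        rw [div_mul_eq_mul_div, eq_div_iff hc₀]
        exact h4
      obtain ⟨hY1, hY2⟩ := hMPF K (AlgebraicClosure K) m n N S g k e p₀ H hS hinto
        (fun j => (he j).2.2) hfull τ x hx' s₀ hs₀ ⟨c₀, hc₀⟩
      by_cases hNC : Pool.MPL.NC (fun c => eval₂ (tm τ) x (s₀ c))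
      · left
        obtain ⟨p, hpW, hpy⟩ := hWc τ _ ⟨hNC, hY1, hY2⟩
        refine ⟨p, hpW, fun z => ⟨hfX z, fun s hs => ?_⟩⟩
        obtain ⟨a, ha⟩ := g.homogeneous s hs
        refine FNY_exc h2 τ f hf φ hφ hrep p (hWp p hpW).1.2.1 s ha (fun F hF d hd => ?_) z
        have h4 : eval₂ (tm τ) (fun c => eval₂ (tm τ) x (s c)) F = 0 := by
          have hprop : (fun c => eval₂ (tm τ) x (s c)) =
              (eval₂ (tm τ) x (s c₀) / eval₂ (tm τ) x (s₀ c₀)) •
                fun c => eval₂ (tm τ) x (s₀ c) := by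
            funext d
            rw [Pi.smul_apply, smul_eq_mul]
            exact hsc s hs d
          rw [hprop, Pool.Agent.Work.MP_f82ddf_nt.eval₂_smul_hom hd, hpy F hF, mul_zero]
        rw [hxdef] at h4
        exact h4
      · right
        refine ⟨?_, fun hfin hab => ?_⟩
        · have hconst : ∀ d, ∃ a : ℂ,
              eval₂ (tm τ) x (s₀ d) = algebraMap ℂ Mer a * eval₂ (tm τ) x (s₀ c₀) := by
            intro d
            by_contra hcon
            push Not at hcon
            exact hNC ⟨c₀, d, hc₀, hcon⟩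
          choose a ha using hconst
          have ha0 : a c₀ ≠ 0 := by
            intro h
            apply hc₀
            rw [ha c₀, h, map_zero, zero_mul]
          refine ⟨a, fun h => ha0 (congrFun h c₀), ?_⟩
          intro z s hs d d'
          obtain ⟨es, hes⟩ := g.homogeneous s hs
          have hmap : ∀ l, eval₂ (algebraMap ℂ Mer) x (map τ (s l)) = eval₂ (tm τ) x (s l) := by
            intro l
            rw [eval₂_map]
            rfl
          have hvan : aeval x (map τ (s d) * C (a d') - map τ (s d') * C (a d)) = 0 := by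
            rw [aeval_def, eval₂_sub, eval₂_mul, eval₂_mul, eval₂_C, eval₂_C, hmap, hmap,
              hsc s hs d, hsc s hs d']
            rw [ha d, ha d']
            ring
          rw [hxdef] at hvan
          have hhom : (map τ (s d) * C (a d') - map τ (s d') * C (a d)).IsHomogeneous es := by
            have h3 := ((hes d).map τ).mul (isHomogeneous_C (Fin (m + 1)) (a d'))
            have h4 := ((hes d').map τ).mul (isHomogeneous_C (Fin (m + 1)) (a d))
            exact h3.sub h4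
          have h5 := h2 m f φ hφ hf hrep (m + 1) es id _ hhom hvan z
          rw [map_sub, map_mul, map_mul, eval_C, eval_C, eval_map, eval_map, sub_eq_zero] at h5
          exact h5
        · obtain ⟨j, hj⟩ := hcon hab
          refine hNC (hNCF K (AlgebraicClosure K) m n S g hS hfin τ x hx'
            ⟨i₀, j, ?_, fun b => ?_⟩ s₀ hs₀ ⟨c₀, hc₀⟩)
          · rw [hxi]
            exact one_ne_zero
          · rw [hxi, mul_one, hxdef]
            exact hj b
    have hcurve' : g.Finite → ∀ f : ℂ → PSpace ℂ m, HolomorphicOn f Set.univ →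
        (∀ z, f z ∈ complexPoints S σ) → (∃ z₁ z₂, f z₁ ≠ f z₂) →
        ∃ p ∈ W, ∀ z, f z ∈ ExcP g p τ := by
      intro hfin f hf hfX hab
      rcases hcurve f hf hfX with h3 | h3
      · exact h3
      · exact absurd hab (h3.2 hfin)
    refine ⟨fun f hf hfX => (hcurve f hf hfX).imp id fun h3 => h3.1,
      fun hfin => ⟨hcurve' hfin, fun hX => ?_, fun hZ => ?_⟩⟩
    · refine FNU_mono (fun q hq => ?_) hX
      rw [Set.mem_iUnion₂] at hq
      obtain ⟨p, -, hq⟩ := hq
      exact hq.1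
    · by_contra hX
      obtain ⟨f, hf, hfX, a, b, hab⟩ := exists_entire_curve hS σ hX
      obtain ⟨p, hpW, hp⟩ := hcurve' hfin f hf hfX ⟨a, b, hab⟩
      exact not_kobayashi f hf (fun z => Set.mem_iUnion₂.2 ⟨p, hpW, hp z⟩) a b hab hZ

end Pool.MPY
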