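import Pool.Agent.Work.MP_f82ddf_Y.Interface4
import Pool.Agent.Work.MP_f82ddf_Y.B_JWL

set_option autoImplicit false

/-! # THEOREM T+ (MP_f82ddf_nt), block JWR: the exceptional sets, of bounded degree -/

open Pool.Agent.Work.MP_f82ddf_nt.DQ

namespace Pool.MPY

open MvPolynomial
open Pool.ThmP (tm)
open Pool.MPL (NC)
open Pool.MPH (FuF)

theorem JWR_ext {F : Type} [Field F] {m δ : ℕ} {p₀ p q : Ideal (MvPolynomial (Fin (m + 1)) F)}
    (hp : SectOf δ p₀ p) {e : ℕ} (he : e ≤ δ) {D : MvPolynomial (Fin (m + 1)) F}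
    (hD : D.IsHomogeneous e) (hDp : D ∉ p) (hq : q ∈ (p ⊔ Ideal.span {D}).minimalPrimes) :
    SectOf δ p₀ q := by
  classical
  obtain ⟨r, u, h0, hr, hs⟩ := hp
  refine ⟨r + 1, fun i => if i ≤ r then u i else q, ?_, ?_, ?_⟩
  · simpa using h0
  · simp
  · intro i hi
    by_cases h : i < r
    · obtain ⟨e', D', a1, a2, a3, a4⟩ := hs i h
      refine ⟨e', D', a1, a2, ?_, ?_⟩
      · simp only [show i ≤ r from h.le, if_true]
        exact a3
      · simp only [show i ≤ r from h.le, show i + 1 ≤ r from h, if_true]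
        exact a4
    · have hir : i = r := by omega
      subst hir
      refine ⟨e, D, he, hD, ?_, ?_⟩
      · simp only [le_refl, if_true]
        rw [hr]
        exact hDp
      · simp only [le_refl, if_true, show ¬ (i + 1 ≤ i) from by omega, if_false]
        rw [hr]
        exact hq

theorem JWR_sup {F : Type} [Field F] {m : ℕ} {p : Ideal (MvPolynomial (Fin (m + 1)) F)}
    (hp : Hmg p) {e : ℕ} {D : MvPolynomial (Fin (m + 1)) F} (hD : D.IsHomogeneous e) :
    Hmg (p ⊔ Ideal.span {D}) := by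
  intro f hf n
  obtain ⟨a, ha, b, hb, rfl⟩ := Submodule.mem_sup.1 hf
  rw [map_add]
  refine Ideal.add_mem _ (Ideal.mem_sup_left (hp a ha n)) (Ideal.mem_sup_right ?_)
  obtain ⟨c, rfl⟩ := Ideal.mem_span_singleton'.1 hb
  rw [Ideal.mem_span_singleton]
  by_cases hn : e ≤ n
  · have h1 : homogeneousComponent n (c * D) = homogeneousComponent (n - e) c * D := by
      conv_lhs => rw [← sum_homogeneousComponent c, Finset.sum_mul, map_sum]
      have h2 : ∀ i ∈ Finset.range (c.totalDegree + 1),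
          homogeneousComponent n (homogeneousComponent i c * D) =
            if i = n - e then homogeneousComponent i c * D else 0 := by
        intro i _
        have h3 := (homogeneousComponent_isHomogeneous i c).mul hD
        rw [homogeneousComponent_of_mem h3]
        by_cases h4 : i = n - e
        · rw [if_pos h4, if_pos (by omega)]
        · rw [if_neg h4, if_neg (by omega)]
      rw [Finset.sum_congr rfl h2, Finset.sum_ite_eq']
      split_ifs with h
      · rfl
      · rw [Finset.mem_range, not_lt] at h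
        rw [homogeneousComponent_eq_zero (n - e) c (by omega), zero_mul]
    rw [h1]
    exact Dvd.intro_left _ rfl
  · have h1 : homogeneousComponent n (c * D) = 0 := by
      conv_lhs => rw [← sum_homogeneousComponent c, Finset.sum_mul, map_sum]
      refine Finset.sum_eq_zero fun i _ => ?_
      have h3 := (homogeneousComponent_isHomogeneous i c).mul hD
      rw [homogeneousComponent_of_mem h3, if_neg (by omega)]
    rw [h1]
    exact dvd_zero _

/-- JWR -/
theorem p_JWR (hUEM : Stmt_UEM) (hHMP : Stmt_HMP) (hDM1 : Stmt_DM1) (hHYP : Stmt_HYP) :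
    Stmt_JWR := by
  classical
  intro m e₀
  obtain ⟨N', δ, hU⟩ := hUEM m e₀
  refine ⟨N', δ, fun Ω _ _ _ c N k e p₀ F hF hp₀ hc => ?_⟩
  have main : ∀ p : Ideal (MvPolynomial (Fin (m + 1)) Ω), p.IsPrime → Hmg p → p₀ ≤ p →
      SectOf δ p₀ p → ∃ W : Set (Ideal (MvPolynomial (Fin (m + 1)) Ω)), W.Finite ∧
        (∀ q ∈ W, q.IsPrime ∧ Hmg q ∧ p₀ ≤ q ∧ SectOf δ p₀ q ∧
          {j | Low (k j) q (F j)}.ncard ≤ N' * c) ∧
        ∀ (τ : Ω →+* ℂ) (x : Fin (m + 1) → Mer), CrF k e p₀ F τ x →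
          (∀ f ∈ p, eval₂ (tm τ) x f = 0) → ∃ q ∈ W, ∀ f ∈ q, eval₂ (tm τ) x f = 0 := by
    intro p
    refine WellFoundedGT.induction (motive := fun p : Ideal (MvPolynomial (Fin (m + 1)) Ω) =>
      p.IsPrime → Hmg p → p₀ ≤ p →
      SectOf δ p₀ p → ∃ W : Set (Ideal (MvPolynomial (Fin (m + 1)) Ω)), W.Finite ∧
        (∀ q ∈ W, q.IsPrime ∧ Hmg q ∧ p₀ ≤ q ∧ SectOf δ p₀ q ∧
          {j | Low (k j) q (F j)}.ncard ≤ N' * c) ∧
        ∀ (τ : Ω →+* ℂ) (x : Fin (m + 1) → Mer), CrF k e p₀ F τ x →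
          (∀ f ∈ p, eval₂ (tm τ) x f = 0) → ∃ q ∈ W, ∀ f ∈ q, eval₂ (tm τ) x f = 0) p ?_
    intro p ih hpp hph hle hsec
    by_cases hlow : {j | Low (k j) p (F j)}.ncard ≤ N' * c
    · refine ⟨{p}, Set.finite_singleton p, ?_, fun τ x _ hx => ⟨p, rfl, hx⟩⟩
      rintro q rfl
      exact ⟨hpp, hph, hle, hsec, hlow⟩
    · by_cases hind : ∃ f : Fin 2 → MvPolynomial (Fin (m + 1)) Ω, IndMod p f
      · obtain ⟨D, hDp, hDdeg, hDx⟩ := hU Ω c N k e p F hF hpp hph hind
          (fun z hz hzp => hc z hz fun f hf => hzp f (hle hf)) (not_le.1 hlow)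
        obtain ⟨i, hi⟩ : ∃ i, homogeneousComponent i D ∉ p := by
          by_contra hcon
          push Not at hcon
          apply hDp
          rw [← sum_homogeneousComponent D]
          exact Ideal.sum_mem _ fun i _ => hcon i
        have hiδ : i ≤ δ := by
          by_contra hcon
          rw [homogeneousComponent_eq_zero i D (by omega)] at hi
          exact hi p.zero_mem
        have hG := homogeneousComponent_isHomogeneous i D
        have hGx : ∀ (τ : Ω →+* ℂ) (x : Fin (m + 1) → Mer), CrF k e p₀ F τ x →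
            (∀ f ∈ p, eval₂ (tm τ) x f = 0) →
            eval₂ (tm τ) x (homogeneousComponent i D) = 0 := by
          intro τ x hx hxp
          refine JWI_hmg (tm τ) x D (fun t ht => ?_) i
          have h1 := JWF_scale hp₀ (fun j => (hF j).2.2) hx ht
          refine hDx τ _ h1.1 (fun f hf => ?_) h1.2.2
          rw [JWI_sum]
          exact Finset.sum_eq_zero fun n _ => by rw [hxp _ (hph f hf n), mul_zero]
        have hfin := Ideal.finite_minimalPrimes_of_isNoetherianRing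
          (MvPolynomial (Fin (m + 1)) Ω) (p ⊔ Ideal.span {homogeneousComponent i D})
        have hq : ∀ q ∈ (p ⊔ Ideal.span {homogeneousComponent i D}).minimalPrimes,
            ∃ W : Set (Ideal (MvPolynomial (Fin (m + 1)) Ω)), W.Finite ∧
              (∀ q ∈ W, q.IsPrime ∧ Hmg q ∧ p₀ ≤ q ∧ SectOf δ p₀ q ∧
                {j | Low (k j) q (F j)}.ncard ≤ N' * c) ∧
              ∀ (τ : Ω →+* ℂ) (x : Fin (m + 1) → Mer), CrF k e p₀ F τ x →
                (∀ f ∈ q, eval₂ (tm τ) x f = 0) → ∃ q ∈ W, ∀ f ∈ q, eval₂ (tm τ) x f = 0 := by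
          intro q hq
          have hpq : p ≤ q := le_sup_left.trans hq.1.2
          have hGq : homogeneousComponent i D ∈ q :=
            hq.1.2 (Ideal.mem_sup_right (Ideal.mem_span_singleton_self _))
          refine ih q (lt_of_le_of_ne hpq fun h => hi (h ▸ hGq)) hq.1.1
            (hHMP Ω m _ (JWR_sup hph hG) q hq) (hle.trans hpq) (JWR_ext hsec hiδ hG hi hq)
        choose! W' hW1 hW2 hW3 using hq
        refine ⟨⋃ q ∈ (p ⊔ Ideal.span {homogeneousComponent i D}).minimalPrimes, W' q,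
          hfin.biUnion hW1, ?_, ?_⟩
        · intro q' hq'
          obtain ⟨q, hq, hq''⟩ := Set.mem_iUnion₂.1 hq'
          exact hW2 q hq q' hq''
        · intro τ x hx hxp
          have hker : p ⊔ Ideal.span {homogeneousComponent i D} ≤
              RingHom.ker (eval₂Hom (tm τ) x) := by
            refine sup_le (fun f hf => hxp f hf) ?_
            rw [Ideal.span_singleton_le_iff_mem]
            exact hGx τ x hx hxp
          haveI : (RingHom.ker (eval₂Hom (tm τ) x)).IsPrime := RingHom.ker_isPrime _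
          obtain ⟨q, hq, hqk⟩ := Ideal.exists_minimalPrimes_le hker
          obtain ⟨q', hq', hq''⟩ := hW3 q hq τ x hx fun f hf => hqk hf
          exact ⟨q', Set.mem_iUnion₂.2 ⟨q, hq, hq'⟩, hq''⟩
      · refine ⟨∅, Set.finite_empty, fun q hq => absurd hq (Set.notMem_empty q), ?_⟩
        intro τ x hx hxp
        exact absurd (hDM1 Ω m p hph τ x hx.1 hxp) hind
  have hfin := Ideal.finite_minimalPrimes_of_isNoetherianRing (MvPolynomial (Fin (m + 1)) Ω) p₀
  have hstart : ∀ p ∈ p₀.minimalPrimes,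
      ∃ W : Set (Ideal (MvPolynomial (Fin (m + 1)) Ω)), W.Finite ∧
        (∀ q ∈ W, q.IsPrime ∧ Hmg q ∧ p₀ ≤ q ∧ SectOf δ p₀ q ∧
          {j | Low (k j) q (F j)}.ncard ≤ N' * c) ∧
        ∀ (τ : Ω →+* ℂ) (x : Fin (m + 1) → Mer), CrF k e p₀ F τ x →
          (∀ f ∈ p, eval₂ (tm τ) x f = 0) → ∃ q ∈ W, ∀ f ∈ q, eval₂ (tm τ) x f = 0 :=
    fun p hp => main p hp.1.1 (hHMP Ω m _ hp₀ p hp) hp.1.2
      ⟨0, fun _ => p, hp, rfl, fun i hi => absurd hi (Nat.not_lt_zero i)⟩
  choose! W' hW1 hW2 hW3 using hstart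
  refine ⟨{p | p ∈ (⋃ q ∈ p₀.minimalPrimes, W' q) ∧
      ∃ z w : Fin (m + 1) → Ω, (∀ f ∈ p, eval z f = 0) ∧ (∀ f ∈ p, eval w f = 0) ∧
        ∃ i j, z i * w j ≠ z j * w i},
    (hfin.biUnion hW1).subset fun p hp => hp.1, ?_, ?_⟩
  · rintro p ⟨hp1, hp2⟩
    obtain ⟨q, hq, hq''⟩ := Set.mem_iUnion₂.1 hp1
    exact ⟨hW2 q hq p hq'', hp2⟩
  · intro τ x hx
    haveI : (RingHom.ker (eval₂Hom (tm τ) x)).IsPrime := RingHom.ker_isPrime _
    have hker : p₀ ≤ RingHom.ker (eval₂Hom (tm τ) x) := fun f hf => hx.2.1 f hf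
    obtain ⟨q, hq, hqk⟩ := Ideal.exists_minimalPrimes_le hker
    obtain ⟨q', hq', hq''⟩ := hW3 q hq τ x hx fun f hf => hqk hf
    have h1 := hW2 q hq q' hq'
    exact ⟨q', ⟨Set.mem_iUnion₂.2 ⟨q, hq, hq'⟩,
      JWG_pts hHYP h1.1 h1.2.1 (hDM1 Ω m q' h1.2.1 τ x hx.1 hq'')⟩, hq''⟩

end Pool.MPY
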