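import Pool.Agent.Work.MP_f82ddf_Y.Interface4

set_option autoImplicit false

/-! Block LFX: divisibility by a polynomial with constant coefficients specialises. -/

namespace Pool.MPY

open MvPolynomial

private theorem LFX_ext (κ R M N : Type) [Field κ] [CommRing R] [Field M] [Field N] (ι : κ →+* R)
    (θ : R →+* M) (θ' : R →+* N) (hk : ∀ r, θ r = 0 → θ' r = 0) :
    ∃ ψ : M →+ N, (∀ r, ψ (θ r) = θ' r) ∧ ∀ (c : κ) (x : M), ψ (θ (ι c) * x) = θ' (ι c) * ψ x := by
  letI : Algebra κ M := (θ.comp ι).toAlgebra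
  letI : Algebra κ N := (θ'.comp ι).toAlgebra
  letI : Algebra κ R := ι.toAlgebra
  have hM : ∀ (c : κ) (x : M), c • x = θ (ι c) * x := fun c x => rfl
  have hN : ∀ (c : κ) (x : N), c • x = θ' (ι c) * x := fun c x => rfl
  have hR : ∀ (c : κ) (x : R), c • x = ι c * x := fun c x => rfl
  let tl : R →ₗ[κ] M :=
    { toFun := θ, map_add' := map_add θ, map_smul' := fun c r => by
        rw [hR, map_mul, RingHom.id_apply, hM] }
  let tl' : R →ₗ[κ] N :=
    { toFun := θ', map_add' := map_add θ', map_smul' := fun c r => by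
        rw [hR, map_mul, RingHom.id_apply, hN] }
  have hker : LinearMap.ker tl ≤ LinearMap.ker tl' := fun r hr => hk r hr
  obtain ⟨l, hl⟩ := LinearMap.exists_leftInverse_of_injective ((LinearMap.ker tl).liftQ tl le_rfl)
    (Submodule.ker_liftQ_eq_bot _ _ _ le_rfl)
  let ψ : M →ₗ[κ] N := ((LinearMap.ker tl).liftQ tl' hker).comp l
  refine ⟨ψ.toAddMonoidHom, fun r => ?_, fun c x => ?_⟩
  · have h1 : l (θ r) = Submodule.Quotient.mk r := by
      have := LinearMap.congr_fun hl (Submodule.Quotient.mk r)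
      exact this
    change ((LinearMap.ker tl).liftQ tl' hker) (l (θ r)) = θ' r
    rw [h1]
    rfl
  · change ψ (θ (ι c) * x) = θ' (ι c) * ψ x
    rw [← hM, ← hN, map_smul]

theorem s_LFX : Stmt_LFX := by
  intro κ R M N σ _ _ _ _ ι θ θ' H G hk hd
  classical
  obtain ⟨F, hF⟩ := hd
  obtain ⟨ψ, hψ, hψ'⟩ := LFX_ext κ R M N ι θ θ' hk
  refine ⟨∑ ν ∈ F.support, monomial ν (ψ (coeff ν F)), ?_⟩
  have hc : ∀ ν, coeff ν (∑ ν ∈ F.support, monomial ν (ψ (coeff ν F))) = ψ (coeff ν F) := by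
    intro ν
    rw [coeff_sum]
    simp only [coeff_monomial]
    rw [Finset.sum_ite_eq']
    split_ifs with h
    · rfl
    · rw [notMem_support_iff.mp h, map_zero]
  ext ν
  rw [coeff_mul, coeff_map]
  have h1 := congrArg (coeff ν) hF
  rw [coeff_map, coeff_mul] at h1
  rw [← hψ, h1, map_sum]
  refine Finset.sum_congr rfl fun p _ => ?_
  rw [coeff_map, coeff_map, hc, RingHom.comp_apply, RingHom.comp_apply, hψ']
end Pool.MPY
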