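import Pool.Agent.Work.MP_f82ddf_Y.Interface4
import Pool.Agent.Work.MP_f82ddf_M.C_CORE

set_option autoImplicit false

/-! # THEOREM T+, block PTE: points over the field of meromorphic functions -/

open Pool.Agent.Work.MP_f82ddf_nt.DQ

namespace Pool.MPY

open MvPolynomial
open Pool.Agent.Work.MP_f82ddf_nt (PSpace HolomorphicOn complexPoints points KobayashiHyperbolic)
open Pool.Agent.Work.MP_f82ddf_M5 (lineAt resAt chow at2 comb Data)
open Pool.ThmM (NonProp HypData LastMonic IsRat om dv vP)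
open Pool.ThmM0 (Per)
open Pool.ThmM.Chow (Phi Mov)
open Pool.ThmP (Mor OnX OnK tm RelP)
open Pool.MPL (RX NC aq ae NPr Spn)
open Pool.MPV (Ful Full)

private theorem PTE_comp (α : ℂ ≃+* ℂ) {N : ℕ} (e : ℕ) (D : MvPolynomial (Fin N) ℂ) :
    homogeneousComponent e (aq α D) = aq α (homogeneousComponent e D) := by
  ext m
  rw [aq, aq, coeff_homogeneousComponent, coeff_map, coeff_map, coeff_homogeneousComponent]
  split_ifs
  · rfl
  · exact (map_zero _).symm

private theorem PTE_symm (α : ℂ ≃+* ℂ) {N : ℕ} (f : MvPolynomial (Fin N) ℂ) :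
    aq α (aq α.symm f) = f := by
  rw [aq, aq, map_map]
  have h : (α : ℂ →+* ℂ).comp (α.symm : ℂ →+* ℂ) = RingHom.id ℂ :=
    RingHom.ext fun x => α.apply_symm_apply x
  rw [h, map_id]

private theorem PTE_symm' (α : ℂ ≃+* ℂ) {N : ℕ} (f : MvPolynomial (Fin N) ℂ) :
    aq α.symm (aq α f) = f := PTE_symm α.symm f

private theorem PTE_eval₂ (α : ℂ ≃+* ℂ) {N : ℕ} (x : Fin N → Mer) (f : MvPolynomial (Fin N) ℂ) :
    aeval x (aq α f) = eval₂ (tm (α : ℂ →+* ℂ)) x f := by
  rw [aq, aeval_def, eval₂_map, tm]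

private theorem PTE_eval (α : ℂ ≃+* ℂ) {N : ℕ} (z : Fin N → ℂ) (f : MvPolynomial (Fin N) ℂ) :
    eval z (aq α f) = α (eval (fun i => α.symm (z i)) f) := by
  rw [aq, eval_map]
  have h : (z : Fin N → ℂ) = fun i => (α : ℂ →+* ℂ) (α.symm (z i)) :=
    funext fun i => (α.apply_symm_apply (z i)).symm
  conv_lhs => rw [h]
  exact (MvPolynomial.eval₂_comp_left (α : ℂ →+* ℂ) (RingHom.id ℂ) _ f).symm.trans rfl

/-- the conjugate of the ideal `p` -/
private noncomputable def PTEconj (α : ℂ ≃+* ℂ) {m : ℕ} (p : Ideal (MvPolynomial (Fin (m + 1)) ℂ)) :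
    Ideal (MvPolynomial (Fin (m + 1)) ℂ) :=
  p.comap (map (α.symm : ℂ →+* ℂ))

private theorem PTE_mem (α : ℂ ≃+* ℂ) {m : ℕ} {p : Ideal (MvPolynomial (Fin (m + 1)) ℂ)}
    {f : MvPolynomial (Fin (m + 1)) ℂ} : f ∈ PTEconj α p ↔ aq α.symm f ∈ p := Iff.rfl

private theorem PTE_hmg (α : ℂ ≃+* ℂ) {m : ℕ} {p : Ideal (MvPolynomial (Fin (m + 1)) ℂ)}
    (hp : Hmg p) : Hmg (PTEconj α p) := by
  intro f hf n
  rw [PTE_mem] at hf ⊢
  rw [← PTE_comp]
  exact hp _ hf n

private theorem PTE_sum (α : ℂ ≃+* ℂ) {m r : ℕ} (L : Fin (r + 1) → Fin (m + 1) → ℂ)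
    (u : Fin (r + 1) → ℂ) (x : Fin (m + 1) → Mer) :
    ∑ j, algebraMap ℂ Mer (α (u j)) * ∑ i, algebraMap ℂ Mer (α (L j i)) * x i =
      ∑ i, algebraMap ℂ Mer (α (∑ j, u j * L j i)) * x i := by
  simp only [map_sum, map_mul, Finset.mul_sum, Finset.sum_mul]
  rw [Finset.sum_comm]
  refine Finset.sum_congr rfl fun i _ => Finset.sum_congr rfl fun j _ => ?_
  ring

private theorem PTE_inj {m r : ℕ} (L : Fin (r + 1) → Fin (m + 1) → ℂ) (hL : LinearIndependent ℂ L)
    {u v : Fin (r + 1) → ℂ} (h : (fun i => ∑ j, u j * L j i) = fun i => ∑ j, v j * L j i) :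
    u = v := by
  have h1 : ∑ j, (u j - v j) • L j = 0 := by
    funext i
    have h2 : ∑ j, u j * L j i = ∑ j, v j * L j i := congrFun h i
    rw [Finset.sum_apply, Pi.zero_apply]
    simp only [Pi.smul_apply, smul_eq_mul, sub_mul, Finset.sum_sub_distrib]
    rw [h2, sub_self]
  have h3 := Fintype.linearIndependent_iff.1 hL _ h1
  funext j
  exact sub_eq_zero.1 (h3 j)

theorem p_PTE (hT3D : Stmt_T3D) (hDRT : Stmt_DRT) (hUNE : Stmt_UNE) (hNDK : Stmt_NDK)
    (hODX : Stmt_ODX) (hDVL : Stmt_DVL) (hNCL : Stmt_NCL) (hDM1 : Stmt_DM1)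
    (hTRP : Pool.MPL.Stmt_TRP) (hEXF : Pool.MPV.Stmt_EXF) (hMVP : Pool.MPL.Stmt_MVP) :
    Stmt_PTE := by
  classical
  intro m c
  obtain ⟨β, hβ⟩ := hDRT c
  obtain ⟨N₁, dmax, hN⟩ := hT3D (fun _ w d => β w d + (c + 1)) m
  choose δf hδf using hUNE m
  refine ⟨N₁, ∑ r ∈ Finset.range (m + 1), ∑ w ∈ Finset.range (m + 1),
    ∑ d ∈ Finset.range (dmax + 1), δf r w d, fun k p S hk hprime hHmg hS hc hLow hcard => ?_⟩
  obtain ⟨r, w, d, Q, A, T, lift, L, hrm, hdm, hyp, hβT, hdiv, hTs, hLI, hTS⟩ := hN S hS hcard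
  have hwr : w ≤ r := hyp.hwr
  have hδle : δf r w d ≤ ∑ r ∈ Finset.range (m + 1), ∑ w ∈ Finset.range (m + 1),
      ∑ d ∈ Finset.range (dmax + 1), δf r w d :=
    calc δf r w d ≤ ∑ d ∈ Finset.range (dmax + 1), δf r w d :=
          Finset.single_le_sum (f := fun d => δf r w d) (fun _ _ => Nat.zero_le _)
            (Finset.mem_range.2 (by omega))
      _ ≤ ∑ w ∈ Finset.range (m + 1), ∑ d ∈ Finset.range (dmax + 1), δf r w d :=
          Finset.single_le_sum
            (f := fun w => ∑ d ∈ Finset.range (dmax + 1), δf r w d) (fun _ _ => Nat.zero_le _)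
            (Finset.mem_range.2 (by omega))
      _ ≤ _ := Finset.single_le_sum
            (f := fun r => ∑ w ∈ Finset.range (m + 1), ∑ d ∈ Finset.range (dmax + 1), δf r w d)
            (fun _ _ => Nat.zero_le _) (Finset.mem_range.2 (by omega))
  have hcT : c < T.card := by omega
  have hdiv₀ : ∀ (e : ℕ) (f : MvPolynomial (Fin (w + 2)) ℂ), e ≤ β w d → f.IsHomogeneous e →
      (∀ u ∈ T, eval (lift u) f = 0) → Q ∣ f := fun e f he => hdiv e f (by omega)
  have hTne : T.Nonempty := Finset.card_pos.1 (by omega)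
  obtain ⟨u₁, hu₁, hmin⟩ := Finset.exists_min_image T
    (fun u => k (fun i => ∑ j, u j * L j i)) hTne
  obtain ⟨c₁, hc₁, hA₁⟩ := hyp.prop u₁ hu₁
  have hD := Pool.ThmM.Chow.CORE_data hyp hTs
  by_cases hex : ∃ (α : ℂ ≃+* ℂ) (x : Fin (m + 1) → Mer), NC x ∧ ∀ f ∈ p, aeval x (aq α f) = 0
  swap
  · refine ⟨1, fun h => hprime.ne_top ((Ideal.eq_top_iff_one _).2 h), ?_,
      fun α x hNC hpx _ => ?_⟩
    · rw [totalDegree_one]
      exact Nat.zero_le _
    · exact absurd ⟨α, x, hNC, hpx⟩ hex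
  have hInd : ∃ f : Fin 2 → MvPolynomial (Fin (m + 1)) ℂ, IndMod p f := by
    obtain ⟨α, x, hNC, hpx⟩ := hex
    exact hDM1 ℂ m p hHmg (α : ℂ →+* ℂ) x hNC fun f hf => by rw [← PTE_eval₂, hpx f hf]
  obtain ⟨D, hDp, hDd, hU⟩ := hδf r w d (k fun i => ∑ j, u₁ j * L j i) Q A L p
    (hk _ (hTS u₁ hu₁)) hD hprime
    (fun M _ _ η P hη hne hP hPH => hNDK M w m r d (k fun i => ∑ j, u₁ j * L j i) Q A (lift u₁) L u₁ c₁ p η P hD hyp.mon hprime
      hHmg hη hInd (hyp.zero u₁ hu₁) hc₁ hA₁ hne (hk _ (hTS u₁ hu₁)) (hLow _ (hTS u₁ hu₁)) hP hPH)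
  refine ⟨D, hDp, hDd.trans hδle, fun α x hNC hpx hful => ?_⟩
  obtain ⟨φ, hφ, hφo, hφd⟩ := hEXF
  have hinj : Function.Injective φ := (φ : Mer →+* Mer).injective
  -- the point `x' = φ ∘ x`
  have hae : ∀ g : MvPolynomial (Fin (m + 1)) ℂ, aeval (fun i => φ (x i)) g = φ (aeval x g) := by
    intro g
    rw [← AlgHom.comp_apply]
    congr 1
    refine MvPolynomial.algHom_ext fun i => ?_
    simp
  have hNC' : NC (fun i => φ (x i)) := by
    obtain ⟨i₀, j₀, hi₀, hj₀⟩ := hNC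
    refine ⟨i₀, j₀, (map_ne_zero _).2 hi₀, fun z hz => hj₀ z ?_⟩
    have h1 : φ (x j₀) = φ (algebraMap ℂ Mer z * x i₀) := by
      rw [map_mul, AlgHom.commutes]
      exact hz
    exact hinj h1
  have hx0 : (fun i => φ (x i)) ≠ 0 := by
    obtain ⟨i₀, j₀, hi₀, hj₀⟩ := hNC'
    intro h
    exact hi₀ (congrFun h i₀)
  have hpx' : ∀ f ∈ p, aeval (fun i => φ (x i)) (aq α f) = 0 := by
    intro f hf
    rw [hae, hpx f hf, map_zero]
  -- the conjugate ideal
  have hHmg' := PTE_hmg α hHmg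
  have hp'x : ∀ f ∈ PTEconj α p, aeval (fun i => φ (x i)) f = 0 := by
    intro f hf
    rw [PTE_mem] at hf
    rw [← PTE_symm α f]
    exact hpx' _ hf
  have hL' : ∀ z : Fin (m + 1) → ℂ, z ≠ 0 → (∀ f ∈ PTEconj α p, eval z f = 0) →
      ∃ j, ∑ i, α (L j i) * z i ≠ 0 := by
    intro z hz hzp
    by_contra hcon
    push Not at hcon
    have hz₀ : (fun i => α.symm (z i)) ≠ 0 := by
      intro h
      apply hz
      funext i
      have h1 := congrFun h i
      simp only [Pi.zero_apply] at h1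
      rw [← α.apply_symm_apply (z i), h1, map_zero]
      rfl
    have hz₁ : ∀ f ∈ p, eval (fun i => α.symm (z i)) f = 0 := by
      intro f hf
      have h1 : eval z (aq α f) = 0 := hzp _ (by rw [PTE_mem, PTE_symm']; exact hf)
      rw [PTE_eval] at h1
      exact (map_eq_zero_iff α α.injective).1 h1
    have hz₂ : ∀ j, ∑ i, L j i * α.symm (z i) = 0 := by
      intro j
      apply α.injective
      rw [map_sum, map_zero, ← hcon j]
      refine Finset.sum_congr rfl fun i _ => ?_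
      rw [map_mul, α.apply_symm_apply]
    have h2 := hc _ hz₀ hz₁
    have h3 : (T : Set (Fin (r + 1) → ℂ)).ncard ≤
        {u | u ∈ S ∧ ∑ i, u i * α.symm (z i) = 0}.ncard := by
      refine Set.ncard_le_ncard_of_injOn (fun u i => ∑ j, u j * L j i) ?_ ?_
        (S.finite_toSet.subset fun u hu => hu.1)
      · intro u hu
        refine ⟨hTS u hu, ?_⟩
        simp only [Finset.sum_mul]
        rw [Finset.sum_comm]
        refine Finset.sum_eq_zero fun j _ => ?_
        have h4 := hz₂ j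
        calc ∑ i, u j * L j i * α.symm (z i) = u j * ∑ i, L j i * α.symm (z i) := by
              rw [Finset.mul_sum]
              exact Finset.sum_congr rfl fun i _ => by ring
          _ = 0 := by rw [h4, mul_zero]
      · intro u _ v _ huv
        exact PTE_inj L hLI huv
    rw [Set.ncard_coe_finset] at h3
    omega
  obtain ⟨hy0, hdv⟩ := hDVL m r (PTEconj α p) (fun j i => α (L j i)) hHmg' hL' _ hx0 hp'x
  have hNCy := hNCL m r (PTEconj α p) (fun j i => α (L j i)) hHmg' hL' _ hNC' hp'x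
  -- transport of the data
  obtain ⟨hTR1, hTR2, hTR3, -⟩ := hTRP α
  have hyp' := hTR1 r w d Q A T lift hyp
  have hdiv' := hTR2 r w (β w d) Q T lift hdiv₀
  have hdat' := hTR3 (w + 2) r d Q A hD
  have hTs' : ∀ y : Fin (r + 1) → ℂ,
      (∀ u ∈ T.map (ae α (r + 1)), ∑ i, u i * y i = 0) → y = 0 := by
    intro y hy
    have h1 := hTs (fun i => α.symm (y i)) fun u hu => ?_
    · funext i
      have h2 := congrFun h1 i
      simp only [Pi.zero_apply] at h2
      rw [← α.apply_symm_apply (y i), h2, map_zero]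
      rfl
    · apply α.injective
      rw [map_sum, map_zero, ← hy _ (Finset.mem_map_of_mem _ hu)]
      refine Finset.sum_congr rfl fun i _ => ?_
      rw [map_mul, α.apply_symm_apply]
      rfl
  have hper : ∀ j, Per (∑ i, algebraMap ℂ Mer (α (L j i)) * φ (x i)) := by
    intro j
    have h1 : ∑ i, algebraMap ℂ Mer (α (L j i)) * φ (x i) =
        φ (∑ i, algebraMap ℂ Mer (α (L j i)) * x i) := by
      rw [map_sum]
      refine Finset.sum_congr rfl fun i _ => ?_
      rw [map_mul, AlgHom.commutes]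
    rw [h1]
    exact hφ _
  have hful' : ∀ u ∈ T.map (ae α (r + 1)),
      Ful (k fun i => ∑ j, u₁ j * L j i)
        (fun j => ∑ i, algebraMap ℂ Mer (α (L j i)) * φ (x i)) u := by
    intro u hu
    obtain ⟨u₀, hu₀, rfl⟩ := Finset.mem_map.1 hu
    have h0 := hful _ (hTS u₀ hu₀)
    intro z
    have h1 : ∑ j, algebraMap ℂ Mer ((ae α (r + 1)) u₀ j) *
        ∑ i, algebraMap ℂ Mer (α (L j i)) * φ (x i) =
          φ (∑ i, algebraMap ℂ Mer (α (∑ j, u₀ j * L j i)) * x i) := by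
      rw [show ∑ j, algebraMap ℂ Mer ((ae α (r + 1)) u₀ j) *
        ∑ i, algebraMap ℂ Mer (α (L j i)) * φ (x i) = _ from PTE_sum α L u₀ fun i => φ (x i),
        map_sum]
      refine Finset.sum_congr rfl fun i _ => ?_
      rw [map_mul, AlgHom.commutes]
    rw [h1, hφo, hdv z, hφd m x z]
    rcases h0 (Complex.exp z) with h2 | h2
    · exact Or.inl h2
    · refine Or.inr (le_trans ?_ h2)
      have h3 := hmin u₀ hu₀
      exact_mod_cast (by
        have h4 : ((k fun i => ∑ j, u₁ j * L j i : ℕ) : ℤ) ≤ (k fun i => ∑ j, u₀ j * L j i : ℕ) := by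
          exact_mod_cast h3
        linarith)
  have hcount : {u | u ∈ T.map (ae α (r + 1)) ∧ ∑ j, algebraMap ℂ Mer (u j) *
      ∑ i, algebraMap ℂ Mer (α (L j i)) * φ (x i) = 0}.ncard ≤ c := by
    have h1 := hODX ℂ Mer m c p S hHmg hc ((algebraMap ℂ Mer).comp (α : ℂ →+* ℂ))
      (fun i => φ (x i)) hx0 fun f hf => by
        rw [← hpx' f hf, PTE_eval₂, tm]
    refine le_trans ?_ h1
    refine Set.ncard_le_ncard_of_injOn
      (fun u i => ∑ j, α.symm (u j) * L j i) ?_ ?_ (S.finite_toSet.subset fun u hu => hu.1)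
    · rintro _ ⟨hu, hsum⟩
      obtain ⟨u₀, hu₀, rfl⟩ := Finset.mem_map.1 hu
      have h2 : (fun i => ∑ j, α.symm ((ae α (r + 1)) u₀ j) * L j i) =
          fun i => ∑ j, u₀ j * L j i := by
        funext i
        refine Finset.sum_congr rfl fun j _ => ?_
        rw [show α.symm ((ae α (r + 1)) u₀ j) = u₀ j from α.symm_apply_apply _]
      refine ⟨?_, ?_⟩
      · show (fun i => ∑ j, α.symm ((ae α (r + 1)) u₀ j) * L j i) ∈ S
        rw [h2]
        exact hTS u₀ hu₀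
      · show ∑ i, ((algebraMap ℂ Mer).comp (α : ℂ →+* ℂ))
          ((fun i => ∑ j, α.symm ((ae α (r + 1)) u₀ j) * L j i) i) * φ (x i) = 0
        rw [h2, ← hsum]
        exact (PTE_sum α L u₀ fun i => φ (x i)).symm
    · intro u _ v _ huv
      have h3 := PTE_inj L hLI huv
      funext j
      exact α.symm.injective (congrFun h3 j)
  have hmov := hMVP (w + 2) r d (aq α Q) (fun i => aq α (A i)) hdat' _ hNCy
  obtain ⟨P, hPirr, hPmov, hPd⟩ := hβ r w d (aq α Q) (fun i => aq α (A i))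
    (T.map (ae α (r + 1))) _ hyp' hdiv' hTs' (k fun i => ∑ j, u₁ j * L j i) _ hper hful' hcount hmov
  have h3 := hU α (fun i => φ (x i)) P hpx' hy0 hPirr hPmov hPd
  rw [hae] at h3
  exact hinj (by rw [h3, map_zero])

end Pool.MPY
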