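import Pool.Agent.Work.MP_f82ddf_Y.Interface4
import Pool.Agent.Work.MP_f82ddf_Y.B_UEV

set_option autoImplicit false

/-! # THEOREM T+ (MP_f82ddf_nt), block UEE: over the small field, with the bound of the degree
(a copy of `B_UEV`) -/

open Pool.Agent.Work.MP_f82ddf_nt.DQ

namespace Pool.MPY

open MvPolynomial
open Pool.ThmP (tm)
open Pool.MPL (RX NC aq NPr Spn)
open Pool.MPV (Ful)

lemma UEE_tdm {K L : Type} [Field K] [Field L] (f : K →+* L) {m : ℕ}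
    (D : MvPolynomial (Fin (m + 1)) K) : (map f D).totalDegree = D.totalDegree := by
  unfold totalDegree
  rw [support_map_of_injective _ f.injective]

lemma UEE_deg {Ω : Type} [Field Ω] (τ : Ω →+* ℂ) {m : ℕ} (D : RX m)
    (D₀ : MvPolynomial (Fin (m + 1)) Ω)
    (h : map τ D₀ ∈ Submodule.span ℂ
        {E : RX m | ∃ α : ℂ ≃+* ℂ, (∀ a, α (τ a) = τ a) ∧ E = aq α D}) :
    D₀.totalDegree ≤ D.totalDegree := by
  have h1 : Submodule.span ℂ
      {E : RX m | ∃ α : ℂ ≃+* ℂ, (∀ a, α (τ a) = τ a) ∧ E = aq α D} ≤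
      restrictTotalDegree (Fin (m + 1)) ℂ D.totalDegree := by
    rw [Submodule.span_le]
    rintro E ⟨α, -, rfl⟩
    rw [SetLike.mem_coe, mem_restrictTotalDegree]
    unfold aq
    exact (UEE_tdm (α : ℂ →+* ℂ) D).le
  have h2 := h1 h
  rw [mem_restrictTotalDegree] at h2
  rwa [UEE_tdm] at h2

/-- UEE. -/
theorem p_UEE (hPTE : Stmt_PTE) (hPEX : Stmt_PEX) (hLOX : Stmt_LOX) (hDSG : Stmt_DSG)
    (hODX : Stmt_ODX) (hAUT : Pool.MPL.Stmt_AUT) (hRKT : Pool.MPL.Stmt_RKT) : Stmt_UEE := by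
  intro m c
  obtain ⟨N₁, δ, hN₁⟩ := hPTE m c
  refine ⟨N₁, δ, ?_⟩
  intro Ω _ _ _ k p S hk hp hh hS hc hlow hcard
  by_cases hne : Nonempty (Ω →+* ℂ)
  · obtain ⟨τ₀⟩ := hne
    obtain ⟨hR1, hR2⟩ := hRKT Ω ℂ τ₀ m
    let k' : (Fin (m + 1) → ℂ) → ℕ := Function.extend (UEY_emb τ₀ m) k (fun _ => 1)
    have hk' : ∀ u, k' (UEY_emb τ₀ m u) = k u := fun u =>
      (UEY_emb τ₀ m).injective.extend_apply k (fun _ => 1) u
    obtain ⟨D, hD0, hDδ, hD⟩ := hN₁ k' (p.map (map τ₀)) (S.map (UEY_emb τ₀ m)) (by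
      intro u hu
      obtain ⟨u₀, hu₀, rfl⟩ := Finset.mem_map.1 hu
      rw [hk']
      exact hk u₀ hu₀)
      (hPEX Ω (Fin (m + 1)) τ₀ p hp).1 (UEY_hmg τ₀ p hh) (by
      intro u hu v hv huv
      obtain ⟨u₀, hu₀, rfl⟩ := Finset.mem_map.1 hu
      obtain ⟨v₀, hv₀, rfl⟩ := Finset.mem_map.1 hv
      have h1 : u₀ ≠ v₀ := by
        rintro rfl
        exact huv rfl
      exact hR2 u₀ v₀ (hS u₀ hu₀ v₀ hv₀ h1)) (by
      intro z hz hzp
      have h1 := hODX Ω ℂ m c p S hh hc τ₀ z hz (by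
        intro f hf
        rw [← eval_map]
        exact hzp _ (Ideal.mem_map_of_mem _ hf))
      have h2 : {u | u ∈ S.map (UEY_emb τ₀ m) ∧ ∑ i, u i * z i = 0} =
          (UEY_emb τ₀ m) '' {u | u ∈ S ∧ ∑ i, τ₀ (u i) * z i = 0} := by
        ext u
        constructor
        · rintro ⟨hu, hu2⟩
          obtain ⟨u₀, hu₀, rfl⟩ := Finset.mem_map.1 hu
          exact ⟨u₀, ⟨hu₀, hu2⟩, rfl⟩
        · rintro ⟨u₀, ⟨hu₀, hu2⟩, rfl⟩
          exact ⟨Finset.mem_map_of_mem _ hu₀, hu2⟩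
      rw [h2, Set.ncard_image_of_injective _ (UEY_emb τ₀ m).injective]
      exact h1) (by
      intro u hu
      obtain ⟨u₀, hu₀, rfl⟩ := Finset.mem_map.1 hu
      rw [← UEY_lf, hk']
      exact hLOX Ω τ₀ m (k u₀) p (lf u₀) hp (hlow u₀ hu₀)) (by
      rw [Finset.card_map]
      exact hcard)
    obtain ⟨D₀, hD₀0, hspan⟩ := hDSG Ω τ₀ m p D hD0
    refine ⟨D₀, hD₀0, (UEE_deg τ₀ D D₀ hspan).trans hDδ, ?_⟩
    intro τ x hx hpx hpow
    obtain ⟨α, hα⟩ := hAUT Ω τ₀ τ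
    have h1 := UEV_span τ₀ τ k k' hk' p S D α hα x hx hpx hpow hD (map τ₀ D₀) hspan
    have h2 : aq α (map τ₀ D₀) = map τ D₀ := by
      unfold aq
      rw [map_map]
      have h3 : (α : ℂ →+* ℂ).comp τ₀ = τ := by
        ext a
        exact hα a
      rw [h3]
    rw [h2, aeval_def, eval₂_map] at h1
    exact h1
  · refine ⟨1, fun h => hp.ne_top ((Ideal.eq_top_iff_one _).2 h), by simp, ?_⟩
    intro τ
    exact absurd ⟨τ⟩ hne

end Pool.MPY
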