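import Pool.Agent.Work.MP_f82ddf_Y.Interface4
import Pool.Agent.Work.MP_f82ddf_Y.B_UEG
import Pool.Agent.Work.MP_f82ddf_M1.All1

set_option autoImplicit false

/-! # THEOREM T+ (MP_f82ddf_nt), block UEH (helper25, after B_UEG of helper23): forms of bounded degree,
with a bound for the degree of the exceptional form -/

open Pool.Agent.Work.MP_f82ddf_nt.DQ

namespace Pool.MPY

open MvPolynomial
open Pool.ThmM (om dv dv1)
open Pool.ThmP (tm)
open Pool.MPL (NC NPr)
open Pool.MPV (Ful)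
open Pool.MPH (FuF)

theorem UEH_deg {Ω : Type} [Field Ω] {b t E : ℕ} {ε : Fin (t + 1) → Fin (b + 1) →₀ ℕ}
    (h4 : ∀ (d : ℕ) (f : MvPolynomial (Fin (t + 1)) Ω), f.IsHomogeneous d →
      (vr ε f).IsHomogeneous (d * E)) (f : MvPolynomial (Fin (t + 1)) Ω) :
    (vr ε f).totalDegree ≤ f.totalDegree * E := by
  have h1 : vr ε f = ∑ k ∈ Finset.range (f.totalDegree + 1),
      vr ε (homogeneousComponent k f) := by
    conv_lhs => rw [← sum_homogeneousComponent f]
    rw [map_sum]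
  rw [h1]
  refine totalDegree_finsetSum_le fun k hk => ?_
  have h2 := (h4 k _ (homogeneousComponent_isHomogeneous k f)).totalDegree_le
  have h3 : k ≤ f.totalDegree := by
    rw [Finset.mem_range] at hk
    omega
  exact h2.trans (Nat.mul_le_mul_right E h3)

theorem p_UEH (hUEE : Stmt_UEE) (hSLY : Stmt_SLY) (hLOV : Stmt_LOV) (hVRG : Stmt_VRG)
    (hVPT : Stmt_VPT) (hVIN : Stmt_VIN) (hBPF : Pool.MPH.Stmt_BPF)
    (hVFN : Pool.MPH.Stmt_VFN) : Stmt_UEH := by
  classical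
  intro m c e₀
  obtain ⟨hV1, hV2⟩ := hVRG
  have hE : 1 ≤ e₀.factorial := Nat.factorial_pos e₀
  obtain ⟨t, ε, hε⟩ := hV1 m e₀.factorial
  obtain ⟨N', δ', hU⟩ := hUEE t c
  refine ⟨c * N', δ' * e₀.factorial, fun Ω _ _ _ N k e p F hF hpp hph hind hc hcard => ?_⟩
  obtain ⟨hV3, hV4, hV5, -, -⟩ := hV2 Ω m t e₀.factorial ε hε hE
  have hdvd : ∀ j, e j ∣ e₀.factorial := fun j => Nat.dvd_factorial (hF j).1 (hF j).2.1
  obtain ⟨a, ha⟩ : ∃ a : Fin (N + 1) → ℕ, ∀ j, e j * a j = e₀.factorial :=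
    ⟨fun j => e₀.factorial / e j, fun j => Nat.mul_div_cancel' (hdvd j)⟩
  have ha1 : ∀ j, 1 ≤ a j := by
    intro j
    by_contra h0
    have h1 := ha j
    have h2 : a j = 0 := by omega
    rw [h2, mul_zero] at h1
    omega
  obtain ⟨l, hl⟩ : ∃ l : Fin (N + 1) → Fin (t + 1) → Ω,
      ∀ j, l j = fun d => coeff (ε d) (F j ^ a j) := ⟨_, fun j => rfl⟩
  have hvl : ∀ j, vr ε (lf (l j)) = F j ^ a j := by
    intro j
    rw [hl j]
    apply hV4
    have h1 := (hF j).2.2.pow (a j)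
    rw [ha j] at h1
    exact h1
  have hp'p : (p.comap (vr ε)).IsPrime := Ideal.comap_isPrime (vr ε) p
  have hp'h : Hmg (p.comap (vr ε)) := by
    intro f hf n
    rw [Ideal.mem_comap] at hf ⊢
    rw [← UEG_comp hE hV5]
    exact hph _ hf _
  have hlp : ∀ j ∈ {j | Low (k j) p (F j)}, lf (l j) ∉ p.comap (vr ε) := by
    intro j hj hlp
    rw [Ideal.mem_comap, hvl j] at hlp
    exact Low_notMem hpp hj (hpp.mem_of_pow_mem _ hlp)
  have hpt : ∀ z' : Fin (t + 1) → Ω, z' ≠ 0 → (∀ f ∈ p.comap (vr ε), eval z' f = 0) →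
      {j | ∑ i, l j i * z' i = 0}.ncard ≤ c := by
    intro z' hz' hz'p
    obtain ⟨z, c₁, hz, hc₁, hzp, hzz⟩ := hVPT Ω m t e₀.factorial ε hε hE p hph z' hz' hz'p
    have h1 : {j | ∑ i, l j i * z' i = 0} = {j | eval z (F j) = 0} := by
      ext j
      have h2 : ∑ i, l j i * z' i = c₁ * (eval z (F j)) ^ a j := by
        have h3 := hV3 Ω (RingHom.id Ω) z (lf (l j))
        rw [hvl j, UEG_lf] at h3
        have h4 : eval₂ (RingHom.id Ω) z (F j ^ a j) = (eval z (F j)) ^ a j := by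
          rw [eval₂_pow, eval₂_id]
        rw [h4] at h3
        rw [h3, Finset.mul_sum]
        refine Finset.sum_congr rfl fun i _ => ?_
        rw [hzz i, RingHom.id_apply]
        ring
      rw [Set.mem_ofPred_eq, Set.mem_ofPred_eq, h2, mul_eq_zero, or_iff_right hc₁,
        pow_eq_zero_iff (by have := ha1 j; omega)]
    rw [h1]
    exact hc z hz hzp
  obtain ⟨S, hS1, hS2, hS3, hS4⟩ := hSLY Ω t c N N' (p.comap (vr ε)) l
    {j | Low (k j) p (F j)} hp'p hp'h (hVIN Ω m t e₀.factorial ε hε hE p hpp hind) hpt hlp hcard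
  choose! ju hju1 hju2 using hS3
  obtain ⟨D', hD'1, hD'3, hD'2⟩ := hU Ω (fun u => k (ju u) * a (ju u)) (p.comap (vr ε)) S
    (fun u hu => Nat.mul_pos (Low_pos hpp hph (hF (ju u)).1 (hF (ju u)).2.2 (hju1 u hu))
      (ha1 (ju u))) hp'p hp'h hS1 hS4 (fun u hu => by
        have h1 := hLOV Ω m t e₀.factorial (e (ju u)) (a (ju u)) (k (ju u)) ε hε (hF (ju u)).1
          (ha1 (ju u)) (ha (ju u)) p (F (ju u)) (hF (ju u)).2.2 hpp hph hind (hju1 u hu)
        rw [← hl (ju u), hju2 u hu] at h1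
        exact h1) hS2
  refine ⟨vr ε D', fun h => hD'1 (Ideal.mem_comap.2 h),
    (UEH_deg hV5 D').trans (Nat.mul_le_mul_right _ hD'3), fun τ x hx hxp hxF => ?_⟩
  have hx0 : x ≠ 0 := by
    obtain ⟨i, j, hi, -⟩ := hx
    intro h
    exact hi (by rw [h]; rfl)
  have hvh : ∀ d, (monomial (ε d) (1 : Ω)).IsHomogeneous e₀.factorial := by
    intro d
    apply isHomogeneous_monomial
    have h1 := (hε.2 (ε d)).2 ⟨d, rfl⟩
    rw [Finsupp.degree_eq_sum]
    exact h1
  have hvz : ∀ w : Fin (m + 1) → Ω, w ≠ 0 → ∃ d, eval w (monomial (ε d) (1 : Ω)) ≠ 0 := by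
    intro w hw
    obtain ⟨i, hi⟩ := Function.ne_iff.1 hw
    obtain ⟨d, hd⟩ := (hε.2 (Finsupp.single i e₀.factorial)).1 (by
      simp [Finsupp.single_apply])
    refine ⟨d, ?_⟩
    rw [hd, eval_monomial, one_mul,
      Finsupp.prod_single_index (h := fun n e => w n ^ e) (pow_zero (w i))]
    exact pow_ne_zero _ hi
  have hy : (fun d => eval₂ (tm τ) x (monomial (ε d) (1 : Ω))) =
      fun d => ∏ i, x i ^ ε d i := by
    funext d
    rw [eval₂_monomial, map_one, one_mul, Finsupp.prod_fintype _ _ (fun i => pow_zero _)]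
  have hNC := hVFN Ω m t e₀.factorial (fun d => monomial (ε d) (1 : Ω)) hE hvh hvz τ x hx
  have hdv := (hBPF Ω m t e₀.factorial (fun d => monomial (ε d) (1 : Ω)) hvh hvz τ x hx0).2
  rw [hy] at hNC
  simp only [hy] at hdv
  rw [hV3 Mer (tm τ) x D']
  refine hD'2 τ (fun d => ∏ i, x i ^ ε d i) hNC (fun f hf => ?_) (fun u hu => ?_)
  · rw [← hV3 Mer (tm τ) x f]
    exact hxp _ (Ideal.mem_comap.1 hf)
  · have h1 : ∑ i, algebraMap ℂ Mer (τ (u i)) * (fun d => ∏ i, x i ^ ε d i) i =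
        (aeval x (map τ (F (ju u)))) ^ a (ju u) := by
      have h2 := hV3 Mer (tm τ) x (lf (l (ju u)))
      rw [hvl, eval₂_pow, UEG_lf, hju2 u hu] at h2
      rw [aeval_def, eval₂_map]
      exact h2.symm
    intro z
    rw [h1, hdv z]
    by_cases h0 : aeval x (map τ (F (ju u))) = 0
    · right
      rw [h0, zero_pow (by have := ha1 (ju u); omega)]
      rw [((Pool.ThmM.all_VAL z).2.2.1 0).2 rfl]
      exact le_top
    have hom : om (aeval x (map τ (F (ju u)))) z =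
        ((dv1 (aeval x (map τ (F (ju u)))) z : ℤ) : WithTop ℤ) :=
      (Pool.ThmM.all_VAL z).2.2.2.2.1 _ h0
    rw [UEG_pow z hom]
    have hEa : ((e₀.factorial : ℕ) : ℤ) = (e (ju u) : ℤ) * (a (ju u) : ℤ) := by
      rw [← ha (ju u)]
      push_cast
      ring
    rcases hxF (ju u) z with h3 | h3
    · left
      rw [hom] at h3
      have h4 := WithTop.coe_injective h3
      rw [h4, hEa]
      congr 1
      ring
    · right
      rw [hom] at h3
      have h4 := WithTop.coe_le_coe.1 h3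
      apply WithTop.coe_le_coe.2
      rw [hEa]
      push_cast
      have h5 : (0 : ℤ) ≤ a (ju u) := Int.natCast_nonneg _
      nlinarith [mul_le_mul_of_nonneg_left h4 h5]

end Pool.MPY
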