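import Pool.Agent.Work.MP_f82ddf_Y.Interface4
import Pool.Agent.Work.MP_f82ddf_Y.B_UEL

set_option autoImplicit false

/-! # THEOREM T+ (MP_f82ddf_nt), block UEM (helper24): UEL with a bound for the degree -/

open Pool.Agent.Work.MP_f82ddf_nt.DQ

namespace Pool.MPY

open MvPolynomial Finset
open Pool.ThmP (tm)
open Pool.MPL (NC)
open Pool.MPH (FuF)

theorem p_UEM (hUEH : Stmt_UEH) (hHYF : Stmt_HYF) : Stmt_UEM := by
  classical
  intro m e₀
  obtain ⟨N₁, δ, hN⟩ := hUEH m (Module.finrank ℚ ((Fin (m + 1) → Fin (e₀ + 1)) → ℚ)) e₀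
  refine ⟨2 * 2 ^ (N₁ + 1), δ, fun Ω _ _ _ c N k e p F hF hp hh hI hc hlt => ?_⟩
  let J : Finset (Fin (N + 1)) := univ.filter fun j => Low (k j) p (F j)
  have hJ : {j | Low (k j) p (F j)}.ncard = J.card := by
    rw [show {j | Low (k j) p (F j)} = ((J : Finset (Fin (N + 1))) : Set (Fin (N + 1))) by
      ext; simp [J], Set.ncard_coe_finset]
  rw [hJ] at hlt
  obtain ⟨j₀, hj₀⟩ : J.Nonempty := card_pos.1 (lt_of_le_of_lt (Nat.zero_le _) hlt)
  obtain ⟨z₀, hz0, hzp, hzF⟩ := hHYF Ω m (e j₀) p hp hh hI (hF j₀).1 (F j₀) (hF j₀).2.2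
  have hc1 : 1 ≤ c := by
    refine le_trans ?_ (hc z₀ hz0 hzp)
    exact Nat.succ_le_of_lt ((Set.ncard_pos (Set.toFinite _)).2 ⟨j₀, hzF⟩)
  have hcard : 2 ^ (N₁ + 1) * (c + 1) ≤ Fintype.card J := by
    rw [Fintype.card_coe]
    nlinarith [Nat.one_le_two_pow (n := N₁ + 1)]
  obtain ⟨φ, hφ, hφc⟩ := Pool.MPSel.sel (k := Ω)
    (V := (Fin (m + 1) → Fin (e₀ + 1)) → Ω)
    (P := {z : Fin (m + 1) → Ω // z ≠ 0 ∧ ∀ f ∈ p, eval z f = 0}) (ι := J)
    (fun z => UEL_ev e₀ z.1) (fun j => UEL_vec e₀ (F j)) c (by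
      rintro ⟨z, hz0, hzp⟩
      refine le_trans ?_ (hc z hz0 hzp)
      refine Set.ncard_le_ncard_of_injOn (fun j => (j : Fin (N + 1))) ?_ ?_ (Set.toFinite _)
      · intro j hj
        change eval z (F j) = 0
        rw [← UEL_eval z (F j) (hF j).2.2 (hF j).2.1]
        exact hj
      · intro a _ b _ hab
        exact Subtype.ext hab) (N₁ + 1) hcard
  obtain ⟨D, hD, hDd, hD2⟩ := hN Ω N₁ (fun i => k (φ i)) (fun i => e (φ i)) p (fun i => F (φ i))
    (fun i => hF (φ i)) hp hh hI (fun z hz0 hzp => by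
      have h1 := hφc ⟨z, hz0, hzp⟩
      have h2 : {i | eval z (F (φ i)) = 0} = {i | UEL_ev e₀ z (UEL_vec e₀ (F (φ i))) = 0} := by
        ext i
        simp only [Set.mem_setOf_eq]
        rw [UEL_eval z (F (φ i)) (hF (φ i)).2.2 (hF (φ i)).2.1]
      rw [h2]
      rw [Module.finrank_fintype_fun_eq_card] at h1 ⊢
      exact (Nat.le_succ _).trans h1) (by
      have h1 : {i | Low (k (φ i)) p (F (φ i))} = Set.univ := by
        ext i
        simp only [Set.mem_univ, iff_true, Set.mem_setOf_eq]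
        exact (mem_filter.1 (φ i).2).2
      rw [h1, Set.ncard_univ, Nat.card_eq_fintype_card, Fintype.card_fin]
      exact Nat.lt_succ_self _)
  exact ⟨D, hD, hDd, fun τ x hx hxp hxF => hD2 τ x hx hxp fun i => hxF (φ i)⟩

end Pool.MPY
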