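import Pool.Agent.Work.MP_f82ddf_Y.Interface4

set_option autoImplicit false

/-! # THEOREM T+, block UNE (helper54): UNF with a bound for the degree -/

open Pool.Agent.Work.MP_f82ddf_nt.DQ

namespace Pool.MPY

open MvPolynomial
open Pool.Agent.Work.MP_f82ddf_M5 (lineAt resAt chow at2 comb Data)
open Pool.ThmM (NonProp HypData LastMonic IsRat om dv vP)
open Pool.ThmM0 (Per)
open Pool.ThmM.Chow (Phi Mov)
open Pool.MPL (RX NC aq ae NPr Spn)

/-- The field of fractions of the quotient by a prime ideal. -/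
private lemma UNE_frac (R : Type) [CommRing R] (q : Ideal R) (hq : q.IsPrime) :
    ∃ (M : Type) (_ : Field M) (π : R →+* M), ∀ f, π f = 0 ↔ f ∈ q := by
  have := hq
  refine ⟨FractionRing (R ⧸ q), inferInstance,
    (algebraMap (R ⧸ q) (FractionRing (R ⧸ q))).comp (Ideal.Quotient.mk q), fun f => ?_⟩
  rw [RingHom.comp_apply, IsFractionRing.to_map_eq_zero_iff, Ideal.Quotient.eq_zero_iff_mem]

/-- The Chow form over `ℂ[X_0, .., X_m]`. -/
private noncomputable def UNE_U {m r w : ℕ} (d : ℕ) (Q : MvPolynomial (Fin (w + 2)) ℂ)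
    (A : Fin (r + 1) → MvPolynomial (Fin (w + 2)) ℂ) (L : Fin (r + 1) → Fin (m + 1) → ℂ) :
    MvPolynomial (Fin 2 × Fin (w + 2)) (RX m) :=
  chow d d (map (algebraMap ℂ (RX m)) Q)
    (comb (algebraMap ℂ (RX m)) A (fun j => ∑ i, C (L j i) * X i))

private lemma UNE_map (hFUN : Pool.Agent.Work.MP_f82ddf_M5.Stmt_FUN) {m r w : ℕ} (d : ℕ)
    (Q : MvPolynomial (Fin (w + 2)) ℂ) (A : Fin (r + 1) → MvPolynomial (Fin (w + 2)) ℂ)
    (L : Fin (r + 1) → Fin (m + 1) → ℂ) {B : Type} [CommRing B] (ρ : RX m →+* B) (β : ℂ →+* B)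
    (hβ : ∀ c, ρ (C c) = β c) :
    map ρ (UNE_U d Q A L) =
      chow d d (map β Q) (comb β A (fun j => ∑ i, β (L j i) * ρ (X i))) := by
  have hc : ρ.comp (algebraMap ℂ (RX m)) = β := RingHom.ext fun c => hβ c
  unfold UNE_U
  rw [hFUN.2.2.2.2.2, map_map, hc]
  congr 1
  unfold comb
  rw [map_sum]
  refine Finset.sum_congr rfl fun j _ => ?_
  rw [map_mul, map_C, map_map, hc, map_sum]
  simp only [map_mul, hβ]

private lemma UNE_phi {r w : ℕ} (d : ℕ)
    (Q : MvPolynomial (Fin (w + 2)) ℂ) (A : Fin (r + 1) → MvPolynomial (Fin (w + 2)) ℂ)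
    (α : ℂ ≃+* ℂ) (y : Fin (r + 1) → Mer) :
    Phi Mer d (aq α Q) (fun i => aq α (A i)) y =
      chow d d (map ((algebraMap ℂ Mer).comp (α : ℂ →+* ℂ)) Q)
        (comb ((algebraMap ℂ Mer).comp (α : ℂ →+* ℂ)) A y) := by
  unfold Phi aq comb
  simp only [map_map]

/-- an irreducible polynomial whose `k`-th power divides a nonzero polynomial of degree `≤ E` -/
private lemma UNE_deg {σ K : Type} [Field K] (P F : MvPolynomial σ K) (k E : ℕ)
    (hP : Irreducible P) (hF : F ≠ 0) (hE : F.totalDegree ≤ E) (h : P ^ k ∣ F) : k ≤ E := by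
  obtain ⟨R, rfl⟩ := h
  have hPk : P ^ k ≠ 0 := left_ne_zero_of_mul hF
  have hR : R ≠ 0 := right_ne_zero_of_mul hF
  have h1 : 1 ≤ P.totalDegree := by
    by_contra h0
    have h2 : P.totalDegree = 0 := by omega
    rw [totalDegree_eq_zero_iff_eq_C] at h2
    apply hP.not_isUnit
    rw [h2]
    refine (isUnit_iff_ne_zero.2 ?_).map C
    intro h3
    rw [h3, C_0] at h2
    exact hP.ne_zero h2
  have h2 : (P ^ k).totalDegree = k * P.totalDegree := by
    have h5 : ∀ j : ℕ, (P ^ j).totalDegree = j * P.totalDegree := by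
      intro j
      induction j with
      | zero => rw [pow_zero, zero_mul, totalDegree_one]
      | succ j ih =>
        rw [pow_succ, totalDegree_mul_of_isDomain (pow_ne_zero j hP.ne_zero) hP.ne_zero, ih]
        ring
    exact h5 k
  rw [totalDegree_mul_of_isDomain hPk hR, h2] at hE
  have h3 : k * 1 ≤ k * P.totalDegree := Nat.mul_le_mul_left k h1
  omega

theorem p_UNE (hUNX : Stmt_UNX) (hCDG : Stmt_CDG) (hDVC : Stmt_DVC) (hCNZ : Pool.MPW.Stmt_CNZ)
    (hFUN : Pool.Agent.Work.MP_f82ddf_M5.Stmt_FUN) (hTRP : Pool.MPL.Stmt_TRP)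
    (_hWHF : Pool.ThmM.Chow.Stmt_WHF) : Stmt_UNE := by
  classical
  intro m r w d
  have hδ : ∀ k : ℕ, ∃ δ : ℕ, 1 ≤ k → ∀ (p : Ideal (RX m))
    (G : MvPolynomial (Fin 2 × Fin (w + 2)) (RX m)), p.IsPrime → G.IsHomogeneous (2 * (d * d)) →
    (∀ ν, (coeff ν G).totalDegree ≤ 2 * d) → (∃ ν, coeff ν G ∉ p) →
    (∀ (M : Type) [Field M] (θ : RX m →+* M), (∀ f, θ f = 0 ↔ f ∈ p) →
      ∀ P : MvPolynomial (Fin 2 × Fin (w + 2)) M, Irreducible P →
      (∀ H : MvPolynomial (Fin 2 × Fin (w + 2)) ℂ, H ≠ 0 → ¬ P ∣ map (θ.comp C) H) →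
        ¬ P ^ k ∣ map θ G) →
    ∃ D ∉ p, D.totalDegree ≤ δ ∧ ∀ (N : Type) [Field N] (θ : RX m →+* N), (∀ f ∈ p, θ f = 0) →
      map θ G ≠ 0 → ∀ P : MvPolynomial (Fin 2 × Fin (w + 2)) N, Irreducible P →
      (∀ H : MvPolynomial (Fin 2 × Fin (w + 2)) ℂ, H ≠ 0 → ¬ P ∣ map (θ.comp C) H) →
        P ^ k ∣ map θ G → θ D = 0 := by
    intro k
    by_cases hk : 1 ≤ k
    · obtain ⟨δ, h⟩ := hUNX (Fin 2 × Fin (w + 2)) m k (2 * (d * d)) (2 * d) hk
      exact ⟨δ, fun _ => h⟩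
    · exact ⟨0, fun h => absurd h hk⟩
  choose δf hδf using hδ
  refine ⟨∑ k ∈ Finset.range (2 * (d * d) + 1), δf k, ?_⟩
  intro k Q A L p hk hdat hp hH
  have := hp
  have h1p : (1 : RX m) ∉ p := (Ideal.ne_top_iff_one p).mp hp.ne_top
  by_cases hL : ∀ j, (∑ i, C (L j i) * X i : RX m) ∈ p
  · refine ⟨1, h1p, by rw [totalDegree_one]; exact Nat.zero_le _, ?_⟩
    intro α x P hx hy _ _ _
    exfalso
    apply hy
    funext j
    have := hx _ (hL j)
    simpa [aq] using this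
  push Not at hL
  obtain ⟨j₀, hj₀⟩ := hL
  obtain ⟨hU1, hU2⟩ := hCDG m r w d Q A L hdat.hom hdat.homA
  have hUe : chow d d (map (algebraMap ℂ (RX m)) Q)
      (comb (algebraMap ℂ (RX m)) A (fun j => ∑ i, C (L j i) * X i)) = UNE_U d Q A L := rfl
  rw [hUe] at hU1
  have hU2' : ∀ ν, (coeff ν (UNE_U d Q A L)).totalDegree ≤ 2 * d := hU2
  -- homomorphisms with kernel `p`
  have hgen : ∀ (M : Type) [Field M] (θ : RX m →+* M), (∀ f, θ f = 0 ↔ f ∈ p) →
      (fun j => ∑ i, θ (C (L j i)) * θ (X i)) ≠ 0 := by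
    intro M _ θ hθ h
    apply hj₀
    rw [← hθ, map_sum]
    have := congrFun h j₀
    simpa using this
  have hex : ∃ ν, coeff ν (UNE_U d Q A L) ∉ p := by
    obtain ⟨M, iM, π, hπ⟩ := UNE_frac (RX m) p hp
    let _ : Algebra ℂ M := (π.comp (C : ℂ →+* RX m)).toAlgebra
    have halg : ∀ c : ℂ, algebraMap ℂ M c = π (C c) := fun c => rfl
    have h1 := UNE_map hFUN d Q A L π (algebraMap ℂ M) (fun c => (halg c).symm)
    have h2 := hCNZ (w + 2) r d d Q A hdat M (fun j => ∑ i, algebraMap ℂ M (L j i) * π (X i))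
      (hgen M π hπ)
    rw [← h1] at h2
    by_contra hcon
    push Not at hcon
    apply h2
    ext ν
    rw [coeff_map, coeff_zero]
    exact (hπ _).2 (hcon ν)
  -- the points over `Mer`
  have hth : ∀ (α : ℂ ≃+* ℂ) (x : Fin (m + 1) → Mer) (f : RX m),
      (((aeval x : RX m →ₐ[ℂ] Mer) : RX m →+* Mer).comp (map (α : ℂ →+* ℂ))) f =
        aeval x (aq α f) := fun α x f => rfl
  have hphi : ∀ (α : ℂ ≃+* ℂ) (x : Fin (m + 1) → Mer),
      map (((aeval x : RX m →ₐ[ℂ] Mer) : RX m →+* Mer).comp (map (α : ℂ →+* ℂ)))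
        (UNE_U d Q A L) = Phi Mer d (aq α Q) (fun i => aq α (A i))
        (fun j => ∑ i, algebraMap ℂ Mer (α (L j i)) * x i) := by
    intro α x
    rw [UNE_map hFUN d Q A L _ ((algebraMap ℂ Mer).comp (α : ℂ →+* ℂ)) (fun c => by
      rw [hth]
      simp [aq]), UNE_phi]
    congr 2
    funext j
    refine Finset.sum_congr rfl fun i _ => ?_
    rw [hth]
    simp [aq]
  have hphi0 : ∀ (α : ℂ ≃+* ℂ) (x : Fin (m + 1) → Mer),
      (fun j => ∑ i, algebraMap ℂ Mer (α (L j i)) * x i) ≠ 0 →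
      Phi Mer d (aq α Q) (fun i => aq α (A i))
        (fun j => ∑ i, algebraMap ℂ Mer (α (L j i)) * x i) ≠ 0 := fun α x hy =>
    hCNZ (w + 2) r d d (aq α Q) (fun i => aq α (A i))
      ((hTRP α).2.2.1 (w + 2) r d Q A hdat) Mer _ hy
  by_cases hkE : 2 * (d * d) < k
  · refine ⟨1, h1p, by rw [totalDegree_one]; exact Nat.zero_le _, ?_⟩
    intro α x P hx hy hPi _ hdvd
    exfalso
    have h1 := hphi0 α x hy
    have h2 : (Phi Mer d (aq α Q) (fun i => aq α (A i))
        (fun j => ∑ i, algebraMap ℂ Mer (α (L j i)) * x i)).totalDegree ≤ 2 * (d * d) := by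
      rw [← hphi α x]
      exact (hU1.map _).totalDegree_le
    have h3 := UNE_deg P _ k (2 * (d * d)) hPi h1 h2 hdvd
    omega
  obtain ⟨D, hD, hDd, hDD⟩ := hδf k hk p (UNE_U d Q A L) hp hU1 hU2' hex (by
    intro M _ θ hθ P hP hPH
    let _ : Algebra ℂ M := (θ.comp (C : ℂ →+* RX m)).toAlgebra
    have halg : ∀ c : ℂ, algebraMap ℂ M c = θ (C c) := fun c => rfl
    have h1 : ∀ f : RX m, aeval (fun i => θ (X i)) f = θ f := by
      intro f
      have : ((aeval (fun i => θ (X i)) : RX m →ₐ[ℂ] M) : RX m →+* M) = θ := by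
        refine MvPolynomial.ringHom_ext (fun c => ?_) (fun i => ?_)
        · simp [halg]
        · simp
      exact congrArg (fun g : RX m →+* M => g f) this
    have h2 := hH M (fun i => θ (X i)) P (fun f => by rw [h1]; exact hθ f) (hgen M θ hθ) hP hPH
    rw [UNE_map hFUN d Q A L θ (algebraMap ℂ M) (fun c => (halg c).symm)]
    exact h2)
  refine ⟨D, hD, hDd.trans ?_, ?_⟩
  · exact Finset.single_le_sum (f := δf) (fun i _ => Nat.zero_le _)
      (Finset.mem_range.2 (by omega))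
  · intro α x P hx hy hPi hPm hdvd
    have h1 := hDD Mer (((aeval x : RX m →ₐ[ℂ] Mer) : RX m →+* Mer).comp (map (α : ℂ →+* ℂ)))
      (fun f hf => by rw [hth]; exact hx f hf) (by rw [hphi]; exact hphi0 α x hy) P hPi (by
        intro H hH0 hdv
        have h2 : map ((((aeval x : RX m →ₐ[ℂ] Mer) : RX m →+* Mer).comp
            (map (α : ℂ →+* ℂ))).comp C) H = map (algebraMap ℂ Mer) (map (α : ℂ →+* ℂ) H) := by
          have h6 : ((((aeval x : RX m →ₐ[ℂ] Mer) : RX m →+* Mer).comp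
              (map (α : ℂ →+* ℂ))).comp C) = (algebraMap ℂ Mer).comp (α : ℂ →+* ℂ) := by
            refine RingHom.ext fun c => ?_
            rw [RingHom.comp_apply, hth]
            simp [aq]
          rw [map_map, h6]
        rw [h2] at hdv
        have h3 : map (α : ℂ →+* ℂ) H ≠ 0 := by
          intro h4
          apply hH0
          exact map_injective (α : ℂ →+* ℂ) α.injective (by rw [h4, map_zero])
        obtain ⟨c, G, -, -, h5⟩ := hDVC Mer (Fin 2 × Fin (w + 2)) P _ h3 hdv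
        exact hPm c G h5) (by rw [hphi]; exact hdvd)
    rw [hth] at h1
    exact h1

end Pool.MPY
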