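import Pool.Agent.Work.MP_f82ddf_Y.Interface4

set_option autoImplicit false

/-! # THEOREM T+, block UNX (helper83): effective uniformity -/

open Pool.Agent.Work.MP_f82ddf_nt.DQ

namespace Pool.MPY

open MvPolynomial
open Pool.MPL (RX NC aq ae NPr Spn)

/-- The field of fractions of the quotient by a prime ideal. -/
private lemma UNX_frac (R : Type) [CommRing R] (q : Ideal R) (hq : q.IsPrime) :
    ∃ (M : Type) (_ : Field M) (π : R →+* M), ∀ f, π f = 0 ↔ f ∈ q := by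
  have := hq
  refine ⟨FractionRing (R ⧸ q), inferInstance,
    (algebraMap (R ⧸ q) (FractionRing (R ⧸ q))).comp (Ideal.Quotient.mk q), fun f => ?_⟩
  rw [RingHom.comp_apply, IsFractionRing.to_map_eq_zero_iff, Ideal.Quotient.eq_zero_iff_mem]

/-- if every irreducible factor divides a complex polynomial, so does the polynomial -/
private lemma UNX_fac {M σ : Type} [Field M] (ι : ℂ →+* M) [Finite σ] (F : MvPolynomial σ M)
    (hF : F ≠ 0)
    (h : ∀ P, Irreducible P → P ∣ F → ∃ H : MvPolynomial σ ℂ, H ≠ 0 ∧ P ∣ map ι H) :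
    ∃ H : MvPolynomial σ ℂ, H ≠ 0 ∧ F ∣ map ι H := by
  revert hF h
  refine WfDvdMonoid.induction_on_irreducible F ?_ ?_ ?_
  · intro h0
    exact absurd rfl h0
  · intro u hu _ _
    exact ⟨1, one_ne_zero, hu.dvd⟩
  · intro a i ha hi ih _ h
    obtain ⟨H, hH, hd⟩ := ih ha fun P hP hPa => h P hP (hPa.mul_left i)
    obtain ⟨H', hH', hd'⟩ := h i hi (dvd_mul_right i a)
    refine ⟨H' * H, mul_ne_zero hH' hH, ?_⟩
    rw [map_mul]
    exact mul_dvd_mul hd' hd

/-- The degree of a polynomial whose `k`-th power divides a form of degree `E`. -/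
private lemma UNX_le {M σ : Type} [Field M] (F G : MvPolynomial σ M) (k a E : ℕ) (hk : 1 ≤ k)
    (hF : F.IsHomogeneous a) (hG : G.IsHomogeneous E) (hG0 : G ≠ 0) (h : F ^ k ∣ G) : a ≤ E := by
  obtain ⟨R, rfl⟩ := h
  have h1 : F ^ k ≠ 0 := left_ne_zero_of_mul hG0
  have h2 : R ≠ 0 := right_ne_zero_of_mul hG0
  have h3 := hG.totalDegree hG0
  rw [totalDegree_mul_of_isDomain h1 h2, (hF.pow k).totalDegree h1] at h3
  have h4 : a * 1 ≤ a * k := Nat.mul_le_mul_left a hk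
  omega

/-- The degree after a substitution. -/
private lemma UNX_deg {τ : Type} {m : ℕ} (e : ℕ) (g : τ → RX m)
    (hg : ∀ i, (g i).totalDegree ≤ e) (H : MvPolynomial τ ℂ) :
    (eval₂ (C : ℂ →+* RX m) g H).totalDegree ≤ H.totalDegree * e := by
  rw [eval₂_eq]
  refine totalDegree_finsetSum_le fun s hs => ?_
  refine (totalDegree_mul _ _).trans ?_
  rw [totalDegree_C, zero_add]
  refine (totalDegree_finsetProd _ _).trans ?_
  calc ∑ i ∈ s.support, (g i ^ s i).totalDegree ≤ ∑ i ∈ s.support, s i * e := by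
        refine Finset.sum_le_sum fun i _ => ?_
        exact (totalDegree_pow _ _).trans (Nat.mul_le_mul_left _ (hg i))
    _ = (∑ i ∈ s.support, s i) * e := by rw [Finset.sum_mul]
    _ ≤ H.totalDegree * e := Nat.mul_le_mul_right _ (le_totalDegree hs)

theorem p_UNX (hELM : Stmt_ELM) (hDSC : Stmt_DSC) (hLFX : Stmt_LFX) (hDVC : Stmt_DVC)
    (hWHF : Pool.ThmM.Chow.Stmt_WHF) : Stmt_UNX := by
  classical
  intro σ _ m k E e₁ hk
  have hELM' := fun a : ℕ => hELM σ k a E hk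
  choose δf hδf using hELM'
  refine ⟨∑ a ∈ Finset.range (E + 1), δf a * e₁, ?_⟩
  intro p G hp hG hGe hGp hirr
  have := hp
  obtain ⟨K, iK, θ₀, hθ₀⟩ := UNX_frac (RX m) p hp
  have hG₀h : (map θ₀ G).IsHomogeneous E := hG.map θ₀
  have hG₀ne : map θ₀ G ≠ 0 := by
    obtain ⟨ν, hν⟩ := hGp
    intro h
    apply hν
    rw [← hθ₀, ← coeff_map, h, coeff_zero]
  let Pa : ℕ → Prop := fun a => ∃ P₀ : MvPolynomial σ ℂ, P₀ ≠ 0 ∧ P₀.IsHomogeneous a ∧
    map (θ₀.comp C) P₀ ^ k ∣ map θ₀ G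
  have hPa0 : Pa 0 := ⟨1, one_ne_zero, isHomogeneous_one σ ℂ, by rw [map_one, one_pow]; exact one_dvd _⟩
  set a₀ : ℕ := Nat.findGreatest Pa E with ha₀
  have hspec : Pa a₀ := Nat.findGreatest_spec (Nat.zero_le E) hPa0
  have hgr : ∀ a, a₀ < a → a ≤ E → ¬ Pa a := fun a h1 h2 => Nat.findGreatest_is_greatest h1 h2
  -- the polynomials `H_a`
  have hex : ∀ a, a₀ < a → a ≤ E → ∃ H : MvPolynomial (σ →₀ ℕ) ℂ, H.totalDegree ≤ δf a ∧
      eval₂ (θ₀.comp C) (fun ν => coeff ν (map θ₀ G)) H ≠ 0 ∧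
      ∀ (N : Type) [Field N] (ι' : ℂ →+* N) (G' P' : MvPolynomial σ N), G'.IsHomogeneous E →
        P' ≠ 0 → P'.IsHomogeneous a → P' ^ k ∣ G' → eval₂ ι' (fun ν => coeff ν G') H = 0 := by
    intro a ha1 ha2
    refine hδf a K (θ₀.comp C) (map θ₀ G) hG₀h hG₀ne ?_
    intro M' _ j P' hP'0 hP'h hdvd
    have hθ' : ∀ f, (j.comp θ₀) f = 0 ↔ f ∈ p := by
      intro f
      rw [RingHom.comp_apply, map_eq_zero, hθ₀]
    have hmm : map j (map θ₀ G) = map (j.comp θ₀) G := by rw [map_map]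
    obtain ⟨H₂, hH₂, hd₂⟩ := UNX_fac ((j.comp θ₀).comp C) P' hP'0 (by
      intro P₁ hP₁ hP₁d
      by_contra hcon
      push Not at hcon
      refine hirr M' (j.comp θ₀) hθ' P₁ hP₁ hcon ?_
      rw [← hmm]
      exact (pow_dvd_pow_of_dvd hP₁d k).trans hdvd)
    let _ : Algebra ℂ M' := ((j.comp θ₀).comp C).toAlgebra
    have halg : algebraMap ℂ M' = (j.comp θ₀).comp C := rfl
    obtain ⟨c, G₂, hc, hG₂, hPG⟩ := hDVC M' σ P' H₂ hH₂ (by rw [halg]; exact hd₂)
    have hG₂h : G₂.IsHomogeneous a := by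
      refine IsHomogeneous.of_map (f := algebraMap ℂ M') (RingHom.injective _) ?_
      have h1 : map (algebraMap ℂ M') G₂ = C c⁻¹ * P' := by
        rw [hPG, ← mul_assoc, ← C_mul, inv_mul_cancel₀ hc, C_1, one_mul]
      rw [h1]
      exact hP'h.C_mul c⁻¹
    refine hgr a ha1 ha2 ⟨G₂, hG₂, hG₂h, ?_⟩
    refine hDSC K M' σ j _ _ ?_
    rw [map_pow, map_map]
    have h2 : j.comp (θ₀.comp C) = algebraMap ℂ M' := rfl
    rw [h2]
    refine (pow_dvd_pow_of_dvd (a := map (algebraMap ℂ M') G₂) (b := P') ?_ k).trans hdvd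
    rw [hPG]
    exact dvd_mul_left _ _
  choose! Hf hHf1 hHf2 hHf3 using hex
  have hDm : ∀ a (N : Type) [Field N] (θ : RX m →+* N),
      θ (eval₂ (C : ℂ →+* RX m) (fun ν => coeff ν G) (Hf a)) =
        eval₂ (θ.comp C) (fun ν => coeff ν (map θ G)) (Hf a) := by
    intro a N _ θ
    have h1 : (fun ν => coeff ν (map θ G)) = θ ∘ (fun ν => coeff ν G) := by
      funext ν
      rw [Function.comp_apply, coeff_map]
    rw [eval₂_comp_left θ, h1]
  refine ⟨∏ a ∈ Finset.Ioc a₀ E, eval₂ (C : ℂ →+* RX m) (fun ν => coeff ν G) (Hf a), ?_, ?_, ?_⟩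
  · intro hmem
    obtain ⟨a, ha, ham⟩ := (Ideal.IsPrime.prod_mem_iff (p := p)).mp hmem
    rw [Finset.mem_Ioc] at ha
    refine hHf2 a ha.1 ha.2 ?_
    rw [← hDm, hθ₀]
    exact ham
  · refine (totalDegree_finsetProd _ _).trans ?_
    calc ∑ a ∈ Finset.Ioc a₀ E,
          (eval₂ (C : ℂ →+* RX m) (fun ν => coeff ν G) (Hf a)).totalDegree
        ≤ ∑ a ∈ Finset.Ioc a₀ E, δf a * e₁ := by
          refine Finset.sum_le_sum fun a ha => ?_
          rw [Finset.mem_Ioc] at ha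
          exact (UNX_deg e₁ _ hGe (Hf a)).trans (Nat.mul_le_mul_right _ (hHf1 a ha.1 ha.2))
      _ ≤ ∑ a ∈ Finset.range (E + 1), δf a * e₁ := by
          refine Finset.sum_le_sum_of_subset fun a ha => ?_
          rw [Finset.mem_Ioc] at ha
          rw [Finset.mem_range]
          omega
  · intro N _ θ hθ hne P hP hPH hdvd
    have hG'h : (map θ G).IsHomogeneous E := hG.map θ
    -- `P` is homogeneous
    obtain ⟨R, hR⟩ := hdvd
    obtain ⟨b₁, hPh⟩ : ∃ b₁ : ℕ, P.IsHomogeneous b₁ := by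
      have hk1 : P * (P ^ (k - 1) * R) = map θ G := by
        rw [hR, ← mul_assoc, ← pow_succ', Nat.sub_add_cancel hk]
      obtain ⟨a, b, _, ha, _⟩ := hWHF σ N 1 P (P ^ (k - 1) * R) E (by rw [hk1]; exact hne)
        (by rw [hk1]; exact hG'h)
      exact ⟨a, ha⟩
    have hb₁ : 1 ≤ b₁ := by
      by_contra hb
      have hb0 : b₁ = 0 := by omega
      have h1 := hPh.totalDegree hP.ne_zero
      rw [hb0, totalDegree_eq_zero_iff_eq_C] at h1
      apply hP.not_isUnit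
      rw [h1]
      refine (isUnit_iff_ne_zero.2 ?_).map C
      intro h3
      rw [h3, C_0] at h1
      exact hP.ne_zero h1
    obtain ⟨P₀, hP₀, hP₀h, hP₀d⟩ := hspec
    have hQd : map (θ.comp C) P₀ ^ k ∣ map θ G := by
      rw [← map_pow]
      refine hLFX ℂ (RX m) K N σ C θ₀ θ (P₀ ^ k) G (fun r hr => hθ r ((hθ₀ r).1 hr)) ?_
      rw [map_pow]
      exact hP₀d
    have hPQ : ¬ P ∣ map (θ.comp C) P₀ := hPH P₀ hP₀
    have hpr : Prime P := hP.prime
    obtain ⟨R', hR'⟩ := hQd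
    have h1 : P ^ k ∣ R' := by
      have h0 : P ^ k ∣ map (θ.comp C) P₀ ^ k * R' := ⟨R, by rw [← hR', hR]⟩
      exact hpr.pow_dvd_of_dvd_mul_left k (fun h => hPQ (hpr.dvd_of_dvd_pow h)) h0
    obtain ⟨R'', hR''⟩ := h1
    have h2 : (P * map (θ.comp C) P₀) ^ k ∣ map θ G := by
      refine ⟨R'', ?_⟩
      rw [hR', hR'', mul_pow]
      ring
    have h3 : (P * map (θ.comp C) P₀).IsHomogeneous (b₁ + a₀) :=
      hPh.mul (hP₀h.map (θ.comp C))
    have h4 : P * map (θ.comp C) P₀ ≠ 0 := by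
      refine mul_ne_zero hP.ne_zero ?_
      intro h
      apply hP₀
      exact map_injective (θ.comp C) (RingHom.injective _) (by rw [h, map_zero])
    have h5 : b₁ + a₀ ≤ E := UNX_le _ _ k _ E hk h3 hG'h hne h2
    rw [map_prod]
    refine Finset.prod_eq_zero (Finset.mem_Ioc.2 ⟨by omega, h5⟩ : b₁ + a₀ ∈ Finset.Ioc a₀ E) ?_
    rw [hDm]
    exact hHf3 (b₁ + a₀) (by omega) h5 N (θ.comp C) (map θ G) _ hG'h h4 h3 h2

end Pool.MPY
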