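import Pool.Agent.Work.MP_f82ddf_Y.Interface3
import Pool.Agent.Work.MP_f82ddf_Y.B_UNI

set_option autoImplicit false

/-! # THEOREM T+ (MP_f82ddf_nt): exceptional subvarieties of bounded degree

Table `mpy_blocks`, same rules as in `Interface.lean` (import this file instead; import other block files
only for their auxiliary lemmas).  In the column `uses` `M.` = `Pool.ThmM.Chow.Stmt_` (file
`MP_f82ddf_M/Chow.lean`), `M2.T3` = `Pool.ThmM.Stmt_T3`.

The only step of THEOREM T which was not effective is UNF.  New: the polynomial `D` can be chosen with a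
degree which is bounded by a number `δ` which depends only on `n` and `e₀`.  So every exceptional set is
obtained from a component of `Y` by repeatedly taking a component of a hypersurface section of degree at
most `δ`. -/

open Pool.Agent.Work.MP_f82ddf_nt.DQ

namespace Pool.MPY

open MvPolynomial
open Pool.Agent.Work.MP_f82ddf_nt (PSpace HolomorphicOn complexPoints points KobayashiHyperbolic)
open Pool.Agent.Work.MP_f82ddf_M5 (lineAt resAt chow at2 comb Data)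
open Pool.ThmM (NonProp HypData LastMonic IsRat om dv vP)
open Pool.ThmM0 (Per)
open Pool.ThmM.Chow (Phi Mov)
open Pool.ThmP (Mor OnX OnK tm RelP FullF)
open Pool.MPL (RX NC aq ae NPr Spn)
open Pool.MPV (Ful Full)
open Pool.MPH (FuF)

/-! ## M. Elimination -/

/-- DSC (50 lines).  Divisibility descends.  PROOF.  `M'` is a vector space over `M` (via `ι`); there is a
linear functional `lam : M' → M` with `lam 1 = 1`.  Its coefficientwise extension `Λ` to polynomials is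
`MvPolynomial σ M`-linear: `Λ (map ι A * F) = A * Λ F` (check monomials), `Λ (map ι G) = G`.  So
`map ι G = map ι P * F` gives `G = P * Λ F`.  (Compare W.NDX, `MP_f82ddf_W/B_NDX.lean`, and MDL.) -/
def Stmt_DSC : Prop :=
  ∀ (M M' σ : Type) [Field M] [Field M'] (ι : M →+* M') (P G : MvPolynomial σ M),
    map ι P ∣ map ι G → P ∣ G

/-- LFX (100 lines).  Divisibility by a polynomial with constant coefficients specialises.  PROOF.  `M` is
a vector space over `κ` via `θ ∘ ι`.  The finitely many coefficients `θ (coeff ν G)` span a subspace of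
finite dimension; it has a basis `θ (r_i)`, `r_i ∈ R` (elements of the span of the `coeff ν G`):
`θ (coeff ν G) = ∑ i, θ (ι (c_(ν i)) r_i)`.  `G_i = ∑ ν, monomial ν (c_(ν i))`, so
`map θ G = ∑ i, C (θ r_i) * map (θ ∘ ι) G_i`.  For each `i` let `ϑ_i : M → κ` be linear with
`ϑ_i (θ r_j) = δ_(ij)`; its coefficientwise extension maps `map θ G = map (θ ∘ ι) H * F` to
`G_i = H * ϑ_i F`, so `H ∣ G_i`.  As `coeff ν G - ∑ i, ι (c_(ν i)) r_i` is in the kernel of `θ`, hence of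
`θ'`, also `map θ' G = ∑ i, C (θ' r_i) * map (θ' ∘ ι) G_i`, which is divisible by `map (θ' ∘ ι) H`. -/
def Stmt_LFX : Prop :=
  ∀ (κ R M N σ : Type) [Field κ] [CommRing R] [Field M] [Field N] (ι : κ →+* R) (θ : R →+* M)
    (θ' : R →+* N) (H : MvPolynomial σ κ) (G : MvPolynomial σ R),
    (∀ r, θ r = 0 → θ' r = 0) → map (θ.comp ι) H ∣ map θ G → map (θ'.comp ι) H ∣ map θ' G

/-- ELA (150 lines).  Relations over a larger field.  PROOF.  `M` is a vector space over `ℂ` via `ι`.  Write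
`H = ∑ i, C (m_i) * map ι (H_i)` (finite sum, `H_i` over `ℂ`, the `m_i ∈ M` linearly independent over `ℂ`;
take a basis of the span of the coefficients of `H`, as in LFX).  UNIVERSAL PRODUCT: let `T_a`, `T_b` be the
finite types of the exponents `ν : σ →₀ ℕ` of degree `a`, `b` (sum of the values; the set is finite because
`σ` is finite), `𝔸 = MvPolynomial (T_a ⊕ T_b) ℂ`, `𝒫 = ∑ monomial ν (X (inl ν))`,
`ℛ = ∑ monomial ν (X (inr ν))` in `MvPolynomial σ 𝔸`, `c_ν = coeff ν (𝒫 ^ k * ℛ) ∈ 𝔸`, and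
`h_i = eval₂ C c H_i ∈ 𝔸` (`eval₂ (algebraMap ℂ 𝔸)`).  Let `𝔸_M = MvPolynomial (T_a ⊕ T_b) M` and `N` its field
of fractions.  The second hypothesis for this `N` and the images of `𝒫`, `ℛ` gives
`∑ i, m_i * map ι (h_i) = 0` in `𝔸_M` (injective into `N`), so coefficientwise, by the linear
independence of the `m_i`, `h_i = 0` for all `i`.  So for all `N`, `ι'`, `P`, `R` (specialise
`X (inl ν) ↦ coeff ν P`, `X (inr ν) ↦ coeff ν R`; a homogeneous polynomial of degree `a` is the sum of its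
terms with exponents in `T_a`) `eval₂ ι' (coeff · (P ^ k * R)) H_i = 0`.  By the first hypothesis
`eval₂ ι (coeff · G) H_i = 0` for all `i`, so `eval (coeff · G) H = ∑ i, m_i * 0 = 0`. -/
def Stmt_ELA : Prop :=
  ∀ (σ : Type) [Finite σ] (k a b : ℕ) (M : Type) [Field M] (ι : ℂ →+* M) (G : MvPolynomial σ M),
    (∀ H : MvPolynomial (σ →₀ ℕ) ℂ,
      (∀ (N : Type) [Field N] (ι' : ℂ →+* N) (P R : MvPolynomial σ N), P.IsHomogeneous a →
        R.IsHomogeneous b → eval₂ ι' (fun ν => coeff ν (P ^ k * R)) H = 0) →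
      eval₂ ι (fun ν => coeff ν G) H = 0) →
    ∀ H : MvPolynomial (σ →₀ ℕ) M,
      (∀ (N : Type) [Field N] (ι' : M →+* N) (P R : MvPolynomial σ N), P.IsHomogeneous a →
        R.IsHomogeneous b → eval₂ ι' (fun ν => coeff ν (P ^ k * R)) H = 0) →
      eval (fun ν => coeff ν G) H = 0

/-- ELB (200 lines).  The set of the polynomials which are divisible by a `k`-th power is closed.  PROOF.
`T_a`, `T_b` as in ELA, `F` = the field of fractions of `MvPolynomial (T_a ⊕ T_b) M`, `𝒫`, `ℛ` in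
`MvPolynomial σ F`, `𝒢 = 𝒫 ^ k * ℛ`.  `e : MvPolynomial (σ →₀ ℕ) M → F`, `H ↦ eval₂ (algebraMap) (coeff · 𝒢) H`,
`B` = its range (a subring of `F`), `ε` = the evaluation of `H` at `coeff · G`.  If `e H = 0` then `H`
vanishes at all `(N, ι', P, R)` (specialisation, as in ELA: `e H` is the image of an element of the
polynomial ring), so `ε H = 0` by the hypothesis.  `I` = the image of `ker ε` in `B`, an ideal, and
`I ≠ ⊤` (if `1 = e H` with `ε H = 0`, then `e (1 - H) = 0`, so `1 = ε (1 - H) = 0`).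
`Ideal.image_subset_nonunits_valuationSubring`: a valuation subring `V` of `F` which contains `B`, with
`I ⊆ V.nonunits`.  `𝒢 ≠ 0` (otherwise `X ν ∈ ker e` for all `ν`, so all `coeff ν G = 0`), so `𝒫, ℛ ≠ 0`
(`k ≥ 1`).  NORMALISATION: there is `a₀ ≠ 0` in `F` (the coefficient of `𝒫` with the greatest valuation,
`Finset.exists_max_image` over the support) such that `𝒫 = C a₀ * map V.subtype P₂`, `P₂` over `V`, one
coefficient of `P₂` is `1`; similarly `ℛ = C b₀ * map V.subtype R₂`.  Let `u = a₀ ^ k * b₀`.  `P₂ ^ k * R₂`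
has a nonzero reduction modulo the maximal ideal (a product of nonzero polynomials over the residue field
`κ`), so some coefficient, with index `ν₁`, is a unit of `V`; `u` times it is `coeff ν₁ 𝒢 ∈ B ⊆ V`; so `u ∈ V`.
Reduce `𝒢 = C u * (P₂ ^ k * R₂)` (all coefficients in `V`): the residue of `coeff ν 𝒢` is the image of
`coeff ν G` under `j : M → V → κ` (`coeff ν 𝒢 - coeff ν G = e (X ν - C (coeff ν G)) ∈ I ⊆ V.nonunits`).  So
`map j G = C ū * (P̄₂ ^ k * R̄₂)`; `P̄₂` is not `0` and homogeneous of degree `a`. -/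
def Stmt_ELB : Prop :=
  ∀ (σ : Type) [Finite σ] (k a b : ℕ) (M : Type) [Field M] (G : MvPolynomial σ M), 1 ≤ k → G ≠ 0 →
    (∀ H : MvPolynomial (σ →₀ ℕ) M,
      (∀ (N : Type) [Field N] (ι' : M →+* N) (P R : MvPolynomial σ N), P.IsHomogeneous a →
        R.IsHomogeneous b → eval₂ ι' (fun ν => coeff ν (P ^ k * R)) H = 0) →
      eval (fun ν => coeff ν G) H = 0) →
    ∃ (M' : Type) (_ : Field M') (j : M →+* M') (P : MvPolynomial σ M'), P ≠ 0 ∧
      P.IsHomogeneous a ∧ P ^ k ∣ map j G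

/-- ELM (150 lines), uses ELA ELB M.WHF.  Elimination with bounded degree.  PROOF.  CASE `k * a > E`: `δ = 1`,
`H = X ν` with `coeff ν G ≠ 0`; if `P' ^ k ∣ G'` with `P' ≠ 0` of degree `a` and `G' ≠ 0` of degree `E`, then
`k a ≤ E` (`totalDegree`), so `G' = 0` and `H` vanishes.  CASE `k * a ≤ E`, `b = E - k * a`: let `T_E` be the
finite type of the exponents of degree `E`, and `𝒥` the ideal of `MvPolynomial T_E ℂ` of all `H` with
`eval₂ ι' (fun ν : T_E => coeff ν (P ^ k * R)) H = 0` for all fields `N`, `ι' : ℂ → N`, homogeneous `P`, `R` of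
degrees `a`, `b`.  It is generated by finitely many elements (Noetherian); `δ` = the maximum of their total
degrees.  Let `M`, `ι`, `G` be given.  If all the generators, hence all elements of `𝒥`, vanish at
`coeff · G`, then the hypothesis of ELA holds: for `H` over `σ →₀ ℕ` the coefficients of `G` and of `P ^ k * R`
with exponents of degree `≠ E` are `0`, so `H` may be replaced by its image in `MvPolynomial T_E ℂ` (`X ν ↦ 0`
if `ν` is not of degree `E`).  ELA, ELB give `M'`, `j`, `P` against the hypothesis.  So some generator `H₀` does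
not vanish at `G`; `H = rename Subtype.val H₀`.  Let `G' = P' ^ k * R'` be homogeneous of degree `E`.  If
`G' = 0` take `P = 0`, `R = 0` (`k ≥ 1`); otherwise `R'` is homogeneous of degree `b` (WHF with the weights
`1`, `IsHomogeneous` is `IsWeightedHomogeneous 1`; degrees add up: `MvPolynomial.IsHomogeneous.totalDegree`). -/
def Stmt_ELM : Prop :=
  ∀ (σ : Type) [Finite σ] (k a E : ℕ), 1 ≤ k → ∃ δ : ℕ, ∀ (M : Type) [Field M] (ι : ℂ →+* M)
    (G : MvPolynomial σ M), G.IsHomogeneous E → G ≠ 0 →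
    (∀ (M' : Type) [Field M'] (j : M →+* M') (P : MvPolynomial σ M'), P ≠ 0 → P.IsHomogeneous a →
      ¬ P ^ k ∣ map j G) →
    ∃ H : MvPolynomial (σ →₀ ℕ) ℂ, H.totalDegree ≤ δ ∧ eval₂ ι (fun ν => coeff ν G) H ≠ 0 ∧
      ∀ (N : Type) [Field N] (ι' : ℂ →+* N) (G' P' : MvPolynomial σ N), G'.IsHomogeneous E →
        P' ≠ 0 → P'.IsHomogeneous a → P' ^ k ∣ G' → eval₂ ι' (fun ν => coeff ν G') H = 0

/-- UNX (250 lines), uses ELM DSC LFX DVC M.WHF.  Effective uniformity.  PROOF.  `δ_a` from ELM for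
`a ≤ E`, `δ = ∑_(a ≤ E) δ_a * e₁`.  Let `K_p` be the field of fractions of `RX m ⧸ p`, `θ₀ : RX m → K_p`,
`θ₀ f = 0 ↔ f ∈ p`, `G₀ = map θ₀ G ≠ 0`, homogeneous of degree `E`.  Let `a₀ ≤ E` be the greatest `a` such
that there is `P₀ ≠ 0` over `ℂ`, homogeneous of degree `a`, with `map (θ₀ ∘ C) P₀ ^ k ∣ G₀` (`a = 0`, `P₀ = 1`
is possible, and `k a ≤ E`).  For `a₀ < a ≤ E` the hypothesis of ELM holds for `M = K_p`, `ι = θ₀ ∘ C`, `G₀`:
suppose `P'` over `M'`, not `0`, homogeneous of degree `a`, `P' ^ k ∣ map j G₀`.  `j ∘ θ₀` has kernel `p`.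
Every irreducible factor `P₁` of `P'` has `P₁ ^ k ∣ map (j ∘ θ₀) G`, so by the hypothesis it divides some
`map (..) H₁`, `H₁ ≠ 0` over `ℂ`; so `P'` divides `map (..) H₂`, `H₂ ≠ 0` (see `UNF_fac` in `B_UNF.lean`), and
by DVC (`M'` is a `ℂ`-algebra via `j ∘ θ₀ ∘ C`) `P' = C c * map (..) G₂`, `c ≠ 0`, `G₂ ≠ 0`; `G₂` is
homogeneous of degree `a` (`map` is injective).  So `(map (..) G₂) ^ k ∣ map j G₀`, DSC:
`(map (θ₀ ∘ C) G₂) ^ k ∣ G₀`, against the choice of `a₀`.  ELM: `H_a`; let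
`D_a = eval₂ C (fun ν => coeff ν G) H_a ∈ RX m`, so `θ₀ D_a ≠ 0`, `D_a ∉ p`, and its total degree is at most
`δ_a * e₁`.  `D = ∏_(a₀ < a ≤ E) D_a`.  LAST CLAIM.  Let `G' = map θ G ≠ 0`, homogeneous of degree `E`,
`P ^ k ∣ G'`.  `P` is homogeneous (WHF) of degree `b₁ ≥ 1` (not a unit).  LFX (`κ = ℂ`, `ι = C`, `θ₀`, `θ`;
`H = P₀ ^ k`): `Q₀ ^ k ∣ G'`, `Q₀ = map (θ ∘ C) P₀ ≠ 0`.  `P` does not divide `Q₀`, so
`P ^ k` divides `G' / Q₀ ^ k` (`Prime.pow_dvd_of_dvd_mul_left`; irreducible elements are prime), and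
`(P * Q₀) ^ k ∣ G'`, `P * Q₀` homogeneous of degree `a = b₁ + a₀ > a₀`, `≤ E`.  ELM: `H_a` vanishes at
`coeff · G'` (`ι' = θ ∘ C`), which is `θ D_a = 0`. -/
def Stmt_UNX : Prop :=
  ∀ (σ : Type) [Finite σ] (m k E e₁ : ℕ), 1 ≤ k → ∃ δ : ℕ, ∀ (p : Ideal (RX m))
    (G : MvPolynomial σ (RX m)), p.IsPrime → G.IsHomogeneous E →
    (∀ ν, (coeff ν G).totalDegree ≤ e₁) → (∃ ν, coeff ν G ∉ p) →
    (∀ (M : Type) [Field M] (θ : RX m →+* M), (∀ f, θ f = 0 ↔ f ∈ p) →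
      ∀ P : MvPolynomial σ M, Irreducible P →
      (∀ H : MvPolynomial σ ℂ, H ≠ 0 → ¬ P ∣ map (θ.comp C) H) → ¬ P ^ k ∣ map θ G) →
    ∃ D ∉ p, D.totalDegree ≤ δ ∧ ∀ (N : Type) [Field N] (θ : RX m →+* N), (∀ f ∈ p, θ f = 0) →
      map θ G ≠ 0 → ∀ P : MvPolynomial σ N, Irreducible P →
      (∀ H : MvPolynomial σ ℂ, H ≠ 0 → ¬ P ∣ map (θ.comp C) H) → P ^ k ∣ map θ G → θ D = 0

/-- CDG (120 lines), uses M.CHP M.PLW.  The degrees of the Chow form.  PROOF.  Homogeneity: CHP (for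
`R = RX m`, degrees `d`, `d`; the form `comb ..` is homogeneous of degree `d`) and PLW: weighted homogeneous
of degree `d * d` for both weights `wb 0`, `wb 1`, whose sum is the weight `1`.  Coefficients: let `CD e F` say
that all the coefficients of `F : MvPolynomial (Fin 2 × Fin (w + 2)) (RX m)` have total degree at most `e`;
`CD e F → CD e' F' → CD (e + e') (F * F')`, `CD` is closed under sums, and the coefficients (in `s`) of
`lineAt C (map .. Q) ..` are in `CD 0`, those of `lineAt C (comb ..) ..` in `CD 1`; the resultant is the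
determinant of the Sylvester matrix of size `2 d` (`Polynomial.resultant`, `Polynomial.sylvester`). -/
def Stmt_CDG : Prop :=
  ∀ (m r w d : ℕ) (Q : MvPolynomial (Fin (w + 2)) ℂ)
    (A : Fin (r + 1) → MvPolynomial (Fin (w + 2)) ℂ) (L : Fin (r + 1) → Fin (m + 1) → ℂ),
    Q.IsHomogeneous d → (∀ i, (A i).IsHomogeneous d) →
    (chow d d (map (algebraMap ℂ (RX m)) Q)
      (comb (algebraMap ℂ (RX m)) A (fun j => ∑ i, C (L j i) * X i))).IsHomogeneous (2 * (d * d)) ∧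
    ∀ ν, (coeff ν (chow d d (map (algebraMap ℂ (RX m)) Q)
      (comb (algebraMap ℂ (RX m)) A (fun j => ∑ i, C (L j i) * X i)))).totalDegree ≤ 2 * d

/-- UNE (200 lines), uses UNX CDG DVC W.CNZ M5.FUN U.TRP M.WHF.  UNF with a bound for the degree.  PROOF.
`σ = Fin 2 × Fin (w + 2)`, `E = 2 * (d * d)`, `e₁ = 2 * d`, `δ` = the maximum of the numbers of UNX for
`1 ≤ k ≤ E`.  Let `U` be the Chow form over `RX m` as in CDG (`UNF_U` in `B_UNF.lean`; copy the private lemmas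
`UNF_map`, `UNF_phi`, `UNF_frac` from that file).  If all `∑ i, C (L j i) * X i` are in `p`, there are no `α`, `x`
as in the conclusion, take `D = 1`.  Otherwise for every field `M` and `θ` with kernel `p`, `η_i = θ (X_i)`,
`map θ U = chow d d .. (comb .. A (L η))` (`UNF_map`), `L η ≠ 0`, so `map θ U ≠ 0` (CNZ) and some coefficient
of `U` is not in `p`.  CASE `k > E`: `D = 1`: for `P` as in the conclusion `P` is homogeneous (WHF) of degree
`≥ 1` (irreducible), so the degree of `P ^ k` is `> E`, but it divides `Phi ≠ 0` of degree `E`.  CASE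
`k ≤ E`: UNX; its hypothesis is the hypothesis of this block (`Algebra ℂ M` via `θ ∘ C`,
`aeval η f = θ f`).  For `α`, `x`: `θ = (aeval x) ∘ (map α) : RX m → Mer`, `θ (C c) = α c`, `θ (X i) = x i`;
`map θ U = Phi Mer d (aq α Q) (aq α ∘ A) (..)` (`UNF_map`, `UNF_phi`), not `0` (CNZ, TRP), and
`θ D = aeval x (aq α D)`.  If `P ∣ map (θ ∘ C) H = map (algebraMap ℂ Mer) (map α H)`, `H ≠ 0`, then by DVC
`P = C c * map (algebraMap ℂ Mer) G₂`, against `Mov P`. -/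
def Stmt_UNE : Prop :=
  ∀ m r w d : ℕ, ∃ δ : ℕ, ∀ (k : ℕ) (Q : MvPolynomial (Fin (w + 2)) ℂ)
    (A : Fin (r + 1) → MvPolynomial (Fin (w + 2)) ℂ) (L : Fin (r + 1) → Fin (m + 1) → ℂ)
    (p : Ideal (MvPolynomial (Fin (m + 1)) ℂ)), 1 ≤ k → Data (w + 2) r d d Q A → p.IsPrime →
    (∀ (M : Type) [Field M] [Algebra ℂ M] (η : Fin (m + 1) → M)
      (P : MvPolynomial (Fin 2 × Fin (w + 2)) M), (∀ f, aeval η f = 0 ↔ f ∈ p) →
      (fun j => ∑ i, algebraMap ℂ M (L j i) * η i) ≠ 0 → Irreducible P →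
      (∀ H : MvPolynomial (Fin 2 × Fin (w + 2)) ℂ, H ≠ 0 → ¬ P ∣ map (algebraMap ℂ M) H) →
      ¬ P ^ k ∣ chow d d (map (algebraMap ℂ M) Q)
        (comb (algebraMap ℂ M) A (fun j => ∑ i, algebraMap ℂ M (L j i) * η i))) →
    ∃ D ∉ p, D.totalDegree ≤ δ ∧ ∀ (α : ℂ ≃+* ℂ) (x : Fin (m + 1) → Mer)
      (P : MvPolynomial (Fin 2 × Fin (w + 2)) Mer), (∀ f ∈ p, aeval x (aq α f) = 0) →
      (fun j => ∑ i, algebraMap ℂ Mer (α (L j i)) * x i) ≠ 0 → Irreducible P → Mov P →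
      P ^ k ∣ Phi Mer d (aq α Q) (fun i => aq α (A i))
        (fun j => ∑ i, algebraMap ℂ Mer (α (L j i)) * x i) →
      aeval x (aq α D) = 0

/-! ## N. The chain with bounds for the degrees -/

/-- T3D (a copy of B_T3S), uses M2.T3.  As T3S with the bounds `d ≤ dmax`, `r ≤ m`. -/
def Stmt_T3D : Prop :=
  ∀ (β : ℕ → ℕ → ℕ → ℕ) (m : ℕ), ∃ N₁ dmax : ℕ, ∀ S : Finset (Fin (m + 1) → ℂ),
    (∀ u ∈ S, ∀ v ∈ S, u ≠ v → NonProp u v) → N₁ ≤ S.card →
    ∃ (r w d : ℕ) (Q : MvPolynomial (Fin (w + 2)) ℂ)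
      (A : Fin (r + 1) → MvPolynomial (Fin (w + 2)) ℂ) (T : Finset (Fin (r + 1) → ℂ))
      (lift : (Fin (r + 1) → ℂ) → (Fin (w + 2) → ℂ)) (L : Fin (r + 1) → Fin (m + 1) → ℂ),
      r ≤ m ∧ d ≤ dmax ∧ HypData r w d Q A T lift ∧ β r w d ≤ T.card ∧
      (∀ (e : ℕ) (f : MvPolynomial (Fin (w + 2)) ℂ), e ≤ β r w d → f.IsHomogeneous e →
        (∀ u ∈ T, eval (lift u) f = 0) → Q ∣ f) ∧
      (∀ y : Fin (r + 1) → ℂ, (∀ u ∈ T, ∑ i, u i * y i = 0) → y = 0) ∧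
      LinearIndependent ℂ L ∧ ∀ u ∈ T, (fun i => ∑ j, u j * L j i) ∈ S

/-- PTE (a copy of B_PTV), uses T3D DRT UNE NDK ODX DVL NCL DM1 U.TRP V.EXF U.MVP.  As PTV; `δ` = the
maximum of the numbers of UNE for `r, w ≤ m`, `d ≤ dmax` (`w ≤ r` by `HypData.hwr`). -/
def Stmt_PTE : Prop :=
  ∀ m c : ℕ, ∃ N₁ δ : ℕ, ∀ (k : (Fin (m + 1) → ℂ) → ℕ) (p : Ideal (MvPolynomial (Fin (m + 1)) ℂ))
    (S : Finset (Fin (m + 1) → ℂ)), (∀ u ∈ S, 1 ≤ k u) → p.IsPrime → Hmg p →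
    (∀ u ∈ S, ∀ v ∈ S, u ≠ v → NonProp u v) →
    (∀ z : Fin (m + 1) → ℂ, z ≠ 0 → (∀ f ∈ p, eval z f = 0) →
      {u | u ∈ S ∧ ∑ i, u i * z i = 0}.ncard ≤ c) →
    (∀ u ∈ S, Low (k u) p (lf u)) → N₁ ≤ S.card →
    ∃ D ∉ p, D.totalDegree ≤ δ ∧ ∀ (α : ℂ ≃+* ℂ) (x : Fin (m + 1) → Mer), NC x →
      (∀ f ∈ p, aeval x (aq α f) = 0) →
      (∀ u ∈ S, Ful (k u) x (fun i => α (u i))) → aeval x (aq α D) = 0

/-- UEE (a copy of B_UEV), uses PTE PEX LOX DSG ODX U.AUT U.RKT.  As UEV.  The degree: in DSG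
`map τ D₀` is in the span of the `aq α D`, whose total degrees are at most that of `D`, so
`D₀.totalDegree ≤ D.totalDegree`. -/
def Stmt_UEE : Prop :=
  ∀ m c : ℕ, ∃ N₁ δ : ℕ, ∀ (Ω : Type) [Field Ω] [IsAlgClosed Ω] [Countable Ω]
    (k : (Fin (m + 1) → Ω) → ℕ) (p : Ideal (MvPolynomial (Fin (m + 1)) Ω))
    (S : Finset (Fin (m + 1) → Ω)), (∀ u ∈ S, 1 ≤ k u) →
    p.IsPrime → Hmg p → (∀ u ∈ S, ∀ v ∈ S, u ≠ v → NPr u v) →
    (∀ z : Fin (m + 1) → Ω, z ≠ 0 → (∀ f ∈ p, eval z f = 0) →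
      {u | u ∈ S ∧ ∑ i, u i * z i = 0}.ncard ≤ c) →
    (∀ u ∈ S, Low (k u) p (lf u)) → N₁ ≤ S.card →
    ∃ D ∉ p, D.totalDegree ≤ δ ∧ ∀ (τ : Ω →+* ℂ) (x : Fin (m + 1) → Mer), NC x →
      (∀ f ∈ p, eval₂ (tm τ) x f = 0) → (∀ u ∈ S, Ful (k u) x (fun i => τ (u i))) →
      eval₂ (tm τ) x D = 0

/-- UEH (a copy of B_UEG), uses UEE SLY LOV VRG VPT VIN H.BPF H.VFN.  As UEG.  The degree:
`D = vr ε D'` has total degree at most `e₀ !` times that of `D'`. -/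
def Stmt_UEH : Prop :=
  ∀ m c e₀ : ℕ, ∃ N₁ δ : ℕ, ∀ (Ω : Type) [Field Ω] [IsAlgClosed Ω] [Countable Ω] (N : ℕ)
    (k e : Fin (N + 1) → ℕ) (p : Ideal (MvPolynomial (Fin (m + 1)) Ω))
    (F : Fin (N + 1) → MvPolynomial (Fin (m + 1)) Ω),
    (∀ j, 1 ≤ e j ∧ e j ≤ e₀ ∧ (F j).IsHomogeneous (e j)) → p.IsPrime → Hmg p →
    (∃ f : Fin 2 → MvPolynomial (Fin (m + 1)) Ω, IndMod p f) →
    (∀ z : Fin (m + 1) → Ω, z ≠ 0 → (∀ f ∈ p, eval z f = 0) →
      {j | eval z (F j) = 0}.ncard ≤ c) →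
    N₁ < {j | Low (k j) p (F j)}.ncard →
    ∃ D ∉ p, D.totalDegree ≤ δ ∧ ∀ (τ : Ω →+* ℂ) (x : Fin (m + 1) → Mer), NC x →
      (∀ f ∈ p, eval₂ (tm τ) x f = 0) → (∀ j, FuF (k j) x (e j) (map τ (F j))) →
      eval₂ (tm τ) x D = 0

/-- UEM (a copy of B_UEL), uses UEH HYF.  As UEL. -/
def Stmt_UEM : Prop :=
  ∀ m e₀ : ℕ, ∃ N₁ δ : ℕ, ∀ (Ω : Type) [Field Ω] [IsAlgClosed Ω] [Countable Ω] (c N : ℕ)
    (k e : Fin (N + 1) → ℕ) (p : Ideal (MvPolynomial (Fin (m + 1)) Ω))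
    (F : Fin (N + 1) → MvPolynomial (Fin (m + 1)) Ω),
    (∀ j, 1 ≤ e j ∧ e j ≤ e₀ ∧ (F j).IsHomogeneous (e j)) → p.IsPrime → Hmg p →
    (∃ f : Fin 2 → MvPolynomial (Fin (m + 1)) Ω, IndMod p f) →
    (∀ z : Fin (m + 1) → Ω, z ≠ 0 → (∀ f ∈ p, eval z f = 0) →
      {j | eval z (F j) = 0}.ncard ≤ c) →
    N₁ * c < {j | Low (k j) p (F j)}.ncard →
    ∃ D ∉ p, D.totalDegree ≤ δ ∧ ∀ (τ : Ω →+* ℂ) (x : Fin (m + 1) → Mer), NC x →
      (∀ f ∈ p, eval₂ (tm τ) x f = 0) → (∀ j, FuF (k j) x (e j) (map τ (F j))) →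
      eval₂ (tm τ) x D = 0

/-- `V(p)` is obtained from a component of `V(p₀)` by repeatedly taking a component of the intersection
with a hypersurface `D = 0` of degree at most `δ` (`D` not zero on the set). -/
def SectOf {F : Type} [Field F] {m : ℕ} (δ : ℕ) (p₀ p : Ideal (MvPolynomial (Fin (m + 1)) F)) :
    Prop :=
  ∃ (r : ℕ) (q : ℕ → Ideal (MvPolynomial (Fin (m + 1)) F)), q 0 ∈ p₀.minimalPrimes ∧ q r = p ∧
    ∀ i < r, ∃ (e : ℕ) (D : MvPolynomial (Fin (m + 1)) F), e ≤ δ ∧ D.IsHomogeneous e ∧ D ∉ q i ∧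
      q (i + 1) ∈ (q i ⊔ Ideal.span {D}).minimalPrimes

/-- JWR (180 lines), uses UEM HMP DM1 HYP.  The exceptional sets, of bounded degree.  PROOF.  `N₁`, `δ` from
UEM.  CLAIM: for every homogeneous prime `p` with `p₀ ≤ p`, `SectOf δ p₀ p` there is a finite set `W_p` of
ideals with the first group of properties (`IsPrime`, .., `≤ N₁ * c`), such that every `(τ, x)` with `CrF`
and `f(x) = 0` for `f ∈ p` satisfies `f(x) = 0` for all `f ∈ q`, for some `q ∈ W_p`.  Noetherian induction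
(`IsNoetherian`/`WellFoundedGT` on ideals: the claim for all primes strictly greater than `p`).  (a) At
most `N₁ * c` of the `F j` are `Low`: `W_p = {p}`.  (b) There are no two `IndMod` elements: then there are no
such `x` (DM1), `W_p = ∅`.  (c) Otherwise UEM: `D ∉ p`, of total degree `≤ δ`; some homogeneous component
`D_i ∉ p`, `i ≤ δ`.  With `x` also `t x`, `t ∈ ℂ`, `t ≠ 0`, is `CrF` (`JWF_scale`) and in `V(p)`, so
`D_i(x) = 0` (`JWI_hmg`, see `B_JWL.lean`).  Let `q` be one of the finitely many minimal primes of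
`p ⊔ (D_i)`: prime, `p < q` (`D_i ∈ q`), homogeneous (HMP; `p ⊔ (D_i)` is homogeneous), `SectOf δ p₀ q`
(extend the chain by `q` at `r + 1`).  `W_p` = the union of the `W_q`.  If `x` is as in the claim for `p`, the
kernel of `eval₂Hom (tm τ) x` is a prime which contains `p ⊔ (D_i)`, so it contains some `q`
(`Ideal.exists_minimalPrimes_le`).  START: the union of the `W_p` for `p ∈ p₀.minimalPrimes` (homogeneous
by HMP, `r = 0`).  END: remove from `W` the `p` for which there are no `z`, `w` as in the last property; if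
some `x` with `CrF` is in `V(p)`, then `z`, `w` exist (DM1 and `JWG_pts`, see `B_JWL.lean`). -/
def Stmt_JWR : Prop :=
  ∀ m e₀ : ℕ, ∃ N₁ δ : ℕ, ∀ (Ω : Type) [Field Ω] [IsAlgClosed Ω] [Countable Ω] (c N : ℕ)
    (k e : Fin (N + 1) → ℕ) (p₀ : Ideal (MvPolynomial (Fin (m + 1)) Ω))
    (F : Fin (N + 1) → MvPolynomial (Fin (m + 1)) Ω),
    (∀ j, 1 ≤ e j ∧ e j ≤ e₀ ∧ (F j).IsHomogeneous (e j)) → Hmg p₀ →
    (∀ z : Fin (m + 1) → Ω, z ≠ 0 → (∀ f ∈ p₀, eval z f = 0) →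
      {j | eval z (F j) = 0}.ncard ≤ c) →
    ∃ W : Set (Ideal (MvPolynomial (Fin (m + 1)) Ω)), W.Finite ∧
      (∀ p ∈ W, (p.IsPrime ∧ Hmg p ∧ p₀ ≤ p ∧ SectOf δ p₀ p ∧
          {j | Low (k j) p (F j)}.ncard ≤ N₁ * c) ∧
        ∃ z w : Fin (m + 1) → Ω, (∀ f ∈ p, eval z f = 0) ∧ (∀ f ∈ p, eval w f = 0) ∧
          ∃ i j, z i * w j ≠ z j * w i) ∧
      ∀ (τ : Ω →+* ℂ) (x : Fin (m + 1) → Mer), CrF k e p₀ F τ x →
        ∃ p ∈ W, ∀ f ∈ p, eval₂ (tm τ) x f = 0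

/-- FNR (a copy of B_FNL), uses JWR MPF NCF TGF P.MPT M0.MREL.  THEOREM T+, first part. -/
def Stmt_Z1R : Prop :=
  ∀ n e₀ : ℕ, ∃ N₁ δ : ℕ, ∀ (K : Type) [Field K] [NumberField K] (c N : ℕ) (k : Fin (N + 1) → ℕ)
    (p₀ : Ideal (MvPolynomial (Fin (n + 1)) (AlgebraicClosure K)))
    (F : Fin (N + 1) → MvPolynomial (Fin (n + 1)) (AlgebraicClosure K)), Hmg p₀ →
    (∀ j, ∃ d, 1 ≤ d ∧ d ≤ e₀ ∧ (F j).IsHomogeneous d) →
    (∀ z : Fin (n + 1) → AlgebraicClosure K, z ≠ 0 → (∀ f ∈ p₀, eval z f = 0) →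
      {j | eval z (F j) = 0}.ncard ≤ c) →
    ∃ W : Set (Ideal (MvPolynomial (Fin (n + 1)) (AlgebraicClosure K))), W.Finite ∧
      (∀ p ∈ W, (p.IsPrime ∧ Hmg p ∧ p₀ ≤ p ∧ SectOf δ p₀ p ∧
          {j | Low (k j) p (F j)}.ncard ≤ N₁ * c) ∧
        ∃ z w : Fin (n + 1) → AlgebraicClosure K, (∀ f ∈ p, eval z f = 0) ∧
          (∀ f ∈ p, eval w f = 0) ∧ ∃ i j, z i * w j ≠ z j * w i) ∧
      (∀ (τ : AlgebraicClosure K →+* ℂ) (f : ℂ → PSpace ℂ n), HolomorphicOn f Set.univ →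
        (∀ z, ∀ G ∈ p₀, eval₂ τ (f z).rep G = 0) → (∀ j, TngF (k j) f (map τ (F j))) →
        (∃ z₁ z₂, f z₁ ≠ f z₂) → ∃ p ∈ W, ∀ z, ∀ G ∈ p, eval₂ τ (f z).rep G = 0) ∧
      ∀ (m : ℕ) (S : Set (MvPolynomial (Fin (m + 1)) K)), (∀ F ∈ S, ∃ d, F.IsHomogeneous d) →
        ∀ (g : Mor K (AlgebraicClosure K) m n S), Into g p₀ → (∀ j, FullF g (k j) (F j)) →
        ∀ (τ : AlgebraicClosure K →+* ℂ),
          (∀ f : ℂ → PSpace ℂ m, HolomorphicOn f Set.univ →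
            (∀ z, f z ∈ complexPoints S (τ.comp (algebraMap K (AlgebraicClosure K)))) →
            (∃ p ∈ W, ∀ z, f z ∈ ExcP g p τ) ∨ InFib g τ f) ∧
          (g.Finite → (∀ f : ℂ → PSpace ℂ m, HolomorphicOn f Set.univ →
              (∀ z, f z ∈ complexPoints S (τ.comp (algebraMap K (AlgebraicClosure K)))) →
              (∃ z₁ z₂, f z₁ ≠ f z₂) → ∃ p ∈ W, ∀ z, f z ∈ ExcP g p τ) ∧
            (KobayashiHyperbolic
                (complexPoints S (τ.comp (algebraMap K (AlgebraicClosure K)))) ↔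
              KobayashiHyperbolic (⋃ p ∈ W, ExcP g p τ)))

/-- FNR: see `Stmt_Z1R`. -/
def Stmt_FNR : Prop := Stmt_Z1R

/-- UNR (a copy of B_UNI), uses JWR MPF NCF P.MPT P.NUL M0.HOMR.  Only the sets `V(p)` with
`SectOf δ p₀ p` matter. -/
def Stmt_UNR : Prop :=
  ∀ n e₀ : ℕ, ∃ N₁ δ : ℕ, ∀ (K : Type) [Field K] [NumberField K] (c N d : ℕ) (k : Fin (N + 1) → ℕ)
    (p₀ : Ideal (MvPolynomial (Fin (n + 1)) (AlgebraicClosure K)))
    (F : Fin (N + 1) → MvPolynomial (Fin (n + 1)) (AlgebraicClosure K)), Hmg p₀ →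
    (∀ j, ∃ d, 1 ≤ d ∧ d ≤ e₀ ∧ (F j).IsHomogeneous d) →
    (∀ z : Fin (n + 1) → AlgebraicClosure K, z ≠ 0 → (∀ f ∈ p₀, eval z f = 0) →
      {j | eval z (F j) = 0}.ncard ≤ c) →
    ∀ (m : ℕ) (S : Set (MvPolynomial (Fin (m + 1)) K)), (∀ F ∈ S, ∃ d, F.IsHomogeneous d) →
      ∀ (g : Mor K (AlgebraicClosure K) m n S), Into g p₀ → (∀ j, FullF g (k j) (F j)) →
        (g.Finite ∨ DimFib g d) →
        (∀ p : Ideal (MvPolynomial (Fin (n + 1)) (AlgebraicClosure K)), p.IsPrime → Hmg p → p₀ ≤ p →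
          SectOf δ p₀ p → ¬ DimPre g p d → N₁ * c < {j | Low (k j) p (F j)}.ncard) →
        Pool.ThmM0.DimMer S d

end Pool.MPY
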