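import Pool.Agent.Work.MP_f82ddf_Y.All4
import Pool.Agent.Work.MP_f82ddf_Y.Interface4
import Pool.Agent.Work.MP_f82ddf_Y.B_DSC
import Pool.Agent.Work.MP_f82ddf_Y.B_LFX
import Pool.Agent.Work.MP_f82ddf_Y.B_ELA
import Pool.Agent.Work.MP_f82ddf_Y.B_ELB
import Pool.Agent.Work.MP_f82ddf_Y.B_ELM
import Pool.Agent.Work.MP_f82ddf_Y.B_UNX
import Pool.Agent.Work.MP_f82ddf_Y.B_CDG
import Pool.Agent.Work.MP_f82ddf_Y.B_UNE
import Pool.Agent.Work.MP_f82ddf_Y.B_T3D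
import Pool.Agent.Work.MP_f82ddf_Y.B_PTE
import Pool.Agent.Work.MP_f82ddf_Y.B_UEE
import Pool.Agent.Work.MP_f82ddf_Y.B_UEH
import Pool.Agent.Work.MP_f82ddf_Y.B_UEM
import Pool.Agent.Work.MP_f82ddf_Y.B_JWR
import Pool.Agent.Work.MP_f82ddf_Y.B_FNR
import Pool.Agent.Work.MP_f82ddf_Y.B_UNR

/-!
# THEOREM T+: assembly
-/

set_option autoImplicit false

namespace Pool.MPY

open MvPolynomial
open Pool.Agent.Work.MP_f82ddf_nt (PSpace HolomorphicOn complexPoints points KobayashiHyperbolic)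
open Pool.ThmP (Mor OnX OnK tm RelP FullF)

/-- THEOREM T+, Lang's criterion. -/
def Stmt_Z2R : Prop :=
  ∀ n e₀ : ℕ, ∃ N₁ δ : ℕ, ∀ (K : Type) [Field K] [NumberField K] (c N : ℕ) (k : Fin (N + 1) → ℕ)
    (p₀ : Ideal (MvPolynomial (Fin (n + 1)) (AlgebraicClosure K)))
    (F : Fin (N + 1) → MvPolynomial (Fin (n + 1)) (AlgebraicClosure K)), Hmg p₀ →
    (∀ j, ∃ d, 1 ≤ d ∧ d ≤ e₀ ∧ (F j).IsHomogeneous d) →
    (∀ z : Fin (n + 1) → AlgebraicClosure K, z ≠ 0 → (∀ f ∈ p₀, eval z f = 0) →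
      {j | eval z (F j) = 0}.ncard ≤ c) →
    ∀ (m : ℕ) (S : Set (MvPolynomial (Fin (m + 1)) K)), (∀ F ∈ S, ∃ d, F.IsHomogeneous d) →
      ∀ (g : Mor K (AlgebraicClosure K) m n S), Into g p₀ → (∀ j, FullF g (k j) (F j)) →
        (g.Finite ∨ DimFib g 1) →
        (∀ p : Ideal (MvPolynomial (Fin (n + 1)) (AlgebraicClosure K)), p.IsPrime → Hmg p → p₀ ≤ p →
          SectOf δ p₀ p → ¬ DimPre g p 1 → N₁ * c < {j | Low (k j) p (F j)}.ncard) →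
        (∀ σ : K →+* ℂ, KobayashiHyperbolic (complexPoints S σ) ↔
          ¬ Pool.MCL.CubicImage S (AlgebraicClosure K) (algebraMap K (AlgebraicClosure K))) ∧
        (Pool.MCL.CubicImage S (AlgebraicClosure K) (algebraMap K (AlgebraicClosure K)) →
          ∃ (L : Type) (_ : Field L) (_ : Algebra K L) (_ : FiniteDimensional K L),
            (points S L).Infinite)

theorem p_Z2R (h1 : Stmt_UNR) (h3 : Pool.ThmM0.Stmt_PAI) (h4 : Pool.MCL.stmt_P6C) : Stmt_Z2R := by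
  intro n e₀
  obtain ⟨N₁, δ, hN1⟩ := h1 n e₀
  refine ⟨N₁, δ, fun K _ _ c N k p₀ F hH hF hc m S hS g hinto hfull hfib hlow => ?_⟩
  have hdim := hN1 K c N 1 k p₀ F hH hF hc m S hS g hinto hfull hfib hlow
  refine h4 K m S hS ?_
  intro σ x i hi hF
  exact h3 K m 1 S le_rfl hdim σ x i hi hF

theorem all_DSC : Stmt_DSC := p_DSC
theorem all_LFX : Stmt_LFX := s_LFX
theorem all_ELA : Stmt_ELA := p_ELA
theorem all_ELB : Stmt_ELB := p_ELB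
theorem all_ELM : Stmt_ELM := p_ELM all_ELA all_ELB Pool.ThmM.Chow.q_WHF
theorem all_UNX : Stmt_UNX := p_UNX all_ELM all_DSC all_LFX all_DVC Pool.ThmM.Chow.q_WHF
theorem all_CDG : Stmt_CDG := p_CDG Pool.ThmM.Chow.q_CHP Pool.ThmM.Chow.q_PLW
theorem all_UNE : Stmt_UNE := p_UNE all_UNX all_CDG all_DVC Pool.MPW.all_CNZ
  Pool.Agent.Work.MP_f82ddf_M5.stmt_FUN Pool.MPL.all_TRP Pool.ThmM.Chow.q_WHF
theorem all_T3D : Stmt_T3D := p_T3D Pool.ThmM0.all_T3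
theorem all_PTE : Stmt_PTE := p_PTE all_T3D all_DRT all_UNE all_NDK all_ODX all_DVL all_NCL
    all_DM1 Pool.MPL.all_TRP Pool.MPV.all_EXF Pool.MPL.all_MVP
theorem all_UEE : Stmt_UEE := p_UEE all_PTE all_PEX all_LOX all_DSG all_ODX Pool.MPL.all_AUT
    Pool.MPL.all_RKT
theorem all_UEH : Stmt_UEH := p_UEH all_UEE all_SLY all_LOV all_VRG all_VPT all_VIN
    Pool.MPH.all_BPF Pool.MPH.all_VFN
theorem all_UEM : Stmt_UEM := p_UEM all_UEH all_HYF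
theorem all_JWR : Stmt_JWR := p_JWR all_UEM all_HMP all_DM1 all_HYP
/-- THEOREM T+, first part. -/
theorem all_Z1R : Stmt_Z1R := p_FNR all_JWR all_MPF all_NCF all_TGF Pool.ThmP.all_MPT
    Pool.ThmM0.stmt_MREL
theorem all_UNR : Stmt_UNR := p_UNR all_JWR all_MPF all_NCF Pool.ThmP.all_MPT Pool.ThmP.p_NUL
  Pool.ThmM0.stmt_HOMR
/-- THEOREM T+, second part. -/
theorem all_Z2R : Stmt_Z2R := p_Z2R all_UNR (Pool.ThmM0.stmt_PAI Pool.ThmM0.stmt_DHO)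
    Pool.MCL.all_P6C

end Pool.MPY
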