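import Pool.Agent.Work.MP_f82ddf_Y.Interface2
import Pool.Agent.Work.MP_f82ddf_U.B_DSE

set_option autoImplicit false

/-! # Block DSG (helper17)

A subspace `W` of the space of the complex polynomials which is stable under the automorphisms of
`ℂ` over `τ(Ω)` is spanned by its elements with coefficients in `τ(Ω)`. -/

namespace Pool.MPY

open MvPolynomial
open Pool.MPL (RX aq)

theorem DSG_span (hF : Pool.MPL.Stmt_FXF) {Ω : Type} [Field Ω] [IsAlgClosed Ω] [Countable Ω]
    (τ : Ω →+* ℂ) {m : ℕ} (W : Submodule ℂ (RX m))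
    (hst : ∀ β : ℂ ≃+* ℂ, (∀ a, β (τ a) = τ a) → ∀ E ∈ W, aq β E ∈ W) :
    ∀ (n : ℕ) (E : RX m), E ∈ W → E.support.card = n →
      E ∈ Submodule.span ℂ {G : RX m | G ∈ W ∧ ∃ D₀ : MvPolynomial (Fin (m + 1)) Ω,
        G = map τ D₀} := by
  classical
  intro n
  induction n using Nat.strong_induction_on with
  | _ n ih =>
    intro E hE hn
    by_cases hE0 : E = 0
    · rw [hE0]
      exact Submodule.zero_mem _
    -- a nonzero element with the smallest number of monomials, all of them in `E`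
    have hex : ∃ k : ℕ, ∃ E' ∈ W, E' ≠ 0 ∧ E'.support ⊆ E.support ∧ E'.support.card = k :=
      ⟨_, E, hE, hE0, Finset.Subset.refl _, rfl⟩
    obtain ⟨E', hE'W, hE'0, hE's, hE'k⟩ := Nat.find_spec hex
    have hmin : ∀ E'' ∈ W, E''.support ⊆ E.support → E''.support.card < E'.support.card →
        E'' = 0 := by
      intro E'' hE'' hs hlt
      by_contra hne
      rw [hE'k] at hlt
      exact Nat.find_min hex hlt ⟨E'', hE'', hne, hs, rfl⟩
    obtain ⟨m₀, hm₀⟩ : ∃ μ, coeff μ E' ≠ 0 := by
      by_contra hall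
      push Not at hall
      exact hE'0 (by ext μ; simpa using hall μ)
    set E₁ : RX m := (coeff m₀ E')⁻¹ • E' with hE₁
    have hE₁W : E₁ ∈ W := Submodule.smul_mem _ _ hE'W
    have hE₁m : coeff m₀ E₁ = 1 := by
      rw [hE₁, coeff_smul, smul_eq_mul, inv_mul_cancel₀ hm₀]
    have hsupp : E₁.support = E'.support := by
      ext μ
      rw [mem_support_iff, mem_support_iff, hE₁, coeff_smul, smul_eq_mul]
      constructor
      · intro h h'
        exact h (by rw [h', mul_zero])
      · intro h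
        exact mul_ne_zero (inv_ne_zero hm₀) h
    have hfix : ∀ β : ℂ ≃+* ℂ, (∀ a, β (τ a) = τ a) → aq β E₁ = E₁ := by
      intro β hβ
      have h1W : E₁ - aq β E₁ ∈ W := Submodule.sub_mem _ hE₁W (hst β hβ E₁ hE₁W)
      have hsub : (E₁ - aq β E₁).support ⊆ E₁.support := by
        intro μ hμ
        rw [mem_support_iff] at hμ ⊢
        intro h0
        exact hμ (by rw [coeff_sub, Pool.MPL.DSE_coeff, h0, map_zero, sub_zero])
      have hlt : (E₁ - aq β E₁).support.card < E'.support.card := by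
        rw [← hsupp]
        refine Finset.card_lt_card ⟨hsub, fun hsub' => ?_⟩
        have hm : m₀ ∈ (E₁ - aq β E₁).support :=
          hsub' (by rw [mem_support_iff, hE₁m]; exact one_ne_zero)
        rw [mem_support_iff, coeff_sub, Pool.MPL.DSE_coeff, hE₁m, map_one, sub_self] at hm
        exact hm rfl
      exact (sub_eq_zero.mp (hmin _ h1W (hsub.trans (hsupp ▸ hE's)) hlt)).symm
    have hrange : ∀ μ, ∃ a, τ a = coeff μ E₁ := by
      intro μ
      by_contra hno
      push Not at hno
      obtain ⟨α, hα, hne⟩ := hF Ω τ (coeff μ E₁) hno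
      apply hne
      rw [← Pool.MPL.DSE_coeff, hfix α hα]
    choose g hg using hrange
    have hmap : map τ (∑ μ ∈ E₁.support, monomial μ (g μ) : MvPolynomial (Fin (m + 1)) Ω) =
        E₁ := by
      rw [map_sum]
      conv_rhs => rw [E₁.as_sum]
      exact Finset.sum_congr rfl fun μ _ => by rw [map_monomial, hg]
    have hE₁in : E₁ ∈ Submodule.span ℂ {G : RX m | G ∈ W ∧
        ∃ D₀ : MvPolynomial (Fin (m + 1)) Ω, G = map τ D₀} :=
      Submodule.subset_span ⟨hE₁W, _, hmap.symm⟩
    -- remove the monomial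
    have hm₀E : m₀ ∈ E.support := hE's (by rw [mem_support_iff]; exact hm₀)
    have hrest : E - coeff m₀ E • E₁ ∈ W := Submodule.sub_mem _ hE (Submodule.smul_mem _ _ hE₁W)
    have hrs : (E - coeff m₀ E • E₁).support ⊆ E.support := by
      intro μ hμ
      rw [mem_support_iff] at hμ
      by_contra hc
      have hc1 : μ ∉ E₁.support := fun h => hc (hE's (hsupp ▸ h))
      rw [notMem_support_iff] at hc hc1
      exact hμ (by rw [coeff_sub, coeff_smul, hc, hc1]; simp)
    have hrlt : (E - coeff m₀ E • E₁).support.card < n := by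
      rw [← hn]
      refine Finset.card_lt_card ⟨hrs, fun hsub' => ?_⟩
      have hm := hsub' hm₀E
      rw [mem_support_iff, coeff_sub, coeff_smul, hE₁m] at hm
      exact hm (by simp)
    have h2 := ih _ hrlt _ hrest rfl
    have h3 : E = (E - coeff m₀ E • E₁) + coeff m₀ E • E₁ := by ring
    rw [h3]
    exact Submodule.add_mem _ h2 (Submodule.smul_mem _ _ hE₁in)

theorem p_DSG (h1 : Pool.MPL.Stmt_FXF) : Stmt_DSG := by
  intro Ω _ _ _ τ m p D hD
  set W := Submodule.span ℂ
    {E : RX m | ∃ α : ℂ ≃+* ℂ, (∀ a, α (τ a) = τ a) ∧ E = aq α D} with hW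
  have hDW : D ∈ W := by
    refine Submodule.subset_span ⟨RingEquiv.refl ℂ, fun a => rfl, ?_⟩
    ext μ
    simp [Pool.MPL.DSE_coeff]
  have hst : ∀ β : ℂ ≃+* ℂ, (∀ a, β (τ a) = τ a) → ∀ E ∈ W, aq β E ∈ W := by
    intro β hβ E hE
    exact Pool.MPL.DSE_stable τ D β hβ E hE
  have hspan := DSG_span h1 τ W hst _ D hDW rfl
  by_contra hcon
  push Not at hcon
  apply hD
  have hall : ∀ E ∈ Submodule.span ℂ {G : RX m | G ∈ W ∧
      ∃ D₀ : MvPolynomial (Fin (m + 1)) Ω, G = map τ D₀}, E ∈ p.map (map τ) := by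
    intro E hE
    induction hE using Submodule.span_induction with
    | mem x hx =>
      obtain ⟨hxW, D₀, rfl⟩ := hx
      by_cases h0 : D₀ ∈ p
      · exact Ideal.mem_map_of_mem _ h0
      · exact absurd hxW (hcon D₀ h0)
    | zero => exact Ideal.zero_mem _
    | add x y _ _ hx hy => exact Ideal.add_mem _ hx hy
    | smul c x _ hx =>
      rw [smul_eq_C_mul]
      exact Ideal.mul_mem_left _ _ hx
  exact hall D hspan

end Pool.MPY
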