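import Pool.Agent.Work.MP_f82ddf_Y.Interface2

set_option autoImplicit false

/-! # Block HYP of THEOREM T: a closed set of positive dimension meets every hyperplane -/

namespace Pool.MPY

open MvPolynomial

/-- polynomial expressions in algebraic elements are algebraic -/
theorem HYP_alg {Ω F σ : Type} [Field Ω] [Field F] [Algebra Ω F] (K : IntermediateField Ω F)
    (v : σ → F) (hv : ∀ j, IsAlgebraic K (v j)) (f : MvPolynomial σ Ω) :
    IsAlgebraic K (aeval v f) := by
  induction f using MvPolynomial.induction_on with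
  | C a =>
    have e : (aeval v (C a : MvPolynomial σ Ω)) = algebraMap K F (algebraMap Ω K a) := by
      rw [aeval_C]
      rfl
    rw [e]
    exact isAlgebraic_algebraMap _
  | add p q hp hq =>
    rw [map_add]
    exact hp.add hq
  | mul_X p i hp =>
    rw [map_mul, aeval_X]
    exact hp.mul (hv i)

theorem p_HYP (hLFD : Pool.MPE.Stmt_LFD) (hTRM : Pool.MPW.Stmt_TRM) : Stmt_HYP := by
  intro Ω _ _ m p hp hH hf u
  obtain ⟨f, hf⟩ := hf
  by_contra hno
  have hno' : ∀ z : Fin (m + 1) → Ω, z ≠ 0 → (∀ f ∈ p, eval z f = 0) → ∑ i, u i * z i ≠ 0 := by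
    intro z hz hz2 hz3
    exact hno ⟨z, hz, hz2, hz3⟩
  haveI := hp
  let R := MvPolynomial (Fin (m + 1)) Ω ⧸ p
  let F := FractionRing R
  let η : Fin (m + 1) → F := fun i => algebraMap R F (Ideal.Quotient.mk p (X i))
  have hη : ∀ G : MvPolynomial (Fin (m + 1)) Ω,
      aeval η G = algebraMap R F (Ideal.Quotient.mk p G) := by
    intro G
    have e : (aeval η : MvPolynomial (Fin (m + 1)) Ω →ₐ[Ω] F) =
        (IsScalarTower.toAlgHom Ω R F).comp (Ideal.Quotient.mkₐ Ω p) := by
      apply MvPolynomial.algHom_ext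
      intro i
      rw [aeval_X]
      rfl
    rw [e]
    rfl
  have hη0 : ∀ G : MvPolynomial (Fin (m + 1)) Ω, aeval η G = 0 ↔ G ∈ p := by
    intro G
    rw [hη, map_eq_zero_iff _ (IsFractionRing.injective R F), Ideal.Quotient.eq_zero_iff_mem]
  have halg := hLFD Ω F m 1 {G | G ∈ p ∧ ∃ d, G.IsHomogeneous d} (fun _ => u) η
    (fun G hG => hG.2)
    (by
      intro z hz hz2
      refine ⟨0, hno' z hz ?_⟩
      intro g hg
      rw [← MvPolynomial.sum_homogeneousComponent g, map_sum]
      refine Finset.sum_eq_zero fun n _ => hz2 _ ⟨hH g hg n, n, ?_⟩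
      exact homogeneousComponent_isHomogeneous n g)
    (fun G hG => (hη0 G).2 hG.1)
  have hind : AlgebraicIndependent Ω (fun i => aeval η (f i)) := by
    rw [algebraicIndependent_iff]
    intro H hHH
    apply hf H
    rw [← hη0]
    rw [← hHH]
    have e : (aeval (fun i => aeval η (f i)) : MvPolynomial (Fin 2) Ω →ₐ[Ω] F) =
        (aeval η : MvPolynomial (Fin (m + 1)) Ω →ₐ[Ω] F).comp (aeval f) := by
      apply MvPolynomial.algHom_ext
      intro i
      rw [aeval_X, AlgHom.comp_apply, aeval_X]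
    rw [e]
    rfl
  have h21 := hTRM Ω F 2 1 (fun i => aeval η (f i))
    (fun _ => ∑ c, algebraMap Ω F (u c) * η c) hind (fun j => HYP_alg _ η halg (f j))
  omega

end Pool.MPY
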