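import Pool.Agent.Work.MP_f82ddf_Y.Interface2

set_option autoImplicit false

/-! # Block NCL: a point which is not constant stays so under linear forms without common zero -/

open Pool.Agent.Work.MP_f82ddf_nt.DQ

namespace Pool.MPY

open MvPolynomial
open Pool.MPL (NC)

/-- Elements which are algebraic over a field generated by constants are constants. -/
private theorem NCL_const {F : Type} [Field F] [Algebra ℂ F] (S : Set F)
    (hS : ∀ x ∈ S, ∃ a : ℂ, x = algebraMap ℂ F a) (q : F)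
    (hq : IsAlgebraic (IntermediateField.adjoin ℂ S) q) : ∃ a : ℂ, q = algebraMap ℂ F a := by
  have h0 : Algebra.IsAlgebraic ℂ (IntermediateField.adjoin ℂ S) := by
    refine IntermediateField.isAlgebraic_adjoin fun x hx => ?_
    obtain ⟨a, ha⟩ := hS x hx
    rw [ha]
    exact isIntegral_algebraMap
  have h1 : IsAlgebraic ℂ q := hq.restrictScalars ℂ
  have h2 : IsIntegral ℂ q := isAlgebraic_iff_isIntegral.mp h1
  obtain ⟨z, hz⟩ := minpoly.mem_range_of_degree_eq_one ℂ q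
    (IsAlgClosed.degree_eq_one_of_irreducible ℂ (minpoly.irreducible h2))
  exact ⟨z, hz.symm⟩

/-- NCL -/
theorem p_NCL (hLFD : Pool.MPE.Stmt_LFD) (hDVL : Stmt_DVL) : Stmt_NCL := by
  intro m r p L hhom hL x hx hxp
  obtain ⟨i₀, i₁, hi₀, hi₁⟩ := hx
  have hx0 : x ≠ 0 := fun h => hi₀ (by rw [h]; rfl)
  have hy0 := (hDVL m r p L hhom hL x hx0 hxp).1
  obtain ⟨j₀, hj₀⟩ : ∃ j₀, ∑ i, algebraMap ℂ Mer (L j₀ i) * x i ≠ 0 := by
    by_contra hcon
    push Not at hcon
    exact hy0 (funext hcon)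
  by_contra hnc
  have hc : ∀ j, ∃ a : ℂ, ∑ i, algebraMap ℂ Mer (L j i) * x i =
      algebraMap ℂ Mer a * ∑ i, algebraMap ℂ Mer (L j₀ i) * x i := by
    intro j
    by_contra hcon
    push Not at hcon
    exact hnc ⟨j₀, j, hj₀, hcon⟩
  set y₀ : Mer := ∑ i, algebraMap ℂ Mer (L j₀ i) * x i with hy₀
  set x' : Fin (m + 1) → Mer := fun i => x i / y₀ with hx'
  have hxx : ∀ i, x i = y₀ * x' i := by
    intro i
    rw [hx']
    field_simp
  have hE : ∀ G ∈ {f | f ∈ p ∧ ∃ d, f.IsHomogeneous d}, aeval x' G = 0 := by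
    rintro G ⟨hG, d, hd⟩
    have h1 := hxp G hG
    have h2 : aeval x G = y₀ ^ d * aeval x' G := by
      have h3 : x = y₀ • x' := funext fun i => hxx i
      rw [h3, aeval_def, aeval_def, Pool.Agent.Work.MP_f82ddf_nt.eval₂_smul_hom hd]
    rw [h2] at h1
    rcases mul_eq_zero.1 h1 with h3 | h3
    · exact absurd h3 (pow_ne_zero d hj₀)
    · exact h3
  have hZ : ∀ u : Fin (m + 1) → ℂ, u ≠ 0 →
      (∀ G ∈ {f | f ∈ p ∧ ∃ d, f.IsHomogeneous d}, eval u G = 0) → ∃ i, ∑ c, L i c * u c ≠ 0 := by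
    intro u hu hG
    refine hL u hu fun f hf => ?_
    rw [← sum_homogeneousComponent f, map_sum]
    refine Finset.sum_eq_zero fun n _ => ?_
    exact hG _ ⟨hhom f hf n, n, homogeneousComponent_isHomogeneous n f⟩
  have halg := hLFD ℂ Mer m (r + 1) {f | f ∈ p ∧ ∃ d, f.IsHomogeneous d} L x'
    (fun G hG => hG.2) hZ hE
  have hconst : ∀ i, ∃ a : ℂ, x' i = algebraMap ℂ Mer a := by
    intro i
    refine NCL_const _ ?_ _ (halg i)
    rintro _ ⟨j, rfl⟩
    obtain ⟨a, ha⟩ := hc j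
    refine ⟨a, ?_⟩
    have h1 : y₀ * ∑ c, algebraMap ℂ Mer (L j c) * x' c = y₀ * algebraMap ℂ Mer a := by
      rw [Finset.mul_sum, mul_comm y₀ (algebraMap ℂ Mer a), ← ha]
      refine Finset.sum_congr rfl fun c _ => ?_
      rw [hxx c]
      ring
    exact mul_left_cancel₀ hj₀ h1
  obtain ⟨a, ha⟩ := hconst i₀
  obtain ⟨b, hb⟩ := hconst i₁
  have ha0 : a ≠ 0 := by
    rintro rfl
    apply hi₀
    rw [hxx, ha, map_zero, mul_zero]
  refine hi₁ (b / a) ?_
  rw [hxx i₁, hxx i₀, ha, hb, map_div₀]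
  have ha1 : algebraMap ℂ Mer a ≠ 0 := by
    intro h
    exact ha0 ((map_eq_zero_iff _ (algebraMap ℂ Mer).injective).1 h)
  field_simp

end Pool.MPY
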