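import Pool.Agent.Work.MP_f82ddf_Y.Interface

/-!
# Block RGA: the derivation maps the field of the generic point to itself
-/

open Pool.Agent.Work.MP_f82ddf_nt.DQ

namespace Pool.MPY

open MvPolynomial

theorem RGA_chain {F : Type} [Field F] [Algebra ℂ F] (D : Derivation ℂ F F) {n : ℕ}
    (z : Fin n → F) (H : MvPolynomial (Fin n) ℂ) :
    D (aeval z H) = ∑ i, aeval z (pderiv i H) * D (z i) := by
  induction H using MvPolynomial.induction_on with
  | C a => simp
  | add p q hp hq => simp [hp, hq, add_mul, Finset.sum_add_distrib]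
  | mul_X p i hp =>
    have h : ∀ j, aeval z (pderiv j (p * X i)) * D (z j) =
        z i * (aeval z (pderiv j p) * D (z j)) + (if i = j then aeval z p * D (z j) else 0) := by
      intro j
      rw [pderiv_mul, map_add, map_mul, map_mul, aeval_X]
      by_cases hij : i = j
      · subst hij
        rw [pderiv_X_self, map_one, if_pos rfl]
        ring
      · rw [pderiv_X_of_ne hij, map_zero, if_neg hij]
        ring
    simp only [h, Finset.sum_add_distrib, ← Finset.mul_sum, Finset.sum_ite_eq, Finset.mem_univ,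
      if_true]
    rw [map_mul, aeval_X, Derivation.leibniz, hp, smul_eq_mul, smul_eq_mul]
    ring

theorem p_RGA (hDDR : Stmt_DDR) (hMRL : Stmt_MRL) : Stmt_RGA := by
  intro F _ _ m β p q t y η D hp hq hpq hη htq htp hy hdim hDt hDy f
  have h1 := hDDR ℂ (Fin (m + 1)) p q hp hq hpq β y hy t htq htp
  have h2 : ¬ IndMod p (Fin.cons f (Fin.cons t y : Fin (β + 1) → MvPolynomial (Fin (m + 1)) ℂ) :
      Fin (β + 1 + 1) → MvPolynomial (Fin (m + 1)) ℂ) := by
    intro h
    have := hdim _ _ h
    omega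
  obtain ⟨H, hH, hH0⟩ := hMRL ℂ (Fin (m + 1)) (β + 1) p _ f h1 h2
  set w : Fin (β + 1 + 1) → MvPolynomial (Fin (m + 1)) ℂ :=
    Fin.cons f (Fin.cons t y : Fin (β + 1) → MvPolynomial (Fin (m + 1)) ℂ) with hw
  refine ⟨- aeval w (pderiv 1 H), aeval w (pderiv 0 H), hH0, ?_⟩
  have hc : ∀ G : MvPolynomial (Fin (β + 1 + 1)) ℂ,
      aeval η (aeval w G) = aeval (fun i => aeval η (w i)) G := fun G =>
    comp_aeval_apply (f := w) (aeval η) G
  have h3 : D (aeval η (aeval w H)) = 0 := by
    rw [(hη _).2 hH, map_zero]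
  rw [hc, RGA_chain, Fin.sum_univ_succ, Fin.sum_univ_succ] at h3
  have h4 : ∑ i : Fin β, aeval (fun i => aeval η (w i)) (pderiv i.succ.succ H) *
      D (aeval η (w i.succ.succ)) = 0 := by
    refine Finset.sum_eq_zero fun i _ => ?_
    have : w i.succ.succ = y i := by
      rw [hw, Fin.cons_succ, Fin.cons_succ]
    rw [this, hDy i, mul_zero]
  have h5 : w 0 = f := by rw [hw, Fin.cons_zero]
  have h6 : w (Fin.succ 0) = t := by rw [hw, Fin.cons_succ, Fin.cons_zero]
  rw [h4, add_zero, h5, h6, hDt, mul_one] at h3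
  rw [map_neg, hc, hc]
  have h7 : (Fin.succ 0 : Fin (β + 1 + 1)) = 1 := rfl
  rw [h7] at h3
  linear_combination h3

end Pool.MPY
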