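import Pool.Agent.Work.MP_f82ddf_Y.Interface4
import Pool.Agent.Work.MP_f82ddf_Y.B_T3S

set_option autoImplicit false

/-! # Block T3D: T3S with bounds for the degree (a copy of B_T3S by helper72) -/

open Pool.Agent.Work.MP_f82ddf_nt.DQ

namespace Pool.MPY

open MvPolynomial
open Pool.ThmM (NonProp HypData LastMonic)

theorem p_T3D : Pool.ThmM.Stmt_T3 → Stmt_T3D := by
  classical
  intro hT3 β m
  induction m with
  | zero =>
    refine ⟨2, 0, fun S hS hcard => ?_⟩
    exfalso
    obtain ⟨u, hu, v, hv, huv⟩ := Finset.one_lt_card.1 (show 1 < S.card by omega)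
    obtain ⟨h1, h2⟩ := hS u hu v hv huv (v 0) (u 0) (by
      funext i
      have hi : i = 0 := Fin.ext (by omega)
      rw [Pi.smul_apply, Pi.smul_apply, smul_eq_mul, smul_eq_mul, hi, mul_comm])
    apply huv
    funext i
    have hi : i = 0 := Fin.ext (by omega)
    rw [hi, h1, h2]
  | succ m ih =>
    obtain ⟨N, dm, hN⟩ := ih
    obtain ⟨N₁, dmax, h⟩ := hT3 (m + 1) (fun w d => β (m + 1) w d + N)
    refine ⟨N₁, max dmax dm, fun S hS hcard => ?_⟩
    obtain ⟨w, d, Q, A, T, lift, hH, hdm, hTS, hTc, hdiv⟩ := h S hS hcard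
    by_cases hspan : ∀ y : Fin (m + 1 + 1) → ℂ, (∀ u ∈ T, ∑ i, u i * y i = 0) → y = 0
    · refine ⟨m + 1, w, d, Q, A, T, lift, fun j => Pi.single j 1, le_rfl,
        hdm.trans (le_max_left _ _), hH, by omega,
        fun e f he => hdiv e f (by omega), hspan, ?_, ?_⟩
      · exact Pi.linearIndependent_single_one _ ℂ
      · intro u hu
        have : (fun i => ∑ j, u j * (Pi.single j (1 : ℂ) : Fin (m + 1 + 1) → ℂ) i) = u := by
          funext i
          rw [Finset.sum_eq_single i]
          · rw [Pi.single_eq_same, mul_one]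
          · intro j _ hj
            rw [Pi.single_eq_of_ne hj.symm, mul_zero]
          · intro h
            exact absurd (Finset.mem_univ i) h
        rw [this]
        exact hTS hu
    · push Not at hspan
      obtain ⟨y, hy, hy0⟩ := hspan
      obtain ⟨ψ, hψ, hψT⟩ := T3S_orth y hy0
      set T' : Finset (Fin (m + 1) → ℂ) := T.preimage ψ hψ.injOn with hT'
      have hcT' : T'.card = T.card := by
        rw [hT', Finset.card_preimage, Finset.filter_true_of_mem]
        intro u hu
        exact hψT u (hy u hu)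
      obtain ⟨r, w', d', Q', A', T'', lift', L'', hr, hd', h1, h2, h3, h4, h5, h6⟩ := hN T' (by
        intro u hu v hv huv a b hab
        rw [hT', Finset.mem_preimage] at hu hv
        refine hS _ (hTS hu) _ (hTS hv) (fun h => huv (hψ h)) a b ?_
        rw [← map_smul, ← map_smul, hab]) (by omega)
      refine ⟨r, w', d', Q', A', T'', lift', fun j => ψ (L'' j), by omega,
        hd'.trans (le_max_right _ _), h1, h2, h3, h4, ?_, ?_⟩
      · exact h5.map' ψ (LinearMap.ker_eq_bot.2 hψ)
      · intro u hu
        have h7 := h6 u hu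
        rw [hT', Finset.mem_preimage, T3S_sum, map_sum] at h7
        rw [T3S_sum]
        simp only [map_smul] at h7
        exact hTS h7

end Pool.MPY
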