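import Pool.Agent.Work.MP_f82ddf_Y.Interface2
import Pool.Agent.Work.MP_f82ddf_M1.B_VAL

set_option autoImplicit false

/-! # Block TGY: entire curves in projective space and multiplicities of hyperplanes -/

open Pool.Agent.Work.MP_f82ddf_nt.DQ

namespace Pool.MPY

open MvPolynomial Topology Filter
open Pool.Agent.Work.MP_f82ddf_nt (PSpace HolomorphicOn eval₂_smul_hom)
open Pool.ThmM (rep vec om dv dv1)
open Pool.MPV (Ful)

theorem TGY_nn (m : ℤ) (a : WithTop ℤ) (ha : 0 ≤ a) :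
    ((-m : ℤ) : WithTop ℤ) ≤ ((-m : ℤ) : WithTop ℤ) + a := by
  have h := add_le_add_right ha ((-m : ℤ) : WithTop ℤ)
  simpa using h

theorem p_TGY (_hREP : Pool.ThmM.Stmt_REP) (hALG : Pool.ThmM.Stmt_ALG)
    (hPOL : Pool.ThmM.Stmt_POL) (hORD : Pool.ThmM.Stmt_ORD) (hVAL : Pool.ThmM.Stmt_VAL) :
    Stmt_TGY := by
  intro b kk u f hf hT φ hφ i hi hrep z₀
  classical
  set y : Fin (b + 1) → Mer := fun j => Mer.mk (φ j) (hφ j) with hy
  obtain ⟨g, hga, hgf⟩ := hf z₀ (Set.mem_univ z₀)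
  have hg0 : g z₀ ≠ 0 := hgf.self_of_nhds.1
  have hord := hT z₀ g hga hg0 (hgf.mono fun z hz => ⟨hz.1, hz.2⟩)
  have hgj : ∀ j, AnalyticAt ℂ (fun z => g z j) z₀ := fun j => (analyticAt_pi_iff.1 hga) j
  -- the form
  obtain ⟨G, hGdef⟩ : ∃ G : MvPolynomial (Fin (b + 1)) ℂ, G = ∑ j, C (u j) * X j := ⟨_, rfl⟩
  have hG : G.IsHomogeneous 1 := by
    rw [hGdef]
    refine IsHomogeneous.sum _ _ _ fun j _ => ?_
    have h := (isHomogeneous_C (Fin (b + 1)) (u j)).mul (isHomogeneous_X ℂ j)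
    simpa using h
  have hGy : aeval y G = ∑ j, algebraMap ℂ Mer (u j) * y j := by
    rw [hGdef]
    simp
  have hGg : ∀ w : Fin (b + 1) → ℂ, eval w G = ∑ j, u j * w j := by
    intro w
    rw [hGdef]
    simp
  -- representatives
  have hφrep : ∀ j, rep (y j) =ᶠ[𝓝[≠] z₀] φ j := fun j =>
    Pool.ThmM.VAL.evNE (hALG.1 (y j) (φ j) (hφ j) rfl) z₀
  have hφi : ∀ᶠ z in 𝓝[≠] z₀, φ i z = 1 := by
    rw [← map_one (algebraMap ℂ Mer), Mer.algebraMap_eq, Mer.mk_eq_mk] at hi
    exact hi z₀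
  have hgz : ∀ᶠ z in 𝓝[≠] z₀, g z i ≠ 0 ∧ ∀ j, φ j z = (g z i)⁻¹ * g z j := by
    filter_upwards [hφi, hrep z₀, nhdsWithin_le_nhds hgf] with z a1 a2 a3
    obtain ⟨c, hc, a2⟩ := a2
    obtain ⟨b1, b2⟩ := a3
    obtain ⟨d, hd⟩ := Projectivization.exists_smul_eq_mk_rep ℂ (g z) b1
    have h3 : ∀ j, (d : ℂ) * g z j = c * φ j z := by
      intro j
      have h4 := a2 j
      rw [b2, ← hd] at h4
      exact h4
    have h6 : (d : ℂ) ≠ 0 := d.ne_zero
    have h7 := h3 i
    rw [a1, mul_one] at h7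
    have h8 : g z i ≠ 0 := by
      intro h
      rw [h, mul_zero] at h7
      exact hc h7.symm
    refine ⟨h8, fun j => ?_⟩
    have h9 := h3 j
    rw [← h7] at h9
    have h10 : g z j = g z i * φ j z := by
      apply mul_left_cancel₀ h6
      rw [h9]
      ring
    rw [h10, inv_mul_cancel_left₀ h8]
  -- the order of the coordinate i
  have hutop : analyticOrderAt (fun z => g z i) z₀ ≠ ⊤ := by
    intro h
    rw [analyticOrderAt_eq_top] at h
    obtain ⟨z, hz1, hz2⟩ := (hgz.and (h.filter_mono nhdsWithin_le_nhds)).exists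
    exact hz1.1 hz2
  obtain ⟨m, hm⟩ := ENat.ne_top_iff_exists.1 hutop
  have hum : meromorphicOrderAt (fun z => g z i) z₀ = ((m : ℤ) : WithTop ℤ) := by
    rw [(hgj i).meromorphicOrderAt_eq, ← hm]
    rfl
  have huinv : meromorphicOrderAt (fun z => (g z i)⁻¹) z₀ = ((-(m : ℤ) : ℤ) : WithTop ℤ) := by
    have h := meromorphicOrderAt_inv (f := fun z => g z i) (x := z₀)
    rw [hum] at h
    exact h
  have hom : ∀ j, om (y j) z₀ = ((-(m : ℤ) : ℤ) : WithTop ℤ) +
      meromorphicOrderAt (fun z => g z j) z₀ := by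
    intro j
    have h1 : om (y j) z₀ = meromorphicOrderAt (fun z => (g z i)⁻¹ * g z j) z₀ := by
      refine meromorphicOrderAt_congr ?_
      filter_upwards [hφrep j, hgz] with z h1 h2
      rw [h1, h2.2 j]
    rw [h1, ← huinv]
    exact meromorphicOrderAt_mul (hgj i).meromorphicAt.inv (hgj j).meromorphicAt
  have hnn : ∀ j, 0 ≤ meromorphicOrderAt (fun z => g z j) z₀ := fun j =>
    (hgj j).meromorphicOrderAt_nonneg
  -- the order of the tuple
  obtain ⟨-, -, hvtop, -, hvdv, -⟩ := hVAL z₀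
  have hyi : y i = 1 := hi
  have hy0 : y ≠ 0 := by
    intro h
    rw [h] at hyi
    exact zero_ne_one hyi
  obtain ⟨hd1, k, hk0, hk⟩ := (hORD (Fin (b + 1)) y).2 hy0 z₀
  obtain ⟨l, hl⟩ : ∃ l, g z₀ l ≠ 0 := by
    by_contra hcon
    push Not at hcon
    exact hg0 (funext hcon)
  have hol : om (y l) z₀ = ((-(m : ℤ) : ℤ) : WithTop ℤ) := by
    rw [hom l, (hgj l).meromorphicOrderAt_eq, (hgj l).analyticOrderAt_eq_zero.2 hl]
    simp
  have hyl : y l ≠ 0 := by
    intro h
    rw [(hvtop _).2 h] at hol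
    exact WithTop.coe_ne_top hol.symm
  have hdv : dv y z₀ = -(m : ℤ) := by
    apply le_antisymm
    · have h1 := hd1 l hyl
      have h2 := hvdv (y l) hyl
      rw [hol] at h2
      have h3 : (-(m : ℤ)) = dv1 (y l) z₀ := by exact_mod_cast h2
      rw [h3]
      exact h1
    · rw [← hk]
      have h2 := hvdv (y k) hk0
      rw [hom k] at h2
      have h3 := TGY_nn m _ (hnn k)
      rw [h2] at h3
      exact_mod_cast h3
  -- the value of the form
  have hGa : AnalyticAt ℂ (fun z => eval (g z) G) z₀ := by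
    have h3 : (fun z => eval (g z) G) = fun z => ∑ j, u j * g z j := by
      funext z
      rw [hGg]
    rw [h3]
    refine Finset.analyticAt_fun_sum _ fun j _ => ?_
    exact AnalyticAt.mul analyticAt_const (hgj j)
  have hGo : om (aeval y G) z₀ = ((-(m : ℤ) : ℤ) : WithTop ℤ) +
      meromorphicOrderAt (fun z => eval (g z) G) z₀ := by
    rw [Pool.ThmM.VAL.om_congr (hPOL (Fin (b + 1)) G y) z₀]
    have h1 : meromorphicOrderAt (fun z => eval (vec y z) G) z₀ =
        meromorphicOrderAt (fun z => (g z i)⁻¹ * eval (g z) G) z₀ := by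
      refine meromorphicOrderAt_congr ?_
      filter_upwards [eventually_all.2 hφrep, hgz] with z h1 h2
      have h3 : vec y z = (g z i)⁻¹ • g z := by
        funext j
        show rep (y j) z = (g z i)⁻¹ * g z j
        rw [h1 j, h2.2 j]
      rw [h3]
      have h4 := eval₂_smul_hom hG (RingHom.id ℂ) (g z) (g z i)⁻¹
      rw [pow_one] at h4
      exact h4
    rw [h1, ← huinv]
    exact meromorphicOrderAt_mul (hgj i).meromorphicAt.inv hGa.meromorphicAt
  have hGG : (fun z => ∑ i, u i * g z i) = fun z => eval (g z) G := by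
    funext z
    rw [hGg]
  rw [hGG] at hord
  have hz0 : ∑ i, u i * g z₀ i = eval (g z₀) G := (hGg (g z₀)).symm
  rw [hz0] at hord
  show om (∑ i, algebraMap ℂ Mer (u i) * y i) z₀ = ((dv y z₀ : ℤ) : WithTop ℤ) ∨
    ((dv y z₀ + kk : ℤ) : WithTop ℤ) ≤ om (∑ i, algebraMap ℂ Mer (u i) * y i) z₀
  rw [← hGy, hGo, hdv, hGa.meromorphicOrderAt_eq]
  by_cases hzero : eval (g z₀) G = 0
  · right
    have hord2 := hord hzero
    cases ha : analyticOrderAt (fun z => eval (g z) G) z₀ with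
    | top => simp
    | coe a =>
      rw [ha] at hord2
      have h2 : kk ≤ a := by exact_mod_cast hord2
      have h3 : (((a : ℕ) : ℕ∞).map (fun n : ℕ => (n : ℤ)) : WithTop ℤ) = ((a : ℤ) : WithTop ℤ) := rfl
      rw [h3]
      norm_cast
      have h4 : (kk : ℤ) ≤ (a : ℤ) := by exact_mod_cast h2
      linarith
  · left
    rw [hGa.analyticOrderAt_eq_zero.2 hzero]
    simp

end Pool.MPY
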