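import Pool.Agent.Work.MP_f82ddf_Y.Interface3

set_option autoImplicit false

/-! # THEOREM T (MP_f82ddf_nt), block VIN (helper16): independence under the Veronese map -/

open Pool.Agent.Work.MP_f82ddf_nt.DQ

namespace Pool.MPY

open MvPolynomial

theorem VIN_expand {F : Type} [Field F] {n E : ℕ} (hE : 1 ≤ E) (H : MvPolynomial (Fin n) F)
    (h : expand E H = 0) : H = 0 := by
  ext μ
  rw [coeff_zero, ← coeff_expand_smul (p := E) (by omega), h, coeff_zero]

/-- Block VIN. -/
theorem p_VIN : Stmt_DCO → Stmt_VIN := by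
  intro hDCO Ω _ b t E ε hε hE p hp hf
  have h1 : ∃ s : Fin 2 → Fin (b + 1),
      IndMod p (fun i => (X (s i) : MvPolynomial (Fin (b + 1)) Ω)) := by
    by_contra hc
    have h2 := hDCO Ω b 1 p hp (fun s hs => hc ⟨s, hs⟩)
    obtain ⟨f, hf⟩ := hf
    have := h2 2 f hf
    omega
  obtain ⟨s, hs⟩ := h1
  have h3 : ∀ i, ∃ c, ε c = Finsupp.single (s i) E := by
    intro i
    exact (hε.2 (Finsupp.single (s i) E)).1 (by simp [Finsupp.single_apply])
  choose c hc using h3
  refine ⟨fun i => X (c i), ?_⟩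
  intro H hH
  rw [Ideal.mem_comap] at hH
  have h4 : vr ε (aeval (fun i => (X (c i) : MvPolynomial (Fin (t + 1)) Ω)) H) =
      aeval (fun i => (X (s i) : MvPolynomial (Fin (b + 1)) Ω)) (expand E H) := by
    have h5 : ((vr ε : MvPolynomial (Fin (t + 1)) Ω →ₐ[Ω] MvPolynomial (Fin (b + 1)) Ω).comp
        (aeval (fun i => (X (c i) : MvPolynomial (Fin (t + 1)) Ω)))) =
        (aeval (fun i => (X (s i) : MvPolynomial (Fin (b + 1)) Ω))).comp (expand E) := by
      apply MvPolynomial.algHom_ext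
      intro i
      simp only [AlgHom.comp_apply, aeval_X, expand_X, map_pow]
      rw [vr, aeval_X, hc, X_pow_eq_monomial]
    exact DFunLike.congr_fun h5 H
  have h6 := hs (expand E H) (by rw [← h4]; exact hH)
  exact VIN_expand hE H h6

end Pool.MPY
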