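import Pool.Agent.Work.MP_f82ddf_W.Interface
import Pool.Agent.Work.MP_f82ddf_E.Optimal

set_option autoImplicit false

/-! # THEOREM T (MP_f82ddf_nt): arbitrary target varieties, part 1

Folder `Pool/Agent/Work/MP_f82ddf_Y`, table `mpy_blocks`.  Block file `B_X.lean`: import this file
(and other block files for auxiliary lemmas), namespace `Pool.MPY`, final theorem
`p_X : Stmt_A → Stmt_B → .. → Stmt_X` with the blocks of the column `uses` as hypotheses, in that
order; all other lemmas with the prefix `X_`.  In the column `uses` a prefix means another project: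
`W.` = `Pool.MPW.Stmt_`, `V.` = `Pool.MPV.Stmt_`, `U.` = `Pool.MPL.Stmt_`, `E.` = `Pool.MPE.Stmt_`,
`P.` = `Pool.ThmP.Stmt_`, `M0.` = `Pool.ThmM0.Stmt_`, `M1.` = `Pool.ThmM.Stmt_`, `M2.T3` =
`Pool.ThmM.Stmt_T3`, `M3.` = `Pool.ThmM.Chow.Stmt_`, `M5.` = `Pool.Agent.Work.MP_f82ddf_M5.Stmt_`.

RESULT.  Let `Y` be an irreducible closed subset of `P^m` over the algebraic closure of a number
field and `l_0, .., l_N` linear forms, at most `c` of which vanish at any point of `Y`.  There are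
finitely many irreducible closed subsets `W_i` of `Y` such that on each of them at most `N₁(m, c)` of the
`l_j` have only components of multiplicity `< k`, and such that every entire curve which is not
constant, in any variety `X` with a finite morphism `g : X → Y` for which all the pull backs `g^* l_j`
have only multiplicities at least `k`, is contained in one of the `g⁻¹(W_i)`.

IDEA.  Let `p` be the prime ideal of a closed subset `V(p)` of `Y` on which many of the `l_j` have a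
multiplicity `< k`.  The core (Theorem V) gives a hypersurface `Q = 0` parametrizing many `l_j = l_u`
(`A(v₀) = c u`), and for every curve `x` in `V(p)` a moving factor `P` with `P ^ k ∣ Phi(x)`.  We show
that for the generic point `η` of `V(p)` there is no such `P`.  Otherwise let `v` be the generic point
on `Q = 0` of the component given by `P`; then `∑ A_i(v) D ^ j (η_i) = 0` for all derivations `D` and
`j < k` (ODR).  Let the point `v` specialise to `v₀`, such that `η` specialises to the generic point of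
a component `q` of `V(p) ∩ (l_u = 0)`, with local parameter `t`, `l_u = (unit) t ^ e`, `e < k`; for the
derivation `D` with `D t = 1` the equation for `j = e` specialises to `e! (unit) = 0`. -/

open Pool.Agent.Work.MP_f82ddf_nt.DQ

namespace Pool.MPY

open MvPolynomial
open Pool.Agent.Work.MP_f82ddf_M5 (lineAt resAt chow at2 comb Data)
open Pool.ThmM (NonProp HypData LastMonic)
open Pool.MPL (RX NC aq ae NPr Spn inc f0 fR gR)
open Pool.MPW (pv OrdGE)

/-- The linear form `∑ u_i X_i`. -/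
noncomputable def lf {F : Type} [CommRing F] {m : ℕ} (u : Fin (m + 1) → F) :
    MvPolynomial (Fin (m + 1)) F := ∑ i, C (u i) * X i

/-- The ideal is homogeneous. -/
def Hmg {F : Type} [CommRing F] {m : ℕ} (I : Ideal (MvPolynomial (Fin (m + 1)) F)) : Prop :=
  ∀ f ∈ I, ∀ n, homogeneousComponent n f ∈ I

/-- The `f i` are algebraically independent modulo `p`. -/
def IndMod {F σ : Type} [CommRing F] (p : Ideal (MvPolynomial σ F)) {n : ℕ}
    (f : Fin n → MvPolynomial σ F) : Prop :=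
  ∀ H : MvPolynomial (Fin n) F, aeval f H ∈ p → H = 0

/-- At most `n` elements are algebraically independent modulo `p`. -/
def DimLE {F σ : Type} [CommRing F] (p : Ideal (MvPolynomial σ F)) (n : ℕ) : Prop :=
  ∀ (n' : ℕ) (f : Fin n' → MvPolynomial σ F), IndMod p f → n' ≤ n

/-- All the components `q` of the intersection of `V(p)` with the hypersurface `l = 0` are simple in
the following sense: `V(p)` is regular at the generic point of `q` (with local parameter `t`), and `l`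
has multiplicity less than `k` along `q`. -/
def Low {F : Type} [Field F] {m : ℕ} (k : ℕ) (p : Ideal (MvPolynomial (Fin (m + 1)) F))
    (l : MvPolynomial (Fin (m + 1)) F) : Prop :=
  ∀ q ∈ (p ⊔ Ideal.span {l}).minimalPrimes, ∃ t ∈ q,
    (∀ f ∈ q, ∃ h ∉ q, h * f ∈ p ⊔ Ideal.span {t}) ∧ ∀ h ∉ q, h * l ∉ p ⊔ Ideal.span {t ^ k}

/-! ## A. The generic point of a component -/

/-- GPV (100 lines), uses U.FPR M5.RES.  The point `v = pv b s` is generic on `Q = 0` over `ℂ`.  PROOF.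
Suppose `Q ∤ H`.  By FPR `f₀ = f0 Q` is prime and does not divide `f0 H`.  M5.RES: the resultant `ρ` of
`f₀` and `f0 H` (formal degrees the true ones) is not `0`, and `C ρ = p f₀ + q (f0 H)`
(`Polynomial.exists_mul_add_mul_eq_C_resultant`; `f₀` has degree `d ≥ 1`).  Apply the homomorphism to
`F` with `X p ↦ b p`, `s ↦ s` (`Polynomial.eval₂` of `eval₂Hom ((algebraMap M F).comp (algebraMap ℂ M)) b`),
which maps `f0 G` to the value of `G` at `pv b s`: `ρ(b) = 0`, so `P ∣ map (algebraMap ℂ M) ρ`, a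
contradiction.  (Compare `MP_f82ddf_W/B_GPA.lean`, `B_DSF.lean`.) -/
def Stmt_GPV : Prop :=
  ∀ (M F : Type) [Field M] [Field F] [Algebra ℂ M] [Algebra M F] (N d : ℕ)
    (Q : MvPolynomial (Fin N) ℂ) (P : MvPolynomial (Fin 2 × Fin N) M) (b : Fin 2 × Fin N → F)
    (s : F), Irreducible Q → Q.IsHomogeneous d →
    (∀ H : MvPolynomial (Fin 2 × Fin N) M, eval₂ (algebraMap M F) b H = 0 ↔ P ∣ H) →
    (∀ H : MvPolynomial (Fin 2 × Fin N) ℂ, H ≠ 0 → ¬ P ∣ map (algebraMap ℂ M) H) →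
    eval₂ (algebraMap M F) (pv b s) (map (algebraMap ℂ M) Q) = 0 →
    ∀ H : MvPolynomial (Fin N) ℂ,
      eval₂ (algebraMap M F) (pv b s) (map (algebraMap ℂ M) H) = 0 → Q ∣ H

/-- GPT (120 lines), uses W.TRM.  Among the coordinates of `v = pv b s` there are `w` algebraically
independent ones over `M`.  PROOF.  Let `B` be a maximal set of indices for which the `v_j`, `j ∈ B`, are
algebraically independent over `M`, with `ρ` elements.  All the `v_j` are algebraic over the field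
generated over `M` by them.  `P` contains some variable `p₀` (an irreducible polynomial is not a
constant), and the `2 w + 3` elements `b p`, `p ≠ p₀`, are algebraically independent over `M` (see part
(2) of the docstring of W.GPC and `MP_f82ddf_W/B_GPC.lean`).  All the `b p` are algebraic over the field
generated by the `ρ` elements `v_j`, `j ∈ B`, the `w + 2` elements `b (0, j)` and `s`
(`b (1, j) = v_j - s b (0, j)`).  TRM: `2 w + 3 ≤ ρ + w + 3`, so `w ≤ ρ`. -/
def Stmt_GPT : Prop :=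
  ∀ (M F : Type) [Field M] [Field F] [Algebra M F] (w : ℕ)
    (P : MvPolynomial (Fin 2 × Fin (w + 2)) M) (b : Fin 2 × Fin (w + 2) → F) (s : F),
    Irreducible P →
    (∀ H : MvPolynomial (Fin 2 × Fin (w + 2)) M, eval₂ (algebraMap M F) b H = 0 ↔ P ∣ H) →
    ∃ ι : Fin w → Fin (w + 2), AlgebraicIndependent M (fun i => pv b s (ι i))

/-- GPO (150 lines), uses W.GPA W.GPB W.GPC M3.CHP M3.PFA M5.FUN W.ABS W.NDX W.CNZ W.OVF GPV GPT.
The generic point of a component of multiplicity `k`.  PROOF.  The first half of the proof of `p_PWT`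
in `MP_f82ddf_W/B_PWT.lean` (up to `hord`; import that file or copy the two lemmas `PWT_comb_map`,
`PWT_comb_hom`), with `q + 2` replaced by `k ≥ 1`; `algebraMap ℂ F` is the composition.  `v = pv b s`;
the generic point property is GPV, the algebraically independent coordinates GPT. -/
def Stmt_GPO : Prop :=
  ∀ (M : Type) [Field M] [Algebra ℂ M] (w r d k : ℕ) (Q : MvPolynomial (Fin (w + 2)) ℂ)
    (A : Fin (r + 1) → MvPolynomial (Fin (w + 2)) ℂ), Data (w + 2) r d d Q A → 1 ≤ k →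
    ∀ (x : Fin (r + 1) → M) (P : MvPolynomial (Fin 2 × Fin (w + 2)) M), x ≠ 0 → Irreducible P →
      (∀ H : MvPolynomial (Fin 2 × Fin (w + 2)) ℂ, H ≠ 0 → ¬ P ∣ map (algebraMap ℂ M) H) →
      P ^ k ∣ chow d d (map (algebraMap ℂ M) Q) (comb (algebraMap ℂ M) A x) →
      ∃ (F : Type) (_ : Field F) (_ : Algebra M F) (_ : Algebra ℂ F) (v : Fin (w + 2) → F),
        algebraMap ℂ F = (algebraMap M F).comp (algebraMap ℂ M) ∧
        (∀ H : MvPolynomial (Fin (w + 2)) ℂ, aeval v H = 0 → Q ∣ H) ∧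
        aeval v Q = 0 ∧
        (∃ ι : Fin w → Fin (w + 2), AlgebraicIndependent M (fun i => v (ι i))) ∧
        OrdGE (map (algebraMap ℂ F) Q) v k
          (comb (algebraMap ℂ F) A (fun i => algebraMap M F (x i)))

/-- ODR (130 lines).  The rule for orders for a derivation of the coefficients.  PROOF.  Let `δ` be the
coefficientwise extension of `D` to `F[X]`: additive, `δ (f g) = f δ g + g δ f`, `δ (X i) = 0`,
`δ (map f) = 0` for complex `f` (see the lemmas on `dz`, M1.DZR, in `MP_f82ddf_M1`; for example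
`δ f = ∑ over the support of monomial μ (D (coeff μ f))`).  For the ideal `𝔪 = ker (eval v)`,
generated by the `X i - C (v i)`, `δ (𝔪 ^ (j + 1)) ⊆ 𝔪 ^ j` by the product rule (any additive map with the
product rule), and `δ (a Q) = Q δ a`.  So as in W.OWR (1) (`MP_f82ddf_W/B_OWR.lean`): `h g = μ + a Q` gives
`h ^ 2 δ g = h δ μ + h Q δ a - (μ + a Q) δ h ∈ 𝔪 ^ j + (Q)`, so `OrdGE Q v (j + 1) g` implies
`OrdGE Q v j (δ g)`.  `δ (comb A x) = comb A (D ∘ x)`.  By induction the polynomial `comb A (D^[j] ∘ x)` has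
order `≥ k - j`, so for `j < k` order `≥ 1`, and so its value at `v` is `0` (`h(v) g(v) = 0`). -/
def Stmt_ODR : Prop :=
  ∀ (F : Type) [Field F] [Algebra ℂ F] (N n k : ℕ) (Q : MvPolynomial (Fin N) ℂ)
    (A : Fin (n + 1) → MvPolynomial (Fin N) ℂ) (v : Fin N → F) (D : Derivation ℂ F F)
    (x : Fin (n + 1) → F), aeval v Q = 0 →
    OrdGE (map (algebraMap ℂ F) Q) v k (comb (algebraMap ℂ F) A x) →
    ∀ j < k, ∑ i, D^[j] (x i) * aeval v (A i) = 0

/-! ## B. Transcendence degrees and linear forms -/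

/-- DDR (80 lines).  The dimension drops.  PROOF.  Let `H ≠ 0` with `aeval (Fin.cons g f) H ∈ p`.  Write
`H = X_0 ^ a * H₁` with `X_0 ∤ H₁`.  `g ^ a * H₁(g, f) ∈ p`, `g ∉ p`, so `H₁(g, f) ∈ p ⊆ q`, and modulo `q`
(`g ∈ q`) it is `H₁(0, f)`: the polynomial `H₁(0, ·)` (apply `aeval (Fin.cons 0 X)`) is not `0` because
`X_0 ∤ H₁`, and `aeval f` of it is in `q`, a contradiction. -/
def Stmt_DDR : Prop :=
  ∀ (Ω σ : Type) [Field Ω] (p q : Ideal (MvPolynomial σ Ω)), p.IsPrime → q.IsPrime → p ≤ q →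
    ∀ (n : ℕ) (f : Fin n → MvPolynomial σ Ω), IndMod q f →
    ∀ g ∈ q, g ∉ p → IndMod p (Fin.cons g f : Fin (n + 1) → MvPolynomial σ Ω)

/-- TDG (80 lines), uses W.TRM.  The dimension is finite.  PROOF.  In the field of fractions `κ` of
`MvPolynomial σ Ω ⧸ p` the images of `IndMod` elements are algebraically independent over `Ω` and all of
them are algebraic over (even in) the field generated by the images of the `X i`, `i : σ`.  TRM: their
number is at most `Nat.card σ`.  Take the largest number (`n = 0` is possible because `p ≠ ⊤`). -/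
def Stmt_TDG : Prop :=
  ∀ (Ω σ : Type) [Field Ω] [Finite σ] (p : Ideal (MvPolynomial σ Ω)), p.IsPrime →
    ∃ n : ℕ, (∃ f : Fin n → MvPolynomial σ Ω, IndMod p f) ∧ DimLE p n

/-- CMP (60 lines), uses DDR.  Components of a hypersurface section.  PROOF.  Let `q'` be a prime with
`p ⊔ (l) ≤ q' ≤ q` and suppose `q' ≠ q`; `g ∈ q`, `g ∉ q'`.  DDR twice: `Fin.cons g y` is independent
modulo `q'`, `Fin.cons l (Fin.cons g y)` modulo `p`, `β + 2` elements, a contradiction.  Second claim: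
if `Fin.cons f y` is independent modulo `q`, then `Fin.cons l (Fin.cons f y)` modulo `p`. -/
def Stmt_CMP : Prop :=
  ∀ (Ω σ : Type) [Field Ω] (β : ℕ) (p q : Ideal (MvPolynomial σ Ω)) (l : MvPolynomial σ Ω)
    (y : Fin β → MvPolynomial σ Ω), p.IsPrime → q.IsPrime → DimLE p (β + 1) → p ≤ q → l ∈ q →
    l ∉ p → IndMod q y →
    q ∈ (p ⊔ Ideal.span {l}).minimalPrimes ∧
      ∀ f, ¬ IndMod q (Fin.cons f y : Fin (β + 1) → MvPolynomial σ Ω)

/-- YEX (200 lines), uses DDR.  Linear forms without common zero.  PROOF.  CLAIM: let `I` be a homogeneous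
ideal such that `DimLE q n` for all primes `q ≥ I`; then there are `n` linear forms without common
zero `z ≠ 0` on `V(I)`.  Apply it to `I = p ⊔ (lf l)`: a prime `q ≥ I` contains `p` and `lf l ∉ p`, so
`DimLE q β` by DDR.  PROOF OF THE CLAIM by induction on `n`.  `n = 0`: let `z ≠ 0` be in `V(I)`, `z_i ≠ 0`;
the kernel `q` of `X_j ↦ z_j s`, `Ω[X] → Ω[s]`, is a prime which contains `I` (`I` is homogeneous) and
`![X_i]` is independent modulo `q`, a contradiction.  STEP: for each of the finitely many minimal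
primes `q` of `I` (`Ideal.finite_minimalPrimes_of_isNoetherianRing`) which does not contain all the
variables, `{a | lf a ∈ q}` is a proper subspace of `Ω^(m+1)`; a vector space over an infinite field
is not a finite union of proper subspaces (`Subspace.biUnion_ne_univ_of_top_nmem` or similar), so there
is `a` with `lf a ∉ q` for all of these `q`.  `I' = I ⊔ (lf a)` is homogeneous.  Let `q'` be a prime
`≥ I'`; it contains a minimal prime `q` of `I`.  If `lf a ∉ q`, DDR gives `DimLE q' (n - 1)`.  Otherwise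
`q` contains all the variables, so does `q'`, every polynomial is a constant modulo `q'`, and
`DimLE q' 0`.  Induction for `I'`. -/
def Stmt_YEX : Prop :=
  ∀ (Ω : Type) [Field Ω] [IsAlgClosed Ω] (m β : ℕ) (p : Ideal (MvPolynomial (Fin (m + 1)) Ω))
    (l : Fin (m + 1) → Ω), p.IsPrime → Hmg p → DimLE p (β + 1) → lf l ∉ p →
    ∃ y : Fin β → Fin (m + 1) → Ω, ∀ z : Fin (m + 1) → Ω, (∀ f ∈ p, eval z f = 0) →
      ∑ i, l i * z i = 0 → (∀ i, ∑ j, y i j * z j = 0) → z = 0

/-- TIN (100 lines), uses W.TRM.  PROOF.  The `β + 1 + w` elements `t_i` (in `F`) and `v (ι j)` are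
algebraically independent over `ℂ` (the `t_i` are in `M`, the `v (ι j)` are independent over `M`;
`AlgebraicIndependent.sumElim` or `AlgebraicIndependent` towers, see W.TRM-like arguments in
`MP_f82ddf_W`).  `v_last` is algebraic over the field generated by `v_0, .., v_w`
(`LastMonic`, `Q(v) = 0`).  Suppose that the `y_i` are not algebraically independent over
`E = ℂ(v)`: then some `y_(i₀)` is algebraic over `E` and the other `β - 1` of them
(`AlgebraicIndependent` matroid, or: if the family is not independent, a maximal independent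
subfamily is proper).  Then all the `β + 1 + w` elements are algebraic over the field generated over
`ℂ` by `v_0, .., v_w` and `β - 1` elements `y_i`, against TRM (`β + 1 + w ≤ w + 1 + β - 1`).  (For `β = 0` the
claim is trivial.) -/
def Stmt_TIN : Prop :=
  ∀ (M F : Type) [Field M] [Field F] [Algebra ℂ M] [Algebra M F] [Algebra ℂ F]
    [IsScalarTower ℂ M F] (w d β : ℕ) (Q : MvPolynomial (Fin (w + 2)) ℂ) (v : Fin (w + 2) → F)
    (ι : Fin w → Fin (w + 2)) (t : Fin (β + 1) → M) (y : Fin β → F),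
    LastMonic w d Q → aeval v Q = 0 → AlgebraicIndependent M (fun i => v (ι i)) →
    AlgebraicIndependent ℂ t →
    (∀ i, IsAlgebraic (IntermediateField.adjoin ℂ (Set.range v ∪ Set.range y))
      (algebraMap M F (t i))) →
    AlgebraicIndependent (IntermediateField.adjoin ℂ (Set.range v)) y

/-! ## C. Places -/

/-- NPL (130 lines), uses P.NUL.  Where the linear forms `y_i` have poles at least as bad as the
coordinates.  PROOF.  Choose `k'` with `η_(k') ≠ 0` and `η_j / η_(k') ∈ V` for all `j` (maximal valuation: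
`Finset.exists_max_image` for `V.valuation`; `η ≠ 0`).  Let `z_j` be the residue of `η_j / η_(k')` in the
residue field `κ` of `V` (a field with a homomorphism `θ : ℂ → κ`, because `V` contains the constants);
`z_(k') = 1`.  For forms `f ∈ p`: `f(z) = 0` (`f(η / η_(k')) = 0` by homogeneity, then take residues;
the elements of `p` are sums of their homogeneous components, which are in `p`).  `A_k(v)` is in `V`
with residue `θ(A_k(v₀)) = θ(c) θ(u_k)` because `v_j` has residue `θ(v₀_j)`.  Divide the relation by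
`η_(k')` and take residues: `θ(c) ∑ u_k L_k(z) = 0`, so `∑ u_k L_k(z) = 0`.  By NUL (`K = Ω = ℂ`, `κ`,
`S = {f ∈ p homogeneous}`, `E` = the linear forms `∑ u_k L_k` and `y_i`, `G = X_(k')`) some
`y_i(z) ≠ 0`.  So `y_i(η) / η_(k')` is a unit of `V` (in `V`, with nonzero residue), and
`η_j / y_i(η) = (η_j / η_(k')) / (y_i(η) / η_(k')) ∈ V`. -/
def Stmt_NPL : Prop :=
  ∀ (F : Type) [Field F] [Algebra ℂ F] (w m r β : ℕ)
    (A : Fin (r + 1) → MvPolynomial (Fin (w + 2)) ℂ) (v : Fin (w + 2) → F)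
    (v₀ : Fin (w + 2) → ℂ) (L : Fin (r + 1) → Fin (m + 1) → ℂ) (u : Fin (r + 1) → ℂ) (c : ℂ)
    (p : Ideal (MvPolynomial (Fin (m + 1)) ℂ)) (y : Fin β → Fin (m + 1) → ℂ)
    (η : Fin (m + 1) → F) (V : ValuationSubring F), Hmg p → (∀ f ∈ p, aeval η f = 0) → η ≠ 0 →
    ∑ k, aeval v (A k) * ∑ i, algebraMap ℂ F (L k i) * η i = 0 → c ≠ 0 →
    (∀ k, eval v₀ (A k) = c * u k) →
    (∀ z : Fin (m + 1) → ℂ, (∀ f ∈ p, eval z f = 0) → ∑ k, u k * ∑ i, L k i * z i = 0 →
      (∀ i, ∑ j, y i j * z j = 0) → z = 0) →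
    (∀ a : ℂ, algebraMap ℂ F a ∈ V) → (∀ j, v j - algebraMap ℂ F (v₀ j) ∈ V.nonunits) →
    ∃ i, ∑ l, algebraMap ℂ F (y i l) * η l ≠ 0 ∧
      ∀ j, η j / ∑ l, algebraMap ℂ F (y i l) * η l ∈ V

/-- PL1 (150 lines), uses NPL.  All the `η_j` are algebraic over `ℂ(v, y(η))`.  PROOF.  Let `E₁` be this
field and suppose that `t = η_j` is transcendental over `E₁`; `t ≠ 0`, and `t⁻¹` is transcendental over
`E₁` too.  Let `R₁ ⊆ F` be the `ℂ`-algebra generated by the `v_j`, `t⁻¹` and the `y_i(η) t⁻¹`, and `I₁` the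
ideal of `R₁` generated by the `v_j - v₀_j`, `t⁻¹`, `y_i(η) t⁻¹`.  `I₁ ≠ ⊤`: `R₁` is contained in
`E₁[t⁻¹]`, a polynomial ring over `E₁`; the homomorphism `E₁[t⁻¹] → E₁`, `t⁻¹ ↦ 0`, maps `R₁` into
`ℂ[v]` (`t⁻¹ ↦ 0`, `y_i(η) t⁻¹ ↦ 0`), and there is a homomorphism `ℂ[v] → ℂ`, `v ↦ v₀`, because a complex
polynomial `H` with `H(v) = 0` is divisible by `Q` and `Q(v₀) = 0`.  The composition kills all the
generators of `I₁`.  `Ideal.image_subset_nonunits_valuationSubring`: a valuation subring `V` of `F`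
which contains `R₁`, with `I₁ ⊆ V.nonunits`.  NPL: `i` with `t / y_i(η) ∈ V`; but
`y_i(η) t⁻¹ ∈ V.nonunits`, and the product is `1`, a contradiction. -/
def Stmt_PL1 : Prop :=
  ∀ (F : Type) [Field F] [Algebra ℂ F] (w m r β : ℕ) (Q : MvPolynomial (Fin (w + 2)) ℂ)
    (A : Fin (r + 1) → MvPolynomial (Fin (w + 2)) ℂ) (v : Fin (w + 2) → F)
    (v₀ : Fin (w + 2) → ℂ) (L : Fin (r + 1) → Fin (m + 1) → ℂ) (u : Fin (r + 1) → ℂ) (c : ℂ)
    (p : Ideal (MvPolynomial (Fin (m + 1)) ℂ)) (y : Fin β → Fin (m + 1) → ℂ)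
    (η : Fin (m + 1) → F), (∀ H : MvPolynomial (Fin (w + 2)) ℂ, aeval v H = 0 → Q ∣ H) →
    eval v₀ Q = 0 → Hmg p → (∀ f ∈ p, aeval η f = 0) → η ≠ 0 →
    ∑ k, aeval v (A k) * ∑ i, algebraMap ℂ F (L k i) * η i = 0 → c ≠ 0 →
    (∀ k, eval v₀ (A k) = c * u k) →
    (∀ z : Fin (m + 1) → ℂ, (∀ f ∈ p, eval z f = 0) → ∑ k, u k * ∑ i, L k i * z i = 0 →
      (∀ i, ∑ j, y i j * z j = 0) → z = 0) →
    ∀ j, IsAlgebraic (IntermediateField.adjoin ℂ
      (Set.range v ∪ Set.range fun i => ∑ l, algebraMap ℂ F (y i l) * η l)) (η j)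

/-- PL2 (150 lines), uses NPL.  The place `v ↦ v₀` at which the `y_i(η)` are generic.  PROOF.
Let `Y_i = y_i(η)`, `R₂ ⊆ F` the `ℂ`-algebra generated by the `v_j`, the `Y_i` and all `H(Y)⁻¹`,
`H ∈ MvPolynomial (Fin β) ℂ` not `0`, and `I₂` its ideal generated by the `v_j - v₀_j`.  `I₂ ≠ ⊤`: the
`Y_i` are algebraically independent over `ℂ(v)`, so `ℂ[v][Y]` is a polynomial ring over `ℂ[v]`, and there
is a homomorphism to the field `κ₂` of fractions of `MvPolynomial (Fin β) ℂ` with `v ↦ v₀` (see PL1),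
`Y ↦ Y`; it maps `H(Y)` to `H ≠ 0` and extends to `R₂` (localization at the image of the nonzero
polynomials).  `Ideal.image_subset_nonunits_valuationSubring`: `V ⊇ R₂` with `I₂ ⊆ V.nonunits`.  The
`H(Y)` are units of `V`.  NPL: `i` with `η_j / Y_i ∈ V` for all `j`, so `η_j = (η_j / Y_i) Y_i ∈ V`. -/
def Stmt_PL2 : Prop :=
  ∀ (F : Type) [Field F] [Algebra ℂ F] (w m r β : ℕ) (Q : MvPolynomial (Fin (w + 2)) ℂ)
    (A : Fin (r + 1) → MvPolynomial (Fin (w + 2)) ℂ) (v : Fin (w + 2) → F)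
    (v₀ : Fin (w + 2) → ℂ) (L : Fin (r + 1) → Fin (m + 1) → ℂ) (u : Fin (r + 1) → ℂ) (c : ℂ)
    (p : Ideal (MvPolynomial (Fin (m + 1)) ℂ)) (y : Fin β → Fin (m + 1) → ℂ)
    (η : Fin (m + 1) → F), (∀ H : MvPolynomial (Fin (w + 2)) ℂ, aeval v H = 0 → Q ∣ H) →
    eval v₀ Q = 0 → Hmg p → (∀ f ∈ p, aeval η f = 0) → η ≠ 0 →
    ∑ k, aeval v (A k) * ∑ i, algebraMap ℂ F (L k i) * η i = 0 → c ≠ 0 →
    (∀ k, eval v₀ (A k) = c * u k) →
    (∀ z : Fin (m + 1) → ℂ, (∀ f ∈ p, eval z f = 0) → ∑ k, u k * ∑ i, L k i * z i = 0 →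
      (∀ i, ∑ j, y i j * z j = 0) → z = 0) →
    AlgebraicIndependent (IntermediateField.adjoin ℂ (Set.range v))
      (fun i => ∑ l, algebraMap ℂ F (y i l) * η l) →
    ∃ V : ValuationSubring F, (∀ a : ℂ, algebraMap ℂ F a ∈ V) ∧
      (∀ j, v j - algebraMap ℂ F (v₀ j) ∈ V.nonunits) ∧ (∀ j, η j ∈ V) ∧
      ∀ H : MvPolynomial (Fin β) ℂ, H ≠ 0 →
        aeval (fun i => ∑ l, algebraMap ℂ F (y i l) * η l) H ∉ V.nonunits

/-! ## D. Derivations at the generic point of a component -/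

/-- DRV (120 lines).  A derivation with given values.  PROOF.  Let `B ⊇ {z_i}` be a transcendence basis
of `F` over `ℂ` (`exists_isTranscendenceBasis_superset` or `AlgebraicIndependent` extension) and
`E = ℂ(B)` (`IntermediateField.adjoin`).  A derivation `D` of `F` is the same as a homomorphism
`F → DualNumber F`, `x ↦ x + ε D(x)`.  On the polynomial ring `ℂ[B]` take `z_0 ↦ z_0 + ε`, `b ↦ b` for the
other elements of `B`; nonzero elements go to units, so it extends to `ℂ(B)`.  `F` is algebraic and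
separable over `E` (characteristic 0), so it is formally étale over `E`
(`Algebra.FormallyEtale.of_isSeparable`), and the `E`-algebra homomorphism `id : F → F = F[ε] / (ε)`
lifts to `F → F[ε]` (`Algebra.FormallySmooth.exists_lift` / `FormallySmooth.lift`, `(ε) ^ 2 = 0`; `F[ε]` is an `E`-algebra
through the homomorphism above).  ALTERNATIVE: Zorn's lemma for partially defined derivations with the
formula `D(x) = - μ^D(x) / μ'(x)` for algebraic `x`.  (`Mathlib/RingTheory/Smooth/Field.lean`,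
`Mathlib/RingTheory/Derivation/`, `Derivation.liftOfSurjective`,
`derivationToSquareZeroEquivLift`.) -/
def Stmt_DRV : Prop :=
  ∀ (F : Type) [Field F] [Algebra ℂ F] (n : ℕ) (z : Fin (n + 1) → F), AlgebraicIndependent ℂ z →
    ∃ D : Derivation ℂ F F, D (z 0) = 1 ∧ ∀ i : Fin n, D (z i.succ) = 0

/-- MRL (60 lines).  A minimal relation.  PROOF.  Among the `H ≠ 0` with `aeval (Fin.cons f y) H ∈ q`
choose one with minimal `degreeOf 0 H`.  If `degreeOf 0 H = 0` then `H` is a polynomial in the other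
variables (`H = rename Fin.succ H'`), a relation between the `y`, a contradiction.  So `pderiv 0 H ≠ 0`
(characteristic 0) has smaller degree in the variable `0`, and it is not a relation. -/
def Stmt_MRL : Prop :=
  ∀ (Ω σ : Type) [Field Ω] [CharZero Ω] (β : ℕ) (q : Ideal (MvPolynomial σ Ω))
    (y : Fin β → MvPolynomial σ Ω) (f : MvPolynomial σ Ω), IndMod q y →
    ¬ IndMod q (Fin.cons f y : Fin (β + 1) → MvPolynomial σ Ω) →
    ∃ H : MvPolynomial (Fin (β + 1)) Ω,
      aeval (Fin.cons f y : Fin (β + 1) → MvPolynomial σ Ω) H ∈ q ∧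
      aeval (Fin.cons f y : Fin (β + 1) → MvPolynomial σ Ω) (pderiv 0 H) ∉ q

/-- ORL (120 lines).  Orders at the generic point of `q`.  PROOF.  Suppose that the claim fails for `g`.
Then for every `a` there is `h ∉ q` with `h * g ∈ p ⊔ (t ^ a)`: induction, `h * g = π + t ^ a g'` with
`g' ∈ q` (otherwise done), `h' g' = π' + t g''`, `h' h g = h' π + t ^ a π' + t ^ (a + 1) g''`.  Let `R` be
the localization of the domain `Ω[X] / p` at the prime `q / p`, a Noetherian local domain.  The image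
of `g` is in `(t) ^ a ⊆ 𝔪 ^ a` for all `a`, so it is `0` by Krull's intersection theorem
(`Ideal.iInf_pow_eq_bot_of_isLocalRing`), so `g ∈ p`, a contradiction. -/
def Stmt_ORL : Prop :=
  ∀ (Ω σ : Type) [Field Ω] [Finite σ] (p q : Ideal (MvPolynomial σ Ω)) (t : MvPolynomial σ Ω),
    p.IsPrime → q.IsPrime → p ≤ q → t ∈ q → t ∉ p →
    (∀ f ∈ q, ∃ h ∉ q, h * f ∈ p ⊔ Ideal.span {t}) →
    ∀ g ∉ p, ∃ (a : ℕ) (g' h : MvPolynomial σ Ω), g' ∉ q ∧ h ∉ q ∧ h * g - t ^ a * g' ∈ p

/-- RGA (100 lines), uses DDR MRL.  The derivation maps the field `ℂ(η)` to itself.  PROOF.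
`Fin.cons t y` is independent modulo `p` (DDR), and `Fin.cons f (Fin.cons t y)` is not (`DimLE`).  MRL
modulo `p`: `H` with `H(f, t, y) ∈ p`, `H_0 = (pderiv 0 H)(f, t, y) ∉ p`.  Apply `D` to
`aeval η (H(f, t, y)) = 0` (chain rule: `D (aeval z H) = ∑ (aeval z (pderiv i H)) * D (z i)`, see
`Derivation.mkDerivation` / `MvPolynomial` lemmas, or induction): `H_0(η) D(f(η)) + H_1(η) * 1 = 0`,
because `D` is `0` at the `y_i(η)`.  So `g = H_0`, `f' = - H_1`. -/
def Stmt_RGA : Prop :=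
  ∀ (F : Type) [Field F] [Algebra ℂ F] (m β : ℕ) (p q : Ideal (MvPolynomial (Fin (m + 1)) ℂ))
    (t : MvPolynomial (Fin (m + 1)) ℂ) (y : Fin β → MvPolynomial (Fin (m + 1)) ℂ)
    (η : Fin (m + 1) → F) (D : Derivation ℂ F F), p.IsPrime → q.IsPrime → p ≤ q →
    (∀ f, aeval η f = 0 ↔ f ∈ p) → t ∈ q → t ∉ p → IndMod q y → DimLE p (β + 1) →
    D (aeval η t) = 1 → (∀ i, D (aeval η (y i)) = 0) →
    ∀ f : MvPolynomial (Fin (m + 1)) ℂ, ∃ f' g : MvPolynomial (Fin (m + 1)) ℂ, g ∉ p ∧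
      D (aeval η f) * aeval η g = aeval η f'

/-- RGB (200 lines), uses RGA ORL MRL.  The derivation maps the local ring `R` of `q` to itself.
NOTATION.  `R = {x ∈ F | ∃ f h, h ∉ q, x * h(η) = f(η)}` is a subring of `F` (`h(η) ≠ 0` for `h ∉ q`);
for `x ∈ R` the notation `x ∈ 𝔪` means `f ∈ q`, independent of the choice of `f`, `h` (`f h' - f' h ∈ p ⊆ q`).
`𝔪 = t(η) R` (hypothesis on `t`).  PROOF.  (1) By RGA and ORL for `g`: for every `f` there is `a` with
`t(η) ^ a D(f(η)) ∈ R`: `D(f(η)) = f'(η) / g(η)` and `h g ≡ t ^ a g'`, `g', h ∉ q`.  Let `a` be the smallest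
number with `t(η) ^ a D(η_i) ∈ R` for all `i` (finitely many).  Then `t(η) ^ a D(f(η)) ∈ R` for all
polynomials `f` (product rule), and for `f(η) / h(η)` too (quotient rule).  (2) Suppose `a ≥ 1`.  CLAIM:
`t(η) ^ a D(f(η)) ∈ 𝔪` for all polynomials `f`.  Let `δ(f)` be the class of `t(η) ^ a D(f(η))` modulo `𝔪`;
it is additive with the product rule modulo `𝔪`.  `δ(y_i) = 0`, `δ(t) = 0` (`t(η) ^ a ∈ 𝔪`).  If `f ∈ q`,
`h f = π + t g`, `π ∈ p`: `h(η) f(η) = t(η) g(η)`; apply `t(η) ^ a D`: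
`h δ(f) + f δ(h) = t δ(g) + g δ(t)`, so `h δ(f) ∈ 𝔪`, `δ(f) = 0`.  Now let `f` be arbitrary and `H` from MRL
modulo `q` (`¬ IndMod q (Fin.cons f y)`): `H(f, y) ∈ q` so
`0 = δ(H(f, y)) = (pderiv 0 H)(f, y) δ(f) + 0`, and `(pderiv 0 H)(f, y) ∉ q`, so `δ(f) = 0`.  So
`t(η) ^ a D(η_i) ∈ 𝔪 = t(η) R` and `t(η) ^ (a - 1) D(η_i) ∈ R`, against the choice of `a`.  So `a = 0`. -/
def Stmt_RGB : Prop :=
  ∀ (F : Type) [Field F] [Algebra ℂ F] (m β : ℕ) (p q : Ideal (MvPolynomial (Fin (m + 1)) ℂ))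
    (t : MvPolynomial (Fin (m + 1)) ℂ) (y : Fin β → MvPolynomial (Fin (m + 1)) ℂ)
    (η : Fin (m + 1) → F) (D : Derivation ℂ F F), p.IsPrime → q.IsPrime → p ≤ q →
    (∀ f, aeval η f = 0 ↔ f ∈ p) → t ∈ q → t ∉ p →
    (∀ f ∈ q, ∃ h ∉ q, h * f ∈ p ⊔ Ideal.span {t}) → IndMod q y →
    (∀ f, ¬ IndMod q (Fin.cons f y : Fin (β + 1) → MvPolynomial (Fin (m + 1)) ℂ)) →
    DimLE p (β + 1) → D (aeval η t) = 1 → (∀ i, D (aeval η (y i)) = 0) →
    ∀ f h : MvPolynomial (Fin (m + 1)) ℂ, h ∉ q → ∃ f' h' : MvPolynomial (Fin (m + 1)) ℂ,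
      h' ∉ q ∧ D (aeval η f / aeval η h) * aeval η h' = aeval η f'

/-- LCX (200 lines), uses DDR DRV ORL RGB ODR.  The contradiction at the place `V`.  PROOF.
`l = lf (∑ u_j L_j)`, in Lean `lf fun i => ∑ j, u j * L j i`.  `Low` for `q`: `t ∈ q` and the two
properties.  `t ∉ p`: otherwise `p ⊔ (t) = p`, so `q ⊆ p`, but `l ∈ q`, `l ∉ p`.  The `β + 1` elements `t(η)`,
`y_i(η)` are algebraically independent over `ℂ` (DDR; `aeval η f = 0 ↔ f ∈ p`); DRV: `D`.  ORL for `g = l`: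
`h * l - t ^ e * g' ∈ p`, `g', h ∉ q`.  `e < k`: otherwise `h * l ∈ p ⊔ (t ^ k)`.  Let `R`, `𝔪 = t(η) R` be as
in RGB; `D R ⊆ R`.  LEIBNIZ: for `x ∈ R`, `D^[e] (t(η) ^ e x) - e! x ∈ 𝔪`: by induction,
`D (t ^ (e+1) x) = t ^ e ((e + 1) x + t D x)`.  `l(η) = t(η) ^ e x` with `x = g'(η) / h(η)`, a unit of `R`.  So
`D^[e] (l(η))` is `e! x + (element of 𝔪)`.  `R ⊆ V` (`h(η) ∉ V.nonunits` for `h ∉ q`, and all the polynomials
in `η` are in `V`), `𝔪 ⊆ V.nonunits`, and `e! x` is a unit of `V`; so `D^[e] (l(η)) ∉ V.nonunits`.  On the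
other hand, ODR (`j = e`, with `x_j = ∑ i, L j i * η i`): `∑ j, D^[e] (x_j) * A_j(v) = 0`, with
`D^[e] (x_j) ∈ R ⊆ V`, and `A_j(v) - c u_j ∈ V.nonunits` (`v - v₀ ∈ V.nonunits`, `A_j(v₀) = c u_j`).  So
`c ∑ u_j D^[e] (x_j) = c D^[e] (l(η)) ∈ V.nonunits`, a contradiction. -/
def Stmt_LCX : Prop :=
  ∀ (F : Type) [Field F] [Algebra ℂ F] (w m r β k : ℕ) (Q : MvPolynomial (Fin (w + 2)) ℂ)
    (A : Fin (r + 1) → MvPolynomial (Fin (w + 2)) ℂ) (v : Fin (w + 2) → F)
    (v₀ : Fin (w + 2) → ℂ) (L : Fin (r + 1) → Fin (m + 1) → ℂ) (u : Fin (r + 1) → ℂ) (c : ℂ)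
    (p q : Ideal (MvPolynomial (Fin (m + 1)) ℂ)) (y : Fin β → MvPolynomial (Fin (m + 1)) ℂ)
    (η : Fin (m + 1) → F) (V : ValuationSubring F), p.IsPrime → q.IsPrime → p ≤ q →
    (∀ f, aeval η f = 0 ↔ f ∈ p) → aeval v Q = 0 → c ≠ 0 → (∀ j, eval v₀ (A j) = c * u j) →
    OrdGE (map (algebraMap ℂ F) Q) v k
      (comb (algebraMap ℂ F) A (fun j => ∑ i, algebraMap ℂ F (L j i) * η i)) →
    (∀ a : ℂ, algebraMap ℂ F a ∈ V) → (∀ j, v j - algebraMap ℂ F (v₀ j) ∈ V.nonunits) →
    (∀ j, η j ∈ V) → (∀ f, f ∈ q ↔ aeval η f ∈ V.nonunits) → IndMod q y →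
    (∀ f, ¬ IndMod q (Fin.cons f y : Fin (β + 1) → MvPolynomial (Fin (m + 1)) ℂ)) →
    DimLE p (β + 1) → q ∈ (p ⊔ Ideal.span {lf fun i => ∑ j, u j * L j i}).minimalPrimes →
    lf (fun i => ∑ j, u j * L j i) ∉ p → Low k p (lf fun i => ∑ j, u j * L j i) → False

/-- NDK (200 lines), uses GPO TDG YEX PL1 TIN PL2 CMP LCX.  There is no moving factor of multiplicity `k`
at the generic point.  PROOF.  Suppose `P ^ k ∣ ..`.  `l = lf (∑ u_j L_j) ∉ p`: otherwise `p ⊔ (l) = p`, the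
only minimal prime is `q = p`, and `Low` for `q = p`, `h = 1` says `l ∉ p ⊔ (t ^ k)`, but `l ∈ p`.  GPO with
`x = L η`: `F`, `v`, ..; let `η_F = algebraMap M F ∘ η`, `aeval η_F f = 0 ↔ f ∈ p` (injective), `η_F ≠ 0`
(otherwise all the `X i ∈ p` and `L η = 0`).  OrdGE implies (ODR is not needed; `k ≥ 1`, or use the case
`j = 0` of ODR, add it to the hypotheses if you want) `∑ A_j(v) (L η)_j = 0`.  TDG for `p`: the number is
`β + 1` with `β ≥ 0` (at least 2 elements are independent, so `≥ 2`): elements `t_0, .., t_β` of `M`,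
algebraically independent over `ℂ` (`t_i = aeval η (f i)`).  YEX for `l`: `y`.  PL1 (the condition
`∑ u_k L_k(z) = 0` is `l(z) = 0`): all the `η_j` are algebraic over `ℂ(v, y(η))`, so the `t_i` are.  TIN:
the `y_i(η)` are algebraically independent over `ℂ(v)`.  PL2: `V`.  `q = {f | f(η) ∈ V.nonunits}`, a prime
ideal (the preimage of the maximal ideal of `V` under `f ↦ f(η)`), `p ≤ q`.  `l ∈ q`: by
`∑ A_j(v) (L η)_j = 0` and `A_j(v) - c u_j ∈ V.nonunits`, `c l(η) ∈ V.nonunits`.  `IndMod q (lf ∘ y)` by the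
last property of `V`.  CMP: `q` is a minimal prime of `p ⊔ (l)`, and the second property.  LCX. -/
def Stmt_NDK : Prop :=
  ∀ (M : Type) [Field M] [Algebra ℂ M] (w m r d k : ℕ) (Q : MvPolynomial (Fin (w + 2)) ℂ)
    (A : Fin (r + 1) → MvPolynomial (Fin (w + 2)) ℂ) (v₀ : Fin (w + 2) → ℂ)
    (L : Fin (r + 1) → Fin (m + 1) → ℂ) (u : Fin (r + 1) → ℂ) (c : ℂ)
    (p : Ideal (MvPolynomial (Fin (m + 1)) ℂ)) (η : Fin (m + 1) → M)
    (P : MvPolynomial (Fin 2 × Fin (w + 2)) M), Data (w + 2) r d d Q A → LastMonic w d Q →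
    p.IsPrime → Hmg p → (∀ f, aeval η f = 0 ↔ f ∈ p) →
    (∃ f : Fin 2 → MvPolynomial (Fin (m + 1)) ℂ, IndMod p f) → eval v₀ Q = 0 → c ≠ 0 →
    (∀ j, eval v₀ (A j) = c * u j) → (fun j => ∑ i, algebraMap ℂ M (L j i) * η i) ≠ 0 → 1 ≤ k →
    Low k p (lf fun i => ∑ j, u j * L j i) → Irreducible P →
    (∀ H : MvPolynomial (Fin 2 × Fin (w + 2)) ℂ, H ≠ 0 → ¬ P ∣ map (algebraMap ℂ M) H) →
    ¬ P ^ k ∣ chow d d (map (algebraMap ℂ M) Q)
      (comb (algebraMap ℂ M) A (fun j => ∑ i, algebraMap ℂ M (L j i) * η i))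

end Pool.MPY
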