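import Pool.Agent.Work.MP_f82ddf_Y.Interface
import Pool.Agent.Work.MP_f82ddf_P.Interface6

set_option autoImplicit false

/-! # THEOREM T (MP_f82ddf_nt): arbitrary target varieties, part 2

Table `mpy_blocks`, same rules as in `Interface.lean` (import this file instead). -/

open Pool.Agent.Work.MP_f82ddf_nt.DQ

namespace Pool.MPY

open MvPolynomial
open Pool.Agent.Work.MP_f82ddf_nt (PSpace HolomorphicOn complexPoints points KobayashiHyperbolic)
open Pool.Agent.Work.MP_f82ddf_M5 (lineAt resAt chow at2 comb Data)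
open Pool.ThmM (NonProp HypData LastMonic IsRat om dv vP)
open Pool.ThmM0 (Per)
open Pool.ThmM.Chow (Phi Mov)
open Pool.ThmP (Mor OnX OnK tm RelP)
open Pool.MPL (RX NC aq ae NPr Spn)
open Pool.MPV (Ful Full)

/-! ## E. Uniformity -/

/-- MPI (50 lines).  PROOF.  `(sInf Θ).minimalPrimes` is finite (`R` is Noetherian).  Suppose that
`𝔮 ≤ I` for no `I ∈ Θ`.  For every other minimal prime `𝔭` choose `h_𝔭 ∈ 𝔭`, `h_𝔭 ∉ 𝔮` (`𝔭 ≤ 𝔮` would give
`𝔭 = 𝔮`), and let `h ∉ 𝔮` be their product.  Every `I ∈ Θ` is a prime `≥ sInf Θ`, so it contains a minimal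
prime (`Ideal.exists_minimalPrimes_le`), which is not `𝔮`, so `h ∈ I`.  So `h ∈ sInf Θ ≤ 𝔮`, a
contradiction. -/
def Stmt_MPI : Prop :=
  ∀ (R : Type) [CommRing R] [IsNoetherianRing R] (Θ : Set (Ideal R)), (∀ I ∈ Θ, I.IsPrime) →
    ∀ 𝔮 ∈ (sInf Θ).minimalPrimes, ∃ I ∈ Θ, 𝔮 ≤ I

/-- DVC (100 lines), uses W.ABS.  Divisors of complex polynomials.  PROOF.  `H` is a nonzero constant
times a product of irreducible complex polynomials `H_i`
(`UniqueFactorizationMonoid` / `WfDvdMonoid.exists_factors`), and the `map H_i` are irreducible over `M` by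
ABS (rename `σ` to `Fin (Nat.card σ)` and back), hence prime.  Induction on the number of the `H_i`: let
`P ∣ map H_1 * B`.  If `map H_1 ∣ P`, `P = map H_1 * P'`, cancel: `P' ∣ B`.  Otherwise, if
`map H_1 * B = P * T`, then `map H_1 ∣ T` and `P ∣ B`.  At the end `P` divides a nonzero constant: it is a
constant. -/
def Stmt_DVC : Prop :=
  ∀ (M σ : Type) [Field M] [Algebra ℂ M] [Finite σ] (P : MvPolynomial σ M)
    (H : MvPolynomial σ ℂ), H ≠ 0 → P ∣ map (algebraMap ℂ M) H →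
    ∃ (c : M) (G : MvPolynomial σ ℂ), c ≠ 0 ∧ G ≠ 0 ∧ P = C c * map (algebraMap ℂ M) G

/-- UNF (250 lines), uses MPI DVC W.CNZ M5.FUN U.TRP.  From the generic point of `V(p)` over all fields
to all points over `Mer`.  PROOF.  `σ = Fin 2 × Fin (w + 2)`, `Φ(x') = Phi Mer d (aq α Q) (aq α ∘ A) x'`, and
`UF = UF d Q A` the universal Chow form (`Pool.MPL.UF`) over `RX r`.  Call `(α, x, P)` as in the conclusion
(with `P ^ k ∣ Φ`, `x' = (∑ α(L_ji) x_i)_j ≠ 0`) bad; write `Φ = P ^ k * R`.  By M5.FUN (6)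
`Φ = map φ UF` with `φ = (aeval x').comp (map α)` (`UNA_UF` in `MP_f82ddf_U/B_UNA.lean`, copy it), and
`Φ ≠ 0` (CNZ for the conjugate datum, `Data` by TRP, `x' ≠ 0`).  So `degreeOf p P`, `degreeOf p R ≤ degreeOf p UF ≤ e₀` for all `p : σ`.  Let
`J` be the finite set of the exponents `≤ e₀` (`Finset.Iic` of the constant function),
`𝕐 = MvPolynomial (Fin (m + 1) ⊕ (J ⊕ J)) ℂ` with variables `X_i`, `P_ν`, `R_ν`,
`𝒫 = ∑ monomial ν P_ν`, `ℛ = ∑ monomial ν R_ν` in `MvPolynomial σ 𝕐`, and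
`Ũ = map ψ UF`, `ψ : RX r → 𝕐`, `X_j ↦ ∑ C (L j i) X_i`.  A bad `(α, x, P)` gives the ring homomorphism
`θ : 𝕐 → Mer`, `θ (C c) = α c`, `X_i ↦ x i`, `P_ν ↦ coeff ν P`, `R_ν ↦ coeff ν R`, with `map θ 𝒫 = P`,
`map θ ℛ = R`, `map θ Ũ = Φ`; so all the coefficients of `𝒫 ^ k * ℛ - Ũ` are in `ker θ`.  Let `Θ` be the
set of all these prime ideals `ker θ`, `𝒥 = sInf Θ`, radical, the intersection of its finitely many
minimal primes `𝔮` (`Ideal.sInf_minimalPrimes`), and `j : ℂ[X_0, .., X_m] → 𝕐` the inclusion.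
`p ≤ 𝔮.comap j` for all `𝔮` (`aeval x (aq α f) = 0` for `f ∈ p`).  If `𝔮.comap j ≠ p` for all `𝔮`, choose
`D_𝔮 ∈ 𝔮.comap j`, not in `p`; `D = ∏ D_𝔮 ∉ p` and `j D ∈ 𝒥`, so `0 = θ (j D) = aeval x (aq α D)` for all
bad triples.  OTHERWISE let `𝔮.comap j = p`, `M` = the field of fractions of `𝕐 / 𝔮`, `η_i` the class of
`X_i`: `aeval η f = 0 ↔ f ∈ p`; `𝒫*`, `ℛ*` the images in `MvPolynomial σ M`:
`𝒫* ^ k * ℛ* = map (..) Ũ = chow d d .. (comb .. A (L η))` (M5.FUN (6)).  By MPI there is a bad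
`(α, x, P)` with `𝔮 ≤ ker θ`.  `L η ≠ 0`: otherwise all `∑ C (L j i) X_i ∈ 𝔮`, and `x' = 0`.  `𝒫* ≠ 0`:
otherwise all `P_ν ∈ 𝔮`, `P = 0`.  If every irreducible factor of `𝒫*` divided some nonzero complex
polynomial, then `𝒫*` would divide one (product), and by DVC `𝒫* = C c * map G`, `G_(ν₀) ≠ 0`; then
`G_(ν₀) P_ν - G_ν P_(ν₀) ∈ 𝔮` for all `ν`, so `α(G_(ν₀)) coeff ν P = α(G_ν) coeff ν₀ P`, and
`P = C (coeff ν₀ P / α(G_(ν₀))) * map (map α G)` is not moving, a contradiction.  So some irreducible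
`P' ∣ 𝒫*` divides no complex polynomial, and `P' ^ k ∣ chow ..`, against the hypothesis. -/
def Stmt_UNF : Prop :=
  ∀ (m r w d k : ℕ) (Q : MvPolynomial (Fin (w + 2)) ℂ)
    (A : Fin (r + 1) → MvPolynomial (Fin (w + 2)) ℂ) (L : Fin (r + 1) → Fin (m + 1) → ℂ)
    (p : Ideal (MvPolynomial (Fin (m + 1)) ℂ)), Data (w + 2) r d d Q A → p.IsPrime →
    (∀ (M : Type) [Field M] [Algebra ℂ M] (η : Fin (m + 1) → M)
      (P : MvPolynomial (Fin 2 × Fin (w + 2)) M), (∀ f, aeval η f = 0 ↔ f ∈ p) →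
      (fun j => ∑ i, algebraMap ℂ M (L j i) * η i) ≠ 0 → Irreducible P →
      (∀ H : MvPolynomial (Fin 2 × Fin (w + 2)) ℂ, H ≠ 0 → ¬ P ∣ map (algebraMap ℂ M) H) →
      ¬ P ^ k ∣ chow d d (map (algebraMap ℂ M) Q)
        (comb (algebraMap ℂ M) A (fun j => ∑ i, algebraMap ℂ M (L j i) * η i))) →
    ∃ D ∉ p, ∀ (α : ℂ ≃+* ℂ) (x : Fin (m + 1) → Mer)
      (P : MvPolynomial (Fin 2 × Fin (w + 2)) Mer), (∀ f ∈ p, aeval x (aq α f) = 0) →
      (fun j => ∑ i, algebraMap ℂ Mer (α (L j i)) * x i) ≠ 0 → Irreducible P → Mov P →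
      P ^ k ∣ Phi Mer d (aq α Q) (fun i => aq α (A i))
        (fun j => ∑ i, algebraMap ℂ Mer (α (L j i)) * x i) →
      aeval x (aq α D) = 0

/-! ## F. The core for a spanning set of nodes -/

/-- DRT (120 lines), uses V.CORF M1.TRA.  As `V.DRF` for nodes which span.  PROOF.  `β₀` from CORF,
`β w d = β₀ w d + c + d`.  Let `T' = {u ∈ T | ∑ u_i x_i ≠ 0}`; `T \ T'` has at most `c` elements.  For `u` in it
take a linear form `ℓ_u` with `ℓ_u(lift u) = 0`, `Q ∤ ℓ_u` (`Pool.ThmM.FIN.linform` in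
`MP_f82ddf_M/T_FIN.lean`), and `Π = ∏ ℓ_u`, of degree `≤ c`.  (a) divisibility for `T'` and `β₀`: if the form
`f` vanishes at the lifts of `T'`, then `f Π` vanishes at all the lifts, `Q ∣ f Π`, `Q ∣ f` (`Q` is
prime).  (b) `T'` spans: let `y` be orthogonal to `T'`; `comb id A y` (degree `d`) vanishes at the lifts of
`T'`, so by the same argument `Q ∣ comb id A y`, so it vanishes at all the lifts and `y` is orthogonal to
`T`; `y = 0`.  (c) `HypData` for `T'`.  CORF with `tr` from TRA (see `MP_f82ddf_V/B_DRF.lean`). -/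
def Stmt_DRT : Prop :=
  ∀ c : ℕ, ∃ β : ℕ → ℕ → ℕ, ∀ (r w d : ℕ) (Q : MvPolynomial (Fin (w + 2)) ℂ)
    (A : Fin (r + 1) → MvPolynomial (Fin (w + 2)) ℂ) (T : Finset (Fin (r + 1) → ℂ))
    (lift : (Fin (r + 1) → ℂ) → (Fin (w + 2) → ℂ)), HypData r w d Q A T lift →
    (∀ (e : ℕ) (f : MvPolynomial (Fin (w + 2)) ℂ), e ≤ β w d → f.IsHomogeneous e →
      (∀ u ∈ T, eval (lift u) f = 0) → Q ∣ f) →
    (∀ y : Fin (r + 1) → ℂ, (∀ u ∈ T, ∑ i, u i * y i = 0) → y = 0) →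
    ∀ (k : ℕ) (x : Fin (r + 1) → Mer), (∀ i, Per (x i)) → (∀ u ∈ T, Ful k x u) →
      {u | u ∈ T ∧ ∑ i, algebraMap ℂ Mer (u i) * x i = 0}.ncard ≤ c →
      Mov (Phi Mer d Q A x) →
      ∃ P : MvPolynomial (Fin 2 × Fin (w + 2)) Mer, Irreducible P ∧ Mov P ∧
        P ^ k ∣ Phi Mer d Q A x

/-- T3S (150 lines), uses M2.T3.  T3 with descent to the span of the nodes.  PROOF.  Induction on `m`;
let `N(m)` be the number for `m` and the function `β` (the same function `β` for all `m`).  `m = 0`: two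
vectors of `ℂ^1` are never `NonProp` (`v_0 • u = u_0 • v` would give `u_0 = v_0 = 0`, `u = v = 0`), `N = 2`.
`m ≥ 1`: T3 for `r = m` and the function `β m w d + N(m - 1)`: `w, d, Q, A, T, lift`, `T ⊆ S`.  If `T` spans take
`L j = Pi.single j 1` (identity).  Otherwise all `u ∈ T` are orthogonal to some `y ≠ 0`: the space of the
vectors orthogonal to `y` has dimension `m`; let `L' : Fin m → (Fin (m + 1) → ℂ)` be a basis of it
(`m = (m - 1) + 1`; `Module.finBasisOfFinrankEq`) and `T' ⊆ ℂ^m` the set of the coordinate vectors of the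
`u ∈ T`, pairwise `NonProp`, with the same number `≥ N(m - 1)` of elements.  Apply the induction hypothesis
to `T'`: `r ≤ m - 1`, `L''`; `L j = ∑ k, L'' j k • L' k`, independent. -/
def Stmt_T3S : Prop :=
  ∀ (β : ℕ → ℕ → ℕ → ℕ) (m : ℕ), ∃ N₁ : ℕ, ∀ S : Finset (Fin (m + 1) → ℂ),
    (∀ u ∈ S, ∀ v ∈ S, u ≠ v → NonProp u v) → N₁ ≤ S.card →
    ∃ (r w d : ℕ) (Q : MvPolynomial (Fin (w + 2)) ℂ)
      (A : Fin (r + 1) → MvPolynomial (Fin (w + 2)) ℂ) (T : Finset (Fin (r + 1) → ℂ))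
      (lift : (Fin (r + 1) → ℂ) → (Fin (w + 2) → ℂ)) (L : Fin (r + 1) → Fin (m + 1) → ℂ),
      HypData r w d Q A T lift ∧ β r w d ≤ T.card ∧
      (∀ (e : ℕ) (f : MvPolynomial (Fin (w + 2)) ℂ), e ≤ β r w d → f.IsHomogeneous e →
        (∀ u ∈ T, eval (lift u) f = 0) → Q ∣ f) ∧
      (∀ y : Fin (r + 1) → ℂ, (∀ u ∈ T, ∑ i, u i * y i = 0) → y = 0) ∧
      LinearIndependent ℂ L ∧ ∀ u ∈ T, (fun i => ∑ j, u j * L j i) ∈ S

/-- ODX (60 lines), uses P.NUL.  At most `c` of the linear forms vanish at a point over a larger field.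
PROOF.  Suppose that more than `c` elements of `S` vanish at `x ≠ 0`; let `S₀` be the set of them.  By the
hypothesis the only common zero over `Ω` of `p` and the `lf u`, `u ∈ S₀`, is `0` (a common zero `z ≠ 0` would
have more than `c` elements of `S` in the filter).  NUL (`K = Ω`, `S` = the set of all homogeneous elements
of `p`, `E` = the `lf u`, `G = X i`): `x i = 0` for all `i`. -/
def Stmt_ODX : Prop :=
  ∀ (Ω κ : Type) [Field Ω] [IsAlgClosed Ω] [Field κ] (m c : ℕ)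
    (p : Ideal (MvPolynomial (Fin (m + 1)) Ω)) (S : Finset (Fin (m + 1) → Ω)), Hmg p →
    (∀ z : Fin (m + 1) → Ω, z ≠ 0 → (∀ f ∈ p, eval z f = 0) →
      {u | u ∈ S ∧ ∑ i, u i * z i = 0}.ncard ≤ c) →
    ∀ (τ : Ω →+* κ) (x : Fin (m + 1) → κ), x ≠ 0 → (∀ f ∈ p, eval₂ τ x f = 0) →
      {u | u ∈ S ∧ ∑ i, τ (u i) * x i = 0}.ncard ≤ c

/-- DVL (120 lines), uses P.NUL M1.VAL M1.ORD M3.OZE.  Linear forms without common zero on `V(p)` and
orders.  PROOF.  As `MP_f82ddf_H/B_BPF.lean` (H.BPF: `V(p) = P^b` there) with `S` = the homogeneous elements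
of `p` in NUL.  At `z`: `i₁` with `om (x i₁) z` minimal, `x' = x / x i₁` with values in the local ring `O` at
`z`, residue vector `q ≠ 0` in `V(p)(ℂ)`, so `∑ L j i q_i ≠ 0` for some `j`, this coordinate of `L x'` has
order `0` and the others are in `O`. -/
def Stmt_DVL : Prop :=
  ∀ (m r : ℕ) (p : Ideal (MvPolynomial (Fin (m + 1)) ℂ)) (L : Fin (r + 1) → Fin (m + 1) → ℂ),
    Hmg p →
    (∀ z : Fin (m + 1) → ℂ, z ≠ 0 → (∀ f ∈ p, eval z f = 0) → ∃ j, ∑ i, L j i * z i ≠ 0) →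
    ∀ x : Fin (m + 1) → Mer, x ≠ 0 → (∀ f ∈ p, aeval x f = 0) →
      (fun j => ∑ i, algebraMap ℂ Mer (L j i) * x i) ≠ 0 ∧
      ∀ z, dv (fun j => ∑ i, algebraMap ℂ Mer (L j i) * x i) z = dv x z

/-- NCL (80 lines), uses E.LFD DVL.  PROOF.  `x ≠ 0`, so some `y_(j₀) = ∑ L j₀ i x_i ≠ 0` (DVL).  Suppose that
`NC` fails for `y`: every `y_j` is a complex multiple of `y_(j₀)`.  `x' = x / y_(j₀)` is in `V(p)` (the
homogeneous elements of `p`), and all the `∑ L j i x'_i` are complex numbers.  LFD (`Ω = ℂ`, `F = Mer`,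
`E` = the homogeneous elements of `p`, `w = r + 1`, `h = L`): the `x'_i` are algebraic over
`ℂ`-adjoin constants `= ℂ`, so they are constants (`ℂ` is algebraically closed), and `NC x` fails. -/
def Stmt_NCL : Prop :=
  ∀ (m r : ℕ) (p : Ideal (MvPolynomial (Fin (m + 1)) ℂ)) (L : Fin (r + 1) → Fin (m + 1) → ℂ),
    Hmg p →
    (∀ z : Fin (m + 1) → ℂ, z ≠ 0 → (∀ f ∈ p, eval z f = 0) → ∃ j, ∑ i, L j i * z i ≠ 0) →
    ∀ x : Fin (m + 1) → Mer, NC x → (∀ f ∈ p, aeval x f = 0) →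
      NC (fun j => ∑ i, algebraMap ℂ Mer (L j i) * x i)

/-- DM1 (80 lines).  A nonconstant point gives two independent coordinates.  PROOF.  `x i ≠ 0`,
`x j ≠ a x i` for all `a ∈ ℂ`; `f = ![X i, X j]`.  Let `H ≠ 0` and `aeval f H ∈ p`.  The homogeneous components
of `aeval f H` are `aeval f` of those of `H` (forms of degree 1 are substituted), so we may assume that
`H` is a form of degree `e`.  `eval₂ (tm τ) x` of it is `0`: `H^τ(x_i, x_j) = 0`, so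
`H^τ(1, x_j / x_i) = 0` with the nonzero polynomial `H^τ(1, T)` over `ℂ` (a form in two variables is
determined by it), so `x_j / x_i` is algebraic over `ℂ`, hence constant, a contradiction. -/
def Stmt_DM1 : Prop :=
  ∀ (Ω : Type) [Field Ω] (m : ℕ) (p : Ideal (MvPolynomial (Fin (m + 1)) Ω)), Hmg p →
    ∀ (τ : Ω →+* ℂ) (x : Fin (m + 1) → Mer), NC x → (∀ f ∈ p, eval₂ (tm τ) x f = 0) →
      ∃ f : Fin 2 → MvPolynomial (Fin (m + 1)) Ω, IndMod p f

/-- PTY (250 lines), uses T3S DRT UNF NDK ODX DVL NCL DM1 U.TRP V.EXF U.MVP.  PROOF.  `β` = the function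
from DRT (for `c`), increased by `c + 1`; `N₁` from T3S.  For `S`: `r, w, d, Q, A, T, lift, L` from T3S;
`T` is not empty; fix `u₁ ∈ T`, `ū₁ = ∑ u₁_j L_j ∈ S`, `v₀ = lift u₁`, `A(v₀) = c₁ u₁`, `c₁ ≠ 0`.  `Data` by
`Pool.ThmM.Chow.CORE_data` (`MP_f82ddf_M/C_CORE.lean`).  (0) If there are no `α`, `x` as in the conclusion
take `D = 1`.  Otherwise `p` has two independent elements: DM1 with `τ = α`-embedding `ℂ → ℂ`
(`aeval x (aq α f) = eval₂ (tm (α : ℂ →+* ℂ)) x f`).  (1) UNF; its hypothesis is NDK for `u₁`, `v₀`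
(`Low` for `ū₁ ∈ S`).  This gives `D ∉ p`.  (2) Let `α`, `x` be given, `φ` from EXF, `x' = φ ∘ x`:
`NC x'`, `Per`, `aeval x' (aq α f) = φ (aeval x (aq α f)) = 0` for `f ∈ p`, `Ful k x' (α ∘ u)` (EXF, see
`MP_f82ddf_V/B_PTF.lean`), and `aeval x' (aq α D) = 0` implies `aeval x (aq α D) = 0`.  Let `p' = α(p)` (the
ideal of all `aq α f`, `f ∈ p`: `p.map` of the ring automorphism, or its comap under `aq α.symm`), homogeneous,
and `L' = α ∘ L`.  No `z ≠ 0` in `V(p')` is a common zero of the `L'_j`: otherwise `α⁻¹ ∘ z ∈ V(p)` is a common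
zero of the `L_j`, so of the more than `c` different elements `∑ u_j L_j`, `u ∈ T`, of `S` (`L` is
independent), against the hypothesis.  `y = L' x'`: DVL, NCL: `y ≠ 0`, `dv y = dv x'`, `NC y`.  For `u ∈ T`:
`∑ α(u_j) y_j = ∑ α(ū_i) x'_i`, so `Ful k y (α ∘ u)`.  At most `c` of the `α ∘ u` are orthogonal to `y`: ODX
for `p`, `S`, `τ = (algebraMap ℂ Mer).comp α`.  TRP: `HypData`, divisibility, and the spanning property for the
conjugate datum (spanning: directly, apply `α⁻¹`).  MVP: `Phi Mer d (aq α Q) (aq α ∘ A) y` is moving.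
DRT: `P`.  UNF: `aeval x' (aq α D) = 0`. -/
def Stmt_PTY : Prop :=
  ∀ m c : ℕ, ∃ N₁ : ℕ, ∀ (k : ℕ) (p : Ideal (MvPolynomial (Fin (m + 1)) ℂ))
    (S : Finset (Fin (m + 1) → ℂ)), 1 ≤ k → p.IsPrime → Hmg p →
    (∀ u ∈ S, ∀ v ∈ S, u ≠ v → NonProp u v) →
    (∀ z : Fin (m + 1) → ℂ, z ≠ 0 → (∀ f ∈ p, eval z f = 0) →
      {u | u ∈ S ∧ ∑ i, u i * z i = 0}.ncard ≤ c) →
    (∀ u ∈ S, Low k p (lf u)) → N₁ ≤ S.card →
    ∃ D ∉ p, ∀ (α : ℂ ≃+* ℂ) (x : Fin (m + 1) → Mer), NC x → (∀ f ∈ p, aeval x (aq α f) = 0) →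
      (∀ u ∈ S, Ful k x (fun i => α (u i))) → aeval x (aq α D) = 0

/-! ## G. Algebraically closed subfields -/

/-- MDL (80 lines).  Coefficientwise functionals.  PROOF.  Let `Ω` act on `ℂ` through `τ`, `b_i` a basis
of the `Ω`-span of the coefficients of `f` and `ϑ_i : ℂ → Ω` linear functionals with
`ϑ_i(b_j) = δ_(ij)`.  `g_i = ϑ_i(f)` coefficientwise, `f = ∑ C (b_i) * map τ (g_i)`.  The coefficientwise
extension of `ϑ_i` satisfies `ϑ_i(F * map τ G) = ϑ_i(F) * G`, so it maps `I.map (map τ)` into `I` (additive,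
`Submodule.span_induction`), and `ϑ_i(f * map τ a) = g_i * a`.  (See W.NDX, `MP_f82ddf_W/B_NDX.lean`.) -/
def Stmt_MDL : Prop :=
  ∀ (Ω σ : Type) [Field Ω] (τ : Ω →+* ℂ) (f : MvPolynomial σ ℂ),
    ∃ (n : ℕ) (b : Fin n → ℂ) (g : Fin n → MvPolynomial σ Ω),
      f = ∑ i, C (b i) * map τ (g i) ∧
      ∀ (I : Ideal (MvPolynomial σ Ω)) (a : MvPolynomial σ Ω), f * map τ a ∈ I.map (map τ) →
        ∀ i, g i * a ∈ I

/-- PEX (200 lines), uses MDL.  Primes over an algebraically closed field stay prime.  PROOF.  The second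
claim: MDL for `f = map τ g` and `a = 1` (or: `ϑ` with `ϑ(1) = 1`).  So `P = p.map (map τ)` is not `⊤`.
PRIME.  Let `f g ∈ P`, `f, g ∉ P`.  MDL: `f = ∑ C (b_i) map τ (f_i)`; choose the representation such that
the `b_i` are linearly independent over `Ω` (as in the proof of MDL) and write
`f = f' + (element of P)` where the images of the `f_i` occurring in `f'` in `V = Ω[X] / p` are linearly
independent, at least one of them (replace linearly dependent ones); similarly `g`.  ALTERNATIVE, simpler: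
choose a basis `(e_λ)` of the `Ω`-vector space `V`; the class of `f` in `ℂ ⊗ V` has coordinates
`a_λ ∈ ℂ` (finitely many, `f ≡ ∑ a_λ e_λ`), some `a_(λ₀) ≠ 0`; similarly `g ≡ ∑ a'_λ e_λ`, `a'_(μ₀) ≠ 0`.  Let
`B ⊆ ℂ` be the subalgebra over `Ω` generated by the `a_λ`, `a'_λ` and the (finitely many) coefficients of
`f`, `g` and of the elements which show `f ≡ ..`, `g ≡ ..`, `f g ∈ P`.  There is an `Ω`-homomorphism
`θ : B → Ω` with `θ(a_(λ₀) a'_(μ₀)) ≠ 0` (Nullstellensatz, see `MP_f82ddf_M5/B_NUL.lean` for `Ω = ℂ`: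
localize `B` at this element and take a maximal ideal).  Apply `θ` to the coefficients:
`θ(f) ≡ ∑ θ(a_λ) e_λ ≠ 0` modulo `p`, `θ(g) ∉ p`, but `θ(f) θ(g) ∈ p`, a contradiction. -/
def Stmt_PEX : Prop :=
  ∀ (Ω σ : Type) [Field Ω] [IsAlgClosed Ω] [Finite σ] (τ : Ω →+* ℂ)
    (p : Ideal (MvPolynomial σ Ω)), p.IsPrime →
    (p.map (map τ)).IsPrime ∧ ∀ g : MvPolynomial σ Ω, map τ g ∈ p.map (map τ) → g ∈ p

/-- LOX (120 lines), uses MDL PEX.  PROOF.  `I = p ⊔ (l)`; `(p ⊔ (l)).map = p.map ⊔ (map τ l)`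
(`Ideal.map_sup`, `Ideal.map_span`).  Let `𝔮` be a minimal prime of it, `q = 𝔮.comap (map τ)`, a prime
`≥ I`, and `q₀ ≤ q` a minimal prime of `I`.  `q₀.map ≤ 𝔮` is a prime (PEX) which contains `I.map`, so
`q₀.map = 𝔮`.  `Low` for `q₀`: `t`; take `map τ t`.  (1) Let `f ∈ 𝔮 = q₀.map`: `f = ∑ a_i map τ (f_i)` (a finite
sum) with `f_i ∈ q₀`; `h_i ∉ q₀`, `h_i f_i ∈ p ⊔ (t)`; `h = ∏ h_i ∉ q₀`, `map τ h ∉ 𝔮` by PEX, and
`map τ h * f ∈ p.map ⊔ (map τ t)`.  (2) Let `h ∉ 𝔮` and suppose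
`h * map τ l ∈ p.map ⊔ ((map τ t) ^ k) = (p ⊔ (t ^ k)).map`.  MDL for `h`: `h = ∑ C (b_i) map τ (h_i)` and
`h_i * l ∈ p ⊔ (t ^ k)` for all `i`, so all `h_i ∈ q₀` and `h ∈ 𝔮`, a contradiction. -/
def Stmt_LOX : Prop :=
  ∀ (Ω : Type) [Field Ω] [IsAlgClosed Ω] (τ : Ω →+* ℂ) (m k : ℕ)
    (p : Ideal (MvPolynomial (Fin (m + 1)) Ω)) (l : MvPolynomial (Fin (m + 1)) Ω), p.IsPrime →
    Low k p l → Low k (p.map (map τ)) (map τ l)

/-- DSG (150 lines), uses U.FXF.  Descent of `D`.  PROOF.  As the proof of U.DSE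
(`MP_f82ddf_U/B_DSE.lean`; read its docstring).  `D = ∑ C (e_κ) * map τ D_κ`, `e_κ` a basis of the span of
the coefficients over `τ(Ω)`.  As `D ∉ p.map (map τ)`, some `D_(κ₁) ∉ p`.  The vectors `(α (e_κ))_κ`,
`α` an automorphism over `τ(Ω)`, span `ℂ^q`, so `∑_i c_i α_i (e_κ) = δ_(κ κ₁)` and
`∑_i c_i • aq α_i D = map τ D_(κ₁)`.  `D₀ = D_(κ₁)`. -/
def Stmt_DSG : Prop :=
  ∀ (Ω : Type) [Field Ω] [IsAlgClosed Ω] [Countable Ω] (τ : Ω →+* ℂ) (m : ℕ)
    (p : Ideal (MvPolynomial (Fin (m + 1)) Ω)) (D : RX m), D ∉ p.map (map τ) →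
    ∃ D₀ : MvPolynomial (Fin (m + 1)) Ω, D₀ ∉ p ∧
      map τ D₀ ∈ Submodule.span ℂ
        {E : RX m | ∃ α : ℂ ≃+* ℂ, (∀ a, α (τ a) = τ a) ∧ E = aq α D}

/-- UEY (150 lines), uses PTY PEX LOX DSG ODX U.AUT U.RKT.  PROOF.  As `MP_f82ddf_V/B_UEF.lean`.  `N₁` from PTY.
If there is no `Ω → ℂ` take `D = 1`.  Otherwise fix `τ₀`; `p' = p.map (map τ₀)` is prime (PEX) and
homogeneous (`Hmg`: its elements are sums `∑ a_i map τ₀ (f_i)` with homogeneous `f_i ∈ p`, use homogeneous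
components of the `a_i`); `S' = τ₀(S)` is pairwise `NonProp` (RKT (2)), of the same cardinality, satisfies
the condition with `c` (ODX with `κ = ℂ`, `τ₀`: points of `V(p')` are zeros of `p`), and `Low` (LOX;
`map τ₀ (lf u) = lf (τ₀ ∘ u)`).  PTY: `D' ∉ p'`.  DSG: `D ∉ p` with
`map τ₀ D = ∑ c_i • aq α_i D'`.  For `τ`, `x`: `α` with `α ∘ τ₀ = τ` (AUT).
`eval₂ (tm τ) x D = aeval x (aq α (map τ₀ D)) = ∑ α(c_i) aeval x (aq (α ∘ α_i) D')`, and PTY for the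
automorphism `α ∘ α_i` (`(α ∘ α_i) (τ₀ a) = τ a`; `aeval x (aq (α ∘ α_i) (map τ₀ f)) = eval₂ (tm τ) x f`, so
the elements of `p'` are killed) gives `0`. -/
def Stmt_UEY : Prop :=
  ∀ m c : ℕ, ∃ N₁ : ℕ, ∀ (Ω : Type) [Field Ω] [IsAlgClosed Ω] [Countable Ω] (k : ℕ)
    (p : Ideal (MvPolynomial (Fin (m + 1)) Ω)) (S : Finset (Fin (m + 1) → Ω)), 1 ≤ k →
    p.IsPrime → Hmg p → (∀ u ∈ S, ∀ v ∈ S, u ≠ v → NPr u v) →
    (∀ z : Fin (m + 1) → Ω, z ≠ 0 → (∀ f ∈ p, eval z f = 0) →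
      {u | u ∈ S ∧ ∑ i, u i * z i = 0}.ncard ≤ c) →
    (∀ u ∈ S, Low k p (lf u)) → N₁ ≤ S.card →
    ∃ D ∉ p, ∀ (τ : Ω →+* ℂ) (x : Fin (m + 1) → Mer), NC x →
      (∀ f ∈ p, eval₂ (tm τ) x f = 0) → (∀ u ∈ S, Ful k x (fun i => τ (u i))) →
      eval₂ (tm τ) x D = 0

/-! ## H. The exceptional sets `W_i` -/

/-- HYP (80 lines), uses E.LFD W.TRM.  A closed set of positive dimension meets every hyperplane.
PROOF.  Suppose not.  Let `F` be the field of fractions of `Ω[X] / p` and `η_i` the class of `X_i`.  LFD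
(`w = 1`, `h 0 = u`, `E` = the homogeneous elements of `p`): all the `η_i` are algebraic over the field
generated by one element.  But `aeval η ∘ f` are two algebraically independent elements of `F`, algebraic
over it, against TRM. -/
def Stmt_HYP : Prop :=
  ∀ (Ω : Type) [Field Ω] [IsAlgClosed Ω] (m : ℕ) (p : Ideal (MvPolynomial (Fin (m + 1)) Ω)),
    p.IsPrime → Hmg p → (∃ f : Fin 2 → MvPolynomial (Fin (m + 1)) Ω, IndMod p f) →
    ∀ u : Fin (m + 1) → Ω, ∃ z : Fin (m + 1) → Ω, z ≠ 0 ∧ (∀ f ∈ p, eval z f = 0) ∧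
      ∑ i, u i * z i = 0

/-- SLY (80 lines), uses HYP.  Many pairwise non proportional vectors.  PROOF.  As
`MP_f82ddf_U/B_SLO.lean`.  The `l j`, `j ∈ J`, are not `0` (HYP for `u = 0` or directly: `l j = 0` would give
`lf (l j) = 0 ∈ p`, excluded by the hypothesis).  Let `S` be a set of pairwise `NPr` vectors among the `l j`,
`j ∈ J`, of maximal cardinality.  Every `l j`, `j ∈ J`, is a multiple of an element `u ∈ S`, and for every
`u ∈ S` at most `c` of the `l j` are multiples of `u`: they vanish at the point `z` of HYP for `u`.  So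
`c * N₁ < J.ncard ≤ c * S.card`.  The filter condition: the elements of `S` which vanish at `z` are
different `l j`. -/
def Stmt_SLY : Prop :=
  ∀ (Ω : Type) [Field Ω] [IsAlgClosed Ω] (m c N N₁ : ℕ)
    (p : Ideal (MvPolynomial (Fin (m + 1)) Ω)) (l : Fin (N + 1) → Fin (m + 1) → Ω)
    (J : Set (Fin (N + 1))), p.IsPrime → Hmg p →
    (∃ f : Fin 2 → MvPolynomial (Fin (m + 1)) Ω, IndMod p f) →
    (∀ z : Fin (m + 1) → Ω, z ≠ 0 → (∀ f ∈ p, eval z f = 0) →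
      {j | ∑ i, l j i * z i = 0}.ncard ≤ c) →
    (∀ j ∈ J, lf (l j) ∉ p) → c * N₁ < J.ncard →
    ∃ S : Finset (Fin (m + 1) → Ω), (∀ u ∈ S, ∀ v ∈ S, u ≠ v → NPr u v) ∧ N₁ ≤ S.card ∧
      (∀ u ∈ S, ∃ j ∈ J, l j = u) ∧
      ∀ z : Fin (m + 1) → Ω, z ≠ 0 → (∀ f ∈ p, eval z f = 0) →
        {u | u ∈ S ∧ ∑ i, u i * z i = 0}.ncard ≤ c

/-- The points over `Mer` of `V(p₀)`, not constant, which meet all the `l j` only with multiplicities at
least `k`. -/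
def Crv {Ω : Type} [Field Ω] {m N : ℕ} (k : ℕ) (p₀ : Ideal (MvPolynomial (Fin (m + 1)) Ω))
    (l : Fin (N + 1) → Fin (m + 1) → Ω) (τ : Ω →+* ℂ) (x : Fin (m + 1) → Mer) : Prop :=
  NC x ∧ (∀ f ∈ p₀, eval₂ (tm τ) x f = 0) ∧ ∀ j, Ful k x (fun i => τ (l j i))

/-- HMP (100 lines).  Minimal primes of a homogeneous ideal are homogeneous.  PROOF.  For a prime `p` let
`p*` be the ideal of all `f` all of whose homogeneous components are in `p`.  It is prime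
(`Ideal.IsPrime.homogeneousCore`, or directly: if `f, g ∉ p*` take the components of largest degree which
are not in `p`), `I ≤ p* ≤ p` if `I` is homogeneous, so `p* = p` if `p` is a minimal prime of `I`. -/
def Stmt_HMP : Prop :=
  ∀ (Ω : Type) [Field Ω] (m : ℕ) (I : Ideal (MvPolynomial (Fin (m + 1)) Ω)), Hmg I →
    ∀ p ∈ I.minimalPrimes, Hmg p

/-- JWI (200 lines), uses UEY MPI HMP SLY DM1.  PROOF.  `N₁' ` from UEY, `N₁ = c * N₁'`.  `Θ` = the set of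
the kernels of `eval₂Hom (tm τ) x` for all `τ`, `x` with `Crv k p₀ l τ x`, `𝒥 = sInf Θ`,
`W = 𝒥.minimalPrimes`, a finite set.  `p₀ ≤ 𝒥`.  `Hmg 𝒥`: with `x` also `t x`, `t ∈ ℂ`, `t ≠ 0`, is in `Crv`
(`NC`, the ideal `p₀` is homogeneous, orders do not change), so for `f ∈ 𝒥` `∑_n t ^ n f_n(x) = 0` for all
`t ≠ 0` and `f_n(x) = 0`.  HMP: the `p ∈ W` are homogeneous.  If `Crv k p₀ l τ x`, its kernel is a prime
`≥ 𝒥` and contains some `p ∈ W`: the last claim.  Let `p ∈ W`.  MPI: there are `τ₁`, `x₁` with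
`Crv k p₀ l τ₁ x₁` and `p ≤ ker`; DM1: two independent elements.  Suppose
`J = {j | Low k p (lf (l j))}` has more than `c * N₁'` elements.  `lf (l j) ∉ p` for `j ∈ J` (see the start
of the proof of NDK).  SLY: `S`.  UEY (`p` is prime and homogeneous): `D ∉ p`.  For the other finitely
many `p' ∈ W` choose `h_(p') ∈ p'`, not in `p`; `h` = their product, `h ∉ p`.  CLAIM: `h D ∈ 𝒥`: let
`Crv k p₀ l τ x`; its kernel contains some `p' ∈ W`; if `p' ≠ p` then `h(x) = 0`, and if `p' = p` then UEY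
gives `D(x) = 0`.  So `h D ∈ 𝒥 ≤ p`, a contradiction. -/
def Stmt_JWI : Prop :=
  ∀ m c : ℕ, ∃ N₁ : ℕ, ∀ (Ω : Type) [Field Ω] [IsAlgClosed Ω] [Countable Ω] (k N : ℕ)
    (p₀ : Ideal (MvPolynomial (Fin (m + 1)) Ω)) (l : Fin (N + 1) → Fin (m + 1) → Ω), 1 ≤ k →
    Hmg p₀ →
    (∀ z : Fin (m + 1) → Ω, z ≠ 0 → (∀ f ∈ p₀, eval z f = 0) →
      {j | ∑ i, l j i * z i = 0}.ncard ≤ c) →
    ∃ W : Set (Ideal (MvPolynomial (Fin (m + 1)) Ω)), W.Finite ∧
      (∀ p ∈ W, p.IsPrime ∧ Hmg p ∧ p₀ ≤ p ∧ {j | Low k p (lf (l j))}.ncard ≤ N₁) ∧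
      ∀ (τ : Ω →+* ℂ) (x : Fin (m + 1) → Mer), Crv k p₀ l τ x →
        ∃ p ∈ W, ∀ f ∈ p, eval₂ (tm τ) x f = 0

/-! ## I. Varieties with a morphism to `Y` -/

section

variable {K Ω : Type} [Field K] [Field Ω] [Algebra K Ω] {m n : ℕ}
  {S : Set (MvPolynomial (Fin (m + 1)) K)}

/-- The morphism `g` maps `X` into `V(p)`. -/
def Into (g : Mor K Ω m n S) (p : Ideal (MvPolynomial (Fin (n + 1)) Ω)) : Prop :=
  ∀ v : Fin (m + 1) → Ω, OnX S v → ∀ s ∈ g.tuples, ∀ F ∈ p, eval (fun c => eval v (s c)) F = 0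

/-- The complex points of `X_τ` which `g` maps into `V(p)`. -/
def ExcP (g : Mor K Ω m n S) (p : Ideal (MvPolynomial (Fin (n + 1)) Ω)) (τ : Ω →+* ℂ) :
    Set (PSpace ℂ m) :=
  {x | x ∈ complexPoints S (τ.comp (algebraMap K Ω)) ∧
    ∀ s ∈ g.tuples, ∀ F ∈ p, eval₂ τ (fun c => eval₂ τ x.rep (s c)) F = 0}

/-- The entire curve `f` in `X_τ` is contained in a fibre of `g`. -/
def InFib (g : Mor K Ω m n S) (τ : Ω →+* ℂ) (f : ℂ → PSpace ℂ m) : Prop :=
  ∃ w : Fin (n + 1) → ℂ, w ≠ 0 ∧ ∀ z, ∀ s ∈ g.tuples, ∀ c c',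
    eval₂ τ (f z).rep (s c) * w c' = eval₂ τ (f z).rep (s c') * w c

/-- `X` has dimension at most `d + 1`, and the preimage under `g` of every irreducible closed subset
of `V(p₀)` different from `V(p₀)` has dimension at most `d` (any `d + 3`, resp. `d + 2`, homogeneous
coordinates satisfy a homogeneous relation). -/
def ThinY (g : Mor K Ω m n S) (p₀ : Ideal (MvPolynomial (Fin (n + 1)) Ω)) (d : ℕ) : Prop :=
  (∀ r : Fin (d + 3) → Fin (m + 1), ∃ (e : ℕ) (R : MvPolynomial (Fin (d + 3)) Ω), R ≠ 0 ∧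
    R.IsHomogeneous e ∧ ∀ v : Fin (m + 1) → Ω, OnX S v → eval (fun i => v (r i)) R = 0) ∧
  ∀ p : Ideal (MvPolynomial (Fin (n + 1)) Ω), p.IsPrime → Hmg p → p₀ < p →
    ∀ r : Fin (d + 2) → Fin (m + 1), ∃ (e : ℕ) (R : MvPolynomial (Fin (d + 2)) Ω), R ≠ 0 ∧
      R.IsHomogeneous e ∧ ∀ v : Fin (m + 1) → Ω, OnX S v →
        (∀ s ∈ g.tuples, ∀ F ∈ p, eval (fun c => eval v (s c)) F = 0) →
        eval (fun i => v (r i)) R = 0

end

/-- The map `f` to projective space meets the hyperplane `∑ u_i y_i = 0` at every point with multiplicity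
`0` or at least `k` (or is contained in it): for all holomorphic homogeneous coordinates `φ` of `f` near
`z₀`, without common zero at `z₀`. -/
def TngK {b : ℕ} (k : ℕ) (f : ℂ → PSpace ℂ b) (u : Fin (b + 1) → ℂ) : Prop :=
  ∀ (z₀ : ℂ) (φ : ℂ → Fin (b + 1) → ℂ), AnalyticAt ℂ φ z₀ → φ z₀ ≠ 0 →
    (∀ᶠ z in nhds z₀, ∃ h : φ z ≠ 0, f z = Projectivization.mk ℂ (φ z) h) →
    ∑ i, u i * φ z₀ i = 0 → (k : ℕ∞) ≤ analyticOrderAt (fun z => ∑ i, u i * φ z i) z₀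

/-- MPY (60 lines), uses P.NUL V.ORF.  PROOF.  First claim: NUL with `E = ∅` and `G = bind₁ s f` (that is
`aeval s f`), which vanishes on `X` by `Into`.  Second claim: ORF. -/
def Stmt_MPY : Prop :=
  ∀ (K Ω : Type) [Field K] [Field Ω] [Algebra K Ω] [IsAlgClosed Ω] (m n k N : ℕ)
    (S : Set (MvPolynomial (Fin (m + 1)) K)) (g : Mor K Ω m n S)
    (p₀ : Ideal (MvPolynomial (Fin (n + 1)) Ω)) (l : Fin (N + 1) → Fin (n + 1) → Ω),
    (∀ F ∈ S, ∃ d, F.IsHomogeneous d) → Into g p₀ → (∀ j, Full g k (l j)) →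
    ∀ (τ : Ω →+* ℂ) (x : Fin (m + 1) → Mer), OnK (tm τ) S x → ∀ s ∈ g.tuples,
      (∃ c, eval₂ (tm τ) x (s c) ≠ 0) →
      (∀ f ∈ p₀, eval₂ (tm τ) (fun c => eval₂ (tm τ) x (s c)) f = 0) ∧
      ∀ j, Ful k (fun c => eval₂ (tm τ) x (s c)) (fun c => τ (l j c))

/-- NCF (80 lines), uses P.FIB M0.CST.  PROOF.  See `MP_f82ddf_V/B_MPF.lean`: if `NC` fails for `y = s(x)`, all
`y_c / y_(c₀)` are constants, by FIB the `x i / x i₀` are algebraic over the algebra generated by them, and by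
CST they are constants. -/
def Stmt_NCF : Prop :=
  ∀ (K Ω : Type) [Field K] [Field Ω] [Algebra K Ω] [IsAlgClosed Ω] (m n : ℕ)
    (S : Set (MvPolynomial (Fin (m + 1)) K)) (g : Mor K Ω m n S),
    (∀ F ∈ S, ∃ d, F.IsHomogeneous d) → g.Finite →
    ∀ (τ : Ω →+* ℂ) (x : Fin (m + 1) → Mer), OnK (tm τ) S x → NC x → ∀ s ∈ g.tuples,
      (∃ c, eval₂ (tm τ) x (s c) ≠ 0) → NC (fun c => eval₂ (tm τ) x (s c))

/-- TGY (120 lines), uses M1.REP M1.ALG M1.POL M1.ORD M1.VAL.  As `MP_f82ddf_H/B_OTN.lean` (docstring of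
`Pool.MPH.Stmt_OTN`): `om (∑ u_j x_j) z₀ = dv x z₀ +` the order of the analytic function `∑ u_i ψ_i` at
`z₀`, which is `0` or at least `k` (or `⊤`). -/
def Stmt_TGY : Prop :=
  ∀ (b k : ℕ) (u : Fin (b + 1) → ℂ) (f : ℂ → PSpace ℂ b), HolomorphicOn f Set.univ →
    TngK k f u →
    ∀ (φ : Fin (b + 1) → ℂ → ℂ) (hφ : ∀ j z, MeromorphicAt (φ j) z) (i : Fin (b + 1)),
      Mer.mk (φ i) (hφ i) = 1 →
      (∀ z₀, ∀ᶠ z in nhdsWithin z₀ {z₀}ᶜ, ∃ c : ℂ, c ≠ 0 ∧ ∀ j, (f z).rep j = c * φ j z) →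
      Ful k (fun j => Mer.mk (φ j) (hφ j)) u

/-- THEOREM T. -/
def Stmt_Y1 : Prop :=
  ∀ n c : ℕ, ∃ N₁ : ℕ, ∀ (K : Type) [Field K] [NumberField K] (k N : ℕ)
    (p₀ : Ideal (MvPolynomial (Fin (n + 1)) (AlgebraicClosure K)))
    (l : Fin (N + 1) → Fin (n + 1) → AlgebraicClosure K), 1 ≤ k → Hmg p₀ →
    (∀ z : Fin (n + 1) → AlgebraicClosure K, z ≠ 0 → (∀ f ∈ p₀, eval z f = 0) →
      {j | ∑ i, l j i * z i = 0}.ncard ≤ c) →
    ∃ W : Set (Ideal (MvPolynomial (Fin (n + 1)) (AlgebraicClosure K))), W.Finite ∧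
      (∀ p ∈ W, p.IsPrime ∧ Hmg p ∧ p₀ ≤ p ∧ {j | Low k p (lf (l j))}.ncard ≤ N₁) ∧
      (∀ (τ : AlgebraicClosure K →+* ℂ) (f : ℂ → PSpace ℂ n), HolomorphicOn f Set.univ →
        (∀ z, ∀ F ∈ p₀, eval₂ τ (f z).rep F = 0) → (∀ j, TngK k f (fun i => τ (l j i))) →
        (∃ z₁ z₂, f z₁ ≠ f z₂) → ∃ p ∈ W, ∀ z, ∀ F ∈ p, eval₂ τ (f z).rep F = 0) ∧
      ∀ (m : ℕ) (S : Set (MvPolynomial (Fin (m + 1)) K)), (∀ F ∈ S, ∃ d, F.IsHomogeneous d) →
        ∀ (g : Mor K (AlgebraicClosure K) m n S), Into g p₀ → (∀ j, Full g k (l j)) →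
        ∀ (τ : AlgebraicClosure K →+* ℂ),
          (∀ f : ℂ → PSpace ℂ m, HolomorphicOn f Set.univ →
            (∀ z, f z ∈ complexPoints S (τ.comp (algebraMap K (AlgebraicClosure K)))) →
            (∃ p ∈ W, ∀ z, f z ∈ ExcP g p τ) ∨ InFib g τ f) ∧
          (g.Finite → (∀ f : ℂ → PSpace ℂ m, HolomorphicOn f Set.univ →
              (∀ z, f z ∈ complexPoints S (τ.comp (algebraMap K (AlgebraicClosure K)))) →
              (∃ z₁ z₂, f z₁ ≠ f z₂) → ∃ p ∈ W, ∀ z, f z ∈ ExcP g p τ) ∧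
            (KobayashiHyperbolic
                (complexPoints S (τ.comp (algebraMap K (AlgebraicClosure K)))) ↔
              KobayashiHyperbolic (⋃ p ∈ W, ExcP g p τ)))

/-- FNY (200 lines), uses JWI MPY NCF TGY P.MPT M0.MREL.  PROOF of `Stmt_Y1`.  `N₁`, `W` from JWI for
`Ω = AlgebraicClosure K` (countable, see `MP_f82ddf_U/B_FNU.lean`).  (1) CURVES IN `V(p₀)`:
`exists_mer_of_curve` (DQ/Hol2.lean) with `K = ℂ`, `S = ∅`, `σ = id` as in `MP_f82ddf_H/B_FNH.lean`: `φ`, `x`,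
`x i = 1`, `NC x`; for homogeneous `F ∈ p₀` the form `map τ F` vanishes at all `(f z).rep`, hence at `x`
(the relation is an identity of meromorphic functions: the direction `curve → Mer` of MREL, see how
`OnK` is obtained in `exists_mer_of_curve`; easiest: take for `S` the set of the homogeneous elements
`map τ F`, `F ∈ p₀`); TGY: `Ful k x (τ ∘ l j)`.  JWI: `p ∈ W` with `F(x) = 0` for `F ∈ p`; MREL:
`F((f z).rep) = 0` for all `z` (homogeneous `F ∈ p`, then all of them).  (2) CURVES IN `X`: as in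
`MP_f82ddf_H/B_FHG.lean`: `x`, MPT: `s₀`, `y = s₀(x) ≠ 0`; MPY.  If `NC y`: `Crv`, JWI: `p ∈ W`, `F(y) = 0` for
`F ∈ p`, so `F(s(x)) = 0` for all `s ∈ g.tuples` (`s(x)` is a multiple of `y`, homogeneous `F`) and MREL
gives `f z ∈ ExcP g p τ`.  If not `NC y`: `InFib` as in `B_FHG.lean`.  (3) `g` finite: `NC x` (the curve is not
constant) and NCF: `NC y`.  HYPERBOLICITY as in `MP_f82ddf_U/B_FNU.lean` (`exists_entire_curve`,
`not_kobayashi`; the curve is in one `ExcP g p τ`, hence in the union). -/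
def Stmt_FNY : Prop := Stmt_Y1

/-- DCO (80 lines), uses W.TRM.  Dimension and coordinates.  PROOF.  In the field of fractions of
`Ω[X] / p` the algebraically independent subsets of the set of the classes of the variables have at most
`d` elements (a set of `d + 1` independent ones would be `s` with `IndMod p (X ∘ s)`), so all the classes are
algebraic over the field generated by `≤ d` of them.  TRM. -/
def Stmt_DCO : Prop :=
  ∀ (Ω : Type) [Field Ω] (m d : ℕ) (p : Ideal (MvPolynomial (Fin (m + 1)) Ω)), p.IsPrime →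
    (∀ s : Fin (d + 1) → Fin (m + 1),
      ¬ IndMod p (fun i => (X (s i) : MvPolynomial (Fin (m + 1)) Ω))) → DimLE p d

/-- DIY (180 lines), uses JWI MPY NCF DDR DCO P.MPT P.FIB P.TRX M0.HOMR.  `Y` of dimension at most `2`,
finite morphisms.  PROOF.  As `MP_f82ddf_V/B_DIF.lean`.  `N₁` from JWI (applied to `p₀`).  `DimLE p₀ 3` by DCO
(`IndMod p₀ (X ∘ s)` fails by the hypothesis: `rename s R ∈ p₀`).  Let `σ`, `x` be given and suppose that
three coordinates `x (r i)` satisfy no homogeneous relation; so `x` is not constant; `τ`, MPT: `s`,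
`y = s(x) ≠ 0`, `NC y` (NCF), MPY: `Crv`; JWI: `p ∈ W`, `F(y) = 0` for `F ∈ p`.  `p ≠ p₀` because
`N₁ < {j | Low k p₀ ..}.ncard`, so `p₀ < p`, and DDR: `DimLE p 2`.  Let `y_(c₀) ≠ 0`.  By FIB the
`x i / x (r 0)` are algebraic over the ring generated by the `y_c / y_(c₀)`; TRX: two algebraically
independent elements among these quotients, `y_a / y_(c₀)`, `y_b / y_(c₀)`.  But `X_(c₀), X_a, X_b` are not
independent modulo `p` (`DimLE p 2`): `H(X_(c₀), X_a, X_b) ∈ p`, `H ≠ 0`, and we may take `H` homogeneous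
(`Hmg p`), so `map τ H` is a homogeneous relation between `y_(c₀), y_a, y_b`, a contradiction. -/
def Stmt_DIY : Prop :=
  ∀ n c : ℕ, ∃ N₁ : ℕ, ∀ (K : Type) [Field K] [NumberField K] (k N : ℕ)
    (p₀ : Ideal (MvPolynomial (Fin (n + 1)) (AlgebraicClosure K)))
    (l : Fin (N + 1) → Fin (n + 1) → AlgebraicClosure K), 1 ≤ k → p₀.IsPrime → Hmg p₀ →
    (∀ z : Fin (n + 1) → AlgebraicClosure K, z ≠ 0 → (∀ f ∈ p₀, eval z f = 0) →
      {j | ∑ i, l j i * z i = 0}.ncard ≤ c) →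
    (∀ s : Fin 4 → Fin (n + 1), ∃ (e : ℕ) (R : MvPolynomial (Fin 4) (AlgebraicClosure K)),
      R ≠ 0 ∧ R.IsHomogeneous e ∧ rename s R ∈ p₀) →
    N₁ < {j | Low k p₀ (lf (l j))}.ncard →
    ∀ (m : ℕ) (S : Set (MvPolynomial (Fin (m + 1)) K)), (∀ F ∈ S, ∃ d, F.IsHomogeneous d) →
      ∀ (g : Mor K (AlgebraicClosure K) m n S), g.Finite → Into g p₀ → (∀ j, Full g k (l j)) →
        Pool.ThmM0.DimMer S 1

/-- THY (200 lines), uses JWI MPY P.MPT P.NUL P.THR P.EXB M0.HOMR DM1.  Thin morphisms.  PROOF.  `N₁` from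
JWI.  Let `σ`, `x` be given, `x ≠ 0` (for `x = 0` the relation `X 0`), `τ` an extension of `σ`,
`OnK (tm τ) S x`, and suppose that the `d + 2` coordinates `x (r i)` satisfy no homogeneous relation.  MPT:
`s`, `y = s(x) ≠ 0`, `y_(c₀) ≠ 0`, MPY.  Let `P_y` be the ideal of all `F` over `Ω = AlgebraicClosure K` all of
whose homogeneous components vanish at `y`: prime (the kernel of `Ω[X] → Mer[T]`, `X_c ↦ y_c T`),
homogeneous, `p₀ ≤ P_y`.  CASE `p₀ < P_y`: `ThinY` (2) gives `R ≠ 0` over `Ω` which vanishes at `v ∘ r` for all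
`v ∈ X` with `g(v) ∈ V(P_y)`; NUL with `E = {bind₁ s' F | s' ∈ g.tuples, F ∈ P_y}` (they vanish at `x`:
`s'(x)` is a multiple of `y`), `G = rename r R`: `map τ R` is a homogeneous relation between the
`x (r i)`, a contradiction.  CASE `P_y = p₀`: if `NC y`, then `Crv` and JWI give `p ∈ W`, `p ≤ P_y = p₀`,
so `p = p₀ ∈ W`, against `N₁ < ..`.  If not `NC y`, then `t_c = y_c / y_(c₀) ∈ ℂ` for all `c`.  By the
hypothesis two elements are independent modulo `p₀ = P_y`, so not all `t_c` are in `τ(Ω)` (otherwise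
`X_c - C (a_c) X_(c₀) ∈ P_y` for all `c`, and no two elements are independent modulo `P_y`: every
polynomial is one in `X_(c₀)`); let `t_(c₁) ∉ τ(Ω)`, transcendental over `Ω`.  HOMR: `p_i = x (r (i+1)) / x (r 0)`,
`i ≤ d`, are algebraically independent over `ℂ`; THR (as in the proof of `Pool.ThmP.Stmt_THN`,
`MP_f82ddf_P/B_THN.lean`): all the `x_j / x (r 0)`, so `t_(c₁)`, are algebraic over `Ω[p]`.  EXB (`F = Ω`,
`E = ℂ`, `L = Mer`, `n = 1`): `t_(c₁)` is transcendental over `ℂ`, but it is in `ℂ`, a contradiction. -/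
def Stmt_THY : Prop :=
  ∀ n c : ℕ, ∃ N₁ : ℕ, ∀ (K : Type) [Field K] [NumberField K] (k N d : ℕ)
    (p₀ : Ideal (MvPolynomial (Fin (n + 1)) (AlgebraicClosure K)))
    (l : Fin (N + 1) → Fin (n + 1) → AlgebraicClosure K), 1 ≤ k → p₀.IsPrime → Hmg p₀ →
    (∀ z : Fin (n + 1) → AlgebraicClosure K, z ≠ 0 → (∀ f ∈ p₀, eval z f = 0) →
      {j | ∑ i, l j i * z i = 0}.ncard ≤ c) →
    (∃ f : Fin 2 → MvPolynomial (Fin (n + 1)) (AlgebraicClosure K), IndMod p₀ f) →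
    N₁ < {j | Low k p₀ (lf (l j))}.ncard →
    ∀ (m : ℕ) (S : Set (MvPolynomial (Fin (m + 1)) K)), (∀ F ∈ S, ∃ d, F.IsHomogeneous d) →
      ∀ (g : Mor K (AlgebraicClosure K) m n S), ThinY g p₀ d → Into g p₀ →
        (∀ j, Full g k (l j)) → Pool.ThmM0.DimMer S d

/-- THEOREM T, Lang's criterion.  `Y = V(p₀)` is irreducible and more than `N₁` of the `l j` are `Low` on
it; `Y` is of dimension at most 2 and `g` is finite, or `g` is thin (for example `X` any surface with a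
morphism to `Y` which is dominant). -/
def Stmt_Y2 : Prop :=
  ∀ n c : ℕ, ∃ N₁ : ℕ, ∀ (K : Type) [Field K] [NumberField K] (k N : ℕ)
    (p₀ : Ideal (MvPolynomial (Fin (n + 1)) (AlgebraicClosure K)))
    (l : Fin (N + 1) → Fin (n + 1) → AlgebraicClosure K), 1 ≤ k → p₀.IsPrime → Hmg p₀ →
    (∀ z : Fin (n + 1) → AlgebraicClosure K, z ≠ 0 → (∀ f ∈ p₀, eval z f = 0) →
      {j | ∑ i, l j i * z i = 0}.ncard ≤ c) →
    N₁ < {j | Low k p₀ (lf (l j))}.ncard →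
    ∀ (m : ℕ) (S : Set (MvPolynomial (Fin (m + 1)) K)), (∀ F ∈ S, ∃ d, F.IsHomogeneous d) →
      ∀ (g : Mor K (AlgebraicClosure K) m n S), Into g p₀ → (∀ j, Full g k (l j)) →
        ((g.Finite ∧ ∀ s : Fin 4 → Fin (n + 1),
            ∃ (e : ℕ) (R : MvPolynomial (Fin 4) (AlgebraicClosure K)),
              R ≠ 0 ∧ R.IsHomogeneous e ∧ rename s R ∈ p₀) ∨
          ((∃ f : Fin 2 → MvPolynomial (Fin (n + 1)) (AlgebraicClosure K), IndMod p₀ f) ∧
            ∃ d ≤ 1, ThinY g p₀ d)) →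
        (∀ σ : K →+* ℂ, KobayashiHyperbolic (complexPoints S σ) ↔
          ¬ Pool.MCL.CubicImage S (AlgebraicClosure K) (algebraMap K (AlgebraicClosure K))) ∧
        (Pool.MCL.CubicImage S (AlgebraicClosure K) (algebraMap K (AlgebraicClosure K)) →
          ∃ (L : Type) (_ : Field L) (_ : Algebra K L) (_ : FiniteDimensional K L),
            (points S L).Infinite)

/-- FIY (80 lines), uses DIY THY M0.PAI P6C (`Pool.MCL.stmt_P6C`).  PROOF of `Stmt_Y2`.  `N₁` = the maximum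
of the numbers of DIY and THY; `DimMer S 1` (from `DimMer S 0` by renaming, see
`MP_f82ddf_P/B_FDX.lean`).  Then as `MP_f82ddf_V/B_FVS.lean`. -/
def Stmt_FIY : Prop := Stmt_Y2

end Pool.MPY
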