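import Pool.Agent.Work.MP_f82ddf_Y.Interface2
import Pool.Agent.Work.MP_f82ddf_H.Interface2

set_option autoImplicit false

/-! # THEOREM T (MP_f82ddf_nt): arbitrary target varieties, part 3: hypersurfaces of bounded degree with
different multiplicities

Table `mpy_blocks`, same rules as in `Interface.lean` (import this file instead).  In the column `uses`
`H.` = `Pool.MPH.Stmt_`.

Instead of linear forms `l_j` and one number `k` we take forms `F_j` of degrees `e_j ≤ e₀` and numbers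
`k_j`.  The Veronese map of degree `E = e₀!` turns `F_j ^ (E / e_j)` into a linear form, and the
multiplicity `k_j` into `k_j * (E / e_j)`. -/

open Pool.Agent.Work.MP_f82ddf_nt.DQ

namespace Pool.MPY

open MvPolynomial
open Pool.Agent.Work.MP_f82ddf_nt (PSpace HolomorphicOn complexPoints points KobayashiHyperbolic)
open Pool.ThmM (NonProp HypData LastMonic IsRat om dv vP)
open Pool.ThmM0 (Per)
open Pool.ThmP (Mor OnX OnK tm RelP FullF)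
open Pool.MPL (RX NC aq ae NPr Spn)
open Pool.MPV (Ful Full)
open Pool.MPH (FuF)

/-- A form on which `Low` holds is not in `p`. -/
theorem Low_notMem {F : Type} [Field F] {m k : ℕ} {p : Ideal (MvPolynomial (Fin (m + 1)) F)}
    {l : MvPolynomial (Fin (m + 1)) F} (hp : p.IsPrime) (h : Low k p l) : l ∉ p := by
  intro hl
  have h1 : p ⊔ Ideal.span {l} = p := sup_eq_left.2 ((Ideal.span_singleton_le_iff_mem p).2 hl)
  have h2 : p ∈ (p ⊔ Ideal.span {l}).minimalPrimes := by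
    rw [h1]
    exact ⟨⟨hp, le_rfl⟩, fun q hq _ => hq.2⟩
  obtain ⟨t, _, _, h3⟩ := h p h2
  exact h3 1 (fun h4 => hp.ne_top ((Ideal.eq_top_iff_one p).2 h4))
    (Ideal.mem_sup_left (by simpa using hl))

/-- `Low 0` does not hold. -/
theorem Low_pos {F : Type} [Field F] {m k e : ℕ} {p : Ideal (MvPolynomial (Fin (m + 1)) F)}
    {l : MvPolynomial (Fin (m + 1)) F} (hp : p.IsPrime) (hh : Hmg p) (he : 1 ≤ e)
    (hl : l.IsHomogeneous e) (h : Low k p l) : 1 ≤ k := by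
  by_contra hk
  have hk : k = 0 := by omega
  subst hk
  have h1 : p ⊔ Ideal.span {l} ≤ RingHom.ker (constantCoeff (R := F) (σ := Fin (m + 1))) := by
    apply sup_le
    · intro f hf
      rw [RingHom.mem_ker]
      by_contra hc
      have h2 := hh f hf 0
      rw [homogeneousComponent_zero, ← constantCoeff_eq] at h2
      exact hp.ne_top (Ideal.eq_top_of_isUnit_mem _ h2
        ((isUnit_iff_ne_zero.2 hc).map (C : F →+* MvPolynomial (Fin (m + 1)) F)))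
    · rw [Ideal.span_singleton_le_iff_mem, RingHom.mem_ker]
      by_contra hc
      have h2 := hl hc
      simp at h2
      omega
  have h3 : p ⊔ Ideal.span {l} ≠ ⊤ := by
    intro h4
    have h5 : (1 : MvPolynomial (Fin (m + 1)) F) ∈ p ⊔ Ideal.span {l} := by rw [h4]; trivial
    have h6 := h1 h5
    rw [RingHom.mem_ker, map_one] at h6
    exact one_ne_zero h6
  obtain ⟨M, hM, hM2⟩ := Ideal.exists_le_maximal _ h3
  haveI := hM.isPrime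
  obtain ⟨q, hq, _⟩ := Ideal.exists_minimalPrimes_le hM2
  obtain ⟨t, _, _, h7⟩ := h q hq
  refine h7 1 (fun h8 => hq.1.1.ne_top ((Ideal.eq_top_iff_one q).2 h8)) ?_
  rw [pow_zero, Ideal.span_singleton_one]
  simp

/-! ## J. Different multiplicities for linear forms -/

/-- PTV (250 lines, a copy of B_PTY), uses T3S DRT UNF NDK ODX DVL NCL DM1 U.TRP V.EXF U.MVP.  As PTY with a
number `k u` for every `u`.  PROOF.  That of PTY; the only change: choose `u₁ ∈ T` such that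
`k₁ = k(ū₁)` is minimal, `ū₁ = ∑ u₁_j L_j` (`Finset.exists_min_image`; `T` is not empty).  For `u ∈ T`:
`Ful (k ū) x' (α ∘ ū)` implies `Ful k₁ x' (α ∘ ū)`, DRT for `k₁`; UNF and NDK for `k₁`, `u₁` (`Low k₁ p (lf ū₁)`). -/
def Stmt_PTV : Prop :=
  ∀ m c : ℕ, ∃ N₁ : ℕ, ∀ (k : (Fin (m + 1) → ℂ) → ℕ) (p : Ideal (MvPolynomial (Fin (m + 1)) ℂ))
    (S : Finset (Fin (m + 1) → ℂ)), (∀ u ∈ S, 1 ≤ k u) → p.IsPrime → Hmg p →
    (∀ u ∈ S, ∀ v ∈ S, u ≠ v → NonProp u v) →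
    (∀ z : Fin (m + 1) → ℂ, z ≠ 0 → (∀ f ∈ p, eval z f = 0) →
      {u | u ∈ S ∧ ∑ i, u i * z i = 0}.ncard ≤ c) →
    (∀ u ∈ S, Low (k u) p (lf u)) → N₁ ≤ S.card →
    ∃ D ∉ p, ∀ (α : ℂ ≃+* ℂ) (x : Fin (m + 1) → Mer), NC x → (∀ f ∈ p, aeval x (aq α f) = 0) →
      (∀ u ∈ S, Ful (k u) x (fun i => α (u i))) → aeval x (aq α D) = 0

/-- UEV (150 lines, a copy of B_UEY), uses PTV PEX LOX DSG ODX U.AUT U.RKT.  PROOF.  That of UEY; the
function `k` on `τ₀(S)` is `k' (τ₀ ∘ u) = k u` (`τ₀` is injective; `Function.extend` or `invFun`). -/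
def Stmt_UEV : Prop :=
  ∀ m c : ℕ, ∃ N₁ : ℕ, ∀ (Ω : Type) [Field Ω] [IsAlgClosed Ω] [Countable Ω]
    (k : (Fin (m + 1) → Ω) → ℕ) (p : Ideal (MvPolynomial (Fin (m + 1)) Ω))
    (S : Finset (Fin (m + 1) → Ω)), (∀ u ∈ S, 1 ≤ k u) →
    p.IsPrime → Hmg p → (∀ u ∈ S, ∀ v ∈ S, u ≠ v → NPr u v) →
    (∀ z : Fin (m + 1) → Ω, z ≠ 0 → (∀ f ∈ p, eval z f = 0) →
      {u | u ∈ S ∧ ∑ i, u i * z i = 0}.ncard ≤ c) →
    (∀ u ∈ S, Low (k u) p (lf u)) → N₁ ≤ S.card →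
    ∃ D ∉ p, ∀ (τ : Ω →+* ℂ) (x : Fin (m + 1) → Mer), NC x →
      (∀ f ∈ p, eval₂ (tm τ) x f = 0) → (∀ u ∈ S, Ful (k u) x (fun i => τ (u i))) →
      eval₂ (tm τ) x D = 0

/-! ## K. The Veronese map -/

/-- `ε` enumerates the exponents of degree `E` in `b` variables. -/
def Exps {t b : ℕ} (E : ℕ) (ε : Fin t → Fin b →₀ ℕ) : Prop :=
  Function.Injective ε ∧ ∀ μ : Fin b →₀ ℕ, ∑ i, μ i = E ↔ ∃ c, ε c = μ

/-- The Veronese homomorphism `Y_c ↦ X ^ (ε c)`. -/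
noncomputable def vr {F : Type} [CommRing F] {t b : ℕ} (ε : Fin t → Fin b →₀ ℕ) :
    MvPolynomial (Fin t) F →ₐ[F] MvPolynomial (Fin b) F := aeval fun c => monomial (ε c) 1

/-- VRG (150 lines).  PROOF.  (1) The set of exponents of degree `E` is finite and not empty (see
`MP_f82ddf_P/B_VER.lean`).  (2) `eval₂` of both sides: ring homomorphisms which agree on the variables
and constants.  (3) `VGF_val` / `eval_eq'` (or compare the coefficients): a form of degree `E` is the sum of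
its terms with exponents `ε c`.  (4) `vr` of a monomial of degree `d` is a monomial of degree `d E`.
(5) By linearity for a monomial `X ^ μ`, `∑ μ_i = d E`: induction on `d`; there is `ν ≤ μ` of degree `E`
(`E ≤ ∑ μ_i`), `X ^ μ = X ^ ν X ^ (μ - ν)`.  (6) `X i ^ E = vr (X c)`, `ε c = single i E`, so all the `X i`
are integral over the image (`E ≥ 1`), and so are all polynomials. -/
def Stmt_VRG : Prop :=
  (∀ b E : ℕ, ∃ (t : ℕ) (ε : Fin (t + 1) → Fin (b + 1) →₀ ℕ), Exps E ε) ∧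
  ∀ (Ω : Type) [Field Ω] (b t E : ℕ) (ε : Fin (t + 1) → Fin (b + 1) →₀ ℕ), Exps E ε → 1 ≤ E →
    (∀ (R : Type) [CommRing R] (φ : Ω →+* R) (x : Fin (b + 1) → R)
      (f : MvPolynomial (Fin (t + 1)) Ω),
      eval₂ φ x (vr ε f) = eval₂ φ (fun c => ∏ i, x i ^ ε c i) f) ∧
    (∀ F : MvPolynomial (Fin (b + 1)) Ω, F.IsHomogeneous E →
      vr ε (lf fun c => coeff (ε c) F) = F) ∧
    (∀ (d : ℕ) (f : MvPolynomial (Fin (t + 1)) Ω), f.IsHomogeneous d →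
      (vr ε f).IsHomogeneous (d * E)) ∧
    (∀ (d : ℕ) (F : MvPolynomial (Fin (b + 1)) Ω), F.IsHomogeneous (d * E) →
      ∃ f : MvPolynomial (Fin (t + 1)) Ω, f.IsHomogeneous d ∧ vr ε f = F) ∧
    ((vr ε : MvPolynomial (Fin (t + 1)) Ω →ₐ[Ω] MvPolynomial (Fin (b + 1)) Ω) :
      MvPolynomial (Fin (t + 1)) Ω →+* MvPolynomial (Fin (b + 1)) Ω).IsIntegral

/-- VPR (60 lines), uses VRG.  Minimal primes.  PROOF.  `q'` is a prime which contains `p.comap`, `vr ε` is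
integral: there is a prime `Q ≥ p` with `Q.comap = q'`
(`Ideal.exists_ideal_over_prime_of_isIntegral` for the algebra given by `vr ε`).
`F ^ a = vr ε L ∈ Q`, so `F ∈ Q`.  Let `q ≤ Q` be a minimal prime of `p ⊔ (F)`; its comap is a prime `≤ q'`
which contains `p.comap` and `L` (`F ^ a ∈ q`, `a ≥ 1`), so it is `q'`. -/
def Stmt_VPR : Prop :=
  ∀ (Ω : Type) [Field Ω] (b t E a : ℕ) (ε : Fin (t + 1) → Fin (b + 1) →₀ ℕ), Exps E ε → 1 ≤ E →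
    1 ≤ a → ∀ (p : Ideal (MvPolynomial (Fin (b + 1)) Ω)) (F : MvPolynomial (Fin (b + 1)) Ω)
      (L : MvPolynomial (Fin (t + 1)) Ω), vr ε L = F ^ a →
      ∀ q' ∈ (p.comap (vr ε) ⊔ Ideal.span {L}).minimalPrimes,
        ∃ q ∈ (p ⊔ Ideal.span {F}).minimalPrimes, q.comap (vr ε) = q'

/-- VPT (120 lines), uses VRG P.NUL.  Points.  PROOF.  Let `P'` be the kernel of `Ω[Y] → Ω[T]`,
`Y_c ↦ z'_c T`, a prime.  It contains `p.comap (vr ε)`: for `f` in it the homogeneous components `f_d` are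
in it too (`vr ε f_d` is the component of degree `d E` of `vr ε f`, VRG), `f_d(z') = 0`.  As in VPR there is
a prime `Q ≥ p` with `Q.comap = P'`.  Let `κ` be the field of fractions of `Ω[X] / Q` and `x_i` the class
of `X_i`: `f(x) = 0` for `f ∈ p`, `x ^ (ε c) z'_d = x ^ (ε d) z'_c` for all `c, d`
(`Y_c z'_d - Y_d z'_c ∈ P'`), and `x_i ≠ 0` for some `i` (`Y_c ∉ P'` if `z'_c ≠ 0`).  NUL (`K = Ω`, `S` = the
homogeneous elements of `p`, `E` = these forms, `G = X i`): there is `z` over `Ω` with `f(z) = 0` for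
`f ∈ p`, `z ^ (ε c) z'_d = z ^ (ε d) z'_c` and `z_i ≠ 0`.  With `ε c₀ = single i E`:
`z'_d = (z'_(c₀) / z_i ^ E) z ^ (ε d)`, and the factor is not `0` because `z' ≠ 0`. -/
def Stmt_VPT : Prop :=
  ∀ (Ω : Type) [Field Ω] [IsAlgClosed Ω] (b t E : ℕ) (ε : Fin (t + 1) → Fin (b + 1) →₀ ℕ),
    Exps E ε → 1 ≤ E → ∀ p : Ideal (MvPolynomial (Fin (b + 1)) Ω), Hmg p →
    ∀ z' : Fin (t + 1) → Ω, z' ≠ 0 → (∀ f ∈ p.comap (vr ε), eval z' f = 0) →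
      ∃ (z : Fin (b + 1) → Ω) (c : Ω), z ≠ 0 ∧ c ≠ 0 ∧ (∀ f ∈ p, eval z f = 0) ∧
        ∀ d, z' d = c * ∏ i, z i ^ ε d i

/-- VIN (80 lines), uses DCO.  Independence.  PROOF.  By DCO (`d = 1`) there is `s : Fin 2 → Fin (b + 1)`
with `IndMod p (X ∘ s)` (otherwise `DimLE p 1`, but `f` has two elements).  Let
`ε (c i) = single (s i) E`, `f' i = X (c i)`.  If `aeval f' H ∈ p.comap`, then
`aeval (fun i => X (s i) ^ E) H = aeval (X ∘ s) (expand E H) ∈ p`, so `expand E H = 0` and `H = 0`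
(`E ≥ 1`). -/
def Stmt_VIN : Prop :=
  ∀ (Ω : Type) [Field Ω] (b t E : ℕ) (ε : Fin (t + 1) → Fin (b + 1) →₀ ℕ), Exps E ε → 1 ≤ E →
    ∀ p : Ideal (MvPolynomial (Fin (b + 1)) Ω), p.IsPrime →
      (∃ f : Fin 2 → MvPolynomial (Fin (b + 1)) Ω, IndMod p f) →
      ∃ f : Fin 2 → MvPolynomial (Fin (t + 1)) Ω, IndMod (p.comap (vr ε)) f

/-- HYF (60 lines), uses VRG VPT VIN HYP.  PROOF.  `ε` for `E = e` (VRG), `p' = p.comap (vr ε)`, homogeneous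
(VRG, see VPT).  HYP for `p'` and `u_c = coeff (ε c) F`: `z'`; VPT: `z`, and
`F(z) = ∑ u_c z ^ (ε c) = 0`. -/
def Stmt_HYF : Prop :=
  ∀ (Ω : Type) [Field Ω] [IsAlgClosed Ω] (m e : ℕ) (p : Ideal (MvPolynomial (Fin (m + 1)) Ω)),
    p.IsPrime → Hmg p → (∃ f : Fin 2 → MvPolynomial (Fin (m + 1)) Ω, IndMod p f) → 1 ≤ e →
    ∀ F : MvPolynomial (Fin (m + 1)) Ω, F.IsHomogeneous e →
      ∃ z : Fin (m + 1) → Ω, z ≠ 0 ∧ (∀ f ∈ p, eval z f = 0) ∧ eval z F = 0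

/-- QNM (60 lines), uses HYF.  PROOF.  HYF: `z`, `z_i ≠ 0`.  Let `P` be the kernel of `Ω[X] → Ω[T]`,
`X_j ↦ z_j T`, a prime which contains `p ⊔ (F)` (homogeneous elements), `X i ∉ P`, and all its elements
have constant coefficient `0` (`T = 0`).  If all the `X b` are in `q`, then `q` contains all the polynomials
with constant coefficient `0`, so `P ≤ q`, `P = q` by minimality, `X i ∈ P`, a contradiction. -/
def Stmt_QNM : Prop :=
  ∀ (Ω : Type) [Field Ω] [IsAlgClosed Ω] (m e : ℕ) (p : Ideal (MvPolynomial (Fin (m + 1)) Ω))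
    (F : MvPolynomial (Fin (m + 1)) Ω), p.IsPrime → Hmg p →
    (∃ f : Fin 2 → MvPolynomial (Fin (m + 1)) Ω, IndMod p f) → 1 ≤ e → F.IsHomogeneous e →
    ∀ q ∈ (p ⊔ Ideal.span {F}).minimalPrimes, ∃ b, (X b : MvPolynomial (Fin (m + 1)) Ω) ∉ q

/-- HTC (120 lines).  The local parameter may be taken homogeneous.  PROOF.  `t = ∑ t_i` (homogeneous
components), `t_i ∈ q`, so `h_i t_i - t g_i ∈ p`, `h_i ∉ q`.  Suppose first that all `g_i ∈ q`.  With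
`h = ∏ h_i ∉ q`: `h t_i - t g'_i ∈ p`, `g'_i ∈ q`, so `t (h - ∑ g'_i) ∈ p`, `h - ∑ g'_i ∉ q`, so `t ∈ p`; then for
`f ∈ q` `h f ∈ p ⊔ (t) = p` for some `h ∉ q`, so `q ≤ p` and `F ∈ p`, a contradiction.  So some `g_i ∉ q`,
and we take `t' = t_i`.  For `f ∈ q`: `h f = π + t g`, so `g_i h f = g_i π + g t g_i ∈ p ⊔ (t_i)`
(`t g_i ∈ p ⊔ (t_i)`).  `t' ∉ p`: otherwise `q ≤ p` as before.  If `h F ∈ p ⊔ (t_i ^ k)`, then
`h_i ^ k h F ∈ p ⊔ ((h_i t_i) ^ k) ≤ p ⊔ (t ^ k)`, a contradiction. -/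
def Stmt_HTC : Prop :=
  ∀ (Ω : Type) [Field Ω] (m k : ℕ) (p q : Ideal (MvPolynomial (Fin (m + 1)) Ω))
    (F t : MvPolynomial (Fin (m + 1)) Ω), p.IsPrime → q.IsPrime → Hmg q → p ≤ q → F ∈ q → F ∉ p →
    t ∈ q → (∀ f ∈ q, ∃ h ∉ q, h * f ∈ p ⊔ Ideal.span {t}) →
    (∀ h ∉ q, h * F ∉ p ⊔ Ideal.span {t ^ k}) →
    ∃ (i : ℕ) (t' : MvPolynomial (Fin (m + 1)) Ω), t'.IsHomogeneous i ∧ t' ∈ q ∧ t' ∉ p ∧
      (∀ f ∈ q, ∃ h ∉ q, h * f ∈ p ⊔ Ideal.span {t'}) ∧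
      ∀ h ∉ q, h * F ∉ p ⊔ Ideal.span {t' ^ k}

/-- LOV (250 lines), uses VRG VPR QNM HTC HMP ORL.  PROOF.  `p' = p.comap (vr ε)`, `L` = the linear form,
`vr ε L = F ^ a` (VRG).  Let `q'` be a minimal prime of `p' ⊔ (L)`; VPR: `q`, a minimal prime of `p ⊔ (F)`,
homogeneous (HMP), `q' = q.comap (vr ε)`.  `F ∉ p` (`Low_notMem`).  `Low` for `q`, HTC: `t` homogeneous of degree
`i`, `t ∈ q`, `t ∉ p`.  QNM: `X_b ∉ q`.  `G = X_b ^ (i (E - 1))`, `t G` of degree `i E`, VRG: `t G = vr ε t'`.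
`t' ∈ q'`.  (1) Let `f' ∈ q'`.  The components `f'_d` are in `q'` (`vr ε f'_d` is the component of degree `d E`
of `vr ε f' ∈ q`), and we may treat them one by one (product of the `h'`).  So let `f'` be homogeneous of
degree `d`, `f = vr ε f' ∈ q` of degree `d E`, `h f - t g ∈ p`, `h ∉ q`; let `h_l ∉ q` be a component of `h`
(of degree `l`); the component of degree `l + d E` gives `h_l f - t g₁ ∈ p`, `g₁` homogeneous with
`deg g₁ + i = l + d E`, or `g₁ = 0`.  Multiply by `G X_b ^ u`, `u = l (E - 1) + i`: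
`(h_l G X_b ^ u) f - (t G) (g₁ X_b ^ u) ∈ p`, and `h_l G X_b ^ u`, `g₁ X_b ^ u` are of degrees `(l + i) E`,
`(l + d) E`: they are `vr ε h'`, `vr ε g'`, `h' ∉ q'`, `h' f' - t' g' ∈ p'`.  (2) Let `h' ∉ q'` and
`h' L ∈ p' ⊔ (t' ^ (k a))`, `h = vr ε h' ∉ q`: `h F ^ a ∈ p ⊔ ((t G) ^ (k a)) ≤ p ⊔ (t ^ (k a))`.  ORL for `F`:
`h₀ F - t ^ n u ∈ p`, `h₀, u ∉ q`, and `n < k` (otherwise `h₀ F ∈ p ⊔ (t ^ k)`).  So
`h t ^ (n a) u ^ a - t ^ (k a) r ∈ p` for some `r`, `t ∉ p`, so `h u ^ a - t ^ ((k - n) a) r ∈ p ≤ q`, and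
`h u ^ a ∈ q`, a contradiction. -/
def Stmt_LOV : Prop :=
  ∀ (Ω : Type) [Field Ω] [IsAlgClosed Ω] (b t E e a k : ℕ) (ε : Fin (t + 1) → Fin (b + 1) →₀ ℕ),
    Exps E ε → 1 ≤ e → 1 ≤ a → e * a = E →
    ∀ (p : Ideal (MvPolynomial (Fin (b + 1)) Ω)) (F : MvPolynomial (Fin (b + 1)) Ω),
      F.IsHomogeneous e → p.IsPrime → Hmg p →
      (∃ f : Fin 2 → MvPolynomial (Fin (b + 1)) Ω, IndMod p f) → Low k p F →
      Low (k * a) (p.comap (vr ε)) (lf fun c => coeff (ε c) (F ^ a))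

/-! ## L. Forms of bounded degree -/

/-- UEG (180 lines), uses UEV SLY LOV VRG VPT VIN H.BPF H.VFN.  PROOF.  `E = e₀ !` (`E ≥ 1`), `t`, `ε` from
VRG; `N₁'` from UEV for `t`, `c`; `N₁ = c * N₁'`.  `J = {j | Low (k j) p (F j)}`; if it has more than `N₁`
elements: `a j = E / e j` (`e j` divides `e₀ !`), `l j c = coeff (ε c) (F j ^ a j)`, `p' = p.comap (vr ε)`
(prime, homogeneous, VIN).  `lf (l j) ∉ p'` for `j ∈ J` (`Low_notMem`, `vr ε (lf (l j)) = F j ^ a j`).  For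
`z' ≠ 0` in `V(p')` VPT: `∑ l j c z'_c = c₁ F_j(z) ^ (a j)` is `0` iff `F_j(z) = 0`: at most `c` of them.
SLY: `S`, every `u ∈ S` is `l (j u)`, `j u ∈ J`.  `k' u = k (j u) * a (j u) ≥ 1` (`Low_pos`), `Low (k' u) p' (lf u)` (LOV).
UEV: `D' ∉ p'`, `D = vr ε D' ∉ p`.  For `τ`, `x`: `y_c = ∏ x i ^ (ε c i)`.  H.VFN and H.BPF with
`v c = monomial (ε c) 1` (without common zero, as `E ≥ 1`): `NC y`, `dv y z = E dv x z`, `y ≠ 0`.
`f'(y) = (vr ε f')(x) = 0` for `f' ∈ p'` (VRG).  `∑ τ(u_c) y_c = F_j(x) ^ (a j)` (`F_j^τ`), so its order is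
`a j` times that of `F_j(x)`, and `FuF (k j) x (e j)` gives `Ful (k' u) y`.  So
`D(x) = D'(y) = 0`. -/
def Stmt_UEG : Prop :=
  ∀ m c e₀ : ℕ, ∃ N₁ : ℕ, ∀ (Ω : Type) [Field Ω] [IsAlgClosed Ω] [Countable Ω] (N : ℕ)
    (k e : Fin (N + 1) → ℕ) (p : Ideal (MvPolynomial (Fin (m + 1)) Ω))
    (F : Fin (N + 1) → MvPolynomial (Fin (m + 1)) Ω),
    (∀ j, 1 ≤ e j ∧ e j ≤ e₀ ∧ (F j).IsHomogeneous (e j)) → p.IsPrime → Hmg p →
    (∃ f : Fin 2 → MvPolynomial (Fin (m + 1)) Ω, IndMod p f) →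
    (∀ z : Fin (m + 1) → Ω, z ≠ 0 → (∀ f ∈ p, eval z f = 0) →
      {j | eval z (F j) = 0}.ncard ≤ c) →
    N₁ < {j | Low (k j) p (F j)}.ncard →
    ∃ D ∉ p, ∀ (τ : Ω →+* ℂ) (x : Fin (m + 1) → Mer), NC x →
      (∀ f ∈ p, eval₂ (tm τ) x f = 0) → (∀ j, FuF (k j) x (e j) (map τ (F j))) →
      eval₂ (tm τ) x D = 0

/-- The points over `Mer` of `V(p₀)`, not constant, which meet the `F j` only with multiplicities at
least `k j` (`e j` is the degree of `F j`). -/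
def CrF {Ω : Type} [Field Ω] {m N : ℕ} (k e : Fin (N + 1) → ℕ)
    (p₀ : Ideal (MvPolynomial (Fin (m + 1)) Ω)) (F : Fin (N + 1) → MvPolynomial (Fin (m + 1)) Ω)
    (τ : Ω →+* ℂ) (x : Fin (m + 1) → Mer) : Prop :=
  NC x ∧ (∀ f ∈ p₀, eval₂ (tm τ) x f = 0) ∧ ∀ j, FuF (k j) x (e j) (map τ (F j))

/-- JWF (180 lines, a copy of B_JWI), uses UEG MPI HMP DM1.  PROOF.  That of JWI: `N₁` from UEG; `Θ` = the
kernels of `eval₂Hom (tm τ) x` with `CrF`, `W = (sInf Θ).minimalPrimes`.  For `p ∈ W` with more than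
`N₁` elements in `{j | Low ..}` apply UEG directly (SLY is not needed); the condition on the points of
`V(p)` holds because `p₀ ≤ p`.  With `x` also `t x` is in `CrF` (`F_j(t x) = t ^ (e j) F_j(x)`). -/
def Stmt_JWF : Prop :=
  ∀ m c e₀ : ℕ, ∃ N₁ : ℕ, ∀ (Ω : Type) [Field Ω] [IsAlgClosed Ω] [Countable Ω] (N : ℕ)
    (k e : Fin (N + 1) → ℕ) (p₀ : Ideal (MvPolynomial (Fin (m + 1)) Ω))
    (F : Fin (N + 1) → MvPolynomial (Fin (m + 1)) Ω),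
    (∀ j, 1 ≤ e j ∧ e j ≤ e₀ ∧ (F j).IsHomogeneous (e j)) → Hmg p₀ →
    (∀ z : Fin (m + 1) → Ω, z ≠ 0 → (∀ f ∈ p₀, eval z f = 0) →
      {j | eval z (F j) = 0}.ncard ≤ c) →
    ∃ W : Set (Ideal (MvPolynomial (Fin (m + 1)) Ω)), W.Finite ∧
      (∀ p ∈ W, p.IsPrime ∧ Hmg p ∧ p₀ ≤ p ∧ {j | Low (k j) p (F j)}.ncard ≤ N₁) ∧
      ∀ (τ : Ω →+* ℂ) (x : Fin (m + 1) → Mer), CrF k e p₀ F τ x →
        ∃ p ∈ W, ∀ f ∈ p, eval₂ (tm τ) x f = 0

/-- MPF (60 lines), uses P.NUL H.OFF.  PROOF.  As MPY: NUL with `E = ∅` and `G = bind₁ s f`; the second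
claim is OFF for every `j`. -/
def Stmt_MPF : Prop :=
  ∀ (K Ω : Type) [Field K] [Field Ω] [Algebra K Ω] [IsAlgClosed Ω] (m n N : ℕ)
    (S : Set (MvPolynomial (Fin (m + 1)) K)) (g : Mor K Ω m n S) (k e : Fin (N + 1) → ℕ)
    (p₀ : Ideal (MvPolynomial (Fin (n + 1)) Ω)) (F : Fin (N + 1) → MvPolynomial (Fin (n + 1)) Ω),
    (∀ F ∈ S, ∃ d, F.IsHomogeneous d) → Into g p₀ → (∀ j, (F j).IsHomogeneous (e j)) →
    (∀ j, FullF g (k j) (F j)) →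
    ∀ (τ : Ω →+* ℂ) (x : Fin (m + 1) → Mer), OnK (tm τ) S x → ∀ s ∈ g.tuples,
      (∃ c, eval₂ (tm τ) x (s c) ≠ 0) →
      (∀ f ∈ p₀, eval₂ (tm τ) (fun c => eval₂ (tm τ) x (s c)) f = 0) ∧
      ∀ j, FuF (k j) (fun c => eval₂ (tm τ) x (s c)) (e j) (map τ (F j))

/-- The map `f` to projective space meets the hypersurface `G = 0` at every point with multiplicity
`0` or at least `k` (or is contained in it): for all holomorphic homogeneous coordinates `φ` of `f` near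
`z₀`, without common zero at `z₀`. -/
def TngF {b : ℕ} (k : ℕ) (f : ℂ → PSpace ℂ b) (G : MvPolynomial (Fin (b + 1)) ℂ) : Prop :=
  ∀ (z₀ : ℂ) (φ : ℂ → Fin (b + 1) → ℂ), AnalyticAt ℂ φ z₀ → φ z₀ ≠ 0 →
    (∀ᶠ z in nhds z₀, ∃ h : φ z ≠ 0, f z = Projectivization.mk ℂ (φ z) h) →
    eval (φ z₀) G = 0 → (k : ℕ∞) ≤ analyticOrderAt (fun z => eval (φ z) G) z₀

/-- TGF (120 lines, a copy of `MP_f82ddf_H/B_OTN.lean`), uses M1.REP M1.ALG M1.POL M1.ORD M1.VAL.  As H.OTN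
with `k` in place of `2`: `om (aeval x G) z₀ = e dv x z₀ +` the order of the analytic function `G(ψ)` at
`z₀`, which is `0` if `G(ψ(z₀)) ≠ 0`, and at least `k` (or `⊤`) otherwise. -/
def Stmt_TGF : Prop :=
  ∀ (b e k : ℕ) (G : MvPolynomial (Fin (b + 1)) ℂ) (f : ℂ → PSpace ℂ b), HolomorphicOn f Set.univ →
    G.IsHomogeneous e → TngF k f G →
    ∀ (φ : Fin (b + 1) → ℂ → ℂ) (hφ : ∀ j z, MeromorphicAt (φ j) z) (i : Fin (b + 1)),
      Mer.mk (φ i) (hφ i) = 1 →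
      (∀ z₀, ∀ᶠ z in nhdsWithin z₀ {z₀}ᶜ, ∃ c : ℂ, c ≠ 0 ∧ ∀ j, (f z).rep j = c * φ j z) →
      FuF k (fun j => Mer.mk (φ j) (hφ j)) e G

/-- THEOREM T for forms of bounded degree with different multiplicities. -/
def Stmt_Z1 : Prop :=
  ∀ n c e₀ : ℕ, ∃ N₁ : ℕ, ∀ (K : Type) [Field K] [NumberField K] (N : ℕ) (k : Fin (N + 1) → ℕ)
    (p₀ : Ideal (MvPolynomial (Fin (n + 1)) (AlgebraicClosure K)))
    (F : Fin (N + 1) → MvPolynomial (Fin (n + 1)) (AlgebraicClosure K)), Hmg p₀ →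
    (∀ j, ∃ d, 1 ≤ d ∧ d ≤ e₀ ∧ (F j).IsHomogeneous d) →
    (∀ z : Fin (n + 1) → AlgebraicClosure K, z ≠ 0 → (∀ f ∈ p₀, eval z f = 0) →
      {j | eval z (F j) = 0}.ncard ≤ c) →
    ∃ W : Set (Ideal (MvPolynomial (Fin (n + 1)) (AlgebraicClosure K))), W.Finite ∧
      (∀ p ∈ W, p.IsPrime ∧ Hmg p ∧ p₀ ≤ p ∧ {j | Low (k j) p (F j)}.ncard ≤ N₁) ∧
      (∀ (τ : AlgebraicClosure K →+* ℂ) (f : ℂ → PSpace ℂ n), HolomorphicOn f Set.univ →
        (∀ z, ∀ G ∈ p₀, eval₂ τ (f z).rep G = 0) → (∀ j, TngF (k j) f (map τ (F j))) →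
        (∃ z₁ z₂, f z₁ ≠ f z₂) → ∃ p ∈ W, ∀ z, ∀ G ∈ p, eval₂ τ (f z).rep G = 0) ∧
      ∀ (m : ℕ) (S : Set (MvPolynomial (Fin (m + 1)) K)), (∀ F ∈ S, ∃ d, F.IsHomogeneous d) →
        ∀ (g : Mor K (AlgebraicClosure K) m n S), Into g p₀ → (∀ j, FullF g (k j) (F j)) →
        ∀ (τ : AlgebraicClosure K →+* ℂ),
          (∀ f : ℂ → PSpace ℂ m, HolomorphicOn f Set.univ →
            (∀ z, f z ∈ complexPoints S (τ.comp (algebraMap K (AlgebraicClosure K)))) →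
            (∃ p ∈ W, ∀ z, f z ∈ ExcP g p τ) ∨ InFib g τ f) ∧
          (g.Finite → (∀ f : ℂ → PSpace ℂ m, HolomorphicOn f Set.univ →
              (∀ z, f z ∈ complexPoints S (τ.comp (algebraMap K (AlgebraicClosure K)))) →
              (∃ z₁ z₂, f z₁ ≠ f z₂) → ∃ p ∈ W, ∀ z, f z ∈ ExcP g p τ) ∧
            (KobayashiHyperbolic
                (complexPoints S (τ.comp (algebraMap K (AlgebraicClosure K)))) ↔
              KobayashiHyperbolic (⋃ p ∈ W, ExcP g p τ)))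

/-- FNF (200 lines, a copy of B_FNY), uses JWF MPF NCF TGF P.MPT M0.MREL.  PROOF of `Stmt_Z1`.  As FNY; the
degrees `e j` are chosen at the beginning. -/
def Stmt_FNF : Prop := Stmt_Z1

/-- DIF (180 lines, a copy of B_DIY), uses JWF MPF NCF DDR DCO P.MPT P.FIB P.TRX M0.HOMR.  PROOF.  As DIY. -/
def Stmt_DIF : Prop :=
  ∀ n c e₀ : ℕ, ∃ N₁ : ℕ, ∀ (K : Type) [Field K] [NumberField K] (N : ℕ) (k : Fin (N + 1) → ℕ)
    (p₀ : Ideal (MvPolynomial (Fin (n + 1)) (AlgebraicClosure K)))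
    (F : Fin (N + 1) → MvPolynomial (Fin (n + 1)) (AlgebraicClosure K)), p₀.IsPrime → Hmg p₀ →
    (∀ j, ∃ d, 1 ≤ d ∧ d ≤ e₀ ∧ (F j).IsHomogeneous d) →
    (∀ z : Fin (n + 1) → AlgebraicClosure K, z ≠ 0 → (∀ f ∈ p₀, eval z f = 0) →
      {j | eval z (F j) = 0}.ncard ≤ c) →
    (∀ s : Fin 4 → Fin (n + 1), ∃ (e : ℕ) (R : MvPolynomial (Fin 4) (AlgebraicClosure K)),
      R ≠ 0 ∧ R.IsHomogeneous e ∧ rename s R ∈ p₀) →
    N₁ < {j | Low (k j) p₀ (F j)}.ncard →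
    ∀ (m : ℕ) (S : Set (MvPolynomial (Fin (m + 1)) K)), (∀ F ∈ S, ∃ d, F.IsHomogeneous d) →
      ∀ (g : Mor K (AlgebraicClosure K) m n S), g.Finite → Into g p₀ →
        (∀ j, FullF g (k j) (F j)) → Pool.ThmM0.DimMer S 1

/-- THF (200 lines, a copy of B_THY), uses JWF MPF P.MPT P.NUL P.THR P.EXB M0.HOMR DM1.  PROOF.  As THY. -/
def Stmt_THF : Prop :=
  ∀ n c e₀ : ℕ, ∃ N₁ : ℕ, ∀ (K : Type) [Field K] [NumberField K] (N d : ℕ) (k : Fin (N + 1) → ℕ)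
    (p₀ : Ideal (MvPolynomial (Fin (n + 1)) (AlgebraicClosure K)))
    (F : Fin (N + 1) → MvPolynomial (Fin (n + 1)) (AlgebraicClosure K)), p₀.IsPrime → Hmg p₀ →
    (∀ j, ∃ d, 1 ≤ d ∧ d ≤ e₀ ∧ (F j).IsHomogeneous d) →
    (∀ z : Fin (n + 1) → AlgebraicClosure K, z ≠ 0 → (∀ f ∈ p₀, eval z f = 0) →
      {j | eval z (F j) = 0}.ncard ≤ c) →
    (∃ f : Fin 2 → MvPolynomial (Fin (n + 1)) (AlgebraicClosure K), IndMod p₀ f) →
    N₁ < {j | Low (k j) p₀ (F j)}.ncard →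
    ∀ (m : ℕ) (S : Set (MvPolynomial (Fin (m + 1)) K)), (∀ F ∈ S, ∃ d, F.IsHomogeneous d) →
      ∀ (g : Mor K (AlgebraicClosure K) m n S), ThinY g p₀ d → Into g p₀ →
        (∀ j, FullF g (k j) (F j)) → Pool.ThmM0.DimMer S d

/-- THEOREM T for forms of bounded degree, Lang's criterion. -/
def Stmt_Z2 : Prop :=
  ∀ n c e₀ : ℕ, ∃ N₁ : ℕ, ∀ (K : Type) [Field K] [NumberField K] (N : ℕ) (k : Fin (N + 1) → ℕ)
    (p₀ : Ideal (MvPolynomial (Fin (n + 1)) (AlgebraicClosure K)))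
    (F : Fin (N + 1) → MvPolynomial (Fin (n + 1)) (AlgebraicClosure K)), p₀.IsPrime → Hmg p₀ →
    (∀ j, ∃ d, 1 ≤ d ∧ d ≤ e₀ ∧ (F j).IsHomogeneous d) →
    (∀ z : Fin (n + 1) → AlgebraicClosure K, z ≠ 0 → (∀ f ∈ p₀, eval z f = 0) →
      {j | eval z (F j) = 0}.ncard ≤ c) →
    N₁ < {j | Low (k j) p₀ (F j)}.ncard →
    ∀ (m : ℕ) (S : Set (MvPolynomial (Fin (m + 1)) K)), (∀ F ∈ S, ∃ d, F.IsHomogeneous d) →
      ∀ (g : Mor K (AlgebraicClosure K) m n S), Into g p₀ → (∀ j, FullF g (k j) (F j)) →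
        ((g.Finite ∧ ∀ s : Fin 4 → Fin (n + 1),
            ∃ (e : ℕ) (R : MvPolynomial (Fin 4) (AlgebraicClosure K)),
              R ≠ 0 ∧ R.IsHomogeneous e ∧ rename s R ∈ p₀) ∨
          ((∃ f : Fin 2 → MvPolynomial (Fin (n + 1)) (AlgebraicClosure K), IndMod p₀ f) ∧
            ∃ d ≤ 1, ThinY g p₀ d)) →
        (∀ σ : K →+* ℂ, KobayashiHyperbolic (complexPoints S σ) ↔
          ¬ Pool.MCL.CubicImage S (AlgebraicClosure K) (algebraMap K (AlgebraicClosure K))) ∧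
        (Pool.MCL.CubicImage S (AlgebraicClosure K) (algebraMap K (AlgebraicClosure K)) →
          ∃ (L : Type) (_ : Field L) (_ : Algebra K L) (_ : FiniteDimensional K L),
            (points S L).Infinite)

/-- FIF (80 lines, a copy of B_FIY), uses DIF THF M0.PAI P6C (`Pool.MCL.stmt_P6C`).  PROOF of `Stmt_Z2`.  As
FIY. -/
def Stmt_FIF : Prop := Stmt_Z2

/-- LPN (80 lines).  `Low` on projective space.  PROOF.  Let `q` be a minimal prime of `⊥ ⊔ (F) = (F)`.  `F ∈ q`,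
`F ≠ 0` is a product of irreducible polynomials and a unit, so some irreducible `P ∣ F` is in `q`; `(P)` is
a prime which contains `F`, so `q = (P)`.  Take `t = P`.  (1) is clear (`h = 1`).  (2) If `P ∤ h` and
`P ^ k ∣ h F`, then `P ^ k ∣ F` (`P` is prime: `Prime.pow_dvd_of_dvd_mul_left`), a contradiction. -/
def Stmt_LPN : Prop :=
  ∀ (Ω : Type) [Field Ω] (n k : ℕ) (F : MvPolynomial (Fin (n + 1)) Ω), F ≠ 0 →
    (∀ P : MvPolynomial (Fin (n + 1)) Ω, Irreducible P → ¬ P ^ k ∣ F) → Low k ⊥ F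

end Pool.MPY
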