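import Pool.Agent.Work.MP_f82ddf_Y.B_DDR

set_option autoImplicit false

/-!
# A closed set with two points has positive dimension
-/

namespace Pool.MPY

open MvPolynomial

/-- the line through `z` -/
noncomputable def TWP_phi {Ω : Type} [Field Ω] {m : ℕ} (z : Fin (m + 1) → Ω) :
    MvPolynomial (Fin (m + 1)) Ω →ₐ[Ω] Polynomial Ω :=
  aeval fun j => Polynomial.C (z j) * Polynomial.X

theorem TWP_hom {Ω : Type} [Field Ω] {m : ℕ} (z : Fin (m + 1) → Ω) (d : ℕ)
    (f : MvPolynomial (Fin (m + 1)) Ω) (hf : f.IsHomogeneous d) :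
    TWP_phi z f = Polynomial.C (eval z f) * Polynomial.X ^ d := by
  unfold TWP_phi
  rw [aeval_def, eval₂_eq', eval_eq', map_sum, Finset.sum_mul]
  refine Finset.sum_congr rfl fun e he => ?_
  have h1 : ∑ i, e i = d := by
    have h := hf (mem_support_iff.1 he)
    rw [Finsupp.weight_apply] at h
    rw [← h, Finsupp.sum_fintype]
    · simp
    · simp
  rw [Finset.prod_congr rfl fun i _ => mul_pow _ _ _, Finset.prod_mul_distrib,
    Finset.prod_pow_eq_pow_sum, h1, map_mul, map_prod]
  simp only [map_pow, Polynomial.algebraMap_eq]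
  ring

theorem TWP_mem {Ω : Type} [Field Ω] {m : ℕ} (z : Fin (m + 1) → Ω)
    (p : Ideal (MvPolynomial (Fin (m + 1)) Ω)) (hh : Hmg p) (hz : ∀ f ∈ p, eval z f = 0)
    (f : MvPolynomial (Fin (m + 1)) Ω) (hf : f ∈ p) : TWP_phi z f = 0 := by
  conv_lhs => rw [← sum_homogeneousComponent f]
  rw [map_sum]
  refine Finset.sum_eq_zero fun d _ => ?_
  rw [TWP_hom z d _ (homogeneousComponent_isHomogeneous d f), hz _ (hh f hf d)]
  simp

/-- A closed set with two points has positive dimension. -/
theorem two_points {Ω : Type} [Field Ω] {m : ℕ} (p : Ideal (MvPolynomial (Fin (m + 1)) Ω))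
    (hp : p.IsPrime) (hh : Hmg p) (z w : Fin (m + 1) → Ω) (hz : ∀ f ∈ p, eval z f = 0)
    (hw : ∀ f ∈ p, eval w f = 0) (hzw : ∃ i j, z i * w j ≠ z j * w i) :
    ∃ f : Fin 2 → MvPolynomial (Fin (m + 1)) Ω, IndMod p f := by
  obtain ⟨i, j, hij⟩ := hzw
  have ha : ∃ a, z a ≠ 0 := by
    by_contra h
    push Not at h
    rw [h i, h j] at hij
    simp at hij
  obtain ⟨a, ha⟩ := ha
  let P : Ideal (MvPolynomial (Fin (m + 1)) Ω) := RingHom.ker (TWP_phi z)
  have hP : P.IsPrime := RingHom.ker_isPrime _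
  have hle : p ≤ P := fun f hf => TWP_mem z p hh hz f hf
  let g : MvPolynomial (Fin (m + 1)) Ω := C (z i) * X j - C (z j) * X i
  have hg : g ∈ P := by
    change TWP_phi z (C (z i) * X j - C (z j) * X i) = 0
    unfold TWP_phi
    rw [map_sub, map_mul, map_mul, aeval_X, aeval_X, ← algebraMap_eq, AlgHom.commutes,
      AlgHom.commutes]
    simp only [Polynomial.algebraMap_eq]
    ring
  have hg' : g ∉ p := by
    intro h
    have h1 := hw g h
    have h2 : eval w g = z i * w j - z j * w i := by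
      change eval w (C (z i) * X j - C (z j) * X i) = _
      simp
    rw [h2] at h1
    exact hij (sub_eq_zero.1 h1)
  have hI : IndMod P (fun _ : Fin 1 => (X a : MvPolynomial (Fin (m + 1)) Ω)) := by
    intro H hH
    have h1 : TWP_phi z (aeval (fun _ : Fin 1 => (X a : MvPolynomial (Fin (m + 1)) Ω)) H) = 0 := hH
    have h2 : AlgebraicIndependent Ω (fun _ : Fin 1 => Polynomial.C (z a) * Polynomial.X) := by
      rw [algebraicIndependent_unique_type_iff]
      intro hal
      have h3 : IsAlgebraic Ω (Polynomial.C (z a)⁻¹ * (Polynomial.C (z a) * Polynomial.X)) :=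
        (isAlgebraic_algebraMap (A := Polynomial Ω) (z a)⁻¹).mul hal
      rw [← mul_assoc, ← map_mul, inv_mul_cancel₀ ha, map_one, one_mul] at h3
      exact Polynomial.transcendental_X Ω h3
    rw [algebraicIndependent_iff] at h2
    apply h2 H
    rw [← h1]
    unfold TWP_phi
    rw [← AlgHom.comp_apply, comp_aeval]
    simp
  refine ⟨_, p_DDR Ω (Fin (m + 1)) p P hp hP hle 1 _ hI g hg hg'⟩

end Pool.MPY
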